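import Pool.Agent.Work.MP_e57da2_ag.Stmt
import Mathlib

-- merged part: Pool.Agent.Work.MP_e57da2_ag.Fn
section
/-!
# The function field model of an integral scheme over `k`

`O X x` is the local ring at `x` inside the function field `Fn X`, `mp X x p` the `p`-th power of its maximal ideal,
`B X U` the ring of functions regular on `U`.
Useful: `Scheme.germToFunctionField_injective`, `germ_injective_of_isIntegral`, `TopCat.Presheaf.germ_exist`,
`TopCat.Presheaf.germ_stalkSpecializes`, `RingedSpace.isUnit_res_of_isUnit_germ`, `X.basicOpen`, `glueO`.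
-/

open CategoryTheory Limits AlgebraicGeometry TopologicalSpace IsLocalRing

namespace Pool.Agent.Work.MP_e57da2_ag

open Pool.Agent.Work.MP_910138_ag

variable {k : Type} [Field k]

/-- the function field -/
def Fn (X : Sch k) [IsIntegral X.left] : Type := X.left.functionField

variable (X : Sch k) [IsIntegral X.left]

noncomputable instance : Field (Fn X) := inferInstanceAs (Field X.left.functionField)

/-- the generic point -/
noncomputable def gp : X.left := genericPoint X.left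

theorem gp_spec (x : X.left) : gp X ⤳ x := genericPoint_specializes x

/-- a function on a nonempty open set, as an element of the function field -/
noncomputable def germ (U : X.left.Opens) (h : gp X ∈ U) : Γ(X.left, U) →+* Fn X :=
  (X.left.presheaf.germ U (gp X) h).hom

noncomputable instance : Algebra k (Fn X) := ((germ X ⊤ trivial).comp (cst X)).toAlgebra

/-- a germ at `x`, as an element of the function field -/
noncomputable def toK (x : X.left) : X.left.presheaf.stalk x →+* Fn X :=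
  (X.left.presheaf.stalkSpecializes (gp_spec X x)).hom

variable {X}

theorem gp_mem {U : X.left.Opens} {x : X.left} (h : x ∈ U) : gp X ∈ U :=
  (gp_spec X x).mem_open U.isOpen h

theorem toK_germ {U : X.left.Opens} {x : X.left} (h : x ∈ U) (s : Γ(X.left, U)) :
    toK X x (X.left.presheaf.germ U x h s) = germ X U (gp_mem h) s := by
  have := X.left.presheaf.germ_stalkSpecializes h (gp_spec X x)
  exact congrArg (fun f => f.hom s) this

theorem toK_injective (x : X.left) : Function.Injective (toK X x) :=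
  IsFractionRing.injective (X.left.presheaf.stalk x) X.left.functionField

theorem germ_injective {U : X.left.Opens} (h : gp X ∈ U) : Function.Injective (germ X U h) :=
  germ_injective_of_isIntegral X.left (gp X) h

theorem germ_res {U V : X.left.Opens} (hUV : U ≤ V) (h : gp X ∈ U) (s : Γ(X.left, V)) :
    germ X U h (resO X.left hUV s) = germ X V (hUV h) s :=
  X.left.presheaf.germ_res_apply (homOfLE hUV) (gp X) h s

theorem algebraMap_eq (c : k) : algebraMap k (Fn X) c = germ X ⊤ trivial (cst X c) := rfl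

variable (X)

/-- the local ring at `x` -/
noncomputable def O (x : X.left) : Subalgebra k (Fn X) :=
  { (toK X x).range with
    algebraMap_mem' := fun c => ⟨X.left.presheaf.germ ⊤ x trivial (cst X c), toK_germ _ _⟩ }

/-- the stalk is the local ring -/
noncomputable def stalkEquiv (x : X.left) : X.left.presheaf.stalk x ≃+* O X x :=
  RingEquiv.ofBijective ((toK X x).codRestrict (O X x) fun a => ⟨a, rfl⟩)
    ⟨fun _ _ h => toK_injective x (congrArg Subtype.val h),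
      fun ⟨_, a, ha⟩ => ⟨a, Subtype.ext ha⟩⟩

instance (x : X.left) : IsLocalRing (O X x) := (stalkEquiv X x).isLocalRing

instance (x : X.left) [IsLocallyNoetherian X.left] : IsNoetherianRing (O X x) :=
  isNoetherianRing_of_ringEquiv _ (stalkEquiv X x)

/-- the `p`-th power of the maximal ideal at `x` -/
noncomputable def mp (x : X.left) (p : ℕ) : Submodule k (Fn X) :=
  ((maximalIdeal (O X x) ^ p).restrictScalars k).map (O X x).val.toLinearMap

/-- `h` is a unit at `x` -/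
def IsU (x : X.left) (h : Fn X) : Prop := h ∈ O X x ∧ h ∉ mp X x 1

/-- the functions regular on `U` -/
noncomputable def B (U : X.left.Opens) : Subalgebra k (Fn X) := ⨅ x ∈ U, O X x

variable {X} {x y : X.left} {U V : X.left.Opens} {a b h : Fn X} {p q : ℕ}

theorem mem_O : h ∈ O X x ↔ ∃ a, toK X x a = h := Iff.rfl

theorem coe_stalkEquiv (a : X.left.presheaf.stalk x) : (stalkEquiv X x a : Fn X) = toK X x a := rfl

theorem mem_B : h ∈ B X U ↔ ∀ x ∈ U, h ∈ O X x := by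
  simp only [B, Algebra.mem_iInf]

theorem B_anti (hUV : U ≤ V) : B X V ≤ B X U := fun _ hh =>
  mem_B.2 fun x hx => mem_B.1 hh x (hUV hx)

theorem B_le_O (hx : x ∈ U) : B X U ≤ O X x := fun _ hh => mem_B.1 hh x hx

theorem Fn_exists_germ (hx : x ∈ U) (hh : h ∈ O X x) :
    ∃ (W : X.left.Opens) (_ : W ≤ U) (hW : x ∈ W) (s : Γ(X.left, W)),
      germ X W (gp_mem hW) s = h := by
  obtain ⟨a, rfl⟩ := hh
  obtain ⟨W, hWU, hW, s, rfl⟩ := X.left.presheaf.exists_le_germ_eq a hx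
  exact ⟨W, hWU, hW, s, (toK_germ hW s).symm⟩

theorem Fn_germ_mem_O (hx : x ∈ U) (s : Γ(X.left, U)) : germ X U (gp_mem hx) s ∈ O X x :=
  ⟨_, toK_germ hx s⟩

theorem mem_B_iff_germ (hU : gp X ∈ U) : h ∈ B X U ↔ ∃ s, germ X U hU s = h := by
  constructor
  · intro hh
    choose W hWU hW s hs using fun x : U => Fn_exists_germ x.2 (mem_B.1 hh x x.2)
    obtain ⟨t, ht⟩ := glueO (X := X.left) W hWU
      (fun x hx => Opens.mem_iSup.2 ⟨⟨x, hx⟩, hW _⟩) s fun i j => by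
        have hg : gp X ∈ W i ⊓ W j := ⟨gp_mem (hW i), gp_mem (hW j)⟩
        apply germ_injective hg
        rw [germ_res, germ_res, hs, hs]
    refine ⟨t, ?_⟩
    rw [← hs ⟨_, hU⟩, ← ht, germ_res]
  · rintro ⟨s, rfl⟩
    exact mem_B.2 fun x hx => Fn_germ_mem_O hx s

theorem germ_mem_B (hU : gp X ∈ U) (s : Γ(X.left, U)) : germ X U hU s ∈ B X U :=
  (mem_B_iff_germ hU).2 ⟨s, rfl⟩

theorem Fn_toK_gp (a : X.left.presheaf.stalk (gp X)) : toK X (gp X) a = a := by
  have := X.left.presheaf.stalkSpecializes_refl (gp X)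
  exact congrArg (fun f => f.hom a) this

theorem O_gp : O X (gp X) = ⊤ :=
  eq_top_iff.2 fun h _ => ⟨h, Fn_toK_gp h⟩

theorem O_le_of_spec (hxy : x ⤳ y) : O X y ≤ O X x := fun _ hh => by
  obtain ⟨W, -, hW, s, rfl⟩ := Fn_exists_germ (U := ⊤) trivial hh
  exact Fn_germ_mem_O (hxy.mem_open W.isOpen hW) s

theorem mem_mp : h ∈ mp X x p ↔ ∃ a : O X x, a ∈ maximalIdeal (O X x) ^ p ∧ (a : Fn X) = h :=
  Iff.rfl

theorem coe_mem_mp (a : O X x) : (a : Fn X) ∈ mp X x p ↔ a ∈ maximalIdeal (O X x) ^ p := by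
  rw [mem_mp]
  constructor
  · rintro ⟨b, hb, e⟩
    rwa [← Subtype.ext e]
  · exact fun ha => ⟨a, ha, rfl⟩

theorem toK_mem_mp (a : X.left.presheaf.stalk x) :
    toK X x a ∈ mp X x p ↔ a ∈ maximalIdeal (X.left.presheaf.stalk x) ^ p := by
  rw [← coe_stalkEquiv, coe_mem_mp, ← IsLocalRing.map_ringEquiv_maximalIdeal (stalkEquiv X x),
    ← Ideal.map_pow, Ideal.apply_mem_of_equiv_iff]

theorem mem_O_of_mp (hh : h ∈ mp X x p) : h ∈ O X x := by
  obtain ⟨a, -, rfl⟩ := mem_mp.1 hh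
  exact a.2

theorem mem_mp_zero : h ∈ mp X x 0 ↔ h ∈ O X x :=
  ⟨mem_O_of_mp, fun hh => mem_mp.2 ⟨⟨h, hh⟩, by simp, rfl⟩⟩

theorem mp_anti (hpq : p ≤ q) : mp X x q ≤ mp X x p := fun _ hh => by
  obtain ⟨a, ha, rfl⟩ := mem_mp.1 hh
  exact mem_mp.2 ⟨a, Ideal.pow_le_pow_right hpq ha, rfl⟩

theorem mul_mem_mp (ha : a ∈ mp X x p) (hb : b ∈ mp X x q) : a * b ∈ mp X x (p + q) := by
  obtain ⟨a', ha', rfl⟩ := mem_mp.1 ha
  obtain ⟨b', hb', rfl⟩ := mem_mp.1 hb
  exact mem_mp.2 ⟨a' * b', by rw [pow_add]; exact Ideal.mul_mem_mul ha' hb', rfl⟩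

theorem O_mul_mem_mp (ha : a ∈ O X x) (hb : b ∈ mp X x p) : a * b ∈ mp X x p := by
  simpa using mul_mem_mp (mem_mp_zero.2 ha) hb

theorem Fn_coe_mem_mp_one (a : O X x) : (a : Fn X) ∈ mp X x 1 ↔ ¬ IsUnit a := by
  rw [coe_mem_mp, pow_one, mem_maximalIdeal, mem_nonunits_iff]

theorem Fn_isUnit_iff (a : O X x) : IsUnit a ↔ (a : Fn X) ≠ 0 ∧ (a : Fn X)⁻¹ ∈ O X x := by
  constructor
  · intro ha
    obtain ⟨b, hb⟩ := ha.exists_right_inv
    have e : (a : Fn X) * b = 1 := congrArg Subtype.val hb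
    refine ⟨left_ne_zero_of_mul_eq_one e, ?_⟩
    rw [← eq_inv_of_mul_eq_one_right e]
    exact b.2
  · rintro ⟨h0, hi⟩
    exact IsUnit.of_mul_eq_one ⟨_, hi⟩ (Subtype.ext (mul_inv_cancel₀ h0))

theorem one_notMem_mp : (1 : Fn X) ∉ mp X x 1 := fun h1 =>
  (Fn_coe_mem_mp_one (1 : O X x)).1 h1 isUnit_one

theorem mem_mp_or (ha : a ∈ O X x) (hb : b ∈ O X x) (hab : a * b ∈ mp X x 1) :
    a ∈ mp X x 1 ∨ b ∈ mp X x 1 := by
  have h1 := (Fn_coe_mem_mp_one ((⟨a, ha⟩ : O X x) * ⟨b, hb⟩)).1 hab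
  by_contra hn
  rw [not_or] at hn
  exact h1 ((not_not.1 (mt (Fn_coe_mem_mp_one ⟨a, ha⟩).2 hn.1)).mul
    (not_not.1 (mt (Fn_coe_mem_mp_one ⟨b, hb⟩).2 hn.2)))

theorem mem_mp_gp : h ∈ mp X (gp X) 1 ↔ h = 0 := by
  have hO : ∀ c : Fn X, c ∈ O X (gp X) := fun c => O_gp (X := X) ▸ Algebra.mem_top
  have h1 := Fn_coe_mem_mp_one (⟨h, hO h⟩ : O X (gp X))
  rw [Fn_isUnit_iff] at h1
  simpa [hO] using h1

theorem mem_mp_of_spec (hxy : x ⤳ y) (hh : h ∈ O X y) (h₁ : h ∈ mp X x 1) : h ∈ mp X y 1 := by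
  refine (Fn_coe_mem_mp_one ⟨h, hh⟩).2 fun hu => ?_
  obtain ⟨h0, hi⟩ := (Fn_isUnit_iff _).1 hu
  exact (Fn_coe_mem_mp_one ⟨h, O_le_of_spec hxy hh⟩).1 h₁
    ((Fn_isUnit_iff _).2 ⟨h0, O_le_of_spec hxy hi⟩)

theorem isU_iff : IsU X x h ↔ h ≠ 0 ∧ h ∈ O X x ∧ h⁻¹ ∈ O X x := by
  constructor
  · rintro ⟨h1, h2⟩
    obtain ⟨h0, hi⟩ := (Fn_isUnit_iff _).1 (not_not.1 (mt (Fn_coe_mem_mp_one ⟨h, h1⟩).2 h2))
    exact ⟨h0, h1, hi⟩
  · rintro ⟨h0, h1, hi⟩
    exact ⟨h1, fun h2 => (Fn_coe_mem_mp_one ⟨h, h1⟩).1 h2 ((Fn_isUnit_iff _).2 ⟨h0, hi⟩)⟩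

theorem isU_coe (a : O X x) : IsU X x a ↔ IsUnit a := by
  rw [isU_iff, Fn_isUnit_iff]
  exact ⟨fun h => ⟨h.1, h.2.2⟩, fun h => ⟨h.1, a.2, h.2⟩⟩

theorem IsU.ne_zero (ha : IsU X x a) : a ≠ 0 := (isU_iff.1 ha).1

theorem isU_one : IsU X x 1 := ⟨one_mem _, one_notMem_mp⟩

theorem IsU.mul (ha : IsU X x a) (hb : IsU X x b) : IsU X x (a * b) :=
  ⟨mul_mem ha.1 hb.1, fun h => (mem_mp_or ha.1 hb.1 h).elim ha.2 hb.2⟩

theorem IsU.inv (ha : IsU X x a) : IsU X x a⁻¹ := by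
  obtain ⟨h0, h1, h2⟩ := isU_iff.1 ha
  exact isU_iff.2 ⟨inv_ne_zero h0, h2, by rwa [inv_inv]⟩

theorem IsU.div (ha : IsU X x a) (hb : IsU X x b) : IsU X x (a / b) := by
  rw [div_eq_mul_inv]
  exact ha.mul hb.inv

theorem IsU.pow (ha : IsU X x a) (n : ℕ) : IsU X x (a ^ n) := by
  induction n with
  | zero => rw [pow_zero]; exact isU_one
  | succ n ih => rw [pow_succ]; exact ih.mul ha

theorem IsU.zpow (ha : IsU X x a) (n : ℤ) : IsU X x (a ^ n) := by
  obtain ⟨m, rfl | rfl⟩ := n.eq_nat_or_neg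
  · rw [zpow_natCast]; exact ha.pow m
  · rw [zpow_neg, zpow_natCast]; exact (ha.pow m).inv

theorem IsU.of_mul (ha : a ∈ O X x) (hb : b ∈ O X x) (hab : IsU X x (a * b)) :
    IsU X x a ∧ IsU X x b :=
  ⟨⟨ha, fun h => hab.2 (mul_comm b a ▸ O_mul_mem_mp hb h)⟩,
    ⟨hb, fun h => hab.2 (O_mul_mem_mp ha h)⟩⟩

theorem IsU.add_mp (ha : IsU X x a) (hb : b ∈ mp X x 1) : IsU X x (a + b) :=
  ⟨add_mem ha.1 (mem_O_of_mp hb), fun h => ha.2 (by simpa using sub_mem h hb)⟩

theorem IsU.of_spec (hxy : x ⤳ y) (ha : IsU X y a) : IsU X x a :=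
  ⟨O_le_of_spec hxy ha.1, fun h => ha.2 (mem_mp_of_spec hxy ha.1 h)⟩

theorem isU_gp : IsU X (gp X) h ↔ h ≠ 0 := by
  rw [IsU, mem_mp_gp, O_gp]
  simp

theorem isU_algebraMap {c : k} (hc : c ≠ 0) : IsU X x (algebraMap k (Fn X) c) := by
  refine isU_iff.2 ⟨(_root_.map_ne_zero _).2 hc, Subalgebra.algebraMap_mem _ _, ?_⟩
  rw [← map_inv₀]
  exact Subalgebra.algebraMap_mem _ _

theorem IsU.mul_mem_O_iff (ha : IsU X x a) : a * b ∈ O X x ↔ b ∈ O X x := by
  refine ⟨fun h => ?_, fun h => mul_mem ha.1 h⟩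
  have := mul_mem ha.inv.1 h
  rwa [inv_mul_cancel_left₀ ha.ne_zero] at this

theorem IsU.mul_mem_mp_iff (ha : IsU X x a) : a * b ∈ mp X x p ↔ b ∈ mp X x p := by
  refine ⟨fun h => ?_, fun h => O_mul_mem_mp ha.1 h⟩
  have := O_mul_mem_mp ha.inv.1 h
  rwa [inv_mul_cancel_left₀ ha.ne_zero] at this

theorem isOpen_O (h : Fn X) : IsOpen {x | h ∈ O X x} := by
  refine isOpen_iff_forall_mem_open.2 fun x hx => ?_
  obtain ⟨W, -, hW, s, rfl⟩ := Fn_exists_germ (U := ⊤) trivial hx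
  exact ⟨W, fun y hy => Fn_germ_mem_O hy s, W.isOpen, hW⟩

theorem isOpen_isU (h : Fn X) : IsOpen {x | IsU X x h} := by
  by_cases h0 : h = 0
  · have : {x | IsU X x h} = ∅ := Set.eq_empty_of_forall_notMem fun x hx => IsU.ne_zero hx h0
    rw [this]
    exact isOpen_empty
  · have : {x | IsU X x h} = {x | h ∈ O X x} ∩ {x | h⁻¹ ∈ O X x} := by
      ext x
      simp [isU_iff, h0]
    rw [this]
    exact (isOpen_O h).inter (isOpen_O h⁻¹)

/-- the open set where `h` is regular -/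
def reg (h : Fn X) : X.left.Opens := ⟨{x | h ∈ O X x}, isOpen_O h⟩

/-- the open set where `h` is a unit -/
def ul (h : Fn X) : X.left.Opens := ⟨{x | IsU X x h}, isOpen_isU h⟩

theorem mem_reg : x ∈ reg h ↔ h ∈ O X x := Iff.rfl

theorem mem_ul : x ∈ ul h ↔ IsU X x h := Iff.rfl

theorem basicOpen_eq (hU : gp X ∈ U) (s : Γ(X.left, U)) :
    X.left.basicOpen s = U ⊓ ul (germ X U hU s) := by
  have key : ∀ (x : X.left) (hx : x ∈ U),
      IsUnit (X.left.presheaf.germ U x hx s) ↔ IsU X x (germ X U hU s) := fun x hx => by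
    rw [← toK_germ hx s, ← coe_stalkEquiv, isU_coe]
    exact (isUnit_map_iff (stalkEquiv X x) _).symm
  ext x
  constructor
  · intro hx
    obtain ⟨hxU, hu⟩ := (X.left.mem_basicOpen'' s x).1 hx
    exact ⟨hxU, (key x hxU).1 hu⟩
  · rintro ⟨hxU, hu⟩
    exact (X.left.mem_basicOpen'' s x).2 ⟨hxU, (key x hxU).2 hu⟩

/-- the sections over `U` are the functions regular on `U` -/
noncomputable def secEquiv (hU : gp X ∈ U) : Γ(X.left, U) ≃+* B X U :=
  RingEquiv.ofBijective ((germ X U hU).codRestrict (B X U) (germ_mem_B hU))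
    ⟨fun _ _ h => germ_injective hU (congrArg Subtype.val h),
      fun b => ((mem_B_iff_germ hU).1 b.2).imp fun _ ha => Subtype.ext ha⟩

theorem coe_secEquiv (hU : gp X ∈ U) (s : Γ(X.left, U)) :
    (secEquiv hU s : Fn X) = germ X U hU s := rfl

end Pool.Agent.Work.MP_e57da2_ag
end

-- merged part: Pool.Agent.Work.MP_e57da2_ag.Aff
section
/-!
# The dictionary between an affine open set and its ring of functions

Transport along `secEquiv` and `stalkEquiv`.  Useful: `IsAffineOpen.isLocalization_stalk`, `IsAffineOpen.primeIdealOf`,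
`IsAffineOpen.fromSpec`, `IsAffineOpen.isLocalization_basicOpen`, `IsAffineOpen.exists_basicOpen_le`,
`IsAffineOpen.iSup_basicOpen_eq_self_iff`, `isAffineOpen_of_isAffineOpen_basicOpen`, `LocallyOfFiniteType.jacobsonSpace`,
`LocallyOfFiniteType.isLocallyNoetherian`, `IsAffineOpen.inf`, `basicOpen_eq`.
-/

open CategoryTheory Limits AlgebraicGeometry TopologicalSpace IsLocalRing

namespace Pool.Agent.Work.MP_e57da2_ag

open Pool.Agent.Work.MP_910138_ag

variable {k : Type} [Field k] {X : Sch k}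

section top

variable [IsProper X.hom]

instance sch_noeth : IsLocallyNoetherian X.left :=
  LocallyOfFiniteType.isLocallyNoetherian X.hom

instance sch_compact : CompactSpace X.left :=
  QuasiCompact.compactSpace_of_compactSpace X.hom

instance sch_noethSpace : NoetherianSpace X.left :=
  haveI : IsNoetherian X.left := {}
  inferInstance

instance sch_jacobson : JacobsonSpace X.left :=
  haveI : JacobsonSpace (Spec (CommRingCat.of k)) := inferInstanceAs (JacobsonSpace (PrimeSpectrum k))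
  LocallyOfFiniteType.jacobsonSpace X.hom

instance sch_sep : X.left.IsSeparated := by
  rw [Scheme.isSeparated_iff, ← terminal.comp_from X.hom]
  infer_instance

theorem aff_inf {U V : X.left.Opens} (hU : IsAffineOpen U) (hV : IsAffineOpen V) :
    IsAffineOpen (U ⊓ V) :=
  hU.inf hV

theorem aff_finset_inf {ι : Type} {U : ι → X.left.Opens} (hU : ∀ i, IsAffineOpen (U i))
    {S : Finset ι} (hS : S.Nonempty) : IsAffineOpen (S.inf U) := by
  induction hS using Finset.Nonempty.cons_induction with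
  | singleton a => simpa using hU a
  | cons a s _ _ ih =>
    rw [Finset.inf_cons]
    exact aff_inf (hU a) ih

theorem exists_closed_spec (x : X.left) : ∃ y, x ⤳ y ∧ IsClosed ({y} : Set X.left) := by
  obtain ⟨y, hy, hc⟩ := (isClosed_closure (s := {x})).exists_closed_singleton
    ⟨x, subset_closure rfl⟩
  exact ⟨y, specializes_iff_mem_closure.2 hy, hc⟩

/-- every point of an open set specialises to a closed point in that open set -/
theorem exists_closed_spec_mem {U : X.left.Opens} {x : X.left} (hx : x ∈ U) :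
    ∃ y ∈ U, x ⤳ y ∧ IsClosed ({y} : Set X.left) := by
  obtain ⟨y, ⟨h1, h2⟩, h3⟩ := nonempty_inter_closedPoints (Z := (U : Set X.left) ∩ closure {x})
    ⟨x, hx, subset_closure rfl⟩ (U.isOpen.isLocallyClosed.inter isClosed_closure.isLocallyClosed)
  exact ⟨y, h1, specializes_iff_mem_closure.2 h2, h3⟩

theorem le_of_closed {U V : X.left.Opens}
    (h : ∀ x ∈ U, IsClosed ({x} : Set X.left) → x ∈ V) : U ≤ V := fun x hx => by
  obtain ⟨y, h1, h2, h3⟩ := exists_closed_spec_mem hx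
  exact h2.mem_open V.isOpen (h y h1 h3)

end top

theorem exists_aff {W : X.left.Opens} {x : X.left} (hx : x ∈ W) :
    ∃ U : X.left.Opens, IsAffineOpen U ∧ x ∈ U ∧ U ≤ W :=
  exists_isAffineOpen_mem_and_subset hx

variable [IsIntegral X.left] {x y : X.left} {U V : X.left.Opens} {f h : Fn X} {p : ℕ}

/-- the prime ideal of the point `x` -/
noncomputable def pr (hx : x ∈ U) : Ideal (B X U) :=
  (maximalIdeal (O X x)).comap (Subalgebra.inclusion (B_le_O hx))

theorem mem_pr (hx : x ∈ U) (b : B X U) : b ∈ pr hx ↔ (b : Fn X) ∈ mp X x 1 := by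
  rw [pr, Ideal.mem_comap, ← pow_one (maximalIdeal (O X x)), ← coe_mem_mp]
  rfl

instance pr_prime (hx : x ∈ U) : (pr hx).IsPrime :=
  Ideal.IsPrime.comap _

theorem coe_mem_mp_of_pr (hx : x ∈ U) {b : B X U} (hb : b ∈ pr hx ^ p) : (b : Fn X) ∈ mp X x p :=
  (coe_mem_mp (Subalgebra.inclusion (B_le_O hx) b)).2 (Ideal.le_comap_pow _ p hb)

theorem aff_bridge (hU : IsAffineOpen U) (hx : x ∈ U) (s : Γ(X.left, U)) :
    secEquiv (gp_mem hx) s ∈ pr hx ↔ s ∈ (hU.primeIdealOf ⟨x, hx⟩).asIdeal := by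
  let := X.left.presheaf.algebra_section_stalk ⟨x, hx⟩
  have := hU.isLocalization_stalk ⟨x, hx⟩
  rw [mem_pr, coe_secEquiv, ← toK_germ hx, toK_mem_mp, pow_one]
  exact IsLocalization.AtPrime.to_map_mem_maximal_iff (X.left.presheaf.stalk x) _ s

theorem aff_frac_aux (hU : IsAffineOpen U) (hx : x ∈ U) (hh : h ∈ O X x) :
    ∃ b ∈ B X U, IsU X x b ∧ b * h ∈ B X U := by
  let := X.left.presheaf.algebra_section_stalk ⟨x, hx⟩
  have := hU.isLocalization_stalk ⟨x, hx⟩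
  obtain ⟨a, rfl⟩ := mem_O.1 hh
  obtain ⟨⟨r, s⟩, e⟩ := IsLocalization.surj (hU.primeIdealOf ⟨x, hx⟩).asIdeal.primeCompl a
  have e' := congrArg (toK X x) e
  have k1 : ∀ a : Γ(X.left, U), toK X x (algebraMap _ _ a) = germ X U (gp_mem hx) a := toK_germ hx
  rw [map_mul, k1, k1] at e'
  refine ⟨_, germ_mem_B (gp_mem hx) s.1, ⟨B_le_O hx (germ_mem_B _ _), fun hs => s.2 ?_⟩, ?_⟩
  · exact (aff_bridge hU hx _).1 ((mem_pr hx _).2 hs)
  · rw [mul_comm, e']
    exact germ_mem_B _ _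

theorem aff_isLocalization (hU : IsAffineOpen U) (hx : x ∈ U) :
    letI := (Subalgebra.inclusion (B_le_O hx)).toRingHom.toAlgebra
    IsLocalization.AtPrime (O X x) (pr hx) := by
  let := (Subalgebra.inclusion (B_le_O hx)).toRingHom.toAlgebra
  refine (isLocalization_iff _ _).2 ⟨fun y => ?_, fun z => ?_, fun {a b} hab => ⟨1, ?_⟩⟩
  · exact (notMem_maximalIdeal (R := O X x)).1 y.2
  · obtain ⟨b, h1, h2, h3⟩ := aff_frac_aux hU hx z.2
    exact ⟨(⟨_, h3⟩, ⟨⟨b, h1⟩, fun hb => h2.2 ((mem_pr hx _).1 hb)⟩), Subtype.ext (mul_comm _ _)⟩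
  · rw [Subalgebra.inclusion_injective (B_le_O hx) hab]

theorem aff_frac (hU : IsAffineOpen U) (hx : x ∈ U) (hh : h ∈ O X x) :
    ∃ b ∈ B X U, IsU X x b ∧ b * h ∈ B X U :=
  aff_frac_aux hU hx hh

theorem aff_frac_mp (hU : IsAffineOpen U) (hx : x ∈ U) (hh : h ∈ mp X x p) :
    ∃ (a : B X U) (b : Fn X), a ∈ pr hx ^ p ∧ b ∈ B X U ∧ IsU X x b ∧ b * h = a := by
  let := (Subalgebra.inclusion (B_le_O hx)).toRingHom.toAlgebra
  have := aff_isLocalization hU hx
  obtain ⟨a, ha, rfl⟩ := mem_mp.1 hh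
  rw [← IsLocalization.AtPrime.map_eq_maximalIdeal (pr hx) (O X x), ← Ideal.map_pow,
    IsLocalization.mem_map_algebraMap_iff (pr hx).primeCompl] at ha
  obtain ⟨⟨r, s⟩, e⟩ := ha
  exact ⟨r.1, s.1.1, r.2, s.1.2, ⟨B_le_O hx s.1.2, fun hs => s.2 ((mem_pr hx _).2 hs)⟩,
    (mul_comm _ _).trans (congrArg Subtype.val e)⟩

theorem aff_frac_field (hU : IsAffineOpen U) (hg : gp X ∈ U) (h : Fn X) :
    ∃ b ∈ B X U, b ≠ 0 ∧ b * h ∈ B X U := by
  obtain ⟨b, h1, h2, h3⟩ := aff_frac (h := h) hU hg (by rw [O_gp]; trivial)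
  exact ⟨b, h1, h2.ne_zero, h3⟩

theorem aff_point (hU : IsAffineOpen U) (hg : gp X ∈ U) (𝔮 : Ideal (B X U)) [𝔮.IsPrime] :
    ∃ (x : X.left) (hx : x ∈ U), pr hx = 𝔮 := by
  let P : PrimeSpectrum Γ(X.left, U) := ⟨𝔮.comap (secEquiv hg), Ideal.IsPrime.comap _⟩
  have hx : hU.fromSpec P ∈ U := hU.range_fromSpec.subset ⟨P, rfl⟩
  have e : hU.primeIdealOf ⟨_, hx⟩ = P :=
    hU.fromSpec.isOpenEmbedding.injective (hU.fromSpec_primeIdealOf ⟨_, hx⟩)
  refine ⟨_, hx, Ideal.ext fun b => ?_⟩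
  obtain ⟨s, rfl⟩ := (secEquiv hg).surjective b
  rw [aff_bridge hU hx, e]
  rfl

theorem aff_spec (hU : IsAffineOpen U) (hx : x ∈ U) (hy : y ∈ U) : x ⤳ y ↔ pr hx ≤ pr hy := by
  have h1 : x ⤳ y ↔ hU.primeIdealOf ⟨x, hx⟩ ⤳ hU.primeIdealOf ⟨y, hy⟩ := by
    have := hU.fromSpec.isOpenEmbedding.isInducing.specializes_iff
      (x := hU.primeIdealOf ⟨x, hx⟩) (y := hU.primeIdealOf ⟨y, hy⟩)
    rwa [hU.fromSpec_primeIdealOf, hU.fromSpec_primeIdealOf] at this
  rw [h1, ← PrimeSpectrum.le_iff_specializes]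
  refine ⟨fun h b hb => ?_, fun h s hs => (aff_bridge hU hy s).1 (h ((aff_bridge hU hx s).2 hs))⟩
  obtain ⟨s, rfl⟩ := (secEquiv (gp_mem hx)).surjective b
  exact (aff_bridge hU hy s).2 (h ((aff_bridge hU hx s).1 hb))

theorem pr_maximal (hU : IsAffineOpen U) (hx : x ∈ U) (hc : IsClosed ({x} : Set X.left)) :
    (pr hx).IsMaximal := by
  obtain ⟨M, hM, hle⟩ := Ideal.exists_le_maximal _ (pr_prime hx).ne_top
  obtain ⟨y, hy, rfl⟩ := aff_point hU (gp_mem hx) M
  obtain rfl : y = x := ((aff_spec hU hx hy).2 hle).mem_closed hc rfl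
  exact hM

theorem closed_of_pr_maximal [IsProper X.hom] (hU : IsAffineOpen U) (hx : x ∈ U)
    (hc : (pr hx).IsMaximal) : IsClosed ({x} : Set X.left) := by
  obtain ⟨y, hy, h1, h2⟩ := exists_closed_spec_mem hx
  have e := hc.eq_of_le (pr_prime hy).ne_top ((aff_spec hU hx hy).1 h1)
  obtain rfl : x = y := ((aff_spec hU hy hx).2 e.ge).mem_closed h2 rfl
  exact h2

theorem mem_pr_pow (hU : IsAffineOpen U) (hx : x ∈ U) (hc : IsClosed ({x} : Set X.left))
    (b : B X U) : b ∈ pr hx ^ p ↔ (b : Fn X) ∈ mp X x p := by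
  refine ⟨coe_mem_mp_of_pr hx, fun hb => ?_⟩
  have := pr_maximal hU hx hc
  obtain ⟨a, c, h1, h2, h3, h4⟩ := aff_frac_mp hU hx hb
  have e : (⟨c, h2⟩ : B X U) * b = a := Subtype.ext h4
  exact (Ideal.IsMaximal.mul_mem_pow _ (e ▸ h1)).resolve_left fun h => h3.2 ((mem_pr hx _).1 h)

/-- jets at a closed point are jets of functions on an affine neighbourhood -/
theorem aff_jet (hU : IsAffineOpen U) (hx : x ∈ U) (hc : IsClosed ({x} : Set X.left))
    (hh : h ∈ O X x) (p : ℕ) : ∃ b ∈ B X U, h - b ∈ mp X x p := by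
  have := pr_maximal hU hx hc
  obtain ⟨c, h1, h2, h3⟩ := aff_frac hU hx hh
  obtain ⟨y, i, hi, e⟩ := Ideal.IsMaximal.exists_inv_pow (pr hx) (x := ⟨c, h1⟩)
    (fun h => h2.2 ((mem_pr hx _).1 h)) p
  have e' : (y : Fn X) * c + i = 1 := congrArg Subtype.val e
  refine ⟨y * (c * h), mul_mem y.2 h3, ?_⟩
  have e2 : h - y * (c * h) = h * i := by linear_combination (-h) * e'
  rw [e2]
  exact O_mul_mem_mp hh (coe_mem_mp_of_pr hx hi)

/-- a function vanishing at the closed point `x` and invertible at `y ≠ x` -/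
theorem aff_separate (hU : IsAffineOpen U) (hx : x ∈ U) (hy : y ∈ U)
    (hc : IsClosed ({x} : Set X.left)) (hne : y ≠ x) : ∃ b ∈ B X U, b ∈ mp X x 1 ∧ IsU X y b := by
  have h1 : ¬ pr hx ≤ pr hy := fun h => hne (((aff_spec hU hx hy).2 h).mem_closed hc rfl)
  obtain ⟨b, h2, h3⟩ := SetLike.not_le_iff_exists.1 h1
  exact ⟨b, b.2, (mem_pr hx b).1 h2, B_le_O hy b.2, fun h => h3 ((mem_pr hy b).2 h)⟩

theorem aff_finiteType [IsProper X.hom] (hU : IsAffineOpen U) (hg : gp X ∈ U) :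
    Algebra.FiniteType k (B X U) := by
  have h1 := X.hom.finiteType_appLE (isAffineOpen_top _) hU le_top
  have h2 : (Scheme.ΓSpecIso (CommRingCat.of k)).inv.hom.FiniteType :=
    .of_surjective _ (Scheme.ΓSpecIso (CommRingCat.of k)).symm.commRingCatIsoToRingEquiv.surjective
  have h3 := (RingHom.FiniteType.of_surjective _ (secEquiv hg).surjective).comp (h1.comp h2)
  rw [← RingHom.finiteType_algebraMap]
  convert h3 using 1
  exact RingHom.ext fun c => Subtype.ext (germ_res le_top hg (cst X c)).symm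

theorem aff_noeth [IsProper X.hom] (hU : IsAffineOpen U) (hg : gp X ∈ U) :
    IsNoetherianRing (B X U) :=
  haveI := aff_finiteType hU hg
  Algebra.FiniteType.isNoetherianRing k _

theorem aff_basic (hU : IsAffineOpen U) (hf : f ∈ B X U) : IsAffineOpen (U ⊓ ul f) := by
  by_cases hg : gp X ∈ U
  · obtain ⟨s, rfl⟩ := (mem_B_iff_germ hg).1 hf
    rw [← basicOpen_eq]
    exact hU.basicOpen s
  · rwa [inf_eq_left.2 fun x hx => absurd (gp_mem hx) hg]

theorem aff_exists_basic (hU : IsAffineOpen U) (hx : x ∈ U) (hV : x ∈ V) :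
    ∃ f ∈ B X U, IsU X x f ∧ U ⊓ ul f ≤ V := by
  obtain ⟨s, h1, h2⟩ := hU.exists_basicOpen_le ⟨x, hV⟩ hx
  rw [basicOpen_eq (gp_mem hx)] at h1 h2
  exact ⟨_, germ_mem_B _ s, h2.2, h1⟩

theorem aff_ext (hU : IsAffineOpen U) (hf : f ∈ B X U) (hg : gp X ∈ U) (h0 : f ≠ 0)
    (hh : h ∈ B X (U ⊓ ul f)) : ∃ n : ℕ, f ^ n * h ∈ B X U := by
  obtain ⟨s, rfl⟩ := (mem_B_iff_germ hg).1 hf
  have hg' : gp X ∈ X.left.basicOpen s := by
    rw [basicOpen_eq hg]
    exact ⟨hg, isU_gp.2 h0⟩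
  rw [← basicOpen_eq] at hh
  obtain ⟨t, rfl⟩ := (mem_B_iff_germ hg').1 hh
  have := hU.isLocalization_basicOpen s
  obtain ⟨n, r, e⟩ := IsLocalization.Away.surj s t
  have e' := congrArg (germ X _ hg') e
  have k1 : ∀ a : Γ(X.left, U), germ X _ hg' (algebraMap _ _ a) = germ X U hg a := fun a =>
    germ_res (X.left.basicOpen_le s) hg' a
  rw [map_mul, map_pow, k1, k1] at e'
  exact ⟨n, by rw [mul_comm, e']; exact germ_mem_B _ _⟩

/-- partition of unity -/
theorem aff_partition (hU : IsAffineOpen U) (hg : gp X ∈ U) (T : Set (Fn X))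
    (hT : ∀ f ∈ T, f ∈ B X U) (h : ∀ x ∈ U, ∃ f ∈ T, IsU X x f) :
    ∃ (n : ℕ) (f b : Fin n → Fn X), (∀ l, f l ∈ T) ∧ (∀ l, b l ∈ B X U) ∧ ∑ l, b l * f l = 1 := by
  have h1 : Ideal.span {b : B X U | (b : Fn X) ∈ T} = ⊤ := by
    by_contra hne
    obtain ⟨M, hM, hle⟩ := Ideal.exists_le_maximal _ hne
    obtain ⟨x, hx, rfl⟩ := aff_point hU hg M
    obtain ⟨f, hf, hu⟩ := h x hx
    exact hu.2 ((mem_pr hx ⟨f, hT f hf⟩).1 (hle (Ideal.subset_span hf)))
  obtain ⟨n, b, f, e⟩ := Submodule.mem_span_set'.1 ((Ideal.eq_top_iff_one _).1 h1)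
  refine ⟨n, fun l => (f l).1, fun l => b l, fun l => (f l).2, fun l => (b l).2, ?_⟩
  simpa using congrArg Subtype.val e

theorem aff_of_partition {ι : Type} [Fintype ι] (hg : gp X ∈ U) (f b : ι → Fn X)
    (hf : ∀ l, f l ∈ B X U) (hb : ∀ l, b l ∈ B X U) (h : ∑ l, b l * f l = 1)
    (ha : ∀ l, IsAffineOpen (U ⊓ ul (f l))) : IsAffineOpen U := by
  choose s hs using fun l => (mem_B_iff_germ hg).1 (hf l)
  choose t ht using fun l => (mem_B_iff_germ hg).1 (hb l)
  refine isAffineOpen_of_isAffineOpen_basicOpen U (Set.range s) ?_ ?_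
  · have e : ∑ l, t l * s l = 1 := germ_injective hg (by simp [hs, ht, h])
    rw [Ideal.eq_top_iff_one, ← e]
    exact Ideal.sum_mem _ fun l _ => Ideal.mul_mem_left _ _ (Ideal.subset_span ⟨l, rfl⟩)
  · rintro _ ⟨l, rfl⟩
    rw [basicOpen_eq hg, hs]
    exact ha l

/-- a function vanishing at all closed points of a nonempty open set vanishes -/
theorem eq_zero_of_closed [IsProper X.hom] (hg : gp X ∈ U)
    (hh : ∀ x ∈ U, IsClosed ({x} : Set X.left) → h ∈ mp X x 1) : h = 0 := by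
  by_contra h0
  obtain ⟨y, hy, -, hc⟩ := exists_closed_spec_mem (U := U ⊓ ul h) ⟨hg, isU_gp.2 h0⟩
  exact hy.2.2 (hh y hy.1 hc)

end Pool.Agent.Work.MP_e57da2_ag
end

-- merged part: Pool.Agent.Work.MP_e57da2_ag.Pb
section
/-!
# Pull-back of functions, and `k`-points

`pb φ h` is the pull-back of `h` when `h` is regular at the image of the generic point (and `0` otherwise).
Key lemma `pb_toK`: `Scheme.Hom.stalkSpecializes_stalkMap`.  Useful: `Scheme.Hom.germ_stalkMap`, `Scheme.Hom.stalkMap_comp`, `Over.w`,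
`pointEquivClosedPoint`, `ext_of_apply_closedPoint_eq`, `residueFieldIsoBase`, `ext_of_isDominant`, `Scheme.fromSpecStalk`,
`IsFinite.finite_app`, `SurjectiveOnStalks`.
-/

open CategoryTheory Limits AlgebraicGeometry TopologicalSpace IsLocalRing MonoidalCategory
  CartesianMonoidalCategory

namespace Pool.Agent.Work.MP_e57da2_ag

open Pool.Agent.Work.MP_910138_ag

variable {k : Type} [Field k] {X Y Z : Sch k}

/-- the `k`-points -/
abbrev Pt (X : Sch k) := 𝟙_ (Sch k) ⟶ X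

/-- the closed point underlying a `k`-point -/
noncomputable def pt (y : Pt X) : X.left :=
  y.left (show (𝟙_ (Sch k)).left from IsLocalRing.closedPoint k)

theorem Pb_subsingleton : Subsingleton (𝟙_ (Sch k)).left :=
  inferInstanceAs (Subsingleton (PrimeSpectrum k))

theorem Pb_integral : IsIntegral (𝟙_ (Sch k)).left :=
  inferInstanceAs (IsIntegral (Spec (CommRingCat.of k)))

theorem pt_comp (y : Pt X) (φ : X ⟶ Y) : pt (y ≫ φ) = φ.left (pt y) := rfl

theorem comp_apply' (ψ : Z ⟶ Y) (φ : Y ⟶ X) (z : Z.left) : (ψ ≫ φ).left z = φ.left (ψ.left z) := rfl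

theorem id_apply' (x : X.left) : (𝟙 X : X ⟶ X).left x = x := rfl

theorem const_apply (y : Pt X) (z : Z.left) : (toUnit Z ≫ y).left z = pt y := by
  have : Subsingleton (𝟙_ (Sch k)).left := Pb_subsingleton
  exact congrArg y.left (Subsingleton.elim _ _)

theorem pt_closed [IsProper X.hom] (y : Pt X) : IsClosed ({pt y} : Set X.left) := by
  have : IsClosedImmersion y.left := isClosedImmersion_of_comp_eq_id X.hom y.left (Over.w y)
  have h := y.left.isClosedEmbedding.isClosed_range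
  have : Subsingleton (𝟙_ (Sch k)).left := Pb_subsingleton
  have : Nonempty (𝟙_ (Sch k)).left := ⟨IsLocalRing.closedPoint k⟩
  rwa [Set.range_eq_singleton] at h
  exact fun x => congrArg y.left (Subsingleton.elim _ _)

theorem pt_injective [IsAlgClosed k] [IsProper X.hom] : Function.Injective (pt : Pt X → X.left) := fun y y' h =>
  Over.OverMorphism.ext (ext_of_apply_closedPoint_eq X.hom (Over.w y) (Over.w y') h)

theorem exists_pt [IsAlgClosed k] [IsProper X.hom] {x : X.left} (hx : IsClosed ({x} : Set X.left)) :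
    ∃ y : Pt X, pt y = x :=
  ⟨Over.homMk (pointOfClosedPoint X.hom x hx) (pointOfClosedPoint_comp X.hom x hx),
    pointOfClosedPoint_apply X.hom x hx _⟩

theorem closed_image [IsProper X.hom] [IsProper Y.hom] (φ : X ⟶ Y) : IsClosedMap φ.left := by
  have : IsProper (φ.left ≫ Y.hom) := by
    rw [Over.w φ]
    infer_instance
  have : IsProper φ.left := IsProper.of_comp φ.left Y.hom
  exact φ.left.isClosedMap

variable [IsIntegral X.left] [IsIntegral Y.left] [IsIntegral Z.left]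

open Classical in
/-- pull-back of a function regular at the image of the generic point -/
noncomputable def pb (φ : Y ⟶ X) (h : Fn X) : Fn Y :=
  if H : h ∈ O X (φ.left (gp Y)) then (φ.left.stalkMap (gp Y)).hom (mem_O.1 H).choose else 0

variable {φ : Y ⟶ X} {y : Y.left} {a b h : Fn X} {p : ℕ}

theorem spec_gp (φ : Y ⟶ X) (y : Y.left) : φ.left (gp Y) ⤳ φ.left y :=
  (gp_spec Y y).map φ.left.continuous

theorem O_le_gp (φ : Y ⟶ X) (y : Y.left) : O X (φ.left y) ≤ O X (φ.left (gp Y)) :=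
  O_le_of_spec (spec_gp φ y)

theorem Pb_toK_spec {x x' : X.left} (h : x ⤳ x') (a : X.left.presheaf.stalk x') :
    toK X x ((X.left.presheaf.stalkSpecializes h).hom a) = toK X x' a :=
  congrArg (fun f => f.hom a) (X.left.presheaf.stalkSpecializes_comp (gp_spec X x) h)

theorem pb_toK (φ : Y ⟶ X) (y : Y.left) (a : X.left.presheaf.stalk (φ.left y)) :
    pb φ (toK X (φ.left y) a) = toK Y y ((φ.left.stalkMap y).hom a) := by
  have e : toK X (φ.left (gp Y)) ((X.left.presheaf.stalkSpecializes (spec_gp φ y)).hom a) =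
      toK X (φ.left y) a := Pb_toK_spec (spec_gp φ y) a
  have H : toK X (φ.left y) a ∈ O X (φ.left (gp Y)) := ⟨_, e⟩
  rw [pb, dif_pos H, toK_injective _ ((mem_O.1 H).choose_spec.trans e.symm)]
  exact φ.left.stalkSpecializes_stalkMap_apply (gp Y) y (gp_spec Y y) a

theorem pb_germ {U : X.left.Opens} {V : Y.left.Opens} (hV : gp Y ∈ V) (e : V ≤ φ.left ⁻¹ᵁ U)
    (s : Γ(X.left, U)) :
    pb φ (germ X U (gp_mem (e hV)) s) = germ Y V hV ((φ.left.appLE U V e).hom s) := by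
  rw [← toK_germ (x := φ.left (gp Y)) (U := U) (e hV) s, pb_toK]
  refine Eq.trans (congrArg (toK Y (gp Y)) (φ.left.germ_stalkMap_apply U (gp Y) (e hV) s)) ?_
  rw [toK_germ]
  exact (germ_res e hV _).symm

theorem Pb_germ_app {U : X.left.Opens} (hV : gp Y ∈ φ.left ⁻¹ᵁ U) (s : Γ(X.left, U)) :
    pb φ (germ X U (gp_mem hV) s) = germ Y _ hV ((φ.left.app U).hom s) := by
  rw [φ.left.app_eq_appLE]
  exact pb_germ hV le_rfl s

theorem pb_mem_O (hh : h ∈ O X (φ.left y)) : pb φ h ∈ O Y y := by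
  obtain ⟨a, rfl⟩ := mem_O.1 hh
  exact mem_O.2 ⟨_, (pb_toK φ y a).symm⟩

theorem pb_add (ha : a ∈ O X (φ.left y)) (hb : b ∈ O X (φ.left y)) :
    pb φ (a + b) = pb φ a + pb φ b := by
  obtain ⟨a, rfl⟩ := mem_O.1 ha
  obtain ⟨b, rfl⟩ := mem_O.1 hb
  rw [← map_add, pb_toK, pb_toK, pb_toK, map_add, map_add]

theorem pb_mul (ha : a ∈ O X (φ.left y)) (hb : b ∈ O X (φ.left y)) :
    pb φ (a * b) = pb φ a * pb φ b := by
  obtain ⟨a, rfl⟩ := mem_O.1 ha
  obtain ⟨b, rfl⟩ := mem_O.1 hb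
  rw [← map_mul, pb_toK, pb_toK, pb_toK, map_mul, map_mul]

theorem pb_algebraMap (φ : Y ⟶ X) (c : k) :
    pb φ (algebraMap k (Fn X) c) = algebraMap k (Fn Y) c := by
  rw [algebraMap_eq, algebraMap_eq]
  refine (pb_germ (φ := φ) (U := ⊤) (V := ⊤) trivial le_rfl (cst X c)).trans ?_
  congr 1
  have e : φ.left.appLE ⊤ ⊤ le_rfl = φ.left.appTop := φ.left.appLE_eq_app
  rw [e, cst, cst, ← Over.w φ, Scheme.Hom.comp_appTop]
  rfl

theorem pb_one (φ : Y ⟶ X) : pb φ 1 = 1 := by simpa using pb_algebraMap φ 1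

theorem pb_zero (φ : Y ⟶ X) : pb φ 0 = 0 := by simpa using pb_algebraMap φ 0

/-- the local homomorphism at `y` -/
noncomputable def pbA (φ : Y ⟶ X) (y : Y.left) : O X (φ.left y) →ₐ[k] O Y y where
  toFun a := ⟨pb φ a, pb_mem_O a.2⟩
  map_one' := Subtype.ext (pb_one φ)
  map_mul' a b := Subtype.ext (pb_mul a.2 b.2)
  map_zero' := Subtype.ext (pb_zero φ)
  map_add' a b := Subtype.ext (pb_add a.2 b.2)
  commutes' c := Subtype.ext (pb_algebraMap φ c)

theorem coe_pbA (a : O X (φ.left y)) : (pbA φ y a : Fn Y) = pb φ a := rfl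

theorem Pb_pbA_stalk (φ : Y ⟶ X) (y : Y.left) (a : X.left.presheaf.stalk (φ.left y)) :
    pbA φ y (stalkEquiv X (φ.left y) a) = stalkEquiv Y y ((φ.left.stalkMap y).hom a) :=
  Subtype.ext (pb_toK φ y a)

instance (φ : Y ⟶ X) (y : Y.left) : IsLocalHom (pbA φ y) := by
  refine ⟨fun a ha => ?_⟩
  obtain ⟨a, rfl⟩ := (stalkEquiv X (φ.left y)).surjective a
  rw [Pb_pbA_stalk, MulEquiv.isUnit_map] at ha
  exact (IsUnit.of_map (φ.left.stalkMap y).hom a ha).map _

theorem pb_sub (ha : a ∈ O X (φ.left y)) (hb : b ∈ O X (φ.left y)) :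
    pb φ (a - b) = pb φ a - pb φ b := by
  have h := congrArg Subtype.val (map_sub (pbA φ y) ⟨a, ha⟩ ⟨b, hb⟩)
  exact h

theorem pb_neg (φ : Y ⟶ X) (a : Fn X) : pb φ (-a) = -pb φ a := by
  by_cases ha : a ∈ O X (φ.left (gp Y))
  · exact congrArg Subtype.val (map_neg (pbA φ (gp Y)) ⟨a, ha⟩)
  · rw [pb, pb, dif_neg ha, dif_neg fun h => ha (neg_mem_iff.1 h), neg_zero]

theorem pb_smul (ha : a ∈ O X (φ.left y)) (c : k) : pb φ (c • a) = c • pb φ a := by
  have h := congrArg Subtype.val (map_smul (pbA φ y) c ⟨a, ha⟩)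
  exact h

theorem pb_pow (ha : a ∈ O X (φ.left y)) (n : ℕ) : pb φ (a ^ n) = pb φ a ^ n := by
  have h := congrArg Subtype.val (map_pow (pbA φ y) ⟨a, ha⟩ n)
  exact h

theorem pb_sum {ι : Type} (S : Finset ι) {f : ι → Fn X} (hf : ∀ i ∈ S, f i ∈ O X (φ.left y)) :
    pb φ (∑ i ∈ S, f i) = ∑ i ∈ S, pb φ (f i) := by
  classical
  induction S using Finset.induction_on with
  | empty => simpa using pb_zero φ
  | insert i S hi ih =>
    have h1 : ∀ j ∈ S, f j ∈ O X (φ.left y) := fun j hj => hf j (Finset.mem_insert_of_mem hj)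
    rw [Finset.sum_insert hi, Finset.sum_insert hi,
      pb_add (hf i (Finset.mem_insert_self i S)) (sum_mem h1), ih h1]

theorem pb_prod {ι : Type} (S : Finset ι) {f : ι → Fn X} (hf : ∀ i ∈ S, f i ∈ O X (φ.left y)) :
    pb φ (∏ i ∈ S, f i) = ∏ i ∈ S, pb φ (f i) := by
  classical
  induction S using Finset.induction_on with
  | empty => simpa using pb_one φ
  | insert i S hi ih =>
    have h1 : ∀ j ∈ S, f j ∈ O X (φ.left y) := fun j hj => hf j (Finset.mem_insert_of_mem hj)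
    rw [Finset.prod_insert hi, Finset.prod_insert hi,
      pb_mul (hf i (Finset.mem_insert_self i S)) (prod_mem h1), ih h1]

theorem pb_inv (ha : IsU X (φ.left y) a) : pb φ a⁻¹ = (pb φ a)⁻¹ := by
  refine eq_inv_of_mul_eq_one_right ?_
  rw [← pb_mul ha.1 ha.inv.1, mul_inv_cancel₀ ha.ne_zero, pb_one]

theorem pb_div (ha : a ∈ O X (φ.left y)) (hb : IsU X (φ.left y) b) :
    pb φ (a / b) = pb φ a / pb φ b := by
  rw [div_eq_mul_inv, div_eq_mul_inv, pb_mul ha hb.inv.1, pb_inv hb]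

theorem pb_mem_mp (hh : h ∈ mp X (φ.left y) p) : pb φ h ∈ mp Y y p := by
  obtain ⟨a, ha, rfl⟩ := mem_mp.1 hh
  refine (coe_mem_mp (pbA φ y a)).2 ?_
  have h1 : (maximalIdeal (O X (φ.left y))).map (pbA φ y) ≤ maximalIdeal (O Y y) :=
    Ideal.map_le_iff_le_comap.2 fun b hb => Ideal.mem_comap.2 fun hu =>
      hb (IsUnit.of_map (pbA φ y) b hu)
  have h2 := Ideal.mem_map_of_mem (pbA φ y) ha
  rw [Ideal.map_pow] at h2
  exact Ideal.pow_right_mono h1 p h2

theorem pb_mem_mp_one (hh : h ∈ O X (φ.left y)) : pb φ h ∈ mp Y y 1 ↔ h ∈ mp X (φ.left y) 1 := by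
  refine ⟨fun h1 => ?_, pb_mem_mp⟩
  by_contra h2
  exact ((isU_coe _).2 (((isU_coe ⟨h, hh⟩).1 ⟨hh, h2⟩).map (pbA φ y))).2 h1

theorem pb_isU (hh : h ∈ O X (φ.left y)) : IsU Y y (pb φ h) ↔ IsU X (φ.left y) h :=
  ⟨fun h1 => ⟨hh, fun h2 => h1.2 (pb_mem_mp h2)⟩,
    fun h1 => ⟨pb_mem_O hh, fun h2 => h1.2 ((pb_mem_mp_one hh).1 h2)⟩⟩

theorem pb_eq_zero (hh : h ∈ O X (φ.left (gp Y))) : pb φ h = 0 ↔ h ∈ mp X (φ.left (gp Y)) 1 :=
  mem_mp_gp.symm.trans (pb_mem_mp_one hh)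

theorem pb_comp (ψ : Z ⟶ Y) (hh : h ∈ O X ((ψ ≫ φ).left (gp Z))) :
    pb (ψ ≫ φ) h = pb ψ (pb φ h) := by
  obtain ⟨a, rfl⟩ := mem_O.1 hh
  refine (pb_toK (ψ ≫ φ) (gp Z) a).trans ?_
  refine Eq.trans ?_ (congrArg (pb ψ) (pb_toK φ (ψ.left (gp Z)) a)).symm
  rw [pb_toK]
  exact congrArg (toK Z (gp Z))
    (congrArg (fun f => f.hom a) (Scheme.Hom.stalkMap_comp ψ.left φ.left (gp Z)))

theorem pb_id (h : Fn X) : pb (𝟙 X) h = h := by
  obtain ⟨a, rfl⟩ := mem_O.1 (show h ∈ O X (gp X) by rw [O_gp]; trivial)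
  refine (pb_toK (𝟙 X) (gp X) a).trans ?_
  exact congrArg (toK X (gp X))
    (congrArg (fun f => f.hom a) (Scheme.Hom.stalkMap_id X.left (gp X)))

theorem pb_mem_B {U : X.left.Opens} {V : Y.left.Opens} (e : V ≤ φ.left ⁻¹ᵁ U) (hh : h ∈ B X U) :
    pb φ h ∈ B Y V :=
  mem_B.2 fun _ hy => pb_mem_O (mem_B.1 hh _ (e hy))

theorem Pb_unit_surj [IsIntegral (𝟙_ (Sch k)).left] :
    Function.Surjective (algebraMap k (Fn (𝟙_ (Sch k)))) := fun h => by
  have : Subsingleton (𝟙_ (Sch k)).left := Pb_subsingleton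
  have h1 : h ∈ B (𝟙_ (Sch k)) ⊤ := mem_B.2 fun x _ => by
    rw [Subsingleton.elim x (gp _), O_gp]
    trivial
  obtain ⟨s, rfl⟩ := (mem_B_iff_germ (U := ⊤) trivial).1 h1
  refine ⟨(Scheme.ΓSpecIso (CommRingCat.of k)).hom.hom s, ?_⟩
  rw [algebraMap_eq]
  congr 1
  have e : (𝟙_ (Sch k)).hom.appTop = 𝟙 _ := Scheme.Hom.id_appTop
  rw [cst, e]
  exact (Scheme.ΓSpecIso (CommRingCat.of k)).hom_inv_id_apply s

/-- values at `k`-points -/
theorem exists_value (x : Pt X) (hh : h ∈ O X (pt x)) :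
    ∃ c : k, h - algebraMap k (Fn X) c ∈ mp X (pt x) 1 := by
  have : IsIntegral (𝟙_ (Sch k)).left := Pb_integral
  obtain ⟨c, hc⟩ := Pb_unit_surj (k := k) (pb x h)
  have h1 : algebraMap k (Fn X) c ∈ O X (pt x) := (O X (pt x)).algebraMap_mem c
  refine ⟨c, (pb_mem_mp_one (φ := x) (sub_mem hh h1)).1 ?_⟩
  rw [pb_sub (φ := x) hh h1, pb_algebraMap, hc, sub_self]
  exact zero_mem _

theorem pb_const (x : Pt X) {c : k} (hc : h - algebraMap k (Fn X) c ∈ mp X (pt x) 1) :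
    pb (toUnit Y ≫ x) h = algebraMap k (Fn Y) c := by
  rw [← const_apply x (gp Y)] at hc
  have h1 := (O X ((toUnit Y ≫ x).left (gp Y))).algebraMap_mem c
  have h2 : h ∈ O X ((toUnit Y ≫ x).left (gp Y)) := by
    simpa using add_mem (mem_O_of_mp hc) h1
  have h3 := (pb_eq_zero (mem_O_of_mp hc)).2 hc
  rwa [pb_sub h2 h1, pb_algebraMap, sub_eq_zero] at h3

theorem value_unique {x : X.left} {c : k} (hc : algebraMap k (Fn X) c ∈ mp X x 1) : c = 0 := by
  by_contra h0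
  exact (isU_algebraMap h0).2 hc

/-- dominant morphisms -/
def Dom (φ : Y ⟶ X) : Prop := φ.left (gp Y) = gp X

theorem Dom.mem (hφ : Dom φ) (h : Fn X) : h ∈ O X (φ.left (gp Y)) := by
  rw [hφ, O_gp]
  trivial

/-- the map of function fields -/
noncomputable def pbF (hφ : Dom φ) : Fn X →ₐ[k] Fn Y where
  toFun := pb φ
  map_one' := pb_one φ
  map_mul' a b := pb_mul (hφ.mem a) (hφ.mem b)
  map_zero' := pb_zero φ
  map_add' a b := pb_add (hφ.mem a) (hφ.mem b)
  commutes' := pb_algebraMap φ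

theorem pbF_apply (hφ : Dom φ) (h : Fn X) : pbF hφ h = pb φ h := rfl

theorem Dom.of_surjective (h : Function.Surjective φ.left) : Dom φ := by
  have h1 := (genericPoint_spec Y.left).image φ.left.continuous
  rw [Set.image_univ, h.range_eq, closure_univ] at h1
  exact h1.eq (genericPoint_spec X.left)

theorem Dom.comp {ψ : Z ⟶ Y} (hψ : Dom ψ) (hφ : Dom φ) : Dom (ψ ≫ φ) := by
  unfold Dom at *
  rw [comp_apply', hψ, hφ]

theorem dom_id : Dom (𝟙 X) := id_apply' _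

theorem Dom.gp_mem (hφ : Dom φ) {U : X.left.Opens} (hU : gp X ∈ U) : gp Y ∈ φ.left ⁻¹ᵁ U := by
  change φ.left (gp Y) ∈ U
  rwa [hφ]

/-- dominant morphisms are determined by the map of function fields -/
theorem Dom.ext [IsProper X.hom] {ψ : Y ⟶ X} (hφ : Dom φ) (hψ : Dom ψ)
    (h : ∀ a, pb φ a = pb ψ a) : φ = ψ := by
  have hd : IsDominant (Y.left.fromSpecStalk (gp Y)) := by
    refine ⟨Dense.mono ?_ (dense_iff_closure_eq.2 (genericPoint_spec Y.left))⟩
    rw [Scheme.range_fromSpecStalk]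
    rintro _ rfl
    exact specializes_rfl
  have key : ∀ χ : Y ⟶ X, Dom χ → ∃ g : X.left.presheaf.stalk (gp X) ⟶ Y.left.presheaf.stalk (gp Y),
      Y.left.fromSpecStalk (gp Y) ≫ χ.left = Spec.map g ≫ X.left.fromSpecStalk (gp X) ∧
        ∀ a, toK Y (gp Y) (g.hom a) = pb χ (toK X (gp X) a) := by
    intro χ hχ
    have hs : χ.left (gp Y) ⤳ gp X := specializes_of_eq hχ
    refine ⟨X.left.presheaf.stalkSpecializes hs ≫ χ.left.stalkMap (gp Y), ?_, fun a => ?_⟩
    · rw [Spec.map_comp, Category.assoc, Scheme.SpecMap_stalkSpecializes_fromSpecStalk,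
        Scheme.SpecMap_stalkMap_fromSpecStalk]
    · rw [← Pb_toK_spec hs a, pb_toK]
      rfl
  obtain ⟨g, hg, hg'⟩ := key φ hφ
  obtain ⟨g', he, he'⟩ := key ψ hψ
  have e : g = g' := by
    ext a
    exact toK_injective _ (by rw [hg', he', h])
  refine Over.OverMorphism.ext (ext_of_isDominant_of_isSeparated X.hom
    ((Over.w φ).trans (Over.w ψ).symm) (Y.left.fromSpecStalk (gp Y)) ?_)
  rw [hg, he, e]

/-- for a finite morphism the functions on the preimage of an affine open form a finite module -/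
theorem finite_B [IsFinite φ.left] (hφ : Dom φ) {U : X.left.Opens} (hU : IsAffineOpen U)
    (hg : gp X ∈ U) : ∃ s : Finset (Fn Y), (∀ v ∈ s, v ∈ B Y (φ.left ⁻¹ᵁ U)) ∧
      ∀ v ∈ B Y (φ.left ⁻¹ᵁ U), ∃ c : Fn Y → Fn X, (∀ w, c w ∈ B X U) ∧
        ∑ w ∈ s, pb φ (c w) * w = v := by
  classical
  have hV := hφ.gp_mem hg
  let := (φ.left.app U).hom.toAlgebra
  have hf : Module.Finite Γ(X.left, U) Γ(Y.left, φ.left ⁻¹ᵁ U) := φ.left.finite_app U hU
  obtain ⟨s, hs⟩ := hf.fg_top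
  refine ⟨s.image (germ Y _ hV), fun v hv => ?_, fun v hv => ?_⟩
  · obtain ⟨w, -, rfl⟩ := Finset.mem_image.1 hv
    exact germ_mem_B hV w
  obtain ⟨t, rfl⟩ := (mem_B_iff_germ hV).1 hv
  have ht : t ∈ Submodule.span Γ(X.left, U) (s : Set Γ(Y.left, φ.left ⁻¹ᵁ U)) := by
    rw [hs]
    trivial
  clear hv
  induction ht using Submodule.span_induction with
  | mem t ht =>
    refine ⟨fun w => if w = germ Y _ hV t then 1 else 0, fun w => ?_, ?_⟩
    · dsimp only
      split_ifs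
      exacts [one_mem _, zero_mem _]
    · rw [Finset.sum_eq_single (germ Y _ hV t)]
      · dsimp only
        rw [if_pos rfl, pb_one, one_mul]
      · intro w _ hw
        dsimp only
        rw [if_neg hw, pb_zero, zero_mul]
      · intro hw
        exact absurd (Finset.mem_image_of_mem _ ht) hw
  | zero => exact ⟨fun _ => 0, fun _ => zero_mem _, by simp [pb_zero]⟩
  | add t t' _ _ ih ih' =>
    obtain ⟨c, hc, e⟩ := ih
    obtain ⟨c', hc', e'⟩ := ih'
    refine ⟨fun w => c w + c' w, fun w => add_mem (hc w) (hc' w), ?_⟩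
    rw [map_add, ← e, ← e', ← Finset.sum_add_distrib]
    exact Finset.sum_congr rfl fun w _ => by rw [pb_add (hφ.mem _) (hφ.mem _), add_mul]
  | smul r t _ ih =>
    obtain ⟨c, hc, e⟩ := ih
    refine ⟨fun w => germ X U hg r * c w, fun w => mul_mem (germ_mem_B hg r) (hc w), ?_⟩
    have h1 : germ Y _ hV (r • t) = pb φ (germ X U hg r) * germ Y _ hV t := by
      rw [Pb_germ_app hV r, ← map_mul]
      rfl
    rw [h1, ← e, Finset.mul_sum]
    exact Finset.sum_congr rfl fun w _ => by rw [pb_mul (hφ.mem _) (hφ.mem _), mul_assoc]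

theorem pbA_surjective [IsClosedImmersion φ.left] (y : Y.left) : Function.Surjective (pbA φ y) := fun b => by
  obtain ⟨b, rfl⟩ := (stalkEquiv Y y).surjective b
  obtain ⟨a, rfl⟩ := φ.left.stalkMap_surjective y b
  exact ⟨_, Pb_pbA_stalk φ y a⟩

theorem pb_B_surjective [IsClosedImmersion φ.left] {U : X.left.Opens} (hU : IsAffineOpen U)
    (hg : gp Y ∈ φ.left ⁻¹ᵁ U) {v : Fn Y} (hv : v ∈ B Y (φ.left ⁻¹ᵁ U)) :
    ∃ h ∈ B X U, pb φ h = v := by
  obtain ⟨t, rfl⟩ := (mem_B_iff_germ hg).1 hv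
  obtain ⟨r, rfl⟩ := φ.left.app_surjective U hU t
  exact ⟨_, germ_mem_B (gp_mem (x := φ.left (gp Y)) hg) r, Pb_germ_app hg r⟩

end Pool.Agent.Work.MP_e57da2_ag
end

-- merged part: Pool.Agent.Work.MP_e57da2_ag.Alg
section
/-!
# Commutative algebra lemmas

Plans.  `sup_pow_mul`: descending induction on `j ≤ p + q + 1` for `J ^ j ≤ W₁ * W₂ ⊔ J ^ (p+q+1)`; write `j = j₁ + j₂` with
`j₁ ≤ p`, `j₂ ≤ q`; for `a ∈ J ^ j₁`, `b ∈ J ^ j₂` take `a' ∈ W₁`, `a - a' ∈ J ^ (p+1)`, etc.; `a b - a' b' ∈ J ^ (j+1)`.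
`exists_notMem_of_integral`: otherwise `𝔠.comap ≤ 𝔪` and `Ideal.exists_ideal_over_prime_of_isIntegral` gives a prime over `𝔪` above `𝔠`.
`low_bound`: Artin-Rees `Ideal.exists_pow_inf_eq_pow_smul` for the span `M` of the `v i`, which is `(𝒪 ⧸ 𝔭) ^ ρ`;
`M / (M ⊓ 𝔪 ^ j N)` embeds in `N / 𝔪 ^ j N` and maps onto `M / 𝔪 ^ (j - c) M`.
`up_bound`: write a basis `e l` of `E` in a `κ`-basis `v` of `κ'`, clear denominators: `δ e l = ∑ d l i • v i`, `d l i ∈ D c`, `δ ≠ 0`.
`alg_dep_of_linear`: if `a, b ∈ F c` were algebraically independent the `(m+1)^2` monomials `a^i b^j`, `i, j ≤ m`, would be independent in `F (2 c m)`.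
`maximal_of_alg_dep`: `κ` is algebraic over `k` or over `k(a)` for a transcendental `a ∈ G`; Noether normalisation
(`exists_integral_inj_algHom_of_fg`) has at most one variable; a nonzero prime of `D` lies over a nonzero, so maximal, prime.
`exists_avoid`: `Subspace.biUnion_ne_univ_of_top_notMem`.
-/

open Module

namespace Pool.Agent.Work.MP_e57da2_ag

/-- superadditivity of jet separation -/
theorem sup_pow_mul {k B : Type} [Field k] [CommRing B] [Algebra k B] (J : Ideal B)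
    {W₁ W₂ : Submodule k B} {p q : ℕ} (h₁ : W₁ ⊔ (J ^ (p + 1)).restrictScalars k = ⊤)
    (h₂ : W₂ ⊔ (J ^ (q + 1)).restrictScalars k = ⊤) :
    W₁ * W₂ ⊔ (J ^ (p + q + 1)).restrictScalars k = ⊤ := by
  have step : ∀ j, j ≤ p + q →
      (J ^ j).restrictScalars k ≤ W₁ * W₂ ⊔ (J ^ (j + 1)).restrictScalars k := by
    intro j hj x hx
    obtain ⟨j₁, j₂, h1, h2, rfl⟩ : ∃ j₁ j₂, j₁ ≤ p ∧ j₂ ≤ q ∧ j = j₁ + j₂ :=
      ⟨min j p, j - min j p, by omega, by omega, by omega⟩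
    rw [Submodule.restrictScalars_mem, pow_add] at hx
    refine Submodule.mul_induction_on hx (fun a ha b hb => ?_) fun _ _ => add_mem
    obtain ⟨a', ha', a'', ha'', rfl⟩ := Submodule.mem_sup.1 (h₁.ge (Submodule.mem_top (x := a)))
    obtain ⟨b', hb', b'', hb'', rfl⟩ := Submodule.mem_sup.1 (h₂.ge (Submodule.mem_top (x := b)))
    rw [Submodule.restrictScalars_mem] at ha'' hb''
    have h3 : a' ∈ J ^ j₁ := by
      have := (J ^ j₁).sub_mem ha (Ideal.pow_le_pow_right (by omega) ha'')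
      rwa [add_sub_cancel_right] at this
    have h4 := Ideal.mul_mem_mul ha'' hb
    have h5 := Ideal.mul_mem_mul h3 hb''
    rw [← pow_add] at h4 h5
    refine Submodule.mem_sup.2 ⟨a' * b', Submodule.mul_mem_mul ha' hb',
      a'' * (b' + b'') + a' * b'', ?_, by ring⟩
    exact (J ^ (j₁ + j₂ + 1)).add_mem (Ideal.pow_le_pow_right (by omega) h4)
      (Ideal.pow_le_pow_right (by omega) h5)
  have key : ∀ j, j ≤ p + q + 1 → W₁ * W₂ ⊔ (J ^ j).restrictScalars k = ⊤ := by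
    intro j hj
    induction j with
    | zero => simp
    | succ j ih =>
      rw [eq_top_iff, ← ih (by omega)]
      exact sup_le le_sup_left (step j (by omega))
  exact key _ le_rfl

theorem sup_pow_pow {k B : Type} [Field k] [CommRing B] [Algebra k B] (J : Ideal B)
    {W : Submodule k B} {p : ℕ} (h : W ⊔ (J ^ (p + 1)).restrictScalars k = ⊤) (m : ℕ) :
    W ^ (m + 1) ⊔ (J ^ ((m + 1) * p + 1)).restrictScalars k = ⊤ := by
  induction m with
  | zero => simpa using h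
  | succ m ih =>
    rw [pow_succ W, add_mul (m + 1), one_mul]
    exact sup_pow_mul J ih h

theorem exists_notMem_of_integral {B B' : Type} [CommRing B] [CommRing B'] [Algebra B B']
    [Algebra.IsIntegral B B'] (𝔪 : Ideal B) [𝔪.IsPrime] (𝔠 : Ideal B')
    (h : ∀ 𝔮 : Ideal B', 𝔮.IsPrime → 𝔮.comap (algebraMap B B') = 𝔪 → ¬ 𝔠 ≤ 𝔮) :
    ∃ b, b ∉ 𝔪 ∧ algebraMap B B' b ∈ 𝔠 := by
  by_contra hn
  obtain ⟨Q, h1, h2, h3⟩ := Ideal.exists_ideal_over_prime_of_isIntegral 𝔪 𝔠 fun b hb =>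
    by_contra fun hb' => hn ⟨b, hb', hb⟩
  exact h Q h2 h3 h1

theorem Alg_range_le {k V W W' : Type} [Field k] [AddCommGroup V] [Module k V]
    [AddCommGroup W] [Module k W] [AddCommGroup W'] [Module k W'] (f : V →ₗ[k] W) (g : V →ₗ[k] W')
    [FiniteDimensional k (LinearMap.range g)] (h : ∀ v, g v = 0 → f v = 0) :
    finrank k (LinearMap.range f) ≤ finrank k (LinearMap.range g) := by
  have := g.quotKerEquivRange.symm.finiteDimensional
  rw [← g.quotKerEquivRange.finrank_eq, ← Submodule.range_liftQ (LinearMap.ker g) f h]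
  exact LinearMap.finrank_range_le _

theorem low_bound {k 𝒪 N : Type} [Field k] [CommRing 𝒪] [Algebra k 𝒪] [IsNoetherianRing 𝒪]
    [AddCommGroup N] [Module 𝒪 N] [Module k N] [IsScalarTower k 𝒪 N] [Module.Finite 𝒪 N]
    (𝔪 𝔭 : Ideal 𝒪) {ρ : ℕ} (v : Fin ρ → N)
    (hv : ∀ a : Fin ρ → 𝒪, ∑ i, a i • v i = 0 ↔ ∀ i, a i ∈ 𝔭)
    (fin : ∀ j, FiniteDimensional k (N ⧸ (𝔪 ^ j • ⊤ : Submodule 𝒪 N))) :
    ∃ c, ∀ j, ρ * finrank k (𝒪 ⧸ (𝔭 ⊔ 𝔪 ^ (j - c))) ≤
      finrank k (N ⧸ (𝔪 ^ j • ⊤ : Submodule 𝒪 N)) := by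
  let φ : (Fin ρ → 𝒪) →ₗ[𝒪] N := Fintype.linearCombination 𝒪 v
  obtain ⟨c, hc⟩ := 𝔪.exists_pow_inf_eq_pow_smul (LinearMap.range φ)
  refine ⟨c, fun j => ?_⟩
  have := fin j
  by_cases hf : FiniteDimensional k (𝒪 ⧸ (𝔭 ⊔ 𝔪 ^ (j - c)))
  swap
  · rw [finrank_of_not_finite hf, mul_zero]
    exact Nat.zero_le _
  let f : (Fin ρ → 𝒪) →ₗ[k] (Fin ρ → 𝒪 ⧸ (𝔭 ⊔ 𝔪 ^ (j - c))) :=
    LinearMap.pi fun i => (Ideal.Quotient.mkₐ k _).toLinearMap ∘ₗ LinearMap.proj i
  have hs : LinearMap.range f = ⊤ := LinearMap.range_eq_top.2 fun y => by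
    choose x hx using fun i => Ideal.Quotient.mk_surjective (y i)
    exact ⟨x, funext hx⟩
  have h := Alg_range_le f (((𝔪 ^ j • ⊤ : Submodule 𝒪 N).mkQ ∘ₗ φ).restrictScalars k) fun a ha => ?_
  · rw [hs, finrank_top, finrank_pi_fintype, Finset.sum_const, Finset.card_fin, smul_eq_mul] at h
    exact h.trans (Submodule.finrank_le _)
  have h1 : φ a ∈ (𝔪 ^ j • ⊤ : Submodule 𝒪 N) := (Submodule.Quotient.mk_eq_zero _).1 ha
  funext i
  refine Ideal.Quotient.eq_zero_iff_mem.2 ?_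
  change a i ∈ _
  rcases le_total j c with hj | hj
  · rw [Nat.sub_eq_zero_of_le hj, pow_zero, Ideal.one_eq_top, sup_top_eq]
    trivial
  have h2 : φ a ∈ 𝔪 ^ (j - c) • LinearMap.range φ :=
    Submodule.smul_mono le_rfl inf_le_right ((hc j hj).le ⟨h1, a, rfl⟩)
  rw [← Submodule.map_top, ← Submodule.map_smul''] at h2
  obtain ⟨b, hb, e⟩ := h2
  have h3 : b i ∈ 𝔪 ^ (j - c) :=
    Submodule.smul_induction_on (p := fun b : Fin ρ → 𝒪 => b i ∈ 𝔪 ^ (j - c)) hb
      (fun r hr x _ => Ideal.mul_mem_right _ _ hr) fun _ _ => add_mem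
  have h4 : φ (a - b) = 0 := by rw [map_sub, e, sub_self]
  have h5 := (hv (a - b)).1 h4 i
  rw [← sub_add_cancel (a i) (b i)]
  exact Submodule.add_mem_sup h5 h3

theorem up_bound {k κ κ' : Type} [Field k] [Field κ] [Field κ'] [Algebra k κ] [Algebra κ κ']
    [Algebra k κ'] [IsScalarTower k κ κ'] [FiniteDimensional κ κ'] (D : ℕ → Submodule k κ)
    (fin : ∀ n, FiniteDimensional k (D n)) (mono : Monotone D)
    (mul : ∀ a b, D a * D b ≤ D (a + b)) (one : (1 : κ) ∈ D 0)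
    (frac : ∀ z : κ, ∃ (n : ℕ) (a b : κ), a ∈ D n ∧ b ∈ D n ∧ b ≠ 0 ∧ z * b = a)
    (E : Submodule k κ') [FiniteDimensional k E] :
    ∃ c, ∀ n, FiniteDimensional k
        ((D n).map (IsScalarTower.toAlgHom k κ κ').toLinearMap * E : Submodule k κ') ∧
      finrank k ((D n).map (IsScalarTower.toAlgHom k κ κ').toLinearMap * E : Submodule k κ') ≤
        finrank κ κ' * finrank k (D (n + c)) := by
  have den : ∀ t : Set κ, t.Finite → ∃ c δ, δ ≠ 0 ∧ δ ∈ D c ∧ ∀ z ∈ t, z * δ ∈ D c := by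
    intro t ht
    induction t, ht using Set.Finite.induction_on with
    | empty => exact ⟨0, 1, one_ne_zero, one, fun _ h => h.elim⟩
    | @insert z t _ _ ih =>
      obtain ⟨c, δ, h0, h1, h2⟩ := ih
      obtain ⟨n, a, b, ha, hb, hb0, e⟩ := frac z
      refine ⟨c + n, δ * b, mul_ne_zero h0 hb0, mul _ _ (Submodule.mul_mem_mul h1 hb), ?_⟩
      rintro w (rfl | hw)
      · rw [mul_left_comm, e]
        exact mul _ _ (Submodule.mul_mem_mul h1 ha)
      · rw [← mul_assoc]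
        exact mul _ _ (Submodule.mul_mem_mul (h2 w hw) hb)
  let v := finBasis κ κ'
  obtain ⟨s, hs⟩ := (Module.Finite.iff_fg (N := E)).1 inferInstance
  obtain ⟨c, δ, h0, -, h2⟩ := den (Set.image2 (fun y i => v.repr y i) (s : Set κ') Set.univ)
    (s.finite_toSet.image2 _ Set.finite_univ)
  have h3 : ∀ y ∈ E, ∀ i, v.repr y i * δ ∈ D c := by
    intro y hy i
    rw [← hs] at hy
    induction hy using Submodule.span_induction with
    | mem y hy => exact h2 _ (Set.mem_image2_of_mem hy trivial)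
    | zero => simp
    | add y z _ _ hy hz =>
      rw [map_add, Finsupp.add_apply, add_mul]
      exact add_mem hy hz
    | smul r y _ hy =>
      rw [← algebraMap_smul κ r y, map_smul, Finsupp.smul_apply, algebraMap_smul, smul_mul_assoc]
      exact Submodule.smul_mem _ _ hy
  refine ⟨c, fun n => ?_⟩
  have := fin (n + c)
  let T : (Fin (finrank κ κ') → D (n + c)) →ₗ[k] κ' :=
    { toFun := fun y => ∑ i, (δ⁻¹ * (y i : κ)) • v i
      map_add' := fun y z => by simp [mul_add, add_smul, Finset.sum_add_distrib]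
      map_smul' := fun r y => by simp [Finset.smul_sum] }
  have h4 : (D n).map (IsScalarTower.toAlgHom k κ κ').toLinearMap * E ≤ LinearMap.range T := by
    refine Submodule.mul_le.2 ?_
    rintro _ ⟨x, hx, rfl⟩ y hy
    refine ⟨fun i => ⟨x * (v.repr y i * δ), mul _ _ (Submodule.mul_mem_mul hx (h3 y hy i))⟩, ?_⟩
    change ∑ i, (δ⁻¹ * (x * (v.repr y i * δ))) • v i = algebraMap κ κ' x * y
    conv_rhs => rw [← Algebra.smul_def, ← v.sum_repr y, Finset.smul_sum]
    refine Finset.sum_congr rfl fun i _ => ?_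
    rw [smul_smul]
    congr 1
    field_simp
  refine ⟨Submodule.finiteDimensional_of_le h4, (Submodule.finrank_mono h4).trans
    ((LinearMap.finrank_range_le T).trans ?_)⟩
  rw [finrank_pi_fintype, Finset.sum_const, Finset.card_fin, smul_eq_mul]

theorem alg_dep_of_linear {k κ : Type} [Field k] [CommRing κ] [Algebra k κ]
    (F : ℕ → Submodule k κ) (fin : ∀ n, FiniteDimensional k (F n)) (mono : Monotone F)
    (mul : ∀ a b, F a * F b ≤ F (a + b)) (one : (1 : κ) ∈ F 0) {C : ℕ}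
    (lin : ∀ n, finrank k (F n) ≤ C * (n + 1)) {n : ℕ} {a b : κ} (ha : a ∈ F n) (hb : b ∈ F n) :
    ¬ AlgebraicIndependent k ![a, b] := by
  intro h
  have hp : ∀ x ∈ F n, ∀ i, x ^ i ∈ F (n * i) := by
    intro x hx i
    induction i with
    | zero => simpa using one
    | succ i ih =>
      rw [pow_succ, mul_add_one]
      exact mul _ _ (Submodule.mul_mem_mul ih hx)
  set m := C * (2 * n + 1) with hm
  let e : Fin (m + 1) × Fin (m + 1) → (Fin 2 →₀ ℕ) := fun x =>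
    Finsupp.single 0 x.1.1 + Finsupp.single 1 x.2.1
  have he : Function.Injective e := fun x y hxy =>
    Prod.ext (Fin.ext (by simpa [e] using DFunLike.congr_fun hxy 0))
      (Fin.ext (by simpa [e] using DFunLike.congr_fun hxy 1))
  have h1 := ((MvPolynomial.basisMonomials (Fin 2) k).linearIndependent.map'
    (MvPolynomial.aeval ![a, b]).toLinearMap (LinearMap.ker_eq_bot.2 h)).comp e he
  have h2 : ∀ x : Fin (m + 1) × Fin (m + 1), a ^ x.1.1 * b ^ x.2.1 ∈ F (n * m + n * m) := fun x =>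
    mono (add_le_add (Nat.mul_le_mul_left n (Nat.lt_succ_iff.1 x.1.2))
      (Nat.mul_le_mul_left n (Nat.lt_succ_iff.1 x.2.2)))
      (mul _ _ (Submodule.mul_mem_mul (hp a ha _) (hp b hb _)))
  have h3 : LinearIndependent k fun x => (⟨_, h2 x⟩ : F (n * m + n * m)) := by
    refine LinearIndependent.of_comp (F _).subtype ?_
    have e1 : ((F _).subtype ∘ fun x => (⟨_, h2 x⟩ : F (n * m + n * m))) =
        ((MvPolynomial.aeval ![a, b]).toLinearMap ∘ MvPolynomial.basisMonomials (Fin 2) k) ∘ e := by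
      funext x
      simp [e, MvPolynomial.aeval_monomial, Finsupp.prod_fintype]
    rw [e1]
    exact h1
  have := fin (n * m + n * m)
  have h4 := h3.fintype_card_le_finrank.trans (lin _)
  rw [Fintype.card_prod, Fintype.card_fin] at h4
  have h5 : C * (n * m + n * m + 1) ≤ m * (m + 1) := by
    rw [hm, mul_assoc, ← hm]
    exact Nat.mul_le_mul_left C (by nlinarith)
  nlinarith

/-- a finitely generated domain inside a field of transcendence degree at most one has dimension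
at most one -/
theorem maximal_of_alg_dep {k D κ : Type} [Field k] [CommRing D] [Field κ] [Algebra k D]
    [Algebra k κ] [Algebra.FiniteType k D] (φ : D →ₐ[k] κ) (hφ : Function.Injective φ)
    (G : Set κ) (frac : ∀ z : κ, ∃ a ∈ G, ∃ b ∈ G, b ≠ 0 ∧ z * b = a)
    (dep : ∀ a ∈ G, ∀ b ∈ G, ¬ AlgebraicIndependent k ![a, b])
    (𝔮 : Ideal D) (h𝔮 : 𝔮.IsPrime) (h0 : 𝔮 ≠ ⊥) : 𝔮.IsMaximal := by
  have := hφ.isDomain φ.toRingHom
  have halg : Algebra.IsAlgebraic (Algebra.adjoin k G) κ := ⟨fun z => by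
    obtain ⟨a, ha, b, hb, hb0, e⟩ := frac z
    have h1 : IsAlgebraic (Algebra.adjoin k G) a :=
      isAlgebraic_algebraMap (⟨a, Algebra.subset_adjoin ha⟩ : Algebra.adjoin k G)
    refine IsAlgebraic.of_smul (y := (⟨b, Algebra.subset_adjoin hb⟩ : Algebra.adjoin k G))
      (mem_nonZeroDivisors_of_ne_zero fun h => hb0 (congrArg Subtype.val h)) ?_
    rwa [← e, mul_comm] at h1⟩
  obtain ⟨t, ht, hb⟩ := exists_isTranscendenceBasis_subset (R := k) G
  have hsub : Subsingleton t := ⟨fun x y => by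
    by_contra hne
    have hi : Function.Injective ![x, y] := by
      intro i j hij
      fin_cases i <;> fin_cases j <;> simp_all [eq_comm]
    refine dep x (ht x.2) y (ht y.2) ?_
    convert hb.1.comp _ hi using 1
    funext i
    fin_cases i <;> rfl⟩
  obtain ⟨s, g, hg, hi⟩ := exists_integral_inj_algHom_of_fg k D
  have hs : s ≤ 1 := by
    have h1 := trdeg_le_of_injective (φ.comp g) (hφ.comp hg)
    rw [MvPolynomial.trdeg_of_isDomain, ← hb.cardinalMk_eq_trdeg] at h1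
    have h2 := h1.trans (Cardinal.le_one_iff_subsingleton.2 hsub)
    simpa using h2
  have hd : Ring.KrullDimLE 1 (MvPolynomial (Fin s) k) := by
    rw [Ring.krullDimLE_iff, MvPolynomial.ringKrullDim_of_isNoetherianRing,
      ringKrullDim_eq_zero_of_field, zero_add, Nat.card_fin]
    exact_mod_cast hs
  refine Ideal.isMaximal_of_isIntegral_of_isMaximal_comap' g.toRingHom hi 𝔮
    ((Ideal.comap_isPrime _ 𝔮).isMaximal_of_ne_bot fun h => h0 ?_)
  let _ := g.toRingHom.toAlgebra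
  have : Algebra.IsIntegral (MvPolynomial (Fin s) k) D := ⟨hi⟩
  exact Ideal.eq_bot_of_comap_eq_bot h

theorem exists_avoid {k V α : Type} [Field k] [Infinite k] [AddCommGroup V] [Module k V]
    (P : Submodule k V) (s : Set α) (hs : s.Finite) (N : α → Submodule k V)
    (h : ∀ a ∈ s, ∃ v ∈ P, v ∉ N a) : ∃ v ∈ P, ∀ a ∈ s, v ∉ N a := by
  have := hs.to_subtype
  by_contra hn
  obtain ⟨a, ha⟩ := Subspace.exists_eq_top_of_iUnion_eq_univ
    (p := fun a : s => (N a).comap P.subtype) (Set.eq_univ_of_forall fun v => by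
      by_contra h'
      exact hn ⟨v, v.2, fun a ha hv => h' (Set.mem_iUnion.2 ⟨⟨a, ha⟩, hv⟩)⟩)
  obtain ⟨v, hv, h'⟩ := h a a.2
  exact h' (ha.ge (Submodule.mem_top (x := ⟨v, hv⟩)))

/-- two linear maps with the same kernel on `P` have images of the same dimension -/
theorem finrank_map_le_of_ker {k V W W' : Type} [Field k] [AddCommGroup V] [Module k V]
    [AddCommGroup W] [Module k W] [AddCommGroup W'] [Module k W'] (P : Submodule k V)
    [FiniteDimensional k P] (f : V →ₗ[k] W) (g : V →ₗ[k] W') (h : ∀ v ∈ P, g v = 0 → f v = 0) :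
    finrank k (P.map f) ≤ finrank k (P.map g) := by
  rw [← LinearMap.range_domRestrict, ← LinearMap.range_domRestrict]
  exact Alg_range_le _ _ fun v => h v v.2

/-- length and dimension -/
theorem length_eq_finrank {k 𝒪 : Type} [Field k] [CommRing 𝒪] [IsLocalRing 𝒪] [Algebra k 𝒪]
    (h : ∀ a : 𝒪, ∃ c : k, a - algebraMap k 𝒪 c ∈ IsLocalRing.maximalIdeal 𝒪) (I : Ideal 𝒪)
    [FiniteDimensional k (𝒪 ⧸ I)] : Module.length 𝒪 (𝒪 ⧸ I) = finrank k (𝒪 ⧸ I) := by
  have h1 : Function.Surjective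
      (algebraMap (IsLocalRing.ResidueField k) (IsLocalRing.ResidueField 𝒪)) := fun y => by
    obtain ⟨a, rfl⟩ := IsLocalRing.residue_surjective y
    obtain ⟨c, hc⟩ := h a
    exact ⟨IsLocalRing.residue k c, (Ideal.Quotient.eq.2 hc).symm⟩
  have h2 : Module.length (IsLocalRing.ResidueField k) (IsLocalRing.ResidueField 𝒪) = 1 := by
    rw [Module.length_eq_of_surjective h1]
    exact Module.length_eq_one _ _
  rw [← Module.length_eq_finrank, IsLocalRing.length_restrictScalars k 𝒪, h2, mul_one]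

end Pool.Agent.Work.MP_e57da2_ag
end

-- merged part: Pool.Agent.Work.MP_e57da2_ag.Fin
section
/-!
# Finite dominant morphisms

Make `B' = B Y (φ ⁻¹ᵁ U)` an algebra over `B = B X U` through `pb φ` (`pb_mem_B`); it is finite by `finite_B`, and `φ ⁻¹ᵁ U` is affine (`IsAffineOpen.preimage`).
Plans.  `local_global`: the ideal `𝔠 = {b ∈ B' | b * v ∈ E}`; a prime of `B'` over `pr hx` is `pr hy` (`aff_point`) for a point `y` with `φ y = x` (`pb_mem_mp_one`, `aff_spec`, `T0`);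
`exists_notMem_of_integral`.  `desc_generic`: `{h | pb φ h ∈ B'}` is a finite `B`-module (it embeds in `B'`, `B` noetherian), take a common denominator `a`; `U₀ = U ⊓ ul a`; use `local_global` with `E = B'`
and `aff_frac`.  `span_of_unram`: let `𝔪 = pr hx`.  Values at the points `y i` give a linear map `B' → (Fin r → k)`; choose `≤ r` elements `b i ∈ B'` whose images span the image.
An element of the kernel lies in `𝔪 B'` (`local_global` with `E = 𝔪 B'`, clearing denominators with `aff_frac`; an `a ∈ B` invertible at `x` is a nonzero constant modulo `𝔪`).  Nakayama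
(`Submodule.exists_sub_one_mem_and_smul_le_of_fg_of_le_sup`) gives `B' ≤ span_{Fn X} (b i)`; this span is a finite dimensional subalgebra of a field, so a field, and contains `B'` (`aff_frac_field`).
`finite_semi`: an element of `semi φ x` is `(pb φ a)⁻¹ * v` with `v ∈ B'` and `a` invertible at `x`.
-/

open CategoryTheory Limits AlgebraicGeometry TopologicalSpace MonoidalCategory
  CartesianMonoidalCategory

namespace Pool.Agent.Work.MP_e57da2_ag

variable {k : Type} [Field k] {X Y : Sch k} [IsIntegral X.left] [IsIntegral Y.left]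
  [IsProper X.hom] [IsProper Y.hom] {φ : Y ⟶ X}

/-- the functions regular at all points over `x` -/
noncomputable def semi (φ : Y ⟶ X) (x : X.left) : Subalgebra k (Fn Y) :=
  ⨅ (y : Y.left) (_ : φ.left y = x), O Y y

theorem mem_semi {x : X.left} {v : Fn Y} : v ∈ semi φ x ↔ ∀ y, φ.left y = x → v ∈ O Y y := by
  simp only [semi, Algebra.mem_iInf]

theorem pb_mem_semi {x : X.left} {h : Fn X} (hh : h ∈ O X x) : pb φ h ∈ semi φ x :=
  mem_semi.2 fun _ hy => pb_mem_O (hy ▸ hh)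

/-- the pull-back of functions on an open set -/
noncomputable def Fin_hom (hφ : Dom φ) (U : X.left.Opens) :
    B X U →+* B Y (φ.left ⁻¹ᵁ U) :=
  (((pbF hφ).comp (B X U).val).codRestrict _ fun b => pb_mem_B le_rfl b.2).toRingHom

theorem Fin_B_le_semi {U : X.left.Opens} {x : X.left} (hx : x ∈ U) :
    B Y (φ.left ⁻¹ᵁ U) ≤ semi φ x := fun _ hv =>
  mem_semi.2 fun y hy => mem_B.1 hv y (show φ.left y ∈ U from hy ▸ hx)

theorem Fin_val (y : Pt Y) : ∃ f : O Y (pt y) →ₗ[k] k,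
    ∀ v : O Y (pt y), (v : Fn Y) - algebraMap k (Fn Y) (f v) ∈ mp Y (pt y) 1 := by
  choose f hf using fun v : O Y (pt y) => exists_value y v.2
  refine ⟨⟨⟨f, fun v w => ?_⟩, fun c v => ?_⟩, hf⟩
  · refine sub_eq_zero.1 (value_unique (X := Y) (x := pt y) ?_)
    have h := sub_mem (add_mem (hf v) (hf w)) (hf (v + w))
    convert h using 1
    simp only [map_sub, map_add, Subalgebra.coe_add]
    ring
  · refine sub_eq_zero.1 (value_unique (X := Y) (x := pt y) ?_)
    have h := sub_mem (Submodule.smul_mem _ c (hf v)) (hf (c • v))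
    convert h using 1
    simp only [map_sub, map_mul, RingHom.id_apply, smul_eq_mul,
      Algebra.smul_def, Subalgebra.coe_mul, Subalgebra.coe_algebraMap]
    ring

theorem Fin_ginv {V W : Type} [AddCommGroup V] [Module k V] [AddCommGroup W] [Module k W]
    (f : V →ₗ[k] W) : ∃ g : W →ₗ[k] V, ∀ v, f (g (f v)) = f v := by
  obtain ⟨g, hg⟩ := f.rangeRestrict.exists_rightInverse_of_surjective f.range_rangeRestrict
  obtain ⟨g', hg'⟩ := g.exists_extend
  refine ⟨g', fun v => ?_⟩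
  have h1 : g' (f v) = g ⟨f v, v, rfl⟩ := LinearMap.congr_fun hg' ⟨f v, v, rfl⟩
  rw [h1]
  exact congrArg Subtype.val (LinearMap.congr_fun hg ⟨f v, v, rfl⟩)

variable [IsFinite φ.left]

theorem Fin_finite (hφ : Dom φ) {U : X.left.Opens} (hU : IsAffineOpen U) (hg : gp X ∈ U) :
    letI := (Fin_hom hφ U).toAlgebra
    Module.Finite (B X U) (B Y (φ.left ⁻¹ᵁ U)) := by
  let := (Fin_hom hφ U).toAlgebra
  obtain ⟨s, h1, h2⟩ := finite_B hφ hU hg
  refine Module.finite_def.2 (Submodule.fg_def.2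
    ⟨Set.range fun w : s => (⟨w, h1 w w.2⟩ : B Y (φ.left ⁻¹ᵁ U)), Set.finite_range _, ?_⟩)
  refine eq_top_iff.2 fun v _ => ?_
  obtain ⟨c, hc, e⟩ := h2 v v.2
  have e' : v = ∑ w : s, (⟨c w, hc w⟩ : B X U) • (⟨w, h1 w w.2⟩ : B Y (φ.left ⁻¹ᵁ U)) := by
    refine Subtype.ext ?_
    rw [← e, ← Finset.sum_coe_sort s, AddSubmonoidClass.coe_finsetSum]
    rfl
  rw [e']
  exact Submodule.sum_mem _ fun w _ => Submodule.smul_mem _ _ (Submodule.subset_span ⟨w, rfl⟩)

theorem local_global (hφ : Dom φ) {U : X.left.Opens} (hU : IsAffineOpen U) {x : X.left}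
    (hx : x ∈ U) (E : Submodule k (Fn Y)) (hE : ∀ b ∈ B Y (φ.left ⁻¹ᵁ U), ∀ e ∈ E, b * e ∈ E)
    {v : Fn Y} (hv : ∀ y, φ.left y = x → ∃ b ∈ B Y (φ.left ⁻¹ᵁ U), IsU Y y b ∧ b * v ∈ E) :
    ∃ a ∈ B X U, IsU X x a ∧ pb φ a * v ∈ E := by
  let := (Fin_hom hφ U).toAlgebra
  have := Fin_finite hφ hU (gp_mem hx)
  let 𝔠 : Ideal (B Y (φ.left ⁻¹ᵁ U)) :=
    { carrier := {b | (b : Fn Y) * v ∈ E}
      add_mem' := fun {a b} ha hb => by
        change ((a : Fn Y) + b) * v ∈ E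
        rw [add_mul]
        exact add_mem ha hb
      zero_mem' := by
        change (0 : Fn Y) * v ∈ E
        rw [zero_mul]
        exact zero_mem _
      smul_mem' := fun c b hb => by
        change (c : Fn Y) * b * v ∈ E
        rw [mul_assoc]
        exact hE _ c.2 _ hb }
  obtain ⟨a, h1, h2⟩ := exists_notMem_of_integral (pr hx) 𝔠 fun 𝔮 h𝔮 hc hle => by
    obtain ⟨y, hy, rfl⟩ := aff_point (hU.preimage φ.left) (hφ.gp_mem (gp_mem hx)) 𝔮
    have hy' : φ.left y ∈ U := hy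
    have e : pr hy' = pr hx := by
      rw [← hc]
      ext b
      rw [Ideal.mem_comap, mem_pr, mem_pr]
      exact (pb_mem_mp_one (B_le_O hy' b.2)).symm
    have e' : φ.left y = x :=
      (((aff_spec hU hy' hx).2 e.le).antisymm ((aff_spec hU hx hy').2 e.ge)).eq
    obtain ⟨b, hb, hu, hbv⟩ := hv y e'
    exact hu.2 ((mem_pr hy ⟨b, hb⟩).1 (hle hbv))
  exact ⟨a, a.2, ⟨B_le_O hx a.2, fun h => h1 ((mem_pr hx a).2 h)⟩, h2⟩

theorem semi_frac (hφ : Dom φ) {U : X.left.Opens} (hU : IsAffineOpen U) {x : X.left}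
    (hx : x ∈ U) {v : Fn Y} (hv : v ∈ semi φ x) :
    ∃ a ∈ B X U, IsU X x a ∧ pb φ a * v ∈ B Y (φ.left ⁻¹ᵁ U) :=
  local_global hφ hU hx (Subalgebra.toSubmodule (B Y (φ.left ⁻¹ᵁ U)))
    (fun _ hb _ he => (B Y (φ.left ⁻¹ᵁ U)).mul_mem hb he) fun y hy =>
      aff_frac (hU.preimage φ.left) (show φ.left y ∈ U from hy ▸ hx) (mem_semi.1 hv y hy)

theorem semi_le_of_spec (hφ : Dom φ) {x : X.left} {y : Y.left} (h : φ.left y ⤳ x) :
    semi φ x ≤ O Y y := fun v hv => by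
  obtain ⟨U, hU, hx, -⟩ := exists_aff (W := ⊤) (x := x) trivial
  obtain ⟨a, -, h2, h3⟩ := semi_frac hφ hU hx hv
  have h4 := h2.of_spec h
  exact ((pb_isU h4.1).2 h4).mul_mem_O_iff.1 (mem_B.1 h3 y (h.mem_open U.isOpen hx))

theorem finite_semi (hφ : Dom φ) (x : X.left) : ∃ s : Finset (Fn Y), (∀ v ∈ s, v ∈ semi φ x) ∧
    ∀ v ∈ semi φ x, ∃ c : Fn Y → Fn X, (∀ w, c w ∈ O X x) ∧ ∑ w ∈ s, pb φ (c w) * w = v := by
  obtain ⟨U, hU, hx, -⟩ := exists_aff (W := ⊤) (x := x) trivial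
  obtain ⟨s, h1, h2⟩ := finite_B hφ hU (gp_mem hx)
  refine ⟨s, fun v hv => Fin_B_le_semi hx (h1 v hv), fun v hv => ?_⟩
  obtain ⟨a, -, h4, h5⟩ := semi_frac hφ hU hx hv
  obtain ⟨c, hc, e⟩ := h2 _ h5
  refine ⟨fun w => a⁻¹ * c w, fun w => mul_mem h4.inv.1 (B_le_O hx (hc w)), ?_⟩
  have h0 : pbF hφ a ≠ 0 := (_root_.map_ne_zero _).2 h4.ne_zero
  calc ∑ w ∈ s, pb φ (a⁻¹ * c w) * w = (pbF hφ a)⁻¹ * ∑ w ∈ s, pb φ (c w) * w := by
        rw [Finset.mul_sum]
        refine Finset.sum_congr rfl fun w _ => ?_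
        rw [← pbF_apply hφ, map_mul, map_inv₀, mul_assoc]
        rfl
    _ = v := by rw [e, ← pbF_apply hφ, inv_mul_cancel_left₀ h0]

theorem desc_generic (hφ : Dom φ) : ∃ U₀ : X.left.Opens, gp X ∈ U₀ ∧
    ∀ x ∈ U₀, ∀ h : Fn X, pb φ h ∈ semi φ x → h ∈ O X x := by
  classical
  obtain ⟨U, hU, hg, -⟩ := exists_aff (W := ⊤) (x := gp X) trivial
  obtain ⟨s, -, h2⟩ := finite_B hφ hU hg
  let := (pbF hφ).toRingHom.toAlgebra
  obtain ⟨l, hl⟩ := Module.Projective.exists_dual_eq_one (Fn X) (one_ne_zero (α := Fn Y))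
  have hl' : ∀ c w, l (pb φ c * w) = c * l w := fun c w => l.map_smul c w
  choose d hd hd0 hdl using fun w : Fn Y => aff_frac_field hU hg (l w)
  have ha0 : ∏ w ∈ s, d w ≠ 0 := Finset.prod_ne_zero_iff.2 fun w _ => hd0 w
  have ha : ∏ w ∈ s, d w ∈ B X U := prod_mem fun w _ => hd w
  refine ⟨U ⊓ ul (∏ w ∈ s, d w), ⟨hg, isU_gp.2 ha0⟩, fun x hx h hh => ?_⟩
  obtain ⟨a, -, h4, h5⟩ := semi_frac hφ hU hx.1 hh
  obtain ⟨c, hc, e⟩ := h2 _ h5
  have e1 : a * h = ∑ w ∈ s, c w * l w := by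
    have := congrArg l e
    rw [map_sum, hl', ← mul_one (pb φ h), hl', hl, mul_one] at this
    rw [← this]
    exact Finset.sum_congr rfl fun w _ => hl' _ _
  have h6 : (∏ w ∈ s, d w) * (a * h) ∈ B X U := by
    rw [e1, Finset.mul_sum]
    refine sum_mem fun w hw => ?_
    rw [← Finset.prod_erase_mul s d hw, mul_assoc, mul_left_comm (d w)]
    exact mul_mem (prod_mem fun w _ => hd w) (mul_mem (hc w) (hdl w))
  exact h4.mul_mem_O_iff.1 ((mem_ul.1 hx.2).mul_mem_O_iff.1 (B_le_O hx.1 h6))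

theorem Fin_ker (hφ : Dom φ) {U : X.left.Opens} (hU : IsAffineOpen U) (x : Pt X) (hx : pt x ∈ U)
    (un : ∀ z, φ.left z = pt x → ∀ h ∈ mp Y z 1, ∃ (n : ℕ) (a : Fin n → Fn X) (b : Fin n → Fn Y),
      (∀ l, a l ∈ mp X (pt x) 1) ∧ (∀ l, b l ∈ O Y z) ∧ ∑ l, b l * pb φ (a l) = h)
    (v : B Y (φ.left ⁻¹ᵁ U)) (hv : ∀ z, φ.left z = pt x → (v : Fn Y) ∈ mp Y z 1) :
    v ∈ (pr hx).map (Fin_hom hφ U) := by
  let E : Submodule k (Fn Y) := (((pr hx).map (Fin_hom hφ U)).restrictScalars k).map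
    (B Y (φ.left ⁻¹ᵁ U)).val.toLinearMap
  have hE : ∀ b ∈ B Y (φ.left ⁻¹ᵁ U), ∀ e ∈ E, b * e ∈ E := by
    rintro b hb _ ⟨e, he, rfl⟩
    exact ⟨⟨b, hb⟩ * e, Ideal.mul_mem_left _ _ he, rfl⟩
  obtain ⟨a, h1, h2, w, hw, e⟩ := local_global hφ hU hx E hE (v := v) fun z hz => by
    have hzU : z ∈ φ.left ⁻¹ᵁ U := show φ.left z ∈ U from hz ▸ hx
    obtain ⟨n, a, b, ha, hb, e⟩ := un z hz v (hv z hz)
    rw [← e]
    refine Finset.sum_induction _
      (fun t => ∃ β ∈ B Y (φ.left ⁻¹ᵁ U), IsU Y z β ∧ β * t ∈ E) ?_ ?_ fun l _ => ?_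
    · rintro t t' ⟨β, h1, h2, h3⟩ ⟨β', h1', h2', h3'⟩
      refine ⟨β * β', mul_mem h1 h1', h2.mul h2', ?_⟩
      have e : β * β' * (t + t') = β' * (β * t) + β * (β' * t') := by ring
      rw [e]
      exact add_mem (hE _ h1' _ h3) (hE _ h1 _ h3')
    · exact ⟨1, one_mem _, isU_one, by rw [mul_zero]; exact zero_mem _⟩
    · obtain ⟨β, h1, h2, h3⟩ := aff_frac (hU.preimage φ.left) hzU (hb l)
      obtain ⟨a', α, h4, h5, h6, h7⟩ := aff_frac_mp hU hx (ha l)
      rw [pow_one] at h4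
      rw [← hz] at h6
      refine ⟨β * pb φ α, mul_mem h1 (pb_mem_B le_rfl h5), h2.mul ((pb_isU h6.1).2 h6), ?_⟩
      have e : β * pb φ α * (b l * pb φ (a l)) = β * b l * pb φ a' := by
        rw [← h7, pb_mul (hφ.mem _) (hφ.mem _)]
        ring
      rw [e]
      exact hE _ h3 _ ⟨_, Ideal.mem_map_of_mem _ h4, rfl⟩
  obtain ⟨c, hc⟩ := exists_value x h2.1
  have hc0 : c ≠ 0 := by
    rintro rfl
    rw [map_zero, sub_zero] at hc
    exact h2.2 hc
  have hm : (⟨a, h1⟩ : B X U) - algebraMap k _ c ∈ pr hx := (mem_pr hx _).2 hc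
  have e1 : v = c⁻¹ • (w - Fin_hom hφ U (⟨a, h1⟩ - algebraMap k _ c) * v) := by
    refine Subtype.ext ?_
    have e2 : (w : Fn Y) = pb φ a * v := e
    change (v : Fn Y) = c⁻¹ • ((w : Fn Y) - pbF hφ (a - algebraMap k _ c) * v)
    rw [e2, map_sub, AlgHom.commutes, pbF_apply, sub_mul, sub_sub_cancel, ← Algebra.smul_def,
      inv_smul_smul₀ hc0]
  rw [e1]
  exact Submodule.smul_of_tower_mem _ _
    (sub_mem hw (Ideal.mul_mem_right _ _ (Ideal.mem_map_of_mem _ hm)))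

theorem span_of_unram (hφ : Dom φ) (x : Pt X) {r : ℕ} (y : Fin r → Pt Y)
    (hy : ∀ z, φ.left z = pt x → ∃ i, pt (y i) = z)
    (un : ∀ z, φ.left z = pt x → ∀ h ∈ mp Y z 1, ∃ (n : ℕ) (a : Fin n → Fn X) (b : Fin n → Fn Y),
      (∀ l, a l ∈ mp X (pt x) 1) ∧ (∀ l, b l ∈ O Y z) ∧ ∑ l, b l * pb φ (a l) = h) :
    ∃ b : Fin r → Fn Y, ∀ v : Fn Y, ∃ c : Fin r → Fn X, ∑ i, pb φ (c i) * b i = v := by
  classical
  obtain ⟨U, hU, hx, -⟩ := exists_aff (W := ⊤) (x := pt x) trivial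
  have hval : ∀ i, ∃ f : B Y (φ.left ⁻¹ᵁ U) →ₗ[k] k, φ.left (pt (y i)) = pt x →
      ∀ v, f v = 0 → (v : Fn Y) ∈ mp Y (pt (y i)) 1 := fun i => by
    by_cases hi : φ.left (pt (y i)) = pt x
    · obtain ⟨f, hf⟩ := Fin_val (y i)
      have hU' : pt (y i) ∈ φ.left ⁻¹ᵁ U := show φ.left (pt (y i)) ∈ U from hi ▸ hx
      refine ⟨f ∘ₗ (Subalgebra.inclusion (B_le_O hU')).toLinearMap, fun _ v hv => ?_⟩
      have h1 := hf (Subalgebra.inclusion (B_le_O hU') v)
      have h2 : f (Subalgebra.inclusion (B_le_O hU') v) = 0 := hv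
      rw [h2, map_zero, sub_zero] at h1
      exact h1
    · exact ⟨0, fun h => absurd h hi⟩
  choose f hf using hval
  obtain ⟨g, hg⟩ := Fin_ginv (LinearMap.pi f)
  let b : Fin r → B Y (φ.left ⁻¹ᵁ U) := fun i => g (Pi.single i 1)
  have hB : ∀ v : B Y (φ.left ⁻¹ᵁ U), ∃ c : Fin r → Fn X, ∑ i, pb φ (c i) * b i = v := by
    let := (Fin_hom hφ U).toAlgebra
    have := Fin_finite hφ hU (gp_mem hx)
    obtain ⟨ρ, h1, h2⟩ := Submodule.exists_sub_one_mem_and_smul_le_of_fg_of_le_sup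
      (I := pr hx) (N := Submodule.span (B X U) (Set.range b)) (N' := ⊤) (P := ⊤)
      Module.Finite.fg_top le_rfl fun v _ => by
        have e : g (LinearMap.pi f v) = ∑ i, (algebraMap k (B X U) (f i v)) • b i := by
          conv_lhs => rw [← Finset.univ_sum_single (LinearMap.pi f v), map_sum]
          refine Finset.sum_congr rfl fun i _ => ?_
          have e1 : (Pi.single i (LinearMap.pi f v i) : Fin r → k) =
              f i v • (Pi.single i 1 : Fin r → k) := by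
            rw [← Pi.single_smul, smul_eq_mul, mul_one]
            rfl
          rw [e1, map_smul]
          refine Subtype.ext ?_
          change f i v • (b i : Fn Y) = pbF hφ (algebraMap k _ (f i v)) * b i
          rw [AlgHom.commutes, Algebra.smul_def]
        have h3 := Fin_ker hφ hU x hx un (v - g (LinearMap.pi f v)) fun z hz => by
          obtain ⟨i, rfl⟩ := hy z hz
          refine hf i hz _ ?_
          have := congrFun (hg v) i
          rw [map_sub, sub_eq_zero]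
          exact this.symm
        rw [← add_sub_cancel (g (LinearMap.pi f v)) v]
        refine Submodule.add_mem_sup ?_ ?_
        · rw [e]
          exact Submodule.sum_mem _ fun i _ =>
            Submodule.smul_mem _ _ (Submodule.subset_span ⟨i, rfl⟩)
        · rw [Ideal.smul_top_eq_map]
          exact h3
    have h0 : (ρ : Fn X) ≠ 0 := fun h => by
      have : ρ = 0 := Subtype.ext h
      rw [this, zero_sub, neg_mem_iff] at h1
      exact (pr_prime hx).ne_top ((Ideal.eq_top_iff_one _).2 h1)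
    intro v
    obtain ⟨c, hc⟩ := (Submodule.mem_span_range_iff_exists_fun _).1
      (h2 (Submodule.smul_mem_pointwise_smul v ρ ⊤ trivial))
    refine ⟨fun i => (ρ : Fn X)⁻¹ * c i, ?_⟩
    have e : ∑ i, pbF hφ (c i) * (b i : Fn Y) = pbF hφ ρ * v := by
      have := congrArg Subtype.val hc
      rw [AddSubmonoidClass.coe_finsetSum] at this
      exact this
    calc ∑ i, pb φ ((ρ : Fn X)⁻¹ * c i) * b i
        = (pbF hφ ρ)⁻¹ * ∑ i, pbF hφ (c i) * (b i : Fn Y) := by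
          rw [Finset.mul_sum]
          refine Finset.sum_congr rfl fun w _ => ?_
          rw [← pbF_apply hφ, map_mul, map_inv₀, mul_assoc]
      _ = v := by rw [e, inv_mul_cancel_left₀ ((_root_.map_ne_zero _).2 h0)]
  refine ⟨fun i => b i, fun v => ?_⟩
  let := (pbF hφ).toRingHom.toAlgebra
  let S : Submodule (Fn X) (Fn Y) := Submodule.span _ (Set.range fun i => (b i : Fn Y))
  have hS : ∀ w ∈ B Y (φ.left ⁻¹ᵁ U), w ∈ S := fun w hw =>
    (Submodule.mem_span_range_iff_exists_fun _).2 (hB ⟨w, hw⟩)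
  have : FiniteDimensional (Fn X) S := FiniteDimensional.span_of_finite _ (Set.finite_range _)
  obtain ⟨β, h1, h2, h3⟩ := aff_frac_field (hU.preimage φ.left) (hφ.gp_mem (gp_mem hx)) v
  have h4 : ∀ w ∈ S, LinearMap.mulLeft (Fn X) β w ∈ S := by
    refine fun w hw => Submodule.span_induction (p := fun w _ => LinearMap.mulLeft (Fn X) β w ∈ S)
      ?_ ?_ ?_ ?_ hw
    · rintro _ ⟨i, rfl⟩
      exact hS _ (mul_mem h1 (b i).2)
    · rw [map_zero]
      exact zero_mem _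
    · intro w w' _ _ hw hw'
      rw [map_add]
      exact add_mem hw hw'
    · intro c w _ hw
      rw [map_smul]
      exact Submodule.smul_mem _ _ hw
  obtain ⟨w, hw⟩ := LinearMap.surjective_of_injective
    (f := (LinearMap.mulLeft (Fn X) β).restrict h4)
    (fun w w' h => Subtype.ext (mul_left_cancel₀ h2 (congrArg Subtype.val h))) ⟨_, hS _ h3⟩
  have h5 : (w : Fn Y) = v := mul_left_cancel₀ h2 (congrArg Subtype.val hw)
  exact (Submodule.mem_span_range_iff_exists_fun _).1 (h5 ▸ w.2)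

end Pool.Agent.Work.MP_e57da2_ag
end
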