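import Mathlib

-- merged part: Pool.Agent.Work.MP_e57da2_ag.Cx
section
/-!
# The signed Čech / Koszul complex of a family of submodules indexed by finite sets

A cochain is a function `c : Finset ι → V`; the degree of `S` is `S.card` (the complex is
augmented: `S = ∅` is allowed).
-/

open Finset

namespace Pool.Agent.Work.MP_e57da2_ag

variable {ι : Type} [LinearOrder ι] {V W : Type} [AddCommGroup V] [AddCommGroup W]

/-- the sign of `i` in `S` -/
def sg (i : ι) (S : Finset ι) : ℤ := (-1) ^ (S.filter (· < i)).card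

/-- the differential -/
def dd : (Finset ι → V) →+ (Finset ι → V) where
  toFun c S := ∑ i ∈ S, sg i S • c (S.erase i)
  map_zero' := by
    funext S
    simp
  map_add' a b := by
    funext S
    simp [Finset.sum_add_distrib]

/-- the homotopy attached to the index `i` -/
def hh (i : ι) : (Finset ι → V) →+ (Finset ι → V) where
  toFun c S := if i ∈ S then 0 else sg i S • c (insert i S)
  map_zero' := by
    funext S
    simp
  map_add' a b := by
    funext S
    by_cases h : i ∈ S <;> simp [h]

variable {R R' : Type} [CommRing R] [CommRing R'] [Module R V] [Module R' V] [Module R W]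
  [Module R' W]

/-- `c` is a cochain of the family `F` -/
def Mem (F : Finset ι → Submodule R V) (c : Finset ι → V) : Prop := ∀ S, c S ∈ F S

/-- the complex of `F` is exact (in all degrees) -/
def Ex (F : Finset ι → Submodule R V) : Prop :=
  ∀ c, Mem F c → dd c = 0 → ∃ b, Mem F b ∧ dd b = c

/-- the complex of `F / F'` is exact (in all degrees) -/
def ExP (F F' : Finset ι → Submodule R V) : Prop :=
  ∀ c, Mem F c → Mem F' (dd c) → ∃ b, Mem F b ∧ Mem F' (c - dd b)

theorem dd_apply (c : Finset ι → V) (S : Finset ι) :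
    dd c S = ∑ i ∈ S, sg i S • c (S.erase i) := rfl

theorem hh_apply (i : ι) (c : Finset ι → V) (S : Finset ι) :
    hh i c S = if i ∈ S then 0 else sg i S • c (insert i S) := rfl

theorem sg_mul_self (i : ι) (S : Finset ι) : sg i S * sg i S = 1 := by
  rw [sg, ← mul_pow]; simp

theorem sg_eq (i : ι) (S : Finset ι) : sg i S = 1 ∨ sg i S = -1 := neg_one_pow_eq_or ℤ _

theorem sg_insert_self (i : ι) (S : Finset ι) : sg i (insert i S) = sg i S := by
  rw [sg, sg, Finset.filter_insert, if_neg (lt_irrefl i)]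

theorem sg_erase_self (i : ι) (S : Finset ι) : sg i (S.erase i) = sg i S := by
  rw [sg, sg, Finset.filter_erase, Finset.erase_eq_of_notMem (by simp)]

theorem Cx_sg_erase_lt {i j : ι} {S : Finset ι} (hi : i ∈ S) (h : i < j) :
    sg j (S.erase i) = -sg j S := by
  have hm : i ∈ S.filter (· < j) := Finset.mem_filter.2 ⟨hi, h⟩
  rw [sg, sg, Finset.filter_erase, ← Finset.card_erase_add_one hm, pow_succ]
  ring

theorem Cx_sg_erase_ge {i j : ι} {S : Finset ι} (h : ¬ i < j) : sg j (S.erase i) = sg j S := by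
  rw [sg, sg, Finset.filter_erase, Finset.erase_eq_of_notMem (by simp [h])]

/-- the basic sign rule -/
theorem sg_swap {i j : ι} {S : Finset ι} (hi : i ∈ S) (hj : j ∈ S) (hij : i ≠ j) :
    sg i S * sg j (S.erase i) = -(sg j S * sg i (S.erase j)) := by
  rcases lt_or_gt_of_ne hij with h | h
  · rw [Cx_sg_erase_lt hi h, Cx_sg_erase_ge (lt_asymm h)]; ring
  · rw [Cx_sg_erase_lt hj h, Cx_sg_erase_ge (lt_asymm h)]; ring

theorem dd_dd (c : Finset ι → V) : dd (dd c) = 0 := by
  funext S
  have e : dd (dd c) S = ∑ p ∈ S.offDiag,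
      (sg p.1 S * sg p.2 (S.erase p.1)) • c ((S.erase p.1).erase p.2) := by
    rw [dd_apply]
    simp only [dd_apply, Finset.smul_sum, smul_smul]
    rw [Finset.sum_sigma']
    refine Finset.sum_bij' (fun p _ => (p.1, p.2)) (fun p _ => ⟨p.1, p.2⟩) ?_ ?_ ?_ ?_ ?_
    · intro p hp
      simp only [Finset.mem_sigma, Finset.mem_erase] at hp
      exact Finset.mem_offDiag.2 ⟨hp.1, hp.2.2, hp.2.1.symm⟩
    · intro p hp
      have := Finset.mem_offDiag.1 hp
      simp only [Finset.mem_sigma, Finset.mem_erase]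
      exact ⟨this.1, this.2.2.symm, this.2.1⟩
    · intro p _; rfl
    · intro p _; rfl
    · intro p _; rfl
  rw [e, Pi.zero_apply]
  refine Finset.sum_involution (fun p _ => p.swap) ?_ ?_ ?_ ?_
  · intro p hp
    have := Finset.mem_offDiag.1 hp
    rw [sg_swap this.1 this.2.1 this.2.2, Prod.fst_swap, Prod.snd_swap,
      Finset.erase_right_comm (a := p.2), neg_smul, neg_add_cancel]
  · intro p hp _ e
    exact (Finset.mem_offDiag.1 hp).2.2 (congrArg Prod.snd e)
  · intro p hp
    have := Finset.mem_offDiag.1 hp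
    exact Finset.mem_offDiag.2 ⟨this.2.1, this.1, this.2.2.symm⟩
  · intro p _; rfl

theorem dd_hh (i : ι) (c : Finset ι → V) : dd (hh i c) + hh i (dd c) = c := by
  funext S
  rw [Pi.add_apply, dd_apply, hh_apply]
  by_cases h : i ∈ S
  · rw [if_pos h, add_zero, Finset.sum_eq_single_of_mem i h]
    · rw [hh_apply, if_neg (Finset.notMem_erase i S), Finset.insert_erase h, sg_erase_self,
        smul_smul, sg_mul_self, one_smul]
    · intro j _ hj
      rw [hh_apply, if_pos (Finset.mem_erase.2 ⟨hj.symm, h⟩), smul_zero]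
  · rw [if_neg h, dd_apply, Finset.sum_insert h, Finset.erase_insert h, sg_insert_self, smul_add,
      smul_smul, sg_mul_self, one_smul, Finset.smul_sum, add_left_comm, ← Finset.sum_add_distrib,
      Finset.sum_eq_zero, add_zero]
    intro j hj
    have hij : i ≠ j := fun e => h (e ▸ hj)
    have k := sg_swap (Finset.mem_insert_self i S) (Finset.mem_insert_of_mem hj) hij
    rw [Finset.erase_insert h, sg_insert_self, Finset.erase_insert_of_ne hij, sg_insert_self] at k
    rw [hh_apply, if_neg (fun e => h (Finset.mem_of_mem_erase e)), Finset.erase_insert_of_ne hij,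
      smul_smul, smul_smul, ← add_smul]
    have : sg j S * sg i (S.erase j) + sg i S * sg j (insert i S) = 0 := by
      have a1 := sg_mul_self i S
      have a2 := sg_mul_self i (S.erase j)
      linear_combination (sg i S * sg i (S.erase j)) * k - (sg j S * sg i (S.erase j)) * a1 -
        (sg i S * sg j (insert i S)) * a2
    rw [this, zero_smul]

theorem dd_map (φ : V →+ W) (c : Finset ι → V) : (dd fun S => φ (c S)) = fun S => φ (dd c S) := by
  funext S
  simp only [dd_apply, map_sum, map_zsmul]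

theorem dd_smul {Λ : Type} [Monoid Λ] [DistribMulAction Λ V] (a : Λ) (c : Finset ι → V) :
    dd (a • c) = a • dd c :=
  dd_map (DistribSMul.toAddMonoidHom V a) c

theorem dd_empty (c : Finset ι → V) : dd c ∅ = 0 := by simp [dd_apply]

theorem dd_singleton (c : Finset ι → V) (i : ι) : dd c {i} = c ∅ := by
  simp [dd_apply, sg, Finset.filter_singleton]

theorem dd_pair (c : Finset ι → V) {i j : ι} (h : i < j) : dd c {i, j} = c {j} - c {i} := by
  have e1 : ({i, j} : Finset ι).erase i = {j} := Finset.erase_insert (by simpa using h.ne)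
  have e2 : ({i, j} : Finset ι).erase j = {i} := by
    rw [Finset.pair_comm]; exact Finset.erase_insert (by simpa using h.ne')
  rw [dd_apply, Finset.sum_pair h.ne, e1, e2]
  simp [sg, Finset.filter_insert, Finset.filter_singleton, h, lt_asymm h, sub_eq_add_neg]

theorem Mem.dd {F : Finset ι → Submodule R V} (hF : Monotone F) {c : Finset ι → V}
    (hc : Mem F c) : Mem F (dd c) := fun S =>
  sum_mem fun i _ => zsmul_mem (hF (Finset.erase_subset i S) (hc _)) _

theorem Mem.add {F : Finset ι → Submodule R V} {a b : Finset ι → V} (ha : Mem F a)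
    (hb : Mem F b) : Mem F (a + b) := fun S => add_mem (ha S) (hb S)

theorem Mem.sub {F : Finset ι → Submodule R V} {a b : Finset ι → V} (ha : Mem F a)
    (hb : Mem F b) : Mem F (a - b) := fun S => sub_mem (ha S) (hb S)

theorem Ex.congr {F : Finset ι → Submodule R V} {G : Finset ι → Submodule R' V} (h : Ex F)
    (e : ∀ S v, v ∈ F S ↔ v ∈ G S) : Ex G := fun c hc hd => by
  obtain ⟨b, hb, e'⟩ := h c (fun S => (e S _).2 (hc S)) hd
  exact ⟨b, fun S => (e S _).1 (hb S), e'⟩

theorem exP_bot {F : Finset ι → Submodule R V} : ExP F (fun _ => ⊥) ↔ Ex F := by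
  have k : ∀ c : Finset ι → V, Mem (fun _ => (⊥ : Submodule R V)) c ↔ c = 0 := fun c =>
    ⟨fun h => funext fun S => (Submodule.mem_bot R).1 (h S), fun h S => by simp [h]⟩
  simp only [ExP, Ex, k, sub_eq_zero, eq_comm (a := dd _)]

/-- two out of three -/
theorem Ex.of_exP {F F' : Finset ι → Submodule R V} (hle : ∀ S, F' S ≤ F S) (h : Ex F)
    (hp : ExP F F') : Ex F' := fun c hc hd => by
  obtain ⟨b, hb, e⟩ := h c (fun S => hle S (hc S)) hd
  obtain ⟨b', -, hb'⟩ := hp b hb (e ▸ hc)
  exact ⟨b - dd b', hb', by rw [map_sub, dd_dd, sub_zero, e]⟩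

/-- a retract of an exact family is exact -/
theorem Ex.retract {F : Finset ι → Submodule R V} {G : Finset ι → Submodule R' W} (h : Ex G)
    (α : V →+ W) (ρ : W →+ V) (hα : ∀ S v, v ∈ F S → α v ∈ G S) (hρ : ∀ S w, w ∈ G S → ρ w ∈ F S)
    (hρα : ∀ v, ρ (α v) = v) : Ex F := fun c hc hd => by
  obtain ⟨b, hb, e⟩ := h (fun S => α (c S)) (fun S => hα S _ (hc S))
    (by rw [dd_map, hd]; funext S; simp)
  refine ⟨fun S => ρ (b S), fun S => hρ S _ (hb S), ?_⟩
  rw [dd_map, e]
  funext S
  exact hρα _

/-- partition of unity: `b = ∑ l, a l • hh (i l) c` -/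
theorem exists_dd_eq_of_partition {Λ κ : Type} [CommRing Λ] [Module Λ V] [Fintype κ]
    {F : Finset ι → Submodule R V} (i : κ → ι) (a : κ → Λ) (ha : ∑ l, a l = 1)
    {c : Finset ι → V} (hc : dd c = 0)
    (h : ∀ l S, i l ∉ S → a l • c (insert (i l) S) ∈ F S) : ∃ b, Mem F b ∧ dd b = c := by
  refine ⟨∑ l, a l • hh (i l) c, fun S => ?_, ?_⟩
  · rw [Finset.sum_apply]
    refine sum_mem fun l _ => ?_
    rw [Pi.smul_apply, hh_apply]
    split_ifs with k
    · rw [smul_zero]; exact zero_mem _
    · rw [smul_comm]; exact zsmul_mem (h l S k) _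
  · have k : ∀ l, dd (hh (i l) c) = c := fun l => by
      have := dd_hh (i l) c
      rwa [hc, map_zero, add_zero] at this
    simp only [map_sum, dd_smul, k]
    rw [← Finset.sum_smul, ha, one_smul]

/-- the part of degree `q` -/
def Cx_pt (q : ℕ) (c : Finset ι → V) : Finset ι → V := fun S => if S.card = q then c S else 0

theorem Cx_pt_dd (q : ℕ) (c : Finset ι → V) : dd (Cx_pt q c) = Cx_pt (q + 1) (dd c) := by
  funext S
  rw [dd_apply, Cx_pt]
  split_ifs with h
  · refine Finset.sum_congr rfl fun i hi => ?_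
    have := Finset.card_erase_add_one hi
    rw [Cx_pt, if_pos (by omega)]
  · refine Finset.sum_eq_zero fun i hi => ?_
    have := Finset.card_erase_add_one hi
    rw [Cx_pt, if_neg (by omega), smul_zero]

omit [LinearOrder ι] in
theorem Cx_pt_mem {F : Finset ι → Submodule R V} (q : ℕ) {c : Finset ι → V} (hc : Mem F c) :
    Mem F (Cx_pt q c) := fun S => by
  rw [Cx_pt]
  split_ifs
  exacts [hc S, zero_mem _]

/-- exactness degree by degree -/
theorem Ex.graded {F : Finset ι → Submodule R V} (h : Ex F) {q : ℕ} {c : Finset ι → V}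
    (hc : Mem F c) (hq : ∀ S, S.card ≠ q + 1 → c S = 0) (hd : dd c = 0) :
    ∃ b, Mem F b ∧ (∀ S, S.card ≠ q → b S = 0) ∧ dd b = c := by
  obtain ⟨b, hb, e⟩ := h c hc hd
  refine ⟨Cx_pt q b, Cx_pt_mem q hb, fun S hS => if_neg hS, ?_⟩
  rw [Cx_pt_dd, e]
  funext S
  rw [Cx_pt]
  split_ifs with k
  exacts [rfl, (hq S k).symm]

/-- it is enough to treat homogeneous cochains -/
theorem Ex.of_graded [Fintype ι] {F : Finset ι → Submodule R V}
    (h : ∀ (q : ℕ) (c : Finset ι → V), Mem F c → (∀ S, S.card ≠ q → c S = 0) → dd c = 0 →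
      ∃ b, Mem F b ∧ dd b = c) : Ex F := fun c hc hd => by
  have k : ∀ q, ∃ b, Mem F b ∧ dd b = Cx_pt q c := fun q =>
    h q _ (Cx_pt_mem q hc) (fun S hS => if_neg hS) (by
      rw [Cx_pt_dd, hd]; funext S; simp [Cx_pt])
  choose b hb e using k
  refine ⟨∑ q ∈ Finset.range (Fintype.card ι + 1), b q, fun S => ?_, ?_⟩
  · rw [Finset.sum_apply]
    exact sum_mem fun q _ => hb q S
  · funext S
    simp only [map_sum, e, Finset.sum_apply, Cx_pt]
    rw [Finset.sum_ite_eq, if_pos (Finset.mem_range.2 (Nat.lt_succ_of_le S.card_le_univ))]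

/-- exactness in degree one -/
theorem Ex.mem_empty [Nonempty ι] {F : Finset ι → Submodule R V} (h : Ex F) {v : V}
    (hv : ∀ i, v ∈ F {i}) : v ∈ F ∅ := by
  obtain ⟨b, hb, e⟩ := h (dd (Cx_pt 0 fun _ => v)) (fun S => by
    rw [Cx_pt_dd, Cx_pt]
    split_ifs with k
    · obtain ⟨i, rfl⟩ := Finset.card_eq_one.1 k
      rw [dd_singleton]; exact hv i
    · exact zero_mem _) (dd_dd _)
  obtain ⟨i⟩ := ‹Nonempty ι›
  have := congrFun e {i}
  rw [dd_singleton, dd_singleton, Cx_pt, if_pos Finset.card_empty] at this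
  exact this ▸ hb ∅

/-- exactness in degree two -/
theorem Ex.exists_sub_mem {F : Finset ι → Submodule R V} (h : Ex F) {e : ι → V}
    (he : ∀ i j, e i - e j ∈ F {i, j}) : ∃ u : V, ∀ i, e i - u ∈ F {i} := by
  have k1 : ∀ i j, i < j → dd (Cx_pt 1 fun S => ∑ i ∈ S, e i) {i, j} = e j - e i :=
    fun i j hij => by rw [dd_pair _ hij]; simp [Cx_pt]
  obtain ⟨b, hb, eb⟩ := h (dd (Cx_pt 1 fun S => ∑ i ∈ S, e i)) (fun S => by
    by_cases k : S.card = 2
    · obtain ⟨i, j, hij, rfl⟩ := Finset.card_eq_two.1 k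
      rcases lt_or_gt_of_ne hij with l | l
      · rw [k1 i j l, Finset.pair_comm]; exact he j i
      · rw [Finset.pair_comm, k1 j i l, Finset.pair_comm]; exact he i j
    · rw [Cx_pt_dd, Cx_pt, if_neg k]; exact zero_mem _) (dd_dd _)
  have k2 : ∀ i j, i < j → e i - b {i} = e j - b {j} := fun i j hij => by
    have := k1 i j hij
    rw [← eb, dd_pair _ hij] at this
    rw [sub_eq_sub_iff_sub_eq_sub, ← neg_sub, ← this, neg_sub]
  rcases isEmpty_or_nonempty ι with n | ⟨⟨i₀⟩⟩
  · exact ⟨0, fun i => n.elim i⟩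
  · refine ⟨e i₀ - b {i₀}, fun i => ?_⟩
    have : e i₀ - b {i₀} = e i - b {i} := by
      rcases lt_trichotomy i₀ i with l | l | l
      exacts [k2 _ _ l, by rw [l], (k2 _ _ l).symm]
    rw [this, sub_sub_cancel]
    exact hb _

end Pool.Agent.Work.MP_e57da2_ag
end

-- merged part: Pool.Agent.Work.MP_e57da2_ag.CxDS
section
/-!
# Double complexes, Euler characteristics, top degrees

Plan.  `ex_iff_of_double`: by symmetry prove one implication.  Work with `c : Finset ι → Finset κ → V`,
`d₁` = `dd` in the first variable (values in `Finset κ → V`), `d₂` = `dd` in the second; they commute.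
Put `D = d₁ + ε d₂` with `ε S = (-1) ^ S.card`; `D ∘ D = 0`.  Claim A: if all columns `F S ·` are exact
then `D` is exact on `F` (induct on the least `S.card` where `c ≠ 0`; at that level `d₂ c = 0`).
Apply it (roles swapped) to `F` cut to `T ≠ ∅`, and to `F` when `F ∅ ·` is exact; then for a cocycle
`c` of `F · ∅` extended by zero, `D c` lives on `T ≠ ∅`, so `D c = D b'`, `c - b' = D b`; read off `T = ∅`.
(A zig-zag argument with `Ex.graded` works as well.)
`euler`: `dd` maps the even part `E` (cochains of `F` supported on even `S.card`) to the odd part `O` and back,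
kernel = image both ways (use `Ex.graded` or parity projections), rank-nullity gives `finrank E = finrank O`.
`top_gen`: a cochain supported on `univ` is a cocycle.  `top_syz`: the cochain `S ↦ sg i univ • h i` on
`S = univ.erase i` is a cocycle of degree `card ι - 1`, so it is `dd a` with `a` of degree `card ι - 2`;
put `m i j = sg i univ * sg j (univ.erase i) • a ((univ.erase i).erase j)` for `i ≠ j` (`sg_swap`).
-/

open Finset

namespace Pool.Agent.Work.MP_e57da2_ag

variable {ι κ : Type} [LinearOrder ι] [LinearOrder κ] [Fintype ι] [Fintype κ] {V : Type}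
  [AddCommGroup V] {R : Type} [CommRing R] [Module R V]

omit [Fintype ι] in
theorem cxds_zero {c : Finset ι → V} {S : Finset ι}
    (h : ∀ T : Finset ι, T.card + 1 = S.card → c T = 0) : dd c S = 0 :=
  sum_eq_zero fun i hi => by rw [h _ (card_erase_add_one hi), smul_zero]

omit [Fintype ι] [Fintype κ] [LinearOrder κ] in
theorem cxds_eval (c : Finset ι → Finset κ → V) (S : Finset ι) (T : Finset κ) :
    dd c S T = dd (fun S => c S T) S := by
  simp [dd_apply]

omit [Fintype ι] [Fintype κ] in
theorem cxds_comm (c : Finset ι → Finset κ → V) (S : Finset ι) :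
    dd (fun S => dd (c S)) S = dd (dd c S) := congrFun (dd_map dd c) S

omit [Fintype ι] in
theorem cxds_cycles (F : Finset ι → Finset κ → Submodule R V)
    (h₁ : ∀ T, Monotone fun S => F S T) (h₂ : ∀ S, Monotone (F S))
    (rows : ∀ T, T.Nonempty → Ex fun S => F S T) (cols : ∀ S, Ex (F S)) (n : ℕ) :
    ∀ q, Fintype.card κ < q + 1 + n → ∀ c : Finset ι → Finset κ → V, (∀ S, Mem (F S) (c S)) →
      (∀ S T, T.card ≠ q + 1 → c S T = 0) → (∀ S, dd (c S) = 0) → dd c = 0 →
      ∃ g : Finset ι → Finset κ → V, (∀ S, Mem (F S) (g S)) ∧ (∀ S T, T.card ≠ q → g S T = 0) ∧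
        ∀ S, dd (dd g S) = c S := by
  induction n with
  | zero =>
    intro q hq c _ h0 _ _
    refine ⟨0, fun S T => zero_mem _, fun _ _ _ => rfl, fun S => ?_⟩
    funext T
    have := T.card_le_univ
    rw [h0 S T (by omega)]
    simp
  | succ n ih =>
    intro q hq c hc h0 hd₂ hd₁
    have h1 : ∀ T : Finset κ, ∃ b : Finset ι → V, Mem (fun S => F S T) b ∧
        (T.card ≠ q + 1 → b = 0) ∧ dd b = fun S => c S T := fun T => by
      by_cases hT : T.card = q + 1
      · obtain ⟨b, hb, hb'⟩ := rows T (card_pos.1 (by omega)) (fun S => c S T) (fun S => hc S T)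
          (funext fun S => by rw [← cxds_eval, hd₁]; rfl)
        exact ⟨b, hb, fun h => absurd hT h, hb'⟩
      · exact ⟨0, fun S => zero_mem _, fun _ => rfl, by
          rw [map_zero]
          exact funext fun S => (h0 S T hT).symm⟩
    choose b hb hb0 hbd using h1
    set b' : Finset ι → Finset κ → V := fun S T => b T S with hb'
    have h2 : dd b' = c := by
      funext S T
      rw [cxds_eval]
      exact congrFun (hbd T) S
    obtain ⟨g, hg, hg0, hgd⟩ := ih (q + 1) (by omega) (fun S => dd (b' S))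
      (fun S => Mem.dd (h₂ S) fun T => hb T S)
      (fun S T hT => cxds_zero fun U hU => congrFun (hb0 U (by omega)) S)
      (fun S => dd_dd _) (funext fun S => by rw [cxds_comm, h2, hd₂]; rfl)
    have h3 : ∀ S, ∃ a, Mem (F S) a ∧ (∀ T : Finset κ, T.card ≠ q → a T = 0) ∧
        dd a = b' S - dd g S := fun S => by
      refine (cols S).graded (Mem.sub (fun T => hb T S) fun T => ?_) (fun T hT => ?_) ?_
      · rw [cxds_eval]
        exact Mem.dd (h₁ T) (fun S => hg S T) S
      · rw [Pi.sub_apply, cxds_eval, cxds_zero fun U _ => hg0 U T hT, sub_zero]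
        exact congrFun (hb0 T hT) S
      · rw [map_sub, hgd, sub_self]
    choose a ha ha0 had using h3
    refine ⟨a, ha, ha0, fun S => ?_⟩
    have h4 : (fun S => dd (a S)) = b' - dd g := funext had
    rw [← cxds_comm, h4, map_sub, dd_dd, sub_zero, h2]

omit [Fintype ι] in
theorem cxds_edge (F : Finset ι → Finset κ → Submodule R V)
    (h₁ : ∀ T, Monotone fun S => F S T) (h₂ : ∀ S, Monotone (F S))
    (rows : ∀ T, T.Nonempty → Ex fun S => F S T) (cols : ∀ S, Ex (F S)) :
    Ex fun S => F S ∅ := by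
  intro c hc hd
  set c' : Finset ι → Finset κ → V := fun S T => if T = ∅ then c S else 0 with hc'
  have h1 : ∀ S, Mem (F S) (c' S) := fun S T => by
    by_cases hT : T = ∅
    · subst hT
      simpa [hc'] using hc S
    · simp [hc', hT]
  have h2 : dd c' = 0 := by
    funext S T
    rw [cxds_eval]
    by_cases hT : T = ∅
    · simp only [hc', if_pos hT]
      exact congrFun hd S
    · simp only [hc', if_neg hT]
      exact cxds_zero fun _ _ => rfl
  obtain ⟨g, hg, -, hgd⟩ := cxds_cycles F h₁ h₂ rows cols (Fintype.card κ) 0 (by omega)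
    (fun S => dd (c' S)) (fun S => Mem.dd (h₂ S) (h1 S))
    (fun S T hT => cxds_zero fun U hU => if_neg (by rintro rfl; exact hT hU.symm))
    (fun S => dd_dd _) (funext fun S => by rw [cxds_comm, h2]; exact map_zero _)
  refine ⟨fun S => g S ∅, fun S => hg S ∅, funext fun S => ?_⟩
  obtain ⟨a, -, ha⟩ := cols S (dd g S - c' S) (Mem.sub (fun T => by
    rw [cxds_eval]
    exact Mem.dd (h₁ T) (fun S => hg S T) S) (h1 S)) (by rw [map_sub, hgd, sub_self])
  have h3 := congrFun ha ∅
  rw [dd_empty, Pi.sub_apply, cxds_eval] at h3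
  simpa [hc'] using sub_eq_zero.1 h3.symm

omit [LinearOrder ι] in
theorem cxds_finrank {k : Type} [Field k] [Module k V] (G : Finset ι → Submodule k V)
    (fin : ∀ S, FiniteDimensional k (G S)) :
    FiniteDimensional k (Submodule.pi Set.univ G) ∧
      Module.finrank k (Submodule.pi Set.univ G) = ∑ S, Module.finrank k (G S) := by
  let L : (∀ S, G S) →ₗ[k] Finset ι → V := LinearMap.pi fun S => (G S).subtype ∘ₗ LinearMap.proj S
  have h1 : Function.Injective L := fun a b h => funext fun S => Subtype.ext (congrFun h S)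
  have h2 : LinearMap.range L = Submodule.pi Set.univ G := by
    ext c
    exact ⟨by rintro ⟨a, rfl⟩ S _; exact (a S).2, fun h => ⟨fun S => ⟨c S, h S trivial⟩, rfl⟩⟩
  rw [← h2, LinearMap.finrank_range_of_inj h1, Module.finrank_pi_fintype]
  exact ⟨inferInstance, rfl⟩

/-- the differential as a linear map -/
def cxdsLin (ι : Type) [LinearOrder ι] (R V : Type) [AddCommGroup V] [CommRing R] [Module R V] :
    (Finset ι → V) →ₗ[R] Finset ι → V :=
  { dd with map_smul' := fun a c => dd_smul a c }

omit [Fintype ι] in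
theorem cxds_parity {F : Finset ι → Submodule R V} (hF : Monotone F) (h : Ex F) (p q : ℕ → Prop)
    [DecidablePred p] [DecidablePred q] (hpq : ∀ n, q (n + 1) ↔ p n) :
    (Submodule.pi Set.univ fun S => if p S.card then F S else ⊥).map (cxdsLin ι R V) =
      (Submodule.pi Set.univ fun S => if q S.card then F S else ⊥) ⊓
        LinearMap.ker (cxdsLin ι R V) := by
  ext c
  constructor
  · rintro ⟨b, hb, rfl⟩
    have h1 : ∀ S, b S ∈ if p S.card then F S else ⊥ := fun S => hb S trivial
    refine ⟨fun S _ => ?_, dd_dd b⟩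
    change dd b S ∈ if q S.card then F S else ⊥
    split_ifs with hS
    · refine Mem.dd hF (fun T => ?_) S
      have := h1 T
      split_ifs at this
      · exact this
      · rw [(Submodule.mem_bot _).1 this]
        exact zero_mem _
    · refine cxds_zero fun T hT => ?_
      have := h1 T
      rwa [if_neg fun h2 => hS (hT ▸ (hpq _).2 h2)] at this
  · rintro ⟨hc, hd⟩
    have h1 : ∀ S, c S ∈ if q S.card then F S else ⊥ := fun S => hc S trivial
    obtain ⟨b, hb, hb'⟩ := h c (fun T => by
      have := h1 T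
      split_ifs at this
      · exact this
      · rw [(Submodule.mem_bot _).1 this]
        exact zero_mem _) hd
    refine ⟨fun S => if p S.card then b S else 0, fun S _ => ?_, funext fun S => ?_⟩
    · change (if p S.card then b S else 0) ∈ if p S.card then F S else ⊥
      split_ifs
      · exact hb S
      · exact zero_mem _
    · change dd (fun S => if p S.card then b S else 0) S = c S
      by_cases hS : q S.card
      · rw [← hb']
        refine sum_congr rfl fun i hi => ?_
        exact congrArg _ (if_pos ((hpq _).1 (by rwa [card_erase_add_one hi])))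
      · have := h1 S
        rw [if_neg hS] at this
        rw [(Submodule.mem_bot _).1 this]
        exact cxds_zero fun T hT => if_neg fun h2 => hS (hT ▸ (hpq _).2 h2)

theorem cxds_rank {k M : Type} [Field k] [AddCommGroup M] [Module k M] (f : M →ₗ[k] M)
    (E : Submodule k M) [FiniteDimensional k E] :
    Module.finrank k (E.map f) + Module.finrank k (E ⊓ LinearMap.ker f : Submodule k M) =
      Module.finrank k E := by
  rw [← LinearMap.finrank_range_add_finrank_ker (f.domRestrict E), LinearMap.range_domRestrict,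
    LinearMap.ker_domRestrict, ← Submodule.map_comap_subtype, Submodule.finrank_map_subtype_eq]

/-- comparison of the two edge complexes of a double complex -/
theorem ex_iff_of_double (F : Finset ι → Finset κ → Submodule R V)
    (h₁ : ∀ T, Monotone fun S => F S T) (h₂ : ∀ S, Monotone (F S))
    (rows : ∀ T, T.Nonempty → Ex fun S => F S T) (cols : ∀ S, S.Nonempty → Ex (F S)) :
    (Ex fun S => F S ∅) ↔ Ex (F ∅) := by
  refine ⟨fun h => cxds_edge (fun T S => F S T) h₂ h₁ cols fun T => ?_,
    fun h => cxds_edge F h₁ h₂ rows fun S => ?_⟩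
  · rcases T.eq_empty_or_nonempty with rfl | hT
    exacts [h, rows T hT]
  · rcases S.eq_empty_or_nonempty with rfl | hS
    exacts [h, cols S hS]

/-- the Euler characteristic of an exact complex vanishes -/
theorem Ex.euler {k : Type} [Field k] [Module k V] {F : Finset ι → Submodule k V}
    (hF : Monotone F) (h : Ex F) (fin : ∀ S, FiniteDimensional k (F S)) :
    ∑ S : Finset ι, (-1 : ℤ) ^ S.card * (Module.finrank k (F S) : ℤ) = 0 := by
  have h0 : ∀ (p : ℕ → Prop) [DecidablePred p] (S : Finset ι),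
      FiniteDimensional k (if p S.card then F S else ⊥ : Submodule k V) := fun p _ S => by
    by_cases hS : p S.card
    · rw [if_pos hS]
      exact fin S
    · rw [if_neg hS]
      infer_instance
  obtain ⟨hE, hE'⟩ := cxds_finrank _ (h0 Even)
  obtain ⟨hO, hO'⟩ := cxds_finrank _ (h0 Odd)
  have h1 := cxds_rank (cxdsLin ι k V) (Submodule.pi Set.univ fun S => if Even S.card then F S else ⊥)
  have h2 := cxds_rank (cxdsLin ι k V) (Submodule.pi Set.univ fun S => if Odd S.card then F S else ⊥)
  rw [cxds_parity hF h Even Odd fun n => Nat.odd_add_one.trans Nat.not_odd_iff_even, hE'] at h1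
  rw [cxds_parity hF h Odd Even fun n => Nat.even_add_one.trans Nat.not_even_iff_odd, hO',
    add_comm, h1] at h2
  have h3 := congrArg (Nat.cast (R := ℤ)) h2
  rw [← sub_eq_zero, Nat.cast_sum, Nat.cast_sum, ← sum_sub_distrib] at h3
  rw [← h3]
  refine sum_congr rfl fun S _ => ?_
  rcases Nat.even_or_odd S.card with hS | hS
  · rw [if_pos hS, if_neg (Nat.not_odd_iff_even.2 hS), hS.neg_one_pow]
    simp
  · rw [if_pos hS, if_neg (Nat.not_even_iff_odd.2 hS), hS.neg_one_pow]
    simp

/-- exactness in top degree -/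
theorem Ex.top_gen {F : Finset ι → Submodule R V} (h : Ex F) {v : V} (hv : v ∈ F univ) :
    ∃ b : ι → V, (∀ i, b i ∈ F (univ.erase i)) ∧ ∑ i, b i = v := by
  obtain ⟨b, hb, hd⟩ := h (fun S => if S = univ then v else 0) (fun S => by
    beta_reduce
    split_ifs with hS
    · rwa [hS]
    · exact zero_mem _) (funext fun S => cxds_zero fun T hT => if_neg (by
      rintro rfl
      have := card_le_card (subset_univ S)
      omega))
  exact ⟨fun i => sg i univ • b (univ.erase i), fun i => zsmul_mem (hb _) _,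
    (congrFun hd univ).trans (if_pos rfl)⟩

/-- exactness in the degree below the top -/
theorem Ex.top_syz [Nontrivial ι] {F : Finset ι → Submodule R V} (h : Ex F) {b : ι → V}
    (hb : ∀ i, b i ∈ F (univ.erase i)) (h0 : ∑ i, b i = 0) :
    ∃ m : ι → ι → V, (∀ i j, i ≠ j → m i j ∈ F ((univ.erase i).erase j)) ∧ (∀ i, m i i = 0) ∧
      (∀ i j, m i j = -m j i) ∧ ∀ i, b i = ∑ j, m i j := by
  set c : Finset ι → V := fun S => ∑ i, if S = univ.erase i then sg i univ • b i else 0 with hc
  have h1 : ∀ i, c (univ.erase i) = sg i univ • b i := fun i => by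
    refine (sum_eq_single i (fun j _ hj => if_neg fun e => ?_) fun hi => absurd (mem_univ i) hi).trans
      (if_pos rfl)
    exact hj ((erase_inj _ (mem_univ i)).1 e).symm
  obtain ⟨a, ha, hd⟩ := h c (fun S => sum_mem fun i _ => by
    split_ifs with hS
    · exact hS ▸ zsmul_mem (hb i) _
    · exact zero_mem _) (funext fun S => by
    by_cases hS : S = univ
    · rw [hS, dd_apply]
      simp only [h1, smul_smul, sg_mul_self, one_smul]
      exact h0
    · refine cxds_zero fun T hT => sum_eq_zero fun i _ => if_neg ?_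
      rintro rfl
      rw [card_erase_add_one (mem_univ i)] at hT
      exact hS (eq_univ_of_card S hT.symm))
  refine ⟨fun i j => if i = j then 0 else
    (sg i univ * sg j (univ.erase i)) • a ((univ.erase i).erase j), fun i j hij => ?_,
    fun i => if_pos rfl, fun i j => ?_, fun i => ?_⟩
  · simp only [if_neg hij]
    exact zsmul_mem (ha _) _
  · by_cases hij : i = j
    · simp [hij]
    · simp only [if_neg hij, if_neg (Ne.symm hij)]
      rw [sg_swap (mem_univ i) (mem_univ j) hij, neg_smul, erase_right_comm]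
  · have h2 := congrArg (sg i univ • ·) ((congrFun hd (univ.erase i)).trans (h1 i))
    simp only [dd_apply, smul_sum, smul_smul, sg_mul_self, one_smul] at h2
    beta_reduce
    rw [← h2, ← add_sum_erase _ _ (mem_univ i), if_pos rfl, zero_add]
    exact sum_congr rfl fun j hj => (if_neg (ne_of_mem_erase hj).symm).symm

end Pool.Agent.Work.MP_e57da2_ag
end

-- merged part: Pool.Agent.Work.MP_e57da2_ag.Gind
section
/-!
# An induction principle for bigraded families

`gen s W E m n = S ^ m * W ^ n * E` where `S` is spanned by the `s i`.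

Plan.  `wf_closed`: let `A = MvPolynomial (ι ⊕ κ) R` (`κ` indexes generators `w l` of `W`) act on
`K₂ = AddMonoidAlgebra K (ℕ × ℕ)` through `X (inl i) ↦ single (1, 0) (s i)`, `X (inr l) ↦ single (0, 1) (w l)`.
A closed family `P` gives the `A`-submodule `tot P = {f | ∀ m n, f (m, n) ∈ P m n}`; `tot` is strictly monotone and
`tot (gen s W E)` is generated by the `single (0, 0) e`, `e` running over generators of `E`; `A` is noetherian.
`gind`: prove `∀ J : Finset ι, ∀ P` closed below `N` with `s i * N m n ≤ P (m+1) n` for `i ∉ J`, `Q P`, by induction on `J`.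
For `J = ∅` the truncations `(m ↦ if m < a then N m else P m)` are closed and increase with `a`, so they are stationary
(`wf_closed`), which gives the hypothesis of `base`.  For `insert i J` use well-founded induction on `P`:
`addS i N P` is handled by the hypothesis for `J`, and `colS i N P ≥ P` is either `P` or larger.
-/

namespace Pool.Agent.Work.MP_e57da2_ag

variable {R K : Type} [CommRing R] [CommRing K] [Algebra R K] {ι : Type}

/-- the family generated by `E` -/
def gen (s : ι → K) (W E : Submodule R K) (m n : ℕ) : Submodule R K :=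
  Submodule.span R (Set.range s) ^ m * W ^ n * E

/-- families closed under the operators -/
def Closed (s : ι → K) (W : Submodule R K) (P : ℕ → ℕ → Submodule R K) : Prop :=
  (∀ i m n v, v ∈ P m n → s i * v ∈ P (m + 1) n) ∧ ∀ m n, W * P m n ≤ P m (n + 1)

/-- `P + a N (-1)` -/
def addS (a : K) (N P : ℕ → ℕ → Submodule R K) : ℕ → ℕ → Submodule R K
  | 0, n => P 0 n
  | m + 1, n => P (m + 1) n ⊔ (N m n).map (LinearMap.mulLeft R a)

/-- `(P : a)` inside `N` -/
def colS (a : K) (N P : ℕ → ℕ → Submodule R K) (m n : ℕ) : Submodule R K :=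
  N m n ⊓ (P (m + 1) n).comap (LinearMap.mulLeft R a)

variable {s : ι → K} {W E : Submodule R K}

theorem gind_succ_eq (m n : ℕ) :
    gen s W E (m + 1) n = Submodule.span R (Set.range s) * gen s W E m n := by
  simp only [gen, pow_succ', mul_assoc]

theorem gind_succ_eq' (m n : ℕ) : gen s W E m (n + 1) = W * gen s W E m n := by
  simp only [gen]
  ring

theorem gind_span_mul_le {t : Set K} {X Y : Submodule R K} (h : ∀ a ∈ t, ∀ x ∈ X, a * x ∈ Y) :
    Submodule.span R t * X ≤ Y := by
  refine Submodule.mul_le.2 fun a ha x hx => ?_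
  exact (Submodule.span_le (p := Y.comap (LinearMap.mulRight R x))).2 (fun b hb => h b hb x hx) ha

theorem closed_gen : Closed s W (gen s W E) :=
  ⟨fun i m n v hv => by
    rw [gind_succ_eq]
    exact Submodule.mul_mem_mul (Submodule.subset_span ⟨i, rfl⟩) hv,
  fun m n => (gind_succ_eq' m n).ge⟩

theorem gen_zero_zero : gen s W E 0 0 = E := by simp [gen]

theorem gen_succ (m n : ℕ) :
    gen s W E (m + 1) n = ⨆ i, (gen s W E m n).map (LinearMap.mulLeft R (s i)) := by
  refine le_antisymm ?_ (iSup_le fun i => Submodule.map_le_iff_le_comap.2 fun v hv =>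
    closed_gen.1 i m n v hv)
  rw [gind_succ_eq]
  refine gind_span_mul_le ?_
  rintro _ ⟨i, rfl⟩ x hx
  exact Submodule.mem_iSup_of_mem i (Submodule.mem_map_of_mem hx)

theorem gen_fg [Finite ι] (hW : W.FG) (hE : E.FG) (m n : ℕ) : (gen s W E m n).FG :=
  (((Submodule.fg_span (Set.finite_range s)).pow m).mul (hW.pow n)).mul hE

/-- `gen` is the least closed family containing `E` -/
theorem gen_le {P : ℕ → ℕ → Submodule R K} (hP : Closed s W P) (hE : E ≤ P 0 0) (m n : ℕ) :
    gen s W E m n ≤ P m n := by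
  induction m with
  | zero =>
    induction n with
    | zero => rwa [gen_zero_zero]
    | succ n ih =>
      rw [gind_succ_eq']
      exact (mul_le_mul_right ih W).trans (hP.2 0 n)
  | succ m ih =>
    rw [gen_succ]
    exact iSup_le fun i => Submodule.map_le_iff_le_comap.2 fun v hv => hP.1 i m n v (ih hv)

section Tot

open Polynomial

/-- the algebra of operators -/
noncomputable def gindAlg (R : Type) [CommRing R] [Algebra R K] (s : ι → K) (w : Set K) :
    Subalgebra R K[X][X] :=
  Algebra.adjoin R (Set.range (fun i => X * C (C (s i))) ∪ (fun a => C (X * C a)) '' w)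

/-- the module attached to a closed family -/
def gindTot {w : Set K} {P : ℕ → ℕ → Submodule R K} (hP : Closed s (Submodule.span R w) P) :
    Submodule (gindAlg R s w) K[X][X] where
  carrier := {f | ∀ m n, (f.coeff m).coeff n ∈ P m n}
  zero_mem' := fun m n => by simp
  add_mem' := fun hf hg m n => by simpa using add_mem (hf m n) (hg m n)
  smul_mem' := by
    rintro ⟨a, ha⟩ f hf
    change ∀ m n, ((a * f).coeff m).coeff n ∈ P m n
    induction ha using Algebra.adjoin_induction generalizing f with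
    | mem x hx =>
      rcases hx with ⟨i, rfl⟩ | ⟨b, hb, rfl⟩
      · rintro (_ | m) n
        · simp [mul_assoc]
        · simp only [mul_assoc, coeff_X_mul, coeff_C_mul]
          exact hP.1 i m n _ (hf m n)
      · rintro m (_ | n)
        · simp [mul_assoc]
        · simp only [mul_assoc, coeff_X_mul, coeff_C_mul]
          exact hP.2 m n (Submodule.mul_mem_mul (Submodule.subset_span hb) (hf m n))
    | algebraMap r =>
      intro m n
      rw [← Algebra.smul_def, coeff_smul, coeff_smul]
      exact Submodule.smul_mem _ _ (hf m n)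
    | add x y _ _ hx hy =>
      intro m n
      rw [add_mul, coeff_add, coeff_add]
      exact add_mem (hx hf m n) (hy hf m n)
    | mul x y _ _ hx hy =>
      rw [mul_assoc]
      exact hx (hy hf)

theorem gind_mono_mem {w : Set K} {P : ℕ → ℕ → Submodule R K}
    (hP : Closed s (Submodule.span R w) P) (m n : ℕ) (x : K) :
    monomial m (monomial n x) ∈ gindTot hP ↔ x ∈ P m n := by
  refine ⟨fun h => by simpa using h m n, fun h m' n' => ?_⟩
  rw [coeff_monomial]
  split_ifs with h1
  · rw [coeff_monomial]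
    split_ifs with h2
    · exact h1 ▸ h2 ▸ h
    · exact zero_mem _
  · simp

theorem gind_mono_span {w e : Set K} (m n : ℕ) {x : K}
    (hx : x ∈ gen s (Submodule.span R w) (Submodule.span R e) m n) :
    monomial m (monomial n x) ∈ Submodule.span (gindAlg R s w) ((fun a => C (C a)) '' e) := by
  let M := Submodule.span (gindAlg R s w) ((fun a : K => (C (C a) : K[X][X])) '' e)
  let P : ℕ → ℕ → Submodule R K := fun m n => (M.restrictScalars R).comap
    (((monomial m : K[X] →ₗ[K[X]] K[X][X]).restrictScalars R).comp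
      ((monomial n : K →ₗ[K] K[X]).restrictScalars R))
  have hP : ∀ m n x, x ∈ P m n ↔ monomial m (monomial n x) ∈ M := fun _ _ _ => Iff.rfl
  refine (hP m n x).1 (gen_le (P := P) ⟨fun i m n v hv => ?_, fun m n => ?_⟩ ?_ m n hx)
  · have := M.smul_mem ⟨X * C (C (s i)), Algebra.subset_adjoin (Or.inl ⟨i, rfl⟩)⟩ ((hP _ _ _).1 hv)
    rw [hP]
    convert this using 1
    change _ = X * C (C (s i)) * monomial m (monomial n v)
    rw [mul_assoc, C_mul_monomial, C_mul_monomial, X_mul_monomial]
  · refine gind_span_mul_le fun a ha v hv => ?_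
    have := M.smul_mem ⟨C (X * C a), Algebra.subset_adjoin (Or.inr ⟨a, ha, rfl⟩)⟩ ((hP _ _ _).1 hv)
    rw [hP]
    convert this using 1
    change _ = C (X * C a) * monomial m (monomial n v)
    rw [C_mul_monomial, mul_assoc, C_mul_monomial, X_mul_monomial]
  · exact Submodule.span_le.2 fun a ha => (hP _ _ _).2 (Submodule.subset_span ⟨a, ha, rfl⟩)

end Tot

theorem gind_tot_lt {w e : Set K} {P Q : ℕ → ℕ → Submodule R K}
    (hP : Closed s (Submodule.span R w) P) (hQ : Closed s (Submodule.span R w) Q)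
    (hle : P ≤ gen s (Submodule.span R w) (Submodule.span R e)) (h : Q < P) :
    (gindTot hQ).comap (Submodule.span (gindAlg R s w)
      ((fun a : K => (Polynomial.C (Polynomial.C a) : Polynomial (Polynomial K))) '' e)).subtype <
    (gindTot hP).comap (Submodule.span (gindAlg R s w)
      ((fun a : K => (Polynomial.C (Polynomial.C a) : Polynomial (Polynomial K))) '' e)).subtype := by
  have h1 : gindTot hQ ≤ gindTot hP := fun f hf m n => h.le m n (hf m n)
  refine lt_of_le_not_ge (Submodule.comap_mono h1) fun h' => ?_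
  refine h.not_ge fun m n x hx => (gind_mono_mem hQ m n x).1 ?_
  have h2 := @h' ⟨_, gind_mono_span m n (hle m n hx)⟩
  rw [Submodule.mem_comap, Submodule.mem_comap] at h2
  exact h2 ((gind_mono_mem hP m n x).2 hx)

theorem wf_closed [Finite ι] [IsNoetherianRing R] (hW : W.FG) (hE : E.FG) :
    WellFounded fun P Q : {P : ℕ → ℕ → Submodule R K // Closed s W P ∧ P ≤ gen s W E} =>
      Q.1 < P.1 := by
  obtain ⟨w, hw, rfl⟩ := Submodule.fg_def.1 hW
  obtain ⟨e, he, rfl⟩ := Submodule.fg_def.1 hE
  have h1 : IsNoetherianRing (gindAlg R s w) := isNoetherianRing_of_fg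
    (Subalgebra.fg_def.2 ⟨_, (Set.finite_range _).union (hw.image _), rfl⟩)
  have h2 := isNoetherian_span_of_finite (gindAlg R s w)
    (he.image fun a : K => (Polynomial.C (Polynomial.C a) : Polynomial (Polynomial K)))
  have h3 := InvImage.wf (fun P : {P : ℕ → ℕ → Submodule R K // Closed s (Submodule.span R w) P ∧
    P ≤ gen s (Submodule.span R w) (Submodule.span R e)} => (gindTot P.2.1).comap
      (Submodule.span (gindAlg R s w) ((fun a : K => (Polynomial.C (Polynomial.C a) :
        Polynomial (Polynomial K))) '' e)).subtype) (isNoetherian_iff.1 h2)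
  exact Subrelation.wf (fun {P Q} h => gind_tot_lt P.2.1 Q.2.1 P.2.2 h) h3

theorem gind_le_addS (a : K) (N P : ℕ → ℕ → Submodule R K) : P ≤ addS a N P
  | 0, _ => le_rfl
  | _ + 1, _ => le_sup_left

theorem gind_closed_addS (a : K) {N P : ℕ → ℕ → Submodule R K} (hN : Closed s W N)
    (hP : Closed s W P) : Closed s W (addS a N P) := by
  refine ⟨?_, ?_⟩
  · rintro i (_ | m) n v hv
    · exact gind_le_addS a N P 1 n (hP.1 i 0 n v hv)
    · obtain ⟨p, hp, _, ⟨x, hx, rfl⟩, rfl⟩ := Submodule.mem_sup.1 hv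
      refine Submodule.mem_sup.2 ⟨_, hP.1 i _ n p hp, _, ⟨_, hN.1 i m n x hx, rfl⟩, ?_⟩
      simp only [LinearMap.mulLeft_apply]
      ring
  · rintro (_ | m) n
    · exact hP.2 0 n
    · refine Submodule.mul_le.2 fun w hw v hv => ?_
      obtain ⟨p, hp, _, ⟨x, hx, rfl⟩, rfl⟩ := Submodule.mem_sup.1 hv
      refine Submodule.mem_sup.2 ⟨_, hP.2 _ n (Submodule.mul_mem_mul hw hp), _,
        ⟨_, hN.2 m n (Submodule.mul_mem_mul hw hx), rfl⟩, ?_⟩
      simp only [LinearMap.mulLeft_apply]
      ring

theorem gind_closed_colS (a : K) {N P : ℕ → ℕ → Submodule R K} (hN : Closed s W N)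
    (hP : Closed s W P) : Closed s W (colS a N P) := by
  refine ⟨fun i m n v hv => ⟨hN.1 i m n v hv.1, ?_⟩,
    fun m n => Submodule.mul_le.2 fun w hw v hv => ⟨hN.2 m n (Submodule.mul_mem_mul hw hv.1), ?_⟩⟩
  · change a * (s i * v) ∈ P (m + 1 + 1) n
    rw [mul_left_comm]
    exact hP.1 i _ n _ hv.2
  · change a * (w * v) ∈ P (m + 1) (n + 1)
    rw [mul_left_comm]
    exact hP.2 _ n (Submodule.mul_mem_mul hw hv.2)

theorem gind [Finite ι] [IsNoetherianRing R] (hW : W.FG) (hE : E.FG)
    (Q : (ℕ → ℕ → Submodule R K) → Prop)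
    (base : ∀ P, Closed s W P → P ≤ gen s W E →
      (∃ m₀, ∀ m, m₀ ≤ m → ∀ n, P m n = gen s W E m n) → Q P)
    (step₁ : ∀ i P, Closed s W P → P ≤ gen s W E → Q (addS (s i) (gen s W E) P) →
      Q (colS (s i) (gen s W E) P) → Q P)
    (step₂ : ∀ i P, Closed s W P → P ≤ gen s W E → colS (s i) (gen s W E) P = P →
      Q (addS (s i) (gen s W E) P) → Q P)
    (P : ℕ → ℕ → Submodule R K) (hP : Closed s W P) (hle : P ≤ gen s W E) : Q P := by
  classical
  have := Fintype.ofFinite ι
  have key : ∀ J : Finset ι, ∀ P : {P : ℕ → ℕ → Submodule R K // Closed s W P ∧ P ≤ gen s W E},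
      (∀ i ∉ J, ∀ m n, ∀ v ∈ gen s W E m n, s i * v ∈ P.1 (m + 1) n) → Q P.1 := by
    intro J
    induction J using Finset.induction_on with
    | empty =>
      refine fun P h => base _ P.2.1 P.2.2 ⟨1, fun m hm n => le_antisymm (P.2.2 m n) ?_⟩
      obtain ⟨m, rfl⟩ := Nat.exists_eq_add_of_le' hm
      rw [gen_succ]
      exact iSup_le fun i => Submodule.map_le_iff_le_comap.2 fun v hv =>
        h i (Finset.notMem_empty i) m n v hv
    | insert i J _ ih =>
      intro P
      induction P using (wf_closed (s := s) hW hE).induction with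
      | _ P ihP =>
      intro h
      have h1 : Q (addS (s i) (gen s W E) P.1) := by
        refine ih ⟨_, gind_closed_addS _ closed_gen P.2.1, ?_⟩ fun j hj m n v hv => ?_
        · rintro (_ | m) n
          · exact P.2.2 0 n
          · exact sup_le (P.2.2 _ n) (Submodule.map_le_iff_le_comap.2 fun v hv =>
              closed_gen.1 i m n v hv)
        · by_cases hji : j = i
          · subst hji
            exact Submodule.mem_sup_right (Submodule.mem_map_of_mem hv)
          · exact Submodule.mem_sup_left (h j (by simp [hj, hji]) m n v hv)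
      have h2 : P.1 ≤ colS (s i) (gen s W E) P.1 := fun m n v hv =>
        ⟨P.2.2 m n hv, P.2.1.1 i m n v hv⟩
      rcases h2.eq_or_lt with h3 | h3
      · exact step₂ i _ P.2.1 P.2.2 h3.symm h1
      · exact step₁ i _ P.2.1 P.2.2 h1 (ihP ⟨_, gind_closed_colS _ closed_gen P.2.1,
          fun m n => inf_le_left⟩ h3 fun j hj m n v hv => h2 _ n (h j hj m n v hv))
  exact key Finset.univ ⟨P, hP, hle⟩ fun i hi => absurd (Finset.mem_univ i) hi

theorem gind_pow_le {g : ℕ} (t : Fin (g + 1) → K) (m : ℕ) : Submodule.span R (Set.range t) ^ m ≤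
    Submodule.span R {x | ∃ d : Fin (g + 1) → ℕ, ∑ i, d i = m ∧ ∏ i, t i ^ d i = x} := by
  induction m with
  | zero => exact Submodule.one_le.2 (Submodule.subset_span ⟨0, by simp, by simp⟩)
  | succ m ih =>
    rw [pow_succ']
    refine (mul_le_mul_right ih _).trans ?_
    rw [Submodule.span_mul_span]
    refine Submodule.span_mono ?_
    rintro _ ⟨_, ⟨i, rfl⟩, _, ⟨d, hd, rfl⟩, rfl⟩
    refine ⟨d + Pi.single i 1, by simp [Finset.sum_add_distrib, hd], ?_⟩
    simp only [Pi.add_apply, pow_add, Finset.prod_mul_distrib, mul_comm (t i)]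
    congr 1
    rw [Finset.prod_eq_single i (fun j _ hj => by simp [hj]) (by simp)]
    simp

/-- growth of `S ^ m * E` when `S` has `g + 1` generators -/
theorem finrank_pow_mul_le {k K : Type} [Field k] [CommRing K] [Algebra k K] {g : ℕ}
    (t : Fin (g + 1) → K) (E : Submodule k K) [FiniteDimensional k E] (m : ℕ) :
    Module.finrank k (Submodule.span k (Set.range t) ^ m * E : Submodule k K) ≤
      Module.finrank k E * (m + 1) ^ g := by
  let b := Module.finBasis k E
  let v : Fin (Module.finrank k E) × (Fin g → Fin (m + 1)) → K := fun p =>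
    (t 0 ^ (m - ∑ j, (p.2 j : ℕ)) * ∏ j, t (Fin.succ j) ^ (p.2 j : ℕ)) * b p.1
  have hE : E ≤ Submodule.span k (Set.range fun i => (b i : K)) := by
    intro x hx
    have := congrArg Subtype.val (b.sum_repr ⟨x, hx⟩)
    rw [Submodule.coe_sum] at this
    change _ = x at this
    rw [← this]
    exact Submodule.sum_mem _ fun i _ => Submodule.smul_mem _ _ (Submodule.subset_span ⟨i, rfl⟩)
  have h : Submodule.span k (Set.range t) ^ m * E ≤ Submodule.span k (Set.range v) := by
    refine (mul_le_mul' (gind_pow_le t m) hE).trans ?_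
    rw [Submodule.span_mul_span]
    refine Submodule.span_mono ?_
    rintro _ ⟨_, ⟨d, hd, rfl⟩, _, ⟨i, rfl⟩, rfl⟩
    have h1 : ∀ j, d j < m + 1 := fun j =>
      Nat.lt_succ_of_le (hd ▸ Finset.single_le_sum (fun _ _ => Nat.zero_le _) (Finset.mem_univ j))
    refine ⟨(i, fun j => ⟨d j.succ, h1 _⟩), ?_⟩
    rw [Fin.sum_univ_succ] at hd
    simp only [v, Fin.prod_univ_succ]
    rw [← hd, Nat.add_sub_cancel]
  have := FiniteDimensional.span_of_finite k (Set.finite_range v)
  refine (Submodule.finrank_mono h).trans ((finrank_range_le_card v).trans_eq ?_)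
  simp

end Pool.Agent.Work.MP_e57da2_ag
end

-- merged part: Pool.Agent.Work.MP_e57da2_ag.SValg
section
/-!
# Serre vanishing, algebraic form

Plan.  Apply `gind` to `Q P := ∃ m₀, ∀ m ≥ m₀, ∀ n, ExP (lc s N m n) (lc s P m n)` (`N = gen s W E`), finally `P = ⊥`.
Facts: `lc` is monotone in `S` and in the family; the witness `j` can be increased (closedness), hence chosen uniformly;
`lc (addS a N P) (m+1) = lc P (m+1) + a * lc N m`; `v ∈ lc (colS a N P) m ↔ v ∈ lc N m ∧ a * v ∈ lc P (m+1)`.
`base`: `lc P m = lc N m` for `m ≥ m₀`, take `b = 0`.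
`step₁`: `c - dd b₁ = π + s i • c'`, then `dd c' ∈ lc colS`, `c' - dd b₂ ∈ lc colS`, `b = b₁ + s i • b₂`.
`step₂`: `c = dd (hh i c) + hh i (dd c)`; `s i ^ j • hh i c ∈ lc N (m + j)` and `s i ^ j • hh i (dd c) ∈ lc P (m + j)` for large `j`.
Descend on `j`: if `s i • c' - dd b ∈ lc P (m'+1)` then `dd b ∈ lc addS (m'+1)`, so `b - dd a = π' + s i • b'` and
`s i • (c' - dd b') ∈ lc P (m'+1)`, that is `c' - dd b' ∈ lc colS m' = lc P m'`.
-/

open Finset

namespace Pool.Agent.Work.MP_e57da2_ag

variable {R K : Type} [CommRing R] [Field K] [Algebra R K] {ι : Type}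

/-- the degree `(m, n)` part of the localisation of `P` at `∏ i ∈ S, s i` -/
def lc (s : ι → K) (P : ℕ → ℕ → Submodule R K) (m n : ℕ) (S : Finset ι) : Submodule R K :=
  ⨆ j : ℕ, (P (m + j * S.card) n).comap (LinearMap.mulLeft R ((∏ i ∈ S, s i) ^ j))

theorem SValg_prod {s : ι → K} {W : Submodule R K} {P : ℕ → ℕ → Submodule R K} (hP : Closed s W P)
    {m n : ℕ} (S : Finset ι) {v : K} (hv : v ∈ P m n) : (∏ i ∈ S, s i) * v ∈ P (m + S.card) n := by
  induction S using Finset.cons_induction with
  | empty => simpa using hv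
  | cons i S hi ih =>
    rw [Finset.prod_cons, Finset.card_cons, mul_assoc]
    exact hP.1 i _ n _ ih

theorem SValg_pow {s : ι → K} {W : Submodule R K} {P : ℕ → ℕ → Submodule R K} (hP : Closed s W P)
    {m n : ℕ} (S : Finset ι) (j : ℕ) {v : K} (hv : v ∈ P m n) :
    (∏ i ∈ S, s i) ^ j * v ∈ P (m + j * S.card) n := by
  induction j with
  | zero => simpa using hv
  | succ j ih =>
    rw [pow_succ', mul_assoc, Nat.succ_mul, ← add_assoc]
    exact SValg_prod hP S ih

theorem SValg_up {s : ι → K} {W : Submodule R K} {P : ℕ → ℕ → Submodule R K} (hP : Closed s W P)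
    {m n : ℕ} {S : Finset ι} {v : K} {j k : ℕ} (hjk : j ≤ k)
    (h : (∏ i ∈ S, s i) ^ j * v ∈ P (m + j * S.card) n) :
    (∏ i ∈ S, s i) ^ k * v ∈ P (m + k * S.card) n := by
  obtain ⟨l, rfl⟩ := Nat.exists_eq_add_of_le hjk
  rw [pow_add, mul_comm (_ ^ j), mul_assoc, add_mul, ← add_assoc]
  exact SValg_pow hP S l h

theorem mem_lc {s : ι → K} {W : Submodule R K} {P : ℕ → ℕ → Submodule R K} (hP : Closed s W P)
    {m n : ℕ} {S : Finset ι} {v : K} :
    v ∈ lc s P m n S ↔ ∃ j : ℕ, (∏ i ∈ S, s i) ^ j * v ∈ P (m + j * S.card) n :=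
  Submodule.mem_iSup_of_directed _ (Monotone.directed_le fun _ _ hjk _ h => SValg_up hP hjk h)

theorem lc_empty (s : ι → K) (P : ℕ → ℕ → Submodule R K) (m n : ℕ) : lc s P m n ∅ = P m n := by
  have : ∀ j : ℕ, (P (m + j * (∅ : Finset ι).card) n).comap
      (LinearMap.mulLeft R ((∏ i ∈ (∅ : Finset ι), s i) ^ j)) = P m n := fun j => by
    ext v
    simp
  simp only [lc, this, ciSup_const]

section Aux

variable {s : ι → K} {W : Submodule R K} {N P : ℕ → ℕ → Submodule R K} {m n : ℕ} {S : Finset ι}
  {v : K}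

theorem SValg_mem (j : ℕ) (h : (∏ i ∈ S, s i) ^ j * v ∈ P (m + j * S.card) n) :
    v ∈ lc s P m n S := Submodule.mem_iSup_of_mem j h

theorem SValg_ev (hP : Closed s W P) (h : v ∈ lc s P m n S) :
    ∀ᶠ j in Filter.atTop, (∏ i ∈ S, s i) ^ j * v ∈ P (m + j * S.card) n :=
  let ⟨j, hj⟩ := (mem_lc hP).1 h
  Filter.eventually_atTop.2 ⟨j, fun _ hk => SValg_up hP hk hj⟩

theorem SValg_le (h : P ≤ N) : lc s P m n S ≤ lc s N m n S :=
  iSup_mono fun _ => Submodule.comap_mono (h _ _)

theorem SValg_mono (hP : Closed s W P) : Monotone (lc s P m n) := fun S T hST v hv => by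
  classical
  obtain ⟨j, hj⟩ := (mem_lc hP).1 hv
  refine SValg_mem j ?_
  have := SValg_pow hP (T \ S) j hj
  rwa [← mul_assoc, ← mul_pow, Finset.prod_sdiff hST, add_assoc, ← mul_add, add_comm S.card,
    Finset.card_sdiff_add_card_eq_card hST] at this

theorem SValg_mul (hP : Closed s W P) (i : ι) (h : v ∈ lc s P m n S) :
    s i * v ∈ lc s P (m + 1) n S := by
  obtain ⟨j, hj⟩ := (mem_lc hP).1 h
  refine SValg_mem j ?_
  rw [mul_left_comm, add_right_comm]
  exact hP.1 i _ n _ hj

theorem SValg_add_of (hN : Closed s W N) (a : K) (h : v ∈ lc s N m n S) :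
    a * v ∈ lc s (addS a N P) (m + 1) n S := by
  obtain ⟨j, hj⟩ := (mem_lc hN).1 h
  refine SValg_mem j ?_
  rw [mul_left_comm, add_right_comm]
  exact Submodule.mem_sup_right (Submodule.mem_map_of_mem hj)

theorem SValg_add (hs : ∀ i, s i ≠ 0) (hN : Closed s W N) (hP : Closed s W P) (a : K)
    (h : v ∈ lc s (addS a N P) (m + 1) n S) :
    ∃ p ∈ lc s P (m + 1) n S, ∃ x ∈ lc s N m n S, v = p + a * x := by
  obtain ⟨j, hj⟩ := (mem_lc (gind_closed_addS a hN hP)).1 h
  rw [add_right_comm] at hj
  obtain ⟨p, hp, _, ⟨x, hx, rfl⟩, e⟩ := Submodule.mem_sup.1 hj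
  have h0 : (∏ i ∈ S, s i) ^ j ≠ 0 := pow_ne_zero _ (Finset.prod_ne_zero_iff.2 fun i _ => hs i)
  refine ⟨p / (∏ i ∈ S, s i) ^ j, SValg_mem j ?_, x / (∏ i ∈ S, s i) ^ j, SValg_mem j ?_, ?_⟩
  · rwa [mul_div_cancel₀ _ h0, add_right_comm]
  · rwa [mul_div_cancel₀ _ h0]
  · rw [← mul_div_assoc, ← add_div, eq_div_iff h0, mul_comm v, ← e, LinearMap.mulLeft_apply]

theorem SValg_col (hN : Closed s W N) (hP : Closed s W P) (a : K) :
    v ∈ lc s (colS a N P) m n S ↔ v ∈ lc s N m n S ∧ a * v ∈ lc s P (m + 1) n S := by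
  refine ⟨fun h => ?_, fun h => ?_⟩
  · obtain ⟨j, h1, h2⟩ := (mem_lc (gind_closed_colS a hN hP)).1 h
    refine ⟨SValg_mem j h1, SValg_mem j ?_⟩
    rw [mul_left_comm, add_right_comm]
    exact h2
  · obtain ⟨j, h1, h2⟩ := ((SValg_ev hN h.1).and (SValg_ev hP h.2)).exists
    rw [mul_left_comm, add_right_comm] at h2
    exact SValg_mem j ⟨h1, h2⟩

variable [LinearOrder ι]

theorem SValg_hh [Fintype ι] (hP : Closed s W P) (i : ι) {c : Finset ι → K}
    (hc : Mem (lc s P m n) c) :
    ∀ᶠ j in Filter.atTop, Mem (lc s P (m + j) n) (s i ^ j • hh i c) := by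
  refine Filter.eventually_all.2 fun S => ?_
  filter_upwards [SValg_ev hP (hc (insert i S))] with j hj
  rw [Pi.smul_apply, hh_apply]
  split_ifs with h
  · rw [smul_zero]
    exact zero_mem _
  · rw [smul_comm]
    refine zsmul_mem (SValg_mem j ?_) _
    rwa [Finset.prod_insert h, Finset.card_insert_of_notMem h, mul_pow, mul_comm (s i ^ j),
      mul_assoc, mul_add, mul_one, add_comm _ j, ← add_assoc] at hj

omit [LinearOrder ι] in
theorem SValg_split (hs : ∀ i, s i ≠ 0) (hN : Closed s W N) (hP : Closed s W P) (a : K)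
    {c : Finset ι → K} (h : Mem (lc s (addS a N P) (m + 1) n) c) :
    ∃ p x, Mem (lc s P (m + 1) n) p ∧ Mem (lc s N m n) x ∧ c = p + a • x := by
  choose p hp x hx e using fun S => SValg_add hs hN hP a (h S)
  exact ⟨p, x, hp, hx, funext e⟩

theorem SValg_step₁ (hs : ∀ i, s i ≠ 0) (hN : Closed s W N) (hP : Closed s W P) (i : ι)
    (h1 : ExP (lc s N (m + 1) n) (lc s (addS (s i) N P) (m + 1) n))
    (h2 : ExP (lc s N m n) (lc s (colS (s i) N P) m n)) :
    ExP (lc s N (m + 1) n) (lc s P (m + 1) n) := fun c hc hd => by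
  obtain ⟨b₁, hb₁, k⟩ := h1 c hc fun S => SValg_le (gind_le_addS _ N P) (hd S)
  obtain ⟨p, x, hp, hx, e⟩ := SValg_split hs hN hP _ k
  have e' : s i • dd x = dd c - dd p := by
    have := congrArg dd e
    rw [map_sub, dd_dd, sub_zero, map_add, dd_smul] at this
    rw [this, add_sub_cancel_left]
  obtain ⟨b₂, hb₂, k₂⟩ := h2 x hx fun S => (SValg_col hN hP _).2 ⟨hx.dd (SValg_mono hN) S, by
    have := (hd.sub (hp.dd (SValg_mono hP))) S
    rwa [← e'] at this⟩
  refine ⟨b₁ + s i • b₂, hb₁.add fun S => SValg_mul hN i (hb₂ S), ?_⟩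
  have : c - dd (b₁ + s i • b₂) = p + s i • (x - dd b₂) := by
    rw [map_add, dd_smul, ← sub_sub, e, smul_sub, add_sub_assoc]
  rw [this]
  exact hp.add fun S => ((SValg_col hN hP _).1 (k₂ S)).2

theorem SValg_desc (hs : ∀ i, s i ≠ 0) (hN : Closed s W N) (hP : Closed s W P) (i : ι)
    (h0 : colS (s i) N P = P) (h1 : ExP (lc s N (m + 1) n) (lc s (addS (s i) N P) (m + 1) n))
    {c b : Finset ι → K} (hc : Mem (lc s N m n) c) (hb : Mem (lc s N (m + 1) n) b)
    (h : Mem (lc s P (m + 1) n) (s i • c - dd b)) :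
    ∃ b', Mem (lc s N m n) b' ∧ Mem (lc s P m n) (c - dd b') := by
  obtain ⟨a, -, k⟩ := h1 b hb (by
    rw [← sub_sub_cancel (s i • c) (dd b)]
    exact Mem.sub (fun S => SValg_add_of hN _ (hc S))
      fun S => SValg_le (gind_le_addS _ N P) (h S))
  obtain ⟨p, x, hp, hx, e⟩ := SValg_split hs hN hP _ k
  have e' : s i • (c - dd x) = s i • c - dd b + dd p := by
    have := congrArg dd e
    rw [map_sub, dd_dd, sub_zero, map_add, dd_smul] at this
    rw [this, smul_sub]
    abel
  refine ⟨x, hx, fun S => ?_⟩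
  rw [← h0]
  refine (SValg_col hN hP _).2 ⟨hc.sub (hx.dd (SValg_mono hN)) S, ?_⟩
  have := (h.add (hp.dd (SValg_mono hP))) S
  rwa [← e'] at this

theorem SValg_step₂ [Fintype ι] (hs : ∀ i, s i ≠ 0) (hN : Closed s W N) (hP : Closed s W P) (i : ι)
    (h0 : colS (s i) N P = P)
    (h1 : ∀ k, m ≤ k → ExP (lc s N k n) (lc s (addS (s i) N P) k n)) :
    ExP (lc s N m n) (lc s P m n) := fun c hc hd => by
  have hj : ∀ j : ℕ, Mem (lc s N (m + j) n) (s i ^ j • c) := fun j => by
    induction j with
    | zero => simpa using hc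
    | succ j ih =>
      rw [pow_succ', mul_smul]
      exact fun S => SValg_mul hN i (ih S)
  have key : ∀ j : ℕ, (∃ b, Mem (lc s N (m + j) n) b ∧ Mem (lc s P (m + j) n) (s i ^ j • c - dd b)) →
      ∃ b, Mem (lc s N m n) b ∧ Mem (lc s P m n) (c - dd b) := fun j => by
    induction j with
    | zero => simp
    | succ j ih =>
      rintro ⟨b, k1, k2⟩
      rw [pow_succ', mul_smul] at k2
      exact ih (SValg_desc hs hN hP i h0 (h1 _ (by omega)) (hj j) k1 k2)
  obtain ⟨j, k1, k2⟩ := ((SValg_hh hN i hc).and (SValg_hh hP i hd)).exists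
  refine key j ⟨_, k1, ?_⟩
  rwa [dd_smul, ← smul_sub, sub_eq_of_eq_add' (dd_hh i c).symm]

end Aux

theorem serre_alg [LinearOrder ι] [Fintype ι] [IsNoetherianRing R] {s : ι → K} (hs : ∀ i, s i ≠ 0)
    {W E : Submodule R K} (hW : W.FG) (hE : E.FG) :
    ∃ m₀, ∀ m, m₀ ≤ m → ∀ n, Ex (lc s (gen s W E) m n) := by
  have hb : Closed s W (fun _ _ => (⊥ : Submodule R K)) :=
    ⟨fun i _ _ v hv => by simp [(Submodule.mem_bot R).1 hv], fun _ _ => by simp⟩
  obtain ⟨m₀, h⟩ := gind hW hE
    (fun P => ∃ m₀, ∀ m, m₀ ≤ m → ∀ n, ExP (lc s (gen s W E) m n) (lc s P m n))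
    (fun P _ _ ⟨m₀, h⟩ => ⟨m₀, fun m hm n c hc _ => ⟨0, fun _ => zero_mem _, fun S => by
      have : lc s P m n S = lc s (gen s W E) m n S :=
        iSup_congr fun j => by rw [h _ (by omega)]
      simpa [this] using hc S⟩⟩)
    (fun i P hP _ ⟨m₁, h1⟩ ⟨m₂, h2⟩ => ⟨m₁ + m₂ + 1, fun m hm n => by
      obtain ⟨m, rfl⟩ := Nat.exists_eq_add_of_le' (by omega : 1 ≤ m)
      exact SValg_step₁ hs closed_gen hP i (h1 _ (by omega) n) (h2 _ (by omega) n)⟩)
    (fun i P hP _ h0 ⟨m₁, h1⟩ => ⟨m₁, fun m hm n =>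
      SValg_step₂ hs closed_gen hP i h0 fun k hk => h1 k (hm.trans hk) n⟩)
    _ hb fun _ _ => bot_le
  refine ⟨m₀, fun m hm n => exP_bot.1 ?_⟩
  have : lc s (fun _ _ => (⊥ : Submodule R K)) m n = fun _ => ⊥ := funext fun S =>
    eq_bot_iff.2 fun v hv => by
      obtain ⟨j, hj⟩ := (mem_lc hb).1 hv
      exact (mul_eq_zero.1 ((Submodule.mem_bot R).1 hj)).resolve_left
        (pow_ne_zero _ (Finset.prod_ne_zero_iff.2 fun i _ => hs i))
  exact this ▸ h m hm n

end Pool.Agent.Work.MP_e57da2_ag
end
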