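import Pool.Agent.Work.MP_e57da2_ag.Alg
import Pool.Agent.Work.MP_e57da2_ag.SValg

-- merged part: Pool.Agent.Work.MP_e57da2_ag.SV
section
-- merged part: Pool.Agent.Work.MP_e57da2_ag.Dv
section
/-!
# Cartier divisors, their sections and classes

A divisor is a function `f : X → Fn X` which is locally constant up to units; `h` is a section near `x` if `h * f x ∈ O X x`.
All proofs are elementary manipulations with the lemmas of `Fn.lean`, `Aff.lean` and `Pb.lean`.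
`ext_sec`: for `x ∈ W` take an affine `U ∋ x`, `U ≤ W`, on which `D.f y / D.f x` and `M.f y / M.f x` are units, apply `aff_ext` to
`f = s * D.f x` and `c * M.f x`; finitely many such `U` cover `W` (noetherian space).
`aff_gen`: take a basic open neighbourhood `U ⊓ ul g` of `x` on which `D.f y / D.f x` is a unit; `(D.f x)⁻¹ ∈ Γ D (U ⊓ ul g)`, apply `ext_sec` with the zero divisor.
`aff_dual`: `aff_partition` for `T = {w * β | w ∈ T', β ∈ Γ (-D) U}`.
-/

open CategoryTheory Limits AlgebraicGeometry TopologicalSpace IsLocalRing MonoidalCategory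
  CartesianMonoidalCategory

namespace Pool.Agent.Work.MP_e57da2_ag

variable {k : Type} [Field k]

/-- Cartier divisors -/
@[ext]
structure Dv (X : Sch k) [IsIntegral X.left] where
  f : X.left → Fn X
  ne : ∀ x, f x ≠ 0
  loc : ∀ x, ∃ U : X.left.Opens, x ∈ U ∧ ∀ y ∈ U, IsU X y (f y / f x)

variable {X Y Z : Sch k} [IsIntegral X.left] [IsIntegral Y.left] [IsIntegral Z.left]

/-- the principal divisor data of a nonzero function -/
def Dv.const (u : Fn X) (hu : u ≠ 0) : Dv X :=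
  ⟨fun _ => u, fun _ => hu, fun _ => ⟨⊤, trivial, fun _ _ => by
    rw [div_self hu]
    exact isU_one⟩⟩

noncomputable instance : Zero (Dv X) := ⟨Dv.const 1 one_ne_zero⟩

noncomputable instance : Add (Dv X) := ⟨fun D E => ⟨fun x => D.f x * E.f x,
  fun x => mul_ne_zero (D.ne x) (E.ne x), fun x => by
    obtain ⟨U, hU, h⟩ := D.loc x
    obtain ⟨V, hV, h'⟩ := E.loc x
    refine ⟨U ⊓ V, ⟨hU, hV⟩, fun y hy => ?_⟩
    rw [mul_div_mul_comm]
    exact (h y hy.1).mul (h' y hy.2)⟩⟩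

noncomputable instance : Neg (Dv X) := ⟨fun D => ⟨fun x => (D.f x)⁻¹,
  fun x => inv_ne_zero (D.ne x), fun x => by
    obtain ⟨U, hU, h⟩ := D.loc x
    refine ⟨U, hU, fun y hy => ?_⟩
    rw [inv_div_inv, ← inv_div]
    exact (h y hy).inv⟩⟩

noncomputable instance : SMul ℕ (Dv X) := ⟨fun n D => ⟨fun x => D.f x ^ n,
  fun x => pow_ne_zero _ (D.ne x), fun x => by
    obtain ⟨U, hU, h⟩ := D.loc x
    refine ⟨U, hU, fun y hy => ?_⟩
    rw [← div_pow]
    exact (h y hy).pow n⟩⟩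

noncomputable instance : SMul ℤ (Dv X) := ⟨fun n D => ⟨fun x => D.f x ^ n,
  fun x => zpow_ne_zero _ (D.ne x), fun x => by
    obtain ⟨U, hU, h⟩ := D.loc x
    refine ⟨U, hU, fun y hy => ?_⟩
    rw [← div_zpow]
    exact (h y hy).zpow n⟩⟩

noncomputable instance : AddCommGroup (Dv X) where
  add_assoc a b c := Dv.ext (funext fun _ => mul_assoc _ _ _)
  zero_add a := Dv.ext (funext fun _ => one_mul _)
  add_zero a := Dv.ext (funext fun _ => mul_one _)
  add_comm a b := Dv.ext (funext fun _ => mul_comm _ _)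
  neg_add_cancel a := Dv.ext (funext fun x => inv_mul_cancel₀ (a.ne x))
  nsmul := (· • ·)
  nsmul_zero a := Dv.ext (funext fun _ => pow_zero _)
  nsmul_succ n a := Dv.ext (funext fun _ => pow_succ _ _)
  zsmul := (· • ·)
  zsmul_zero' a := Dv.ext (funext fun _ => zpow_zero _)
  zsmul_succ' n a := Dv.ext (funext fun x => by
    change a.f x ^ ((n.succ : ℕ) : ℤ) = a.f x ^ (n : ℤ) * a.f x
    rw [zpow_natCast, zpow_natCast, pow_succ])
  zsmul_neg' n a := Dv.ext (funext fun x => by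
    change a.f x ^ (Int.negSucc n) = (a.f x ^ ((n.succ : ℕ) : ℤ))⁻¹
    rw [zpow_negSucc, zpow_natCast])

variable {D E M : Dv X} {x y : X.left} {U V W : X.left.Opens} {h s c : Fn X}

@[simp] theorem f_zero (x : X.left) : (0 : Dv X).f x = 1 := rfl
@[simp] theorem f_add (D E : Dv X) (x : X.left) : (D + E).f x = D.f x * E.f x := rfl
@[simp] theorem f_neg (D : Dv X) (x : X.left) : (-D).f x = (D.f x)⁻¹ := rfl
@[simp] theorem f_sub (D E : Dv X) (x : X.left) : (D - E).f x = D.f x / E.f x := by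
  rw [sub_eq_add_neg, f_add, f_neg, div_eq_mul_inv]
@[simp] theorem f_nsmul (n : ℕ) (D : Dv X) (x : X.left) : (n • D).f x = D.f x ^ n := rfl
@[simp] theorem f_zsmul (n : ℤ) (D : Dv X) (x : X.left) : (n • D).f x = D.f x ^ n := rfl
@[simp] theorem f_const (u : Fn X) (hu : u ≠ 0) (x : X.left) : (Dv.const u hu).f x = u := rfl

theorem f_sum {ι : Type} (S : Finset ι) (D : ι → Dv X) (x : X.left) :
    (∑ i ∈ S, D i).f x = ∏ i ∈ S, (D i).f x := by
  induction S using Finset.cons_induction with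
  | empty => rfl
  | cons i S hi ih => rw [Finset.sum_cons, Finset.prod_cons, f_add, ih]

theorem Dv.isU_of_spec (D : Dv X) (hxy : x ⤳ y) : IsU X x (D.f x / D.f y) := by
  obtain ⟨U, hU, h⟩ := D.loc y
  exact h x (hxy.mem_open U.isOpen hU)

/-- sections over `U` of a family of stalks -/
noncomputable def secs (F : X.left → Submodule k (Fn X)) (U : X.left.Opens) : Submodule k (Fn X) :=
  ⨅ x ∈ U, F x

/-- the twist of a family of stalks by a divisor -/
noncomputable def tw (F : X.left → Submodule k (Fn X)) (D : Dv X) (x : X.left) : Submodule k (Fn X) :=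
  (F x).comap (LinearMap.mulRight k (D.f x))

/-- the stalks of the line bundle of `D` -/
noncomputable def st (D : Dv X) : X.left → Submodule k (Fn X) :=
  tw (fun x => Subalgebra.toSubmodule (O X x)) D

/-- sections of the line bundle of `D` -/
noncomputable def Gm (D : Dv X) (U : X.left.Opens) : Submodule k (Fn X) := secs (st D) U

/-- the dimension of the space of global sections -/
noncomputable def h0 (D : Dv X) : ℕ := Module.finrank k (Gm D ⊤)

/-- the open set where `h` generates the line bundle of `D` -/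
def loc (D : Dv X) (h : Fn X) : X.left.Opens :=
  ⟨{x | IsU X x (h * D.f x)}, by
    rw [isOpen_iff_forall_mem_open]
    intro x hx
    obtain ⟨U, hU, hD⟩ := D.loc x
    refine ⟨(U ⊓ ul (h * D.f x) : X.left.Opens), fun y hy => ?_, (U ⊓ ul (h * D.f x)).isOpen, hU, hx⟩
    have := IsU.mul (mem_ul.1 hy.2) (hD y hy.1)
    rwa [mul_assoc, mul_div_cancel₀ _ (D.ne x)] at this⟩

theorem mem_secs {F : X.left → Submodule k (Fn X)} : h ∈ secs F U ↔ ∀ x ∈ U, h ∈ F x := by
  simp only [secs, Submodule.mem_iInf]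

theorem secs_anti {F : X.left → Submodule k (Fn X)} (hUV : U ≤ V) : secs F V ≤ secs F U :=
  fun _ hh => mem_secs.2 fun x hx => mem_secs.1 hh x (hUV hx)

theorem mem_tw {F : X.left → Submodule k (Fn X)} : h ∈ tw F D x ↔ h * D.f x ∈ F x := Iff.rfl

theorem tw_tw (F : X.left → Submodule k (Fn X)) (D E : Dv X) : tw (tw F D) E = tw F (D + E) := by
  funext x
  ext h
  rw [mem_tw, mem_tw, mem_tw, f_add, mul_assoc, mul_comm (E.f x)]

theorem tw_zero (F : X.left → Submodule k (Fn X)) : tw F 0 = F := by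
  funext x
  ext h
  rw [mem_tw, f_zero, mul_one]

theorem mem_st : h ∈ st D x ↔ h * D.f x ∈ O X x := Iff.rfl

theorem tw_st (D E : Dv X) : tw (st D) E = st (D + E) := tw_tw _ _ _

theorem mem_Gm : h ∈ Gm D U ↔ ∀ x ∈ U, h * D.f x ∈ O X x := mem_secs

theorem mem_Gm_zero : h ∈ Gm (0 : Dv X) U ↔ h ∈ B X U := by
  simp only [mem_Gm, mem_B, f_zero, mul_one]

theorem Gm_anti (hUV : U ≤ V) : Gm D V ≤ Gm D U := secs_anti hUV

theorem mul_mem_Gm (hs : s ∈ Gm D U) (hc : c ∈ Gm E U) : s * c ∈ Gm (D + E) U :=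
  mem_Gm.2 fun x hx => by
    rw [f_add, mul_mul_mul_comm]
    exact mul_mem (mem_Gm.1 hs x hx) (mem_Gm.1 hc x hx)

theorem B_mul_mem_Gm (hs : s ∈ B X U) (hc : c ∈ Gm E U) : s * c ∈ Gm E U :=
  mem_Gm.2 fun x hx => by
    rw [mul_assoc]
    exact mul_mem (mem_B.1 hs x hx) (mem_Gm.1 hc x hx)

theorem pow_mem_Gm (hs : s ∈ Gm D U) (n : ℕ) : s ^ n ∈ Gm (n • D) U :=
  mem_Gm.2 fun x hx => by
    rw [f_nsmul, ← mul_pow]
    exact pow_mem (mem_Gm.1 hs x hx) n

theorem prod_mem_Gm {ι : Type} (S : Finset ι) {D : ι → Dv X} {s : ι → Fn X}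
    (hs : ∀ i ∈ S, s i ∈ Gm (D i) U) : ∏ i ∈ S, s i ∈ Gm (∑ i ∈ S, D i) U :=
  mem_Gm.2 fun x hx => by
    rw [f_sum, ← Finset.prod_mul_distrib]
    exact prod_mem fun i hi => mem_Gm.1 (hs i hi) x hx

theorem mem_loc : x ∈ loc D h ↔ IsU X x (h * D.f x) := Iff.rfl

omit [IsIntegral X.left] in
theorem Dv_ext (h : ∀ x, x ∈ U ↔ x ∈ V) : U = V := SetLike.ext h

theorem Dv_isU_mul {a b : Fn X} (ha : IsU X x a) : IsU X x (a * b) ↔ IsU X x b := by
  refine ⟨fun h => ?_, ha.mul⟩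
  have := ha.inv.mul h
  rwa [inv_mul_cancel_left₀ ha.ne_zero] at this

theorem loc_zero (h : Fn X) : loc (0 : Dv X) h = ul h :=
  Dv_ext fun x => by rw [mem_loc, f_zero, mul_one, mem_ul]

theorem gp_mem_loc : gp X ∈ loc D h ↔ h ≠ 0 := by
  rw [mem_loc, isU_gp, mul_ne_zero_iff]
  exact and_iff_left (D.ne _)

theorem mem_Gm_loc (D : Dv X) (h : Fn X) : h ∈ Gm D (loc D h) :=
  mem_Gm.2 fun _ hx => (mem_loc.1 hx).1

theorem inv_mem_Gm_loc (D : Dv X) (h : Fn X) : h⁻¹ ∈ Gm (-D) (loc D h) :=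
  mem_Gm.2 fun x hx => by
    rw [f_neg, ← mul_inv]
    exact (mem_loc.1 hx).inv.1

/-- on the locus of `s`, multiplication by `s` is a bijection -/
theorem mul_mem_Gm_iff (hU : U ≤ loc D s) : s * c ∈ Gm (E + D) U ↔ c ∈ Gm E U := by
  rw [mem_Gm, mem_Gm]
  refine forall₂_congr fun x hx => ?_
  rw [f_add, mul_comm (E.f x), mul_mul_mul_comm]
  exact (mem_loc.1 (hU hx)).mul_mem_O_iff

theorem loc_mul (hs : s ∈ Gm D U) (hc : c ∈ Gm E U) :
    U ⊓ loc (D + E) (s * c) = U ⊓ loc D s ⊓ loc E c := by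
  refine Dv_ext fun x => ?_
  rw [Opens.mem_inf, Opens.mem_inf, Opens.mem_inf, mem_loc, mem_loc, mem_loc, f_add,
    mul_mul_mul_comm]
  constructor
  · rintro ⟨hx, h⟩
    have := IsU.of_mul (mem_Gm.1 hs x hx) (mem_Gm.1 hc x hx) h
    exact ⟨⟨hx, this.1⟩, this.2⟩
  · rintro ⟨⟨hx, h⟩, h'⟩
    exact ⟨hx, h.mul h'⟩

theorem loc_mul_top (hs : s ∈ Gm D ⊤) (hc : c ∈ Gm E ⊤) :
    loc (D + E) (s * c) = loc D s ⊓ loc E c := by
  simpa only [top_inf_eq] using loc_mul hs hc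

theorem loc_pow (hs : s ∈ Gm D ⊤) {n : ℕ} (hn : 0 < n) : loc (n • D) (s ^ n) = loc D s := by
  refine Dv_ext fun x => ?_
  rw [mem_loc, mem_loc, f_nsmul, ← mul_pow]
  refine ⟨fun h => ?_, fun h => h.pow n⟩
  obtain ⟨m, rfl⟩ : ∃ m, n = m + 1 := ⟨n - 1, by omega⟩
  have hx := mem_Gm.1 hs x trivial
  rw [pow_succ] at h
  exact (IsU.of_mul (pow_mem hx m) hx h).2

theorem loc_prod {ι : Type} (S : Finset ι) {D : ι → Dv X} {s : ι → Fn X}
    (hs : ∀ i ∈ S, s i ∈ Gm (D i) ⊤) :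
    loc (∑ i ∈ S, D i) (∏ i ∈ S, s i) = S.inf fun i => loc (D i) (s i) := by
  induction S using Finset.cons_induction with
  | empty =>
    rw [Finset.sum_empty, Finset.prod_empty, Finset.inf_empty, loc_zero]
    exact eq_top_iff.2 fun x _ => mem_ul.2 isU_one
  | cons i S hi ih =>
    have h' : ∀ j ∈ S, s j ∈ Gm (D j) ⊤ := fun j hj => hs j (Finset.mem_cons_of_mem hj)
    rw [Finset.sum_cons, Finset.prod_cons, Finset.inf_cons,
      loc_mul_top (hs i (Finset.mem_cons_self _ _)) (prod_mem_Gm S h'), ih h']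

/-- the quotient of two sections of the same divisor -/
theorem ul_div (hs : s ∈ Gm D U) (hU : U ≤ loc D c) : s / c ∈ B X U ∧ U ⊓ ul (s / c) = U ⊓ loc D s := by
  have e : ∀ x, s / c = (c * D.f x)⁻¹ * (s * D.f x) := fun x => by
    rw [← mul_div_mul_right s c (D.ne x), div_eq_inv_mul]
  refine ⟨mem_B.2 fun x hx => ?_, Dv_ext fun x => ?_⟩
  · rw [e x]
    exact mul_mem (mem_loc.1 (hU hx)).inv.1 (mem_Gm.1 hs x hx)
  · rw [Opens.mem_inf, Opens.mem_inf]
    refine and_congr_right fun hx => ?_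
    rw [mem_ul, mem_loc, e x, Dv_isU_mul (mem_loc.1 (hU hx)).inv]

variable (X) in
/-- divisors with a global generator -/
def trivSub : AddSubgroup (Dv X) where
  carrier := {D | ∃ u, ∀ x, IsU X x (u * D.f x)}
  zero_mem' := ⟨1, fun _ => by simpa using isU_one⟩
  add_mem' := by
    rintro D E ⟨u, hu⟩ ⟨v, hv⟩
    exact ⟨u * v, fun x => by simpa [mul_mul_mul_comm] using (hu x).mul (hv x)⟩
  neg_mem' := by
    rintro D ⟨u, hu⟩
    exact ⟨u⁻¹, fun x => by simpa [mul_comm] using (hu x).inv⟩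

variable (X) in
/-- the Picard group -/
def Pic : Type := Dv X ⧸ trivSub X

noncomputable instance : AddCommGroup (Pic X) := inferInstanceAs (AddCommGroup (Dv X ⧸ trivSub X))

/-- the class of a divisor -/
noncomputable def cl : Dv X →+ Pic X := QuotientAddGroup.mk' (trivSub X)

theorem cl_surjective : Function.Surjective (cl : Dv X → Pic X) := QuotientAddGroup.mk'_surjective _

theorem cl_eq_zero : cl D = 0 ↔ ∃ u, ∀ x, IsU X x (u * D.f x) := QuotientAddGroup.eq_zero_iff D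

theorem cl_eq_iff : cl D = cl E ↔ ∃ u, ∀ x, IsU X x (u * E.f x / D.f x) := by
  rw [eq_comm, ← sub_eq_zero, ← map_sub, cl_eq_zero]
  simp only [f_sub, mul_div_assoc]

theorem cl_const (u : Fn X) (hu : u ≠ 0) : cl (Dv.const u hu) = 0 :=
  cl_eq_zero.2 ⟨u⁻¹, fun x => by
    rw [f_const, inv_mul_cancel₀ hu]
    exact isU_one⟩

/-- linearly equivalent divisors differ by multiplication by a function -/
theorem exists_of_cl_eq (e : cl D = cl E) : ∃ u : Fn X, u ≠ 0 ∧
    (∀ x, IsU X x (u * E.f x / D.f x)) ∧ (∀ x h, h ∈ st D x ↔ u * h ∈ st E x) ∧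
    (∀ U h, h ∈ Gm D U ↔ u * h ∈ Gm E U) ∧ ∀ h, loc E (u * h) = loc D h := by
  obtain ⟨u, hu⟩ := cl_eq_iff.1 e
  have e1 : ∀ x h, u * h * E.f x = u * E.f x / D.f x * (h * D.f x) := fun x h => by
    have := D.ne x
    field_simp
  have h1 : ∀ x h, h ∈ st D x ↔ u * h ∈ st E x := fun x h => by
    rw [mem_st, mem_st, e1, (hu x).mul_mem_O_iff]
  refine ⟨u, ?_, hu, h1, fun U h => ?_, fun h => Dv_ext fun x => ?_⟩
  · rintro rfl
    exact (hu (gp X)).ne_zero (by rw [zero_mul, zero_div])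
  · exact mem_secs.trans ((forall₂_congr fun x _ => h1 x h).trans mem_secs.symm)
  · rw [mem_loc, mem_loc, e1, Dv_isU_mul (hu x)]

theorem Dv_equiv (e : cl D = cl E) : Nonempty (Gm D ⊤ ≃ₗ[k] Gm E ⊤) := by
  obtain ⟨u, hu, -, -, h, -⟩ := exists_of_cl_eq e
  have : (Gm D ⊤).map (LinearMap.mulLeft k u) = Gm E ⊤ := by
    ext a
    constructor
    · rintro ⟨b, hb, rfl⟩
      exact (h ⊤ b).1 hb
    · intro ha
      refine ⟨u⁻¹ * a, (h ⊤ _).2 ?_, mul_inv_cancel_left₀ hu a⟩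
      rwa [mul_inv_cancel_left₀ hu]
  exact ⟨(Submodule.equivMapOfInjective (LinearMap.mulLeft k u) (mul_right_injective₀ hu) _).trans
    (LinearEquiv.ofEq _ _ this)⟩

theorem h0_congr (e : cl D = cl E) : h0 D = h0 E :=
  (Dv_equiv e).elim fun f => f.finrank_eq

theorem fin_congr (e : cl D = cl E) [FiniteDimensional k (Gm D ⊤)] :
    FiniteDimensional k (Gm E ⊤) :=
  (Dv_equiv e).elim fun f => f.finiteDimensional

theorem h0_le_add [FiniteDimensional k (Gm (D + E) ⊤)] (hs : s ∈ Gm E ⊤) (h0s : s ≠ 0) :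
    h0 D ≤ h0 (D + E) :=
  LinearMap.finrank_le_finrank_of_injective
    (f := (LinearMap.mulRight k s).restrict (p := Gm D ⊤) (q := Gm (D + E) ⊤)
      fun _ ha => mul_mem_Gm ha hs)
    fun _ _ hab => Subtype.ext (mul_right_cancel₀ h0s (congrArg Subtype.val hab))

/-- globally generated -/
def GG (D : Dv X) : Prop := ∀ x, ∃ s ∈ Gm D ⊤, x ∈ loc D s

/-- ample -/
def Amp (D : Dv X) : Prop :=
  ∀ x, ∃ (n : ℕ) (s : Fn X), 0 < n ∧ s ∈ Gm (n • D) ⊤ ∧ x ∈ loc (n • D) s ∧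
    IsAffineOpen (loc (n • D) s)

theorem GG.congr (h : GG D) (e : cl D = cl E) : GG E := by
  obtain ⟨u, -, -, -, h1, h2⟩ := exists_of_cl_eq e
  intro x
  obtain ⟨s, hs, hx⟩ := h x
  exact ⟨u * s, (h1 ⊤ s).1 hs, h2 s ▸ hx⟩

theorem GG.add (h : GG D) (h' : GG E) : GG (D + E) := by
  intro x
  obtain ⟨s, hs, hx⟩ := h x
  obtain ⟨c, hc, hx'⟩ := h' x
  exact ⟨s * c, mul_mem_Gm hs hc, loc_mul_top hs hc ▸ ⟨hx, hx'⟩⟩

theorem gg_zero : GG (0 : Dv X) :=
  fun _ => ⟨1, mem_Gm_zero.2 (one_mem _), loc_zero (X := X) 1 ▸ mem_ul.2 isU_one⟩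

theorem GG.nsmul (h : GG D) (n : ℕ) : GG (n • D) := by
  induction n with
  | zero =>
    rw [zero_nsmul]
    exact gg_zero
  | succ n ih =>
    rw [succ_nsmul]
    exact ih.add h

theorem GG.of_closed [IsProper X.hom]
    (h : ∀ x, IsClosed ({x} : Set X.left) → ∃ s ∈ Gm D ⊤, x ∈ loc D s) : GG D := by
  intro x
  obtain ⟨y, hxy, hy⟩ := exists_closed_spec x
  obtain ⟨s, hs, hy'⟩ := h y hy
  exact ⟨s, hs, hxy.mem_open (loc D s).isOpen hy'⟩

theorem GG.exists_finite [IsProper X.hom] (h : GG D) : ∃ (n : ℕ) (w : Fin n → Fn X),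
    (∀ l, w l ∈ Gm D ⊤) ∧ ∀ x, ∃ l, x ∈ loc D (w l) := by
  choose s hs hx using h
  obtain ⟨t, ht⟩ := isCompact_univ.elim_finite_subcover (fun x => (loc D (s x) : Set X.left))
    (fun x => (loc D (s x)).isOpen) fun x _ => Set.mem_iUnion.2 ⟨x, hx x⟩
  refine ⟨t.card, fun l => s (t.equivFin.symm l), fun l => hs _, fun x => ?_⟩
  obtain ⟨y, hy, hxy⟩ := Set.mem_iUnion₂.1 (ht (Set.mem_univ x))
  refine ⟨t.equivFin ⟨y, hy⟩, ?_⟩
  simp only [Equiv.symm_apply_apply]
  exact hxy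

theorem Amp.congr (h : Amp D) (e : cl D = cl E) : Amp E := by
  intro x
  obtain ⟨n, s, hn, hs, hx, ha⟩ := h x
  obtain ⟨u, -, -, -, h1, h2⟩ := exists_of_cl_eq (D := n • D) (E := n • E)
    (by rw [map_nsmul, map_nsmul, e])
  exact ⟨n, u * s, hn, (h1 ⊤ s).1 hs, h2 s ▸ hx, h2 s ▸ ha⟩

theorem Amp.add [IsProper X.hom] (h : Amp D) (h' : Amp E) : Amp (D + E) := by
  intro x
  obtain ⟨n, s, hn, hs, hx, ha⟩ := h x
  obtain ⟨m, c, hm, hc, hx', ha'⟩ := h' x
  have e : (n * m) • (D + E) = m • n • D + n • m • E := by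
    rw [nsmul_add, smul_smul, smul_smul, mul_comm m n]
  have e' : loc ((n * m) • (D + E)) (s ^ m * c ^ n) = loc (n • D) s ⊓ loc (m • E) c := by
    rw [e, loc_mul_top (pow_mem_Gm hs m) (pow_mem_Gm hc n), loc_pow hs hm, loc_pow hc hn]
  refine ⟨n * m, s ^ m * c ^ n, Nat.mul_pos hn hm, ?_, ?_, ?_⟩
  · rw [e]
    exact mul_mem_Gm (pow_mem_Gm hs m) (pow_mem_Gm hc n)
  · rw [e']
    exact ⟨hx, hx'⟩
  · rw [e']
    exact aff_inf ha ha'

theorem Amp.nsmul (h : Amp D) {n : ℕ} (hn : 0 < n) : Amp (n • D) := by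
  intro x
  obtain ⟨m, s, hm, hs, hx, ha⟩ := h x
  have e : loc (m • n • D) (s ^ n) = loc (m • D) s := by rw [smul_comm, loc_pow hs hn]
  refine ⟨m, s ^ n, hm, ?_, e ▸ hx, e ▸ ha⟩
  rw [smul_comm]
  exact pow_mem_Gm hs n

theorem Amp.of_nsmul {n : ℕ} (hn : 0 < n) (h : Amp (n • D)) : Amp D := by
  intro x
  obtain ⟨m, s, hm, hs, hx, ha⟩ := h x
  rw [smul_smul] at hs hx ha
  exact ⟨m * n, s, Nat.mul_pos hm hn, hs, hx, ha⟩

theorem Dv_move (D : Dv X) (h : Fn X) (x y : X.left) :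
    h * D.f y = D.f y / D.f x * (h * D.f x) := by
  have := D.ne x
  field_simp

theorem Dv_ext_loc (hs : s ∈ Gm D W) (h0 : s ≠ 0) (hc : c ∈ Gm M (W ⊓ loc D s)) (hx : x ∈ W) :
    ∃ (U : X.left.Opens) (a : ℕ), x ∈ U ∧ ∀ b, a ≤ b → s ^ b * c ∈ Gm (M + b • D) U := by
  obtain ⟨V₁, x₁, h₁⟩ := D.loc x
  obtain ⟨V₂, x₂, h₂⟩ := M.loc x
  obtain ⟨U, hU, hxU, hle⟩ := exists_aff (W := W ⊓ V₁ ⊓ V₂) ⟨⟨hx, x₁⟩, x₂⟩
  have hf : s * D.f x ∈ B X U := mem_B.2 fun y hy => by
    rw [← (h₁ y (hle hy).1.2).mul_mem_O_iff, ← Dv_move]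
    exact mem_Gm.1 hs y (hle hy).1.1
  have hh : c * M.f x ∈ B X (U ⊓ ul (s * D.f x)) := mem_B.2 fun y hy => by
    rw [← (h₂ y (hle hy.1).2).mul_mem_O_iff, ← Dv_move]
    refine mem_Gm.1 hc y ⟨(hle hy.1).1.1, mem_loc.2 ?_⟩
    rw [Dv_move D s x y]
    exact (h₁ y (hle hy.1).1.2).mul hy.2
  obtain ⟨n, hn⟩ := aff_ext hU hf (gp_mem hxU) (mul_ne_zero h0 (D.ne x)) hh
  refine ⟨U, n, hxU, fun b hb => mem_Gm.2 fun y hy => ?_⟩
  obtain ⟨d, rfl⟩ := Nat.exists_eq_add_of_le hb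
  have e : s ^ (n + d) * c * (M + (n + d) • D).f y = (D.f y / D.f x) ^ (n + d) *
      (M.f y / M.f x * ((s * D.f x) ^ d * ((s * D.f x) ^ n * (c * M.f x)))) := by
    have := D.ne x
    have := M.ne x
    rw [f_add, f_nsmul, div_pow]
    field_simp
    ring
  rw [e]
  exact mul_mem (pow_mem (h₁ y (hle hy).1.2).1 _) (mul_mem (h₂ y (hle hy).2).1
    (mul_mem (pow_mem (mem_B.1 hf y hy) _) (mem_B.1 hn y hy)))

/-- extension of sections after twisting -/
theorem ext_sec [IsProper X.hom] (hs : s ∈ Gm D W) (h0 : s ≠ 0) (hc : c ∈ Gm M (W ⊓ loc D s)) :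
    ∃ a : ℕ, ∀ b, a ≤ b → s ^ b * c ∈ Gm (M + b • D) W := by
  have key := (NoetherianSpace.isCompact (W : Set X.left)).induction_on
    (p := fun S => ∃ a : ℕ, ∀ b, a ≤ b → ∀ y ∈ S, s ^ b * c * (M + b • D).f y ∈ O X y)
    ⟨0, fun _ _ _ hy => hy.elim⟩ (fun _ _ hST ⟨a, ha⟩ => ⟨a, fun b hb y hy => ha b hb y (hST hy)⟩)
    (fun _ _ ⟨a, ha⟩ ⟨a', ha'⟩ => ⟨max a a', fun b hb y hy => hy.elim
      (ha b (le_of_max_le_left hb) y) (ha' b (le_of_max_le_right hb) y)⟩)
    fun x hx => by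
      obtain ⟨U, a, hxU, h⟩ := Dv_ext_loc hs h0 hc hx
      exact ⟨U, mem_nhdsWithin_of_mem_nhds (U.isOpen.mem_nhds hxU), a,
        fun b hb => mem_Gm.1 (h b hb)⟩
  obtain ⟨a, ha⟩ := key
  exact ⟨a, fun b hb => mem_Gm.2 (ha b hb)⟩

theorem aff_gen [IsProper X.hom] (hU : IsAffineOpen U) (hx : x ∈ U) (D : Dv X) :
    ∃ s ∈ Gm D U, x ∈ loc D s := by
  obtain ⟨V, hV, h⟩ := D.loc x
  obtain ⟨g, hg, hu, hle⟩ := aff_exists_basic hU hx hV
  have hc : (D.f x)⁻¹ ∈ Gm D (U ⊓ loc 0 g) := mem_Gm.2 fun y hy => by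
    rw [loc_zero] at hy
    rw [← div_eq_inv_mul]
    exact (h y (hle hy)).1
  obtain ⟨a, ha⟩ := ext_sec (mem_Gm_zero.2 hg) hu.ne_zero hc
  have := ha a le_rfl
  rw [nsmul_zero, add_zero] at this
  refine ⟨_, this, mem_loc.2 ?_⟩
  rw [inv_mul_cancel_right₀ (D.ne x)]
  exact hu.pow a

theorem aff_dual [IsProper X.hom] (hU : IsAffineOpen U) (hg : gp X ∈ U) (T : Set (Fn X))
    (hT : ∀ w ∈ T, w ∈ Gm D U) (h : ∀ x ∈ U, ∃ w ∈ T, x ∈ loc D w) :
    ∃ (n : ℕ) (w β : Fin n → Fn X), (∀ l, w l ∈ T) ∧ (∀ l, β l ∈ Gm (-D) U) ∧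
      ∑ l, β l * w l = 1 := by
  obtain ⟨n, f, b, hf, hb, e⟩ := aff_partition hU hg
    {f | ∃ w ∈ T, ∃ β ∈ Gm (-D) U, f = w * β}
    (by
      rintro _ ⟨w, hw, β, hβ, rfl⟩
      have := mul_mem_Gm (hT w hw) hβ
      rwa [add_neg_cancel, mem_Gm_zero] at this)
    fun x hx => by
      obtain ⟨w, hw, hxw⟩ := h x hx
      obtain ⟨β, hβ, hxβ⟩ := aff_gen hU hx (-D)
      refine ⟨_, ⟨w, hw, β, hβ, rfl⟩, ?_⟩
      have := (mem_loc.1 hxw).mul (mem_loc.1 hxβ)
      rwa [f_neg, mul_mul_mul_comm, mul_inv_cancel₀ (D.ne x), mul_one] at this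
  choose w hw β hβ e' using hf
  refine ⟨n, w, fun l => b l * β l, hw, fun l => B_mul_mem_Gm (hb l) (hβ l), ?_⟩
  rw [← e]
  refine Finset.sum_congr rfl fun l _ => ?_
  rw [e' l]
  ring

end Pool.Agent.Work.MP_e57da2_ag
end

-- merged part: Pool.Agent.Work.MP_e57da2_ag.Pl
section
/-!
# Pull-back of divisors and of their sections

`pl φ D` is normalised at the generic point, which makes it strictly functorial.  For dominant `φ`, `pld` is the unnormalised version.
-/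

open CategoryTheory Limits AlgebraicGeometry TopologicalSpace IsLocalRing MonoidalCategory
  CartesianMonoidalCategory

namespace Pool.Agent.Work.MP_e57da2_ag

variable {k : Type} [Field k] {X Y Z : Sch k} [IsIntegral X.left] [IsIntegral Y.left]
  [IsIntegral Z.left]

theorem pl_isU (φ : Y ⟶ X) (D : Dv X) (y : Y.left) :
    IsU X (φ.left (gp Y)) (D.f (φ.left y) / D.f (φ.left (gp Y))) := by
  have := (D.isU_of_spec (spec_gp φ y)).inv
  rwa [inv_div] at this

theorem pl_ne (φ : Y ⟶ X) (D : Dv X) (y : Y.left) :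
    pb φ (D.f (φ.left y) / D.f (φ.left (gp Y))) ≠ 0 :=
  ((pb_isU (y := gp Y) (pl_isU φ D y).1).2 (pl_isU φ D y)).ne_zero

theorem Pl_div (φ : Y ⟶ X) (D : Dv X) (y z : Y.left) :
    pb φ (D.f (φ.left z) / D.f (φ.left (gp Y))) / pb φ (D.f (φ.left y) / D.f (φ.left (gp Y))) =
      pb φ (D.f (φ.left z) / D.f (φ.left y)) := by
  rw [← pb_div (y := gp Y) (pl_isU φ D z).1 (pl_isU φ D y), div_div_div_cancel_right₀ (D.ne _)]

theorem pl_loc (φ : Y ⟶ X) (D : Dv X) (y : Y.left) : ∃ U : Y.left.Opens, y ∈ U ∧ ∀ z ∈ U,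
    IsU Y z (pb φ (D.f (φ.left z) / D.f (φ.left (gp Y))) /
      pb φ (D.f (φ.left y) / D.f (φ.left (gp Y)))) := by
  obtain ⟨U, hU, h⟩ := D.loc (φ.left y)
  refine ⟨φ.left ⁻¹ᵁ U, hU, fun z hz => ?_⟩
  rw [Pl_div]
  exact (pb_isU (h _ hz).1).2 (h _ hz)

/-- pull-back of divisors -/
noncomputable def pl (φ : Y ⟶ X) : Dv X →+ Dv Y where
  toFun D := ⟨fun y => pb φ (D.f (φ.left y) / D.f (φ.left (gp Y))), pl_ne φ D, pl_loc φ D⟩
  map_zero' := Dv.ext (funext fun y => by simp [pb_one])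
  map_add' D E := Dv.ext (funext fun y => by
    change pb φ (_ * _ / (_ * _)) = _ * _
    rw [mul_div_mul_comm]
    exact pb_mul (pl_isU φ D y).1 (pl_isU φ E y).1)

theorem pl_f (φ : Y ⟶ X) (D : Dv X) (y : Y.left) :
    (pl φ D).f y = pb φ (D.f (φ.left y) / D.f (φ.left (gp Y))) := rfl

/-- pull-back of sections -/
noncomputable def pbs (φ : Y ⟶ X) (D : Dv X) (h : Fn X) : Fn Y := pb φ (h * D.f (φ.left (gp Y)))

variable {φ : Y ⟶ X} {D E : Dv X} {y : Y.left} {a b h : Fn X} {U : X.left.Opens}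
  {V : Y.left.Opens}

theorem st_le_gp (φ : Y ⟶ X) (D : Dv X) (y : Y.left) :
    st D (φ.left y) ≤ st D (φ.left (gp Y)) :=
  fun h hh => by
  have h1 := (O X (φ.left (gp Y))).mul_mem (O_le_gp φ y (mem_st.1 hh))
    (D.isU_of_spec (spec_gp φ y)).1
  rwa [mul_assoc, mul_div_cancel₀ _ (D.ne _)] at h1

theorem pbs_mul_f (hh : h ∈ st D (φ.left y)) :
    pbs φ D h * (pl φ D).f y = pb φ (h * D.f (φ.left y)) := by
  rw [pbs, pl_f, ← pb_mul (y := gp Y) (mem_st.1 (st_le_gp φ D y hh)) (pl_isU φ D y).1, mul_assoc,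
    mul_div_cancel₀ _ (D.ne _)]

theorem pbs_mem_st (hh : h ∈ st D (φ.left y)) : pbs φ D h ∈ st (pl φ D) y := by
  rw [mem_st, pbs_mul_f hh]
  exact pb_mem_O hh

theorem pbs_mem_Gm (e : V ≤ φ.left ⁻¹ᵁ U) (hh : h ∈ Gm D U) : pbs φ D h ∈ Gm (pl φ D) V :=
  mem_secs.2 fun _ hy => pbs_mem_st (mem_secs.1 hh _ (e hy))

theorem pbs_mem_loc (hh : h ∈ st D (φ.left y)) :
    y ∈ loc (pl φ D) (pbs φ D h) ↔ φ.left y ∈ loc D h := by
  rw [mem_loc, mem_loc, pbs_mul_f hh]
  exact pb_isU hh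

theorem loc_pbs (hh : h ∈ Gm D ⊤) : loc (pl φ D) (pbs φ D h) = φ.left ⁻¹ᵁ loc D h :=
  Opens.ext (Set.ext fun _ => pbs_mem_loc (mem_secs.1 hh _ trivial))

theorem pbs_zero_dv (φ : Y ⟶ X) (h : Fn X) : pbs φ 0 h = pb φ h := by
  rw [pbs, f_zero, mul_one]

theorem pbs_add (ha : a ∈ st D (φ.left y)) (hb : b ∈ st D (φ.left y)) :
    pbs φ D (a + b) = pbs φ D a + pbs φ D b := by
  rw [pbs, add_mul]
  exact pb_add (y := gp Y) (st_le_gp φ D y ha) (st_le_gp φ D y hb)

theorem pbs_sub (ha : a ∈ st D (φ.left y)) (hb : b ∈ st D (φ.left y)) :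
    pbs φ D (a - b) = pbs φ D a - pbs φ D b := by
  rw [pbs, sub_mul]
  exact pb_sub (y := gp Y) (st_le_gp φ D y ha) (st_le_gp φ D y hb)

theorem pbs_smul (ha : a ∈ st D (φ.left y)) (c : k) : pbs φ D (c • a) = c • pbs φ D a := by
  rw [pbs, smul_mul_assoc]
  exact pb_smul (y := gp Y) (st_le_gp φ D y ha) c

theorem pbs_mul (ha : a ∈ st D (φ.left y)) (hb : b ∈ st E (φ.left y)) :
    pbs φ (D + E) (a * b) = pbs φ D a * pbs φ E b := by
  rw [pbs, f_add, mul_mul_mul_comm]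
  exact pb_mul (y := gp Y) (st_le_gp φ D y ha) (st_le_gp φ E y hb)

theorem pbs_O_mul (ha : a ∈ O X (φ.left y)) (hb : b ∈ st D (φ.left y)) :
    pbs φ D (a * b) = pb φ a * pbs φ D b := by
  rw [pbs, mul_assoc]
  exact pb_mul (y := gp Y) (O_le_gp φ y ha) (st_le_gp φ D y hb)

theorem pbs_pow (ha : a ∈ st D (φ.left y)) (n : ℕ) : pbs φ (n • D) (a ^ n) = pbs φ D a ^ n := by
  rw [pbs, f_nsmul, ← mul_pow]
  exact pb_pow (y := gp Y) (st_le_gp φ D y ha) n

theorem pbs_sum {ι : Type} (S : Finset ι) {f : ι → Fn X} (hf : ∀ i ∈ S, f i ∈ st D (φ.left y)) :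
    pbs φ D (∑ i ∈ S, f i) = ∑ i ∈ S, pbs φ D (f i) := by
  rw [pbs, Finset.sum_mul]
  exact pb_sum (y := gp Y) S fun i hi => st_le_gp φ D y (hf i hi)

theorem pbs_eq_zero (hh : h ∈ st D (φ.left (gp Y))) :
    pbs φ D h = 0 ↔ h * D.f (φ.left (gp Y)) ∈ mp X (φ.left (gp Y)) 1 :=
  pb_eq_zero hh

/-- pull-back of sections over `U`, as a linear map -/
noncomputable def pbsL (φ : Y ⟶ X) (D : Dv X) (hU : φ.left (gp Y) ∈ U) : Gm D U →ₗ[k] Fn Y where
  toFun h := pbs φ D h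
  map_add' a b := pbs_add (mem_secs.1 a.2 _ hU) (mem_secs.1 b.2 _ hU)
  map_smul' c a := pbs_smul (mem_secs.1 a.2 _ hU) c

theorem pl_comp (ψ : Z ⟶ Y) (φ : Y ⟶ X) (D : Dv X) : pl (ψ ≫ φ) D = pl ψ (pl φ D) :=
  Dv.ext (funext fun z => by
    rw [pl_f, pb_comp ψ (pl_isU (ψ ≫ φ) D z).1, pl_f, pl_f, pl_f, Pl_div, comp_apply', comp_apply'])

theorem pbs_comp (ψ : Z ⟶ Y) (hh : h ∈ st D ((ψ ≫ φ).left (gp Z))) :
    pbs (ψ ≫ φ) D h = pbs ψ (pl φ D) (pbs φ D h) := by
  rw [pbs, pb_comp ψ (mem_st.1 hh), pbs]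
  rw [comp_apply'] at hh ⊢
  rw [pbs_mul_f hh]

theorem cl_pl_id (D : Dv X) : cl (pl (𝟙 X) D) = cl D := by
  refine cl_eq_iff.2 ⟨(D.f (gp X))⁻¹, fun x => ?_⟩
  rw [pl_f, pb_id, id_apply', id_apply', inv_mul_eq_div, div_self (div_ne_zero (D.ne _) (D.ne _))]
  exact isU_one

theorem pl_const (x : Pt X) (D : Dv X) : pl (toUnit Y ≫ x) D = 0 :=
  Dv.ext (funext fun y => by
    rw [pl_f, const_apply, const_apply, div_self (D.ne _), pb_one, f_zero])

theorem pl_triv (φ : Y ⟶ X) : trivSub X ≤ (trivSub Y).comap (pl φ) := by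
  rintro D ⟨u, hu⟩
  exact ⟨pbs φ D u, fun y => (pbs_mem_loc (hu _).1).2 (hu _)⟩

/-- pull-back of divisor classes -/
noncomputable def pull (φ : Y ⟶ X) : Pic X →+ Pic Y :=
  QuotientAddGroup.map (trivSub X) (trivSub Y) (pl φ) (pl_triv φ)

theorem pull_cl (φ : Y ⟶ X) (D : Dv X) : pull φ (cl D) = cl (pl φ D) := rfl

theorem pull_comp (ψ : Z ⟶ Y) (φ : Y ⟶ X) (c : Pic X) : pull (ψ ≫ φ) c = pull ψ (pull φ c) := by
  obtain ⟨D, rfl⟩ := cl_surjective c
  rw [pull_cl, pull_cl, pull_cl, pl_comp]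

theorem pull_id (c : Pic X) : pull (𝟙 X) c = c := by
  obtain ⟨D, rfl⟩ := cl_surjective c
  rw [pull_cl, cl_pl_id]

theorem pull_const (x : Pt X) (c : Pic X) : pull (toUnit Y ≫ x) c = 0 := by
  obtain ⟨D, rfl⟩ := cl_surjective c
  rw [pull_cl, pl_const, map_zero]

theorem GG.pl (h : GG D) (φ : Y ⟶ X) : GG (pl φ D) :=
  fun y => by
  obtain ⟨s, hs, hy⟩ := h (φ.left y)
  exact ⟨pbs φ D s, pbs_mem_Gm (U := ⊤) (fun _ _ => trivial) hs, (pbs_mem_loc hy.1).2 hy⟩

theorem Amp.pl (h : Amp D) (φ : Y ⟶ X) [IsAffineHom φ.left] : Amp (pl φ D) :=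
  fun y => by
  obtain ⟨n, s, hn, hs, hy, ha⟩ := h (φ.left y)
  refine ⟨n, pbs φ (n • D) s, hn, ?_⟩
  rw [← map_nsmul]
  refine ⟨pbs_mem_Gm (U := ⊤) (fun _ _ => trivial) hs, (pbs_mem_loc hy.1).2 hy, ?_⟩
  rw [loc_pbs hs]
  exact ha.preimage φ.left

/-- `D` has a generator over `U` -/
def TrivOn (D : Dv X) (U : X.left.Opens) : Prop := ∃ e, U ≤ loc D e

theorem TrivOn.congr (h : TrivOn D U) (e : cl D = cl E) : TrivOn E U := by
  obtain ⟨u, -, -, -, -, hl⟩ := exists_of_cl_eq e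
  obtain ⟨s, hs⟩ := h
  exact ⟨u * s, by rwa [hl]⟩

theorem TrivOn.pl (h : TrivOn D U) (e : V ≤ φ.left ⁻¹ᵁ U) : TrivOn (pl φ D) V := by
  obtain ⟨s, hs⟩ := h
  exact ⟨pbs φ D s, fun _ hy => (pbs_mem_loc (mem_loc.1 (hs (e hy))).1).2 (hs (e hy))⟩

theorem trivOn_top : TrivOn D ⊤ ↔ cl D = 0 := by
  rw [cl_eq_zero]
  exact exists_congr fun _ => ⟨fun h x => h (show x ∈ (⊤ : X.left.Opens) from trivial),
    fun h x _ => h x⟩

theorem pld_loc (hφ : Dom φ) (D : Dv X) (y : Y.left) : ∃ U : Y.left.Opens, y ∈ U ∧ ∀ z ∈ U,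
    IsU Y z (pbF hφ (D.f (φ.left z)) / pbF hφ (D.f (φ.left y))) := by
  obtain ⟨U, hU, h⟩ := D.loc (φ.left y)
  refine ⟨φ.left ⁻¹ᵁ U, hU, fun z hz => ?_⟩
  rw [← map_div₀, pbF_apply]
  exact (pb_isU (h _ hz).1).2 (h _ hz)

/-- unnormalised pull-back along a dominant morphism -/
noncomputable def pld (hφ : Dom φ) (D : Dv X) : Dv Y :=
  ⟨fun y => pbF hφ (D.f (φ.left y)), fun _ => (map_ne_zero _).2 (D.ne _), pld_loc hφ D⟩

theorem pld_f (hφ : Dom φ) (D : Dv X) (y : Y.left) : (pld hφ D).f y = pb φ (D.f (φ.left y)) := rfl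

theorem cl_pld (hφ : Dom φ) (D : Dv X) : cl (pld hφ D) = cl (pl φ D) := by
  refine cl_eq_iff.2 ⟨pbF hφ (D.f (φ.left (gp Y))), fun y => ?_⟩
  rw [pl_f, pld_f, ← pbF_apply hφ, ← pbF_apply hφ, ← map_mul, mul_div_cancel₀ _ (D.ne _),
    div_self ((map_ne_zero _).2 (D.ne _))]
  exact isU_one

theorem pb_mem_Gm_pld (hφ : Dom φ) (e : V ≤ φ.left ⁻¹ᵁ U) (hh : h ∈ Gm D U) :
    pb φ h ∈ Gm (pld hφ D) V :=
  mem_Gm.2 fun y hy => by
    rw [pld_f, ← pb_mul (hφ.mem _) (hφ.mem _)]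
    exact pb_mem_O (mem_Gm.1 hh _ (e hy))

theorem loc_pld (hφ : Dom φ) (hh : h ∈ Gm D ⊤) : loc (pld hφ D) (pb φ h) = φ.left ⁻¹ᵁ loc D h :=
  Opens.ext (Set.ext fun y => by
    change IsU Y y (pb φ h * pb φ (D.f (φ.left y))) ↔ _
    rw [← pb_mul (hφ.mem _) (hφ.mem _)]
    exact pb_isU (mem_Gm.1 hh _ trivial))

/-- the rank of the evaluation of the global sections of `D` at `z` -/
noncomputable def rk (D : Dv X) (z : X.left) : ℕ :=
  Module.finrank k (((Gm D ⊤).map (LinearMap.mulRight k (D.f z))).map (mp X z 1).mkQ)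

theorem Pl_rank_le {V W V' W' : Type} [AddCommGroup V] [Module k V] [AddCommGroup W] [Module k W]
    [AddCommGroup V'] [Module k V'] [AddCommGroup W'] [Module k W'] (f : V →ₗ[k] W)
    (g : V' →ₗ[k] W') (T : V →ₗ[k] V') (h : ∀ v, g (T v) = 0 → f v = 0) :
    Module.rank k (LinearMap.range f) ≤ Module.rank k (LinearMap.range g) := by
  have h1 : LinearMap.ker (g ∘ₗ T) ≤ LinearMap.ker f := h
  rw [← Submodule.range_liftQ _ f h1]
  refine (rank_range_le _).trans ?_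
  rw [(g ∘ₗ T).quotKerEquivRange.rank_eq]
  exact Submodule.rank_mono (LinearMap.range_comp_le_range _ _)

/-- evaluation of global sections at a point -/
noncomputable def Pl_ev (D : Dv X) (z : X.left) : Gm D ⊤ →ₗ[k] Fn X ⧸ mp X z 1 :=
  (mp X z 1).mkQ ∘ₗ LinearMap.mulRight k (D.f z) ∘ₗ (Gm D ⊤).subtype

theorem Pl_ev_zero {z : X.left} (v : Gm D ⊤) : Pl_ev D z v = 0 ↔ v * D.f z ∈ mp X z 1 :=
  Submodule.Quotient.mk_eq_zero _

theorem Pl_rk (D : Dv X) (z : X.left) :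
    rk D z = Module.finrank k (LinearMap.range (Pl_ev D z)) := by
  rw [rk, Pl_ev, LinearMap.range_comp, LinearMap.range_comp, Submodule.range_subtype]

theorem Pl_rk_le {z : X.left} (u : Fn X) (hT : ∀ h ∈ Gm D ⊤, u * h ∈ Gm E ⊤)
    (hu : IsU X z (u * E.f z / D.f z)) : Module.rank k (LinearMap.range (Pl_ev D z)) ≤
      Module.rank k (LinearMap.range (Pl_ev E z)) := by
  refine Pl_rank_le _ _ ((LinearMap.mulLeft k u).restrict hT) fun v hv => ?_
  rw [Pl_ev_zero] at hv ⊢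
  rw [← hu.mul_mem_mp_iff]
  have e : u * E.f z / D.f z * (v * D.f z) = u * v * E.f z := by
    have := D.ne z
    field_simp
  rw [e]
  exact hv

theorem rk_congr (e : cl D = cl E) (z : X.left) : rk D z = rk E z := by
  have key : ∀ {D E : Dv X}, cl D = cl E → Module.rank k (LinearMap.range (Pl_ev D z)) ≤
      Module.rank k (LinearMap.range (Pl_ev E z)) := fun e => by
    obtain ⟨u, -, h1, -, h2, -⟩ := exists_of_cl_eq e
    exact Pl_rk_le u (fun h hh => (h2 ⊤ h).1 hh) (h1 z)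
  rw [Pl_rk, Pl_rk, Module.finrank, Module.finrank, le_antisymm (key e) (key e.symm)]

theorem rk_le_add [FiniteDimensional k (Gm (D + E) ⊤)] {z : X.left} {s : Fn X} (hs : s ∈ Gm E ⊤)
    (hz : z ∈ loc E s) : rk D z ≤ rk (D + E) z := by
  rw [Pl_rk, Pl_rk]
  refine Cardinal.toNat_le_toNat (Pl_rk_le s (fun h hh => ?_) ?_) (Module.rank_lt_aleph0 _ _)
  · rw [mul_comm]
    exact mul_mem_Gm hh hs
  · rw [f_add, mul_left_comm, mul_div_cancel_left₀ _ (D.ne z)]
    exact hz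

theorem rk_eq_range [FiniteDimensional k (Gm D ⊤)] (φ : Y ⟶ X) :
    rk D (φ.left (gp Y)) = Module.finrank k (LinearMap.range (pbsL (U := ⊤) φ D trivial)) := by
  have key : ∀ v : Gm D ⊤, pbsL (U := ⊤) φ D trivial v = 0 ↔ Pl_ev D (φ.left (gp Y)) v = 0 :=
    fun v => (pbs_eq_zero (mem_secs.1 v.2 _ trivial)).trans (Pl_ev_zero v).symm
  rw [Pl_rk, Module.finrank, Module.finrank,
    le_antisymm (Pl_rank_le _ _ LinearMap.id fun v => (key v).1)
      (Pl_rank_le _ _ LinearMap.id fun v => (key v).2)]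

theorem rk_le_h0 [FiniteDimensional k (Gm D ⊤)] (φ : Y ⟶ X)
    [FiniteDimensional k (Gm (pl φ D) ⊤)] : rk D (φ.left (gp Y)) ≤ h0 (pl φ D) := by
  rw [rk_eq_range]
  refine Submodule.finrank_mono ?_
  rintro _ ⟨v, rfl⟩
  exact pbs_mem_Gm (U := ⊤) (fun _ _ => trivial) v.2

end Pool.Agent.Work.MP_e57da2_ag
end

-- merged part: Pool.Agent.Work.MP_e57da2_ag.Van
section
/-!
# Čech complexes of families of stalks; vanishing of cohomology; Koszul complexes

Plans.  `ex_affine`: let `c` be a cocycle.  `T` = the `f ∈ B W` with `W ⊓ ul f ≤ U i` for some `i` and `f * c (insert i S) ∈ sys F W U S` for all `S`;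
by `aff_exists_basic` and `QC.ext` (on the affine `W ⊓ S.inf U`, finitely many `S`; replace `f` by a power) the `f ∈ T` have no common zero on `W`;
`aff_partition` and `exists_dd_eq_of_partition`.
`van_of_cover`: `ex_iff_of_double` for `(S, T) ↦ secs F (S.inf U ⊓ T.inf V)`, rows and columns by `ex_affine`.
`koszul`: `ex_iff_of_double` for `(S, T) ↦ kos M G t (T.inf U) S` with an affine cover `U`.  Columns (all `S`): `Van` and `Ex.retract` along multiplication by
`∏ i ∈ S, t i`.  Rows (`T` nonempty, `W = T.inf U` affine): the functions `β * t i`, `β ∈ Gm (-G i) W`, have no common zero on `W` (`aff_gen`), and they map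
`kos (insert i S)` into `kos S`; `aff_partition`, `exists_dd_eq_of_partition`.
The corollaries come from `Ex.euler`, `Ex.top_gen`, `Ex.top_syz`.
-/

open CategoryTheory Limits AlgebraicGeometry TopologicalSpace Finset

namespace Pool.Agent.Work.MP_e57da2_ag

variable {k : Type} [Field k] {X : Sch k} [IsIntegral X.left] {ι : Type}

/-- the Čech family of `F` on `W` for the opens `U i` -/
noncomputable def sys (F : X.left → Submodule k (Fn X)) (W : X.left.Opens)
    (U : ι → X.left.Opens) (S : Finset ι) : Submodule k (Fn X) := secs F (W ⊓ S.inf U)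

/-- a cover by nonempty affine opens -/
structure Cover (U : ι → X.left.Opens) : Prop where
  aff : ∀ i, IsAffineOpen (U i)
  gp : ∀ i, gp X ∈ U i
  cov : ∀ x, ∃ i, x ∈ U i

/-- quasi-coherent families of stalks -/
structure QC (F : X.left → Submodule k (Fn X)) : Prop where
  mul : ∀ x a v, a ∈ O X x → v ∈ F x → a * v ∈ F x
  ext : ∀ (U : X.left.Opens), IsAffineOpen U → gp X ∈ U → ∀ f ∈ B X U, f ≠ 0 →
    ∀ c ∈ secs F (U ⊓ ul f), ∃ n : ℕ, f ^ n * c ∈ secs F U

/-- the higher Čech cohomology of `F` vanishes -/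
def VanF (F : X.left → Submodule k (Fn X)) : Prop :=
  ∀ (ι : Type) [Fintype ι] [LinearOrder ι] (U : ι → X.left.Opens), Cover U → Ex (sys F ⊤ U)

/-- the higher cohomology of the line bundle of `D` vanishes -/
def Van (D : Dv X) : Prop := VanF (st D)

variable {F : X.left → Submodule k (Fn X)} {D E M : Dv X} {W : X.left.Opens}
  {U : ι → X.left.Opens}

omit [IsIntegral X.left] in
theorem van_mem_inf {x : X.left} (S : Finset ι) : x ∈ S.inf U ↔ ∀ i ∈ S, x ∈ U i := by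
  classical
  induction S using Finset.induction_on with
  | empty => simp
  | insert a S _ ih => rw [Finset.inf_insert, Opens.mem_inf, ih, Finset.forall_mem_insert]

theorem van_B_mul (hF : QC F) {b v : Fn X} (hb : b ∈ B X W) (hv : v ∈ secs F W) :
    b * v ∈ secs F W :=
  mem_secs.2 fun x hx => hF.mul x _ _ (mem_B.1 hb x hx) (mem_secs.1 hv x hx)

theorem sys_mono [DecidableEq ι] : Monotone (sys F W U) := fun _ _ h =>
  secs_anti (inf_le_inf_left _ (Finset.inf_mono h))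

theorem sys_empty : sys F W U ∅ = secs F W := by
  rw [sys, Finset.inf_empty, inf_top_eq]

theorem sys_singleton (i : ι) : sys F W U {i} = secs F (W ⊓ U i) := by
  rw [sys, Finset.inf_singleton]

theorem sys_pair [DecidableEq ι] (i j : ι) : sys F W U {i, j} = secs F (W ⊓ U i ⊓ U j) := by
  rw [sys, Finset.inf_insert, Finset.inf_singleton, inf_assoc]

theorem gp_mem_inf (h : ∀ i, gp X ∈ U i) (S : Finset ι) : gp X ∈ S.inf U :=
  (van_mem_inf S).2 fun i _ => h i

theorem Van.congr (h : Van D) (e : cl D = cl E) : Van E := by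
  intro κ _ _ V hV
  obtain ⟨u, hu, -, -, hG, -⟩ := exists_of_cl_eq e
  refine (h κ V hV).retract (AddMonoidHom.mulLeft u⁻¹) (AddMonoidHom.mulLeft u)
    (fun S v hv => ?_) (fun S w hw => (hG _ w).1 hw) fun v => ?_
  · refine (hG _ _).2 ?_
    rwa [AddMonoidHom.coe_mulLeft, mul_inv_cancel_left₀ hu]
  · rw [AddMonoidHom.coe_mulLeft, AddMonoidHom.coe_mulLeft, mul_inv_cancel_left₀ hu]

variable [IsProper X.hom]

theorem exists_cover : ∃ (n : ℕ) (U : Fin n → X.left.Opens), Cover U := by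
  have h : ∀ x : X.left, ∃ U : X.left.Opens, IsAffineOpen U ∧ x ∈ U := fun x => by
    obtain ⟨U, hU, hx, -⟩ := exists_aff (W := ⊤) (x := x) trivial
    exact ⟨U, hU, hx⟩
  choose V hV hx using h
  obtain ⟨s, hs⟩ := isCompact_univ.elim_finite_subcover (fun x => (V x : Set X.left))
    (fun x => (V x).isOpen) fun x _ => Set.mem_iUnion.2 ⟨x, hx x⟩
  refine ⟨s.card, fun i => V (s.equivFin.symm i), fun _ => hV _, fun _ => gp_mem (hx _), fun x => ?_⟩
  obtain ⟨y, hy, hxy⟩ := Set.mem_iUnion₂.1 (hs (Set.mem_univ x))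
  refine ⟨s.equivFin ⟨y, hy⟩, ?_⟩
  rw [Equiv.symm_apply_apply]
  exact hxy

theorem qc_st (D : Dv X) : QC (st D) where
  mul x a v ha hv := by
    rw [mem_st, mul_assoc]
    exact mul_mem ha hv
  ext U _ _ f hf h0 c hc := by
    obtain ⟨a, ha⟩ := ext_sec (D := 0) (M := D) (W := U) (mem_Gm_zero.2 hf) h0 (c := c)
      (by rw [loc_zero]; exact hc)
    have e : D + a • (0 : Dv X) = D := Dv.ext (funext fun x => by simp)
    have h1 := ha a le_rfl
    rw [e] at h1
    exact ⟨a, h1⟩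

omit [IsIntegral X.left] in
theorem van_aff_inf (hW : IsAffineOpen W) (aff : ∀ i, IsAffineOpen (U i)) (S : Finset ι) :
    IsAffineOpen (W ⊓ S.inf U) := by
  rcases S.eq_empty_or_nonempty with rfl | hS
  · rwa [Finset.inf_empty, inf_top_eq]
  · exact aff_inf hW (aff_finset_inf aff hS)

theorem ex_affine [Fintype ι] [LinearOrder ι] (hF : QC F) (hW : IsAffineOpen W) (hg : gp X ∈ W)
    (aff : ∀ i, IsAffineOpen (U i)) (gpU : ∀ i, gp X ∈ U i) (cov : ∀ x ∈ W, ∃ i, x ∈ U i) :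
    Ex (sys F W U) := by
  intro c hc hd
  obtain ⟨n, f, b, hf, hb, h1⟩ := aff_partition hW hg
    {f | f ∈ B X W ∧ ∃ i, ∀ S, f * c (insert i S) ∈ sys F W U S} (fun f hf => hf.1) (by
      intro x hx
      obtain ⟨i, hi⟩ := cov x hx
      obtain ⟨f, hf, hu, hle⟩ := aff_exists_basic hW hx hi
      have h2 : ∀ S, ∃ m : ℕ, f ^ m * c (insert i S) ∈ sys F W U S := fun S => by
        refine hF.ext _ (van_aff_inf hW aff S) ⟨hg, gp_mem_inf gpU S⟩ f (B_anti inf_le_left hf)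
          hu.ne_zero _ (secs_anti ?_ (hc (insert i S)))
        rw [Finset.inf_insert]
        exact le_inf (inf_le_left.trans inf_le_left) (le_inf
          ((inf_le_inf_right _ inf_le_left).trans hle) (inf_le_left.trans inf_le_right))
      choose m hm using h2
      refine ⟨f ^ univ.sup m, ⟨pow_mem hf _, i, fun S => ?_⟩, hu.pow _⟩
      obtain ⟨r, hr⟩ := Nat.exists_eq_add_of_le' (Finset.le_sup (f := m) (mem_univ S))
      rw [hr, pow_add, mul_assoc]
      exact van_B_mul hF (B_anti inf_le_left (pow_mem hf _)) (hm S))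
  choose i hi using fun l => (hf l).2
  refine exists_dd_eq_of_partition i (fun l => b l * f l) h1 hd fun l S _ => ?_
  rw [smul_eq_mul, mul_assoc]
  exact van_B_mul hF (B_anti inf_le_left (hb l)) (hi l S)

theorem van_of_cover [Fintype ι] [LinearOrder ι] (hF : QC F) (hU : Cover U)
    (h : Ex (sys F ⊤ U)) : VanF F := by
  intro κ _ _ V hV
  refine (ex_iff_of_double (fun (S : Finset ι) (T : Finset κ) => secs F (S.inf U ⊓ T.inf V))
    (fun T _ _ h => secs_anti (inf_le_inf_right _ (Finset.inf_mono h)))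
    (fun S _ _ h => secs_anti (inf_le_inf_left _ (Finset.inf_mono h)))
    (fun T hT => ?_) fun S hS => ?_).1 ?_
  · refine (ex_affine hF (aff_finset_inf hV.aff hT) (gp_mem_inf hV.gp T) hU.aff hU.gp
      fun x _ => hU.cov x).congr fun S v => ?_
    rw [sys, inf_comm]
  · exact ex_affine hF (aff_finset_inf hU.aff hS) (gp_mem_inf hU.gp S) hV.aff hV.gp
      fun x _ => hV.cov x
  · refine h.congr fun S v => ?_
    rw [sys, Finset.inf_empty, inf_comm]

/-- the Koszul family of the sections `t i` of `G i`, twisted by `M`, over `W` -/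
noncomputable def kos (M : Dv X) (G : ι → Dv X) (t : ι → Fn X) (W : X.left.Opens) (S : Finset ι) :
    Submodule k (Fn X) :=
  (Gm (M + ∑ i ∈ S, G i) W).comap (LinearMap.mulLeft k (∏ i ∈ S, t i))

/-- sections without common zero -/
structure Free (G : ι → Dv X) (t : ι → Fn X) : Prop where
  mem : ∀ i, t i ∈ Gm (G i) ⊤
  ne : ∀ i, t i ≠ 0
  cov : ∀ x, ∃ i, x ∈ loc (G i) (t i)

variable [Fintype ι] [LinearOrder ι] {G : ι → Dv X} {t : ι → Fn X}

omit [IsProper X.hom] [Fintype ι] [LinearOrder ι] in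
theorem van_mem_kos {S : Finset ι} {v : Fn X} :
    v ∈ kos M G t W S ↔ (∏ i ∈ S, t i) * v ∈ Gm (M + ∑ i ∈ S, G i) W := Iff.rfl

omit [IsProper X.hom] [Fintype ι] [LinearOrder ι] in
theorem van_prod_ne (ht : Free G t) (S : Finset ι) : ∏ i ∈ S, t i ≠ 0 :=
  Finset.prod_ne_zero_iff.2 fun i _ => ht.ne i

omit [IsProper X.hom] [Fintype ι] in
theorem van_kos_mono (ht : Free G t) : Monotone (kos M G t W) := fun S T h v hv => by
  rw [van_mem_kos] at hv ⊢
  have h1 := mul_mem_Gm (prod_mem_Gm (T \ S) fun i _ => Gm_anti le_top (ht.mem i)) hv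
  rw [← mul_assoc, Finset.prod_sdiff h, add_left_comm, Finset.sum_sdiff h] at h1
  exact h1

omit [Fintype ι] in
theorem van_kos_aff (ht : Free G t) (hW : IsAffineOpen W) (hg : gp X ∈ W) : Ex (kos M G t W) := by
  intro c hc hd
  obtain ⟨n, f, b, hf, hb, h1⟩ := aff_partition hW hg
    {f | f ∈ B X W ∧ ∃ i, ∀ S, i ∉ S → f * c (insert i S) ∈ kos M G t W S} (fun f hf => hf.1) (by
      intro x hx
      obtain ⟨i, hi⟩ := ht.cov x
      obtain ⟨β, hβ, hx'⟩ := aff_gen hW hx (-G i)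
      refine ⟨β * t i, ⟨?_, i, fun S hS => ?_⟩, ?_⟩
      · have h2 := mul_mem_Gm hβ (Gm_anti le_top (ht.mem i))
        rwa [neg_add_cancel, mem_Gm_zero] at h2
      · have h2 := mul_mem_Gm hβ (van_mem_kos.1 (hc (insert i S)))
        rw [Finset.prod_insert hS, Finset.sum_insert hS, add_left_comm, neg_add_cancel_left] at h2
        rw [van_mem_kos]
        convert h2 using 1
        ring
      · have h2 := (mem_loc.1 hx').mul (mem_loc.1 hi)
        rw [f_neg] at h2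
        convert h2 using 1
        field_simp [(G i).ne x])
  choose i hi using fun l => (hf l).2
  refine exists_dd_eq_of_partition i (fun l => b l * f l) h1 hd fun l S hS => ?_
  rw [smul_eq_mul, mul_assoc, van_mem_kos, mul_left_comm]
  exact B_mul_mem_Gm (hb l) (hi l S hS)

theorem koszul (ht : Free G t) (hM : ∀ S : Finset ι, Van (M + ∑ i ∈ S, G i)) :
    Ex (kos M G t ⊤) := by
  obtain ⟨n, U, hU⟩ := exists_cover (X := X)
  have cols : ∀ S : Finset ι, Ex fun T : Finset (Fin n) => kos M G t (T.inf U) S := fun S => by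
    have hp := van_prod_ne ht S
    refine (hM S _ U hU).retract (AddMonoidHom.mulLeft (∏ i ∈ S, t i))
      (AddMonoidHom.mulLeft (∏ i ∈ S, t i)⁻¹) (fun T v hv => ?_) (fun T w hw => ?_) fun v => ?_
    · rw [sys, top_inf_eq]
      exact hv
    · rw [sys, top_inf_eq] at hw
      rw [van_mem_kos, AddMonoidHom.coe_mulLeft, mul_inv_cancel_left₀ hp]
      exact hw
    · rw [AddMonoidHom.coe_mulLeft, AddMonoidHom.coe_mulLeft, inv_mul_cancel_left₀ hp]
  exact (ex_iff_of_double (fun (S : Finset ι) (T : Finset (Fin n)) => kos M G t (T.inf U) S)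
    (fun _ => van_kos_mono ht) (fun _ _ _ h => Submodule.comap_mono (Gm_anti (Finset.inf_mono h)))
    (fun T hT => van_kos_aff ht (aff_finset_inf hU.aff hT) (gp_mem_inf hU.gp T))
    fun S _ => cols S).2 (cols ∅)

/-- multiplication by the product of the sections -/
noncomputable def vanKosEquiv (ht : Free G t) (M : Dv X) (W : X.left.Opens) (S : Finset ι) :
    kos M G t W S ≃ₗ[k] Gm (M + ∑ i ∈ S, G i) W :=
  (LinearEquiv.ofBijective (LinearMap.mulLeft k (∏ i ∈ S, t i))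
    (mulLeft_bijective₀ _ (van_prod_ne ht S))).ofSubmodule' _

theorem koszul_euler (ht : Free G t) (hM : ∀ S : Finset ι, Van (M + ∑ i ∈ S, G i))
    (fin : ∀ S : Finset ι, FiniteDimensional k (Gm (M + ∑ i ∈ S, G i) ⊤)) :
    ∑ S : Finset ι, (-1 : ℤ) ^ S.card * (h0 (M + ∑ i ∈ S, G i) : ℤ) = 0 := by
  rw [← (koszul ht hM).euler (van_kos_mono ht) fun S =>
    (vanKosEquiv ht M ⊤ S).symm.finiteDimensional]
  refine Finset.sum_congr rfl fun S _ => ?_
  rw [h0, (vanKosEquiv ht M ⊤ S).finrank_eq]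

omit [IsProper X.hom] [Fintype ι] [LinearOrder ι] in
theorem van_sum_const (H : Dv X) (S : Finset ι) {j : ℕ} (h : S.card = j) :
    ∑ _i ∈ S, H = j • H := by
  rw [Finset.sum_const, h]

theorem koszul_gen {g : ℕ} {H : Dv X} {t : Fin (g + 1) → Fn X} (ht : Free (fun _ => H) t)
    (hM : ∀ j : ℕ, Van (M + j • H)) {v : Fn X} (hv : v ∈ Gm (M + (g + 1) • H) ⊤) :
    ∃ h : Fin (g + 1) → Fn X, (∀ i, h i ∈ Gm (M + g • H) ⊤) ∧ ∑ i, t i * h i = v := by
  have hp := van_prod_ne ht univ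
  obtain ⟨b, hb, e⟩ := (koszul (M := M) ht fun S => by
    rw [van_sum_const H S rfl]; exact hM _).top_gen (v := (∏ i, t i)⁻¹ * v) (by
    rw [van_mem_kos, mul_inv_cancel_left₀ hp, van_sum_const H univ (j := g + 1) (by simp)]
    exact hv)
  refine ⟨fun i => (∏ j ∈ univ.erase i, t j) * b i, fun i => ?_, ?_⟩
  · have h1 := van_mem_kos.1 (hb i)
    rwa [van_sum_const H _ (j := g) (by simp)] at h1
  · simp only [← mul_assoc, Finset.mul_prod_erase _ t (mem_univ _)]
    rw [← Finset.mul_sum, e, mul_inv_cancel_left₀ hp]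

theorem koszul_syz {g : ℕ} {H : Dv X} {t : Fin (g + 2) → Fn X} (ht : Free (fun _ => H) t)
    (hM : ∀ j : ℕ, Van (M + j • H)) {h : Fin (g + 2) → Fn X}
    (hh : ∀ i, h i ∈ Gm (M + (g + 1) • H) ⊤) (h0 : ∑ i, t i * h i = 0) :
    ∃ m : Fin (g + 2) → Fin (g + 2) → Fn X, (∀ i j, m i j ∈ Gm (M + g • H) ⊤) ∧ (∀ i, m i i = 0) ∧
      (∀ i j, m i j = -m j i) ∧ ∀ i, h i = ∑ j, t j * m i j := by
  obtain ⟨m, hm, hm0, hma, e⟩ := (koszul (M := M) ht fun S => by
    rw [van_sum_const H S rfl]; exact hM _).top_syz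
    (b := fun i => (∏ j ∈ univ.erase i, t j)⁻¹ * h i) (fun i => by
      rw [van_mem_kos, mul_inv_cancel_left₀ (van_prod_ne ht _),
        van_sum_const H _ (j := g + 1) (by simp)]
      exact hh i) (by
      have h1 : ∀ i, (∏ j ∈ univ.erase i, t j)⁻¹ * h i = (∏ j, t j)⁻¹ * (t i * h i) := fun i => by
        rw [← Finset.mul_prod_erase _ t (mem_univ i), mul_inv, mul_comm (t i)⁻¹, mul_assoc,
          inv_mul_cancel_left₀ (ht.ne i)]
      simp only [h1]
      rw [← Finset.mul_sum, h0, mul_zero])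
  refine ⟨fun i j => (∏ l ∈ (univ.erase i).erase j, t l) * m i j, fun i j => ?_, fun i => ?_,
    fun i j => ?_, fun i => ?_⟩
  · by_cases hij : i = j
    · subst hij
      simp only [hm0, mul_zero]
      exact zero_mem _
    · have h1 := van_mem_kos.1 (hm i j hij)
      rwa [van_sum_const H _ (j := g) (by
        rw [card_erase_of_mem (mem_erase.2 ⟨Ne.symm hij, mem_univ _⟩)]; simp)] at h1
  · simp only [hm0, mul_zero]
  · simp only
    rw [hma i j, erase_right_comm, mul_neg]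
  · have h1 := e i
    rw [inv_mul_eq_iff_eq_mul₀ (van_prod_ne ht _), Finset.mul_sum] at h1
    rw [h1]
    refine Finset.sum_congr rfl fun j _ => ?_
    by_cases hij : i = j
    · subst hij
      simp only [hm0, mul_zero]
    · simp only
      rw [← mul_assoc, Finset.mul_prod_erase _ t (mem_erase.2 ⟨Ne.symm hij, mem_univ _⟩)]

end Pool.Agent.Work.MP_e57da2_ag
end

-- merged part: Pool.Agent.Work.MP_e57da2_ag.Val
section
/-!
# Consequences of the valuative criterion; sections without common zero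

Plans.  `exists_center`: `UniversallyClosed.eq_valuativeCriterion` (existence part) applied to the square
`Spec (Fn X) ⟶ X` (`Scheme.fromSpecStalk` at the generic point), `Spec 𝒪 ⟶ Spec k`; the image `x` of the closed point has a local map `O X x → 𝒪`
compatible with the inclusions in `Fn X` (`SpecToEquivOfLocalRing`, `Scheme.stalkClosedPointTo`, `Scheme.SpecMap_stalkSpecializes_fromSpecStalk`).
`integral_chart`: by `iInf_valuationSubring_superset` it is enough to show `h ∈ 𝒪` for each valuation subring containing `k` and the `t j / t i`; the centre `x` lies in some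
`loc H (t j)`, `t i / t j ∈ O X x` is a unit of `𝒪`, so of `O X x`; hence `x ∈ loc H (t i)`.
`finite_chart`: integral and of finite type.  `B_top`: the same with `H = 0`, `t = 1`; `k` is algebraically closed.
`exists_free`: induction on `j ≤ g + 1`: there are nonzero `t 0, ..., t (j-1)` such that every common zero `z` is the end of a chain
`η₀ ⤳ η₁ ⤳ ... ⤳ η_j = z` of distinct points.  Choose `t j` (`exists_avoid`) invertible at the finitely many generic points of the irreducible components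
of the closed set of common zeros and at the generic point of `X`.  A chain of length `g + 1` contradicts the dimension
(`topologicalKrullDim`, `irreducibleSetEquivPoints`, `Order.LTSeries.length_le_krullDim`).
-/

open CategoryTheory Limits AlgebraicGeometry TopologicalSpace Finset

namespace Pool.Agent.Work.MP_e57da2_ag

variable {k : Type} [Field k] {X : Sch k} [IsIntegral X.left] [IsProper X.hom] {ι : Type}

omit [IsProper X.hom] in
theorem val_str : X.left.fromSpecStalk (gp X) ≫ X.hom =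
    Spec.map (CommRingCat.ofHom (algebraMap k (Fn X))) := by
  have h1 : X.hom = X.left.toSpecΓ ≫ Spec.map X.hom.appTop ≫
      Spec.map (Scheme.ΓSpecIso (CommRingCat.of k)).inv := by
    rw [← Scheme.toSpecΓ_naturality_assoc, ← SpecMap_ΓSpecIso_hom, ← Spec.map_comp,
      Iso.inv_hom_id, Spec.map_id]
    exact (Category.comp_id _).symm
  rw [h1, Scheme.fromSpecStalk_toSpecΓ_assoc, ← Spec.map_comp, ← Spec.map_comp]
  rfl

theorem exists_center (𝒪 : ValuationSubring (Fn X)) (hk : ∀ c : k, algebraMap k (Fn X) c ∈ 𝒪) :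
    ∃ x : X.left, (∀ h ∈ O X x, h ∈ 𝒪) ∧ ∀ h ∈ O X x, h ≠ 0 → h⁻¹ ∈ 𝒪 → h⁻¹ ∈ O X x := by
  have h1 : UniversallyClosed X.hom := inferInstance
  rw [UniversallyClosed.eq_valuativeCriterion] at h1
  obtain ⟨l, hl⟩ : ∃ l : Spec (CommRingCat.of 𝒪) ⟶ X.left,
      Spec.map (CommRingCat.ofHom (algebraMap 𝒪 (Fn X))) ≫ l = X.left.fromSpecStalk (gp X) := by
    obtain ⟨l, hl, -⟩ := (h1.1
      { R := 𝒪
        K := Fn X
        i₁ := X.left.fromSpecStalk (gp X)
        i₂ := Spec.map (CommRingCat.ofHom ((algebraMap k (Fn X)).codRestrict 𝒪 hk))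
        commSq := ⟨by
          rw [← Spec.map_comp]
          exact val_str⟩ }).exists_lift
    exact ⟨l, hl⟩
  have h2 : Spec.map (Scheme.stalkClosedPointTo l ≫ CommRingCat.ofHom (algebraMap 𝒪 (Fn X))) =
      Spec.map (X.left.presheaf.stalkSpecializes (gp_spec X _)) := by
    rw [← cancel_mono (X.left.fromSpecStalk _), Spec.map_comp, Category.assoc,
      Scheme.Spec_stalkClosedPointTo_fromSpecStalk, hl]
    exact (Scheme.SpecMap_stalkSpecializes_fromSpecStalk _).symm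
  have h3 : ∀ a, toK X _ a = ((Scheme.stalkClosedPointTo l).hom a : 𝒪) := fun a =>
    (congrArg (fun f => CommRingCat.Hom.hom f a) (Spec.map_injective h2)).symm
  refine ⟨l (IsLocalRing.closedPoint 𝒪), ?_, ?_⟩
  · rintro _ ⟨a, rfl⟩
    rw [h3]
    exact Subtype.prop _
  · rintro _ ⟨a, rfl⟩ h0 hi
    have h4 : IsUnit ((Scheme.stalkClosedPointTo l).hom a) :=
      IsUnit.of_mul_eq_one (⟨_, hi⟩ : 𝒪) (Subtype.ext (by
        change ((Scheme.stalkClosedPointTo l).hom a : 𝒪).1 * _ = 1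
        rw [← h3]
        exact mul_inv_cancel₀ h0))
    obtain ⟨b, hb⟩ := (isUnit_of_map_unit _ _ h4).exists_right_inv
    exact ⟨b, eq_inv_of_mul_eq_one_right (by rw [← map_mul, hb, map_one])⟩

omit [IsProper X.hom] in
theorem val_integral (A : Subalgebra k (Fn X)) {h : Fn X}
    (H : ∀ 𝒪 : ValuationSubring (Fn X), (∀ a ∈ A, a ∈ 𝒪) → h ∈ 𝒪) : IsIntegral A h := by
  have h1 : h ∈ (integralClosure (Subring.closure (A.toSubring : Set (Fn X))) (Fn X)).toSubring := by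
    rw [← iInf_valuationSubring_superset, Subring.mem_iInf]
    exact fun V => H V.1 V.2
  rw [Subring.closure_eq] at h1
  exact h1

theorem integral_chart {H : Dv X} {t : ι → Fn X} (ht : Free (fun _ => H) t) (i : ι) {h : Fn X}
    (hh : h ∈ B X (loc H (t i))) :
    IsIntegral (Algebra.adjoin k (Set.range fun j => t j / t i)) h := by
  refine val_integral _ fun 𝒪 hA => ?_
  obtain ⟨x, h1, h2⟩ := exists_center 𝒪 fun c => hA _ (Subalgebra.algebraMap_mem _ c)
  obtain ⟨j, hj⟩ := ht.cov x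
  have h3 : t i / t j ∈ O X x := B_le_O hj (ul_div (Gm_anti le_top (ht.mem i)) le_rfl).1
  have h4 : t i / t j ≠ 0 := div_ne_zero (ht.ne i) (ht.ne j)
  have h5 := (isU_iff.2 ⟨h4, h3, h2 _ h3 h4 (hA _ (by
    rw [inv_div]
    exact Algebra.subset_adjoin ⟨j, rfl⟩))⟩).mul (mem_loc.1 hj)
  rw [← mul_assoc, div_mul_cancel₀ _ (ht.ne j)] at h5
  exact h1 _ (B_le_O (mem_loc.2 h5) hh)

theorem finite_chart {H : Dv X} {t : ι → Fn X} (ht : Free (fun _ => H) t) (i : ι)
    (aff : IsAffineOpen (loc H (t i))) : ∃ s : Finset (Fn X), (∀ v ∈ s, v ∈ B X (loc H (t i))) ∧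
      ∀ v ∈ B X (loc H (t i)), ∃ c : Fn X → Fn X,
        (∀ w, c w ∈ Algebra.adjoin k (Set.range fun j => t j / t i)) ∧ ∑ w ∈ s, c w * w = v := by
  obtain ⟨G, hG⟩ := (Subalgebra.fg_iff_finiteType _).2 (aff_finiteType aff (gp_mem_loc.2 (ht.ne i)))
  have hA : Algebra.adjoin k (Set.range fun j => t j / t i) ≤ B X (loc H (t i)) :=
    Algebra.adjoin_le (by
      rintro _ ⟨j, rfl⟩
      exact (ul_div (Gm_anti le_top (ht.mem j)) le_rfl).1)
  have hG' : ∀ v ∈ (G : Set (Fn X)), v ∈ B X (loc H (t i)) := fun v hv =>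
    hG ▸ Algebra.subset_adjoin hv
  obtain ⟨s, hs⟩ := fg_adjoin_of_finite G.finite_toSet fun v hv => integral_chart ht i (hG' v hv)
  refine ⟨s, fun v hv => ?_, fun v hv => ?_⟩
  · have h1 : v ∈ Algebra.adjoin (Algebra.adjoin k (Set.range fun j => t j / t i))
        (G : Set (Fn X)) := by
      rw [← Subalgebra.mem_toSubmodule, ← hs]
      exact Submodule.subset_span hv
    exact Algebra.adjoin_induction hG' (fun a => hA a.2) (fun _ _ _ _ => add_mem)
      (fun _ _ _ _ => mul_mem) h1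
  · have h1 : v ∈ Submodule.span (Algebra.adjoin k (Set.range fun j => t j / t i))
        (s : Set (Fn X)) := by
      rw [hs, Subalgebra.mem_toSubmodule]
      rw [← hG] at hv
      exact Algebra.adjoin_induction (fun _ hx => Algebra.subset_adjoin hx)
        (fun c => Subalgebra.algebraMap_mem _ (algebraMap k (Algebra.adjoin k _) c)) (fun _ _ _ _ => add_mem)
        (fun _ _ _ _ => mul_mem) hv
    obtain ⟨c, -, hc⟩ := Submodule.mem_span_finset.1 h1
    exact ⟨fun w => c w, fun w => (c w).2, hc⟩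

theorem B_top [IsAlgClosed k] {h : Fn X} (hh : h ∈ B X ⊤) : ∃ c : k, algebraMap k (Fn X) c = h := by
  have h1 : IsIntegral (⊥ : Subalgebra k (Fn X)) h := val_integral _ fun 𝒪 hA => by
    obtain ⟨x, h1, -⟩ := exists_center 𝒪 fun c => hA _ (Subalgebra.algebraMap_mem _ c)
    exact h1 _ (B_le_O (U := ⊤) trivial hh)
  have h2 : IsIntegral k h := isIntegral_trans h h1
  exact minpoly.mem_range_of_degree_eq_one k h
    (IsAlgClosed.degree_eq_one_of_irreducible k (minpoly.irreducible h2))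

/-- the closure of a point -/
def valCl {T : Type} [TopologicalSpace T] (z : T) : IrreducibleCloseds T :=
  ⟨closure {z}, isIrreducible_singleton.closure, isClosed_closure⟩

theorem val_chain [Infinite k] (G : ι → Dv X) (hG : ∀ i, GG (G i)) (x : X.left) (S : Finset ι) :
    ∃ t : ι → Fn X, (∀ i ∈ S, t i ∈ Gm (G i) ⊤ ∧ x ∈ loc (G i) (t i)) ∧
      ∀ z, (∀ i ∈ S, z ∉ loc (G i) (t i)) → (S.card : ℕ∞) ≤ Order.coheight (valCl z) := by
  classical
  induction S using Finset.induction_on with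
  | empty => exact ⟨0, by simp, by simp⟩
  | insert j S hj ih =>
    obtain ⟨t, ht, hz⟩ := ih
    obtain ⟨C, hC, h1, h2, h3⟩ := NoetherianSpace.exists_finite_set_isClosed_irreducible
      (isClosed_biInter fun i (_ : i ∈ S) => (loc (G i) (t i)).isOpen.isClosed_compl)
    have h4 : ∀ c : C, ∃ η : X.left, closure {η} = c.1 := fun c =>
      ⟨_, (h2 c c.2).closure_genericPoint (h1 c c.2)⟩
    choose η hη using h4
    have := hC.to_subtype
    obtain ⟨u, hu, hu'⟩ := exists_avoid (Gm (G j) ⊤) (insert x (Set.range η))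
      ((Set.finite_range η).insert x)
      (fun a => (mp X a 1).comap (LinearMap.mulRight k ((G j).f a))) fun a _ => by
        obtain ⟨s, hs, hs'⟩ := hG j a
        exact ⟨s, hs, hs'.2⟩
    have h5 : ∀ a ∈ insert x (Set.range η), a ∈ loc (G j) u := fun a ha =>
      ⟨mem_Gm.1 hu a trivial, hu' a ha⟩
    have h6 : ∀ i ∈ S, Function.update t j u i = t i := fun i hi =>
      Function.update_of_ne (by rintro rfl; exact hj hi) _ _
    refine ⟨Function.update t j u, fun i hi => ?_, fun z hz' => ?_⟩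
    · rcases mem_insert.1 hi with rfl | hi
      · rw [Function.update_self]
        exact ⟨hu, h5 x (Set.mem_insert _ _)⟩
      · rw [h6 i hi]
        exact ht i hi
    · have h7 := hz' j (mem_insert_self _ _)
      rw [Function.update_self] at h7
      have h8 : z ∈ ⋃₀ C := by
        rw [← h3]
        exact Set.mem_iInter₂.2 fun i hi => h6 i hi ▸ hz' i (mem_insert_of_mem hi)
      obtain ⟨c, hc, hzc⟩ := h8
      have h9 : η ⟨c, hc⟩ ∈ ⋃₀ C := ⟨c, hc, (hη ⟨c, hc⟩).le (subset_closure rfl)⟩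
      rw [← h3] at h9
      have h10 : valCl z < valCl (η ⟨c, hc⟩) := by
        refine lt_of_le_not_ge (closure_minimal (Set.singleton_subset_iff.2
          ((hη ⟨c, hc⟩).ge hzc)) isClosed_closure) fun h => h7 ?_
        exact (specializes_iff_mem_closure.2 (h (subset_closure rfl))).mem_open
          (loc (G j) u).isOpen (h5 _ (Set.mem_insert_of_mem _ ⟨_, rfl⟩))
      rw [card_insert_of_notMem hj, Nat.cast_succ]
      exact (add_le_add_left (hz _ fun i hi => Set.mem_iInter₂.1 h9 i hi) _).trans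
        (Order.coheight_add_one_le h10)

theorem val_free [Infinite k] {g : ℕ} (hd : topologicalKrullDim X.left ≤ g)
    (G : Fin (g + 1) → Dv X) (hG : ∀ i, GG (G i)) (x : X.left) :
    ∃ t, Free G t ∧ ∀ i, x ∈ loc (G i) (t i) := by
  obtain ⟨t, h1, h2⟩ := val_chain G hG x univ
  refine ⟨t, ⟨fun i => (h1 i (mem_univ i)).1, fun i => ?_, fun z => ?_⟩,
    fun i => (h1 i (mem_univ i)).2⟩
  · exact left_ne_zero_of_mul (IsU.ne_zero (h1 i (mem_univ i)).2)
  · by_contra h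
    have h3 := (WithBot.coe_le_coe.2 (h2 z fun i _ hi => h ⟨i, hi⟩)).trans
      ((Order.coheight_le_krullDim _).trans hd)
    rw [card_univ, Fintype.card_fin] at h3
    have h4 : g + 1 ≤ g := by exact_mod_cast h3
    omega

theorem exists_free [Infinite k] {g : ℕ} (hd : topologicalKrullDim X.left ≤ g)
    (G : Fin (g + 1) → Dv X) (hG : ∀ i, GG (G i)) : ∃ t, Free G t :=
  (val_free hd G hG (gp X)).imp fun _ h => h.1

/-- the first section does not vanish at a given point (reindex by a transposition) -/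
theorem exists_free_at [Infinite k] {g : ℕ} (hd : topologicalKrullDim X.left ≤ g) {H : Dv X}
    (hH : GG H) (x : X.left) : ∃ t : Fin (g + 1) → Fn X, Free (fun _ => H) t ∧ x ∈ loc H (t 0) :=
  (val_free hd (fun _ => H) (fun _ => hH) x).imp fun _ h => ⟨h.1, h.2 0⟩

theorem Amp.exists_free {H : Dv X} (h : Amp H) : ∃ (e n : ℕ) (t : Fin n → Fn X), 0 < e ∧
    Free (fun _ => e • H) t ∧ ∀ i, IsAffineOpen (loc (e • H) (t i)) := by
  choose n s hn hs hx aff using h
  obtain ⟨T, hT⟩ := isCompact_univ.elim_finite_subcover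
    (fun x => (loc (n x • H) (s x) : Set X.left)) (fun x => (loc _ _).isOpen)
    fun x _ => Set.mem_iUnion.2 ⟨x, hx x⟩
  have he : 0 < ∏ x ∈ T, n x := prod_pos fun x _ => hn x
  have h1 : ∀ x : T, ∃ u, u ∈ Gm ((∏ x ∈ T, n x) • H) ⊤ ∧
      loc ((∏ x ∈ T, n x) • H) u = loc (n x • H) (s x) := fun x => by
    obtain ⟨c, hc⟩ := dvd_prod_of_mem n x.2
    rw [hc, mul_nsmul]
    exact ⟨s x ^ c, pow_mem_Gm (hs x) c, loc_pow (hs x) (Nat.pos_of_mul_pos_left (hc ▸ he))⟩
  choose u hu hu' using h1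
  refine ⟨_, T.card, fun i => u (T.equivFin.symm i), he, ⟨fun i => hu _, fun i => ?_, fun z => ?_⟩,
    fun i => ?_⟩
  · rw [← gp_mem_loc (D := (∏ x ∈ T, n x) • H), hu']
    exact gp_mem (hx _)
  · obtain ⟨x, hxT, hz⟩ := Set.mem_iUnion₂.1 (hT (Set.mem_univ z))
    refine ⟨T.equivFin ⟨x, hxT⟩, ?_⟩
    rw [Equiv.symm_apply_apply, hu']
    exact hz
  · rw [hu']
    exact aff _

theorem Free.cover {H : Dv X} {t : ι → Fn X} (ht : Free (fun _ => H) t)
    (aff : ∀ i, IsAffineOpen (loc H (t i))) : Cover fun i => loc H (t i) :=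
  ⟨aff, fun i => gp_mem_loc.2 (ht.ne i), ht.cov⟩

theorem Free.pl {Y : Sch k} [IsIntegral Y.left] (φ : Y ⟶ X) {G : ι → Dv X} {t : ι → Fn X}
    (ht : Free G t) (h : ∀ i, φ.left (gp Y) ∈ loc (G i) (t i)) :
    Free (fun i => pl φ (G i)) fun i => pbs φ (G i) (t i) :=
  ⟨fun i => pbs_mem_Gm le_top (ht.mem i),
    fun i => gp_mem_loc.1 ((pbs_mem_loc (mem_secs.1 (ht.mem i) _ trivial)).2 (h i)),
    fun y => (ht.cov (φ.left y)).imp fun i hi =>
      (pbs_mem_loc (mem_secs.1 (ht.mem i) _ trivial)).2 hi⟩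

end Pool.Agent.Work.MP_e57da2_ag
end

-- merged part: Pool.Agent.Work.MP_e57da2_ag.SV
section
/-!
# Serre vanishing, geometric form, over a noetherian base ring

Plans.  `sv_of_gen`: show `v ∈ lc s (gen s W' E) m n S ↔ v ∈ sys (st (M + m • H + n • G)) W U S` for nonempty `S`, then `serre_alg`, `lc_empty`, `Ex.mem_empty`
(`ι` is nonempty because `gp X ∈ W`) and `Ex.congr`.  (→) `gen s W' E m n ≤ Gm (M + m • H + n • G) W` (`gen_le` with the family `GmR`), and `mul_mem_Gm_iff`, `loc_prod`-like facts on `W`.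
(←) `ext_sec` for `∏ i ∈ S, s i` gives `c' ∈ Gm (M + m' • H + n • G) W`; fix `i ∈ S`; on `W ⊓ loc H (s i)` use `aff_dual` for `n • G` with `T` the products of `n` of the
`w l` to write `c' / s i ^ m' = ∑ w^β * c_β`, `c_β ∈ Gm M`; apply the hypothesis to the `c_β` (the exponent `b` can be increased) and multiply back.
`exists_gen`: on each chart `Gm M` is generated over `B` by finitely many `α` (`aff_dual` with `T = Gm M`), and `B` over `adjoin R (s j / s i)` by finitely many `v`;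
`E` is spanned by the `s i ^ a * (α * v)` (`ext_sec`, one `a` for all).  For `q ∈ adjoin R (s j / s i)` some `s i ^ b * q` lies in `span (range s) ^ b`.
-/

open CategoryTheory Limits AlgebraicGeometry TopologicalSpace Finset

namespace Pool.Agent.Work.MP_e57da2_ag

variable {k : Type} [Field k] {X : Sch k} [IsIntegral X.left] {ι κ : Type}
  (R : Type) [CommRing R] [Algebra R (Fn X)]

/-- sections as a module over `R` -/
noncomputable def GmR (D : Dv X) (V : X.left.Opens) : Submodule R (Fn X) :=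
  Submodule.span R (Gm D V : Set (Fn X))

variable {R}

theorem mem_GmR {D : Dv X} {V : X.left.Opens} (hR : ∀ r, algebraMap R (Fn X) r ∈ B X V)
    {v : Fn X} : v ∈ GmR R D V ↔ v ∈ Gm D V := by
  refine ⟨fun h => ?_, fun h => Submodule.subset_span h⟩
  induction h using Submodule.span_induction with
  | mem x hx => exact hx
  | zero => exact zero_mem _
  | add x y _ _ hx hy => exact add_mem hx hy
  | smul r x _ hx =>
    rw [Algebra.smul_def]
    exact B_mul_mem_Gm (hR r) hx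

theorem sv_pow {D E : Dv X} {U : X.left.Opens} {a c : Fn X} (hU : U ≤ loc D a) (j : ℕ) :
    a ^ j * c ∈ Gm (E + j • D) U ↔ c ∈ Gm E U :=
  mul_mem_Gm_iff fun x hx => by
    have := IsU.pow (mem_loc.1 (hU hx)) j
    rwa [mul_pow] at this

theorem sv_prod {W : X.left.Opens} {H : Dv X} {s : ι → Fn X} (hs : ∀ i, s i ∈ Gm H W)
    (S : Finset ι) : ∏ i ∈ S, s i ∈ Gm (S.card • H) W ∧
      W ⊓ loc (S.card • H) (∏ i ∈ S, s i) = W ⊓ S.inf fun i => loc H (s i) := by
  induction S using Finset.cons_induction with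
  | empty =>
    rw [prod_empty, card_empty, zero_nsmul, inf_empty, inf_top_eq, loc_zero]
    exact ⟨mem_Gm_zero.2 (one_mem _), inf_eq_left.2 fun x _ => isU_one⟩
  | cons i S hi ih =>
    rw [prod_cons, card_cons, succ_nsmul', inf_cons, loc_mul (hs i) ih.1]
    refine ⟨mul_mem_Gm (hs i) ih.1, ?_⟩
    rw [inf_right_comm, ih.2, inf_right_comm, inf_assoc]

variable (R) in
/-- an open set `W`, finite over projective space over `R` through the sections `s i` of `H` -/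
structure SData (W : X.left.Opens) (H : Dv X) (s : ι → Fn X) : Prop where
  gp : gp X ∈ W
  hR : ∀ r, algebraMap R (Fn X) r ∈ B X W
  mem : ∀ i, s i ∈ Gm H W
  ne : ∀ i, s i ≠ 0
  cov : ∀ x ∈ W, ∃ i, x ∈ loc H (s i)
  aff : ∀ i, IsAffineOpen (W ⊓ loc H (s i))
  fin : ∀ i, ∃ T : Finset (Fn X), (∀ v ∈ T, v ∈ B X (W ⊓ loc H (s i))) ∧
    ∀ v ∈ B X (W ⊓ loc H (s i)), ∃ c : Fn X → Fn X,
      (∀ w, c w ∈ Algebra.adjoin R (Set.range fun j => s j / s i)) ∧ ∑ w ∈ T, c w * w = v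

variable [IsProper X.hom] [IsNoetherianRing R] [Fintype ι] [LinearOrder ι] [Finite κ]
  {W : X.left.Opens} {H G : Dv X} {s : ι → Fn X} {w : κ → Fn X}

omit [IsProper X.hom] [IsNoetherianRing R] [Fintype ι] [LinearOrder ι] [Finite κ] in
theorem sv_le (d : SData R W H s) (hw : ∀ l, w l ∈ Gm G W) {M : Dv X} {E : Submodule R (Fn X)}
    (hEM : ∀ v ∈ E, v ∈ Gm M W) (m n : ℕ) {v : Fn X}
    (hv : v ∈ gen s (Submodule.span R (Set.range w)) E m n) : v ∈ Gm (M + m • H + n • G) W := by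
  refine (mem_GmR d.hR).1 (gen_le (P := fun m n => GmR R (M + m • H + n • G) W)
    ⟨fun i m n v hv => ?_, fun m n => gind_span_mul_le ?_⟩ (fun v hv => ?_) m n hv)
  · rw [mem_GmR d.hR] at hv ⊢
    rw [show M + (m + 1) • H + n • G = H + (M + m • H + n • G) by rw [succ_nsmul]; abel]
    exact mul_mem_Gm (d.mem i) hv
  · rintro _ ⟨l, rfl⟩ v hv
    rw [mem_GmR d.hR] at hv ⊢
    rw [show M + m • H + (n + 1) • G = G + (M + m • H + n • G) by rw [succ_nsmul]; abel]
    exact mul_mem_Gm (hw l) hv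
  · rw [mem_GmR d.hR, zero_nsmul, zero_nsmul, add_zero, add_zero]
    exact hEM v hv

omit [IsNoetherianRing R] [Fintype ι] [LinearOrder ι] [Finite κ] in
theorem sv_chart (d : SData R W H s) (hw : ∀ l, w l ∈ Gm G W)
    (wcov : ∀ x ∈ W, ∃ l, x ∈ loc G (w l)) {M : Dv X} {E : Submodule R (Fn X)} (i : ι)
    (hl : ∀ c ∈ Gm M (W ⊓ loc H (s i)), ∃ b : ℕ,
      s i ^ b * c ∈ Submodule.span R (Set.range s) ^ b * E) (m n : ℕ) :
    ∀ c ∈ Gm (M + m • H + n • G) (W ⊓ loc H (s i)),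
      c ∈ lc s (gen s (Submodule.span R (Set.range w)) E) m n {i} := by
  induction n with
  | zero =>
    intro c hc
    have h0 : s i ^ m ≠ 0 := pow_ne_zero _ (d.ne i)
    rw [zero_nsmul, add_zero, ← mul_div_cancel₀ c h0, sv_pow inf_le_right] at hc
    obtain ⟨b, hb⟩ := hl _ hc
    have h1 := SValg_pow (closed_gen (s := s) (W := Submodule.span R (Set.range w)) (E := E))
      (m := b) (n := 0) {i} m (v := s i ^ b * (c / s i ^ m)) (by simpa [gen] using hb)
    refine SValg_mem b ?_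
    rw [prod_singleton, card_singleton, mul_one] at h1 ⊢
    rwa [mul_left_comm, mul_div_cancel₀ c h0, add_comm] at h1
  | succ n ih =>
    intro c hc
    obtain ⟨r, u, β, hu, hβ, e⟩ := aff_dual (D := G) (d.aff i) ⟨d.gp, gp_mem_loc.2 (d.ne i)⟩
      (Set.range w) (by rintro _ ⟨l, rfl⟩; exact Gm_anti inf_le_left (hw l))
      fun x hx => by
        obtain ⟨l, hl⟩ := wcov x hx.1
        exact ⟨w l, ⟨l, rfl⟩, hl⟩
    rw [← one_mul c, ← e, sum_mul]
    refine sum_mem fun l _ => ?_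
    have h1 := mul_mem_Gm (hβ l) hc
    rw [show -G + (M + m • H + (n + 1) • G) = M + m • H + n • G by rw [succ_nsmul]; abel] at h1
    obtain ⟨j, hj⟩ := (mem_lc closed_gen).1 (ih _ h1)
    refine SValg_mem j ?_
    rw [mul_comm (β l), mul_assoc, mul_left_comm]
    exact closed_gen.2 _ _ (Submodule.mul_mem_mul (Submodule.subset_span (hu l)) hj)

theorem sv_of_gen (d : SData R W H s) (hw : ∀ l, w l ∈ Gm G W)
    (wcov : ∀ x ∈ W, ∃ l, x ∈ loc G (w l)) (M : Dv X) {E : Submodule R (Fn X)} (hE : E.FG)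
    (hEM : ∀ v ∈ E, v ∈ Gm M W)
    (hl : ∀ i, ∀ c ∈ Gm M (W ⊓ loc H (s i)), ∃ b : ℕ,
      s i ^ b * c ∈ Submodule.span R (Set.range s) ^ b * E) :
    ∃ m₀ : ℕ, ∀ m, m₀ ≤ m → ∀ n, Ex (sys (st (M + m • H + n • G)) W fun i => loc H (s i)) ∧
      ∀ v, v ∈ Gm (M + m • H + n • G) W ↔ v ∈ gen s (Submodule.span R (Set.range w)) E m n := by
  obtain ⟨m₀, h₀⟩ := serre_alg d.ne (Submodule.fg_span (R := R) (Set.finite_range w)) hE
  refine ⟨m₀, fun m hm n => ?_⟩
  have e : ∀ (S : Finset ι) (j : ℕ),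
      M + (m + j * S.card) • H + n • G = M + m • H + n • G + j • S.card • H := fun S j => by
    rw [add_nsmul, mul_nsmul']
    abel
  have h1 : ∀ (S : Finset ι) v, v ∈ lc s (gen s (Submodule.span R (Set.range w)) E) m n S →
      v ∈ Gm (M + m • H + n • G) (W ⊓ S.inf fun i => loc H (s i)) := fun S v hv => by
    obtain ⟨j, hj⟩ := (mem_lc closed_gen).1 hv
    have h2 := sv_le d hw hEM _ _ hj
    rw [e] at h2
    rw [← (sv_prod d.mem S).2]
    exact (sv_pow inf_le_right j).1 (Gm_anti inf_le_left h2)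
  have h2 : ∀ (S : Finset ι) v, S.Nonempty →
      v ∈ Gm (M + m • H + n • G) (W ⊓ S.inf fun i => loc H (s i)) →
      v ∈ lc s (gen s (Submodule.span R (Set.range w)) E) m n S := fun S v ⟨i, hi⟩ hv => by
    rw [← (sv_prod d.mem S).2] at hv
    obtain ⟨a, ha⟩ := ext_sec (sv_prod d.mem S).1 (prod_ne_zero_iff.2 fun i _ => d.ne i) hv
    have h3 := ha a le_rfl
    rw [← e] at h3
    obtain ⟨j, hj⟩ := (mem_lc closed_gen).1 (SValg_mono closed_gen (singleton_subset_iff.2 hi)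
      (sv_chart d hw wcov i (hl i) _ _ _ (Gm_anti inf_le_left h3)))
    refine SValg_mem (a + j) ?_
    rwa [pow_add, mul_comm (_ ^ a), mul_assoc, add_mul, ← add_assoc]
  have : Nonempty ι := ⟨(d.cov _ d.gp).choose⟩
  have h3 : ∀ (S : Finset ι) v, v ∈ lc s (gen s (Submodule.span R (Set.range w)) E) m n S ↔
      v ∈ Gm (M + m • H + n • G) (W ⊓ S.inf fun i => loc H (s i)) := fun S v => by
    refine ⟨h1 S v, fun hv => ?_⟩
    rcases S.eq_empty_or_nonempty with rfl | hS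
    · exact (h₀ m hm n).mem_empty fun i => h2 _ v (singleton_nonempty i)
        (Gm_anti (inf_le_inf_left _ (Finset.inf_mono (empty_subset _))) hv)
    · exact h2 S v hS hv
  refine ⟨(h₀ m hm n).congr h3, fun v => ?_⟩
  have h4 := h3 ∅ v
  rw [lc_empty, inf_empty, inf_top_eq] at h4
  exact h4.symm

omit [IsNoetherianRing R] [Fintype ι] [LinearOrder ι] in
theorem sv_span (d : SData R W H s) (M : Dv X) (i : ι) : ∃ A : Set (Fn X), A.Finite ∧
    (∀ c ∈ A, c ∈ Gm M (W ⊓ loc H (s i))) ∧ ∀ c ∈ Gm M (W ⊓ loc H (s i)),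
      c ∈ Submodule.span (Algebra.adjoin R (Set.range fun j => s j / s i)) A := by
  obtain ⟨r, α, β, hα, hβ, e⟩ := aff_dual (D := M) (d.aff i) ⟨d.gp, gp_mem_loc.2 (d.ne i)⟩
    (Gm M (W ⊓ loc H (s i))) (fun _ h => h) fun x hx => aff_gen (d.aff i) hx M
  obtain ⟨T, hT, hT'⟩ := d.fin i
  refine ⟨Set.image2 (· * ·) T (Set.range α), T.finite_toSet.image2 _ (Set.finite_range α), ?_,
    fun c hc => ?_⟩
  · rintro _ ⟨v, hv, _, ⟨l, rfl⟩, rfl⟩
    exact B_mul_mem_Gm (hT v hv) (hα l)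
  · rw [← one_mul c, ← e, sum_mul]
    refine sum_mem fun l _ => ?_
    have h1 := mul_mem_Gm (hβ l) hc
    rw [neg_add_cancel, mem_Gm_zero] at h1
    obtain ⟨q, hq, e'⟩ := hT' _ h1
    rw [mul_right_comm, ← e', sum_mul]
    refine sum_mem fun v hv => ?_
    rw [mul_assoc]
    exact Submodule.smul_mem _ (⟨q v, hq v⟩ : Algebra.adjoin R _)
      (Submodule.subset_span ⟨v, hv, _, ⟨l, rfl⟩, rfl⟩)

theorem sv_adjoin {R K ι : Type} [CommRing R] [Field K] [Algebra R K] {s : ι → K} {i : ι}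
    (hs : s i ≠ 0) {E : Submodule R K} {q : K}
    (hq : q ∈ Algebra.adjoin R (Set.range fun j => s j / s i)) :
    ∀ x ∈ lc s (gen s ⊥ E) 0 0 {i}, q * x ∈ lc s (gen s ⊥ E) 0 0 {i} := by
  induction hq using Algebra.adjoin_induction with
  | mem q hq =>
    obtain ⟨j, rfl⟩ := hq
    intro x hx
    obtain ⟨b, hb⟩ := (mem_lc closed_gen).1 hx
    refine SValg_mem (b + 1) ?_
    rw [prod_singleton, card_singleton, mul_one] at hb ⊢
    rw [show s i ^ (b + 1) * (s j / s i * x) = s j * (s i ^ b * x) by field_simp; ring]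
    exact closed_gen.1 j _ _ _ hb
  | algebraMap r =>
    intro x hx
    rw [← Algebra.smul_def]
    exact Submodule.smul_mem _ r hx
  | add a b _ _ ha hb =>
    intro x hx
    rw [add_mul]
    exact add_mem (ha x hx) (hb x hx)
  | mul a b _ _ ha hb =>
    intro x hx
    rw [mul_assoc]
    exact ha _ (hb x hx)

theorem exists_gen (d : SData R W H s) (M : Dv X) : ∃ (a : ℕ) (E : Submodule R (Fn X)), E.FG ∧
    (∀ v ∈ E, v ∈ Gm (M + a • H) W) ∧ ∀ i, ∀ c ∈ Gm (M + a • H) (W ⊓ loc H (s i)), ∃ b : ℕ,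
      s i ^ b * c ∈ Submodule.span R (Set.range s) ^ b * E := by
  choose A hA hA₁ hA₂ using sv_span d M
  obtain ⟨a, ha⟩ := (Filter.eventually_all.2 fun i => (Filter.eventually_all_finite (hA i)).2
    fun c hc => Filter.eventually_atTop.2 (ext_sec (d.mem i) (d.ne i) (hA₁ i c hc))).exists
  refine ⟨a, Submodule.span R (⋃ i, (s i ^ a * ·) '' A i),
    Submodule.fg_span (Set.finite_iUnion fun i => (hA i).image _), fun v hv => ?_, fun i c hc => ?_⟩
  · refine (mem_GmR d.hR).1 (Submodule.span_mono (Set.iUnion_subset fun i => ?_) hv)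
    rintro _ ⟨c, hc, rfl⟩
    exact ha i c hc
  · have h0 : s i ^ a ≠ 0 := pow_ne_zero _ (d.ne i)
    have h1 : ∀ x ∈ Submodule.span (Algebra.adjoin R (Set.range fun j => s j / s i)) (A i),
        s i ^ a * x ∈ lc s (gen s ⊥ (Submodule.span R (⋃ i, (s i ^ a * ·) '' A i))) 0 0 {i} := by
      intro x hx
      induction hx using Submodule.span_induction with
      | mem x hx =>
        refine SValg_mem 0 ?_
        rw [pow_zero, one_mul, zero_mul, add_zero, gen_zero_zero]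
        exact Submodule.subset_span (Set.mem_iUnion.2 ⟨i, x, hx, rfl⟩)
      | zero =>
        rw [mul_zero]
        exact zero_mem _
      | add x y _ _ hx hy =>
        rw [mul_add]
        exact add_mem hx hy
      | smul q x _ hx =>
        rw [mul_smul_comm]
        exact sv_adjoin (d.ne i) q.2 _ hx
    rw [← mul_div_cancel₀ c h0, sv_pow inf_le_right] at hc
    have h2 := h1 _ (hA₂ i _ hc)
    rw [mul_div_cancel₀ c h0] at h2
    obtain ⟨b, hb⟩ := (mem_lc closed_gen).1 h2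
    exact ⟨b, by simpa [gen] using hb⟩

/-- the untwisted form: vanishing, finiteness and generation -/
theorem serre_rel (d : SData R W H s) (M : Dv X) : ∃ a : ℕ, ∀ m, a ≤ m →
    Ex (sys (st (M + m • H)) W fun i => loc H (s i)) ∧ (GmR R (M + m • H) W).FG ∧
      GmR R (M + (m + 1) • H) W = Submodule.span R (Set.range s) * GmR R (M + m • H) W := by
  obtain ⟨a, E, hE, hEM, hl⟩ := exists_gen d M
  obtain ⟨m₀, h₀⟩ := sv_of_gen (G := 0) (w := fun _ : Unit => 1) d
    (fun _ => mem_Gm_zero.2 (one_mem _)) (fun x _ => ⟨(), by rw [loc_zero]; exact isU_one⟩)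
    (M + a • H) hE hEM hl
  have e : ∀ m : ℕ, M + a • H + m • H + 0 • (0 : Dv X) = M + (a + m) • H := fun m => by
    rw [add_nsmul, zero_nsmul, add_zero, add_assoc]
  have h1 : ∀ m, m₀ ≤ m → GmR R (M + (a + m) • H) W =
      gen s (Submodule.span R (Set.range fun _ : Unit => 1)) E m 0 := fun m hm => by
    ext v
    rw [mem_GmR d.hR, ← e]
    exact (h₀ m hm 0).2 v
  refine ⟨a + m₀, fun m hm => ?_⟩
  obtain ⟨m, rfl⟩ : ∃ m', m = a + m' := ⟨m - a, by omega⟩
  refine ⟨e m ▸ (h₀ m (by omega) 0).1, ?_, ?_⟩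
  · rw [h1 m (by omega)]
    exact gen_fg (Submodule.fg_span (Set.finite_range _)) hE m 0
  · rw [add_assoc a, h1 m (by omega), h1 (m + 1) (by omega), gind_succ_eq]

end Pool.Agent.Work.MP_e57da2_ag
end
end

-- merged part: Pool.Agent.Work.MP_e57da2_ag.Ser
section
/-!
# The theorems of Serre on a projective variety

Plans.  Take `e, t` from `Amp.exists_free` and apply `SV.lean` with `R = k`, `W = ⊤` to the finitely many twists `M + r • H`, `r < e`.
`Amp.fin`: multiplication by `t i ^ m` embeds `Gm M ⊤` in `Gm (M + m • e • H) ⊤`.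
`Amp.gg`: `aff_gen` and `ext_sec` on each chart, compactness (or `GG.exists_finite`-like argument); for the residues `r < e` use the twists.
`Amp.aff`: `s ^ e` is a section of `e • H`; by generation `s ^ (e (m+1)) = ∑ t i * h i`, so `1 = ∑ (t i / s ^ e) * (h i / s ^ (e m))` in `B (loc H s)`;
`loc H s ⊓ ul (t i / s ^ e) = loc (t i) ⊓ ul (s ^ e / t i)` is affine (`ul_div`, `aff_basic`); `aff_of_partition`.
`Amp.growth`: `e • H` is ample and globally generated, `exists_free` gives `g + 1` sections, `Amp.gen_eq`, `finrank_pow_mul_le`.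
`restr_surj`: take `t` free for `H` (drop zero sections of `GG.exists_finite`); on `C` keep the indices with `φ (gp C) ∈ loc H (t i)` (`Free.pl`-like; the others pull back to `0`).
Apply `sv_of_gen` on `C` with `M = pl φ (a • H)`, `E` the image of `Gm (a • H) ⊤`, `a` from `Amp.gen_eq`; the hypothesis follows from `pb_B_surjective` and `ext_sec` on `X`.
-/

open CategoryTheory Limits AlgebraicGeometry TopologicalSpace Finset Module

namespace Pool.Agent.Work.MP_e57da2_ag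

variable {k : Type} [Field k] {X : Sch k} [IsIntegral X.left] [IsProper X.hom] {ι : Type}
  {H G : Dv X}

omit [IsProper X.hom] in
theorem ser_GmR (D : Dv X) (V : X.left.Opens) : GmR k D V = Gm D V := Submodule.span_eq _

theorem ser_residue {P : ℕ → Prop} {e : ℕ} (he : 0 < e)
    (h : ∀ r, ∃ q₀, ∀ q, q₀ ≤ q → P (r + q * e)) : ∃ m₀, ∀ m, m₀ ≤ m → P m := by
  choose q₀ hq using h
  refine ⟨(range e).sup q₀ * e, fun m hm => ?_⟩
  have h1 : q₀ (m % e) ≤ m / e :=
    (le_sup (f := q₀) (mem_range.2 (Nat.mod_lt m he))).trans ((Nat.le_div_iff_mul_le he).2 hm)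
  have := hq _ _ h1
  rwa [Nat.mod_add_div'] at this

omit [IsProper X.hom] in
theorem ser_pow_le {P : Submodule k (Fn X)} (hP : P ≤ Gm H ⊤) (b : ℕ) : P ^ b ≤ Gm (b • H) ⊤ := by
  induction b with
  | zero =>
    rw [pow_zero, zero_nsmul, Submodule.one_le]
    exact mem_Gm_zero.2 (one_mem _)
  | succ b ih =>
    rw [pow_succ, succ_nsmul]
    exact Submodule.mul_le.2 fun a ha c hc => mul_mem_Gm (ih ha) (hP hc)

omit [IsProper X.hom] in
theorem ser_span_le {t : ι → Fn X} (ht : ∀ i, t i ∈ Gm H ⊤) :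
    Submodule.span k (Set.range t) ≤ Gm H ⊤ :=
  Submodule.span_le.2 (Set.range_subset_iff.2 ht)

omit [IsProper X.hom] in
theorem ser_unit {P Q : Submodule k (Fn X)} (hP : P ≤ Gm H ⊤) (hQ : Q ≤ Gm G ⊤) {v : Fn X}
    (hv : v ∈ P * Q) {x : X.left} (hx : x ∈ loc (H + G) v) : ∃ q ∈ Q, x ∈ loc G q := by
  by_contra hn
  refine (mem_loc.1 hx).2 ?_
  refine Submodule.mul_induction_on hv (fun a ha c hc => ?_) fun a c ha hc => ?_
  · have h1 : c * G.f x ∈ mp X x 1 := by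
      by_contra h2
      exact hn ⟨c, hc, mem_loc.2 ⟨mem_Gm.1 (hQ hc) x trivial, h2⟩⟩
    rw [f_add, mul_mul_mul_comm]
    exact O_mul_mem_mp (mem_Gm.1 (hP ha) x trivial) h1
  · rw [add_mul]
    exact add_mem ha hc

omit [IsProper X.hom] in
theorem ser_loc_pow {s : Fn X} (b : ℕ) : loc H s ≤ loc (b • H) (s ^ b) := fun x hx => by
  have := IsU.pow (mem_loc.1 hx) b
  rw [mul_pow] at this
  exact mem_loc.2 this

omit [IsProper X.hom] in
theorem ser_loc_mul {s c : Fn X} {x : X.left} (hs : x ∈ loc H s) (hc : x ∈ loc G c) :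
    x ∈ loc (H + G) (s * c) := by
  rw [mem_loc, f_add, mul_mul_mul_comm]
  exact IsU.mul (mem_loc.1 hs) (mem_loc.1 hc)

omit [IsProper X.hom] in
theorem ser_sum [Fintype ι] {t : ι → Fn X} {Q : Submodule k (Fn X)} {v : Fn X}
    (hv : v ∈ Submodule.span k (Set.range t) * Q) :
    ∃ h : ι → Fn X, (∀ i, h i ∈ Q) ∧ ∑ i, t i * h i = v := by
  refine Submodule.mul_induction_on hv (fun a ha c hc => ?_) ?_
  · obtain ⟨d, rfl⟩ := (Submodule.mem_span_range_iff_exists_fun k).1 ha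
    exact ⟨fun i => d i • c, fun i => Q.smul_mem _ hc, by simp [sum_mul]⟩
  · rintro _ _ ⟨a, ha, rfl⟩ ⟨c, hc, rfl⟩
    exact ⟨a + c, fun i => add_mem (ha i) (hc i), by simp [mul_add, sum_add_distrib]⟩

omit [IsProper X.hom] in
theorem ser_gg {t : ι → Fn X} (ht : Free (fun _ => H) t) : GG H := fun x =>
  (ht.cov x).elim fun i hi => ⟨t i, ht.mem i, hi⟩

theorem Free.sdata {t : ι → Fn X} (ht : Free (fun _ => H) t)
    (aff : ∀ i, IsAffineOpen (loc H (t i))) : SData k ⊤ H t where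
  gp := trivial
  hR r := (B X ⊤).algebraMap_mem r
  mem := ht.mem
  ne := ht.ne
  cov x _ := ht.cov x
  aff i := by rw [top_inf_eq]; exact aff i
  fin i := by rw [top_inf_eq]; exact finite_chart ht i (aff i)

theorem Amp.fin (h : Amp H) (M : Dv X) : FiniteDimensional k (Gm M ⊤) := by
  obtain ⟨e, n, t, -, ht, aff⟩ := h.exists_free
  obtain ⟨a, ha⟩ := serre_rel (ht.sdata aff) M
  have h1 := (ha a le_rfl).2.1
  rw [ser_GmR] at h1
  have : FiniteDimensional k (Gm (M + a • e • H) ⊤) := Module.Finite.iff_fg.2 h1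
  obtain ⟨i, -⟩ := ht.cov (gp X)
  refine FiniteDimensional.of_injective (V₂ := Gm (M + a • e • H) ⊤)
    ((LinearMap.mulRight k (t i ^ a)).restrict fun v hv =>
      mul_mem_Gm hv (pow_mem_Gm (ht.mem i) a)) fun u v huv => ?_
  exact Subtype.ext (mul_right_cancel₀ (pow_ne_zero a (ht.ne i)) (congrArg Subtype.val huv))

theorem Amp.van (h : Amp H) (hG : GG G) (M : Dv X) :
    ∃ m₀ : ℕ, ∀ m, m₀ ≤ m → ∀ n : ℕ, Van (M + m • H + n • G) := by
  obtain ⟨e, n, t, he, ht, aff⟩ := h.exists_free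
  obtain ⟨n', w, hw, wcov⟩ := hG.exists_finite
  refine ser_residue he fun r => ?_
  obtain ⟨a, E, hE, hEM, hl⟩ := exists_gen (ht.sdata aff) (M + r • H)
  obtain ⟨m₀, hm⟩ := sv_of_gen (ht.sdata aff) hw (fun x _ => wcov x) _ hE hEM hl
  refine ⟨a + m₀, fun q hq j => ?_⟩
  obtain ⟨m, rfl⟩ := Nat.exists_eq_add_of_le (le_of_add_le_left hq)
  have e1 : M + (r + (a + m) * e) • H + j • G = M + r • H + a • e • H + m • e • H + j • G := by
    module
  rw [e1]
  exact van_of_cover (qc_st _) (ht.cover aff) (hm m (by omega) j).1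

theorem Amp.gg (h : Amp H) (M : Dv X) : ∃ m₀ : ℕ, ∀ m, m₀ ≤ m → GG (M + m • H) := by
  obtain ⟨e, n, t, he, ht, aff⟩ := h.exists_free
  refine ser_residue he fun r => ?_
  obtain ⟨a, E, -, hEM, hl⟩ := exists_gen (ht.sdata aff) (M + r • H)
  have h1 : GG (M + r • H + a • e • H) := fun x => by
    obtain ⟨i, hi⟩ := ht.cov x
    obtain ⟨c, hc, hx⟩ := aff_gen (aff i) hi (M + r • H + a • e • H)
    obtain ⟨b, hb⟩ := hl i c (by rwa [top_inf_eq])
    obtain ⟨q, hq, hqx⟩ := ser_unit (ser_pow_le (ser_span_le ht.mem) b) hEM hb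
      (ser_loc_mul (ser_loc_pow b hi) hx)
    exact ⟨q, hEM q hq, hqx⟩
  refine ⟨a, fun q hq => ?_⟩
  obtain ⟨m, rfl⟩ := Nat.exists_eq_add_of_le hq
  have e1 : M + (r + (a + m) * e) • H = M + r • H + a • e • H + m • e • H := by module
  rw [e1]
  exact h1.add ((ser_gg ht).nsmul m)

theorem Amp.aff (h : Amp H) {s : Fn X} (hs : s ∈ Gm H ⊤) : IsAffineOpen (loc H s) := by
  rcases eq_or_ne s 0 with rfl | h0
  · have : loc H 0 = ⊥ := eq_bot_iff.2 fun x hx => ((mem_loc.1 hx).ne_zero (zero_mul _)).elim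
    rw [this]
    exact isAffineOpen_bot _
  obtain ⟨e, n, t, he, ht, aff⟩ := h.exists_free
  obtain ⟨a, ha⟩ := serre_rel (ht.sdata aff) 0
  have h1 := (ha a le_rfl).2.2
  rw [ser_GmR, ser_GmR, zero_add, zero_add] at h1
  have hσ := pow_mem_Gm hs e
  have hσ0 := pow_ne_zero e h0
  rw [← loc_pow hs he]
  generalize s ^ e = σ at hσ hσ0
  obtain ⟨c, hc, hsum⟩ := ser_sum (h1 ▸ pow_mem_Gm hσ (a + 1))
  refine aff_of_partition (gp_mem_loc.2 hσ0) (fun i => t i / σ) (fun i => c i / σ ^ a)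
    (fun i => (ul_div (Gm_anti le_top (ht.mem i)) le_rfl).1)
    (fun i => (ul_div (Gm_anti le_top (hc i)) (ser_loc_pow a)).1) ?_ fun i => ?_
  · have : ∀ i, c i / σ ^ a * (t i / σ) = t i * c i / σ ^ (a + 1) := fun i => by
      field_simp
      ring
    simp only [this]
    rw [← sum_div, hsum, div_self (pow_ne_zero _ hσ0)]
  · have h2 := ul_div (Gm_anti le_top hσ) (le_refl (loc (e • H) (t i)))
    rw [(ul_div (Gm_anti le_top (ht.mem i)) le_rfl).2, inf_comm, ← h2.2]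
    exact aff_basic (aff i) h2.1

theorem Amp.gen_eq [Finite ι] (h : Amp H) {t : ι → Fn X} (ht : Free (fun _ => H) t) (M : Dv X) :
    ∃ a : ℕ, ∀ m : ℕ, Gm (M + (a + m) • H) ⊤ =
      Submodule.span k (Set.range t) ^ m * Gm (M + a • H) ⊤ := by
  let := Fintype.ofFinite ι
  let := LinearOrder.lift' (Fintype.equivFin ι) (Equiv.injective _)
  obtain ⟨a, ha⟩ := serre_rel (ht.sdata fun i => h.aff (ht.mem i)) M
  refine ⟨a, fun m => ?_⟩
  induction m with
  | zero => rw [pow_zero, one_mul, add_zero]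
  | succ m ih =>
    have h1 := (ha (a + m) (Nat.le_add_right a m)).2.2
    rw [ser_GmR, ser_GmR, ih, ← mul_assoc, ← pow_succ'] at h1
    exact h1

theorem Amp.growth [Infinite k] (h : Amp H) {g : ℕ} (hd : topologicalKrullDim X.left ≤ g)
    (M : Dv X) : ∃ C : ℕ, ∀ m : ℕ, h0 (M + m • H) ≤ C * (m + 1) ^ g := by
  obtain ⟨e, n, t', he, ht', -⟩ := h.exists_free
  obtain ⟨t, ht⟩ := MP_e57da2_ag.exists_free hd (fun _ => e • H) fun _ => ser_gg ht'
  have key : ∀ r : ℕ, ∃ C : ℕ, ∀ q : ℕ, h0 (M + (r + q * e) • H) ≤ C * (q + 1) ^ g := fun r => by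
    obtain ⟨a, ha⟩ := (h.nsmul he).gen_eq ht (M + r • H)
    refine ⟨h0 (M + r • H + a • e • H), fun q => ?_⟩
    have := h.fin (M + (r + q * e) • H + a • e • H)
    have := h.fin (M + r • H + a • e • H)
    refine (h0_le_add (pow_mem_Gm (ht.mem 0) a) (pow_ne_zero a (ht.ne 0))).trans ?_
    have e1 : M + (r + q * e) • H + a • e • H = M + r • H + (a + q) • e • H := by module
    rw [e1, h0, ha]
    exact finrank_pow_mul_le t _ q
  choose C hC using key
  refine ⟨(range e).sup C, fun m => ?_⟩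
  have h1 := hC (m % e) (m / e)
  rw [Nat.mod_add_div'] at h1
  refine h1.trans (Nat.mul_le_mul (le_sup (f := C) (mem_range.2 (Nat.mod_lt m he))) ?_)
  exact Nat.pow_le_pow_left (Nat.succ_le_succ (Nat.div_le_self m e)) g

omit [IsProper X.hom] in
theorem GG.exists_ne_zero (h : GG G) : ∃ s ∈ Gm G ⊤, s ≠ 0 :=
  (h (gp X)).imp fun _ hs => ⟨hs.1, gp_mem_loc.1 hs.2⟩

section

variable {C : Sch k} [IsIntegral C.left] (φ : C ⟶ X)

/-- the restrictions of the global sections -/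
noncomputable def serI (D : Dv X) : Submodule k (Fn C) :=
  LinearMap.range (pbsL (U := ⊤) φ D trivial)

/-- the global sections with restriction in `T` -/
noncomputable def serQ (D : Dv X) (T : Submodule k (Fn C)) : Submodule k (Fn X) :=
  (T.comap (pbsL (U := ⊤) φ D trivial)).map (Gm D ⊤).subtype

omit [IsProper X.hom]

variable {φ}

theorem ser_mem_I {v : Fn C} : v ∈ serI φ H ↔ ∃ u ∈ Gm H ⊤, pbs φ H u = v :=
  ⟨fun ⟨u, hu⟩ => ⟨u, u.2, hu⟩, fun ⟨u, hu, e⟩ => ⟨⟨u, hu⟩, e⟩⟩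

theorem ser_mem_Q {T : Submodule k (Fn C)} {u : Fn X} :
    u ∈ serQ φ H T ↔ u ∈ Gm H ⊤ ∧ pbs φ H u ∈ T :=
  ⟨fun ⟨v, hv, e⟩ => e ▸ ⟨v.2, hv⟩, fun ⟨hu, e⟩ => ⟨⟨u, hu⟩, e, rfl⟩⟩

theorem ser_pbs_mul {a b : Fn X} (ha : a ∈ Gm H ⊤) (hb : b ∈ Gm G ⊤) :
    pbs φ (H + G) (a * b) = pbs φ H a * pbs φ G b :=
  pbs_mul (y := gp C) (mem_secs.1 ha _ trivial) (mem_secs.1 hb _ trivial)

theorem ser_pbs_one : pbs φ 0 1 = 1 := by rw [pbs_zero_dv, pb_one]

theorem ser_I_mul : serI φ H * serI φ G ≤ serI φ (H + G) := Submodule.mul_le.2 fun a ha b hb => by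
  obtain ⟨u, hu, rfl⟩ := ser_mem_I.1 ha
  obtain ⟨v, hv, rfl⟩ := ser_mem_I.1 hb
  exact ser_mem_I.2 ⟨u * v, mul_mem_Gm hu hv, ser_pbs_mul hu hv⟩

theorem ser_I_pow {P : Submodule k (Fn C)} (hP : P ≤ serI φ H) (b : ℕ) :
    P ^ b ≤ serI φ (b • H) := by
  induction b with
  | zero =>
    rw [pow_zero, zero_nsmul, Submodule.one_le]
    exact ser_mem_I.2 ⟨1, mem_Gm_zero.2 (one_mem _), ser_pbs_one⟩
  | succ b ih =>
    rw [pow_succ, succ_nsmul]
    exact (mul_le_mul' ih hP).trans ser_I_mul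

theorem ser_Q_mul {T T' : Submodule k (Fn C)} :
    serQ φ H T * serQ φ G T' ≤ serQ φ (H + G) (T * T') := Submodule.mul_le.2 fun a ha b hb => by
  rw [ser_mem_Q] at ha hb ⊢
  refine ⟨mul_mem_Gm ha.1 hb.1, ?_⟩
  rw [ser_pbs_mul ha.1 hb.1]
  exact Submodule.mul_mem_mul ha.2 hb.2

theorem ser_Q_pow {P : Submodule k (Fn X)} {T : Submodule k (Fn C)} (hP : P ≤ serQ φ H T) (b : ℕ) :
    P ^ b ≤ serQ φ (b • H) (T ^ b) := by
  induction b with
  | zero =>
    rw [pow_zero, pow_zero, zero_nsmul, Submodule.one_le]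
    refine ser_mem_Q.2 ⟨mem_Gm_zero.2 (one_mem _), ?_⟩
    rw [ser_pbs_one]
    exact Submodule.one_le.1 le_rfl
  | succ b ih =>
    rw [pow_succ, pow_succ, succ_nsmul]
    exact (mul_le_mul' ih hP).trans ser_Q_mul

end

theorem ser_chart (h : Amp H) {C : Sch k} [IsIntegral C.left] (φ : C ⟶ X)
    [IsClosedImmersion φ.left] {P : Submodule k (Fn X)} {T : Submodule k (Fn C)}
    (hP : P ≤ serQ φ H T) {a : ℕ} (ha : ∀ m : ℕ, Gm ((a + m) • H) ⊤ = P ^ m * Gm (a • H) ⊤)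
    {w : Fn X} (hw : w ∈ Gm H ⊤) (hg : φ.left (gp C) ∈ loc H w) {c : Fn C}
    (hc : c ∈ Gm (pl φ (a • H)) (⊤ ⊓ loc (pl φ H) (pbs φ H w))) :
    ∃ b : ℕ, pbs φ H w ^ b * c ∈ T ^ b * serI φ (a • H) := by
  have hne : pbs φ H w ≠ 0 := (gp_mem_loc (D := pl φ H)).1 (by rw [loc_pbs hw]; exact hg)
  rw [top_inf_eq, map_nsmul] at hc
  have h1 := (ul_div hc (ser_loc_pow a)).1
  rw [loc_pbs hw] at h1
  have hg' : gp C ∈ φ.left ⁻¹ᵁ loc H w := hg
  obtain ⟨u, hu, e⟩ := pb_B_surjective (φ := φ) (U := loc H w) (h.aff hw) hg' h1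
  have hw0 : w ≠ 0 := gp_mem_loc.1 (gp_mem hg)
  obtain ⟨b, hb⟩ := ext_sec (M := 0) hw hw0 (by rw [top_inf_eq]; exact mem_Gm_zero.2 hu)
  have h2 := hb (a + b) (Nat.le_add_left b a)
  rw [zero_add, ha] at h2
  have h4 : Gm (a • H) ⊤ ≤ serQ φ (a • H) (serI φ (a • H)) := fun v hv =>
    ser_mem_Q.2 ⟨hv, ser_mem_I.2 ⟨v, hv, rfl⟩⟩
  have h3 := (ser_mem_Q.1 (((mul_le_mul' (ser_Q_pow hP b) h4).trans ser_Q_mul) h2)).2
  refine ⟨b, ?_⟩
  have hst := mem_secs.1 hw (φ.left (gp C)) trivial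
  rw [← add_nsmul, add_comm b a, mul_comm (w ^ (a + b)), pbs_O_mul (B_le_O hg hu)
    (mem_secs.1 (pow_mem_Gm hw _) _ trivial), pbs_pow hst, e] at h3
  have e2 : pbs φ H w ^ b * c = c / pbs φ H w ^ a * pbs φ H w ^ (a + b) := by
    field_simp
    ring
  rwa [e2]

theorem restr_surj (h : Amp H) (hg : GG H) {C : Sch k} [IsIntegral C.left] [IsProper C.hom]
    (φ : C ⟶ X) [IsClosedImmersion φ.left] :
    ∃ m₀ : ℕ, ∀ m, m₀ ≤ m → h0 (pl φ (m • H)) = rk (m • H) (φ.left (gp C)) := by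
  obtain ⟨n, w, hw, wcov⟩ := hg.exists_finite
  have ht : Free (fun _ : {l // w l ≠ 0} => H) fun l => w l :=
    ⟨fun l => hw l, fun l => l.2, fun x => (wcov x).elim fun l hl =>
      ⟨⟨l, gp_mem_loc.1 (gp_mem hl)⟩, hl⟩⟩
  let := Fintype.ofFinite {l // φ.left (gp C) ∈ loc H (w l)}
  have hs : Free (fun _ : {l // φ.left (gp C) ∈ loc H (w l)} => pl φ H) fun l => pbs φ H (w l) := by
    refine ⟨fun l => pbs_mem_Gm (U := ⊤) le_top (hw l),
      fun l => (gp_mem_loc (D := pl φ H)).1 ?_, fun y => ?_⟩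
    · rw [loc_pbs (hw l)]
      exact l.2
    · obtain ⟨l, hl⟩ := wcov (φ.left y)
      refine ⟨⟨l, (spec_gp φ y).mem_open (loc H (w l)).isOpen hl⟩, ?_⟩
      rw [loc_pbs (hw l)]
      exact hl
  obtain ⟨a, ha⟩ := h.gen_eq ht 0
  simp only [zero_add] at ha
  have hfin := fun D => h.fin D
  have hI : ∀ D : Dv X, serI φ D ≤ Gm (pl φ D) ⊤ := fun D v hv => by
    obtain ⟨u, hu, rfl⟩ := ser_mem_I.1 hv
    exact pbs_mem_Gm (U := ⊤) le_top hu
  have hP : Submodule.span k (Set.range fun l : {l // w l ≠ 0} => w l) ≤ serQ φ H (Submodule.span k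
      (Set.range fun l : {l // φ.left (gp C) ∈ loc H (w l)} => pbs φ H (w l))) := by
    refine Submodule.span_le.2 (Set.range_subset_iff.2 fun l => ser_mem_Q.2 ⟨hw l, ?_⟩)
    by_cases hl : φ.left (gp C) ∈ loc H (w l)
    · exact Submodule.subset_span ⟨⟨l, hl⟩, rfl⟩
    · rw [(pbs_eq_zero (mem_secs.1 (hw l) _ trivial)).2]
      · exact zero_mem _
      · by_contra h2
        exact hl (mem_loc.2 ⟨mem_Gm.1 (hw l) _ trivial, h2⟩)
  have hE : (serI φ (a • H)).FG := Module.Finite.iff_fg.1 (LinearMap.finiteDimensional_range _)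
  obtain ⟨m₀, hm⟩ := sv_of_gen (G := 0) (w := fun _ : Unit => 1)
    (hs.sdata fun i => (h.pl φ).aff (hs.mem i)) (fun _ => mem_Gm_zero.2 (one_mem _))
    (fun x _ => ⟨(), mem_loc.2 (by rw [f_zero, mul_one]; exact isU_one)⟩) (pl φ (a • H)) hE (hI _)
    fun i c hc => ser_chart h φ hP ha (hw i) i.2 hc
  refine ⟨a + m₀, fun m hm' => ?_⟩
  obtain ⟨m, rfl⟩ := Nat.exists_eq_add_of_le (le_of_add_le_left hm')
  have e1 : Gm (pl φ ((a + m) • H)) ⊤ = serI φ ((a + m) • H) := by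
    refine le_antisymm (fun v hv => ?_) (hI _)
    have h1 := ((hm m (by omega) 0).2 v).1 (by
      rwa [zero_nsmul, add_zero, ← map_nsmul, ← map_add, ← add_nsmul])
    rw [gen, pow_zero, mul_one] at h1
    rw [add_comm, add_nsmul]
    refine ((mul_le_mul' (ser_I_pow ?_ m) le_rfl).trans ser_I_mul) h1
    exact Submodule.span_le.2 (Set.range_subset_iff.2 fun l => ser_mem_I.2 ⟨w l, hw l, rfl⟩)
  rw [rk_eq_range, h0, e1, serI]

/-- regularity from the Koszul complex -/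
theorem gg_of_van (h : Amp H) {g : ℕ} {t : Fin (g + 1) → Fn X} (ht : Free (fun _ => H) t)
    {M : Dv X} (hM : ∀ j : ℕ, Van (M + j • H)) : GG (M + g • H) := by
  have key : ∀ j : ℕ, GG (M + (g + j) • H) → GG (M + g • H) := fun j => by
    induction j with
    | zero => exact id
    | succ j ih =>
      refine fun hj => ih fun x => ?_
      obtain ⟨v, hv, hx⟩ := hj x
      have e1 : M + (g + (j + 1)) • H = M + j • H + (g + 1) • H := by module
      have e2 : M + j • H + g • H = M + (g + j) • H := by module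
      have e3 : M + (g + (j + 1)) • H = H + (M + (g + j) • H) := by module
      obtain ⟨c, hc, hsum⟩ := koszul_gen ht (M := M + j • H)
        (fun i => by rw [add_assoc, ← add_nsmul]; exact hM _) (e1 ▸ hv)
      rw [e2] at hc
      rw [e3] at hx
      exact ser_unit le_rfl le_rfl
        (hsum ▸ sum_mem fun i _ => Submodule.mul_mem_mul (ht.mem i) (hc i)) hx
  obtain ⟨m₀, hm⟩ := h.gg M
  exact key m₀ (hm _ (Nat.le_add_left m₀ g))

end Pool.Agent.Work.MP_e57da2_ag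
end
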