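import Pool.Agent.Work.MP_e57da2_ag.SValg
import Pool.Agent.Work.MP_e57da2_ag.Alg
import Pool.Agent.Work.MP_e57da2_ag.Ser
import Mathlib

-- merged part: Pool.Agent.Work.MP_e57da2_ag.Unif2
section
-- merged part: Pool.Agent.Work.MP_e57da2_ag.HS
section
/-!
# Hilbert-Samuel functions are eventually polynomial

Plan.  Let `y i` generate `𝔪`; apply `gind` with `R = K = B`, `s = y`, `W = ⊥`, `E = ⊤`, so `gen s W E j 0 = 𝔪 ^ j`, to
`Q P := (∀ j, 𝔪 ^ (j+1) ≤ P j 0) → EvPoly fun j => cd (P j 0) - cd (𝔪 ^ j)` where `cd I = finrank k (B ⧸ I)`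
(all these are finite dimensional).  Multiplication by `y` induces `𝔪 ^ j / colS j ≃ addS (j+1) / P (j+1)`, so
`d_P (j+1) = d_col j + d_add (j+1)`.  In `step₂` this reads `d_P (j+1) - d_P j = d_add (j+1)`, and a function whose difference is
eventually polynomial is eventually polynomial (`EvPoly.of_diff`: the difference operator is onto `ℚ[X]`, by induction on the degree,
or Faulhaber `Polynomial.sum_range_pow_eq_bernoulli_sub`).  Take `P j 0 = 𝔪 ^ j ⊓ (J ⊔ 𝔪 ^ (j+1))`, `P j (n+1) = ⊥`; then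
`d_P j = cd (J ⊔ 𝔪 ^ (j+1)) - cd (J ⊔ 𝔪 ^ j)` (second isomorphism theorem).
`slope_contra`: suppose `T ^ n < T' * W ^ (n-1)` (this follows from `T ^ 2 < T' * W`, `T ≤ W`).  The leading coefficient `α` of `p` is positive
(`p` takes values `ℓ j ≥ 0`).  `D i = H i - p (T i) ≤ 0`, and `D (i+1) - D i ≥ q i` for a polynomial `q` of degree `n - 1` with leading
coefficient `n α (T' W ^ (n-1) - T ^ n) > 0`, so `D i → ∞`.
-/

open Polynomial Module

namespace Pool.Agent.Work.MP_e57da2_ag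

/-- `f` agrees with a polynomial for large arguments -/
def EvPoly (f : ℕ → ℚ) : Prop := ∃ (p : ℚ[X]) (j₀ : ℕ), ∀ j, j₀ ≤ j → f j = p.eval (j : ℚ)

theorem HS_antidiff (p : ℚ[X]) : ∃ q : ℚ[X], ∀ x, q.eval (x + 1) - q.eval x = p.eval x := by
  induction p using Polynomial.induction_on' with
  | add p q hp hq =>
    obtain ⟨p', hp⟩ := hp
    obtain ⟨q', hq⟩ := hq
    refine ⟨p' + q', fun x => ?_⟩
    simp only [eval_add]
    linear_combination hp x + hq x
  | monomial n a =>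
    refine ⟨C (a / (n + 1)) * Polynomial.bernoulli (n + 1), fun x => ?_⟩
    have h := Polynomial.bernoulli_eval_one_add (n + 1) x
    have hn : (n : ℚ) + 1 ≠ 0 := by positivity
    rw [add_comm 1 x] at h
    simp only [eval_mul, eval_C, eval_monomial, h, Nat.add_sub_cancel]
    push_cast
    field_simp
    ring

theorem EvPoly.of_diff {f : ℕ → ℚ} (h : EvPoly fun j => f (j + 1) - f j) : EvPoly f := by
  obtain ⟨p, j₀, h⟩ := h
  obtain ⟨q, hq⟩ := HS_antidiff p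
  refine ⟨q + C (f j₀ - q.eval (j₀ : ℚ)), j₀, fun j hj => ?_⟩
  induction j, hj using Nat.le_induction with
  | base => simp
  | succ j hj ih =>
    have h1 := h j hj
    have h2 := hq (j : ℚ)
    simp only [eval_add, eval_C] at ih ⊢
    push_cast
    linear_combination ih + h1 - h2

theorem HS_add {f g : ℕ → ℚ} (hf : EvPoly f) (hg : EvPoly g) : EvPoly fun j => f j + g j := by
  obtain ⟨p, a, hp⟩ := hf
  obtain ⟨q, b, hq⟩ := hg
  refine ⟨p + q, max a b, fun j hj => ?_⟩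
  simp only [eval_add]
  rw [hp j (le_of_max_le_left hj), hq j (le_of_max_le_right hj)]

theorem HS_succ {f : ℕ → ℚ} (hf : EvPoly f) : EvPoly fun j => f (j + 1) := by
  obtain ⟨p, a, hp⟩ := hf
  refine ⟨taylor 1 p, a, fun j hj => ?_⟩
  simp only [taylor_eval]
  rw [hp (j + 1) (by omega)]
  push_cast
  rfl

theorem HS_pred {f : ℕ → ℚ} (hf : EvPoly fun j => f (j + 1)) : EvPoly f := by
  obtain ⟨p, a, hp⟩ := hf
  refine ⟨taylor (-1) p, a + 1, fun j hj => ?_⟩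
  obtain ⟨i, rfl⟩ : ∃ i, j = i + 1 := ⟨j - 1, by omega⟩
  have := hp i (by omega)
  simp only [taylor_eval] at this ⊢
  rw [this]
  push_cast
  congr 1
  ring

theorem hs_finite {k B : Type} [Field k] [CommRing B] [Algebra k B] [IsNoetherianRing B]
    (𝔪 : Ideal B) [FiniteDimensional k (B ⧸ 𝔪)] (I : Ideal B) (j : ℕ) (h : 𝔪 ^ j ≤ I) :
    FiniteDimensional k (B ⧸ I) := by
  have h1 : Module.Finite k (B ⧸ (I ⊔ 𝔪)) :=
    Module.Finite.of_surjective (Ideal.Quotient.factorₐ k (le_sup_right : 𝔪 ≤ I ⊔ 𝔪)).toLinearMap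
      (Ideal.Quotient.factor_surjective (le_sup_right : 𝔪 ≤ I ⊔ 𝔪))
  refine Module.finite_of_surjective_of_ker_le_nilradical
    (Ideal.Quotient.factorₐ k (le_sup_left : I ≤ I ⊔ 𝔪))
    (Ideal.Quotient.factor_surjective (le_sup_left : I ≤ I ⊔ 𝔪)) ?_
    (IsNoetherian.noetherian _)
  intro x hx
  obtain ⟨x, rfl⟩ := Ideal.Quotient.mk_surjective x
  have hx' : x ∈ I ⊔ 𝔪 := Ideal.Quotient.eq_zero_iff_mem.1 hx
  obtain ⟨a, ha, b, hb, rfl⟩ := Submodule.mem_sup.1 hx'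
  refine ⟨j, ?_⟩
  rw [map_add, Ideal.Quotient.eq_zero_iff_mem.2 ha, zero_add, ← map_pow]
  exact Ideal.Quotient.eq_zero_iff_mem.2 (h (Ideal.pow_mem_pow hb j))

theorem HS_key {k B M : Type} [Field k] [CommRing B] [Algebra k B] [AddCommGroup M] [Module k M]
    (f : M →ₗ[k] B) (I I' : Ideal B) [FiniteDimensional k (B ⧸ I)] (U : Submodule k M)
    (hU : ∀ m, m ∈ U ↔ f m ∈ I) (hI' : ∀ x, x ∈ I' ↔ ∃ m, x - f m ∈ I) :
    finrank k (M ⧸ U) + finrank k (B ⧸ I') = finrank k (B ⧸ I) := by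
  have hle : I ≤ I' := fun x hx => (hI' x).2 ⟨0, by simpa using hx⟩
  let φ : M →ₗ[k] B ⧸ I := (Ideal.Quotient.mkₐ k I).toLinearMap ∘ₗ f
  let ψ : (B ⧸ I) →ₗ[k] B ⧸ I' := (Ideal.Quotient.factorₐ k hle).toLinearMap
  have h1 : LinearMap.ker φ = U := by
    ext m
    rw [hU, LinearMap.mem_ker]
    exact Ideal.Quotient.eq_zero_iff_mem
  have h2 : LinearMap.range ψ = ⊤ :=
    LinearMap.range_eq_top.2 (Ideal.Quotient.factor_surjective hle)
  have h3 : LinearMap.ker ψ = LinearMap.range φ := by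
    ext x
    obtain ⟨x, rfl⟩ := Ideal.Quotient.mk_surjective x
    rw [LinearMap.mem_ker, LinearMap.mem_range]
    refine (Ideal.Quotient.eq_zero_iff_mem (I := I') (a := x)).trans ((hI' x).trans ?_)
    refine exists_congr fun m => ?_
    rw [eq_comm]
    exact (Ideal.Quotient.eq (I := I)).symm
  have h4 := LinearMap.finrank_range_add_finrank_ker ψ
  rw [h2, h3, finrank_top, ← (LinearMap.quotKerEquivRange φ).finrank_eq, h1] at h4
  omega

theorem HS_lemA {k B : Type} [Field k] [CommRing B] [Algebra k B] (y : B) (N P : Ideal B)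
    [FiniteDimensional k (B ⧸ P)]
    [FiniteDimensional k (B ⧸ (N ⊓ Submodule.comap (LinearMap.mulLeft B y) P : Ideal B))] :
    finrank k (B ⧸ P) + finrank k (B ⧸ N) =
      finrank k (B ⧸ (P ⊔ Submodule.map (LinearMap.mulLeft B y) N : Ideal B)) +
        finrank k (B ⧸ (N ⊓ Submodule.comap (LinearMap.mulLeft B y) P : Ideal B)) := by
  let g : N →ₗ[k] B := (Submodule.subtype N).restrictScalars k
  let f : N →ₗ[k] B := LinearMap.mulLeft k y ∘ₗ g
  let U : Submodule k N := (P.restrictScalars k).comap f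
  have h1 := HS_key f P (P ⊔ Submodule.map (LinearMap.mulLeft B y) N) U (fun m => Iff.rfl) fun x => by
    rw [Submodule.mem_sup]
    constructor
    · rintro ⟨a, ha, b, ⟨c, hc, rfl⟩, rfl⟩
      refine ⟨⟨c, hc⟩, ?_⟩
      change a + y * c - y * c ∈ P
      simpa using ha
    · rintro ⟨m, hm⟩
      exact ⟨_, hm, y * m, ⟨m, m.2, rfl⟩, sub_add_cancel _ _⟩
  have h2 := HS_key g (N ⊓ Submodule.comap (LinearMap.mulLeft B y) P) N U
    (fun m => ⟨fun hm => ⟨m.2, hm⟩, fun hm => hm.2⟩) fun x => by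
    constructor
    · intro hx
      refine ⟨⟨x, hx⟩, ?_⟩
      change x - x ∈ _
      rw [sub_self]
      exact Submodule.zero_mem _
    · rintro ⟨m, hm⟩
      have : x - m ∈ N := hm.1
      simpa using N.add_mem this m.2
  omega

theorem HS_graded {k B : Type} [Field k] [CommRing B] [Algebra k B] [IsNoetherianRing B]
    (𝔪 : Ideal B) [FiniteDimensional k (B ⧸ 𝔪)] (P : ℕ → Ideal B)
    (h1 : ∀ j, 𝔪 ^ (j + 1) ≤ P j) (h2 : ∀ j, P j ≤ 𝔪 ^ j)
    (h3 : ∀ j, ∀ a ∈ 𝔪, ∀ v ∈ P j, a * v ∈ P (j + 1)) :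
    EvPoly fun j => (finrank k (B ⧸ P j) : ℚ) - finrank k (B ⧸ 𝔪 ^ j) := by
  obtain ⟨r, y, hy⟩ := Submodule.fg_iff_exists_fin_generating_family.1
    (IsNoetherian.noetherian 𝔪 : Submodule.FG 𝔪)
  have hN : ∀ j, gen y (⊥ : Submodule B B) ⊤ j 0 = 𝔪 ^ j := fun j => by
    rw [gen, hy, pow_zero, mul_one]
    exact Ideal.mul_top _
  have hym : ∀ i, y i ∈ 𝔪 := fun i => hy ▸ Submodule.subset_span ⟨i, rfl⟩
  have hcol : ∀ (i : Fin r) (P : ℕ → ℕ → Ideal B), (∀ j, 𝔪 ^ (j + 1) ≤ P j 0) →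
      ∀ j, 𝔪 ^ (j + 1) ≤ colS (y i) (gen y ⊥ ⊤) P j 0 := fun i P hP j => by
    rw [colS, hN]
    refine le_inf (Ideal.pow_le_pow_right (Nat.le_succ j)) fun x hx => hP (j + 1) ?_
    change y i * x ∈ _
    rw [pow_succ']
    exact Ideal.mul_mem_mul (hym i) hx
  have hadd : ∀ (i : Fin r) (P : ℕ → ℕ → Ideal B), (∀ j, 𝔪 ^ (j + 1) ≤ P j 0) →
      ∀ j, 𝔪 ^ (j + 1) ≤ addS (y i) (gen y ⊥ ⊤) P j 0 := fun i P hP j => by
    cases j with
    | zero => exact hP 0
    | succ j => exact (hP (j + 1)).trans le_sup_left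
  have hrel : ∀ (i : Fin r) (P : ℕ → ℕ → Ideal B), (∀ j, 𝔪 ^ (j + 1) ≤ P j 0) → ∀ j,
      (finrank k (B ⧸ P (j + 1) 0) : ℚ) + finrank k (B ⧸ 𝔪 ^ j) =
        finrank k (B ⧸ (addS (y i) (gen y ⊥ ⊤) P (j + 1) 0 : Ideal B)) +
          finrank k (B ⧸ (colS (y i) (gen y ⊥ ⊤) P j 0 : Ideal B)) := fun i P hP j => by
    have f1 := hs_finite (k := k) 𝔪 (P (j + 1) 0) _ (hP (j + 1))
    have f2 := hs_finite (k := k) 𝔪 (colS (y i) (gen y ⊥ ⊤) P j 0) _ (hcol i P hP j)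
    have := @HS_lemA k B _ _ _ (y i) (gen y ⊥ ⊤ j 0) (P (j + 1) 0) f1 f2
    rw [← hN j]
    exact_mod_cast this
  let P' : ℕ → ℕ → Ideal B := fun j n => match n with
    | 0 => P j
    | _ + 1 => ⊥
  refine gind (R := B) (K := B) (s := y) (W := ⊥) (E := ⊤) Submodule.fg_bot
    (IsNoetherian.noetherian _)
    (fun P : ℕ → ℕ → Ideal B => (∀ j, 𝔪 ^ (j + 1) ≤ P j 0) →
      EvPoly fun j => (finrank k (B ⧸ P j 0) : ℚ) - finrank k (B ⧸ 𝔪 ^ j)) ?_ ?_ ?_ P' ?_ ?_ h1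
  · rintro P - - ⟨m₀, hm⟩ -
    refine ⟨0, m₀, fun j hj => ?_⟩
    have e : P j 0 = 𝔪 ^ j := (hm j hj 0).trans (hN j)
    change (finrank k (B ⧸ P j 0) : ℚ) - finrank k (B ⧸ 𝔪 ^ j) = _
    rw [e, sub_self, eval_zero]
  · intro i P _ _ ha hc hP
    have := HS_add (HS_succ (ha (hadd i P hP))) (hc (hcol i P hP))
    refine HS_pred ?_
    convert this using 2 with j
    linear_combination hrel i P hP j
  · intro i P _ _ hc ha hP
    have := HS_succ (ha (hadd i P hP))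
    refine EvPoly.of_diff ?_
    convert this using 2 with j
    have h := hrel i P hP j
    rw [hc] at h
    linear_combination h
  · refine ⟨fun i m n v hv => ?_, fun m n => by simp⟩
    cases n with
    | zero => exact h3 m _ (hym i) v hv
    | succ n =>
      have : v = 0 := hv
      rw [this, mul_zero]
      exact Submodule.zero_mem _
  · intro m n
    cases n with
    | zero => rw [hN]; exact h2 m
    | succ n => exact bot_le

theorem hilbert_samuel {k B : Type} [Field k] [CommRing B] [Algebra k B] [IsNoetherianRing B]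
    (𝔪 : Ideal B) [FiniteDimensional k (B ⧸ 𝔪)] (J : Ideal B) :
    EvPoly fun j => (finrank k (B ⧸ (J ⊔ 𝔪 ^ j)) : ℚ) := by
  have hle : ∀ j, 𝔪 ^ (j + 1) ≤ 𝔪 ^ j ⊓ (J ⊔ 𝔪 ^ (j + 1)) := fun j =>
    le_inf (Ideal.pow_le_pow_right (Nat.le_succ j)) le_sup_right
  have := HS_graded (k := k) 𝔪 (fun j => 𝔪 ^ j ⊓ (J ⊔ 𝔪 ^ (j + 1))) hle (fun j => inf_le_left)
    fun j a ha v hv => by
      refine ⟨by rw [pow_succ']; exact Ideal.mul_mem_mul ha hv.1, ?_⟩
      obtain ⟨b, hb, c, hc, rfl⟩ := Submodule.mem_sup.1 hv.2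
      refine Submodule.mem_sup.2 ⟨a * b, J.mul_mem_left a hb, a * c, ?_, (mul_add _ _ _).symm⟩
      rw [pow_succ']
      exact Ideal.mul_mem_mul ha hc
  refine EvPoly.of_diff ?_
  convert this using 2 with j
  have e1 : Submodule.comap (LinearMap.mulLeft B (1 : B)) (J ⊔ 𝔪 ^ (j + 1)) =
      J ⊔ 𝔪 ^ (j + 1) := by
    ext x
    simp
  have e2 : (J ⊔ 𝔪 ^ (j + 1) ⊔ Submodule.map (LinearMap.mulLeft B (1 : B)) (𝔪 ^ j) : Ideal B) =
      J ⊔ 𝔪 ^ j := by
    rw [LinearMap.mulLeft_one, Submodule.map_id, sup_assoc,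
      sup_eq_right.2 (Ideal.pow_le_pow_right (I := 𝔪) (Nat.le_add_right j 1))]
  have f1 := hs_finite (k := k) 𝔪 (J ⊔ 𝔪 ^ (j + 1)) _ le_sup_right
  have f2 := hs_finite (k := k) 𝔪 _ _ (hle j)
  have h := @HS_lemA k B _ _ _ 1 (𝔪 ^ j) (J ⊔ 𝔪 ^ (j + 1)) f1 (by rw [e1]; exact f2)
  rw [e1, e2] at h
  have h' := congrArg (Nat.cast : ℕ → ℚ) h
  push_cast at h'
  linear_combination h'

/-- the three cases for an eventually polynomial monotone function -/
theorem EvPoly.cases {ℓ : ℕ → ℕ} (hm : Monotone ℓ) (h : EvPoly fun j => (ℓ j : ℚ)) :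
    (∃ j₀, ∀ j, j₀ ≤ j → ℓ (j + 1) = ℓ j) ∨
    (∃ a j₀, 1 ≤ a ∧ ∀ j, j₀ ≤ j → ℓ (j + 1) = ℓ j + a) ∨
    ∃ (p : ℚ[X]) (j₀ : ℕ), 2 ≤ p.natDegree ∧ ∀ j, j₀ ≤ j → (ℓ j : ℚ) = p.eval (j : ℚ) := by
  obtain ⟨p, j₀, h⟩ := h
  by_cases hp : 2 ≤ p.natDegree
  · exact Or.inr (Or.inr ⟨p, j₀, hp, h⟩)
  have e := eq_X_add_C_of_natDegree_le_one (p := p) (by omega)
  have h1 : ∀ j, j₀ ≤ j → (ℓ (j + 1) : ℚ) = ℓ j + p.coeff 1 := fun j hj => by
    have a1 := h j hj
    have a2 := h (j + 1) (by omega)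
    rw [e] at a1 a2
    simp only [eval_add, eval_mul, eval_C, eval_X] at a1 a2
    push_cast at a2
    linear_combination a2 - a1
  obtain ⟨a, ha⟩ := Nat.exists_eq_add_of_le (hm (Nat.le_succ j₀))
  have h2 : ∀ j, j₀ ≤ j → ℓ (j + 1) = ℓ j + a := fun j hj => by
    have a1 := h1 j hj
    have a2 := h1 j₀ le_rfl
    rw [show ℓ (j₀ + 1) = ℓ j₀ + a from ha] at a2
    push_cast at a2
    have : (ℓ (j + 1) : ℚ) = ℓ j + a := by linear_combination a1 - a2
    exact_mod_cast this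
  rcases Nat.eq_zero_or_pos a with rfl | ha0
  · exact Or.inl ⟨j₀, h2⟩
  · exact Or.inr (Or.inl ⟨a, j₀, ha0, h2⟩)

theorem HS_taylor (p : ℚ[X]) (m : ℕ) (h : p.natDegree ≤ m + 1) (d : ℚ) :
    (taylor d p).coeff m = p.coeff m + (m + 1) * p.coeff (m + 1) * d := by
  have h1 : (hasseDeriv m p).natDegree ≤ 1 := (natDegree_hasseDeriv_le p m).trans (by omega)
  rw [taylor_coeff, eq_X_add_C_of_natDegree_le_one h1]
  simp only [eval_add, eval_mul, eval_C, eval_X, hasseDeriv_coeff, zero_add, Nat.choose_self,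
    add_comm 1 m, Nat.choose_succ_self_right]
  push_cast
  ring

theorem HS_taylor_top (p : ℚ[X]) (m : ℕ) (h : p.natDegree ≤ m) (d : ℚ) :
    (taylor d p).coeff m = p.coeff m := by
  rw [HS_taylor p m (by omega), coeff_eq_zero_of_natDegree_lt (show p.natDegree < m + 1 by omega)]
  ring

theorem HS_delta (p : ℚ[X]) (m : ℕ) (h : p.natDegree ≤ m + 1) (a b d : ℚ) :
    ∃ q : ℚ[X], q.natDegree ≤ m ∧ q.coeff m = (m + 1) * p.coeff (m + 1) * d * a ^ m ∧
      ∀ x, q.eval x = p.eval (a * x + b + d) - p.eval (a * x + b) := by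
  have h1 : (taylor d p - p).natDegree ≤ m := natDegree_le_iff_coeff_eq_zero.2 fun n hn => by
    rw [coeff_sub, HS_taylor_top p n (by omega), sub_self]
  refine ⟨(taylor b (taylor d p - p)).comp (C a * X), ?_, ?_, fun x => ?_⟩
  · refine natDegree_le_iff_coeff_eq_zero.2 fun n hn => ?_
    rw [comp_C_mul_X_coeff, HS_taylor_top _ n (by omega),
      coeff_eq_zero_of_natDegree_lt (by omega), zero_mul]
  · rw [comp_C_mul_X_coeff, HS_taylor_top _ m h1, coeff_sub, HS_taylor p m h]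
    ring
  · simp only [eval_comp, eval_mul, eval_C, eval_X, taylor_eval, eval_sub]

theorem slope_contra {ℓ H : ℕ → ℕ} {p : ℚ[X]} {j₀ : ℕ} (hp : 2 ≤ p.natDegree)
    (hℓ : ∀ j, j₀ ≤ j → (ℓ j : ℚ) = p.eval (j : ℚ)) {T T' W c : ℕ} (hT : 0 < T) (hTW : T ≤ W)
    (h : T ^ 2 < T' * W) (up : ∀ i, 1 ≤ i → H i ≤ ℓ (T * i))
    (low : ∀ i, H i + ℓ (W * (i + 1) - c) ≤ H (i + 1) + ℓ (W * (i + 1) - c - T')) : False := by
  obtain ⟨m, hm⟩ : ∃ m, p.natDegree = m + 1 + 1 := ⟨p.natDegree - 2, by omega⟩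
  have hnat : Filter.Tendsto (fun n : ℕ => (n : ℚ)) Filter.atTop Filter.atTop :=
    tendsto_natCast_atTop_atTop
  have hα : 0 < p.coeff (m + 1 + 1) := by
    by_contra hα
    have h1 := (p.tendsto_atBot_of_leadingCoeff_nonpos
      (natDegree_pos_iff_degree_pos.1 (by omega)) (by rw [leadingCoeff, hm]; exact not_lt.1 hα)).comp
      hnat
    obtain ⟨j, hj1, hj2⟩ := ((h1.eventually_lt_atBot 0).and (Filter.eventually_ge_atTop j₀)).exists
    have : (0 : ℚ) ≤ ℓ j := Nat.cast_nonneg _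
    rw [hℓ j hj2] at this
    exact absurd hj1 (not_lt.2 this)
  obtain ⟨q₁, d₁, c₁, e₁⟩ := HS_delta p (m + 1) hm.le W (W - c - T') T'
  obtain ⟨q₂, d₂, c₂, e₂⟩ := HS_delta p (m + 1) hm.le T 0 T
  have hlt : (T : ℚ) * T ^ (m + 1) < T' * W ^ (m + 1) := by
    have a1 : T ^ m ≤ W ^ m := Nat.pow_le_pow_left hTW m
    have a2 : T ^ 2 * T ^ m < T' * W * W ^ m :=
      Nat.mul_lt_mul_of_lt_of_le h a1 (Nat.pow_pos (by omega))
    have a3 : T * T ^ (m + 1) < T' * W ^ (m + 1) := by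
      calc T * T ^ (m + 1) = T ^ 2 * T ^ m := by ring
        _ < T' * W * W ^ m := a2
        _ = T' * W ^ (m + 1) := by ring
    exact_mod_cast a3
  have hc : 0 < (q₁ - q₂).coeff (m + 1) := by
    rw [coeff_sub, c₁, c₂]
    have : (0 : ℚ) < ((m + 1 : ℕ) + 1) * p.coeff (m + 1 + 1) := by positivity
    linarith only [hlt, this, mul_pos_of_neg_of_neg (Mathlib.Tactic.Linarith.sub_neg_of_lt hlt) (Mathlib.Tactic.Linarith.sub_neg_of_lt this)]
  have hd : (q₁ - q₂).natDegree = m + 1 :=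
    le_antisymm ((natDegree_sub_le _ _).trans (max_le d₁ d₂)) (le_natDegree_of_ne_zero hc.ne')
  have h1 := ((q₁ - q₂).tendsto_atTop_of_leadingCoeff_nonneg
    (natDegree_pos_iff_degree_pos.1 (by omega)) (by rw [leadingCoeff, hd]; exact hc.le)).comp hnat
  obtain ⟨i₁, hi₁⟩ := Filter.eventually_atTop.1 (h1.eventually_ge_atTop 1)
  set i₀ := i₁ + j₀ + c + T' + 1 with hi₀
  have hTi : ∀ i, i₀ ≤ i → j₀ ≤ T * i := fun i hi =>
    le_trans (by omega) (Nat.le_mul_of_pos_left i hT)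
  have step : ∀ i, i₀ ≤ i → (H i : ℚ) - p.eval ((T : ℚ) * i) + 1 ≤
      H (i + 1) - p.eval ((T : ℚ) * (i + 1 : ℕ)) := fun i hi => by
    have a0 : i + 1 ≤ W * (i + 1) := Nat.le_mul_of_pos_left _ (by omega)
    have a1 := hℓ (W * (i + 1) - c) (by omega)
    have a2 := hℓ (W * (i + 1) - c - T') (by omega)
    rw [Nat.cast_sub (by omega)] at a1
    rw [Nat.cast_sub (by omega), Nat.cast_sub (by omega)] at a2
    have a3 : (H i : ℚ) + ℓ (W * (i + 1) - c) ≤ H (i + 1) + ℓ (W * (i + 1) - c - T') := by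
      exact_mod_cast low i
    have a4 : 1 ≤ (q₁ - q₂).eval (i : ℚ) := hi₁ i (by omega)
    rw [eval_sub, e₁, e₂] at a4
    rw [a1, a2] at a3
    push_cast at a3 ⊢
    rw [show (W : ℚ) * i + (W - c - T') + T' = W * (i + 1) - c by ring,
      show (W : ℚ) * i + (W - c - T') = W * (i + 1) - c - T' by ring,
      show (T : ℚ) * i + 0 + T = T * (i + 1) by ring, add_zero] at a4
    linarith only [a4, a3]
  have iter : ∀ t : ℕ, (H i₀ : ℚ) - p.eval ((T : ℚ) * i₀) + t ≤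
      H (i₀ + t) - p.eval ((T : ℚ) * (i₀ + t : ℕ)) := fun t => by
    induction t with
    | zero => simp
    | succ t ih =>
      have := step (i₀ + t) (by omega)
      rw [← add_assoc]
      push_cast at ih this ⊢
      linarith only [ih, this]
  obtain ⟨t, ht⟩ := exists_nat_gt (p.eval ((T : ℚ) * i₀) - H i₀)
  have b1 := iter t
  have b2 : (H (i₀ + t) : ℚ) ≤ ℓ (T * (i₀ + t)) := by exact_mod_cast up (i₀ + t) (by omega)
  rw [hℓ _ (hTi _ (by omega)), Nat.cast_mul] at b2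
  linarith only [ht, b1, b2]

end Pool.Agent.Work.MP_e57da2_ag
end

-- merged part: Pool.Agent.Work.MP_e57da2_ag.Dem
section
/-!
# Separation of jets from lower bounds on curves (Demailly), algebraic form

See section 2 of the write-up `/team-store/h72_e57da2_proof.md`.  `hf F J m` is the dimension of the image of `F m` in `B ⧸ J`,
`cd J 𝔪 j` is the dimension of `B ⧸ (J ⊔ 𝔪 ^ j)`.
`Sep.of_mul`: `x ≡ x₁ + a x'` mod `J + 𝔪 ^ p`, then `x' ≡ x₂` mod `(J : a) + 𝔪 ^ p` with `x₂ ∈ F (m - m₀)`; enlarge `c` by `t m₀` (for `m < m₀`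
one gets `p = 0`).  `Sep.of_slope`: strong induction on `m`.  `Sep.pos`: `B ⧸ 𝔪 ^ 2` is finite dimensional, so `F a ⊔ 𝔪 ^ 2 = ⊤` for some
`a ≥ 1`; `sup_pow_pow`.  `hf_step`: multiplication by `g` is injective on `B ⧸ 𝔭` and lands in the kernel of `B ⧸ 𝔭 → B ⧸ (𝔭 + g)`.
`cd_step`: multiplication by `g` induces `B ⧸ (𝔭 + 𝔪 ^ (p - T')) → B ⧸ (𝔭 + 𝔪 ^ p)` with cokernel `B ⧸ (𝔭 + g + 𝔪 ^ p)`.
-/

open Module

namespace Pool.Agent.Work.MP_e57da2_ag

variable {k B : Type} [Field k] [CommRing B] [Algebra k B]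

/-- a multiplicative exhaustive filtration by finite dimensional subspaces -/
structure Filt (F : ℕ → Submodule k B) : Prop where
  fin : ∀ m, FiniteDimensional k (F m)
  mono : Monotone F
  one : (1 : B) ∈ F 0
  mul : ∀ a b, F a * F b ≤ F (a + b)
  exh : ∀ x, ∃ m, x ∈ F m

/-- dimension of the image of `F m` in `B ⧸ J` -/
noncomputable def hf (F : ℕ → Submodule k B) (J : Ideal B) (m : ℕ) : ℕ :=
  finrank k ((F m).map (Ideal.Quotient.mkₐ k J).toLinearMap)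

variable (k) in
/-- dimension of `B ⧸ (J ⊔ 𝔪 ^ j)` -/
noncomputable def cd (J 𝔪 : Ideal B) (j : ℕ) : ℕ := finrank k (B ⧸ (J ⊔ 𝔪 ^ j))

/-- separation of jets with slope `t` modulo `J` -/
def Sep (F : ℕ → Submodule k B) (𝔪 J : Ideal B) (t : ℝ) : Prop :=
  ∃ c : ℝ, ∀ m p : ℕ, (p : ℝ) ≤ t * m - c → F m ⊔ (J ⊔ 𝔪 ^ p).restrictScalars k = ⊤

variable {F : ℕ → Submodule k B} {𝔪 J : Ideal B} {t : ℝ}

theorem Dem_top {W : Submodule k B} {I : Ideal B} :
    W ⊔ I.restrictScalars k = ⊤ ↔ ∀ x, ∃ y ∈ W, x - y ∈ I := by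
  rw [Submodule.eq_top_iff']
  refine forall_congr' fun x => ?_
  rw [Submodule.mem_sup]
  constructor
  · rintro ⟨y, hy, z, hz, rfl⟩
    exact ⟨y, hy, by simpa using hz⟩
  · rintro ⟨y, hy, hz⟩
    exact ⟨y, hy, x - y, hz, by ring⟩

theorem Dem_zero (W : Submodule k B) {p : ℕ} (hp : (p : ℝ) ≤ 0) :
    W ⊔ (J ⊔ 𝔪 ^ p).restrictScalars k = ⊤ := by
  have h : p = 0 := by exact_mod_cast le_antisymm hp (Nat.cast_nonneg p)
  rw [Dem_top, h]
  exact fun x => ⟨0, W.zero_mem, by simp⟩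

theorem Dem_split {a z : B} {p : ℕ} (h : z ∈ J ⊔ Ideal.span {a} ⊔ 𝔪 ^ p) :
    ∃ r, z - r * a ∈ J ⊔ 𝔪 ^ p := by
  rw [sup_right_comm] at h
  obtain ⟨u, hu, v, hv, rfl⟩ := Submodule.mem_sup.1 h
  obtain ⟨r, rfl⟩ := Ideal.mem_span_singleton'.1 hv
  exact ⟨r, by simpa using hu⟩

theorem Dem_mul {a b : B} {i j p : ℕ} (ha : a ∈ J ⊔ 𝔪 ^ i) (hb : b ∈ J ⊔ 𝔪 ^ j) (h : p ≤ i + j) :
    a * b ∈ J ⊔ 𝔪 ^ p := by
  obtain ⟨u, hu, v, hv, rfl⟩ := Submodule.mem_sup.1 ha
  obtain ⟨u', hu', v', hv', rfl⟩ := Submodule.mem_sup.1 hb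
  have h1 : v * v' ∈ 𝔪 ^ p := Ideal.pow_le_pow_right h (pow_add 𝔪 i j ▸ Ideal.mul_mem_mul hv hv')
  have h2 : u * (u' + v') + v * u' ∈ J := J.add_mem (J.mul_mem_right _ hu) (J.mul_mem_left _ hu')
  exact Submodule.mem_sup.2 ⟨_, h2, _, h1, by ring⟩

theorem Dem_exists (hF : Filt F) (I : Ideal B) [FiniteDimensional k (B ⧸ I)] :
    ∃ a, F a ⊔ I.restrictScalars k = ⊤ := by
  obtain ⟨n, hn⟩ := monotone_stabilizes_iff_noetherian.2 (inferInstance : IsNoetherian k (B ⧸ I))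
    ⟨fun m => (F m).map (Ideal.Quotient.mkₐ k I).toLinearMap,
      fun a b h => Submodule.map_mono (hF.mono h)⟩
  refine ⟨n, Dem_top.2 fun x => ?_⟩
  obtain ⟨m, hm⟩ := hF.exh x
  have h1 : Ideal.Quotient.mk I x ∈ (F (max n m)).map (Ideal.Quotient.mkₐ k I).toLinearMap :=
    ⟨x, hF.mono (le_max_right n m) hm, rfl⟩
  have h2 : (F n).map (Ideal.Quotient.mkₐ k I).toLinearMap =
      (F (max n m)).map (Ideal.Quotient.mkₐ k I).toLinearMap := hn _ (le_max_left n m)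
  rw [← h2] at h1
  obtain ⟨y, hy, h3⟩ := h1
  exact ⟨y, hy, Ideal.Quotient.eq.1 (Eq.symm h3)⟩

theorem Dem_surj {I I' : Ideal B} (h : I ≤ I') :
    Function.Surjective (Ideal.Quotient.factorₐ k h).toLinearMap := by
  intro x
  obtain ⟨y, rfl⟩ := Ideal.Quotient.mk_surjective x
  exact ⟨Ideal.Quotient.mk I y, rfl⟩

theorem Dem_eq {I I' : Ideal B} (h : I ≤ I') [FiniteDimensional k (B ⧸ I)]
    [FiniteDimensional k (B ⧸ I')] (he : finrank k (B ⧸ I) = finrank k (B ⧸ I')) : I = I' := by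
  have h1 := (LinearMap.injective_iff_surjective_of_finrank_eq_finrank he).2 (Dem_surj h)
  refine le_antisymm h fun x hx => Ideal.Quotient.eq_zero_iff_mem.1 (h1 ?_)
  rw [map_zero]
  exact Ideal.Quotient.eq_zero_iff_mem.2 hx

theorem Dem_rank {V W : Type} [AddCommGroup V] [Module k V] [AddCommGroup W] [Module k W]
    (φ : V →ₗ[k] W) (P U : Submodule k V) [FiniteDimensional k P] (h1 : U ≤ P)
    (h2 : U ≤ LinearMap.ker φ) : finrank k U + finrank k (P.map φ) ≤ finrank k P := by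
  rw [← LinearMap.finrank_range_add_finrank_ker (φ.domRestrict P), LinearMap.range_domRestrict,
    LinearMap.ker_domRestrict, add_comm, ← (Submodule.comapSubtypeEquivOfLe h1).finrank_eq]
  exact Nat.add_le_add_left (Submodule.finrank_mono (Submodule.comap_mono h2)) _

theorem Dem_pow (hF : Filt F) (a n : ℕ) : F a ^ n ≤ F (n * a) := by
  induction n with
  | zero => simpa [Submodule.one_le] using hF.one
  | succ n ih =>
    rw [pow_succ, add_mul, one_mul]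
    exact (mul_le_mul_left ih _).trans (hF.mul _ _)

theorem Sep.mono {s : ℝ} (h : Sep F 𝔪 J t) (hs : s ≤ t) : Sep F 𝔪 J s := by
  obtain ⟨c, hc⟩ := h
  refine ⟨c, fun m p hp => hc m p (hp.trans ?_)⟩
  have := mul_le_mul_of_nonneg_right hs (Nat.cast_nonneg (α := ℝ) m)
  linarith

theorem Sep.of_not_le [𝔪.IsMaximal] (h : ¬ J ≤ 𝔪) : Sep F 𝔪 J t := by
  have h1 : J ⊔ 𝔪 = ⊤ := by
    by_contra h1
    exact h (le_sup_left.trans (Ideal.IsMaximal.eq_of_le ‹_› h1 le_sup_right).ge)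
  refine ⟨0, fun m p _ => ?_⟩
  rw [Ideal.sup_pow_eq_top h1]
  simp

theorem Sep.of_mul (hF : Filt F) (ht : 0 ≤ t) (a : B) (h₁ : Sep F 𝔪 (J ⊔ Ideal.span {a}) t)
    (h₂ : Sep F 𝔪 (J.colon {a}) t) : Sep F 𝔪 J t := by
  obtain ⟨c₁, h₁⟩ := h₁
  obtain ⟨c₂, h₂⟩ := h₂
  obtain ⟨m₀, ha⟩ := hF.exh a
  refine ⟨max (max c₁ c₂) 0 + t * m₀, fun m p hp => ?_⟩
  have e0 := le_max_right (max c₁ c₂) 0
  have e1 := (le_max_left c₁ c₂).trans (le_max_left _ 0)
  have e2 := (le_max_right c₁ c₂).trans (le_max_left _ 0)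
  have e3 : 0 ≤ t * m₀ := by positivity
  rcases le_total m m₀ with hm | hm
  · have := mul_le_mul_of_nonneg_left (Nat.cast_le (α := ℝ).2 hm) ht
    exact Dem_zero _ (by linarith only [hp, e0, this])
  · refine Dem_top.2 fun x => ?_
    obtain ⟨y, hy, hxy⟩ := Dem_top.1 (h₁ m p (by linarith)) x
    obtain ⟨r, hr⟩ := Dem_split hxy
    obtain ⟨z, hz, hrz⟩ := Dem_top.1 (h₂ (m - m₀) p (by rw [Nat.cast_sub hm]; linarith)) r
    have h3 : z * a ∈ F m := by
      have := hF.mul _ _ (Submodule.mul_mem_mul hz ha)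
      rwa [Nat.sub_add_cancel hm] at this
    have h4 : (r - z) * a ∈ J ⊔ 𝔪 ^ p := by
      obtain ⟨u, hu, v, hv, he⟩ := Submodule.mem_sup.1 hrz
      rw [← he, add_mul]
      exact Submodule.add_mem_sup (Submodule.mem_colon_singleton.1 hu) (Ideal.mul_mem_right _ _ hv)
    refine ⟨y + z * a, (F m).add_mem hy h3, ?_⟩
    have := Ideal.add_mem _ hr h4
    convert this using 1
    ring

theorem Sep.of_slope (hF : Filt F) (ht : 0 ≤ t) {f : B} {m₀ j₀ : ℕ} (hm : 0 < m₀) (hf : f ∈ F m₀)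
    (hj : f ∈ J ⊔ 𝔪 ^ j₀) (hs : t * m₀ ≤ j₀) (h : Sep F 𝔪 (J ⊔ Ideal.span {f}) t) :
    Sep F 𝔪 J t := by
  obtain ⟨c, hc⟩ := h
  refine ⟨max c 0, fun m => ?_⟩
  have e0 := le_max_right c 0
  have e1 := le_max_left c 0
  induction m using Nat.strong_induction_on with
  | _ m ih =>
    intro p hp
    refine Dem_top.2 fun x => ?_
    obtain ⟨y, hy, hxy⟩ := Dem_top.1 (hc m p (by linarith only [e1, hp])) x
    obtain ⟨r, hr⟩ := Dem_split hxy
    rcases le_or_gt p j₀ with hp' | hp'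
    · refine ⟨y, hy, ?_⟩
      have h1 : r * f ∈ J ⊔ 𝔪 ^ p :=
        Ideal.mul_mem_left _ _ (sup_le_sup_left (Ideal.pow_le_pow_right hp') J hj)
      simpa using Ideal.add_mem _ hr h1
    · have h1 : (j₀ : ℝ) < p := by exact_mod_cast hp'
      have h2 : m₀ < m := by
        have h3 : t * m₀ < t * m := by linarith only [hs, e0, hp, h1]
        exact_mod_cast lt_of_mul_lt_mul_left h3 ht
      obtain ⟨z, hz, hrz⟩ := Dem_top.1 (ih (m - m₀) (by omega) (p - j₀) (by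
        rw [Nat.cast_sub h2.le, Nat.cast_sub hp'.le]; linarith only [hs, hp])) r
      have h3 : z * f ∈ F m := by
        have := hF.mul _ _ (Submodule.mul_mem_mul hz hf)
        rwa [Nat.sub_add_cancel h2.le] at this
      refine ⟨y + z * f, (F m).add_mem hy h3, ?_⟩
      have := Ideal.add_mem _ hr (Dem_mul hrz hj (by omega))
      convert this using 1
      ring

variable [IsNoetherianRing B] [FiniteDimensional k (B ⧸ 𝔪)]

theorem Sep.pos (hF : Filt F) : ∃ s, 0 < s ∧ Sep F 𝔪 J s := by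
  have := hs_finite (k := k) 𝔪 (𝔪 ^ (1 + 1)) _ le_rfl
  obtain ⟨a, ha⟩ := Dem_exists hF (𝔪 ^ (1 + 1))
  refine ⟨1 / (a + 1), by positivity, 0, fun m p hp => ?_⟩
  rcases p with _ | n
  · exact Dem_zero _ (by simp)
  · have h1 : (n + 1) * a ≤ m := by
      rw [sub_zero, one_div, inv_mul_eq_div, le_div_iff₀ (by positivity)] at hp
      have h2 : (n + 1) * (a + 1) ≤ m := by exact_mod_cast hp
      exact (Nat.mul_le_mul_left _ a.le_succ).trans h2
    rw [eq_top_iff, ← sup_pow_pow 𝔪 ha n]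
    refine sup_le_sup ((Dem_pow hF a _).trans (hF.mono h1)) fun x hx => ?_
    exact (le_sup_right : _ ≤ J ⊔ 𝔪 ^ (n + 1)) (Ideal.pow_le_pow_right (by omega) hx)

theorem Sep.of_stable (hF : Filt F) (ht : 0 ≤ t) {j₀ : ℕ}
    (h : ∀ j, j₀ ≤ j → cd k J 𝔪 (j + 1) = cd k J 𝔪 j) : Sep F 𝔪 J t := by
  have hfin : ∀ j, FiniteDimensional k (B ⧸ (J ⊔ 𝔪 ^ j)) := fun j => hs_finite 𝔪 _ j le_sup_right
  have h1 : ∀ j, j₀ ≤ j → J ⊔ 𝔪 ^ j = J ⊔ 𝔪 ^ j₀ := by
    intro j hj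
    induction j, hj using Nat.le_induction with
    | base => rfl
    | succ j hj ih =>
      rw [← ih]
      exact Dem_eq (k := k) (sup_le_sup_left (Ideal.pow_le_pow_right j.le_succ) J) (h j hj)
  obtain ⟨a, ha⟩ := Dem_exists hF (J ⊔ 𝔪 ^ j₀)
  refine ⟨t * a, fun m p hp => ?_⟩
  rcases le_total m a with hm | hm
  · have := mul_le_mul_of_nonneg_left (Nat.cast_le (α := ℝ).2 hm) ht
    exact Dem_zero _ (by linarith only [hp, this])
  · rw [eq_top_iff, ← ha, ← h1 _ (le_max_right p j₀)]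
    exact sup_le_sup (hF.mono hm) fun x hx =>
      sup_le_sup_left (Ideal.pow_le_pow_right (le_max_left p j₀)) J hx

theorem cd_mono : Monotone (cd k J 𝔪) := fun i j h => by
  have := hs_finite (k := k) 𝔪 (J ⊔ 𝔪 ^ j) j le_sup_right
  have h1 := LinearMap.finrank_range_le
    (Ideal.Quotient.factorₐ k (sup_le_sup_left (Ideal.pow_le_pow_right (I := 𝔪) h) J)).toLinearMap
  rwa [LinearMap.range_eq_top.2 (Dem_surj _), finrank_top] at h1

theorem hf_le_cd (hF : Filt F) {m j : ℕ} (h : ∀ f ∈ F m, f ∈ J ⊔ 𝔪 ^ j → f ∈ J) :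
    hf F J m ≤ cd k J 𝔪 j := by
  have := hF.fin m
  have := hs_finite (k := k) 𝔪 (J ⊔ 𝔪 ^ j) j le_sup_right
  refine (finrank_map_le_of_ker (F m) _ (Ideal.Quotient.mkₐ k (J ⊔ 𝔪 ^ j)).toLinearMap
    fun v hv h0 => ?_).trans (Submodule.finrank_le _)
  exact Ideal.Quotient.eq_zero_iff_mem.2 (h v hv (Ideal.Quotient.eq_zero_iff_mem.1 h0))

theorem cd_le_hf (hF : Filt F) {m p : ℕ} (h : F m ⊔ (J ⊔ 𝔪 ^ p).restrictScalars k = ⊤) :
    cd k J 𝔪 p ≤ hf F J m := by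
  have := hF.fin m
  have h1 : (F m).map (Ideal.Quotient.mkₐ k (J ⊔ 𝔪 ^ p)).toLinearMap = ⊤ := by
    rw [Submodule.eq_top_iff']
    intro x
    obtain ⟨x, rfl⟩ := Ideal.Quotient.mk_surjective x
    obtain ⟨y, hy, hxy⟩ := Dem_top.1 h x
    exact ⟨y, hy, (Ideal.Quotient.eq.2 hxy).symm⟩
  have h2 := finrank_map_le_of_ker (F m) (Ideal.Quotient.mkₐ k (J ⊔ 𝔪 ^ p)).toLinearMap
    (Ideal.Quotient.mkₐ k J).toLinearMap fun v _ h0 => Ideal.Quotient.eq_zero_iff_mem.2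
      ((le_sup_left : J ≤ J ⊔ 𝔪 ^ p) (Ideal.Quotient.eq_zero_iff_mem.1 h0))
  rwa [h1, finrank_top] at h2

theorem hf_step (hF : Filt F) [J.IsPrime] {g : B} {m₀ : ℕ} (hg : g ∈ F m₀) (hg' : g ∉ J) (m : ℕ) :
    hf F J m + hf F (J ⊔ Ideal.span {g}) (m + m₀) ≤ hf F J (m + m₀) := by
  have := hF.fin (m + m₀)
  have hg0 : Ideal.Quotient.mk J g ≠ 0 := fun h => hg' (Ideal.Quotient.eq_zero_iff_mem.1 h)
  have hinj : Function.Injective (LinearMap.mulRight k (Ideal.Quotient.mk J g)) :=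
    mul_left_injective₀ hg0
  have h1 := Dem_rank (Ideal.Quotient.factorₐ k (le_sup_left : J ≤ J ⊔ Ideal.span {g})).toLinearMap
    ((F (m + m₀)).map (Ideal.Quotient.mkₐ k J).toLinearMap)
    (((F m).map (Ideal.Quotient.mkₐ k J).toLinearMap).map
      (LinearMap.mulRight k (Ideal.Quotient.mk J g)))
    (by
      rintro _ ⟨_, ⟨x, hx, rfl⟩, rfl⟩
      exact ⟨x * g, hF.mul _ _ (Submodule.mul_mem_mul hx hg), rfl⟩)
    (by
      rintro _ ⟨_, ⟨x, -, rfl⟩, rfl⟩
      exact Ideal.Quotient.eq_zero_iff_mem (a := x * g).2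
        (Ideal.mem_sup_right (Ideal.mul_mem_left _ _ (Ideal.mem_span_singleton_self g))))
  rw [← (Submodule.equivMapOfInjective _ hinj _).finrank_eq, ← Submodule.map_comp] at h1
  exact h1

theorem cd_step {g : B} {T' : ℕ} (hg : g ∈ J ⊔ 𝔪 ^ T') (p : ℕ) :
    cd k J 𝔪 p ≤ cd k (J ⊔ Ideal.span {g}) 𝔪 p + cd k J 𝔪 (p - T') := by
  have := hs_finite (k := k) 𝔪 (J ⊔ 𝔪 ^ p) p le_sup_right
  have := hs_finite (k := k) 𝔪 (J ⊔ 𝔪 ^ (p - T')) _ le_sup_right
  have hle : J ⊔ 𝔪 ^ p ≤ J ⊔ Ideal.span {g} ⊔ 𝔪 ^ p := sup_le_sup_right le_sup_left _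
  have h1 := LinearMap.finrank_range_add_finrank_ker (Ideal.Quotient.factorₐ k hle).toLinearMap
  rw [LinearMap.range_eq_top.2 (Dem_surj _), finrank_top] at h1
  let ψ : (B ⧸ (J ⊔ 𝔪 ^ (p - T'))) →ₗ[k] B ⧸ (J ⊔ 𝔪 ^ p) :=
    (Submodule.mapQ (J ⊔ 𝔪 ^ (p - T')) (J ⊔ 𝔪 ^ p) (LinearMap.mulRight B g)
      fun x hx => Dem_mul hx hg (by omega)).restrictScalars k
  have h2 : LinearMap.ker (Ideal.Quotient.factorₐ k hle).toLinearMap ≤ LinearMap.range ψ := by
    intro x hx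
    obtain ⟨x, rfl⟩ := Ideal.Quotient.mk_surjective x
    obtain ⟨r, hr⟩ := Dem_split (Ideal.Quotient.eq_zero_iff_mem (a := x).1 hx)
    exact ⟨Ideal.Quotient.mk _ r, (Ideal.Quotient.eq.2 hr).symm⟩
  have h3 := (Submodule.finrank_mono h2).trans (LinearMap.finrank_range_le ψ)
  unfold cd
  omega

end Pool.Agent.Work.MP_e57da2_ag
end

-- merged part: Pool.Agent.Work.MP_e57da2_ag.Jet
section
/-!
# Jets, Hilbert-Samuel functions along a specialisation, affine charts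

Plans.  `JS.add`: `sup_pow_mul` in the ring `O X x` for the subspaces `{s * D.f x | s ∈ Gm D ⊤}`.  `qc_jet`: `qc_st`; if `x ∈ U ⊓ ul f` the condition at `x` is kept, if `x ∈ U` and `f ∈ 𝔪_x`
multiply by `f ^ p`.  `van_jet`: `Ex.of_exP`.  For `ExP`: fix `i₀` with `x ∈ U i₀`; call `S` good if `x ∈ S.inf U`.  For good `S` with `i₀ ∉ S` choose `a S ∈ sys (st D) ⊤ U S` with
`(a S - hh i₀ c S) * D.f x ∈ mp x p` (`JS` for all `S`: global sections already do it), otherwise `a S = 0`.  For good `S`, modulo `mp x p`, `c - dd a ≡ c - dd (hh i₀ c) = hh i₀ (dd c) ≡ 0` (`dd_hh`).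
-/

open CategoryTheory Limits AlgebraicGeometry TopologicalSpace IsLocalRing Module

namespace Pool.Agent.Work.MP_e57da2_ag

variable {k : Type} [Field k] {X : Sch k} [IsIntegral X.left]

/-- the global sections of `D` separate jets modulo `𝔪_x ^ p` -/
def JS (D : Dv X) (x : X.left) (p : ℕ) : Prop :=
  ∀ h ∈ O X x, ∃ s ∈ Gm D ⊤, s * D.f x - h ∈ mp X x p

open Classical in
/-- the stalks of `I_x ^ p` -/
noncomputable def jet (x : X.left) (p : ℕ) (y : X.left) : Submodule k (Fn X) :=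
  if y = x then mp X x p else Subalgebra.toSubmodule (O X y)

/-- the functions at `x` vanishing at the generisation `η` -/
noncomputable def prm (η x : X.left) : Ideal (O X x) :=
  Ideal.span {h | (h : Fn X) ∈ mp X η 1}

/-- the Hilbert-Samuel function at `x` of the closure of `η` -/
noncomputable def ell (η x : X.left) (j : ℕ) : ℕ :=
  finrank k (O X x ⧸ (prm η x ⊔ maximalIdeal (O X x) ^ j))

/-- the filtration of the ring of the chart of `t₀` by the sections of the multiples of `G` -/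
noncomputable def chartF (G : Dv X) (t₀ : Fn X) (m : ℕ) : Submodule k (B X (loc G t₀)) :=
  (Gm (m • G) ⊤).comap ((LinearMap.mulLeft k (t₀ ^ m)).comp (B X (loc G t₀)).val.toLinearMap)

variable {D E G : Dv X} {x η : X.left} {p q : ℕ} {t₀ : Fn X}

theorem mem_chartF {m : ℕ} {b : B X (loc G t₀)} :
    b ∈ chartF G t₀ m ↔ t₀ ^ m * b ∈ Gm (m • G) ⊤ := Iff.rfl

theorem Jet_mem {v : Fn X} {y : X.left} :
    v ∈ jet x p y ↔ v ∈ O X y ∧ (y = x → v ∈ mp X x p) := by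
  unfold jet
  split_ifs with h
  · subst h
    exact ⟨fun h => ⟨mem_O_of_mp h, fun _ => h⟩, fun h => h.2 rfl⟩
  · simp [h]

theorem mem_tw_jet {h : Fn X} {U : X.left.Opens} :
    h ∈ secs (tw (jet x p) D) U ↔ h ∈ Gm D U ∧ (x ∈ U → h * D.f x ∈ mp X x p) := by
  simp only [mem_secs, mem_tw, Jet_mem, mem_Gm]
  constructor
  · exact fun H => ⟨fun y hy => (H y hy).1, fun hx => (H x hx).2 rfl⟩
  · exact fun H y hy => ⟨H.1 y hy, fun e => by subst e; exact H.2 hy⟩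

theorem mem_prm (hη : η ⤳ x) (h : O X x) : h ∈ prm η x ↔ (h : Fn X) ∈ mp X η 1 := by
  refine ⟨fun hh => ?_, fun hh => Ideal.subset_span hh⟩
  induction hh using Submodule.span_induction with
  | mem a ha => exact ha
  | zero => exact zero_mem _
  | add a b _ _ ha hb => exact add_mem ha hb
  | smul a b _ hb => exact O_mul_mem_mp (O_le_of_spec hη a.2) hb

theorem Jet_unit (h : JS D x p) {u : Fn X} (hu : ∀ s ∈ Gm D ⊤, u * s ∈ Gm E ⊤)
    (hw : IsU X x (u * E.f x / D.f x)) : JS E x p := fun a ha => by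
  obtain ⟨s, hs, hs'⟩ := h _ (mul_mem hw.inv.1 ha)
  refine ⟨u * s, hu s hs, ?_⟩
  convert O_mul_mem_mp hw.1 hs' using 1
  rw [mul_sub, mul_inv_cancel_left₀ hw.ne_zero, mul_comm s (D.f x), ← mul_assoc,
    div_mul_cancel₀ _ (D.ne x), mul_right_comm]

/-- the germs of the global sections -/
noncomputable def Jet_W (D : Dv X) (x : X.left) : Submodule k (O X x) :=
  ((Gm D ⊤).map (LinearMap.mulRight k (D.f x))).comap (O X x).val.toLinearMap

theorem Jet_iff : JS D x p ↔ Jet_W D x ⊔ (maximalIdeal (O X x) ^ p).restrictScalars k = ⊤ := by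
  rw [eq_top_iff]
  constructor
  · intro h a _
    obtain ⟨s, hs, hs'⟩ := h a a.2
    have h1 : a = ⟨_, mem_Gm.1 hs x trivial⟩ - (⟨_, mem_Gm.1 hs x trivial⟩ - a) :=
      (sub_sub_cancel _ _).symm
    rw [h1]
    exact sub_mem (Submodule.mem_sup_left ⟨s, hs, rfl⟩)
      (Submodule.mem_sup_right ((coe_mem_mp _).1 hs'))
  · intro h a ha
    obtain ⟨y, ⟨s, hs, hy⟩, z, hz, e⟩ := Submodule.mem_sup.1 (h (Submodule.mem_top (x := ⟨a, ha⟩)))
    refine ⟨s, hs, ?_⟩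
    have e1 : (y : Fn X) + z = a := congrArg Subtype.val e
    have e2 : s * D.f x = y := hy
    rw [e2, ← e1, sub_add_cancel_left]
    exact neg_mem ((coe_mem_mp z).2 hz)

theorem Jet_mul : Jet_W D x * Jet_W E x ≤ Jet_W (D + E) x := by
  refine Submodule.mul_le.2 ?_
  rintro a ⟨s, hs, ha⟩ b ⟨t, ht, hb⟩
  refine ⟨s * t, mul_mem_Gm hs ht, ?_⟩
  have e1 : s * D.f x = a := ha
  have e2 : t * E.f x = b := hb
  change s * t * (D.f x * E.f x) = a * b
  rw [mul_mul_mul_comm, e1, e2]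

theorem Jet_pow {f : Fn X} (hf : f ∈ mp X x 1) (p : ℕ) : f ^ p ∈ mp X x p := by
  induction p with
  | zero => rw [pow_zero]; exact mem_mp_zero.2 (one_mem _)
  | succ p ih => rw [pow_succ]; exact mul_mem_mp ih hf

theorem JS.congr (h : JS D x p) (e : cl D = cl E) : JS E x p := by
  obtain ⟨u, -, h1, -, h2, -⟩ := exists_of_cl_eq e
  exact Jet_unit h (fun s hs => (h2 ⊤ s).1 hs) (h1 x)

theorem JS.add (h : JS D x (p + 1)) (h' : JS E x (q + 1)) : JS (D + E) x (p + q + 1) := by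
  have h1 := sup_pow_mul (maximalIdeal (O X x)) (Jet_iff.1 h) (Jet_iff.1 h')
  rw [Jet_iff, eq_top_iff, ← h1]
  exact sup_le_sup_right Jet_mul _

theorem JS.nsmul (h : JS D x (p + 1)) (n : ℕ) : JS ((n + 1) • D) x ((n + 1) * p + 1) := by
  induction n with
  | zero => simpa using h
  | succ n ih =>
    rw [succ_nsmul, Nat.succ_mul]
    exact ih.add h

theorem JS.add_gg (h : JS D x p) (h' : GG E) : JS (D + E) x p := by
  obtain ⟨t, ht, hx⟩ := h' x
  refine Jet_unit h (u := t) (fun s hs => mul_comm s t ▸ mul_mem_Gm hs ht) ?_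
  convert mem_loc.1 hx using 1
  change t * (D.f x * E.f x) / D.f x = _
  rw [mul_left_comm, mul_div_cancel_left₀ _ (D.ne x)]

variable [IsProper X.hom]

theorem qc_jet (x : X.left) (p : ℕ) (D : Dv X) (hx : IsClosed ({x} : Set X.left)) :
    QC (tw (jet x p) D) := by
  refine ⟨fun y a v ha hv => ?_, fun U hU hg f hf h0 c hc => ?_⟩
  · rw [mem_tw, Jet_mem] at hv ⊢
    rw [mul_assoc]
    refine ⟨mul_mem ha hv.1, fun e => ?_⟩
    subst e
    exact O_mul_mem_mp ha (hv.2 rfl)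
  · obtain ⟨h1, h2⟩ := mem_tw_jet.1 hc
    obtain ⟨n, hn⟩ := (qc_st D).ext U hU hg f hf h0 c h1
    refine ⟨p + n, mem_tw_jet.2 ⟨?_, fun hxU => ?_⟩⟩
    · rw [pow_add, mul_assoc]
      exact B_mul_mem_Gm (pow_mem hf p) hn
    · by_cases hfx : f ∈ mp X x 1
      · rw [pow_add, mul_assoc, mul_assoc, ← mul_assoc (f ^ n), mul_comm]
        exact O_mul_mem_mp (mem_Gm.1 hn x hxU) (Jet_pow hfx p)
      · rw [mul_assoc]
        exact O_mul_mem_mp (pow_mem (B_le_O hxU hf) _) (h2 ⟨hxU, B_le_O hxU hf, hfx⟩)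

theorem van_jet (hD : Van D) (h : JS D x p) : VanF (tw (jet x p) D) := by
  intro ι _ _ U hU
  refine Ex.of_exP (F := sys (st D) ⊤ U) (fun S v hv => (mem_tw_jet.1 hv).1) (hD ι U hU) ?_
  intro c hc hd
  obtain ⟨i₀, hi⟩ := hU.cov x
  have good : ∀ S : Finset ι, x ∈ ⊤ ⊓ S.inf U ↔ ∀ i ∈ S, x ∈ U i := fun S => by
    rw [top_inf_eq, van_mem_inf]
  have ins : ∀ S : Finset ι, x ∈ ⊤ ⊓ S.inf U → x ∈ ⊤ ⊓ (insert i₀ S).inf U := fun S hS => by
    rw [good] at hS ⊢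
    exact (Finset.forall_mem_insert _ _ _).2 ⟨hi, hS⟩
  set N : Submodule k (Fn X) := tw (fun _ => mp X x p) D x with hN
  have ex : ∀ S : Finset ι, ∃ a ∈ Gm D ⊤, x ∈ ⊤ ⊓ S.inf U → a - hh i₀ c S ∈ N := fun S => by
    by_cases hS : x ∈ ⊤ ⊓ S.inf U
    · have h1 : hh i₀ c S ∈ st D x := by
        rw [hh_apply]
        split_ifs
        exacts [zero_mem _, zsmul_mem (mem_secs.1 (hc _) x (ins S hS)) _]
      obtain ⟨s, hs, hs'⟩ := h _ (mem_st.1 h1)
      exact ⟨s, hs, fun _ => mem_tw.2 (by rwa [sub_mul])⟩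
    · exact ⟨0, zero_mem _, fun h1 => (hS h1).elim⟩
  choose a ha ha' using ex
  have haM : Mem (sys (st D) ⊤ U) a := fun S => Gm_anti le_top (ha S)
  refine ⟨a, haM, fun S => mem_tw_jet.2 ⟨(hc.sub (haM.dd sys_mono)) S, fun hS => ?_⟩⟩
  have e : c - dd a = hh i₀ (dd c) - dd (a - hh i₀ c) := by
    rw [map_sub]
    nth_rewrite 1 [← dd_hh i₀ c]
    abel
  change (c - dd a) S ∈ N
  rw [e, Pi.sub_apply]
  refine sub_mem ?_ ?_
  · rw [hh_apply]
    split_ifs
    exacts [zero_mem _, zsmul_mem (show dd c (insert i₀ S) ∈ N from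
      (mem_tw_jet.1 (hd _)).2 (ins S hS)) _]
  · rw [dd_apply]
    refine sum_mem fun i _ => zsmul_mem (ha' _ ?_) _
    rw [good] at hS ⊢
    exact fun j hj => hS j (Finset.mem_of_mem_erase hj)

end Pool.Agent.Work.MP_e57da2_ag
end

-- merged part: Pool.Agent.Work.MP_e57da2_ag.Unif
section
/-!
# Uniformity over ideals generated in bounded degree, and bounded presentations

Plans.  `uniform`: let `e : Fin M → P` be a basis of `restrictTotalDegree σ k D`.  A point `q : Fin M × Fin M → k` gives the polynomials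
`q_i = ∑ j, q (i, j) • e j` and the ideal `I q`; every ideal generated in degree `≤ D` is some `I q`.  For `l ∈ Λ` let
`𝔞 l` be the ideal of `MvPolynomial (Fin M × Fin M) k` vanishing at all `q` where the condition `l` fails.  If it holds at `q₀`, some element of `𝔞 l` is
nonzero at `q₀`: `Q = P ⧸ 𝔪 ^ p` is finite dimensional with basis `b r`; write `b r = φ r + ∑ i, a r i * (q₀)_i` mod `𝔪 ^ p`;
the determinant, in the basis `b`, of the family `φ r + ∑ i, a r i * q_i` is a polynomial in `q`, equal to `1` at `q₀`, and where it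
is nonzero the condition holds.  `⨆ l ∈ Λ, 𝔞 l` is finitely generated, so it is a finite supremum.
`presentation`: `π = aeval (Sum.elim (t ∘ succ) r)`.  `π (Phi m) = F (a + m)` by induction (`gen`).  Let `I₀` be the ideal generated by the elements of
`ker π` of degree `≤ a + 1`.  (1) `ker π ⊓ Phi m ≤ I₀`: clear for `m ≤ 1`; for `m + 2` write `φ = ∑ i, T i * φ i`, `φ i ∈ Phi (m+1)`, (`T 0 = 1`),
apply `syz` with `d = a + m`, lift `m i j` to an antisymmetric family in `Phi m`, and correct.  (2) `⨆ m, Phi m ⊔ I₀ = ⊤`: it contains `1` and is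
stable under all variables, because `r i * r j ∈ F (a + a) = π (Phi a)`.
-/

open MvPolynomial

namespace Pool.Agent.Work.MP_e57da2_ag

variable {k : Type} [Field k]

/-- the ideal of the origin -/
noncomputable def orig (k σ : Type) [Field k] : Ideal (MvPolynomial σ k) :=
  Ideal.span (Set.range X)

/-- `I` is generated by its elements of degree at most `D` -/
def GenDeg {σ : Type} (D : ℕ) (I : Ideal (MvPolynomial σ k)) : Prop :=
  I ≤ Ideal.span {f | f ∈ I ∧ f.totalDegree ≤ D}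

theorem unif_noeth {τ L : Type} [Finite τ] (U : L → (τ → k) → Prop) (Λ : Set L)
    (h : ∀ l q₀, U l q₀ → ∃ f : MvPolynomial τ k, eval q₀ f ≠ 0 ∧ ∀ q, eval q f ≠ 0 → U l q) :
    ∃ Λ₀ : Finset L, (Λ₀ : Set L) ⊆ Λ ∧ ∀ q, (∃ l ∈ Λ, U l q) → ∃ l ∈ Λ₀, U l q := by
  classical
  obtain ⟨T, hT, e⟩ := (Submodule.fg_span_iff_fg_span_finset_subset
    (R := MvPolynomial τ k) {f : MvPolynomial τ k | ∃ l ∈ Λ, ∀ q, eval q f ≠ 0 → U l q}).1
    (IsNoetherian.noetherian _)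
  choose l hl hU using fun f : T => hT f.2
  refine ⟨Finset.univ.image l, fun x hx => ?_, ?_⟩
  · obtain ⟨f, -, rfl⟩ := Finset.mem_image.1 (Finset.mem_coe.1 hx)
    exact hl f
  · rintro q ⟨l₀, h0, h1⟩
    obtain ⟨f, h2, h3⟩ := h l₀ q h1
    by_contra hc
    have h4 : f ∈ Submodule.span (MvPolynomial τ k) (T : Set (MvPolynomial τ k)) :=
      e ▸ Submodule.subset_span ⟨l₀, h0, h3⟩
    refine h2 ((Submodule.span_le (p := RingHom.ker (eval q))).2 (fun g hg => ?_) h4)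
    by_contra hg'
    exact hc ⟨l ⟨g, hg⟩, Finset.mem_image_of_mem _ (Finset.mem_univ _), hU ⟨g, hg⟩ q hg'⟩

theorem unif_open {P ι : Type} [CommRing P] [Algebra k P] [Fintype ι] (J : Ideal P)
    [Module.Finite k (P ⧸ J)] (Φ : Submodule k P) (e : ι → P) (q₀ : ι × ι → k)
    (h : Φ ⊔ (Ideal.span (Set.range fun i => ∑ j, q₀ (i, j) • e j) ⊔ J).restrictScalars k = ⊤) :
    ∃ f : MvPolynomial (ι × ι) k, eval q₀ f ≠ 0 ∧ ∀ q, eval q f ≠ 0 →
      Φ ⊔ (Ideal.span (Set.range fun i => ∑ j, q (i, j) • e j) ⊔ J).restrictScalars k = ⊤ := by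
  classical
  let b := Module.finBasis k (P ⧸ J)
  let π := (Ideal.Quotient.mkₐ k J).toLinearMap
  have h1 : ∀ r, ∃ φ ∈ Φ, ∃ a : ι → P, π (φ + ∑ i, a i * ∑ j, q₀ (i, j) • e j) = b r := by
    intro r
    obtain ⟨x, hx⟩ := Ideal.Quotient.mk_surjective (b r)
    obtain ⟨φ, hφ, y, hy, rfl⟩ := Submodule.mem_sup.1 (h ▸ Submodule.mem_top (x := x))
    obtain ⟨z, hz, w, hw, rfl⟩ := Submodule.mem_sup.1 ((Submodule.restrictScalars_mem _ _ _).1 hy)
    obtain ⟨a, rfl⟩ := Ideal.mem_span_range_iff_exists_fun.1 hz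
    refine ⟨φ, hφ, a, ?_⟩
    rw [← hx, ← add_assoc, map_add (Ideal.Quotient.mk J), Ideal.Quotient.eq_zero_iff_mem.2 hw,
      add_zero]
    rfl
  choose φ hφ a ha using h1
  obtain ⟨f, h2⟩ : ∃ f : MvPolynomial (ι × ι) k, ∀ q : ι × ι → k, eval q f =
      b.det fun r => π (φ r + ∑ i, a r i * ∑ j, q (i, j) • e j) := by
    refine ⟨Matrix.det (Matrix.of fun s r => C (b.repr (π (φ r)) s) +
      ∑ i, ∑ j, X (i, j) * C (b.repr (π (a r i * e j)) s)), fun q => ?_⟩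
    rw [RingHom.map_det, b.det_apply]
    congr 1
    ext s r
    simp [b.toMatrix_apply, Finset.mul_sum, -map_mul, eval_mul]
  refine ⟨f, ?_, fun q hq => ?_⟩
  rotate_left
  · rw [h2] at hq
    have h3 := (b.is_basis_iff_det.2 (Ne.isUnit hq)).2
    refine eq_top_iff.2 fun x _ => ?_
    obtain ⟨c, hc⟩ := (Submodule.mem_span_range_iff_exists_fun k).1
      (h3 ▸ Submodule.mem_top (x := π x))
    have h4 : x - ∑ r, c r • (φ r + ∑ i, a r i * ∑ j, q (i, j) • e j) ∈ J := by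
      rw [← Ideal.Quotient.eq_zero_iff_mem]
      change π _ = 0
      rw [map_sub, ← hc, map_sum, sub_eq_zero]
      simp only [map_smul]
    rw [← sub_add_cancel x (∑ r, c r • (φ r + ∑ i, a r i * ∑ j, q (i, j) • e j))]
    refine add_mem (Submodule.mem_sup_right (Submodule.mem_sup_right h4))
      (Submodule.sum_mem _ fun r _ => Submodule.smul_mem _ _ (Submodule.add_mem_sup (hφ r) ?_))
    exact Submodule.mem_sup_left (Ideal.mem_span_range_iff_exists_fun.2 ⟨a r, rfl⟩)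
  · rw [h2, funext ha, b.det_self]
    exact one_ne_zero

theorem unif_finite {σ : Type} [Finite σ] (p : ℕ) :
    Module.Finite k (MvPolynomial σ k ⧸ orig k σ ^ p) := by
  have : Algebra.IsIntegral k (MvPolynomial σ k ⧸ orig k σ ^ p) := ⟨fun x => by
    obtain ⟨f, rfl⟩ := Ideal.Quotient.mk_surjective x
    induction f using MvPolynomial.induction_on with
    | C a => exact isIntegral_algebraMap (x := a)
    | add f g h1 h2 =>
      rw [map_add]
      exact h1.add h2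
    | mul_X f i h1 =>
      rw [map_mul]
      refine h1.mul (IsIntegral.of_pow p.succ_pos ?_)
      rw [← map_pow, Ideal.Quotient.eq_zero_iff_mem.2]
      · exact isIntegral_zero
      · rw [pow_succ]
        exact Ideal.mul_mem_right _ _ (Ideal.pow_mem_pow (Ideal.subset_span (Set.mem_range_self i)) p)⟩
  exact Algebra.IsIntegral.finite

theorem unif_param {P : Type} [CommRing P] [Algebra k P] (V : Submodule k P) {ι : Type} [Fintype ι]
    (e : Module.Basis ι k V) (I : Ideal P) (h : I ≤ Ideal.span {f | f ∈ I ∧ f ∈ V}) :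
    ∃ q : ι × ι → k, I = Ideal.span (Set.range fun i => ∑ j, q (i, j) • (e j : P)) := by
  let W : Submodule k V := (I.restrictScalars k).comap V.subtype
  obtain ⟨g, hg⟩ := LinearMap.exists_leftInverse_of_injective (K := k) (V := W) (V' := V)
    W.subtype W.ker_subtype
  have h1 : ∀ i, ∑ j, e.repr (g (e i)) j • (e j : P) = (g (e i) : V) := fun i => by
    simpa only [Submodule.coe_sum, Submodule.coe_smul] using
      congrArg Subtype.val (e.sum_repr (g (e i)))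
  refine ⟨fun x => e.repr (g (e x.1)) x.2, le_antisymm (h.trans (Ideal.span_le.2 ?_))
    (Ideal.span_le.2 ?_)⟩
  · rintro f ⟨h2, h3⟩
    have h4 : g ⟨f, h3⟩ = ⟨⟨f, h3⟩, h2⟩ := LinearMap.congr_fun hg ⟨⟨f, h3⟩, h2⟩
    have h5 : f = ∑ i, e.repr ⟨f, h3⟩ i • ((g (e i) : V) : P) := by
      have := congrArg (fun x => ((g x : V) : P)) (e.sum_repr ⟨f, h3⟩)
      simp only [h4, map_sum, map_smul, Submodule.coe_sum, Submodule.coe_smul] at this
      exact this.symm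
    rw [h5]
    exact Submodule.sum_mem _ fun i _ => Submodule.smul_of_tower_mem _ _
      (Ideal.subset_span ⟨i, h1 i⟩)
  · rintro _ ⟨i, rfl⟩
    simp only [h1]
    exact (g (e i)).2

theorem uniform {σ : Type} [Finite σ] (Φ : ℕ → Submodule k (MvPolynomial σ k)) (D : ℕ)
    (Λ : Set (ℕ × ℕ)) : ∃ Λ₀ : Finset (ℕ × ℕ), (Λ₀ : Set (ℕ × ℕ)) ⊆ Λ ∧
      ∀ I : Ideal (MvPolynomial σ k), GenDeg D I →
        (∃ l ∈ Λ, Φ l.1 ⊔ (I ⊔ orig k σ ^ l.2).restrictScalars k = ⊤) →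
        ∃ l ∈ Λ₀, Φ l.1 ⊔ (I ⊔ orig k σ ^ l.2).restrictScalars k = ⊤ := by
  let e := Module.finBasis k (restrictTotalDegree σ k D)
  obtain ⟨Λ₀, h1, h2⟩ := unif_noeth (fun (l : ℕ × ℕ) q => Φ l.1 ⊔ (Ideal.span (Set.range fun i =>
    ∑ j, q (i, j) • (e j : MvPolynomial σ k)) ⊔ orig k σ ^ l.2).restrictScalars k = ⊤) Λ
    fun l q₀ h => haveI := unif_finite (k := k) (σ := σ) l.2; unif_open _ _ _ q₀ h
  refine ⟨Λ₀, h1, fun I hI => ?_⟩
  obtain ⟨q, rfl⟩ := unif_param _ e I (by simpa only [mem_restrictTotalDegree, GenDeg] using hI)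
  exact h2 q

/-- polynomials of degree `≤ m` in the first variables and of degree `≤ 1` in the others -/
noncomputable def Phi (k : Type) [Field k] (g N m : ℕ) :
    Submodule k (MvPolynomial (Fin g ⊕ Fin N) k) :=
  Submodule.span k (insert 1 (Set.range fun i => X (Sum.inl i))) ^ m *
    Submodule.span k (insert 1 (Set.range fun j => X (Sum.inr j)))

theorem unif_mem_mul {P ι : Type} [CommRing P] [Algebra k P] [Fintype ι] (T : ι → P)
    (W : Submodule k P) (x : P) : x ∈ Submodule.span k (Set.range T) * W ↔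
      ∃ φ : ι → P, (∀ i, φ i ∈ W) ∧ ∑ i, T i * φ i = x := by
  constructor
  · intro h
    refine Submodule.mul_induction_on h (fun m hm n hn => ?_) ?_
    · obtain ⟨c, rfl⟩ := (Submodule.mem_span_range_iff_exists_fun k).1 hm
      exact ⟨fun i => c i • n, fun i => W.smul_mem _ hn, by simp [Finset.sum_mul]⟩
    · rintro _ _ ⟨φ, h1, rfl⟩ ⟨ψ, h2, rfl⟩
      exact ⟨fun i => φ i + ψ i, fun i => add_mem (h1 i) (h2 i), by
        simp only [mul_add, Finset.sum_add_distrib]⟩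
  · rintro ⟨φ, h, rfl⟩
    exact Submodule.sum_mem _ fun i _ => Submodule.mul_mem_mul (Submodule.subset_span ⟨i, rfl⟩) (h i)

/-- the constant `1` followed by the first variables -/
noncomputable def unifT (k : Type) [Field k] (g N : ℕ) :
    Fin (g + 1) → MvPolynomial (Fin g ⊕ Fin N) k := Fin.cons 1 fun i => X (Sum.inl i)

theorem unif_zero (g N : ℕ) :
    Phi k g N 0 = Submodule.span k (insert 1 (Set.range fun j => X (Sum.inr j))) := by
  rw [Phi, pow_zero, one_mul]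

theorem unif_succ {g N m : ℕ} {x : MvPolynomial (Fin g ⊕ Fin N) k} : x ∈ Phi k g N (m + 1) ↔
    ∃ φ : Fin (g + 1) → _, (∀ i, φ i ∈ Phi k g N m) ∧ ∑ i, unifT k g N i * φ i = x := by
  rw [← unif_mem_mul, unifT, Fin.range_cons, Phi, Phi, pow_succ', mul_assoc]

theorem unif_mul {g N m : ℕ} {x : MvPolynomial (Fin g ⊕ Fin N) k} (h : x ∈ Phi k g N m)
    (i : Fin (g + 1)) : unifT k g N i * x ∈ Phi k g N (m + 1) :=
  unif_succ.2 ⟨Pi.single i x, fun j => by
    by_cases e : j = i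
    · rwa [e, Pi.single_eq_same]
    · rw [Pi.single_eq_of_ne e]
      exact zero_mem _, by simp [Pi.single_apply]⟩

theorem unif_mono (g N : ℕ) : Monotone (Phi k g N) :=
  monotone_nat_of_le_succ fun m x h => by simpa [unifT] using unif_mul h 0

theorem unif_deg {g N m : ℕ} {x : MvPolynomial (Fin g ⊕ Fin N) k} (h : x ∈ Phi k g N m) :
    x.totalDegree ≤ m + 1 := by
  induction m generalizing x with
  | zero =>
    rw [unif_zero] at h
    refine (mem_restrictTotalDegree _ _ _).1 (Submodule.span_le.2 ?_ h)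
    rintro _ (rfl | ⟨j, rfl⟩) <;> simp [mem_restrictTotalDegree]
  | succ m ih =>
    obtain ⟨φ, h1, rfl⟩ := unif_succ.1 h
    refine totalDegree_finsetSum_le fun i _ => (totalDegree_mul _ _).trans ?_
    have h2 : (unifT k g N i).totalDegree ≤ 1 := by
      cases i using Fin.cases <;> simp [unifT]
    have := ih (h1 i)
    omega

theorem presentation {B : Type} [CommRing B] [Algebra k B] (F : ℕ → Submodule k B)
    (mul : ∀ a b, F a * F b ≤ F (a + b)) (exh : ∀ x, ∃ m, x ∈ F m) (mono : Monotone F)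
    {g N a : ℕ} (ha : 1 ≤ a) (t : Fin (g + 1) → B) (t0 : t 0 = 1) (ht : ∀ i, t i ∈ F 1)
    (gen : ∀ d, a ≤ d → ∀ v ∈ F (d + 1), ∃ h : Fin (g + 1) → B, (∀ i, h i ∈ F d) ∧
      ∑ i, t i * h i = v)
    (syz : ∀ d, a ≤ d → ∀ h : Fin (g + 1) → B, (∀ i, h i ∈ F (d + 1)) → ∑ i, t i * h i = 0 →
      ∃ m : Fin (g + 1) → Fin (g + 1) → B, (∀ i j, m i j ∈ F d) ∧ (∀ i, m i i = 0) ∧
        (∀ i j, m i j = -m j i) ∧ ∀ i, h i = ∑ j, t j * m i j)
    (r : Fin N → B) (hr : Submodule.span k (insert 1 (Set.range r)) = F a) :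
    Function.Surjective (aeval (R := k) (Sum.elim (fun i : Fin g => t i.succ) r)) ∧
      (∀ m, (Phi k g N m).map (aeval (Sum.elim (fun i : Fin g => t i.succ) r)).toLinearMap =
        F (a + m)) ∧
      GenDeg (a + 1) (RingHom.ker (aeval (R := k) (Sum.elim (fun i : Fin g => t i.succ) r))) := by
  set π := aeval (R := k) (Sum.elim (fun i : Fin g => t i.succ) r) with hπ
  have hT : ∀ i, π (unifT k g N i) = t i := fun i => by
    cases i using Fin.cases <;> simp [unifT, hπ, t0]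
  have h1 : ∀ m, (Phi k g N m).map π.toLinearMap = F (a + m) := by
    intro m
    induction m with
    | zero =>
      rw [unif_zero, Submodule.map_span, Set.image_insert_eq, ← Set.range_comp, add_zero, ← hr]
      simp [hπ, Function.comp_def]
    | succ m ih =>
      refine le_antisymm ?_ fun v hv => ?_
      · rintro _ ⟨x, hx, rfl⟩
        obtain ⟨φ, h1, rfl⟩ := unif_succ.1 hx
        rw [map_sum]
        refine Submodule.sum_mem _ fun i _ => ?_
        rw [AlgHom.toLinearMap_apply, map_mul, hT, ← add_assoc, add_comm _ 1]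
        exact mul _ _ (Submodule.mul_mem_mul (ht i) (ih ▸ ⟨_, h1 i, rfl⟩))
      · obtain ⟨h, h2, rfl⟩ := gen (a + m) (by omega) v hv
        rw [← ih] at h2
        choose φ h3 h4 using h2
        refine ⟨_, unif_succ.2 ⟨φ, h3, rfl⟩, ?_⟩
        rw [map_sum]
        refine Finset.sum_congr rfl fun i _ => ?_
        rw [AlgHom.toLinearMap_apply, map_mul, hT, ← h4]
        rfl
  have h1' : ∀ m x, x ∈ F (a + m) → ∃ φ ∈ Phi k g N m, π φ = x := fun m x hx => by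
    rw [← h1] at hx
    exact hx
  have h1'' : ∀ m φ, φ ∈ Phi k g N m → π φ ∈ F (a + m) := fun m φ h => h1 m ▸ ⟨φ, h, rfl⟩
  refine ⟨fun x => ?_, h1, ?_⟩
  · obtain ⟨m, hm⟩ := exh x
    obtain ⟨φ, -, h⟩ := h1' m x (mono (by omega) hm)
    exact ⟨φ, h⟩
  unfold GenDeg
  set I := Ideal.span {f | f ∈ RingHom.ker π ∧ f.totalDegree ≤ a + 1}
  have hI : I ≤ RingHom.ker π := Ideal.span_le.2 fun f hf => hf.1
  have h2 : ∀ m, ∀ φ ∈ Phi k g N (m + 1), π φ = 0 → φ ∈ I := by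
    intro m
    induction m with
    | zero => exact fun φ h e => Ideal.subset_span ⟨e, (unif_deg h).trans (by omega)⟩
    | succ m ih =>
      intro x hx e
      obtain ⟨φ, h3, rfl⟩ := unif_succ.1 hx
      obtain ⟨u, u1, u2, u3, u4⟩ := syz (a + m) (by omega) (fun i => π (φ i))
        (fun i => h1'' _ _ (h3 i)) (by simpa only [map_sum, map_mul, hT] using e)
      choose μ μ1 μ2 using fun i j => h1' m _ (u1 i j)
      obtain ⟨ν, ν1, ν2⟩ : ∃ ν : Fin (g + 1) → Fin (g + 1) → MvPolynomial (Fin g ⊕ Fin N) k,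
          (∀ i j, ν i j ∈ Phi k g N m) ∧ ∀ i j, π (ν i j - ν j i) = u i j := by
        refine ⟨fun i j => if i < j then μ i j else 0, fun i j => ?_, fun i j => ?_⟩
        · beta_reduce
          split_ifs
          exacts [μ1 i j, zero_mem _]
        · rcases lt_trichotomy i j with h | rfl | h
          · simp [h, h.not_gt, μ2]
          · simp [u2]
          · simp [h, h.not_gt, μ2, u3 i j]
      have h4 : ∑ i, unifT k g N i * φ i =
          ∑ i, unifT k g N i * (φ i - ∑ j, unifT k g N j * (ν i j - ν j i)) := by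
        simp only [mul_sub, Finset.sum_sub_distrib, Finset.mul_sum]
        rw [Finset.sum_comm (f := fun i j => unifT k g N i * (unifT k g N j * ν j i))]
        simp only [mul_left_comm, sub_self, sub_zero]
      rw [h4]
      refine Ideal.sum_mem _ fun i _ => Ideal.mul_mem_left _ _ (ih _ (sub_mem (h3 i)
        (unif_succ.2 ⟨_, fun j => sub_mem (ν1 i j) (ν1 j i), rfl⟩)) ?_)
      rw [map_sub, map_sum, u4 i, sub_eq_zero]
      exact Finset.sum_congr rfl fun j _ => by rw [map_mul, hT, ν2]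
  have h3 : ∀ j m, ∀ φ ∈ Phi k g N m, ∃ ψ ∈ Phi k g N (a + m), φ * X (Sum.inr j) - ψ ∈ I := by
    intro j m
    induction m with
    | zero =>
      intro φ h
      have hj : (X (Sum.inr j) : MvPolynomial (Fin g ⊕ Fin N) k) ∈ Phi k g N 0 :=
        unif_zero (k := k) g N ▸ Submodule.subset_span (Or.inr ⟨j, rfl⟩)
      obtain ⟨ψ, h4, h5⟩ := h1' a _ (mul _ _ (Submodule.mul_mem_mul (h1'' _ _ h) (h1'' _ _ hj)))
      refine ⟨ψ, h4, Ideal.subset_span ⟨by rw [RingHom.mem_ker, map_sub, map_mul, h5, sub_self],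
        (totalDegree_sub _ _).trans (max_le ((totalDegree_mul _ _).trans ?_) (unif_deg h4))⟩⟩
      have := unif_deg h
      have := unif_deg hj
      omega
    | succ m ih =>
      intro x hx
      obtain ⟨φ, h3, rfl⟩ := unif_succ.1 hx
      choose ψ h4 h5 using fun i => ih _ (h3 i)
      refine ⟨_, unif_succ.2 ⟨ψ, h4, rfl⟩, ?_⟩
      rw [Finset.sum_mul, ← Finset.sum_sub_distrib]
      refine Ideal.sum_mem _ fun i _ => ?_
      rw [mul_assoc, ← mul_sub]
      exact Ideal.mul_mem_left _ _ (h5 i)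
  have h4 : ∀ f, ∃ m, ∃ φ ∈ Phi k g N m, f - φ ∈ I := by
    intro f
    induction f using MvPolynomial.induction_on with
    | C c =>
      refine ⟨0, C c, ?_, by simp⟩
      rw [unif_zero, C_eq_smul_one]
      exact Submodule.smul_mem _ _ (Submodule.subset_span (Or.inl rfl))
    | add f f' ih ih' =>
      obtain ⟨m, φ, h4, h5⟩ := ih
      obtain ⟨m', φ', h6, h7⟩ := ih'
      refine ⟨m + m', φ + φ', add_mem (unif_mono g N (by omega) h4) (unif_mono g N (by omega) h6), ?_⟩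
      rw [add_sub_add_comm]
      exact add_mem h5 h7
    | mul_X f s ih =>
      obtain ⟨m, φ, h4, h5⟩ := ih
      rcases s with i | j
      · refine ⟨m + 1, _, unif_mul h4 i.succ, ?_⟩
        rw [unifT, Fin.cons_succ, mul_comm (X _), ← sub_mul]
        exact Ideal.mul_mem_right _ _ h5
      · obtain ⟨ψ, h6, h7⟩ := h3 j m φ h4
        refine ⟨_, ψ, h6, ?_⟩
        rw [← sub_add_sub_cancel _ (φ * X (Sum.inr j)), ← sub_mul]
        exact add_mem (Ideal.mul_mem_right _ _ h5) h7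
  intro f hf
  obtain ⟨m, φ, h5, h6⟩ := h4 f
  rw [← sub_add_cancel f φ]
  refine add_mem h6 (h2 m φ (unif_mono g N m.le_succ h5) ?_)
  simpa using sub_mem hf (hI h6)

/-- transfer of the jet condition along a presentation -/
theorem jet_transfer {B σ : Type} [CommRing B] [Algebra k B] (y : σ → B)
    (hs : Function.Surjective (aeval (R := k) y)) (𝔪 : Ideal B) (h𝔪 : 𝔪 ≠ ⊤) (hy : ∀ i, y i ∈ 𝔪)
    (Φ : Submodule k (MvPolynomial σ k)) (p : ℕ) :
    Φ ⊔ (RingHom.ker (aeval (R := k) y) ⊔ orig k σ ^ p).restrictScalars k = ⊤ ↔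
      Φ.map (aeval y).toLinearMap ⊔ (𝔪 ^ p).restrictScalars k = ⊤ := by
  have h1 : (orig k σ).map (aeval (R := k) y) ≤ 𝔪 := by
    rw [orig, Ideal.map_span, Ideal.span_le]
    rintro _ ⟨_, ⟨i, rfl⟩, rfl⟩
    simpa using hy i
  have h2 : ∀ f : MvPolynomial σ k, ∃ c, f - C c ∈ orig k σ := by
    intro f
    induction f using MvPolynomial.induction_on with
    | C c => exact ⟨c, by simp⟩
    | add f g ih ih' =>
      obtain ⟨c, hc⟩ := ih
      obtain ⟨d, hd⟩ := ih'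
      exact ⟨c + d, by rw [map_add, add_sub_add_comm]; exact add_mem hc hd⟩
    | mul_X f i _ =>
      exact ⟨0, by
        rw [map_zero, sub_zero]
        exact Ideal.mul_mem_left _ _ (Ideal.subset_span (Set.mem_range_self i))⟩
  have h3 : (orig k σ).map (aeval (R := k) y) = 𝔪 := by
    refine le_antisymm h1 fun x hx => ?_
    obtain ⟨f, rfl⟩ := hs x
    obtain ⟨c, hc⟩ := h2 f
    have h4 := Ideal.mem_map_of_mem (aeval (R := k) y) hc
    obtain rfl : c = 0 := by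
      by_contra h0
      refine h𝔪 (Ideal.eq_top_of_isUnit_mem _ ?_ ((Ne.isUnit h0).map (algebraMap k B)))
      simpa using sub_mem hx (h1 h4)
    simpa using h4
  rw [← h3, ← Ideal.map_pow, eq_top_iff, eq_top_iff]
  constructor
  · intro h x _
    obtain ⟨f, rfl⟩ := hs x
    obtain ⟨φ, hφ, z, hz, rfl⟩ := Submodule.mem_sup.1 (h (Submodule.mem_top (x := f)))
    obtain ⟨u, hu, w, hw, rfl⟩ := Submodule.mem_sup.1 ((Submodule.restrictScalars_mem _ _ _).1 hz)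
    rw [map_add, map_add, (RingHom.mem_ker).1 hu, zero_add]
    exact Submodule.add_mem_sup ⟨φ, hφ, rfl⟩ (Ideal.mem_map_of_mem _ hw)
  · intro h f _
    obtain ⟨_, ⟨φ, hφ, rfl⟩, z, hz, e⟩ := Submodule.mem_sup.1 (h (Submodule.mem_top (x := aeval y f)))
    obtain ⟨w, hw, rfl⟩ := (Ideal.mem_map_iff_of_surjective _ hs).1
      ((Submodule.restrictScalars_mem _ _ _).1 hz)
    have e' : f = φ + (f - φ - w + w) := by ring
    rw [e']
    refine Submodule.add_mem_sup hφ (Submodule.add_mem_sup ?_ hw)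
    rw [RingHom.mem_ker, map_sub, map_sub, ← e, AlgHom.toLinearMap_apply]
    ring

end Pool.Agent.Work.MP_e57da2_ag
end

-- merged part: Pool.Agent.Work.MP_e57da2_ag.Dem2
section
/-!
# Separation of jets from lower bounds on curves: the noetherian induction

See section 2 of `/team-store/h72_e57da2_proof.md`.  Well-founded induction on `J` (for all `t` at once).  If `J ≤ 𝔪` is not prime use
`Sep.of_mul`.  For a prime `J ≤ 𝔪` suppose `¬ Sep J t`; let `σ = sSup {s | Sep J s}`, `0 < σ ≤ t`; choose `t < w' < w` and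
`0 < t₂ < σ < t₁ < w'` with `t₁ ^ 2 < t₂ w'`.  As `¬ Sep J t₁`, `Sep.of_slope` and the induction hypothesis show that
`f ∈ F m`, `f ∈ J ⊔ 𝔪 ^ j`, `t₁ m ≤ j`, `0 < m` imply `f ∈ J`; so `hf J m ≤ cd ⌈t₁ m⌉`.  Split by `EvPoly.cases` (`hilbert_samuel`, `cd_mono`):
`Sep.of_stable`; the curve hypothesis; or `slope_contra` with `H i = hf J (i m₀)`, `T = ⌈t₁ m₀⌉`, `T' = ⌈t₂ m₀⌉`, `W = ⌊w' m₀⌋` for a large `m₀`, and
`g ∈ F m₀` congruent modulo `J ⊔ 𝔪 ^ (T'+1)` to an element of `𝔪 ^ T'` outside `J ⊔ 𝔪 ^ (T'+1)` (if there is none then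
`J ⊔ 𝔪 ^ j` is stationary from `T'` on and `Sep.of_stable` applies).
-/

open Module

namespace Pool.Agent.Work.MP_e57da2_ag

variable {k B : Type} [Field k] [CommRing B] [Algebra k B] [IsNoetherianRing B]

theorem Dem2_choose {σ w : ℝ} (h0 : 0 < σ) (h1 : σ < w) :
    ∃ t₁ t₂ : ℝ, 0 < t₂ ∧ t₂ < σ ∧ σ < t₁ ∧ t₁ < w ∧ t₁ ^ 2 < t₂ * w := by
  have hw : 0 < w := h0.trans h1
  obtain ⟨δ, hδ⟩ : ∃ δ : ℝ, δ * (4 * w) = σ * (w - σ) :=
    ⟨σ * (w - σ) / (4 * w), div_mul_cancel₀ _ (by positivity)⟩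
  have h2 : 0 < σ * (w - σ) := mul_pos h0 (by linarith)
  have h3 : 0 < δ := by
    by_contra h
    have : δ * (4 * w) ≤ 0 := mul_nonpos_of_nonpos_of_nonneg (not_lt.1 h) (by positivity)
    linarith
  have h4 : 4 * δ < σ := by
    by_contra h
    have : σ * w ≤ 4 * δ * w := mul_le_mul_of_nonneg_right (not_lt.1 h) hw.le
    linarith only [hδ, this, h0, mul_pos_of_neg_of_neg (Mathlib.Tactic.Linarith.sub_neg_of_lt h0) (Mathlib.Tactic.Linarith.sub_neg_of_lt h0)]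
  have h5 : 4 * δ < w - σ := by
    by_contra h
    have : (w - σ) * w ≤ 4 * δ * w := mul_le_mul_of_nonneg_right (not_lt.1 h) hw.le
    linarith only [hδ, this, h1, mul_pos_of_neg_of_neg (Mathlib.Tactic.Linarith.sub_neg_of_lt h1) (Mathlib.Tactic.Linarith.sub_neg_of_lt h1)]
  refine ⟨σ + δ, σ - δ, by linarith, by linarith, by linarith, by linarith, ?_⟩
  have h6 : δ * σ < δ * w := mul_lt_mul_of_pos_left h1 h3
  have h7 : δ * δ < δ * w := mul_lt_mul_of_pos_left (by linarith) h3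
  linarith only [hδ, h6, h7]

theorem Dem2_large {a : ℝ} (ha : 0 < a) (b : ℝ) : ∀ᶠ m : ℕ in Filter.atTop, b ≤ a * m :=
  (Filter.Tendsto.const_mul_atTop ha tendsto_natCast_atTop_atTop).eventually_ge_atTop b

theorem Dem2_m {t₁ t₂ w s c : ℝ} (h0 : 0 < t₂) (h1 : 0 < t₁) (h2 : t₁ < w) (h3 : t₁ ^ 2 < t₂ * w)
    (h4 : t₂ < s) : ∃ m : ℕ, 0 < m ∧ 0 < ⌈t₁ * m⌉₊ ∧ ⌈t₁ * m⌉₊ ≤ ⌊w * m⌋₊ ∧
      ⌈t₁ * m⌉₊ ^ 2 < ⌈t₂ * m⌉₊ * ⌊w * m⌋₊ ∧ ((⌈t₂ * m⌉₊ + 1 : ℕ) : ℝ) ≤ s * m - c := by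
  obtain ⟨m, ⟨⟨a1, a2⟩, a3⟩, a4⟩ := ((((Dem2_large (sub_pos.2 h2) 1).and
    (Dem2_large (sub_pos.2 h3) (2 * t₁ + t₂ + 1))).and (Dem2_large (sub_pos.2 h4) (2 + c))).and
    (Filter.eventually_ge_atTop 1)).exists
  have hm : (1 : ℝ) ≤ m := by exact_mod_cast a4
  have b1 : (⌈t₁ * m⌉₊ : ℝ) < t₁ * m + 1 := Nat.ceil_lt_add_one (by positivity)
  have b2 : (⌈t₂ * m⌉₊ : ℝ) < t₂ * m + 1 := Nat.ceil_lt_add_one (by positivity)
  have b3 : t₂ * m ≤ (⌈t₂ * m⌉₊ : ℝ) := Nat.le_ceil _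
  have b4 : w * m < (⌊w * m⌋₊ : ℝ) + 1 := Nat.lt_floor_add_one _
  refine ⟨m, a4, Nat.ceil_pos.2 (by positivity), Nat.le_floor (by linarith only [a1, b1]), ?_, ?_⟩
  · have c1 : (⌈t₁ * m⌉₊ : ℝ) ^ 2 < (t₁ * m + 1) ^ 2 :=
      pow_lt_pow_left₀ b1 (Nat.cast_nonneg _) two_ne_zero
    have c2 : t₂ * m * (w * m - 1) ≤ (⌈t₂ * m⌉₊ : ℝ) * ⌊w * m⌋₊ :=
      (mul_le_mul_of_nonneg_left (by linarith only [b4]) (by positivity)).trans
        (mul_le_mul_of_nonneg_right b3 (Nat.cast_nonneg _))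
    have c3 : (2 * t₁ + t₂ + 1) * m ≤ (t₂ * w - t₁ ^ 2) * m * m :=
      mul_le_mul_of_nonneg_right a2 (by positivity)
    have c4 : (⌈t₁ * m⌉₊ : ℝ) ^ 2 < (⌈t₂ * m⌉₊ : ℝ) * ⌊w * m⌋₊ := by linarith only [hm, c1, c2, c3]
    exact_mod_cast c4
  · push_cast
    linarith only [a3, b2]

theorem Dem2_stable (J 𝔪 : Ideal B) {T : ℕ} (h : 𝔪 ^ T ≤ J ⊔ 𝔪 ^ (T + 1)) (j : ℕ) (hj : T ≤ j) :
    J ⊔ 𝔪 ^ (j + 1) = J ⊔ 𝔪 ^ j := by
  refine le_antisymm (sup_le_sup_left (Ideal.pow_le_pow_right j.le_succ) J) (sup_le le_sup_left ?_)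
  obtain ⟨i, rfl⟩ := Nat.exists_eq_add_of_le' hj
  rw [pow_add]
  refine (Ideal.mul_mono_right h).trans ?_
  rw [Ideal.mul_sup, ← pow_add, add_assoc]
  exact sup_le_sup_right Ideal.mul_le_right _

theorem Dem2_lt {J : Ideal B} {f : B} (h : f ∉ J) : J < J ⊔ Ideal.span {f} :=
  lt_of_le_of_ne le_sup_left fun e =>
    h (e ▸ Ideal.mem_sup_right (Ideal.mem_span_singleton_self f))

theorem Dem2_prime {F : ℕ → Submodule k B} (hF : Filt F) (𝔪 : Ideal B)
    [FiniteDimensional k (B ⧸ 𝔪)] {w : ℝ} (J : Ideal B) [J.IsPrime]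
    (curve : ∀ a j₀ : ℕ, 1 ≤ a → (∀ j, j₀ ≤ j → cd k J 𝔪 (j + 1) = cd k J 𝔪 j + a) →
      ∀ C : ℝ, ∃ m : ℕ, w * a * m + C < hf F J m)
    (ih : ∀ J', J < J' → ∀ t, 0 < t → t < w → Sep F 𝔪 J' t)
    {t : ℝ} (ht : 0 < t) (htw : t < w) : Sep F 𝔪 J t := by
  by_contra hno
  obtain ⟨s₀, hs₀, hs₀'⟩ := Sep.pos (𝔪 := 𝔪) (J := J) hF
  have hub : ∀ s ∈ {s | Sep F 𝔪 J s}, s ≤ t := fun s hs => by
    by_contra h
    exact hno (Sep.mono hs (not_le.1 h).le)
  have hbdd : BddAbove {s | Sep F 𝔪 J s} := ⟨t, hub⟩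
  have hne : {s | Sep F 𝔪 J s}.Nonempty := ⟨s₀, hs₀'⟩
  have hσ0 : 0 < sSup {s | Sep F 𝔪 J s} := hs₀.trans_le (le_csSup hbdd hs₀')
  have hσt : sSup {s | Sep F 𝔪 J s} ≤ t := csSup_le hne hub
  obtain ⟨w', hw1, hw2⟩ := exists_between htw
  obtain ⟨t₁, t₂, a0, a1, a2, a3, a4⟩ := Dem2_choose hσ0 (hσt.trans_lt hw1)
  have ht₁ : 0 < t₁ := hσ0.trans a2
  have hn₁ : ¬ Sep F 𝔪 J t₁ := fun h => absurd (le_csSup hbdd h) (not_le.2 a2)
  obtain ⟨s, ⟨cs, hcs⟩, hs⟩ := exists_lt_of_lt_csSup hne a1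
  have up : ∀ m j : ℕ, 0 < m → t₁ * m ≤ j → hf F J m ≤ cd k J 𝔪 j := by
    intro m j hm hj
    refine hf_le_cd hF fun f hf hf' => ?_
    by_contra h
    exact hn₁ (Sep.of_slope hF ht₁.le hm hf hf' hj (ih _ (Dem2_lt h) t₁ ht₁ (a3.trans hw2)))
  rcases EvPoly.cases (cd_mono (k := k) (J := J) (𝔪 := 𝔪)) (hilbert_samuel (k := k) 𝔪 J) with
    ⟨j₀, h⟩ | ⟨a, j₀, ha, h⟩ | ⟨p, j₀, hp, h⟩
  · exact hno (Sep.of_stable hF ht.le h)
  · have h1 : ∀ j, cd k J 𝔪 (j₀ + j) = cd k J 𝔪 j₀ + a * j := by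
      intro j
      induction j with
      | zero => simp
      | succ j ihj => rw [← add_assoc, h _ (Nat.le_add_right _ _), ihj]; ring
    obtain ⟨m, hm⟩ := curve a j₀ ha h (cd k J 𝔪 j₀ + a + hf F J 0)
    have e0 : (0 : ℝ) ≤ cd k J 𝔪 j₀ := Nat.cast_nonneg _
    have e1 : (0 : ℝ) ≤ a := Nat.cast_nonneg _
    have e2 : (0 : ℝ) ≤ hf F J 0 := Nat.cast_nonneg _
    rcases Nat.eq_zero_or_pos m with rfl | hm0
    · simp only [Nat.cast_zero, mul_zero, zero_add] at hm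
      linarith only [hm]
    · have h2 := (up m _ hm0 (Nat.le_ceil _)).trans
        (cd_mono (k := k) (J := J) (𝔪 := 𝔪) (Nat.le_add_left ⌈t₁ * m⌉₊ j₀))
      rw [h1] at h2
      have h3 : (hf F J m : ℝ) ≤ cd k J 𝔪 j₀ + a * (⌈t₁ * m⌉₊ : ℝ) := by exact_mod_cast h2
      have h4 : (⌈t₁ * m⌉₊ : ℝ) < t₁ * m + 1 := Nat.ceil_lt_add_one (by positivity)
      have h5 : t₁ * m ≤ w * m := mul_le_mul_of_nonneg_right (a3.trans hw2).le (Nat.cast_nonneg _)
      have h6 : a * (⌈t₁ * m⌉₊ : ℝ) ≤ a * (w * m + 1) := mul_le_mul_of_nonneg_left (by linarith only [h4, h5]) e1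
      linarith only [hm, h3, h6]
  · obtain ⟨m₀, hm₀, b1, b2, b3, b4⟩ := Dem2_m (c := cs) a0 ht₁ a3 a4 hs
    by_cases hst : 𝔪 ^ ⌈t₂ * m₀⌉₊ ≤ J ⊔ 𝔪 ^ (⌈t₂ * m₀⌉₊ + 1)
    · refine hno (Sep.of_stable hF ht.le (j₀ := ⌈t₂ * m₀⌉₊) fun j hj => ?_)
      unfold cd
      rw [Dem2_stable J 𝔪 hst j hj]
    obtain ⟨x, hx, hx'⟩ := SetLike.not_le_iff_exists.1 hst
    obtain ⟨g, hg, hxg⟩ := Dem_top.1 (hcs m₀ _ b4) x
    have hgJ : g ∉ J := fun hgJ => hx' (by
      simpa using Ideal.add_mem _ hxg (Ideal.mem_sup_left hgJ))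
    have hg' : g ∈ J ⊔ 𝔪 ^ ⌈t₂ * m₀⌉₊ := by
      have h1 : x - g ∈ J ⊔ 𝔪 ^ ⌈t₂ * m₀⌉₊ :=
        sup_le_sup_left (Ideal.pow_le_pow_right (Nat.le_succ _)) J hxg
      simpa using Ideal.sub_mem _ (Ideal.mem_sup_right hx : x ∈ J ⊔ 𝔪 ^ ⌈t₂ * m₀⌉₊) h1
    obtain ⟨c', hc'⟩ := ih _ (Dem2_lt hgJ) w' (ht.trans hw1) hw2
    refine slope_contra (ℓ := cd k J 𝔪) (H := fun i => hf F J (i * m₀)) (c := ⌈c'⌉₊) hp h b1 b2 b3
      (fun i hi => up _ _ (Nat.mul_pos hi hm₀) ?_) fun i => ?_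
    · have h1 : t₁ * m₀ * i ≤ (⌈t₁ * m₀⌉₊ : ℝ) * i :=
        mul_le_mul_of_nonneg_right (Nat.le_ceil _) (Nat.cast_nonneg _)
      push_cast
      linarith only [h1]
    · have h1 := hf_step hF hg hgJ (i * m₀)
      have h2 := cd_step (k := k) hg' (⌊w' * m₀⌋₊ * (i + 1) - ⌈c'⌉₊)
      have h3 : cd k (J ⊔ Ideal.span {g}) 𝔪 (⌊w' * m₀⌋₊ * (i + 1) - ⌈c'⌉₊) ≤
          hf F (J ⊔ Ideal.span {g}) (i * m₀ + m₀) := by
        refine cd_le_hf hF ?_
        rcases le_total (⌊w' * m₀⌋₊ * (i + 1)) ⌈c'⌉₊ with h4 | h4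
        · exact Dem_zero _ (by rw [Nat.sub_eq_zero_of_le h4]; simp)
        · refine hc' _ _ ?_
          have h5 : (⌊w' * m₀⌋₊ : ℝ) * (i + 1) ≤ w' * m₀ * (i + 1) :=
            mul_le_mul_of_nonneg_right
              (Nat.floor_le (mul_nonneg (ht.trans hw1).le (Nat.cast_nonneg _))) (by positivity)
          have h6 : c' ≤ (⌈c'⌉₊ : ℝ) := Nat.le_ceil _
          rw [Nat.cast_sub h4]
          push_cast
          linarith only [h5, h6]
      have h7 : (i + 1) * m₀ = i * m₀ + m₀ := by ring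
      simp only [h7]
      omega

theorem demailly {F : ℕ → Submodule k B} (hF : Filt F) (𝔪 : Ideal B) [𝔪.IsMaximal]
    [FiniteDimensional k (B ⧸ 𝔪)] {w : ℝ}
    (curve : ∀ 𝔭 : Ideal B, 𝔭.IsPrime → 𝔭 ≤ 𝔪 → ∀ a j₀ : ℕ, 1 ≤ a →
      (∀ j, j₀ ≤ j → cd k 𝔭 𝔪 (j + 1) = cd k 𝔭 𝔪 j + a) →
      ∀ C : ℝ, ∃ m : ℕ, w * a * m + C < hf F 𝔭 m)
    (J : Ideal B) {t : ℝ} (ht : 0 < t) (htw : t < w) : Sep F 𝔪 J t := by
  refine WellFoundedGT.induction (motive := fun J => ∀ t, 0 < t → t < w → Sep F 𝔪 J t) J ?_ t ht htw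
  intro J ih t ht htw
  by_cases hJm : J ≤ 𝔪
  swap
  · exact Sep.of_not_le hJm
  by_cases hJ : J.IsPrime
  · exact Dem2_prime hF 𝔪 J (curve J hJ hJm) ih ht htw
  rcases Ideal.not_isPrime_iff.1 hJ with h | ⟨x, hx, y, hy, hxy⟩
  · exact absurd (top_le_iff.1 (h ▸ hJm)) (Ideal.IsMaximal.ne_top ‹_›)
  refine Sep.of_mul hF ht.le x (ih _ (Dem2_lt hx) t ht htw) (ih _ ?_ t ht htw)
  refine lt_of_le_of_ne (fun z hz => Submodule.mem_colon_singleton.2 (J.mul_mem_right _ hz))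
    fun e => hy ?_
  rw [e]
  exact Submodule.mem_colon_singleton.2 (by rwa [smul_eq_mul, mul_comm])

end Pool.Agent.Work.MP_e57da2_ag
end

-- merged part: Pool.Agent.Work.MP_e57da2_ag.Unif2
section
/-!
# The uniform jet separation theorem, algebraic form

Plan.  `Model.shift`: replace `t i.succ` by `t' i.succ = t i.succ - c i` (`c i ∈ k` the value modulo `𝔪`), `t' 0 = 1`.  `gen` is immediate.  For `syz`, given
`∑ t' i * h' i = 0` put `h i.succ = h' i.succ`, `h 0 = h' 0 - ∑ c i • h' i.succ`, take `m` for `t`, and set `m' i j = m i j` for `i, j ≥ 1`,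
`m' i 0 = m i 0 + ∑ j, c j • m i j.succ`, `m' 0 i = - m' i 0`, `m' 0 0 = 0`; the equation for `h' 0` follows from `h' 0 = - ∑ t' i.succ * h' i.succ`
since `∑ i j, t' i * t' j * m i j = 0` for an antisymmetric family with zero diagonal.
`uniform_jets`: apply `uniform` to `Phi k g N`, `D = a + 1`, `Λ = {(m, p) | 1 ≤ p ∧ u (a + m) < p - 1}`, and let `Λ₁` be the image of `Λ₀` under
`(m, p) ↦ (a + m, p - 1)`.  For a model choose `r : Fin N → B` in `𝔪 ⊓ F a` with `span (insert 1 (range r)) = F a` (subtract constants from a spanning family, pad with zeros), use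
`presentation`, `jet_transfer`, and `demailly` with `J = ⊥` and a slope `u < t < w` to find an element of `Λ`.
-/

open Module

namespace Pool.Agent.Work.MP_e57da2_ag

variable {k : Type} [Field k]

/-- a filtered algebra with Koszul type generators and relations from degree `a` on -/
structure Model {B : Type} [CommRing B] [Algebra k B] (F : ℕ → Submodule k B) (g a : ℕ)
    (t : Fin (g + 1) → B) : Prop where
  filt : Filt F
  t0 : t 0 = 1
  mem : ∀ i, t i ∈ F 1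
  gen : ∀ d, a ≤ d → ∀ v ∈ F (d + 1), ∃ h : Fin (g + 1) → B, (∀ i, h i ∈ F d) ∧ ∑ i, t i * h i = v
  syz : ∀ d, a ≤ d → ∀ h : Fin (g + 1) → B, (∀ i, h i ∈ F (d + 1)) → ∑ i, t i * h i = 0 →
    ∃ m : Fin (g + 1) → Fin (g + 1) → B, (∀ i j, m i j ∈ F d) ∧ (∀ i, m i i = 0) ∧
      (∀ i j, m i j = -m j i) ∧ ∀ i, h i = ∑ j, t j * m i j

theorem unif2_anti {B ι : Type} [CommRing B] [Fintype ι] (s : ι → B) (M : ι → ι → B)
    (h0 : ∀ i, M i i = 0) (h1 : ∀ i j, M i j = -M j i) : ∑ i, s i * ∑ j, s j * M i j = 0 := by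
  classical
  have e : ∑ i, s i * ∑ j, s j * M i j = ∑ p : ι × ι, s p.1 * (s p.2 * M p.1 p.2) := by
    rw [Fintype.sum_prod_type]
    exact Finset.sum_congr rfl fun i _ => Finset.mul_sum _ _ _
  rw [e]
  refine Finset.sum_involution (fun p _ => p.swap) (fun p _ => ?_) (fun p _ hp => ?_)
    (fun _ _ => Finset.mem_univ _) (fun p _ => Prod.swap_swap p)
  · rw [Prod.fst_swap, Prod.snd_swap, h1 p.1 p.2]
    ring
  · intro h
    have h2 : p.2 = p.1 := congrArg Prod.fst h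
    exact hp (by rw [h2, h0, mul_zero, mul_zero])

theorem unif2_span {B : Type} [AddCommGroup B] [Module k B] (W : Submodule k B)
    [FiniteDimensional k W] {N : ℕ} (hN : finrank k W ≤ N) :
    ∃ v : Fin N → B, Submodule.span k (Set.range v) = W := by
  let b := Module.finBasis k W
  refine ⟨fun j => if h : j.1 < finrank k W then (b ⟨j.1, h⟩ : B) else 0,
    le_antisymm (Submodule.span_le.2 ?_) fun x hx => ?_⟩
  · rintro _ ⟨j, rfl⟩
    beta_reduce
    split_ifs with h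
    · exact (b ⟨j.1, h⟩).2
    · exact zero_mem _
  · have e : x = ∑ i, b.repr ⟨x, hx⟩ i • (b i : B) := by
      have := congrArg Subtype.val (b.sum_repr ⟨x, hx⟩)
      simp only [Submodule.coe_sum, Submodule.coe_smul] at this
      exact this.symm
    rw [e]
    refine Submodule.sum_mem _ fun i _ => Submodule.smul_mem _ _ (Submodule.subset_span
      ⟨⟨i.1, lt_of_lt_of_le i.2 hN⟩, ?_⟩)
    simp only [dif_pos i.2]

theorem Model.shift {B : Type} [CommRing B] [Algebra k B] {F : ℕ → Submodule k B} {g a : ℕ}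
    {t : Fin (g + 1) → B} (h : Model F g a t) (c : Fin g → k) :
    Model F g a (Fin.cons 1 fun i => t i.succ - algebraMap k B (c i)) := by
  have one : ∀ d, (1 : B) ∈ F d := fun d => h.filt.mono (Nat.zero_le d) h.filt.one
  refine ⟨h.filt, Fin.cons_zero _ _, fun i => ?_, fun d hd v hv => ?_, fun d hd h' h1 h2 => ?_⟩
  · cases i using Fin.cases with
    | zero => exact one 1
    | succ i =>
      rw [Fin.cons_succ, Algebra.algebraMap_eq_smul_one]
      exact sub_mem (h.mem _) (Submodule.smul_mem _ _ (one 1))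
  · obtain ⟨φ, h1, rfl⟩ := h.gen d hd v hv
    refine ⟨Fin.cons (φ 0 + ∑ i, c i • φ i.succ) fun i => φ i.succ, fun i => ?_, ?_⟩
    · cases i using Fin.cases with
      | zero =>
        exact add_mem (h1 0) (Submodule.sum_mem _ fun i _ => Submodule.smul_mem _ _ (h1 _))
      | succ i => exact h1 _
    · simp only [Fin.sum_univ_succ, Fin.cons_zero, Fin.cons_succ, h.t0, one_mul, sub_mul,
        Finset.sum_sub_distrib, Algebra.smul_def]
      ring
  · simp only [Fin.sum_univ_succ, Fin.cons_zero, Fin.cons_succ, one_mul] at h2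
    obtain ⟨m, m1, m2, m3, m4⟩ := h.syz d hd
      (Fin.cons (h' 0 - ∑ i, c i • h' i.succ) fun i => h' i.succ) (fun i => by
        cases i using Fin.cases with
        | zero =>
          exact sub_mem (h1 0) (Submodule.sum_mem _ fun i _ => Submodule.smul_mem _ _ (h1 _))
        | succ i => exact h1 _) (by
      simp only [Fin.sum_univ_succ, Fin.cons_zero, Fin.cons_succ, h.t0, one_mul,
        Algebra.smul_def]
      rw [← h2]
      simp only [sub_mul, Finset.sum_sub_distrib]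
      ring)
    set n : Fin g → B := fun i => m i.succ 0 + ∑ j, c j • m i.succ j.succ with hn
    have n1 : ∀ i, n i ∈ F d := fun i =>
      add_mem (m1 _ _) (Submodule.sum_mem _ fun j _ => Submodule.smul_mem _ _ (m1 _ _))
    have n2 : ∀ i : Fin g, h' i.succ =
        n i + ∑ j, (t j.succ - algebraMap k B (c j)) * m i.succ j.succ := fun i => by
      have e := m4 i.succ
      simp only [Fin.sum_univ_succ, Fin.cons_succ, h.t0, one_mul] at e
      rw [e]
      simp only [hn, sub_mul, Finset.sum_sub_distrib, Algebra.smul_def]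
      ring
    refine ⟨Fin.cons (Fin.cons 0 fun j => -n j) fun i => Fin.cons (n i) fun j => m i.succ j.succ,
      fun i j => ?_, fun i => ?_, fun i j => ?_, fun i => ?_⟩
    · cases i using Fin.cases <;> cases j using Fin.cases
      exacts [zero_mem _, neg_mem (n1 _), n1 _, m1 _ _]
    · cases i using Fin.cases
      exacts [rfl, m2 _]
    · cases i using Fin.cases <;> cases j using Fin.cases
      exacts [neg_zero.symm, rfl, (neg_neg _).symm, m3 _ _]
    · cases i using Fin.cases with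
      | zero =>
        simp only [Fin.sum_univ_succ, Fin.cons_zero, Fin.cons_succ, mul_zero, zero_add]
        have e := unif2_anti (fun j : Fin g => t j.succ - algebraMap k B (c j))
          (fun i j => m i.succ j.succ) (fun i => m2 _) (fun i j => m3 _ _)
        simp only [n2, mul_add, Finset.sum_add_distrib] at h2
        rw [e, add_zero] at h2
        simp only [mul_neg, Finset.sum_neg_distrib]
        exact eq_neg_of_add_eq_zero_left h2
      | succ i =>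
        simp only [Fin.sum_univ_succ, Fin.cons_zero, Fin.cons_succ, one_mul]
        exact n2 i

theorem uniform_jets (k : Type) [Field k] (g a N : ℕ) (ha : 1 ≤ a) (u : ℝ) (hu : 0 < u) :
    ∃ Λ₁ : Finset (ℕ × ℕ), (∀ l ∈ Λ₁, u * l.1 < l.2) ∧
      ∀ (B : Type) [CommRing B] [Algebra k B] [IsNoetherianRing B] (F : ℕ → Submodule k B)
        (t : Fin (g + 1) → B) (𝔪 : Ideal B) (w : ℝ), Model F g a t → finrank k (F a) ≤ N →
        𝔪.IsMaximal → (∀ b : B, ∃ c : k, b - algebraMap k B c ∈ 𝔪) → u < w →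
        (∀ 𝔭 : Ideal B, 𝔭.IsPrime → 𝔭 ≤ 𝔪 → ∀ a₀ j₀ : ℕ, 1 ≤ a₀ →
          (∀ j, j₀ ≤ j → cd k 𝔭 𝔪 (j + 1) = cd k 𝔭 𝔪 j + a₀) →
          ∀ C : ℝ, ∃ m : ℕ, w * a₀ * m + C < hf F 𝔭 m) →
        ∃ l ∈ Λ₁, F l.1 ⊔ (𝔪 ^ (l.2 + 1)).restrictScalars k = ⊤ := by
  classical
  obtain ⟨Λ₀, h0, h1⟩ := uniform (k := k) (Phi k g N) (a + 1)
    {l : ℕ × ℕ | 1 ≤ l.2 ∧ u * ((a + l.1 : ℕ) : ℝ) < ((l.2 - 1 : ℕ) : ℝ)}
  refine ⟨Λ₀.image fun l => (a + l.1, l.2 - 1), fun l hl => ?_, ?_⟩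
  · obtain ⟨l₀, h2, rfl⟩ := Finset.mem_image.1 hl
    exact (h0 h2).2
  intro B _ _ _ F t 𝔪 w hM hN h𝔪 hres huw curve
  choose c hc using hres
  have hM' := hM.shift fun i => c (t i.succ)
  have := hM.filt.fin a
  obtain ⟨v, hv⟩ := unif2_span (F a) hN
  have one : (1 : B) ∈ F a := hM.filt.mono (Nat.zero_le a) hM.filt.one
  have hr : Submodule.span k (insert 1 (Set.range fun j => v j - algebraMap k B (c (v j)))) =
      F a := by
    refine le_antisymm (Submodule.span_le.2 ?_) ?_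
    · rintro _ (rfl | ⟨j, rfl⟩)
      · exact one
      · refine sub_mem (hv ▸ Submodule.subset_span ⟨j, rfl⟩) ?_
        rw [Algebra.algebraMap_eq_smul_one]
        exact Submodule.smul_mem _ _ one
    · rw [← hv]
      refine Submodule.span_le.2 ?_
      rintro _ ⟨j, rfl⟩
      rw [← sub_add_cancel (v j) (algebraMap k B (c (v j)))]
      refine add_mem (Submodule.subset_span (Or.inr ⟨j, rfl⟩)) ?_
      rw [Algebra.algebraMap_eq_smul_one]
      exact Submodule.smul_mem _ _ (Submodule.subset_span (Or.inl rfl))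
  obtain ⟨p1, p2, p3⟩ := presentation F hM.filt.mul hM.filt.exh hM.filt.mono ha _ hM'.t0 hM'.mem
    hM'.gen hM'.syz _ hr
  have tr := jet_transfer _ p1 𝔪 h𝔪.ne_top (by
    rintro (i | j)
    · exact hc (t i.succ)
    · exact hc (v j))
  have : FiniteDimensional k (B ⧸ 𝔪) := by
    refine Module.Finite.of_surjective (Algebra.linearMap k (B ⧸ 𝔪)) fun x => ?_
    obtain ⟨b, rfl⟩ := Ideal.Quotient.mk_surjective x
    exact ⟨c b, (Ideal.Quotient.eq.2 (hc b)).symm⟩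
  obtain ⟨C, hC⟩ := demailly hM.filt 𝔪 curve ⊥ (t := (u + w) / 2) (by linarith only [hu, huw]) (by linarith only [huw])
  obtain ⟨m, hm⟩ := exists_nat_gt ((|C| + 3) / ((w - u) / 2))
  rw [div_lt_iff₀ (by linarith only [huw])] at hm
  have hCa := le_abs_self C
  have hA : (0 : ℝ) ≤ (a : ℝ) := Nat.cast_nonneg a
  have hm0 : (0 : ℝ) ≤ (m : ℝ) := Nat.cast_nonneg m
  have hkey : u * ((a + m : ℕ) : ℝ) + 3 < (u + w) / 2 * ((a + m : ℕ) : ℝ) - C := by
    push_cast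
    linarith only [hm, hCa, huw, mul_nonneg_of_nonpos_of_nonpos (Mathlib.Tactic.Linarith.sub_nonpos_of_le (Mathlib.Tactic.Linarith.natCast_nonneg ℝ a)) (le_of_lt (Mathlib.Tactic.Linarith.sub_neg_of_lt huw))]
  have hu0 : 0 ≤ u * ((a + m : ℕ) : ℝ) := by positivity
  set p := ⌊(u + w) / 2 * ((a + m : ℕ) : ℝ) - C⌋₊ with hp
  have q1 : (p : ℝ) ≤ (u + w) / 2 * ((a + m : ℕ) : ℝ) - C := Nat.floor_le (by linarith only [hkey, hu0])
  have q2 : (u + w) / 2 * ((a + m : ℕ) : ℝ) - C < p + 1 := Nat.lt_floor_add_one _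
  have q3 : 1 ≤ p := by
    have : (1 : ℝ) ≤ p := by linarith only [hkey, hu0, q2]
    exact_mod_cast this
  have q4 := hC (a + m) p q1
  rw [bot_sup_eq] at q4
  obtain ⟨l, hl, h2⟩ := h1 _ p3 ⟨(m, p), ⟨q3, by
    rw [Nat.cast_sub q3]
    push_cast at q2 hkey ⊢
    linarith only [q2, hkey]⟩, (tr _ _).2 (by rw [p2]; exact q4)⟩
  refine ⟨_, Finset.mem_image_of_mem _ hl, ?_⟩
  have h3 := (tr _ _).1 h2
  rw [p2] at h3
  rw [Nat.sub_add_cancel (h0 hl).1]
  exact h3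

/-- the final choice of the order of jets -/
theorem exists_common (Λ₁ : Finset (ℕ × ℕ)) {u : ℝ} (hu : 0 < u) (h : ∀ l ∈ Λ₁, u * l.1 < l.2)
    (c : ℕ) : ∃ P : ℕ, 1 ≤ P ∧ ∀ l ∈ Λ₁, ∃ n : ℕ, (n + 1) * l.2 = P ∧
      u * ((n + 1) * l.1 + c : ℕ) < P := by
  classical
  have mul : ∀ (l : ℕ × ℕ) (P R : ℕ), 1 ≤ R →
      (∃ n : ℕ, (n + 1) * l.2 = P ∧ u * ((n + 1) * l.1 + c : ℕ) < P) →
      ∃ n : ℕ, (n + 1) * l.2 = P * R ∧ u * ((n + 1) * l.1 + c : ℕ) < (P * R : ℕ) := by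
    rintro l P R hR ⟨n, rfl, h2⟩
    obtain ⟨S, rfl⟩ := Nat.exists_eq_add_of_le' hR
    refine ⟨n * (S + 1) + S, by ring, ?_⟩
    have h3 : (0 : ℝ) ≤ (S : ℝ) := Nat.cast_nonneg S
    have h4 : (0 : ℝ) ≤ u * c * S := by positivity
    push_cast at h2 ⊢
    linarith only [h4, h2, h3, mul_le_mul_of_nonneg_right h2.le h3]
  induction Λ₁ using Finset.induction_on with
  | empty => exact ⟨1, le_rfl, by simp⟩
  | insert l Λ _ ih =>
    obtain ⟨P, hP, h1⟩ := ih fun l' hl' => h l' (Finset.mem_insert_of_mem hl')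
    have h2 := h l (Finset.mem_insert_self _ _)
    have h3 : (0 : ℝ) ≤ u * l.1 := by positivity
    have h4 : 1 ≤ l.2 := by
      have : (0 : ℝ) < l.2 := by linarith only [h2, h3]
      exact_mod_cast this
    obtain ⟨n, hn⟩ := exists_nat_gt (u * c / (l.2 - u * l.1))
    rw [div_lt_iff₀ (by linarith only [h2])] at hn
    have h5 : 1 ≤ (n + 1) * l.2 := Nat.mul_pos n.succ_pos h4
    refine ⟨P * ((n + 1) * l.2), Nat.mul_pos hP h5, fun l' hl' => ?_⟩
    rcases Finset.mem_insert.1 hl' with rfl | hl'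
    · rw [mul_comm P]
      refine mul _ _ _ hP ⟨n, rfl, ?_⟩
      push_cast
      linarith only [h2, hn]
    · exact mul _ _ _ h5 (h1 l' hl')

end Pool.Agent.Work.MP_e57da2_ag
end
end

-- merged part: Pool.Agent.Work.MP_e57da2_ag.Rk3
section
-- merged part: Pool.Agent.Work.MP_e57da2_ag.Rk
section
/-!
# Ranks of evaluation maps along a finite morphism

Let `η = φ η'`, `κ`, `κ'` the residue fields of `O X η` and `O Y η'`.  For `τ` generating `D` at `η'`, `rk D η'` is the dimension of the image in `κ'` of `{s / τ | s ∈ Gm D ⊤}` (`finrank_map_le_of_ker`).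
Plans.  `resDeg_pos`: `κ'` is finite over `κ`: it is spanned by the residues of the generators in `finite_semi` at `x = η` (or `finite_B`, `aff_frac`: the span is a finite dimensional domain, so a field).
`low_rk`: `N` = the image of `semi φ x ≤ O Y η'` (`semi_le_of_spec`) in `κ'`, a finite module over `𝒪 = O X (pt x)` (`finite_semi`), which spans `κ'` over `κ`; choose a `κ`-basis `v` in `N`; `∑ a i • v i = 0 ↔ ∀ i, a i ∈ prm`;
`low_bound`; the hypothesis says that the image of `{s / τ}` maps onto `N ⧸ 𝔪 ^ j N`.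
-/

open CategoryTheory Limits AlgebraicGeometry TopologicalSpace IsLocalRing Module

namespace Pool.Agent.Work.MP_e57da2_ag

section alg

variable {k 𝒪 S κ κ' : Type} [Field k] [CommRing 𝒪] [CommRing S] [Field κ] [Field κ']
  [Algebra 𝒪 S] [Module.Finite 𝒪 S] [Algebra κ κ'] (r : 𝒪 →+* κ) (π : S →+* κ')

theorem Rk_span (hc : ∀ a, π (algebraMap 𝒪 S a) = algebraMap κ κ' (r a))
    (frac : ∀ z : κ', ∃ a b : S, π b ≠ 0 ∧ z * π b = π a) :
    FiniteDimensional κ κ' ∧ Submodule.span κ (Set.range π) = ⊤ := by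
  obtain ⟨n, g, hg⟩ := Module.Finite.exists_fin (R := 𝒪) (M := S)
  have h1 : Submodule.span κ (Set.range π) ≤ Submodule.span κ (Set.range fun i => π (g i)) := by
    rw [Submodule.span_le]
    rintro _ ⟨v, rfl⟩
    obtain ⟨c, rfl⟩ := (Submodule.mem_span_range_iff_exists_fun 𝒪).1
      (hg.ge (Submodule.mem_top : v ∈ ⊤))
    rw [map_sum]
    refine Submodule.sum_mem _ fun i _ => ?_
    rw [Algebra.smul_def, map_mul, hc, ← Algebra.smul_def]
    exact Submodule.smul_mem _ _ (Submodule.subset_span ⟨i, rfl⟩)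
  have h2 : FiniteDimensional κ (Submodule.span κ (Set.range fun i => π (g i))) :=
    FiniteDimensional.span_of_finite κ (Set.finite_range _)
  have h3 : FiniteDimensional κ (Submodule.span κ (Set.range π)) :=
    Submodule.finiteDimensional_of_le h1
  have h4 : Subalgebra.toSubmodule (Algebra.adjoin κ (Set.range π)) =
      Submodule.span κ (Set.range π) := by
    rw [Algebra.adjoin_eq_span, show Set.range π = (MonoidHom.mrange π : Set κ') from rfl,
      Submonoid.closure_eq]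
  have h5 : Submodule.span κ (Set.range π) = ⊤ := by
    rw [← h4, eq_top_iff]
    intro z _
    obtain ⟨a, b, hb, e⟩ := frac z
    have hm : ∀ v, π v ∈ Algebra.adjoin κ (Set.range π) := fun v => Algebra.subset_adjoin ⟨v, rfl⟩
    have hi : IsIntegral κ (π b) :=
      IsIntegral.of_mem_of_fg _ (by rw [h4]; exact Module.Finite.iff_fg.1 h3) _ (hm b)
    rw [eq_div_of_mul_eq hb e, div_eq_mul_inv]
    exact (Algebra.adjoin κ (Set.range π)).mul_mem (hm a)
      (Algebra.adjoin_mono (Set.singleton_subset_iff.2 (Set.mem_range_self b)) hi.inv_mem_adjoin)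
  refine ⟨?_, h5⟩
  rw [h5] at h3
  exact Module.Finite.equiv Submodule.topEquiv

theorem Rk_fin [Algebra k 𝒪] {N : Type} [AddCommGroup N] [Module 𝒪 N] [Module k N]
    [IsScalarTower k 𝒪 N] [Module.Finite 𝒪 N] (I : Ideal 𝒪) [FiniteDimensional k (𝒪 ⧸ I)] :
    FiniteDimensional k (N ⧸ (I • ⊤ : Submodule 𝒪 N)) := by
  have : IsScalarTower 𝒪 (𝒪 ⧸ I) (N ⧸ (I • ⊤ : Submodule 𝒪 N)) :=
    (Module.isTorsionBySet_quotient_ideal_smul N I).isScalarTower
  have : IsScalarTower k (𝒪 ⧸ I) (N ⧸ (I • ⊤ : Submodule 𝒪 N)) :=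
    (Module.isTorsionBySet_quotient_ideal_smul N I).isScalarTower
  have : Module.Finite (𝒪 ⧸ I) (N ⧸ (I • ⊤ : Submodule 𝒪 N)) :=
    Module.Finite.of_restrictScalars_finite 𝒪 _ _
  exact Module.Finite.trans (𝒪 ⧸ I) _

theorem Rk_low [Algebra k 𝒪] [Algebra k S] [IsScalarTower k 𝒪 S] [IsNoetherianRing 𝒪]
    (hc : ∀ a, π (algebraMap 𝒪 S a) = algebraMap κ κ' (r a))
    (frac : ∀ z : κ', ∃ a b : S, π b ≠ 0 ∧ z * π b = π a) (𝔪 𝔭 : Ideal 𝒪)
    [FiniteDimensional k (𝒪 ⧸ 𝔪)] (h𝔭 : ∀ a, a ∈ 𝔭 ↔ r a = 0) :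
    ∃ c : ℕ, ∀ (j : ℕ) (W : Submodule k S) (T : Type) [AddCommGroup T] [Module k T]
      (ev : S →ₗ[k] T) [FiniteDimensional k (W.map ev)], (∀ v, ev v = 0 → π v = 0) →
      W ⊔ (𝔪.map (algebraMap 𝒪 S) ^ j).restrictScalars k = ⊤ →
      finrank κ κ' * finrank k (𝒪 ⧸ (𝔭 ⊔ 𝔪 ^ (j - c))) ≤ finrank k (W.map ev) := by
  obtain ⟨hfin, hsp⟩ := Rk_span r π hc frac
  obtain ⟨f, hf, -, hli⟩ := Submodule.exists_fun_fin_finrank_span_eq κ (Set.range π)
  have hrk : finrank κ (Submodule.span κ (Set.range π)) = finrank κ κ' := by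
    rw [hsp, finrank_top]
  choose s hs using hf
  obtain ⟨c, hcc⟩ := low_bound (k := k) (N := S ⧸ RingHom.ker π) 𝔪 𝔭
    (fun i => Ideal.Quotient.mk _ (s i)) (fun a => by
      have e : ∑ i, a i • Ideal.Quotient.mk (RingHom.ker π) (s i) =
          Ideal.Quotient.mk (RingHom.ker π) (∑ i, a i • s i) := by
        rw [map_sum]
        rfl
      have e2 : π (∑ i, a i • s i) = ∑ i, r (a i) • f i := by
        rw [map_sum]
        exact Finset.sum_congr rfl fun i _ => by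
          rw [Algebra.smul_def, map_mul, hc, hs, Algebra.smul_def]
      rw [e, Ideal.Quotient.eq_zero_iff_mem, RingHom.mem_ker, e2]
      refine ⟨fun h i => (h𝔭 _).2 (Fintype.linearIndependent_iff.1 hli _ h i), fun h => ?_⟩
      exact Finset.sum_eq_zero fun i _ => by rw [(h𝔭 _).1 (h i), zero_smul])
    fun j => by
      have := hs_finite (k := k) 𝔪 (𝔪 ^ j) j le_rfl
      exact Rk_fin (𝔪 ^ j)
  refine ⟨c, fun j W T _ _ ev _ hev hW => ?_⟩
  rw [← hrk]
  refine (hcc j).trans ?_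
  let q : S →ₗ[𝒪] (S ⧸ RingHom.ker π) ⧸ (𝔪 ^ j • ⊤ : Submodule 𝒪 (S ⧸ RingHom.ker π)) :=
    (Submodule.mkQ _).comp (Ideal.Quotient.mkₐ 𝒪 (RingHom.ker π)).toLinearMap
  have hq : Function.Surjective q :=
    (Submodule.mkQ_surjective _).comp Ideal.Quotient.mk_surjective
  have hker : ∀ v ∈ 𝔪.map (algebraMap 𝒪 S) ^ j, q v = 0 := fun v hv => by
    rw [← Ideal.map_pow] at hv
    have hv' : v ∈ (𝔪 ^ j • ⊤ : Submodule 𝒪 S) := by
      rw [Ideal.smul_top_eq_map]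
      exact hv
    refine (Submodule.Quotient.mk_eq_zero _).2 ?_
    have := Submodule.mem_map_of_mem (f := (Ideal.Quotient.mkₐ 𝒪 (RingHom.ker π)).toLinearMap) hv'
    rw [Submodule.map_smul''] at this
    exact Submodule.smul_mono le_rfl le_top this
  have hr : LinearMap.range ((q.restrictScalars k).comp W.subtype) = ⊤ := by
    rw [eq_top_iff]
    intro z _
    obtain ⟨v, rfl⟩ := hq z
    obtain ⟨w, hw, u, hu, rfl⟩ := Submodule.mem_sup.1 (hW.ge (Submodule.mem_top : v ∈ ⊤))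
    exact ⟨⟨w, hw⟩, by rw [map_add, hker u hu, add_zero]; rfl⟩
  have hr' : LinearMap.range (ev.comp W.subtype) = W.map ev := by
    rw [LinearMap.range_comp, Submodule.range_subtype]
  have : FiniteDimensional k (LinearMap.range (ev.comp W.subtype)) := by
    rw [hr']
    infer_instance
  have h := Alg_range_le ((q.restrictScalars k).comp W.subtype) (ev.comp W.subtype) fun v hv => by
    change Submodule.mkQ _ (Ideal.Quotient.mk (RingHom.ker π) v.1) = 0
    rw [Ideal.Quotient.eq_zero_iff_mem.2 (hev v.1 hv), map_zero]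
  rwa [hr, finrank_top, hr'] at h

end alg

variable {k : Type} [Field k] {X Y : Sch k} [IsIntegral X.left] [IsIntegral Y.left]

instance (φ : Y ⟶ X) (y : Y.left) : IsLocalHom (pbA φ y).toRingHom :=
  ⟨(inferInstance : IsLocalHom (pbA φ y)).map_nonunit⟩

/-- the extension of residue fields -/
@[reducible] noncomputable def resAlg (φ : Y ⟶ X) (y : Y.left) :
    Algebra (ResidueField (O X (φ.left y))) (ResidueField (O Y y)) :=
  (ResidueField.map (pbA φ y).toRingHom).toAlgebra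

/-- the degree of the extension of residue fields -/
noncomputable def resDeg (φ : Y ⟶ X) (y : Y.left) : ℕ :=
  letI := resAlg φ y
  finrank (ResidueField (O X (φ.left y))) (ResidueField (O Y y))

/-- the `q`-th power of the ideal of `O Y z` generated by the maximal ideal at `φ z` -/
noncomputable def jpow (φ : Y ⟶ X) (z : Y.left) (q : ℕ) : Submodule k (Fn Y) :=
  ((((maximalIdeal (O X (φ.left z))).map (pbA φ z)) ^ q).restrictScalars k).map
    (O Y z).val.toLinearMap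

/-- the ideal of `semi φ x` generated by the maximal ideal at `x` -/
noncomputable def jid (φ : Y ⟶ X) (x : X.left) : Ideal (semi φ x) :=
  Ideal.span {v | ∃ a ∈ mp X x 1, pb φ a = v}

theorem mem_jpow {φ : Y ⟶ X} {z : Y.left} {q : ℕ} {v : Fn Y} : v ∈ jpow φ z q ↔
    ∃ a : O Y z, a ∈ ((maximalIdeal (O X (φ.left z))).map (pbA φ z)) ^ q ∧ (a : Fn Y) = v := Iff.rfl

theorem pb_mem_jpow {φ : Y ⟶ X} {z : Y.left} {q : ℕ} {h : Fn X} (hh : h ∈ mp X (φ.left z) q) :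
    pb φ h ∈ jpow φ z q := by
  obtain ⟨a, ha, rfl⟩ := mem_mp.1 hh
  refine mem_jpow.2 ⟨pbA φ z a, ?_, rfl⟩
  rw [← Ideal.map_pow]
  exact Ideal.mem_map_of_mem _ ha

theorem O_mul_mem_jpow {φ : Y ⟶ X} {z : Y.left} {q : ℕ} {a v : Fn Y} (ha : a ∈ O Y z)
    (hv : v ∈ jpow φ z q) : a * v ∈ jpow φ z q := by
  obtain ⟨b, hb, rfl⟩ := mem_jpow.1 hv
  exact mem_jpow.2 ⟨⟨a, ha⟩ * b, Ideal.mul_mem_left _ _ hb, rfl⟩

variable [IsProper X.hom] [IsProper Y.hom] {φ : Y ⟶ X} [IsFinite φ.left]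

/-- the pull-back to the semi-local ring -/
noncomputable def Rk_pb (hφ : Dom φ) (x : X.left) : O X x →ₐ[k] semi φ x :=
  ((pbF hφ).comp (O X x).val).codRestrict _ fun a => pb_mem_semi a.2

/-- the residue map at a point over a generisation -/
noncomputable def Rk_π (hφ : Dom φ) {x : X.left} {y : Y.left} (h : φ.left y ⤳ x) :
    semi φ x →+* ResidueField (O Y y) :=
  (residue (O Y y)).comp (Subalgebra.inclusion (semi_le_of_spec hφ h)).toRingHom

/-- the residue map at a generisation -/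
noncomputable def Rk_r {x η : X.left} (h : η ⤳ x) : O X x →+* ResidueField (O X η) :=
  (residue (O X η)).comp (Subalgebra.inclusion (O_le_of_spec h)).toRingHom

theorem Rk_π_zero (hφ : Dom φ) {x : X.left} {y : Y.left} (h : φ.left y ⤳ x) (v : semi φ x) :
    Rk_π hφ h v = 0 ↔ (v : Fn Y) ∈ mp Y y 1 := by
  refine (residue_eq_zero_iff _).trans ?_
  rw [← pow_one (maximalIdeal _), ← coe_mem_mp]
  rfl

omit [IsProper X.hom] in
theorem Rk_r_zero {x η : X.left} (h : η ⤳ x) (a : O X x) :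
    Rk_r h a = 0 ↔ (a : Fn X) ∈ mp X η 1 := by
  refine (residue_eq_zero_iff _).trans ?_
  rw [← pow_one (maximalIdeal _), ← coe_mem_mp]
  rfl

theorem Rk_finite (hφ : Dom φ) (x : X.left) :
    letI := (Rk_pb hφ x).toRingHom.toAlgebra
    Module.Finite (O X x) (semi φ x) := by
  let := (Rk_pb hφ x).toRingHom.toAlgebra
  obtain ⟨s, h1, h2⟩ := finite_semi hφ x
  refine Module.finite_def.2 (Submodule.fg_def.2
    ⟨Set.range fun w : s => (⟨w, h1 w w.2⟩ : semi φ x), Set.finite_range _, ?_⟩)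
  refine eq_top_iff.2 fun v _ => ?_
  obtain ⟨c, hc, e⟩ := h2 v v.2
  have e' : v = ∑ w : s, (⟨c w, hc w⟩ : O X x) • (⟨w, h1 w w.2⟩ : semi φ x) := by
    refine Subtype.ext ?_
    rw [← e, ← Finset.sum_coe_sort s, AddSubmonoidClass.coe_finsetSum]
    rfl
  rw [e']
  exact Submodule.sum_mem _ fun w _ => Submodule.smul_mem _ _ (Submodule.subset_span ⟨w, rfl⟩)

theorem Rk_comm (hφ : Dom φ) {x : X.left} {y : Y.left} (h : φ.left y ⤳ x) (a : O X x) :
    Rk_π hφ h (Rk_pb hφ x a) = ResidueField.map (pbA φ y).toRingHom (Rk_r h a) := rfl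

theorem Rk_frac (hφ : Dom φ) {x : X.left} {y : Y.left} (h : φ.left y ⤳ x)
    (z : ResidueField (O Y y)) :
    ∃ a b : semi φ x, Rk_π hφ h b ≠ 0 ∧ z * Rk_π hφ h b = Rk_π hφ h a := by
  obtain ⟨U, hU, hx, -⟩ := exists_aff (W := ⊤) (x := x) trivial
  obtain ⟨v, rfl⟩ := residue_surjective z
  obtain ⟨b, hb, hu, hbv⟩ := aff_frac (hU.preimage φ.left)
    (show φ.left y ∈ U from h.mem_open U.isOpen hx) v.2
  refine ⟨⟨b * v, Fin_B_le_semi hx hbv⟩, ⟨b, Fin_B_le_semi hx hb⟩,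
    fun e => hu.2 ((Rk_π_zero hφ h _).1 e), ?_⟩
  refine (map_mul (residue (O Y y)) _ _).symm.trans (congrArg (residue (O Y y)) ?_)
  exact Subtype.ext (mul_comm _ _)

theorem resDeg_pos (hφ : Dom φ) (y : Y.left) : 0 < resDeg φ y := by
  let := resAlg φ y
  let := (Rk_pb hφ (φ.left y)).toRingHom.toAlgebra
  have := Rk_finite hφ (φ.left y)
  have := (Rk_span (Rk_r (specializes_refl (φ.left y))) (Rk_π hφ (specializes_refl (φ.left y)))
    (Rk_comm hφ _) (Rk_frac hφ _)).1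
  exact finrank_pos

theorem low_rk (hφ : Dom φ) (x : Pt X) {η' : Y.left} (hη : φ.left η' ⤳ pt x) : ∃ c : ℕ,
    ∀ (D : Dv Y) (τ : Fn Y) (j : ℕ), FiniteDimensional k (Gm D ⊤) → η' ∈ loc D τ →
      ((Gm D ⊤).comap ((LinearMap.mulLeft k τ).comp (semi φ (pt x)).val.toLinearMap) ⊔
        (jid φ (pt x) ^ j).restrictScalars k = ⊤) →
      resDeg φ η' * ell (φ.left η') (pt x) (j - c) ≤ rk D η' := by
  let := resAlg φ η'
  let := (Rk_pb hφ (pt x)).toRingHom.toAlgebra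
  have := Rk_finite hφ (pt x)
  have : IsScalarTower k (O X (pt x)) (semi φ (pt x)) :=
    IsScalarTower.of_algebraMap_eq fun c => ((Rk_pb hφ (pt x)).commutes c).symm
  have : FiniteDimensional k (O X (pt x) ⧸ maximalIdeal (O X (pt x))) := by
    refine Module.Finite.of_surjective (Algebra.linearMap k _) fun z => ?_
    obtain ⟨a, rfl⟩ := Ideal.Quotient.mk_surjective z
    obtain ⟨c, hc⟩ := exists_value x a.2
    refine ⟨c, (Ideal.Quotient.eq.2 ?_).symm⟩
    rw [← pow_one (maximalIdeal _), ← coe_mem_mp]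
    exact hc
  obtain ⟨c, hc⟩ := Rk_low (k := k) (Rk_r hη) (Rk_π hφ hη) (Rk_comm hφ hη) (Rk_frac hφ hη)
    (maximalIdeal (O X (pt x))) (prm (φ.left η') (pt x))
    fun a => (mem_prm hη a).trans (Rk_r_zero hη a).symm
  refine ⟨c, fun D τ j hfin hτ hW => ?_⟩
  let ev : semi φ (pt x) →ₗ[k] Fn Y ⧸ mp Y η' 1 := (mp Y η' 1).mkQ ∘ₗ
    LinearMap.mulRight k (D.f η') ∘ₗ (LinearMap.mulLeft k τ).comp (semi φ (pt x)).val.toLinearMap
  have hle : ((Gm D ⊤).comap ((LinearMap.mulLeft k τ).comp (semi φ (pt x)).val.toLinearMap)).map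
      ev ≤ ((Gm D ⊤).map (LinearMap.mulRight k (D.f η'))).map (mp Y η' 1).mkQ := by
    rintro _ ⟨v, hv, rfl⟩
    exact ⟨_, ⟨_, hv, rfl⟩, rfl⟩
  have := Submodule.finiteDimensional_of_le hle
  refine (hc j _ _ ev (fun v hv => ?_) ?_).trans (Submodule.finrank_mono hle)
  · have h1 : τ * v * D.f η' ∈ mp Y η' 1 := (Submodule.Quotient.mk_eq_zero _).1 hv
    rw [mul_right_comm, (mem_loc.1 hτ).mul_mem_mp_iff] at h1
    exact (Rk_π_zero hφ hη v).2 h1
  · refine eq_top_iff.2 (hW.ge.trans (sup_le_sup_left (fun v hv => ?_) _))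
    refine Ideal.pow_right_mono (Ideal.span_le.2 ?_) j hv
    rintro w ⟨_, ha, e⟩
    obtain ⟨a, ha', rfl⟩ := mem_mp.1 ha
    rw [pow_one] at ha'
    rw [show w = algebraMap (O X (pt x)) (semi φ (pt x)) a from Subtype.ext e.symm]
    exact Ideal.mem_map_of_mem _ ha'

end Pool.Agent.Work.MP_e57da2_ag
end

-- merged part: Pool.Agent.Work.MP_e57da2_ag.Rk3
section
/-!
# Jets along a fibre of a finite morphism

Plan.  `semi_jets`: `σ` generating `M` at the finitely many points over `x` (`aff_gen`, `exists_avoid`, `finite_fibre`-like finiteness is a hypothesis); `τ` is its approximation.  For `v ∈ semi φ x` take `a` with `pb φ a * v ∈ B'`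
(`semi_frac`), `a' ∈ B` with `a a' ≡ 1` modulo `𝔪 ^ q` (`aff_jet`), apply the hypothesis to `pb φ (a a') v τ`, and use `local_global` to see that an element lying in `jpow φ z q` for all `z` over `x` lies in `jid φ x ^ q`.
The fibre is not empty (`surjective_of_dom`), so `τ ≠ 0`.
-/

open CategoryTheory Limits AlgebraicGeometry TopologicalSpace IsLocalRing Module

namespace Pool.Agent.Work.MP_e57da2_ag

variable {k : Type} [Field k] {X Y : Sch k} [IsIntegral X.left] [IsIntegral Y.left]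
  [IsProper X.hom] [IsProper Y.hom] {φ : Y ⟶ X} [IsFinite φ.left]

omit [IsProper X.hom] [IsProper Y.hom] [IsFinite φ.left] in
theorem Rk3_jpow_le {z : Y.left} {p : ℕ} {v : Fn Y} (hv : v ∈ jpow φ z (p + 1)) :
    v ∈ mp Y z 1 := by
  obtain ⟨a, ha, rfl⟩ := mem_jpow.1 hv
  have h1 : (maximalIdeal (O X (φ.left z))).map (pbA φ z) ≤ maximalIdeal (O Y z) :=
    Ideal.map_le_iff_le_comap.2 fun b hb => Ideal.mem_comap.2 fun hu =>
      hb (IsUnit.of_map (pbA φ z) b hu)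
  rw [coe_mem_mp, pow_one]
  exact h1 (Ideal.pow_le_self (Nat.succ_ne_zero p) ha)

omit [IsFinite φ.left] in
theorem Rk3_pb_jid (hφ : Dom φ) {x : X.left} {q : ℕ} {a : Fn X} (ha : a ∈ mp X x q) :
    (⟨pb φ a, pb_mem_semi (mem_O_of_mp ha)⟩ : semi φ x) ∈ jid φ x ^ q := by
  let ψ : O X x →+* semi φ x :=
    (((pbF hφ).comp (O X x).val).codRestrict _ fun b => pb_mem_semi b.2).toRingHom
  have h1 : (maximalIdeal (O X x)).map ψ ≤ jid φ x :=
    Ideal.map_le_iff_le_comap.2 fun b hb => Ideal.mem_comap.2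
      (Ideal.subset_span ⟨b, (coe_mem_mp b).2 (by rwa [pow_one]), rfl⟩)
  obtain ⟨b, hb, rfl⟩ := mem_mp.1 ha
  have h2 := Ideal.mem_map_of_mem ψ hb
  rw [Ideal.map_pow] at h2
  exact Ideal.pow_right_mono h1 q h2

theorem Rk3_key (hφ : Dom φ) {x : X.left} {q : ℕ} (v : semi φ x)
    (hv : ∀ z, φ.left z = x → (v : Fn Y) ∈ jpow φ z q) : v ∈ jid φ x ^ q := by
  obtain ⟨U, hU, hx, -⟩ := exists_aff (W := ⊤) (x := x) trivial
  let E : Submodule k (Fn Y) := ((jid φ x ^ q).restrictScalars k).map (semi φ x).val.toLinearMap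
  have hE : ∀ b ∈ B Y (φ.left ⁻¹ᵁ U), ∀ e ∈ E, b * e ∈ E := by
    rintro b hb _ ⟨e, he, rfl⟩
    exact ⟨⟨b, Fin_B_le_semi hx hb⟩ * e, Ideal.mul_mem_left _ _ he, rfl⟩
  obtain ⟨a, -, h2, w, hw, e⟩ := local_global hφ hU hx E hE (v := v) fun z hz => by
    have hzU : z ∈ φ.left ⁻¹ᵁ U := show φ.left z ∈ U from hz ▸ hx
    obtain ⟨t, ht, e⟩ := mem_jpow.1 (hv z hz)
    rw [← e]
    clear e
    rw [← Ideal.map_pow] at ht
    induction ht using Submodule.span_induction with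
    | mem t ht =>
      obtain ⟨a, ha, rfl⟩ := ht
      have h3 : (a : Fn X) ∈ mp X x q := hz ▸ (coe_mem_mp a).2 ha
      refine ⟨1, one_mem _, isU_one, ?_⟩
      rw [one_mul]
      exact ⟨_, Rk3_pb_jid hφ h3, rfl⟩
    | zero => exact ⟨1, one_mem _, isU_one, by simp⟩
    | add t t' _ _ ih ih' =>
      obtain ⟨β, h1, h2, h3⟩ := ih
      obtain ⟨β', h1', h2', h3'⟩ := ih'
      refine ⟨β * β', mul_mem h1 h1', h2.mul h2', ?_⟩
      have e : β * β' * ((t + t' : O Y z) : Fn Y) = β' * (β * t) + β * (β' * t') := by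
        rw [Subalgebra.coe_add]
        ring
      rw [e]
      exact add_mem (hE _ h1' _ h3) (hE _ h1 _ h3')
    | smul c t _ ih =>
      obtain ⟨β, h1, h2, h3⟩ := ih
      obtain ⟨β', h1', h2', h3'⟩ := aff_frac (hU.preimage φ.left) hzU c.2
      refine ⟨β * β', mul_mem h1 h1', h2.mul h2', ?_⟩
      have e : β * β' * ((c • t : O Y z) : Fn Y) = β' * c * (β * t) := by
        rw [smul_eq_mul, Subalgebra.coe_mul]
        ring
      rw [e]
      exact hE _ h3' _ h3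
  have h0 : pbF hφ a ≠ 0 := (_root_.map_ne_zero _).2 h2.ne_zero
  have e1 : v = ⟨pb φ a⁻¹, pb_mem_semi h2.inv.1⟩ * w := by
    refine Subtype.ext ?_
    have e2 : (w : Fn Y) = pbF hφ a * v := e
    change (v : Fn Y) = pbF hφ a⁻¹ * w
    rw [e2, map_inv₀, inv_mul_cancel_left₀ h0]
  rw [e1]
  exact Ideal.mul_mem_left _ _ hw

theorem semi_jets [Infinite k] (hφ : Dom φ) (x : Pt X) (fin : {z | φ.left z = pt x}.Finite)
    {U : X.left.Opens} (hU : IsAffineOpen U) (hx : pt x ∈ U) {M : Dv Y} {p : ℕ}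
    (h : ∀ σ ∈ Gm M (φ.left ⁻¹ᵁ U), ∃ s ∈ Gm M ⊤, ∀ z, φ.left z = pt x →
      (s - σ) * M.f z ∈ jpow φ z (p + 1)) :
    ∃ τ ∈ Gm M ⊤, (∀ z, φ.left z = pt x → z ∈ loc M τ) ∧
      (Gm M ⊤).comap ((LinearMap.mulLeft k τ).comp (semi φ (pt x)).val.toLinearMap) ⊔
        (jid φ (pt x) ^ (p + 1)).restrictScalars k = ⊤ := by
  have hV : ∀ z, φ.left z = pt x → z ∈ φ.left ⁻¹ᵁ U := fun z hz =>
    show φ.left z ∈ U from hz ▸ hx
  obtain ⟨σ, hσ, hσ'⟩ := exists_avoid (Gm M (φ.left ⁻¹ᵁ U)) _ fin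
    (fun z => (mp Y z 1).comap (LinearMap.mulRight k (M.f z))) fun z hz => by
      obtain ⟨s, hs, hz'⟩ := aff_gen (hU.preimage φ.left) (hV z hz) M
      exact ⟨s, hs, (mem_loc.1 hz').2⟩
  obtain ⟨τ, hτ, hτ'⟩ := h σ hσ
  have hu : ∀ z, φ.left z = pt x → IsU Y z (τ * M.f z) := fun z hz => by
    have h1 : IsU Y z (σ * M.f z) := ⟨mem_Gm.1 hσ z (hV z hz), hσ' z hz⟩
    have h2 := h1.add_mp (Rk3_jpow_le (hτ' z hz))
    rwa [← add_mul, add_sub_cancel] at h2
  refine ⟨τ, hτ, fun z hz => mem_loc.2 (hu z hz), eq_top_iff.2 fun v _ => ?_⟩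
  by_cases h0 : τ = 0
  · refine Submodule.mem_sup_left ?_
    change τ * v ∈ Gm M ⊤
    rw [h0, zero_mul]
    exact zero_mem _
  obtain ⟨a, -, h2, h3⟩ := semi_frac hφ hU hx v.2
  obtain ⟨a', h4, h5⟩ := aff_jet hU hx (pt_closed x) h2.inv.1 (p + 1)
  obtain ⟨s, hs, hs'⟩ := h (pb φ a' * (pb φ a * v) * τ)
    (B_mul_mem_Gm (mul_mem (pb_mem_B le_rfl h4) h3) (Gm_anti le_top hτ))
  have hw : τ⁻¹ * s ∈ semi φ (pt x) := mem_semi.2 fun z hz => by
    have e : τ⁻¹ * s = (τ * M.f z)⁻¹ * (s * M.f z) := by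
      have := M.ne z
      field_simp
    rw [e]
    exact mul_mem (hu z hz).inv.1 (mem_Gm.1 hs z trivial)
  rw [← add_sub_cancel (⟨_, hw⟩ : semi φ (pt x)) v]
  refine Submodule.add_mem_sup ?_ (Rk3_key hφ _ fun z hz => ?_)
  · change τ * (τ⁻¹ * s) ∈ Gm M ⊤
    rwa [mul_inv_cancel_left₀ h0]
  · have h6 : a * (a⁻¹ - a') ∈ mp X (φ.left z) (p + 1) := hz ▸ O_mul_mem_mp h2.1 h5
    have e1 : pb φ (a * (a⁻¹ - a')) = 1 - pb φ a * pb φ a' := by
      rw [mul_sub, mul_inv_cancel₀ h2.ne_zero, ← pbF_apply hφ, map_sub, map_one, map_mul]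
      rfl
    have e : ((v - ⟨_, hw⟩ : semi φ (pt x)) : Fn Y) = v * pb φ (a * (a⁻¹ - a')) -
        (τ * M.f z)⁻¹ * ((s - pb φ a' * (pb φ a * v) * τ) * M.f z) := by
      have := M.ne z
      rw [e1]
      change (v : Fn Y) - τ⁻¹ * s = _
      field_simp
      ring
    rw [e]
    exact sub_mem (O_mul_mem_jpow (mem_semi.1 v.2 z hz) (pb_mem_jpow h6))
      (O_mul_mem_jpow (hu z hz).inv.1 (hs' z hz))

end Pool.Agent.Work.MP_e57da2_ag
end
end
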