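import Pool.Agent.Work.MP_910138_ag.GBase

/-! Definitions used in the statement: line bundles, ampleness, `Pic⁰`, IT(0), the jets
separation thresholds and Seshadri constants. -/

open CategoryTheory Limits AlgebraicGeometry TopologicalSpace MonoidalCategory
  CartesianMonoidalCategory MonObj Abelian Filter
open scoped ENNReal

namespace Pool.Agent.Work.MP_e57da2_ag

open Pool.Agent.Work.MP_910138_ag

/-- Schemes over `k`. -/
abbrev Sch (k : Type) [Field k] := Over (Spec (CommRingCat.of k))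

/-- The tensor product of two sheaves of modules. -/
noncomputable def tens {X : Scheme.{0}} (M N : X.Modules) : X.Modules := ((tensor X).obj M).obj N

/-- The tensor power `L ^ n`. -/
noncomputable def tpow {X : Scheme.{0}} (L : X.Modules) : ℕ → X.Modules
  | 0 => OX X
  | n + 1 => tens (tpow L n) L

/-- A line bundle: a sheaf of modules which is locally free of rank one. -/
def IsLine {X : Scheme.{0}} (L : X.Modules) : Prop :=
  ∀ x : X, ∃ (V : X.Opens) (g : Γ(L, V)), x ∈ V ∧ IsGen L V g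

/-- The open set `X_s` where the global section `s` generates `L`. -/
def locus {X : Scheme.{0}} (L : X.Modules) (s : Γ(L, ⊤)) : X.Opens :=
  sSup {V | IsGen L V (res L le_top s)}

/-- Ampleness: the affine opens among the `X_s`, `s ∈ Γ(X, L ^ n)`, `n > 0`, cover `X`. -/
def IsAmple {X : Scheme.{0}} (L : X.Modules) : Prop :=
  ∀ x : X, ∃ (n : ℕ) (s : Γ(tpow L n, ⊤)), 0 < n ∧ x ∈ locus (tpow L n) s ∧
    IsAffineOpen (locus (tpow L n) s)

variable {k : Type} [Field k]

/-- The constant functions. -/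
noncomputable def cst (X : Sch k) : k →+* Γ(X.left, ⊤) :=
  X.hom.appTop.hom.comp (Scheme.ΓSpecIso (CommRingCat.of k)).inv.hom

/-- `h⁰(X, M) = dim_k Γ(X, M)`. -/
noncomputable def hzero (X : Sch k) (M : X.left.Modules) : ℕ :=
  letI : Module k Γ(M, ⊤) := Module.compHom _ (cst X)
  Module.finrank k Γ(M, ⊤)

/-- The functions on `U` whose germ at `x` (if `x ∈ U`) lies in `𝔪_x ^ n`. -/
noncomputable def vanIdeal {X : Scheme.{0}} (x : X) (n : ℕ) (U : X.Opens) : Ideal Γ(X, U) :=
  ⨅ h : x ∈ U, (IsLocalRing.maximalIdeal (X.presheaf.stalk x) ^ n).comap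
    (X.presheaf.germ U x h).hom

theorem mem_vanIdeal {X : Scheme.{0}} {x : X} {n : ℕ} {U : X.Opens} {s : Γ(X, U)} :
    s ∈ vanIdeal x n U ↔ ∀ h : x ∈ U, X.presheaf.germ U x h s ∈
      IsLocalRing.maximalIdeal (X.presheaf.stalk x) ^ n := Submodule.mem_iInf _

/-- The ideal sheaf `I_x ^ n` of a closed point `x`. -/
noncomputable def idealPow {X : Scheme.{0}} (x : X) (n : ℕ) : X.Modules :=
  SubData.mod (M := OX X)
    { sub := vanIdeal x n
      res_mem := fun {U V} h s hs => mem_vanIdeal.2 fun hx => by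
        have := mem_vanIdeal.1 hs (h hx)
        rwa [← X.presheaf.germ_res_apply (homOfLE h) x hx] at this
      loc := fun {U s} hs => mem_vanIdeal.2 fun hx => by
        obtain ⟨V, hV, hxV, hs'⟩ := hs x hx
        have := mem_vanIdeal.1 hs' hxV
        rwa [← X.presheaf.germ_res_apply (homOfLE hV) x hxV] }

section group

variable {A : Sch k} [GrpObj A]

/-- Translation by the `k`-point `y`. -/
noncomputable def tr (y : 𝟙_ (Sch k) ⟶ A) : A ⟶ A := 𝟙 A * (toUnit A ≫ y)

/-- Multiplication by `b`. -/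
noncomputable def mulBy (A : Sch k) [GrpObj A] (b : ℕ) : A ⟶ A := 𝟙 A ^ b

/-- `Pic⁰(A)`: the line bundles `P` with `t_y^* P ≅ P` for all `y ∈ A(k)`. -/
def IsPicZero (P : A.left.Modules) : Prop :=
  IsLine P ∧ ∀ y : 𝟙_ (Sch k) ⟶ A,
    Nonempty ((Scheme.Modules.pullback (tr y).left).obj P ≅ P)

/-- `F` is IT(0): `H^i(A, F ⊗ P) = Ext^i(𝒪, F ⊗ P) = 0` for all `i > 0` and `P ∈ Pic⁰(A)`. -/
def IsIT0 (F : A.left.Modules) : Prop :=
  ∀ P : A.left.Modules, IsPicZero P → ∀ (i : ℕ) (α : Ext (OX A.left) (tens F P) (i + 1)), α = 0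

/-- The jets separation threshold `β_p`: the infimum of the `a / b` such that
`μ_b^* I_x ^ (p + 1) ⊗ L ^ (a b)` is IT(0). -/
noncomputable def beta (L : A.left.Modules) (x : A.left) (p : ℕ) : ℝ≥0∞ :=
  ⨅ (a : ℕ) (b : ℕ) (_ : 0 < b) (_ : IsIT0 (tens
    ((Scheme.Modules.pullback (mulBy A b).left).obj (idealPow x (p + 1))) (tpow L (a * b)))),
    (a : ℝ≥0∞) / b

end group

/-- The degree `L · C` of an ample `L` on the curve `i : C ⟶ X`: the growth rate of
`h⁰(C, i^* L ^ m)`. -/
noncomputable def degree {C X : Sch k} (i : C ⟶ X) (L : X.left.Modules) : ℝ≥0∞ :=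
  limsup (fun m : ℕ => (hzero C ((Scheme.Modules.pullback i.left).obj (tpow L m)) : ℝ≥0∞) / m) atTop

/-- The multiplicity of a curve at `c`: the growth rate of the length of `𝒪_c / 𝔪_c ^ j`. -/
noncomputable def mult {C : Scheme.{0}} (c : C) : ℝ≥0∞ :=
  limsup (fun j : ℕ => (Module.length (C.presheaf.stalk c)
    (C.presheaf.stalk c ⧸ IsLocalRing.maximalIdeal (C.presheaf.stalk c) ^ j) : ℝ≥0∞) / j) atTop

/-- The Seshadri constant: the infimum of `L · C / mult_x C` over the integral closed curves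
through `x`. -/
noncomputable def seshadri {X : Sch k} (L : X.left.Modules) (x : X.left) : ℝ≥0∞ :=
  ⨅ (C : Sch k) (i : C ⟶ X) (_ : IsClosedImmersion i.left) (_ : IsIntegral C.left)
    (_ : topologicalKrullDim C.left = 1) (c : C.left) (_ : i.left c = x), degree i L / mult c

end Pool.Agent.Work.MP_e57da2_ag
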