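import Pool.Agent.Work.MP_e57da2_ag.Ser
import Pool.Agent.Work.MP_910138_ag.GSupp
import Pool.Agent.Work.MP_e57da2_ag.Stmt
import Pool.Agent.Work.MP_910138_ag.GPush
import Pool.Agent.Work.MP_e57da2_ag.Rk3
import Pool.Agent.Work.MP_e57da2_ag.SValg
import Pool.Agent.Work.MP_910138_ag.GAV
import Pool.Agent.Work.MP_910138_ag.GRes

-- merged part: Pool.Agent.Work.MP_e57da2_ag.KK
section
/-!
# The constant sheaf of rational functions; sheaves of modules embedded in it

`KK X` is the skyscraper sheaf at the generic point with stalk `Fn X`.  A morphism `e : M ⟶ KK X` gives rational functions `ev e h s`.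
`EmbOn V e F` says that the values lie in the family of stalks `F`, and that over `V` the sheaf `M` is identified with the sections of `F`.
Plans.  `EmbOn.of_local`: injectivity by `sep`; surjectivity by `glue` (compatibility from injectivity; every point gives `gp_mem`).
`EmbOn.of_gen`: a section over `W ≤ V` is `r • res g` with `r` unique; `mem_B_iff_germ`, `germ_injective`; then `of_local`.
`EmbOn.isGen`: `onto` applied to `v / ev g`.  `exists_gen`: on the open set given by `D.loc x`, `(D.f x)⁻¹` is a section.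
-/

open CategoryTheory Limits AlgebraicGeometry TopologicalSpace Opposite

namespace Pool.Agent.Work.MP_e57da2_ag

open Pool.Agent.Work.MP_910138_ag

variable {k : Type} [Field k] (X : Sch k) [IsIntegral X.left]

/-- the underlying presheaf -/
noncomputable def kkPre : X.left.Opensᵒᵖ ⥤ Ab.{0} where
  obj U := AddCommGrpCat.of (PLift (gp X ∈ U.unop) → Fn X)
  map f := AddCommGrpCat.ofHom
    { toFun := fun s h => s ⟨f.unop.le h.down⟩
      map_zero' := rfl
      map_add' := fun _ _ => rfl }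
  map_id _ := rfl
  map_comp _ _ := rfl

noncomputable instance kkModule (U : X.left.Opensᵒᵖ) :
    Module (X.left.ringCatSheaf.obj.obj U) ((kkPre X).obj U) where
  smul r s := fun h => germ X U.unop h.down r * s h
  one_smul s := funext fun h => by
    change germ X U.unop h.down (1 : Γ(X.left, U.unop)) * s h = s h
    rw [map_one, one_mul]
  mul_smul a b s := funext fun h => by
    change germ X U.unop h.down ((show Γ(X.left, U.unop) from a) * (show Γ(X.left, U.unop) from b)) * s h =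
      germ X U.unop h.down a * (germ X U.unop h.down b * s h)
    rw [map_mul, mul_assoc]
  smul_zero a := funext fun h => mul_zero _
  smul_add a s t := funext fun h => mul_add _ _ _
  add_smul a b s := funext fun h => by
    change germ X U.unop h.down ((show Γ(X.left, U.unop) from a) + (show Γ(X.left, U.unop) from b)) * s h =
      germ X U.unop h.down a * s h + germ X U.unop h.down b * s h
    rw [map_add, add_mul]
  zero_smul s := funext fun h => by
    change germ X U.unop h.down (0 : Γ(X.left, U.unop)) * s h = 0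
    rw [map_zero, zero_mul]

private theorem kk_sheaf : TopCat.Presheaf.IsSheaf (X := X.left.toTopCat) (kkPre X) := by
  rw [TopCat.Presheaf.isSheaf_iff_isSheafUniqueGluing]
  intro ι W sf hsf
  have hc : ∀ h : PLift (gp X ∈ iSup W), ∃ i, gp X ∈ W i := fun h => Opens.mem_iSup.1 h.down
  choose i hi using hc
  exact ⟨fun h => sf (i h) ⟨hi h⟩, fun j => funext fun h => congrFun (hsf _ j) ⟨⟨hi _, h.down⟩⟩,
    fun s hs => funext fun h => congrFun (hs (i h)) ⟨hi h⟩⟩

/-- the constant sheaf of rational functions -/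
noncomputable def KK : X.left.Modules where
  val := PresheafOfModules.ofPresheaf (kkPre X) (fun U V f r m => funext fun h =>
    congrArg (· * m ⟨f.unop.le h.down⟩) (germ_res f.unop.le h.down r).symm)
  isSheaf := by
    rw [PresheafOfModules.ofPresheaf_presheaf]
    exact kk_sheaf X

variable {X} {M N : X.left.Modules} {U V W : X.left.Opens} {F : X.left → Submodule k (Fn X)}
  {D : Dv X}

/-- the value of a section of `KK X` -/
noncomputable def kval (h : gp X ∈ U) : Γ(KK X, U) →+ Fn X where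
  toFun s := (show PLift (gp X ∈ U) → Fn X from s) ⟨h⟩
  map_zero' := rfl
  map_add' _ _ := rfl

/-- the section of `KK X` with given value -/
noncomputable def kmk (v : gp X ∈ U → Fn X) : Γ(KK X, U) :=
  show PLift (gp X ∈ U) → Fn X from fun h => v h.down

theorem kval_kmk (v : gp X ∈ U → Fn X) (h : gp X ∈ U) : kval h (kmk v) = v h := rfl

theorem kval_ext {s t : Γ(KK X, U)} (e : ∀ h, kval h s = kval h t) : s = t :=
  funext fun h => e h.down

theorem kval_res (hUV : U ≤ V) (h : gp X ∈ U) (s : Γ(KK X, V)) :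
    kval h (res (KK X) hUV s) = kval (hUV h) s := rfl

theorem kval_smul (h : gp X ∈ U) (r : Γ(X.left, U)) (s : Γ(KK X, U)) :
    kval h (r • s) = germ X U h r * kval h s := rfl

/-- the rational function given by a section -/
noncomputable def ev (e : M ⟶ KK X) (h : gp X ∈ U) : Γ(M, U) →+ Fn X :=
  (kval h).comp (appL e U).toAddMonoidHom

theorem ev_def (e : M ⟶ KK X) (h : gp X ∈ U) (s : Γ(M, U)) : ev e h s = kval h (e.app U s) := rfl

theorem ev_res (e : M ⟶ KK X) (hUV : U ≤ V) (h : gp X ∈ U) (s : Γ(M, V)) :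
    ev e h (res M hUV s) = ev e (hUV h) s := by
  rw [ev_def, app_res, kval_res, ev_def]

theorem ev_smul (e : M ⟶ KK X) (h : gp X ∈ U) (r : Γ(X.left, U)) (s : Γ(M, U)) :
    ev e h (r • s) = germ X U h r * ev e h s := by
  rw [ev_def, gexact_app_smul, kval_smul, ev_def]

theorem ev_comp (φ : N ⟶ M) (e : M ⟶ KK X) (h : gp X ∈ U) (s : Γ(N, U)) :
    ev (φ ≫ e) h s = ev e h (φ.app U s) := rfl

theorem exists_ev (φ : ∀ U : X.left.Opens, gp X ∈ U → (Γ(M, U) →+ Fn X))
    (nat : ∀ (U V : X.left.Opens) (hUV : U ≤ V) (h : gp X ∈ U) (s : Γ(M, V)),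
      φ U h (res M hUV s) = φ V (hUV h) s)
    (smul : ∀ (U : X.left.Opens) (h : gp X ∈ U) (r : Γ(X.left, U)) (s : Γ(M, U)),
      φ U h (r • s) = germ X U h r * φ U h s) :
    ∃ e : M ⟶ KK X, ∀ (U : X.left.Opens) (h : gp X ∈ U) (s : Γ(M, U)), ev e h s = φ U h s :=
  ⟨mkHom (fun U =>
    { toFun := fun s => kmk fun h => φ U h s
      map_add' := fun a b => kval_ext fun h => map_add (φ U h) a b
      map_smul' := fun r a => kval_ext fun h => smul U h r a })
    (fun U V hUV s => kval_ext fun h => nat U V hUV h s), fun _ _ _ => rfl⟩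

/-- `e` takes values in `F` and identifies `M` with the sections of `F` over `V` -/
structure EmbOn (V : X.left.Opens) (e : M ⟶ KK X) (F : X.left → Submodule k (Fn X)) : Prop where
  mul : ∀ x a v, a ∈ O X x → v ∈ F x → a * v ∈ F x
  into : ∀ (U : X.left.Opens) (h : gp X ∈ U) (s : Γ(M, U)), ev e h s ∈ secs F U
  inj : ∀ (U : X.left.Opens), U ≤ V → ∀ h : gp X ∈ U, Function.Injective (ev e h)
  onto : ∀ (U : X.left.Opens), U ≤ V → ∀ h : gp X ∈ U, ∀ v ∈ secs F U, ∃ s : Γ(M, U), ev e h s = v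

/-- `M` is represented by `F` over `V` -/
def RepOn (V : X.left.Opens) (M : X.left.Modules) (F : X.left → Submodule k (Fn X)) : Prop :=
  ∃ e : M ⟶ KK X, EmbOn V e F

/-- `M` is represented by `F` -/
abbrev Rep (M : X.left.Modules) (F : X.left → Submodule k (Fn X)) : Prop := RepOn ⊤ M F

variable {e : M ⟶ KK X}

theorem st_mul (D : Dv X) (x : X.left) (a v : Fn X) (ha : a ∈ O X x) (hv : v ∈ st D x) :
    a * v ∈ st D x :=
  mem_st.2 (by
    rw [mul_assoc]
    exact mul_mem ha (mem_st.1 hv))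

theorem tw_mul (hF : ∀ x a v, a ∈ O X x → v ∈ F x → a * v ∈ F x) (D : Dv X) (x : X.left)
    (a v : Fn X) (ha : a ∈ O X x) (hv : v ∈ tw F D x) : a * v ∈ tw F D x :=
  mem_tw.2 (by
    rw [mul_assoc]
    exact hF x a _ ha (mem_tw.1 hv))

/-- sections over an open set not containing the generic point vanish -/
theorem sec_eq_of_gp (h : gp X ∉ U) (s t : Γ(M, U)) : s = t :=
  sep fun _ hx => absurd (gp_mem hx) h

theorem EmbOn.of_local (mul : ∀ x a v, a ∈ O X x → v ∈ F x → a * v ∈ F x)
    (into : ∀ (U : X.left.Opens) (x : X.left) (hx : x ∈ U) (s : Γ(M, U)), ev e (gp_mem hx) s ∈ F x)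
    (loc : ∀ x ∈ V, ∃ W : X.left.Opens, x ∈ W ∧ ∀ U : X.left.Opens, U ≤ W → U ≤ V →
      ∀ h : gp X ∈ U, Function.Injective (ev e h) ∧ ∀ v ∈ secs F U, ∃ s : Γ(M, U), ev e h s = v) :
    EmbOn V e F := by
  have inj : ∀ U : X.left.Opens, U ≤ V → ∀ h : gp X ∈ U, Function.Injective (ev e h) :=
    fun U hU h s t hst => sep fun x hx => by
      obtain ⟨W, hxW, hW⟩ := loc x (hU hx)
      have hx' : x ∈ U ⊓ W := ⟨hx, hxW⟩
      refine ⟨U ⊓ W, inf_le_left, hx',
        (hW (U ⊓ W) inf_le_right (inf_le_left.trans hU) (gp_mem hx')).1 ?_⟩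
      rw [ev_res, ev_res]
      exact hst
  refine ⟨mul, fun U h s => mem_secs.2 fun x hx => into U x hx s, inj, fun U hU h v hv => ?_⟩
  choose W hxW hW using loc
  have hx' : ∀ x : U, x.1 ∈ U ⊓ W x.1 (hU x.2) := fun x => ⟨x.2, hxW x.1 (hU x.2)⟩
  choose s hs using fun x : U => (hW x.1 (hU x.2) (U ⊓ W x.1 (hU x.2)) inf_le_right
    (inf_le_left.trans hU) (gp_mem (hx' x))).2 v (secs_anti inf_le_left hv)
  obtain ⟨t, ht⟩ := glue (U := U) (fun x : U => U ⊓ W x.1 (hU x.2)) (fun _ => inf_le_left)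
    (fun x hx => Opens.mem_iSup.2 ⟨⟨x, hx⟩, hx' ⟨x, hx⟩⟩) s fun x y => by
      refine inj _ ((inf_le_left.trans inf_le_left).trans hU)
        ⟨gp_mem (hx' x), gp_mem (hx' y)⟩ ?_
      rw [ev_res, ev_res, hs, hs]
  refine ⟨t, ?_⟩
  rw [← hs ⟨gp X, h⟩, ← ht, ev_res]

theorem EmbOn.anti (h : EmbOn V e F) (hUV : U ≤ V) : EmbOn U e F :=
  ⟨h.mul, h.into, fun W hW => h.inj W (hW.trans hUV), fun W hW => h.onto W (hW.trans hUV)⟩

theorem KK_div {u v : Fn X} (h : gp X ∈ U) (hu : U ≤ loc D u) (hv : v ∈ secs (st D) U) :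
    ∃ r : Γ(X.left, U), germ X U h r * u = v := by
  obtain ⟨r, hr⟩ := (mem_B_iff_germ h).1 (ul_div (D := D) hv hu).1
  exact ⟨r, by rw [hr, div_mul_cancel₀ _ (gp_mem_loc.1 (hu h))]⟩

theorem KK_inv (D : Dv X) (x : X.left) : ∃ U : X.left.Opens, x ∈ U ∧ U ≤ loc D (D.f x)⁻¹ := by
  obtain ⟨U, hx, hU⟩ := D.loc x
  refine ⟨U, hx, fun y hy => mem_loc.2 ?_⟩
  rw [← div_eq_inv_mul]
  exact hU y hy

theorem EmbOn.of_gen (loc : ∀ x, ∃ (W : X.left.Opens) (hx : x ∈ W) (g : Γ(M, W)),
    IsGen M W g ∧ W ≤ loc D (ev e (gp_mem hx) g)) : EmbOn ⊤ e (st D) := by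
  refine EmbOn.of_local (st_mul D) (fun U x hx s => ?_) fun x _ => ?_
  · obtain ⟨W, hxW, g, hg, hl⟩ := loc x
    have hx' : x ∈ U ⊓ W := ⟨hx, hxW⟩
    obtain ⟨r, hr⟩ := (hg (U ⊓ W) inf_le_right).2 (res M inf_le_left s)
    have := congrArg (ev e (gp_mem hx')) hr
    rw [ev_smul, ev_res, ev_res] at this
    rw [← this]
    exact st_mul D x _ _ (Fn_germ_mem_O hx' r) (mem_st.2 (mem_loc.1 (hl hxW)).1)
  · obtain ⟨W, hxW, g, hg, hl⟩ := loc x
    refine ⟨W, hxW, fun U hU _ h => ⟨fun s t hst => ?_, fun v hv => ?_⟩⟩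
    · obtain ⟨r, rfl⟩ := (hg U hU).2 s
      obtain ⟨r', rfl⟩ := (hg U hU).2 t
      rw [ev_smul, ev_smul, ev_res] at hst
      rw [germ_injective h (mul_right_cancel₀ (gp_mem_loc.1 (hl (hU h))) hst)]
    · obtain ⟨r, hr⟩ := KK_div h (hU.trans hl) hv
      exact ⟨r • res M hU g, by rw [ev_smul, ev_res, hr]⟩

theorem EmbOn.isGen (he : EmbOn ⊤ e (st D)) (h : gp X ∈ W) {g : Γ(M, W)}
    (hg : W ≤ loc D (ev e h g)) : IsGen M W g := by
  intro U hU
  by_cases h' : gp X ∈ U
  · refine ⟨fun r r' hr => ?_, fun s => ?_⟩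
    · have := congrArg (ev e h') hr
      rw [ev_smul, ev_smul, ev_res] at this
      exact germ_injective h' (mul_right_cancel₀ (gp_mem_loc.1 (hg h)) this)
    · obtain ⟨r, hr⟩ := KK_div h' (hU.trans hg) (he.into U h' s)
      exact ⟨r, he.inj U le_top h' (by rw [ev_smul, ev_res, hr])⟩
  · exact ⟨fun r r' _ => sec_eq_of_gp (M := OX X.left) h' r r', fun s => ⟨0, sec_eq_of_gp h' _ _⟩⟩

theorem EmbOn.le_loc (he : EmbOn ⊤ e (st D)) (h : gp X ∈ W) {g : Γ(M, W)} (hg : IsGen M W g) :
    W ≤ loc D (ev e h g) := by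
  intro x hx
  obtain ⟨U, hxU, hU⟩ := KK_inv D x
  have hx' : x ∈ U ⊓ W := ⟨hxU, hx⟩
  obtain ⟨s, hs⟩ := he.onto (U ⊓ W) le_top (gp_mem hx') (D.f x)⁻¹
    (Gm_anti (inf_le_left.trans hU) (mem_Gm_loc D _))
  obtain ⟨r, rfl⟩ := (hg (U ⊓ W) inf_le_right).2 s
  rw [ev_smul, ev_res] at hs
  refine (IsU.of_mul (Fn_germ_mem_O hx' r) (mem_st.1 (mem_secs.1 (he.into W h g) x hx)) ?_).2
  rw [← mul_assoc, hs, inv_mul_cancel₀ (D.ne x)]
  exact isU_one

theorem EmbOn.exists_gen (he : EmbOn ⊤ e (st D)) (x : X.left) :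
    ∃ (W : X.left.Opens) (hx : x ∈ W) (g : Γ(M, W)),
      IsGen M W g ∧ W ≤ loc D (ev e (gp_mem hx) g) := by
  obtain ⟨U, hxU, hU⟩ := KK_inv D x
  obtain ⟨g, hg⟩ := he.onto U le_top (gp_mem hxU) (D.f x)⁻¹ (Gm_anti hU (mem_Gm_loc D _))
  rw [← hg] at hU
  exact ⟨U, hxU, g, he.isGen _ hU, hU⟩

theorem EmbOn.locus_eq (he : EmbOn ⊤ e (st D)) (s : Γ(M, ⊤)) :
    locus M s = loc D (ev e (U := ⊤) trivial s) := by
  refine le_antisymm (sSup_le fun V hV x hx => ?_) fun x hx => ?_
  · have := he.le_loc (gp_mem hx) hV hx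
    rwa [ev_res] at this
  · refine le_sSup (s := {V | IsGen M V (res M le_top s)}) (he.isGen (gp_mem hx) ?_) hx
    rw [ev_res]

theorem RepOn.of_iso (h : RepOn V M F) (i : N ≅ M) : RepOn V N F := by
  obtain ⟨e, he⟩ := h
  have h1 : ∀ (U : X.left.Opens) (s : Γ(N, U)), i.inv.app U (i.hom.app U s) = s := fun U s => by
    rw [← comp_app_apply, i.hom_inv_id]
    rfl
  have h2 : ∀ (U : X.left.Opens) (s : Γ(M, U)), i.hom.app U (i.inv.app U s) = s := fun U s => by
    rw [← comp_app_apply, i.inv_hom_id]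
    rfl
  refine ⟨i.hom ≫ e, he.mul, fun U h s => he.into U h _, fun U hU h s t hst => ?_,
    fun U hU h v hv => ?_⟩
  · rw [ev_comp, ev_comp] at hst
    rw [← h1 U s, ← h1 U t, he.inj U hU h hst]
  · obtain ⟨s, hs⟩ := he.onto U hU h v hv
    exact ⟨i.inv.app U s, by rw [ev_comp, h2, hs]⟩

end Pool.Agent.Work.MP_e57da2_ag
end

-- merged part: Pool.Agent.Work.MP_e57da2_ag.TensU
section
/-!
# The universal property of the tensor product; tensoring with a locally free sheaf of rank one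

`tens M N` is the sheafification of the presheaf tensor product; `tm s t` is the image of `s ⊗ t` under the unit of `PresheafOfModules.sheafificationAdjunction`.
Plans.  `tens_hom_ext`, `exists_tens_hom`: the adjunction (`homEquiv`, `homEquiv_unit`), `TensorProduct.lift`, `TensorProduct.induction_on`, `PresheafOfModules.homMk` or the structure constructor
(see `PresheafOfModules.Monoidal.tensorObj`, `ModuleCat.MonoidalCategory.tensor_ext`).
`tm_bijective`: let `α : tens M P ⟶ push M V` be given by `β U s t = r • res s` where `res t = r • res g` on `U ⊓ V`, and `γ : push M V ⟶ push (tens M P) V` by `s ↦ tm s (res g)` (`mkHom`).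
Then `α (tm s g) = s` gives injectivity and `α ≫ γ = toPush _ V` (`tens_hom_ext`) gives surjectivity.
-/

open CategoryTheory Limits AlgebraicGeometry TopologicalSpace Opposite

namespace Pool.Agent.Work.MP_e57da2_ag

open Pool.Agent.Work.MP_910138_ag

variable {X : Scheme.{0}} {M N P Q : X.Modules} {U V W : X.Opens}

/-- the pure tensor of two sections -/
noncomputable def tm (s : Γ(M, U)) (t : Γ(N, U)) : Γ(tens M N, U) :=
  (((PresheafOfModules.sheafificationAdjunction (𝟙 X.ringCatSheaf.obj)).unit.app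
    (PresheafOfModules.Monoidal.tensorObj (R := X.presheaf) M.val N.val)).app (op U)).hom
      (TensorProduct.tmul Γ(X, U) s t)

/-- the unit of the sheafification -/
noncomputable def TensU_eta (M N : X.Modules) :=
  (PresheafOfModules.sheafificationAdjunction (𝟙 X.ringCatSheaf.obj)).unit.app
    (PresheafOfModules.Monoidal.tensorObj (R := X.presheaf) M.val N.val)

/-- the unit of the sheafification on sections -/
noncomputable def TensU_unit (M N : X.Modules) (U : X.Opens) :
    TensorProduct Γ(X, U) Γ(M, U) Γ(N, U) →ₗ[Γ(X, U)] Γ(tens M N, U) where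
  toFun z := ((TensU_eta M N).app (op U)).hom z
  map_add' a b := ((TensU_eta M N).app (op U)).hom.map_add a b
  map_smul' r a := ((TensU_eta M N).app (op U)).hom.map_smul r a

theorem TensU_tm (s : Γ(M, U)) (t : Γ(N, U)) :
    tm s t = TensU_unit M N U (TensorProduct.tmul Γ(X, U) s t) := rfl

theorem tm_add_left (s s' : Γ(M, U)) (t : Γ(N, U)) : tm (s + s') t = tm s t + tm s' t := by
  rw [TensU_tm, TensorProduct.add_tmul, map_add, TensU_tm, TensU_tm]

theorem tm_add_right (s : Γ(M, U)) (t t' : Γ(N, U)) : tm s (t + t') = tm s t + tm s t' := by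
  rw [TensU_tm, TensorProduct.tmul_add, map_add, TensU_tm, TensU_tm]

theorem tm_smul_left (r : Γ(X, U)) (s : Γ(M, U)) (t : Γ(N, U)) : tm (r • s) t = r • tm s t := by
  rw [TensU_tm, ← TensorProduct.smul_tmul', map_smul, TensU_tm]

theorem tm_smul_right (r : Γ(X, U)) (s : Γ(M, U)) (t : Γ(N, U)) : tm s (r • t) = r • tm s t := by
  rw [TensU_tm, TensorProduct.tmul_smul, map_smul, TensU_tm]

theorem tm_res (h : U ≤ V) (s : Γ(M, V)) (t : Γ(N, V)) :
    res (tens M N) h (tm s t) = tm (res M h s) (res N h t) :=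
  (PresheafOfModules.naturality_apply
    ((PresheafOfModules.sheafificationAdjunction (𝟙 X.ringCatSheaf.obj)).unit.app
      (PresheafOfModules.Monoidal.tensorObj (R := X.presheaf) M.val N.val)) (homOfLE h).op
        (TensorProduct.tmul Γ(X, V) s t)).symm

theorem tens_hom_ext {f g : tens M N ⟶ Q}
    (h : ∀ (U : X.Opens) (s : Γ(M, U)) (t : Γ(N, U)), f.app U (tm s t) = g.app U (tm s t)) :
    f = g := by
  apply ((PresheafOfModules.sheafificationAdjunction (𝟙 X.ringCatSheaf.obj)).homEquiv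
    (PresheafOfModules.Monoidal.tensorObj (R := X.presheaf) M.val N.val) Q).injective
  refine ((Adjunction.homEquiv_unit _ _ _ _).trans ?_).trans (Adjunction.homEquiv_unit _ _ _ _).symm
  refine PresheafOfModules.hom_ext fun U => ?_
  exact ModuleCat.MonoidalCategory.tensor_ext fun s t => h U.unop s t

theorem exists_tens_hom (β : ∀ U : X.Opens, Γ(M, U) →ₗ[Γ(X, U)] Γ(N, U) →ₗ[Γ(X, U)] Γ(Q, U))
    (nat : ∀ (U V : X.Opens) (h : U ≤ V) (s : Γ(M, V)) (t : Γ(N, V)),
      β U (res M h s) (res N h t) = res Q h (β V s t)) :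
    ∃ f : tens M N ⟶ Q, ∀ (U : X.Opens) (s : Γ(M, U)) (t : Γ(N, U)),
      f.app U (tm s t) = β U s t := by
  let φ : PresheafOfModules.Monoidal.tensorObj (R := X.presheaf) M.val N.val ⟶
      (SheafOfModules.forget X.ringCatSheaf ⋙
        PresheafOfModules.restrictScalars (𝟙 X.ringCatSheaf.obj)).obj Q :=
    PresheafOfModules.homMk
      { app := fun U => AddCommGrpCat.ofHom (TensorProduct.lift (β U.unop)).toAddMonoidHom
        naturality := fun U V f => by
          ext z
          induction z using TensorProduct.induction_on with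
          | zero => exact (map_zero _).trans (map_zero _).symm
          | tmul s t => exact nat V.unop U.unop f.unop.le s t
          | add a b ha hb =>
            exact (map_add _ a b).trans ((congrArg₂ (· + ·) ha hb).trans (map_add _ a b).symm) }
      (fun U r m => (TensorProduct.lift (β U.unop)).map_smul r m)
  refine ⟨((PresheafOfModules.sheafificationAdjunction (𝟙 X.ringCatSheaf.obj)).homEquiv _ Q).symm φ,
    fun U s t => ?_⟩
  have h1 := (Adjunction.homEquiv_unit _ _ _ _).symm.trans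
    (((PresheafOfModules.sheafificationAdjunction (𝟙 X.ringCatSheaf.obj)).homEquiv _
      Q).apply_symm_apply φ)
  exact congrArg (fun f => (f.app (op U)).hom (TensorProduct.tmul Γ(X, U) s t)) h1

/-- the coordinate of a section with respect to a generator -/
noncomputable def TensU_co {g : Γ(P, V)} (hg : IsGen P V g) (h : W ≤ V) :
    Γ(X, W) ≃ₗ[Γ(X, W)] Γ(P, W) :=
  LinearEquiv.ofBijective (LinearMap.toSpanSingleton _ _ (res P h g)) (hg W h)

theorem TensU_co_apply {g : Γ(P, V)} (hg : IsGen P V g) (h : W ≤ V) (r : Γ(X, W)) :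
    TensU_co hg h r = r • res P h g := rfl

theorem TensU_co_res {g : Γ(P, V)} (hg : IsGen P V g) (h : W ≤ V) (h' : U ≤ W) (t : Γ(P, W)) :
    (TensU_co hg (h'.trans h)).symm (res P h' t) = resO X h' ((TensU_co hg h).symm t) := by
  obtain ⟨r, rfl⟩ := (TensU_co hg h).surjective t
  rw [LinearEquiv.symm_apply_apply, LinearEquiv.symm_apply_eq, TensU_co_apply, TensU_co_apply,
    res_smul, res_res]

/-- the bilinear map given by the coordinate of the second argument -/
noncomputable def TensU_beta (M : X.Modules) {g : Γ(P, V)} (hg : IsGen P V g) (U : X.Opens) :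
    Γ(M, U) →ₗ[Γ(X, U)] Γ(P, U) →ₗ[Γ(X, U)] Γ(push M V, U) :=
  LinearMap.mk₂ Γ(X, U) (fun s t => (pushSec M V U).symm
    ((TensU_co hg inf_le_right).symm (res P inf_le_left t) • res M inf_le_left s))
    (fun a b t => by rw [map_add, smul_add, map_add])
    (fun r s t => (pushSec M V U).injective (by
      rw [pushSec_smul, AddEquiv.apply_symm_apply, AddEquiv.apply_symm_apply, res_smul,
        smul_comm]))
    (fun s a b => by rw [map_add, map_add, add_smul, map_add])
    (fun r s t => (pushSec M V U).injective (by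
      rw [pushSec_smul, AddEquiv.apply_symm_apply, AddEquiv.apply_symm_apply, res_smul,
        LinearEquiv.map_smul, smul_eq_mul, mul_smul]))

theorem TensU_beta_apply {g : Γ(P, V)} (hg : IsGen P V g) (s : Γ(M, U)) (t : Γ(P, U)) :
    pushSec M V U (TensU_beta M hg U s t) =
      (TensU_co hg inf_le_right).symm (res P inf_le_left t) • res M inf_le_left s := rfl

theorem TensU_alpha {g : Γ(P, V)} (hg : IsGen P V g) : ∃ α : tens M P ⟶ push M V,
    ∀ (U : X.Opens) (s : Γ(M, U)) (t : Γ(P, U)), pushSec M V U (α.app U (tm s t)) =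
      (TensU_co hg inf_le_right).symm (res P inf_le_left t) • res M inf_le_left s := by
  obtain ⟨α, hα⟩ := exists_tens_hom (TensU_beta M hg) fun U U' hU s t =>
    (pushSec M V U).injective (by
      rw [pushSec_res, TensU_beta_apply, TensU_beta_apply, res_smul, ← TensU_co_res, res_res,
        res_res, res_res, res_res])
  exact ⟨α, fun U s t => by rw [hα, TensU_beta_apply]⟩

theorem TensU_gamma (g : Γ(P, V)) : ∃ γ : push M V ⟶ push (tens M P) V,
    ∀ (U : X.Opens) (s : Γ(push M V, U)), pushSec (tens M P) V U (γ.app U s) =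
      tm (pushSec M V U s) (res P inf_le_right g) := by
  refine ⟨mkHom (fun U =>
    { toFun := fun s => (pushSec (tens M P) V U).symm
        (tm (pushSec M V U s) (res P inf_le_right g))
      map_add' := fun a b => by rw [map_add, tm_add_left, map_add]
      map_smul' := fun r s => (pushSec (tens M P) V U).injective (by
        rw [RingHom.id_apply, pushSec_smul, pushSec_smul, AddEquiv.apply_symm_apply,
          AddEquiv.apply_symm_apply, tm_smul_left]) }) fun U U' hU s =>
    (pushSec (tens M P) V U).injective ?_, fun U s => ?_⟩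
  · rw [pushSec_res, LinearMap.coe_mk, AddHom.coe_mk, LinearMap.coe_mk, AddHom.coe_mk,
      AddEquiv.apply_symm_apply, AddEquiv.apply_symm_apply, pushSec_res, tm_res, res_res]
  · rw [mkHom_app, LinearMap.coe_mk, AddHom.coe_mk, AddEquiv.apply_symm_apply]

theorem tm_bijective {g : Γ(P, V)} (hg : IsGen P V g) (h : W ≤ V) :
    Function.Bijective fun s : Γ(M, W) => tm s (res P h g) := by
  obtain ⟨α, hα⟩ := TensU_alpha (M := M) hg
  obtain ⟨γ, hγ⟩ := TensU_gamma (M := M) g
  have e : α ≫ γ = toPush (tens M P) V := tens_hom_ext fun U s t =>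
    (pushSec (tens M P) V U).injective (by
      rw [comp_app_apply, hγ, hα, pushSec_toPush, tm_res, tm_smul_left, ← tm_smul_right,
        ← TensU_co_apply hg, LinearEquiv.apply_symm_apply])
  have hW : W ≤ W ⊓ V := le_inf le_rfl h
  constructor
  · have key : ∀ s : Γ(M, W), res M hW (pushSec M V W (α.app W (tm s (res P h g)))) = s := by
      intro s
      rw [hα, res_res, ← one_smul Γ(X, W ⊓ V) (res P _ g), ← TensU_co_apply hg,
        LinearEquiv.symm_apply_apply, one_smul, res_res, res_self]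
    intro a b hab
    rw [← key a, ← key b]
    exact congrArg (fun y => res M hW (pushSec M V W (α.app W y))) hab
  · intro y
    refine ⟨res M hW (pushSec M V W (α.app W y)), ?_⟩
    have h1 : res _ hW (pushSec (tens M P) V W ((α ≫ γ).app W y)) = y := by
      rw [e, pushSec_toPush, res_res, res_self]
    rwa [comp_app_apply, hγ, tm_res, res_res] at h1

end Pool.Agent.Work.MP_e57da2_ag
end

-- merged part: Pool.Agent.Work.MP_e57da2_ag.Rep1
section
/-!
# Line bundles, ideal sheaves and tensor products in the function field model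

Plans.  `exists_rep`: choose generators `g x` on `V x`; `e` from `exists_ev` with `φ U h s = germ r`, where `res s = r • res (g (gp X))` on `U ⊓ V (gp X)`; `D.f x = (ev e _ (g x))⁻¹`
(two generators differ by a unit on the intersection); `EmbOn.of_gen`.
`Rep.cl_eq`: `u = ev e' g / ev e g` does not depend on the local generator `g`; `cl_eq_iff`.
`Rep.hzero_eq`: `ev e` is a `k`-linear isomorphism onto `Gm D ⊤` (`algebraMap_eq`, `ev_smul`).
`rep_OX`, `rep_idealPow`: `exists_ev` with `germ`; `mem_B_iff_germ`, `toK_germ`, `toK_mem_mp`, `SubData.mkSec` (unfold `idealPow`).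
`RepOn.tens`: `exists_tens_hom` into `KK X` with `β U s t = kmk fun h => ev e h s * ev e' h t`; `EmbOn.of_local`, `EmbOn.exists_gen`, `tm_bijective`.
`Rep.amp`: `EmbOn.locus_eq`.
-/

open CategoryTheory Limits AlgebraicGeometry TopologicalSpace Opposite

namespace Pool.Agent.Work.MP_e57da2_ag

open Pool.Agent.Work.MP_910138_ag

variable {k : Type} [Field k] {X : Sch k} [IsIntegral X.left] {M P L : X.left.Modules}
  {V : X.left.Opens} {F : X.left → Submodule k (Fn X)} {D E : Dv X}

theorem Rep1_ev {g : Γ(M, V)} (hg : IsGen M V g) (hV : gp X ∈ V) :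
    ∃ e : M ⟶ KK X, ev e hV g = 1 := by
  choose c hc using fun (U : X.left.Opens) (s : Γ(M, U)) =>
    (hg (U ⊓ V) inf_le_right).2 (res M inf_le_left s)
  have inj : ∀ (U : X.left.Opens) (s : Γ(M, U)) (r : Γ(X.left, U ⊓ V)),
      r • res M inf_le_right g = res M inf_le_left s → c U s = r :=
    fun U s r h => (hg (U ⊓ V) inf_le_right).1 ((hc U s).trans h.symm)
  replace hc : ∀ U s, c U s • res M inf_le_right g = res M inf_le_left s := hc
  obtain ⟨e, he⟩ := exists_ev (M := M)
    (fun U h => AddMonoidHom.mk' (fun s => germ X (U ⊓ V) ⟨h, hV⟩ (c U s)) fun a b => by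
      rw [inj U (a + b) (c U a + c U b) (by rw [add_smul, hc, hc, map_add]), map_add])
    (fun U U' hU h s => by
      have h1 : U ⊓ V ≤ U' ⊓ V := inf_le_inf_right V hU
      change germ X (U ⊓ V) _ (c U _) = germ X (U' ⊓ V) _ (c U' s)
      rw [inj U (res M hU s) (resO X.left h1 (c U' s)) (by
        rw [← res_res h1 inf_le_right, ← res_smul, hc, res_res, res_res]), germ_res])
    (fun U h r s => by
      change germ X (U ⊓ V) _ (c U _) = _ * germ X (U ⊓ V) _ (c U s)
      rw [inj U (r • s) (resO X.left inf_le_left r * c U s) (by rw [mul_smul, hc, res_smul]),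
        map_mul, germ_res])
  refine ⟨e, (he V hV g).trans ?_⟩
  change germ X (V ⊓ V) _ (c V g) = 1
  rw [inj V g 1 (one_smul _ _), map_one]

theorem Rep1_ratio {U : X.left.Opens} {g : Γ(M, V)} (hg : IsGen M V g) (hV : gp X ∈ V)
    (hU : gp X ∈ U) (s : Γ(M, U)) :
    ∃ a ∈ B X (U ⊓ V), ∀ e : M ⟶ KK X, ev e hU s = a * ev e hV g := by
  obtain ⟨r, hr⟩ := (hg (U ⊓ V) inf_le_right).2 (res M inf_le_left s)
  have h : gp X ∈ U ⊓ V := ⟨hU, hV⟩
  refine ⟨germ X _ h r, germ_mem_B h r, fun e => ?_⟩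
  rw [← ev_res e inf_le_left h s, ← hr, ev_smul, ev_res]

theorem Rep1_unit {U : X.left.Opens} {g : Γ(M, V)} {s : Γ(M, U)} (hg : IsGen M V g)
    (hs : IsGen M U s) {y : X.left} (hV : y ∈ V) (hU : y ∈ U) (e : M ⟶ KK X)
    (h0 : ev e (gp_mem hV) g ≠ 0) : IsU X y (ev e (gp_mem hU) s / ev e (gp_mem hV) g) := by
  obtain ⟨a, ha, ea⟩ := Rep1_ratio hg (gp_mem hV) (gp_mem hU) s
  obtain ⟨b, hb, eb⟩ := Rep1_ratio hs (gp_mem hU) (gp_mem hV) g
  have h1 : a * b = 1 := mul_right_cancel₀ h0 (by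
    rw [mul_comm a, mul_assoc, ← ea, ← eb, one_mul])
  rw [ea, mul_div_cancel_right₀ _ h0]
  exact (IsU.of_mul (mem_B.1 ha y ⟨hU, hV⟩) (mem_B.1 hb y ⟨hV, hU⟩) (h1 ▸ isU_one)).1

theorem Rep1_ox : ∃ e : OX X.left ⟶ KK X, ∀ (U : X.left.Opens) (h : gp X ∈ U)
    (s : Γ(X.left, U)), ev e h s = germ X U h s :=
  exists_ev (M := OX X.left) (fun U h => (germ X U h).toAddMonoidHom)
    (fun _ _ hUV h s => germ_res hUV h s) fun U h r s => map_mul (germ X U h) r s

theorem Rep1_jet {x : X.left} {p : ℕ} {U : X.left.Opens} {v : Fn X} :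
    v ∈ secs (jet x p) U ↔ v ∈ B X U ∧ (x ∈ U → v ∈ mp X x p) := by
  rw [← tw_zero (jet x p), mem_tw_jet, mem_Gm_zero, f_zero, mul_one]

theorem exists_rep (h : IsLine M) : ∃ D : Dv X, Rep M (st D) := by
  choose V g hV hg using h
  obtain ⟨e, he⟩ := Rep1_ev (hg (gp X)) (hV _)
  have h0 : ∀ x, ev e (gp_mem (hV x)) (g x) ≠ 0 := fun x h0 => by
    obtain ⟨a, -, ha⟩ := Rep1_ratio (hg x) (gp_mem (hV x)) (hV _) (g (gp X))
    exact one_ne_zero (he.symm.trans ((ha e).trans (by rw [h0, mul_zero])))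
  have hu := fun x y (hy : y ∈ V x) => Rep1_unit (hg y) (hg x) (hV y) hy e (h0 y)
  refine ⟨⟨fun x => (ev e (gp_mem (hV x)) (g x))⁻¹, fun x => inv_ne_zero (h0 x),
    fun x => ⟨V x, hV x, fun y hy => ?_⟩⟩, e,
    EmbOn.of_gen fun x => ⟨V x, hV x, g x, hg x, fun y hy => mem_loc.2 ?_⟩⟩
  · rw [inv_div_inv]
    exact hu x y hy
  · have h1 := hu x y hy
    rwa [div_eq_mul_inv] at h1

theorem Rep.cl_eq (h : Rep M (st D)) (h' : Rep M (st E)) : cl D = cl E := by
  obtain ⟨e, he⟩ := h
  obtain ⟨e', he'⟩ := h'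
  obtain ⟨W₀, h₀, g₀, -, hl₀⟩ := he.exists_gen (gp X)
  refine cl_eq_iff.2 ⟨ev e' h₀ g₀ / ev e h₀ g₀, fun x => ?_⟩
  obtain ⟨W, hx, g, hg, hl⟩ := he.exists_gen x
  obtain ⟨a, -, ha⟩ := Rep1_ratio hg (gp_mem hx) h₀ g₀
  have ha0 : a ≠ 0 := left_ne_zero_of_mul (ha e ▸ gp_mem_loc.1 (hl₀ h₀))
  have h1 := (mem_loc.1 (he'.le_loc (gp_mem hx) hg hx)).div (mem_loc.1 (hl hx))
  rwa [ha, ha, mul_div_mul_left _ _ ha0, mul_div_assoc, ← mul_div_mul_comm]

theorem Rep.hzero_eq (h : Rep M (st D)) : hzero X M = h0 D := by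
  obtain ⟨e, he⟩ := h
  let _ : Module k Γ(M, ⊤) := Module.compHom _ (cst X)
  let f : Γ(M, ⊤) →ₗ[k] Gm D ⊤ :=
    { toFun := fun s => ⟨ev e (U := ⊤) trivial s, he.into ⊤ trivial s⟩
      map_add' := fun a b => Subtype.ext (map_add _ a b)
      map_smul' := fun c s => Subtype.ext
        ((ev_smul e (U := ⊤) trivial (cst X c) s).trans (Algebra.smul_def c _).symm) }
  exact (LinearEquiv.ofBijective f
    ⟨fun a b hab => he.inj ⊤ le_rfl trivial (congrArg Subtype.val hab),
      fun v => (he.onto ⊤ le_rfl trivial v.1 v.2).imp fun s hs => Subtype.ext hs⟩).finrank_eq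

theorem rep_OX : Rep (OX X.left) (st (0 : Dv X)) := by
  obtain ⟨e, he⟩ := Rep1_ox (X := X)
  refine ⟨e, st_mul 0, fun U h s => ?_, fun U _ h a b hab => ?_, fun U _ h v hv => ?_⟩
  · exact he U h s ▸ mem_Gm_zero.2 (germ_mem_B h s)
  · exact germ_injective h ((he U h a).symm.trans (hab.trans (he U h b)))
  · exact ((mem_B_iff_germ h).1 (mem_Gm_zero.1 hv)).imp fun s hs => (he U h s).trans hs

theorem rep_idealPow (x : X.left) (p : ℕ) : Rep (idealPow x p) (jet x p) := by
  obtain ⟨e, he⟩ := Rep1_ox (X := X)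
  have key : ∀ (U : X.left.Opens) (h : gp X ∈ U) (s : Γ(X.left, U)),
      s ∈ vanIdeal x p U ↔ (x ∈ U → germ X U h s ∈ mp X x p) := fun U h s =>
    mem_vanIdeal.trans (forall_congr' fun hx => by rw [← toK_mem_mp, toK_germ])
  refine ⟨SubData.ι _ ≫ e, fun y a v ha hv => ?_, fun U h s => ?_, fun U _ h a b hab => ?_,
    fun U _ h v hv => ?_⟩
  · unfold jet at hv ⊢
    split_ifs at hv ⊢ with hy
    · subst hy
      exact O_mul_mem_mp ha hv
    · exact (O X y).mul_mem ha hv
  · rw [ev_comp, he]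
    exact Rep1_jet.2 ⟨germ_mem_B h _, (key U h _).1 (SubData.ι_mem _ s)⟩
  · exact SubData.ι_injective _ U
      (germ_injective h ((he U h _).symm.trans (hab.trans (he U h _))))
  · obtain ⟨hb, hm⟩ := Rep1_jet.1 hv
    obtain ⟨s, rfl⟩ := (mem_B_iff_germ h).1 hb
    exact ⟨SubData.mkSec _ s ((key U h s).2 hm), he U h s⟩

theorem RepOn.tens (h : RepOn V M F) (hP : Rep P (st D)) : RepOn V (tens M P) (tw F D) := by
  obtain ⟨e, he⟩ := h
  obtain ⟨e', he'⟩ := hP
  obtain ⟨f, hf⟩ := exists_tens_hom (M := M) (N := P) (Q := KK X)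
    (fun U => LinearMap.mk₂ Γ(X.left, U) (fun s t => kmk fun h => ev e h s * ev e' h t)
      (fun a b t => kval_ext fun h => by simp only [map_add, kval_kmk, add_mul])
      (fun r a t => kval_ext fun h => by simp only [kval_smul, ev_smul, kval_kmk, mul_assoc])
      (fun a s t => kval_ext fun h => by simp only [map_add, kval_kmk, mul_add])
      (fun r a t => kval_ext fun h => by
        rw [kval_smul, kval_kmk, kval_kmk, ev_smul, mul_left_comm]))
    (fun U U' hU s t => kval_ext fun h => by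
      simp only [LinearMap.mk₂_apply, kval_res, kval_kmk, ev_res])
  have key : ∀ (U W : X.left.Opens) (hU : U ≤ W) (h : gp X ∈ U) (s : Γ(M, U)) (g : Γ(P, W)),
      ev f h (tm s (res P hU g)) = ev e h s * ev e' (hU h) g := fun U W hU h s g => by
    rw [ev_def, hf, LinearMap.mk₂_apply, kval_kmk, ev_res]
  refine ⟨f, EmbOn.of_local (tw_mul he.mul D) (fun U x hx s => ?_) fun x _ => ?_⟩
  · obtain ⟨W, hW, g, hg, hl⟩ := he'.exists_gen x
    have hx' : x ∈ U ⊓ W := ⟨hx, hW⟩
    obtain ⟨a, ha⟩ := (tm_bijective (M := M) hg (inf_le_right : U ⊓ W ≤ W)).2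
      (res _ inf_le_left s)
    rw [mem_tw, ← ev_res f inf_le_left (gp_mem hx') s, ← ha, key, mul_assoc, mul_comm]
    exact he.mul x _ _ (mem_loc.1 (hl hW)).1 (mem_secs.1 (he.into _ _ a) x hx')
  · obtain ⟨W, hW, g, hg, hl⟩ := he'.exists_gen x
    have h0 := gp_mem_loc.1 (hl (gp_mem hW))
    refine ⟨W, hW, fun U hU hV h => ⟨fun s t hst => ?_, fun v hv => ?_⟩⟩
    · obtain ⟨a, rfl⟩ := (tm_bijective (M := M) hg hU).2 s
      obtain ⟨b, rfl⟩ := (tm_bijective (M := M) hg hU).2 t
      rw [key, key] at hst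
      rw [he.inj U hV h (mul_right_cancel₀ h0 hst)]
    · obtain ⟨a, ha⟩ := he.onto U hV h (v / ev e' (hU h) g) (mem_secs.2 fun y hy => by
        have h1 := he.mul y _ _ (mem_loc.1 (hl (hU hy))).inv.1 (mem_tw.1 (mem_secs.1 hv y hy))
        rwa [← div_eq_inv_mul, mul_div_mul_right _ _ (D.ne y)] at h1)
      exact ⟨tm a (res P hU g), by rw [key, ha, div_mul_cancel₀ _ h0]⟩

theorem Rep.tpow (h : Rep L (st D)) (n : ℕ) : Rep (tpow L n) (st (n • D)) := by
  induction n with
  | zero =>
    rw [zero_nsmul]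
    exact rep_OX
  | succ n ih =>
    rw [succ_nsmul, ← tw_st]
    exact RepOn.tens ih h

theorem Rep.amp (h : Rep L (st D)) (hL : IsAmple L) : Amp D := by
  intro x
  obtain ⟨n, s, hn, hx, ha⟩ := hL x
  obtain ⟨e, he⟩ := h.tpow n
  rw [he.locus_eq] at hx ha
  exact ⟨n, _, hn, he.into ⊤ trivial s, hx, ha⟩

end Pool.Agent.Work.MP_e57da2_ag
end

-- merged part: Pool.Agent.Work.MP_e57da2_ag.Cech
section
/-!
# The signed Čech resolution of the structure sheaf; Mayer-Vietoris

A model in characteristic two is `Pool/Agent/Work/MP_910138_ag/TCech.lean` (on origin/main).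
Plans.  `ext_zero_of_cech`: build `R : LRes (OX X)` with `R.C q = ⨁ S : {S : Finset ι // S.card = q + 1}, supp (OX X) (S.inf U)`, the differential sending the summand `S` to
`∑ i ∈ S, sg i S • suppLE ≫ ι (S.erase i)` and the augmentation `suppι`.  The components of a chain `y` over `W` are functions `y S ∈ (suppData _ (S.inf U)).sub W`;
`(∂ y) T = ∑ i ∉ T, sg i T • y (insert i T)`; for `W ≤ U i₀` the homotopy `(h y) S = if i₀ ∈ S then sg i₀ S • y (S.erase i₀) else 0` satisfies `∂ h + h ∂ = 1` (`sg_swap`, `sg_mul_self`), `exact_iff`, `epi_iff`.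
`LRes.ext_zero` with `affine_vanishing` on each summand (an `Ext` class out of a biproduct is the sum of its restrictions); morphisms out of the summands are sections
(`IsGen.hom_bijective`, `isGen_one`).
`mv_surj`: `mv_shortExact`, `isIso_suppι_top`, the contravariant long exact sequence (`Ext.contravariant_sequence_exact₁`), `Ext.mk₀_bijective` or `Ext.homEquiv₀`.
-/

open CategoryTheory Limits AlgebraicGeometry TopologicalSpace Opposite Abelian

namespace Pool.Agent.Work.MP_e57da2_ag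

open Pool.Agent.Work.MP_910138_ag

variable {X : Scheme.{0}} {N : X.Modules} {ι : Type} [Fintype ι] [LinearOrder ι]

/-- the Čech differential on sections -/
noncomputable def cechD (U : ι → X.Opens) (c : ∀ S : Finset ι, Γ(N, S.inf U)) (S : Finset ι) :
    Γ(N, S.inf U) :=
  ∑ i ∈ S, sg i S • res N (Finset.inf_mono (Finset.erase_subset i S)) (c (S.erase i))

section comb

variable {A B : Type} [AddCommGroup A] [AddCommGroup B]

/-- the boundary of a chain -/
def Cech_bd (y : Finset ι → A) (T : Finset ι) : A := ∑ j, hh j y T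

/-- the homotopy on chains -/
def Cech_kk (i : ι) (y : Finset ι → A) (S : Finset ι) : A :=
  if i ∈ S then sg i S • y (S.erase i) else 0

omit [Fintype ι] in
theorem Cech_sg {i j : ι} {T : Finset ι} (hi : i ∉ T) (hj : j ∉ T) (hij : i ≠ j) :
    sg i T * sg j (insert i T) + sg j T * sg i (insert j T) = 0 := by
  have k := sg_swap (Finset.mem_insert_self i (insert j T))
    (Finset.mem_insert_of_mem (Finset.mem_insert_self j T)) hij
  have hi' : i ∉ insert j T := by simp [hi, hij]
  rw [Finset.erase_insert hi', sg_insert_self, sg_insert_self, Finset.erase_insert_of_ne hij,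
    Finset.erase_insert hj, sg_insert_self, Finset.insert_comm, sg_insert_self] at k
  linear_combination k

omit [Fintype ι] in
theorem Cech_hh_hh (i j : ι) (y : Finset ι → A) (T : Finset ι) :
    hh i (hh j y) T + hh j (hh i y) T = 0 := by
  simp only [hh_apply, Finset.mem_insert]
  by_cases hij : i = j
  · subst hij
    simp
  by_cases hi : i ∈ T
  · simp [hi]
  by_cases hj : j ∈ T
  · simp [hj]
  rw [if_neg hi, if_neg hj, if_neg (by simp [hj, Ne.symm hij]), if_neg (by simp [hi, hij]),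
    smul_smul, smul_smul, Finset.insert_comm, ← add_smul, Cech_sg hi hj hij, zero_smul]

theorem Cech_bd_bd (y : Finset ι → A) (T : Finset ι) : Cech_bd (Cech_bd y) T = 0 := by
  have e : Cech_bd y = ∑ j, hh j y := by
    funext S
    rw [Finset.sum_apply]
    rfl
  have e2 : Cech_bd (Cech_bd y) T = ∑ p : ι × ι, hh p.1 (hh p.2 y) T := by
    rw [Fintype.sum_prod_type, Cech_bd]
    refine Finset.sum_congr rfl fun i _ => ?_
    rw [e, map_sum, Finset.sum_apply]
  rw [e2]
  refine Finset.sum_ninvolution Prod.swap (fun p => Cech_hh_hh _ _ _ _) (fun p hp e => hp ?_)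
    (fun _ => Finset.mem_univ _) fun _ => rfl
  have h1 : p.2 = p.1 := congrArg Prod.fst e
  rw [h1]
  simp [hh_apply]

omit [Fintype ι] in
theorem Cech_hh_kk (i j : ι) (y : Finset ι → A) (T : Finset ι) :
    hh j (Cech_kk i y) T + Cech_kk i (hh j y) T = if j = i then y T else 0 := by
  simp only [hh_apply, Cech_kk, Finset.mem_insert, Finset.mem_erase]
  by_cases hij : j = i
  · subst hij
    by_cases hj : j ∈ T
    · simp [hj, sg_erase_self, smul_smul, sg_mul_self]
    · simp [hj, sg_insert_self, smul_smul, sg_mul_self]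
  by_cases hj : j ∈ T
  · simp [hj, hij]
  by_cases hi : i ∈ T
  · have k := Cech_sg (Finset.notMem_erase i T) (fun h => hj (Finset.mem_of_mem_erase h))
      (Ne.symm hij)
    have k2 := sg_erase_self i (insert j T)
    rw [Finset.erase_insert_of_ne hij] at k2
    rw [Finset.insert_erase hi, sg_erase_self, k2] at k
    rw [if_neg hj, if_pos (Or.inr hi), if_pos hi, if_neg (fun h => hj h.2), if_neg hij,
      Finset.erase_insert_of_ne hij, smul_smul, smul_smul, ← add_smul]
    have : sg j T * sg i (insert j T) + sg i T * sg j (T.erase i) = 0 := by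
      have a1 := sg_mul_self i T
      have a2 := sg_mul_self i (insert j T)
      linear_combination (sg i T * sg i (insert j T)) * k - (sg j T * sg i (insert j T)) * a1 -
        (sg i T * sg j (T.erase i)) * a2
    rw [this, zero_smul]
  · simp [hi, hij, Ne.symm hij]

theorem Cech_bd_kk (i : ι) {y : Finset ι → A} (h : ∀ T, Cech_bd y T = 0) (T : Finset ι) :
    Cech_bd (Cech_kk i y) T = y T := by
  have h1 : ∑ j, Cech_kk i (hh j y) T = 0 := by
    simp only [Cech_kk]
    split_ifs
    · rw [← Finset.smul_sum]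
      exact (congrArg _ (h _)).trans (smul_zero _)
    · exact Finset.sum_const_zero
  have h2 := Finset.sum_congr (rfl : (Finset.univ : Finset ι) = _)
    fun j _ => Cech_hh_kk i j y T
  rw [Finset.sum_add_distrib, h1, add_zero, Finset.sum_ite_eq', if_pos (Finset.mem_univ i)] at h2
  exact h2

theorem Cech_map_bd (F : A →+ B) (y : Finset ι → A) (T : Finset ι) :
    F (Cech_bd y T) = Cech_bd (fun S => F (y S)) T := by
  rw [Cech_bd, Cech_bd, map_sum]
  refine Finset.sum_congr rfl fun j _ => ?_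
  rw [hh_apply, hh_apply]
  split_ifs
  · exact map_zero F
  · exact map_zsmul F _ _

end comb

section res

variable (U : ι → X.Opens) (M : X.Modules)

/-- the terms of the augmented complex -/
noncomputable def Cech_C (q : ℕ) : X.Modules :=
  ⨁ fun S : {S : Finset ι // S.card = q} => supp M (S.1.inf U)

/-- the inclusions of the summands -/
noncomputable def Cech_ι (q : ℕ) (S : Finset ι) : supp M (S.inf U) ⟶ Cech_C U M q :=
  if h : S.card = q then
    biproduct.ι (fun S : {S : Finset ι // S.card = q} => supp M (S.1.inf U)) ⟨S, h⟩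
  else 0

/-- the components of a chain -/
noncomputable def Cech_p (q : ℕ) (S : Finset ι) : Cech_C U M q ⟶ M :=
  if h : S.card = q then
    biproduct.π (fun S : {S : Finset ι // S.card = q} => supp M (S.1.inf U)) ⟨S, h⟩ ≫
      suppι M (S.inf U)
  else 0

/-- the differential -/
noncomputable def Cech_D (q : ℕ) : Cech_C U M (q + 1) ⟶ Cech_C U M q :=
  biproduct.desc fun S : {S : Finset ι // S.card = q + 1} => ∑ i ∈ S.1, sg i S.1 •
    (suppLE M (Finset.inf_mono (Finset.erase_subset i S.1)) ≫ Cech_ι U M q (S.1.erase i))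

omit [LinearOrder ι] in
theorem Cech_ι_pos {q : ℕ} {S : Finset ι} (h : S.card = q) : Cech_ι U M q S =
    biproduct.ι (fun S : {S : Finset ι // S.card = q} => supp M (S.1.inf U)) ⟨S, h⟩ := dif_pos h

omit [LinearOrder ι] in
theorem Cech_ι_neg {q : ℕ} {S : Finset ι} (h : S.card ≠ q) : Cech_ι U M q S = 0 := dif_neg h

omit [LinearOrder ι] in
theorem Cech_p_pos {q : ℕ} {S : Finset ι} (h : S.card = q) : Cech_p U M q S =
    biproduct.π (fun S : {S : Finset ι // S.card = q} => supp M (S.1.inf U)) ⟨S, h⟩ ≫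
      suppι M (S.inf U) := dif_pos h

omit [LinearOrder ι] in
theorem Cech_p_neg {q : ℕ} {S : Finset ι} (h : S.card ≠ q) : Cech_p U M q S = 0 := dif_neg h

theorem Cech_ι_D (q : ℕ) (S : Finset ι) : Cech_ι U M (q + 1) S ≫ Cech_D U M q = ∑ i ∈ S, sg i S •
    (suppLE M (Finset.inf_mono (Finset.erase_subset i S)) ≫ Cech_ι U M q (S.erase i)) := by
  by_cases h : S.card = q + 1
  · rw [Cech_ι_pos U M h]
    exact biproduct.ι_desc _ _
  · rw [Cech_ι_neg U M h, zero_comp]
    refine (Finset.sum_eq_zero fun i hi => ?_).symm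
    have := Finset.card_erase_add_one hi
    rw [Cech_ι_neg U M (by omega), comp_zero, smul_zero]

theorem Cech_ι_p {q : ℕ} {S : Finset ι} (hS : S.card = q) (T : Finset ι) :
    Cech_ι U M q S ≫ Cech_p U M q T = if S = T then suppι M (S.inf U) else 0 := by
  rw [Cech_ι_pos U M hS]
  by_cases e : S = T
  · subst e
    rw [if_pos rfl, Cech_p_pos U M hS]
    exact biproduct.ι_π_self_assoc _ _ _
  · rw [if_neg e]
    by_cases h : T.card = q
    · rw [Cech_p_pos U M h]
      have hne : (⟨S, hS⟩ : {S : Finset ι // S.card = q}) ≠ ⟨T, h⟩ := fun h' =>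
        e (congrArg Subtype.val h')
      exact (biproduct.ι_π_ne_assoc _ hne _).trans zero_comp
    · rw [Cech_p_neg U M h, comp_zero]

omit [LinearOrder ι] in
theorem Cech_hom_ext {q : ℕ} {f g : Cech_C U M q ⟶ N}
    (h : ∀ S, S.card = q → Cech_ι U M q S ≫ f = Cech_ι U M q S ≫ g) : f = g :=
  biproduct.hom_ext' _ _ fun S => by
    have := h S.1 S.2
    rwa [Cech_ι_pos U M S.2] at this

theorem Cech_comp_bd {L : X.Modules} (f : L ⟶ N) (c : Finset ι → (N ⟶ M)) (T : Finset ι) :
    f ≫ Cech_bd c T = Cech_bd (fun S => f ≫ c S) T :=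
  Cech_map_bd (Preadditive.leftComp M f) c T

/-- evaluation of a morphism at a section -/
noncomputable def Cech_ev {W : X.Opens} (s : Γ(N, W)) : (N ⟶ M) →+ Γ(M, W) :=
  AddMonoidHom.mk' (fun φ => φ.app W s) fun φ ψ => add_app_apply φ ψ s

theorem Cech_app_bd {W : X.Opens} (s : Γ(N, W)) (c : Finset ι → (N ⟶ M)) (T : Finset ι) :
    (Cech_bd c T).app W s = Cech_bd (fun S => (c S).app W s) T :=
  Cech_map_bd (Cech_ev M s) c T

theorem Cech_D_p (q : ℕ) (T : Finset ι) :
    Cech_D U M q ≫ Cech_p U M q T = Cech_bd (Cech_p U M (q + 1)) T := by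
  refine Cech_hom_ext U M fun S hS => ?_
  rw [← Category.assoc, Cech_ι_D, Cech_comp_bd, Cech_bd, Preadditive.sum_comp,
    ← Finset.sum_ite_mem_eq]
  refine Finset.sum_congr rfl fun j _ => ?_
  rw [hh_apply, Cech_ι_p U M hS]
  by_cases hj : j ∈ S
  · have := Finset.card_erase_add_one hj
    rw [if_pos hj, Preadditive.zsmul_comp, Category.assoc, Cech_ι_p U M (by omega)]
    by_cases e : S.erase j = T
    · subst e
      rw [if_pos rfl, if_neg (Finset.notMem_erase j S), if_pos (Finset.insert_erase hj).symm,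
        sg_erase_self, suppLE_ι]
    · rw [if_neg e, comp_zero, smul_zero]
      split_ifs with h1 h2
      · rfl
      · exact absurd (by rw [h2, Finset.erase_insert h1]) e
      · rw [smul_zero]
  · rw [if_neg hj]
    split_ifs with h1 h2
    · rfl
    · exact absurd (h2 ▸ Finset.mem_insert_self j T) hj
    · rw [smul_zero]

omit [LinearOrder ι] in
theorem Cech_inj {q : ℕ} {W : X.Opens} {s t : Γ(Cech_C U M q, W)}
    (h : ∀ S, (Cech_p U M q S).app W s = (Cech_p U M q S).app W t) : s = t := by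
  refine biprod_ext (fun S : {S : Finset ι // S.card = q} => supp M (S.1.inf U)) fun S => ?_
  have h1 := h S.1
  rw [Cech_p_pos U M S.2] at h1
  exact gsupp_inj M _ W h1

omit [LinearOrder ι] in
theorem Cech_mem {q : ℕ} {W : X.Opens} (s : Γ(Cech_C U M q, W)) (S : Finset ι) :
    (Cech_p U M q S).app W s ∈ (suppData M (S.inf U)).sub W := by
  by_cases h : S.card = q
  · rw [Cech_p_pos U M h]
    exact (suppData M (S.inf U)).ι_mem _
  · rw [Cech_p_neg U M h, gexact_zero_app]
    exact zero_mem _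

omit [LinearOrder ι] in
theorem Cech_deg {q : ℕ} {W : X.Opens} (s : Γ(Cech_C U M q, W)) {S : Finset ι} (h : S.card ≠ q) :
    (Cech_p U M q S).app W s = 0 := by
  rw [Cech_p_neg U M h, gexact_zero_app]

omit [LinearOrder ι] in
theorem Cech_surj {q : ℕ} {W : X.Opens} (y : Finset ι → Γ(M, W))
    (hy : ∀ S, y S ∈ (suppData M (S.inf U)).sub W) (hd : ∀ S, S.card ≠ q → y S = 0) :
    ∃ t : Γ(Cech_C U M q, W), ∀ S, (Cech_p U M q S).app W t = y S := by
  obtain ⟨t, ht⟩ := biprod_exists (fun S : {S : Finset ι // S.card = q} => supp M (S.1.inf U))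
    (U := W) fun S => (suppData M (S.1.inf U)).mkSec (y S.1) (hy S.1)
  refine ⟨t, fun S => ?_⟩
  by_cases h : S.card = q
  · rw [Cech_p_pos U M h]
    exact congrArg ((suppι M (S.inf U)).app W) (ht ⟨S, h⟩)
  · rw [Cech_p_neg U M h, gexact_zero_app, hd S h]

theorem Cech_lift {q : ℕ} {W : X.Opens} {i : ι} (hW : W ≤ U i) (s : Γ(Cech_C U M q, W))
    (h0 : ∀ T, Cech_bd (fun S => (Cech_p U M q S).app W s) T = 0) :
    ∃ t : Γ(Cech_C U M (q + 1), W), (Cech_D U M q).app W t = s := by
  obtain ⟨t, ht⟩ := Cech_surj U M (q := q + 1) (Cech_kk i fun S => (Cech_p U M q S).app W s)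
    (fun S => by
      rw [Cech_kk]
      split_ifs with hi
      · refine zsmul_mem (mem_suppData.2 fun x hx hx' =>
          Cech_mem U M s (S.erase i) x hx fun h => hx' ?_) _
        rw [← Finset.insert_erase hi, Finset.inf_insert]
        exact ⟨hW hx, h⟩
      · exact zero_mem _)
    (fun S hS => by
      rw [Cech_kk]
      split_ifs with hi
      · have := Finset.card_erase_add_one hi
        rw [Cech_deg U M s (by omega), smul_zero]
      · rfl)
  refine ⟨t, Cech_inj U M fun T => ?_⟩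
  rw [← comp_app_apply, Cech_D_p, Cech_app_bd, funext ht, Cech_bd_kk i h0]

theorem Cech_D_D (q : ℕ) : Cech_D U M (q + 1) ≫ Cech_D U M q = 0 := by
  refine hom_ext' fun W s => Cech_inj U M fun T => ?_
  rw [← comp_app_apply, ← comp_app_apply, zero_comp, Category.assoc, Cech_D_p, Cech_comp_bd,
    funext (Cech_D_p U M (q + 1)), Cech_bd_bd]

theorem Cech_epi (cov : ∀ x, ∃ i, x ∈ U i) : Epi (Cech_D U M 0) := by
  refine (epi_iff _).2 fun W s x hx => ?_
  obtain ⟨i, hi⟩ := cov x
  refine ⟨W ⊓ U i, inf_le_left, ⟨hx, hi⟩, Cech_lift U M inf_le_right _ fun T => ?_⟩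
  refine Finset.sum_eq_zero fun j _ => ?_
  rw [hh_apply, Cech_deg U M _ (Finset.insert_nonempty j T).card_ne_zero, smul_zero, ite_self]

theorem Cech_exact (cov : ∀ x, ∃ i, x ∈ U i) (q : ℕ) :
    (ShortComplex.mk _ _ (Cech_D_D U M q)).Exact := by
  refine (exact_iff _).2 fun W s hs x hx => ?_
  obtain ⟨i, hi⟩ := cov x
  dsimp only at s hs ⊢
  refine ⟨W ⊓ U i, inf_le_left, ⟨hx, hi⟩, Cech_lift U M inf_le_right _ fun T => ?_⟩
  rw [← Cech_app_bd, ← Cech_D_p, comp_app_apply, app_res (Cech_D U M q), hs, map_zero,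
    gexact_app_zero]

/-- the resolution -/
noncomputable def Cech_res (cov : ∀ x, ∃ i, x ∈ U i) : LRes (Cech_C U M 0) where
  C q := Cech_C U M (q + 1)
  d q := Cech_D U M (q + 1)
  ε := Cech_D U M 0
  epi := Cech_epi U M cov
  w₀ := Cech_D_D U M 0
  exact₀ := Cech_exact U M cov 0
  w q := Cech_D_D U M (q + 1)
  exact q := Cech_exact U M cov (q + 1)

theorem Cech_isIso : IsIso (Cech_p U M 0 ∅) := by
  refine (isIso_iff _).2 fun W => ⟨fun s t h => Cech_inj U M fun S => ?_, fun s => ?_⟩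
  · by_cases hS : S.card = 0
    · rw [Finset.card_eq_zero.1 hS]
      exact h
    · rw [Cech_deg U M s hS, Cech_deg U M t hS]
  · obtain ⟨t, ht⟩ := Cech_surj U M (q := 0) (fun S => if S = ∅ then s else 0)
      (fun S => by
        split_ifs with hS
        · exact mem_suppData_of_le (by rw [hS, Finset.inf_empty]; exact le_top) s
        · exact zero_mem _)
      (fun S hS => if_neg fun h => hS (Finset.card_eq_zero.2 h))
    exact ⟨t, (ht ∅).trans (if_pos rfl)⟩

theorem Cech_ext_biprod {G : Type} [Fintype G] (L : G → X.Modules) {n : ℕ}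
    (h : ∀ j, ∀ α : Ext (L j) N n, α = 0) (α : Ext (⨁ L) N n) : α = 0 := by
  rw [← Ext.mk₀_id_comp α, ← biproduct.total, Ext.mk₀_sum, Ext.sum_comp]
  refine Finset.sum_eq_zero fun j _ => ?_
  rw [← Ext.mk₀_comp_mk₀_assoc, h j ((Ext.mk₀ _).comp α _), Ext.comp_zero]

omit [LinearOrder ι] in
theorem Cech_acyclic {q n : ℕ}
    (h : ∀ S : Finset ι, S.card = q → ∀ α : Ext (supp M (S.inf U)) N n, α = 0)
    (α : Ext (Cech_C U M q) N n) : α = 0 :=
  Cech_ext_biprod _ (fun S : {S : Finset ι // S.card = q} => h S.1 S.2) α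

end res

theorem Cech_ext_iso {L L' : X.Modules} (φ : L ⟶ L') [IsIso φ] {n : ℕ}
    (h : ∀ α : Ext L N n, α = 0) (α : Ext L' N n) : α = 0 := by
  rw [← Ext.mk₀_id_comp α, ← IsIso.inv_hom_id φ, ← Ext.mk₀_comp_mk₀_assoc,
    h ((Ext.mk₀ φ).comp α _), Ext.comp_zero]

/-- the section attached to a morphism out of `supp (OX X) V` -/
noncomputable def Cech_sec (N : X.Modules) (V : X.Opens) : (supp (OX X) V ⟶ N) →+ Γ(N, V) :=
  Cech_ev N (suppSec (M := OX X) (1 : Γ(X, V)))

theorem Cech_sec_bij (N : X.Modules) (V : X.Opens) : Function.Bijective (Cech_sec N V) :=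
  (isGen_one V).hom_bijective N

theorem Cech_sec_LE {V W : X.Opens} (h : V ≤ W) (φ : supp (OX X) W ⟶ N) :
    Cech_sec N V (suppLE (OX X) h ≫ φ) = res N h (Cech_sec N W φ) := by
  have e : (suppLE (OX X) h).app V (suppSec (M := OX X) (1 : Γ(X, V))) =
      res (supp (OX X) W) h (suppSec (M := OX X) (1 : Γ(X, W))) := by
    refine gsupp_inj (OX X) W V ?_
    rw [gsupp_LE, app_res, suppι_suppSec, suppι_suppSec]
    exact (map_one (resO X h)).symm
  exact (congrArg (φ.app V) e).trans (app_res φ h _)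

theorem Cech_sec_D (U : ι → X.Opens) {q : ℕ} (z : Cech_C U (OX X) q ⟶ N) (S : Finset ι) :
    Cech_sec N _ (Cech_ι U (OX X) (q + 1) S ≫ Cech_D U (OX X) q ≫ z) =
      cechD U (fun T => Cech_sec N _ (Cech_ι U (OX X) q T ≫ z)) S := by
  rw [← Category.assoc, Cech_ι_D, Preadditive.sum_comp, map_sum, cechD]
  refine Finset.sum_congr rfl fun i _ => ?_
  rw [Preadditive.zsmul_comp, map_zsmul, Category.assoc, Cech_sec_LE]

theorem ext_zero_of_cech (k : Type) [Field k] [Algebra k Γ(X, ⊤)] (U : ι → X.Opens)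
    (cov : ∀ x, ∃ i, x ∈ U i) (aff : ∀ S : Finset ι, S.Nonempty → IsAffineOpen (S.inf U))
    (qc : ∀ S : Finset ι, S.Nonempty → QCOn (S.inf U) N)
    (h : ∀ (q : ℕ) (c : ∀ S : Finset ι, Γ(N, S.inf U)), (∀ S, S.card ≠ q + 2 → c S = 0) →
      (∀ S, cechD U c S = 0) → ∃ b : ∀ S : Finset ι, Γ(N, S.inf U), ∀ S, cechD U b S = c S)
    (i : ℕ) (α : Ext (OX X) N (i + 1)) : α = 0 := by
  have := Cech_isIso U (OX X)
  refine Cech_ext_iso (Cech_p U (OX X) 0 ∅) ((Cech_res U (OX X) cov).ext_zero k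
    (fun q n => Cech_acyclic U (OX X) fun S hS => ?_) i fun z hz => ?_) α
  · have hS' : S.Nonempty := Finset.card_pos.1 (by omega)
    exact affine_vanishing (aff S hS') (qc S hS') n
  · change Cech_C U (OX X) (i + 1 + 1) ⟶ N at z
    change Cech_D U (OX X) (i + 1 + 1) ≫ z = 0 at hz
    obtain ⟨b, hb⟩ := h i (fun S => Cech_sec N _ (Cech_ι U (OX X) (i + 1 + 1) S ≫ z))
      (fun S hS => by rw [Cech_ι_neg U (OX X) hS, zero_comp, map_zero])
      (fun S => by rw [← Cech_sec_D, hz, comp_zero, map_zero])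
    choose φ hφ using fun S : Finset ι => (Cech_sec_bij N (S.inf U)).2 (b S)
    let y : Cech_C U (OX X) (i + 1) ⟶ N :=
      biproduct.desc fun S : {S : Finset ι // S.card = i + 1} => φ S.1
    have hy : ∀ S : Finset ι, S.card = i + 1 → Cech_ι U (OX X) (i + 1) S ≫ y = φ S :=
      fun S hS => by
        rw [Cech_ι_pos U (OX X) hS]
        exact biproduct.ι_desc _ _
    refine ⟨y, Cech_hom_ext U (OX X) fun S hS => (Cech_sec_bij N _).1 ?_⟩
    refine (hb S).symm.trans (Eq.trans ?_ (Cech_sec_D U y S).symm)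
    refine Finset.sum_congr rfl fun j hj => ?_
    have := Finset.card_erase_add_one hj
    dsimp only
    rw [hy (S.erase j) (by omega), hφ]

theorem mv_surj {U V : X.Opens} (hUV : U ⊔ V = ⊤) (h : ∀ α : Ext (OX X) N 1, α = 0)
    (s : Γ(N, U ⊓ V)) : ∃ (a : Γ(N, U)) (b : Γ(N, V)),
      s = res N inf_le_left a - res N inf_le_right b := by
  have h1 : IsIso (suppι (OX X) (U ⊔ V)) := hUV ▸ isIso_suppι_top (OX X)
  obtain ⟨φ, rfl⟩ := (Cech_sec_bij N (U ⊓ V)).2 s
  obtain ⟨x, hx⟩ := Ext.contravariant_sequence_exact₁ (mv_shortExact (OX X) U V) N (Ext.mk₀ φ)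
    (n₁ := 1) rfl (Cech_ext_iso (inv (suppι (OX X) (U ⊔ V))) h _)
  obtain ⟨ψ, rfl⟩ := (Ext.mk₀_bijective _ _).2 x
  rw [Ext.mk₀_comp_mk₀] at hx
  refine ⟨Cech_sec N U (biprod.inl ≫ ψ), Cech_sec N V (biprod.inr ≫ ψ), ?_⟩
  rw [← Cech_sec_LE, ← Cech_sec_LE, ← map_sub, ← (Ext.mk₀_bijective _ _).1 hx]
  congr 1
  dsimp only
  rw [biprod.lift_eq, Preadditive.add_comp, Preadditive.neg_comp, Preadditive.neg_comp,
    Category.assoc, Category.assoc, sub_eq_add_neg]

end Pool.Agent.Work.MP_e57da2_ag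
end
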