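import Pool.Agent.Work.MP_e57da2_ag.LocT
import Pool.Agent.Work.MP_e57da2_ag.Ser
import Mathlib
import Pool.Agent.Work.MP_e57da2_ag.Alg

-- merged part: Pool.Agent.Work.MP_e57da2_ag.Grp
section
/-!
# Abelian varieties: translations, multiplication maps

The morphisms `T ⟶ A` form a commutative group (`MonObj.comp_mul`, `MonObj.comp_pow`, `GrpObj.comp_inv`, `MonObj.comp_one`; `toUnit_unique`, `comp_toUnit`).
Plans.  `exists_pt_mul`: the automorphism `(toUnit A ≫ z) * (𝟙 A)⁻¹` is an involution, so it is dominant; the intersection of `U` with the preimage of `V` contains the generic point,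
hence a closed point.  `mulBy_finite_of_amp`: with `t` from `Amp.exists_free` for `H`; the preimage of `loc (e • H) (t i)` is `loc (pl φ (e • H)) (pbs ..)` (`loc_pbs`), affine by `Amp.aff`;
`isAffineHom_of_forall_exists_isAffineOpen`, `IsFinite.iff_isProper_and_isAffineHom`.
`dom_of_finite`: a finite morphism is closed and its fibres have no specialisations (`LocallyQuasiFinite`, `Scheme.Hom.isDiscrete_preimage_singleton`), so it maps a chain
of specialisations of length `g` starting at the generic point to a chain of length `g` starting at `φ (gp X)`; if this is not the generic point, the chain can be extended.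
-/

open CategoryTheory Limits AlgebraicGeometry TopologicalSpace MonoidalCategory
  CartesianMonoidalCategory MonObj

namespace Pool.Agent.Work.MP_e57da2_ag

variable {k : Type} [Field k]

instance av_integral {X : Sch k} [GeometricallyIntegral X.hom] : IsIntegral X.left :=
  GeometricallyIntegral.isIntegral_of_subsingleton X.hom

instance tensor_integral {X Y : Sch k} [IsIntegral X.left] [IsProper X.hom]
    [GeometricallyIntegral Y.hom] [IsProper Y.hom] : IsIntegral (X ⊗ Y).left := by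
  dsimp
  infer_instance

theorem grp_proper {X Y : Sch k} [IsProper X.hom] [IsProper Y.hom] (φ : Y ⟶ X) :
    IsProper φ.left := by
  have : IsProper (φ.left ≫ X.hom) := by
    rw [Over.w φ]
    infer_instance
  exact IsProper.of_comp φ.left X.hom

theorem grp_eq_of_spec {X Y : Scheme.{0}} (f : Y ⟶ X) [IsFinite f] {y y' : Y} (h : y ⤳ y')
    (e : f y = f y') : y = y' :=
  (f.isDiscrete_preimage_singleton (f y')).eq_of_specializes h e rfl

theorem grp_strictMono {X Y : Scheme.{0}} (f : Y ⟶ X) [IsFinite f] : StrictMono f := by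
  intro y y' h
  have h1 : y' ⤳ y := h.1
  refine ⟨h1.map f.continuous, fun h2 => h.2 ?_⟩
  have e := grp_eq_of_spec f h1 ((h1.map f.continuous).antisymm h2).eq
  exact specializes_of_eq e.symm

theorem grp_dom_iso {X Y : Sch k} [IsIntegral X.left] [IsIntegral Y.left] (φ : Y ⟶ X) [IsIso φ] :
    Dom φ :=
  Dom.of_surjective fun x => ⟨(inv φ).left x, by rw [← comp_apply', IsIso.inv_hom_id, id_apply']⟩

theorem grp_pb_inv {X Y : Sch k} [IsIntegral X.left] [IsIntegral Y.left] (φ : Y ⟶ X) [IsIso φ]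
    (h : Fn X) : pb (inv φ) (pb φ h) = h := by
  rw [← pb_comp (inv φ) ((grp_dom_iso _).mem h), IsIso.inv_hom_id, pb_id]

theorem grp_inv_apply {X Y : Sch k} (φ : Y ⟶ X) [IsIso φ] (y : Y.left) :
    (inv φ).left (φ.left y) = y := by
  rw [← comp_apply', IsIso.hom_inv_id, id_apply']

theorem grp_pb_mem_mp {X Y : Sch k} [IsIntegral X.left] [IsIntegral Y.left] (φ : Y ⟶ X) [IsIso φ]
    (y : Y.left) (h : Fn X) (p : ℕ) : pb φ h ∈ mp Y y p ↔ h ∈ mp X (φ.left y) p := by
  refine ⟨fun hh => ?_, pb_mem_mp⟩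
  rw [← grp_pb_inv φ h]
  refine pb_mem_mp ?_
  rwa [grp_inv_apply]

theorem finite_of_amp {X Y : Sch k} [IsIntegral X.left] [IsIntegral Y.left] [IsProper X.hom]
    [IsProper Y.hom] (φ : Y ⟶ X) {H : Dv X} (hH : Amp H) (h : Amp (pl φ H)) : IsFinite φ.left :=
  by
  refine IsFinite.iff_isProper_and_isAffineHom.2 ⟨grp_proper φ, ?_⟩
  refine isAffineHom_of_forall_exists_isAffineOpen _ fun x => ?_
  obtain ⟨n, s, hn, hs, hx, ha⟩ := hH x
  refine ⟨_, hx, ha, ?_⟩
  rw [← loc_pbs hs]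
  have h1 : Amp (pl φ (n • H)) := by
    rw [map_nsmul]
    exact h.nsmul hn
  exact h1.aff (pbs_mem_Gm (U := ⊤) (fun _ _ => trivial) hs)

theorem dom_of_finite {X : Sch k} [IsIntegral X.left] [IsProper X.hom] {g : ℕ}
    (hd : topologicalKrullDim X.left = g) (φ : X ⟶ X) [IsFinite φ.left] : Dom φ := by
  by_contra hne
  have h1 : φ.left (gp X) < gp X :=
    ⟨gp_spec X _, fun h2 => hne (Specializes.antisymm h2 (gp_spec X _)).eq⟩
  have h2 := Order.height_le_height_apply_of_strictMono _ (grp_strictMono φ.left) (gp X)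
  have h3 : Order.krullDim X.left = g :=
    (Order.krullDim_eq_of_orderIso (irreducibleSetEquivPoints (α := X.left))).symm.trans hd
  have h4 := Order.height_le_krullDim (φ.left (gp X))
  rw [h3] at h4
  have h5 : Order.height (φ.left (gp X)) ≤ g := by exact_mod_cast h4
  exact absurd (Order.height_strictMono h1 (h5.trans_lt (ENat.natCast_lt_top g))) (not_lt.2 h2)

theorem surjective_of_dom {X Y : Sch k} [IsIntegral X.left] [IsIntegral Y.left] [IsProper X.hom]
    [IsProper Y.hom] {φ : Y ⟶ X} (h : Dom φ) : Function.Surjective φ.left := fun x =>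
  (gp_spec X x).mem_closed (closed_image φ).isClosed_range ⟨gp Y, h⟩

theorem exists_pt_comp [IsAlgClosed k] {X Y : Sch k} [IsIntegral X.left] [IsIntegral Y.left]
    [IsProper X.hom] [IsProper Y.hom] {φ : Y ⟶ X} (h : Dom φ) (x : Pt X) :
    ∃ y : Pt Y, y ≫ φ = x := by
  obtain ⟨y, hy⟩ := surjective_of_dom h (pt x)
  obtain ⟨y', h1, h2⟩ := exists_closed_spec y
  obtain ⟨z, rfl⟩ := exists_pt h2
  refine ⟨z, pt_injective ?_⟩
  exact (h1.map φ.left.continuous).mem_closed (pt_closed x) hy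

/-- the points over a closed point of a finite morphism are closed -/
theorem exists_pt_of_finite [IsAlgClosed k] {X Y : Sch k} [IsProper X.hom] [IsProper Y.hom]
    (φ : Y ⟶ X) [IsFinite φ.left] (x : Pt X) {y : Y.left} (h : φ.left y = pt x) :
    ∃ y' : Pt Y, pt y' = y ∧ y' ≫ φ = x := by
  obtain ⟨y', h1, h2⟩ := exists_closed_spec y
  have h3 : φ.left y' = pt x := (h1.map φ.left.continuous).mem_closed (pt_closed x) h
  obtain rfl := grp_eq_of_spec φ.left h1 (h.trans h3.symm)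
  obtain ⟨z, rfl⟩ := exists_pt h2
  exact ⟨z, rfl, pt_injective h⟩

theorem finite_fibre [IsAlgClosed k] {X Y : Sch k} [IsProper X.hom] [IsProper Y.hom]
    (φ : Y ⟶ X) [IsFinite φ.left] (x : Pt X) : {y : Pt Y | y ≫ φ = x}.Finite := by
  refine ((φ.left.finite_preimage_singleton (pt x)).preimage
    (pt_injective (X := Y)).injOn).subset fun y hy => ?_
  exact congrArg pt hy

variable {A : Sch k} [GrpObj A]

theorem comp_tr {T : Sch k} (f : T ⟶ A) (y : Pt A) : f ≫ tr y = f * (toUnit T ≫ y) := by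
  rw [tr, MonObj.comp_mul, Category.comp_id, ← Category.assoc, comp_toUnit]

theorem pt_comp_tr (x y : Pt A) : x ≫ tr y = x * y := by
  rw [comp_tr, toUnit_unit, Category.id_comp]

theorem tr_one : tr (1 : Pt A) = 𝟙 A := by
  rw [tr, MonObj.comp_one, _root_.mul_one]

theorem tr_mul (x y : Pt A) : tr (x * y) = tr x ≫ tr y := by
  rw [comp_tr, tr, tr, MonObj.comp_mul, _root_.mul_assoc]

instance (y : Pt A) : IsIso (tr y) :=
  ⟨tr y⁻¹, by rw [← tr_mul, mul_inv_cancel, tr_one], by rw [← tr_mul, inv_mul_cancel, tr_one]⟩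

theorem comp_mulBy {T : Sch k} (f : T ⟶ A) (n : ℕ) : f ≫ mulBy A n = f ^ n := by
  rw [mulBy, MonObj.comp_pow, Category.comp_id]

theorem mulBy_one : mulBy A 1 = 𝟙 A := pow_one _

theorem toUnit_one (T : Sch k) : toUnit T ≫ (1 : Pt A) = 1 := MonObj.comp_one _

instance : IsIso ((𝟙 A)⁻¹ : A ⟶ A) := by
  have h : ((𝟙 A)⁻¹ : A ⟶ A) ≫ (𝟙 A)⁻¹ = 𝟙 A := by
    rw [GrpObj.comp_inv, Category.comp_id, inv_inv]
  exact ⟨_, h, h⟩

variable [IsProper A.hom] [GeometricallyIntegral A.hom]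

instance av_comm : IsCommMonObj A := isCommMonObj_of_isProper_of_geometricallyIntegral A

theorem tr_mulBy (y : Pt A) (n : ℕ) : tr y ≫ mulBy A n = mulBy A n ≫ tr (y ^ n) := by
  rw [comp_mulBy, comp_tr, tr, mul_pow, MonObj.comp_pow, mulBy]

theorem dom_of_isIso (φ : A ⟶ A) [IsIso φ] : Dom φ := grp_dom_iso φ

theorem dom_tr (y : Pt A) : Dom (tr y) := dom_of_isIso _

theorem pb_tr_tr (x y : Pt A) (h : Fn A) : pb (tr x) (pb (tr y) h) = pb (tr (x * y)) h := by
  rw [tr_mul, pb_comp _ (((dom_tr x).comp (dom_tr y)).mem h)]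

theorem pb_tr_mem_O (y : Pt A) (z : A.left) (h : Fn A) :
    pb (tr y) h ∈ O A z ↔ h ∈ O A ((tr y).left z) := by
  rw [← mem_mp_zero, ← mem_mp_zero]
  exact grp_pb_mem_mp _ _ _ _

theorem pb_tr_mem_mp (y : Pt A) (z : A.left) (h : Fn A) (p : ℕ) :
    pb (tr y) h ∈ mp A z p ↔ h ∈ mp A ((tr y).left z) p := grp_pb_mem_mp _ _ _ _

theorem exists_pt_mul [IsAlgClosed k] {U V : A.left.Opens} (hU : gp A ∈ U) (hV : gp A ∈ V)
    (z : Pt A) : ∃ x y : Pt A, pt x ∈ U ∧ pt y ∈ V ∧ x * y = z := by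
  have hσ : Dom ((𝟙 A)⁻¹ ≫ tr z) := dom_of_isIso _
  obtain ⟨w, hw, -, hc⟩ := exists_closed_spec_mem
    (U := U ⊓ ((𝟙 A)⁻¹ ≫ tr z).left ⁻¹ᵁ V) ⟨hU, hσ.gp_mem hV⟩
  obtain ⟨x, rfl⟩ := exists_pt hc
  refine ⟨x, x ≫ (𝟙 A)⁻¹ ≫ tr z, hw.1, hw.2, ?_⟩
  rw [← Category.assoc, pt_comp_tr, GrpObj.comp_inv, Category.comp_id, mul_inv_cancel_left]

end Pool.Agent.Work.MP_e57da2_ag
end

-- merged part: Pool.Agent.Work.MP_e57da2_ag.Unr
section
/-!
# Multiplication by `n` prime to the characteristic is unramified over the origin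

Plans.  `mem_mp_two`: take affine neighbourhoods `U ∋ pt x`, `V ∋ pt y`; `aff_frac` gives a unit `d` with `c = d * v ∈ B (box U V)`, and `c` restricts to `0` on both axes.
Write `c = ∑ fst^* a l * snd^* b l` (`box_gen`), let `α l`, `β l` be the values; `c = ∑ (a l - α l) (b l - β l) + fst^* (∑ β l a l) + snd^* (∑ α l b l) - ∑ α l β l`, and the last three terms vanish.
`pb_mul_sub`: apply it on `A ⊗ A` to `pb (fst * snd) a - pb fst a - pb snd a` (`fib A 1 ≫ (fst * snd) = 𝟙 A`, etc.), and pull back along `lift f g`; the point `lift f g z` is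
the closed point `(1, 1)` (`exists_fib`).  `pb_mulBy_sub`: induction.  `unram`: at `g = 1` Nakayama (`Submodule.le_of_le_smul_of_le_jacobson_bot`) in the noetherian local ring `O A (pt 1)`;
in general transport by `pb (tr g)` using `tr g ≫ mulBy A n = mulBy A n`.
-/

open CategoryTheory Limits AlgebraicGeometry TopologicalSpace MonoidalCategory
  CartesianMonoidalCategory MonObj

namespace Pool.Agent.Work.MP_e57da2_ag

variable {k : Type} [Field k] [IsAlgClosed k]

omit [IsAlgClosed k] in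
theorem unr_comp {X Y Z : Sch k} [IsIntegral X.left] [IsIntegral Y.left] [IsIntegral Z.left]
    {ψ : Z ⟶ Y} {φ : Y ⟶ X} {χ : Z ⟶ X} (e : ψ ≫ φ = χ) {z : Z.left} {h : Fn X}
    (hh : h ∈ O X (χ.left z)) : pb ψ (pb φ h) = pb χ h := by
  subst e
  exact (pb_comp ψ (O_le_gp _ z hh)).symm

theorem mem_mp_two {X Y : Sch k} [IsIntegral X.left] [IsIntegral Y.left] [IsIntegral (X ⊗ Y).left]
    [IsProper X.hom] [IsProper Y.hom] (x : Pt X) (y : Pt Y) {v : Fn (X ⊗ Y)}
    (hv : v ∈ O (X ⊗ Y) (pt (x ≫ fib X y))) (h₁ : pb (fib X y) v = 0) (h₂ : pb (sec Y x) v = 0) :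
    v ∈ mp (X ⊗ Y) (pt (x ≫ fib X y)) 2 := by
  have ex : (fst X Y).left (pt (x ≫ fib X y)) = pt x := by
    rw [← pt_comp, Category.assoc, fib_fst, Category.comp_id]
  have ey : (snd X Y).left (pt (x ≫ fib X y)) = pt y := by
    rw [← pt_comp, pt_fib, Category.assoc, sec_snd, Category.comp_id]
  have ew : (sec Y x).left (pt y) = pt (x ≫ fib X y) := by rw [← pt_comp, pt_fib]
  obtain ⟨U, hU, hx, -⟩ := exists_aff (W := ⊤) (x := pt x) trivial
  obtain ⟨V, hV, hy, -⟩ := exists_aff (W := ⊤) (x := pt y) trivial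
  have hw : pt (x ≫ fib X y) ∈ box U V := mem_box.2 ⟨ex ▸ hx, ey ▸ hy⟩
  obtain ⟨d, -, hd, hc⟩ := aff_frac (box_aff hU hV) hw hv
  obtain ⟨n, a, b, ha, hb, e⟩ := box_gen hU hV (gp_mem hx) (gp_mem hy) hc
  have ha' : ∀ l, a l ∈ O X (pt x) := fun l => B_le_O hx (ha l)
  have hb' : ∀ l, b l ∈ O Y (pt y) := fun l => B_le_O hy (hb l)
  choose α hα using fun l => exists_value x (ha' l)
  choose β hβ using fun l => exists_value y (hb' l)
  have fa : ∀ l, pb (fst X Y) (a l) ∈ O (X ⊗ Y) (pt (x ≫ fib X y)) := fun l =>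
    pb_mem_O (ex ▸ ha' l)
  have fb : ∀ l, pb (snd X Y) (b l) ∈ O (X ⊗ Y) (pt (x ≫ fib X y)) := fun l =>
    pb_mem_O (ey ▸ hb' l)
  have e1 : ∑ l, a l * algebraMap k (Fn X) (β l) = 0 := by
    have h3 := congrArg (pb (fib X y)) e
    rw [pb_mul (y := pt x) hd.1 hv, h₁, mul_zero,
      pb_sum (y := pt x) _ fun l _ => mul_mem (fa l) (fb l)] at h3
    rw [← h3]
    refine Finset.sum_congr rfl fun l _ => ?_
    rw [pb_mul (y := pt x) (fa l) (fb l), unr_comp (fib_fst y) (z := pt x) (ha' l), pb_id,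
      unr_comp (fib_snd y) (z := pt x) (by rw [const_apply]; exact hb' l), pb_const y (hβ l)]
  have e2 : ∑ l, algebraMap k (Fn Y) (α l) * b l = 0 := by
    have h3 := congrArg (pb (sec Y x)) e
    rw [← ew] at hd hv fa fb
    rw [pb_mul (y := pt y) hd.1 hv, h₂, mul_zero,
      pb_sum (y := pt y) _ fun l _ => mul_mem (fa l) (fb l)] at h3
    rw [← h3]
    refine Finset.sum_congr rfl fun l _ => ?_
    rw [pb_mul (y := pt y) (fa l) (fb l), unr_comp (sec_snd x) (z := pt y) (hb' l), pb_id,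
      unr_comp (sec_fst x) (z := pt y) (by rw [const_apply]; exact ha' l), pb_const x (hα l)]
  have e3 : ∑ l, α l * β l = 0 := by
    refine value_unique (X := X) (x := pt x) ?_
    have h3 : algebraMap k (Fn X) (∑ l, α l * β l) =
        -∑ l, algebraMap k (Fn X) (β l) * (a l - algebraMap k (Fn X) (α l)) := by
      simp only [map_sum, map_mul, sub_mul, Finset.sum_sub_distrib, neg_sub,
        mul_comm (algebraMap k (Fn X) (β _)), e1, sub_zero]
    rw [h3]
    exact neg_mem (Submodule.sum_mem _ fun l _ =>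
      O_mul_mem_mp (Subalgebra.algebraMap_mem _ _) (hα l))
  have e4 : d * v = ∑ l, pbF (dom_fst X Y) (a l - algebraMap k (Fn X) (α l)) *
      pbF (dom_snd X Y) (b l - algebraMap k (Fn Y) (β l)) := by
    have q1 := congrArg (pbF (dom_fst X Y)) e1
    have q2 := congrArg (pbF (dom_snd X Y)) e2
    have q3 := congrArg (algebraMap k (Fn (X ⊗ Y))) e3
    simp only [map_sum, map_mul, map_zero, AlgHom.commutes] at q1 q2 q3
    simp only [map_sub, AlgHom.commutes, sub_mul, mul_sub, Finset.sum_sub_distrib, q1, q2, q3,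
      sub_zero]
    exact e.symm
  rw [← hd.mul_mem_mp_iff, e4]
  exact Submodule.sum_mem _ fun l _ =>
    mul_mem_mp (p := 1) (q := 1) (pb_mem_mp (ex ▸ hα l)) (pb_mem_mp (ey ▸ hβ l))

variable {A : Sch k} [GrpObj A] [IsProper A.hom] [GeometricallyIntegral A.hom]

theorem pb_mul_sub {T : Sch k} [IsIntegral T.left] (f g : T ⟶ A) {z : T.left}
    (hf : f.left z = pt (1 : Pt A)) (hg : g.left z = pt (1 : Pt A)) {a : Fn A}
    (ha : a ∈ mp A (pt (1 : Pt A)) 1) :
    (f * g).left z = pt (1 : Pt A) ∧ pb (f * g) a - pb f a - pb g a ∈ mp T z 2 := by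
  have e0 : lift f g ≫ (fst A A * snd A A) = f * g := by
    rw [MonObj.comp_mul, lift_fst, lift_snd]
  have e1 : fib A (1 : Pt A) ≫ (fst A A * snd A A) = 𝟙 A := by
    rw [MonObj.comp_mul, fib_fst, fib_snd, toUnit_one, _root_.mul_one]
  have e2 : sec A (1 : Pt A) ≫ (fst A A * snd A A) = 𝟙 A := by
    rw [MonObj.comp_mul, sec_fst, sec_snd, toUnit_one, _root_.one_mul]
  have ew : (lift f g).left z = pt ((1 : Pt A) ≫ fib A (1 : Pt A)) := by
    obtain ⟨x, hx⟩ := exists_fib (X := A) (1 : Pt A) (w := (lift f g).left z)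
      (by rw [← comp_apply', lift_snd, hg])
    have h1 : x = pt (1 : Pt A) := by
      have h2 := congrArg (fst A A).left hx
      rwa [← comp_apply', ← comp_apply', fib_fst, lift_fst, hf, id_apply'] at h2
    rw [← hx, h1, pt_comp]
  have ew' : (sec A (1 : Pt A)).left (pt (1 : Pt A)) = pt ((1 : Pt A) ≫ fib A (1 : Pt A)) := by
    rw [← pt_comp, pt_fib]
  have p0 : (fst A A * snd A A).left (pt ((1 : Pt A) ≫ fib A (1 : Pt A))) = pt (1 : Pt A) := by
    rw [← pt_comp, Category.assoc, e1, Category.comp_id]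
  have p1 : (fst A A).left (pt ((1 : Pt A) ≫ fib A (1 : Pt A))) = pt (1 : Pt A) := by
    rw [← pt_comp, Category.assoc, fib_fst, Category.comp_id]
  have p2 : (snd A A).left (pt ((1 : Pt A) ≫ fib A (1 : Pt A))) = pt (1 : Pt A) := by
    rw [← pt_comp, pt_fib, Category.assoc, sec_snd, Category.comp_id]
  have hz : (f * g).left z = pt (1 : Pt A) := by rw [← e0, comp_apply', ew, p0]
  have hO := mem_O_of_mp ha
  have ha0 : a - algebraMap k (Fn A) 0 ∈ mp A (pt (1 : Pt A)) 1 := by rwa [map_zero, sub_zero]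
  have q0 := pb_mem_O (p0.symm ▸ hO : a ∈ O A ((fst A A * snd A A).left _))
  have q1 := pb_mem_O (p1.symm ▸ hO : a ∈ O A ((fst A A).left _))
  have q2 := pb_mem_O (p2.symm ▸ hO : a ∈ O A ((snd A A).left _))
  have key := mem_mp_two (1 : Pt A) (1 : Pt A) (sub_mem (sub_mem q0 q1) q2) (by
    rw [pb_sub (y := pt (1 : Pt A)) (sub_mem q0 q1) q2, pb_sub (y := pt (1 : Pt A)) q0 q1,
      unr_comp e1 (z := pt (1 : Pt A)) hO, unr_comp (fib_fst _) (z := pt (1 : Pt A)) hO,
      unr_comp (fib_snd _) (z := pt (1 : Pt A)) (by rwa [const_apply]), pb_const _ ha0, map_zero,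
      sub_self, sub_self]) (by
    rw [← ew'] at q0 q1 q2
    rw [pb_sub (y := pt (1 : Pt A)) (sub_mem q0 q1) q2, pb_sub (y := pt (1 : Pt A)) q0 q1,
      unr_comp e2 (z := pt (1 : Pt A)) hO, unr_comp (sec_snd _) (z := pt (1 : Pt A)) hO,
      unr_comp (sec_fst _) (z := pt (1 : Pt A)) (by rwa [const_apply]), pb_const _ ha0, map_zero,
      sub_zero, sub_self])
  rw [← ew] at key q0 q1 q2
  have h3 := pb_mem_mp key
  rw [pb_sub (sub_mem q0 q1) q2, pb_sub q0 q1, unr_comp e0 (z := z) (hz ▸ hO),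
    unr_comp (lift_fst f g) (z := z) (hf ▸ hO), unr_comp (lift_snd f g) (z := z) (hg ▸ hO)] at h3
  exact ⟨hz, h3⟩

omit [IsAlgClosed k] in
theorem unr_mulBy (n : ℕ) : (mulBy A n).left (pt (1 : Pt A)) = pt (1 : Pt A) := by
  rw [← pt_comp, comp_mulBy, one_pow]

theorem pb_mulBy_sub (n : ℕ) {a : Fn A} (ha : a ∈ mp A (pt (1 : Pt A)) 1) :
    pb (mulBy A n) a - n * a ∈ mp A (pt (1 : Pt A)) 2 := by
  induction n with
  | zero =>
    have e : mulBy A 0 = toUnit A ≫ (1 : Pt A) := by rw [toUnit_one, mulBy, pow_zero]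
    rw [e, pb_const (c := 0) _ (by rwa [map_zero, sub_zero]), map_zero, Nat.cast_zero, zero_mul,
      sub_zero]
    exact zero_mem _
  | succ n ih =>
    have e : mulBy A (n + 1) = mulBy A n * 𝟙 A := pow_succ _ _
    have h1 := (pb_mul_sub (mulBy A n) (𝟙 A) (unr_mulBy n) (id_apply' _) ha).2
    rw [← e, pb_id] at h1
    convert add_mem h1 ih using 1
    push_cast
    ring

theorem unr_one {n : ℕ} (hn : (n : k) ≠ 0) {h : Fn A} (hh : h ∈ mp A (pt (1 : Pt A)) 1) :
    ∃ (r : ℕ) (a b : Fin r → Fn A), (∀ l, a l ∈ mp A (pt (1 : Pt A)) 1) ∧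
      (∀ l, b l ∈ O A (pt (1 : Pt A))) ∧ ∑ l, b l * pb (mulBy A n) (a l) = h := by
  have key : IsLocalRing.maximalIdeal (O A (pt (1 : Pt A))) ≤ Ideal.span
      {r : O A (pt (1 : Pt A)) | ∃ a ∈ mp A (pt (1 : Pt A)) 1, pb (mulBy A n) a = r} := by
    refine Submodule.le_of_le_smul_of_le_jacobson_bot (IsNoetherian.noetherian _)
      (IsLocalRing.maximalIdeal_le_jacobson _) fun m hm => ?_
    have h1 : (m : Fn A) ∈ mp A (pt (1 : Pt A)) 1 := (coe_mem_mp m).2 (by rwa [pow_one])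
    have h2 : pb (mulBy A n) (m : Fn A) ∈ O A (pt (1 : Pt A)) :=
      pb_mem_O (by rw [unr_mulBy]; exact m.2)
    have h3 : (⟨_, h2⟩ - n * m : O A (pt (1 : Pt A))) ∈
        IsLocalRing.maximalIdeal (O A (pt (1 : Pt A))) ^ 2 :=
      (coe_mem_mp _).1 (by simpa using pb_mulBy_sub n h1)
    have h4 : m = algebraMap k (O A (pt (1 : Pt A))) (n : k)⁻¹ *
        (⟨_, h2⟩ - (⟨_, h2⟩ - n * m)) := by
      rw [sub_sub_cancel, ← _root_.mul_assoc, ← map_natCast (algebraMap k (O A (pt (1 : Pt A)))),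
        ← map_mul, inv_mul_cancel₀ hn, map_one, _root_.one_mul]
    rw [h4]
    refine Ideal.mul_mem_left _ _ (sub_mem
      (Submodule.mem_sup_left (Ideal.subset_span ⟨_, h1, rfl⟩)) (Submodule.mem_sup_right ?_))
    rwa [Ideal.smul_eq_mul, ← pow_two]
  obtain ⟨m, hm, rfl⟩ := mem_mp.1 hh
  rw [pow_one] at hm
  obtain ⟨r, b, c, e⟩ := Submodule.mem_span_set'.1 (key hm)
  choose a ha ea using fun l => (c l).2
  refine ⟨r, a, fun l => b l, ha, fun l => (b l).2, ?_⟩
  simpa [ea] using congrArg Subtype.val e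

theorem unram {n : ℕ} (hn : (n : k) ≠ 0) {g : Pt A} (hg : g ^ n = 1) {h : Fn A}
    (hh : h ∈ mp A (pt g) 1) : ∃ (r : ℕ) (a b : Fin r → Fn A),
      (∀ l, a l ∈ mp A (pt (1 : Pt A)) 1) ∧ (∀ l, b l ∈ O A (pt g)) ∧
      ∑ l, b l * pb (mulBy A n) (a l) = h := by
  have p1 : (tr g).left (pt (1 : Pt A)) = pt g := by rw [← pt_comp, pt_comp_tr, _root_.one_mul]
  have p2 : (tr g⁻¹).left (pt g) = pt (1 : Pt A) := by rw [← pt_comp, pt_comp_tr, mul_inv_cancel]
  have e0 : tr g⁻¹ ≫ mulBy A n = mulBy A n := by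
    rw [tr_mulBy, inv_pow, hg, inv_one, tr_one, Category.comp_id]
  obtain ⟨r, a, b, ha, hb, e⟩ := unr_one hn (pb_mem_mp (φ := tr g) (p1.symm ▸ hh))
  refine ⟨r, a, fun l => pb (tr g⁻¹) (b l), ha, fun l => pb_mem_O (p2.symm ▸ hb l), ?_⟩
  have e1 := congrArg (pbF (dom_tr g⁻¹)) e
  rw [map_sum, pbF_apply, pb_tr_tr, inv_mul_cancel, tr_one, pb_id] at e1
  rw [← e1]
  refine Finset.sum_congr rfl fun l _ => ?_
  rw [map_mul, pbF_apply, pbF_apply, unr_comp e0 (z := pt (1 : Pt A))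
    (by rw [unr_mulBy]; exact mem_O_of_mp (ha l))]

end Pool.Agent.Work.MP_e57da2_ag
end

-- merged part: Pool.Agent.Work.MP_e57da2_ag.Diff
section
/-!
# Numerical and representation theoretic lemmas

Plans.  `torsion_invariance`: let `X`, `Y` be the shifts `(s, j) ↦ (s + c, j)`, `(s, j) ↦ (s, j + 1)` acting on functions on `{s ≥ 1} × ℕ` (reindex `s = s' + 1`;
let `MvPolynomial (Fin 2) ℤ` or `AddMonoidAlgebra ℤ (ℕ × ℕ)` act).  The hypothesis says `(1 - X Y) ^ a (1 - X) ^ b h = 0` for `a + b = g + 1`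
(`Finset.prod_one_sub` style expansion over subsets).  `X (Y - 1) = (1 - X) - (1 - X Y)`, so `X ^ (g+1) (Y - 1) ^ (g+1) h = 0`.  A periodic sequence killed by a power
of the difference operator is constant.  So `δ = (Y - 1) h` vanishes for large `s` and satisfies `(1 - X) ^ (g+1) δ = 0`; go down.
`card_le_of_growth`: `s₀ = 1`, `s (i+1) = n^2 s i + c`, `φ (s i) ≥ N ^ i`, `s i + c + 1 ≤ n ^ (2 i) (c + 2)`.
`finrank_eq_sum_eig`: projectors `e χ = (card G)⁻¹ ∑ g, (χ g)⁻¹ • ρ g`; `card G` is invertible in `k` (Cauchy: a prime dividing it divides `n`);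
`CommGroup.card_monoidHom_of_hasEnoughRootsOfUnity`, `CommGroup.exists_apply_ne_one_of_hasEnoughRootsOfUnity`; or simultaneous diagonalisation.
`le_div_of_jets`, `div_le_of_linear`: elementary; note both `limsup` are in `ℝ≥0∞`.
-/

open Finset Module Filter
open scoped ENNReal

namespace Pool.Agent.Work.MP_e57da2_ag

theorem diff_ring {R : Type} [CommRing R] (I : Ideal R) {n N : ℕ}
    (tf : ∀ p : R, (n : R) * p ∈ I → p ∈ I) {x y : R} (h1 : (x * (y - 1)) ^ (N + 1) ∈ I)
    (h2 : (1 - x) ^ (N + 1) ∈ I) (h3 : y ^ n - 1 ∈ I) : y - 1 ∈ I := by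
  obtain ⟨q, hq⟩ : (y - 1) ∣ ∑ i ∈ range n, y ^ i - n := by
    have : ∑ i ∈ range n, y ^ i - (n : R) = ∑ i ∈ range n, (y ^ i - 1) := by
      simp [Finset.sum_sub_distrib]
    rw [this]
    exact Finset.dvd_sum fun i _ => sub_one_dvd_pow_sub_one y i
  have hg : y ^ n - 1 = (y - 1) * (n + (y - 1) * q) := by
    rw [← hq, ← mul_geom_sum]
    ring
  have key : ∀ k : ℕ, x ^ (N + 1) * (y - 1) ^ (k + 1) ∈ I → x ^ (N + 1) * (y - 1) ∈ I := by
    intro k
    induction k with
    | zero => simp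
    | succ k ih =>
      intro hk
      refine ih (tf _ ?_)
      have e : (n : R) * (x ^ (N + 1) * (y - 1) ^ (k + 1)) =
          (x ^ (N + 1) * (y - 1) ^ k) * (y ^ n - 1) - q * (x ^ (N + 1) * (y - 1) ^ (k + 1 + 1)) := by
        rw [hg]
        ring
      rw [e]
      exact I.sub_mem (I.mul_mem_left _ h3) (I.mul_mem_left _ hk)
  have h4 := key N (by rwa [mul_pow] at h1)
  have hc : IsCoprime (x ^ (N + 1)) ((1 - x) ^ (N + 1)) :=
    IsCoprime.pow ⟨1, 1, by ring⟩
  obtain ⟨a, b, hab⟩ := hc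
  have e : y - 1 = a * (x ^ (N + 1) * (y - 1)) + (b * (y - 1)) * (1 - x) ^ (N + 1) := by
    linear_combination (1 - y) * hab
  rw [e]
  exact I.add_mem (I.mul_mem_left _ h4) (I.mul_mem_left _ h2)

/-- the shift operators -/
def diffShift : Multiplicative (ℕ × ℕ) →* Module.End ℤ (ℕ → ℕ → ℤ) where
  toFun m :=
    { toFun := fun f s j => f (s + m.toAdd.1) (j + m.toAdd.2)
      map_add' := fun _ _ => rfl
      map_smul' := fun _ _ => rfl }
  map_one' := by
    ext f s j
    simp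
  map_mul' a b := by
    ext f s j
    simp [add_assoc]

theorem diffShift_apply (a b : ℕ) (f : ℕ → ℕ → ℤ) (s j : ℕ) :
    diffShift (Multiplicative.ofAdd (a, b)) f s j = f (s + a) (j + b) := rfl

theorem torsion_invariance {g c n : ℕ} (hc : 0 < c) (hn : 0 < n) (h : ℕ → ℕ → ℤ)
    (eul : ∀ (A : Finset (Fin (g + 1))) (s j : ℕ), 1 ≤ s →
      ∑ S : Finset (Fin (g + 1)), (-1 : ℤ) ^ S.card * h (s + c * S.card) (j + (S ∩ A).card) = 0)
    (per : ∀ s j, h s (j + n) = h s j) (s j : ℕ) (hs : 1 ≤ s) : h s j = h s 0 := by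
  classical
  let R := MonoidAlgebra ℤ (Multiplicative (ℕ × ℕ))
  let Φ : R →ₐ[ℤ] Module.End ℤ (ℕ → ℕ → ℤ) := MonoidAlgebra.lift ℤ _ _ diffShift
  let f : ℕ → ℕ → ℤ := fun s j => h (s + 1) j
  let I : Ideal R :=
    { carrier := {p | Φ p f = 0}
      add_mem' := by
        intro a b ha hb
        simp only [Set.mem_ofPred_eq] at ha hb ⊢
        rw [map_add, LinearMap.add_apply, ha, hb, add_zero]
      zero_mem' := by simp
      smul_mem' := by
        intro a b hb
        simp only [Set.mem_ofPred_eq] at hb ⊢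
        rw [smul_eq_mul, map_mul, Module.End.mul_apply, hb, map_zero] }
  have hI : ∀ p, p ∈ I ↔ Φ p f = 0 := fun _ => Iff.rfl
  let x : R := MonoidAlgebra.of ℤ _ (Multiplicative.ofAdd (c, 0))
  let y : R := MonoidAlgebra.of ℤ _ (Multiplicative.ofAdd (0, 1))
  have hxy : ∀ a b : ℕ, Φ (x ^ a * y ^ b) = diffShift (Multiplicative.ofAdd (c * a, b)) := by
    intro a b
    have : x ^ a * y ^ b = MonoidAlgebra.of ℤ _ (Multiplicative.ofAdd (c * a, b)) := by
      simp only [x, y]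
      rw [← MonoidHom.map_pow, ← MonoidHom.map_pow, ← MonoidHom.map_mul, ← ofAdd_nsmul,
        ← ofAdd_nsmul, ← ofAdd_add]
      congr 2
      simp [mul_comm]
    rw [this]
    exact MonoidAlgebra.lift_of _ _
  have hE : ∀ A : Finset (Fin (g + 1)), ∏ i, (1 + -(x * if i ∈ A then y else 1)) ∈ I := by
    intro A
    rw [Finset.prod_one_add, Finset.powerset_univ, hI, map_sum, LinearMap.sum_apply]
    funext s j
    have := eul A (s + 1) j (by omega)
    rw [Finset.sum_apply, Finset.sum_apply]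
    refine Eq.trans (Finset.sum_congr rfl fun S _ => ?_) this
    have e : ∏ i ∈ S, -(x * if i ∈ A then y else 1) =
        ((-1 : ℤ) ^ S.card) • (x ^ S.card * y ^ (S ∩ A).card) := by
      rw [Finset.prod_neg, Finset.prod_mul_distrib, Finset.prod_const, Finset.prod_ite_mem,
        Finset.prod_const]
      simp
    rw [e, map_smul, hxy, LinearMap.smul_apply, Pi.smul_apply, Pi.smul_apply, diffShift_apply,
      smul_eq_mul]
    simp only [f]
    rw [add_right_comm]
  have h1 : (x * (y - 1)) ^ (g + 1) ∈ I := by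
    have e : (x * (y - 1)) ^ (g + 1) = ∏ _i : Fin (g + 1), (-(1 - x * y) + (1 - x)) := by
      rw [Finset.prod_const, Finset.card_univ, Fintype.card_fin]
      congr 1
      ring
    rw [e, Fintype.prod_add]
    refine I.sum_mem fun A _ => ?_
    have e2 : (∏ _i ∈ A, -(1 - x * y)) * ∏ _i ∈ Aᶜ, (1 - x) =
        (-1) ^ A.card * ∏ i, (1 + -(x * if i ∈ A then y else 1)) := by
      rw [← Finset.prod_mul_prod_compl A, Finset.prod_neg, mul_assoc]
      congr 2
      · exact Finset.prod_congr rfl fun i hi => by rw [if_pos hi]; ring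
      · exact Finset.prod_congr rfl fun i hi => by rw [if_neg (Finset.mem_compl.1 hi)]; ring
    rw [e2]
    exact I.mul_mem_left _ (hE A)
  have h2 : (1 - x) ^ (g + 1) ∈ I := by
    have := hE ∅
    simpa [sub_eq_add_neg] using this
  have hy : ∀ b : ℕ, Φ (y ^ b) = diffShift (Multiplicative.ofAdd (0, b)) := by
    intro b
    simpa using hxy 0 b
  have h3 : y ^ n - 1 ∈ I := by
    rw [hI, map_sub, hy, map_one]
    funext s j
    simp only [LinearMap.sub_apply, Pi.sub_apply, diffShift_apply, Module.End.one_apply, f,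
      Pi.zero_apply, add_zero, per, sub_self]
  have tf : ∀ p : R, (n : R) * p ∈ I → p ∈ I := by
    intro p hp
    rw [hI] at hp ⊢
    rw [← nsmul_eq_mul, map_nsmul, LinearMap.smul_apply] at hp
    funext s j
    have := congrFun (congrFun hp s) j
    simp only [Pi.smul_apply, Pi.zero_apply, nsmul_eq_mul, mul_eq_zero, Nat.cast_eq_zero] at this
    exact this.resolve_left hn.ne'
  have h4 := diff_ring I tf h1 h2 h3
  rw [hI, ← pow_one y, map_sub, hy, map_one] at h4
  obtain ⟨s, rfl⟩ : ∃ t, s = t + 1 := ⟨s - 1, by omega⟩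
  induction j with
  | zero => rfl
  | succ j ih =>
    have := congrFun (congrFun h4 s) j
    simp only [LinearMap.sub_apply, Pi.sub_apply, diffShift_apply, Module.End.one_apply, f,
      Pi.zero_apply, add_zero] at this
    rw [← ih]
    exact sub_eq_zero.1 this

theorem card_le_of_growth {g n c N C : ℕ} (hn : 2 ≤ n) (φ : ℕ → ℕ) (h1 : φ 1 = 1)
    (up : ∀ s, φ s ≤ C * (s + 1) ^ g) (low : ∀ s, 1 ≤ s → N * φ s ≤ φ (n ^ 2 * s + c)) :
    N ≤ n ^ (2 * g) := by
  by_contra hlt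
  push Not at hlt
  let t : ℕ → ℕ := fun i => Nat.rec 1 (fun _ s => n ^ 2 * s + c) i
  have t0 : t 0 = 1 := rfl
  have tS : ∀ i, t (i + 1) = n ^ 2 * t i + c := fun _ => rfl
  have hn2 : 4 ≤ n ^ 2 := by nlinarith only [hn]
  have h : ∀ i, 1 ≤ t i ∧ N ^ i ≤ φ (t i) ∧ t i + c + 1 ≤ (c + 2) * (n ^ 2) ^ i := by
    intro i
    induction i with
    | zero => simp [t0, h1]; omega
    | succ i ih =>
      obtain ⟨a1, a2, a3⟩ := ih
      refine ⟨by rw [tS]; nlinarith only [hn2, a1], ?_, ?_⟩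
      · rw [tS, pow_succ, mul_comm]
        exact (Nat.mul_le_mul_left _ a2).trans (low _ a1)
      · rw [tS, pow_succ (n ^ 2) i, ← mul_assoc]
        nlinarith only [hn2, a3]
  set M := n ^ (2 * g) with hM
  have hM0 : 0 < M := by positivity
  have h2 : ∀ i, N ^ i ≤ C * (c + 2) ^ g * M ^ i := by
    intro i
    obtain ⟨-, a2, a3⟩ := h i
    refine a2.trans ((up _).trans ?_)
    rw [mul_assoc]
    refine Nat.mul_le_mul_left _ ?_
    calc (t i + 1) ^ g ≤ ((c + 2) * (n ^ 2) ^ i) ^ g := Nat.pow_le_pow_left (by omega) _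
      _ = (c + 2) ^ g * M ^ i := by
        rw [mul_pow, hM, ← pow_mul, ← pow_mul, ← pow_mul]
        congr 2
        ring
  have hr : (1 : ℝ) < (N : ℝ) / M := by
    rw [one_lt_div (by exact_mod_cast hM0)]
    exact_mod_cast hlt
  obtain ⟨i, hi⟩ := ((tendsto_pow_atTop_atTop_of_one_lt hr).eventually_gt_atTop
    ((C * (c + 2) ^ g : ℕ) : ℝ)).exists
  rw [div_pow, lt_div_iff₀ (by positivity)] at hi
  have := h2 i
  have h3 : ((N ^ i : ℕ) : ℝ) ≤ ((C * (c + 2) ^ g * M ^ i : ℕ) : ℝ) := by exact_mod_cast this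
  push_cast at h3 hi
  linarith only [h3, hi]

/-- the eigenspace of the character `χ` -/
def eig {k G V : Type} [Field k] [Group G] [AddCommGroup V] [Module k V] (ρ : G →* Module.End k V)
    (χ : G →* kˣ) : Submodule k V :=
  ⨅ g : G, LinearMap.ker (ρ g - (χ g : k) • LinearMap.id)

theorem mem_eig {k G V : Type} [Field k] [Group G] [AddCommGroup V] [Module k V]
    {ρ : G →* Module.End k V} {χ : G →* kˣ} {v : V} :
    v ∈ eig ρ χ ↔ ∀ g, ρ g v = (χ g : k) • v := by
  simp [eig, Submodule.mem_iInf, LinearMap.mem_ker, sub_eq_zero]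

theorem card_ne_zero_of_pow {k G : Type} [Field k] [Group G] [Finite G] {n : ℕ}
    (hn : (n : k) ≠ 0) (h : ∀ g : G, g ^ n = 1) : (Nat.card G : k) ≠ 0 := by
  intro h0
  have hd : ringChar k ∣ Nat.card G := (ringChar.spec k _).1 h0
  rcases CharP.char_is_prime_or_zero k (ringChar k) with hp | hp
  · have := Fact.mk hp
    obtain ⟨g, hg⟩ := exists_prime_orderOf_dvd_card' (ringChar k) hd
    exact hn ((ringChar.spec k n).2 (hg ▸ orderOf_dvd_of_pow_eq_one (h g)))
  · rw [hp, zero_dvd_iff] at hd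
    exact Nat.card_pos.ne' hd

theorem finrank_eq_sum_eig {k G V : Type} [Field k] [IsAlgClosed k] [CommGroup G] [Finite G]
    [AddCommGroup V] [Module k V] {n : ℕ} (hn : (n : k) ≠ 0) (h : ∀ g : G, g ^ n = 1)
    [Fintype (G →* kˣ)] (ρ : G →* Module.End k V) (P : Submodule k V) [FiniteDimensional k P]
    (hP : ∀ g, ∀ v ∈ P, ρ g v ∈ P) :
    finrank k P = ∑ χ : G →* kˣ, finrank k (P ⊓ eig ρ χ : Submodule k V) := by
  classical
  have := Fintype.ofFinite G
  have hc : (Fintype.card G : k) ≠ 0 := by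
    rw [← Nat.card_eq_fintype_card]
    exact card_ne_zero_of_pow hn h
  have : NeZero ((Monoid.exponent G : ℕ) : k) := ⟨fun h0 => hn (by
    obtain ⟨d, hd⟩ := Monoid.exponent_dvd_of_forall_pow_eq_one h
    rw [hd, Nat.cast_mul, h0, zero_mul])⟩
  have : NeZero (Monoid.exponent G) := ⟨Monoid.exponent_ne_zero_of_finite⟩
  let e : (G →* kˣ) → Module.End k V := fun χ =>
    (Fintype.card G : k)⁻¹ • ∑ g : G, ((χ g⁻¹ : kˣ) : k) • ρ g
  have he : ∀ χ v, e χ v = (Fintype.card G : k)⁻¹ • ∑ g : G, ((χ g⁻¹ : kˣ) : k) • ρ g v := by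
    intro χ v
    simp [e, LinearMap.sum_apply]
  have e1 : ∀ χ, ∀ v ∈ P, e χ v ∈ P ⊓ eig ρ χ := by
    intro χ v hv
    refine ⟨?_, ?_⟩
    · rw [he]
      exact P.smul_mem _ (P.sum_mem fun g _ => P.smul_mem _ (hP g v hv))
    · refine mem_eig.2 fun a => ?_
      rw [he, map_smul, map_sum, smul_comm, Finset.smul_sum (r := ((χ a : kˣ) : k))]
      congr 1
      refine Fintype.sum_equiv (Equiv.mulLeft a) _ _ fun g => ?_
      rw [map_smul, Equiv.coe_mulLeft, smul_smul, ← Units.val_mul, ← map_mul, map_mul ρ,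
        Module.End.mul_apply]
      congr 3
      rw [mul_inv, mul_inv_cancel_left]
  have e2 : ∀ χ ψ : G →* kˣ, ∀ v ∈ eig ρ ψ, e χ v = if χ = ψ then v else 0 := by
    intro χ ψ v hv
    rw [mem_eig] at hv
    rw [he]
    simp only [hv, smul_smul, ← Finset.sum_smul]
    split_ifs with hχ
    · subst hχ
      simp [hc]
    · have h0 := sum_hom_units_eq_zero ((Units.coeHom k).comp (χ⁻¹ * ψ)) (fun h1 => hχ (by
        ext g
        have := DFunLike.congr_fun h1 g
        simp only [MonoidHom.comp_apply, MonoidHom.mul_apply, MonoidHom.inv_apply,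
          Units.coeHom_apply, MonoidHom.one_apply, Units.val_eq_one] at this
        rw [inv_mul_eq_one.1 this]))
      have h2 : ∑ g : G, ((χ g⁻¹ : kˣ) : k) * ((ψ g : kˣ) : k) = 0 := by
        rw [← h0]
        exact Finset.sum_congr rfl fun g _ => by simp
      rw [h2, mul_zero, zero_smul]
  have e3 : ∀ v, ∑ χ, e χ v = v := by
    intro v
    simp only [he]
    rw [← Finset.smul_sum, Finset.sum_comm]
    simp only [← Finset.sum_smul]
    rw [Finset.sum_eq_single 1]
    · have hcard : Fintype.card (G →* kˣ) = Fintype.card G := by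
        rw [← Nat.card_eq_fintype_card, ← Nat.card_eq_fintype_card]
        exact CommGroup.card_monoidHom_of_hasEnoughRootsOfUnity G k
      simp [hcard, smul_smul, hc]
    · intro g _ hg
      obtain ⟨φ, hφ⟩ := CommGroup.exists_apply_ne_one_of_hasEnoughRootsOfUnity G k
        (inv_ne_one.2 hg)
      let F : (G →* kˣ) →* k :=
        { toFun := fun χ => ((χ g⁻¹ : kˣ) : k)
          map_one' := by simp
          map_mul' := fun _ _ => by simp }
      have h0 := sum_hom_units_eq_zero F (fun h1 => hφ (by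
        have := DFunLike.congr_fun h1 φ
        exact Units.val_eq_one.1 this))
      have h2 : ∑ χ : G →* kˣ, ((χ g⁻¹ : kˣ) : k) = 0 := h0
      rw [h2, zero_smul]
    · simp
  let σ : (∀ χ : G →* kˣ, (P ⊓ eig ρ χ : Submodule k V)) →ₗ[k] P :=
    ∑ χ, (Submodule.inclusion inf_le_left).comp (LinearMap.proj χ)
  have hσ : ∀ w, (σ w : V) = ∑ χ, (w χ : V) := by
    intro w
    simp [σ, LinearMap.sum_apply]
  have hb : Function.Bijective σ := by
    constructor
    · rw [injective_iff_map_eq_zero]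
      intro w hw
      funext ψ
      have h0 : ∑ χ, (w χ : V) = 0 := by rw [← hσ, hw]; rfl
      have h1 := congrArg (e ψ) h0
      rw [map_sum, map_zero, Finset.sum_congr rfl fun χ _ => e2 ψ χ _ (w χ).2.2] at h1
      simpa using h1
    · intro v
      exact ⟨fun χ => ⟨e χ v, e1 χ v v.2⟩, Subtype.ext (by rw [hσ]; exact e3 v)⟩
  have : ∀ χ : G →* kˣ, FiniteDimensional k (P ⊓ eig ρ χ : Submodule k V) := fun χ =>
    Submodule.finiteDimensional_of_le inf_le_left
  rw [← (LinearEquiv.ofBijective σ hb).finrank_eq, Module.finrank_pi_fintype]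

theorem diff_cast_div (a n : ℕ) (hn : 0 < n) :
    (a : ℝ≥0∞) / n = ENNReal.ofReal ((a : ℝ) / n) := by
  rw [ENNReal.ofReal_div_of_pos (by exact_mod_cast hn), ENNReal.ofReal_natCast,
    ENNReal.ofReal_natCast]

theorem diff_tendsto (α K : ℝ) :
    Tendsto (fun n : ℕ => ENNReal.ofReal (α + K / n)) atTop (nhds (ENNReal.ofReal α)) := by
  refine ENNReal.tendsto_ofReal ?_
  simpa using (tendsto_const_div_atTop_nhds_zero_nat K).const_add α

theorem diff_limsup_le {f : ℕ → ℕ} {α K : ℝ} (h : ∀ n, (f n : ℝ) ≤ α * n + K) :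
    limsup (fun n : ℕ => (f n : ℝ≥0∞) / n) atTop ≤ ENNReal.ofReal α := by
  rw [← (diff_tendsto α K).limsup_eq]
  refine limsup_le_limsup ?_
  filter_upwards [eventually_gt_atTop 0] with n hn
  rw [diff_cast_div _ _ hn]
  refine ENNReal.ofReal_le_ofReal ?_
  have : (0 : ℝ) < n := by exact_mod_cast hn
  rw [div_le_iff₀ this, add_mul, div_mul_cancel₀ _ this.ne']
  exact h n

theorem diff_le_limsup {f : ℕ → ℕ} {α K : ℝ} (h : ∀ᶠ n : ℕ in atTop, α * n + K ≤ (f n : ℝ)) :
    ENNReal.ofReal α ≤ limsup (fun n : ℕ => (f n : ℝ≥0∞) / n) atTop := by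
  rw [← (diff_tendsto α K).limsup_eq]
  refine limsup_le_limsup ?_
  filter_upwards [eventually_gt_atTop 0, h] with n hn h
  rw [diff_cast_div _ _ hn]
  refine ENNReal.ofReal_le_ofReal ?_
  have : (0 : ℝ) < n := by exact_mod_cast hn
  rw [le_div_iff₀ this, add_mul, div_mul_cancel₀ _ this.ne']
  exact h

theorem diff_bound_of_lt {f : ℕ → ℕ} {r : ℝ} (hr : 0 ≤ r)
    (h : limsup (fun n : ℕ => (f n : ℝ≥0∞) / n) atTop < ENNReal.ofReal r) :
    ∃ K : ℝ, ∀ n, (f n : ℝ) ≤ r * n + K := by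
  obtain ⟨N, hN⟩ := eventually_atTop.1 (eventually_lt_of_limsup_lt h)
  refine ⟨∑ i ∈ range (N + 1), (f i : ℝ), fun n => ?_⟩
  have h0 : (0 : ℝ) ≤ ∑ i ∈ range (N + 1), (f i : ℝ) := Finset.sum_nonneg fun _ _ => by positivity
  rcases le_or_gt n N with hn | hn
  · have h1 : (f n : ℝ) ≤ ∑ i ∈ range (N + 1), (f i : ℝ) :=
      Finset.single_le_sum (f := fun i => (f i : ℝ)) (fun _ _ => by positivity)
        (Finset.mem_range.2 (by omega))
    have : 0 ≤ r * n := by positivity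
    linarith only [h1, this]
  · have h1 := hN n hn.le
    have hn0 : 0 < n := by omega
    rw [diff_cast_div _ _ hn0, ENNReal.ofReal_lt_ofReal_iff_of_nonneg (by positivity),
      div_lt_iff₀ (by exact_mod_cast hn0)] at h1
    linarith only [h0, h1]

theorem le_div_of_jets {ℓ h : ℕ → ℕ} (mono : Monotone ℓ) (low : ∀ j, j ≤ ℓ j) {C : ℕ}
    (lin : ∀ n, h n ≤ C * (n + 1)) {a b p c₁ c₂ : ℕ} (hb : 0 < b) (hp : 0 < p)
    (key : ∀ m, ∃ n, b * n ≤ a * m + c₂ ∧ ℓ (m * p - c₁) ≤ h n) :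
    ((p * b : ℕ) : ℝ≥0∞) / a ≤ limsup (fun n : ℕ => (h n : ℝ≥0∞) / n) atTop /
      limsup (fun j : ℕ => (ℓ j : ℝ≥0∞) / j) atTop := by
  have hL : 1 ≤ limsup (fun j : ℕ => (ℓ j : ℝ≥0∞) / j) atTop := by
    rw [← ENNReal.ofReal_one]
    refine diff_le_limsup (K := 0) (Eventually.of_forall fun j => ?_)
    simpa using low j
  have hH : limsup (fun n : ℕ => (h n : ℝ≥0∞) / n) atTop ≤ ENNReal.ofReal C := by
    refine diff_limsup_le (K := C) fun n => ?_
    have : ((h n : ℕ) : ℝ) ≤ ((C * (n + 1) : ℕ) : ℝ) := by exact_mod_cast lin n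
    push_cast at this
    linarith only [this]
  have ha : 0 < a := by
    rcases Nat.eq_zero_or_pos a with rfl | ha
    · exfalso
      obtain ⟨n, h1, h2⟩ := key (C * (c₂ + 1) + c₁ + 1)
      have h3 : n ≤ c₂ := by nlinarith only [h1, hb]
      have h4 := (low _).trans (h2.trans (lin n))
      have h5 : C * (n + 1) ≤ C * (c₂ + 1) := Nat.mul_le_mul_left _ (by omega)
      have h6 : C * (c₂ + 1) + c₁ + 1 ≤ (C * (c₂ + 1) + c₁ + 1) * p := Nat.le_mul_of_pos_right _ hp
      omega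
    · exact ha
  have haR : (0 : ℝ) < a := by exact_mod_cast ha
  have hbR : (0 : ℝ) < b := by exact_mod_cast hb
  have hpR : (0 : ℝ) < p := by exact_mod_cast hp
  rw [ENNReal.le_div_iff_mul_le (Or.inl (lt_of_lt_of_le zero_lt_one hL).ne')
    (Or.inr (ne_top_of_le_ne_top ENNReal.ofReal_ne_top hH))]
  refine le_of_forall_gt_imp_ge_of_dense fun t ht => ?_
  rcases eq_or_ne t ⊤ with rfl | htt
  · exact le_top
  have hr : 0 ≤ t.toReal := ENNReal.toReal_nonneg
  rw [← ENNReal.ofReal_toReal htt] at ht ⊢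
  set r := t.toReal
  obtain ⟨K, hK⟩ := diff_bound_of_lt hr ht
  have h1 : limsup (fun j : ℕ => (ℓ j : ℝ≥0∞) / j) atTop ≤ ENNReal.ofReal (r * a / (p * b)) := by
    refine diff_limsup_le (K := r * (a * (c₁ / p + 1) + c₂) / b + K) fun j => ?_
    obtain ⟨n, h2, h3⟩ := key ((j + c₁) / p + 1)
    have h4 : j ≤ ((j + c₁) / p + 1) * p - c₁ := by
      have := Nat.lt_div_mul_add (a := j + c₁) hp
      rw [add_mul, one_mul]
      omega
    have h5 : (ℓ j : ℝ) ≤ h n := by exact_mod_cast (mono h4).trans h3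
    have h6 : (b : ℝ) * n ≤ a * ((((j + c₁) / p : ℕ) : ℝ) + 1) + c₂ := by exact_mod_cast h2
    have h7 : (((j + c₁) / p : ℕ) : ℝ) ≤ (j + c₁) / p := by
      have := Nat.cast_div_le (α := ℝ) (m := j + c₁) (n := p)
      rwa [Nat.cast_add] at this
    have h8 : (n : ℝ) ≤ (a * ((j + c₁) / p + 1) + c₂) / b := by
      rw [le_div_iff₀ hbR]
      linarith only [h6, h7, mul_nonneg_of_nonpos_of_nonpos (Mathlib.Tactic.Linarith.sub_nonpos_of_le (Mathlib.Tactic.Linarith.natCast_nonneg ℝ a)) (Mathlib.Tactic.Linarith.sub_nonpos_of_le h7)]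
    have h9 : r * n ≤ r * ((a * ((j + c₁) / p + 1) + c₂) / b) := mul_le_mul_of_nonneg_left h8 hr
    have h10 : r * ((a * ((j + c₁) / p + 1) + c₂) / b) =
        r * a / (p * b) * j + r * (a * (c₁ / p + 1) + c₂) / b := by
      field_simp
      ring
    have := hK n
    linarith only [h5, h9, h10, this]
  refine (mul_le_mul_right h1 _).trans ?_
  rw [diff_cast_div _ _ ha, ← ENNReal.ofReal_mul (by positivity)]
  refine ENNReal.ofReal_le_ofReal (le_of_eq ?_)
  push_cast
  field_simp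

theorem div_le_of_linear {ℓ h : ℕ → ℕ} {a j₀ : ℕ} (ha : 1 ≤ a)
    (hℓ : ∀ j, j₀ ≤ j → ℓ (j + 1) = ℓ j + a) {w C : ℝ} (hw : 0 ≤ w)
    (lin : ∀ n, (h n : ℝ) ≤ w * a * n + C) :
    limsup (fun n : ℕ => (h n : ℝ≥0∞) / n) atTop /
      limsup (fun j : ℕ => (ℓ j : ℝ≥0∞) / j) atTop ≤ ENNReal.ofReal w := by
  have h1 : ∀ i, a * i ≤ ℓ (j₀ + i) := by
    intro i
    induction i with
    | zero => simp
    | succ i ih =>
      rw [← add_assoc, hℓ _ (by omega), mul_add, mul_one]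
      omega
  have hL : ENNReal.ofReal a ≤ limsup (fun j : ℕ => (ℓ j : ℝ≥0∞) / j) atTop := by
    refine diff_le_limsup (K := -(a * j₀)) ?_
    filter_upwards [eventually_ge_atTop j₀] with j hj
    obtain ⟨i, rfl⟩ := Nat.exists_eq_add_of_le hj
    have : ((a * i : ℕ) : ℝ) ≤ ℓ (j₀ + i) := by exact_mod_cast h1 i
    push_cast at this ⊢
    linarith only [this]
  have haR : (0 : ℝ) < a := by exact_mod_cast ha
  refine (ENNReal.div_le_div (diff_limsup_le lin) hL).trans ?_
  rw [← ENNReal.ofReal_div_of_pos haR, mul_div_cancel_right₀ _ haR.ne']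

end Pool.Agent.Work.MP_e57da2_ag
end

-- merged part: Pool.Agent.Work.MP_e57da2_ag.Gal
section
/-!
# Multiplication by `n` is a Galois covering; descent and averaging

Plans.  `fixed`: `G = tors A n` acts faithfully (`Dom.ext`, `pt_comp_tr`) on the field `Fn A` by ring automorphisms (define a `MulSemiringAction` locally);
`FixedPoints.finrank_eq_card` gives `[Fn A : fixed field] = card G`; the fixed field contains the image `F` of `pb μ` (`tr g ≫ μ = μ`), and `[Fn A : F] ≤ card G` by `span_of_unram`, `unram`,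
`exists_pt_of_finite`; the tower law gives equality.
`desc_pt`: `desc_generic` gives `U₀`; take a closed point `pt x₀ ∈ U₀` and `y` with `x₀ * y ^ n = x` (`exists_pt_comp`); use `tr_mulBy`, `pb_comp`, `pb_tr_mem_O`.
`desc_Gm`: for `z ∈ U` take a closed specialisation in `U` (`exists_closed_spec_mem`), `Dv.isU_of_spec`.
`van_of_van_pl`: the preimages of a cover form a cover; `Ex.retract` with `α = pb μ` and `ρ v` = the preimage under `pb μ` of `(card G)⁻¹ • ∑ g, pb (tr g) v` (`card_ne_zero_of_pow`, `act_mem_Gm`, `cl_pld`).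
-/

open CategoryTheory Limits AlgebraicGeometry TopologicalSpace MonoidalCategory
  CartesianMonoidalCategory MonObj

namespace Pool.Agent.Work.MP_e57da2_ag

variable {k : Type} [Field k] {A : Sch k} [GrpObj A] [IsProper A.hom]
  [GeometricallyIntegral A.hom]

variable (A) in
/-- the `n`-torsion points -/
noncomputable def tors (n : ℕ) : Subgroup (Pt A) := (powMonoidHom n : Pt A →* Pt A).ker

theorem mem_tors {n : ℕ} {g : Pt A} : g ∈ tors A n ↔ g ^ n = 1 := Iff.rfl

variable (A) in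
/-- the action by translations -/
noncomputable def act (n : ℕ) : tors A n →* Module.End k (Fn A) where
  toFun g := (pbF (dom_tr g.1)).toLinearMap
  map_one' := LinearMap.ext fun h => by
    change pb (tr (1 : Pt A)) h = h
    rw [tr_one, pb_id]
  map_mul' g g' := LinearMap.ext fun h => (pb_tr_tr g.1 g'.1 h).symm

theorem act_apply {n : ℕ} (g : tors A n) (h : Fn A) : act A n g h = pb (tr g.1) h := rfl

variable {n : ℕ}

theorem tr_tors (g : tors A n) : tr g.1 ≫ mulBy A n = mulBy A n := by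
  rw [tr_mulBy, mem_tors.1 g.2, tr_one, Category.comp_id]

theorem act_pb (hμ : Dom (mulBy A n)) (g : tors A n) (h : Fn A) :
    pb (tr g.1) (pb (mulBy A n) h) = pb (mulBy A n) h := by
  rw [← pb_comp _ (((dom_tr g.1).comp hμ).mem h), tr_tors]

theorem act_mem_Gm (hμ : Dom (mulBy A n)) (g : tors A n) {D : Dv A} {U : A.left.Opens} {v : Fn A}
    (hv : v ∈ Gm (pld hμ D) ((mulBy A n).left ⁻¹ᵁ U)) :
    pb (tr g.1) v ∈ Gm (pld hμ D) ((mulBy A n).left ⁻¹ᵁ U) := by
  refine mem_Gm.2 fun x hx => ?_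
  have e : (mulBy A n).left ((tr g.1).left x) = (mulBy A n).left x := by
    rw [← comp_apply', tr_tors]
  have h1 := mem_Gm.1 hv ((tr g.1).left x) (by
    change (mulBy A n).left ((tr g.1).left x) ∈ U
    rw [e]
    exact hx)
  rw [pld_f, e, ← pb_tr_mem_O, ← pbF_apply (dom_tr g.1), map_mul, pbF_apply, pbF_apply,
    act_pb hμ] at h1
  exact h1

/-- the action by translations, by ring automorphisms -/
@[reducible] noncomputable def Gal_action (n : ℕ) : MulSemiringAction (tors A n) (Fn A) where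
  smul g h := pb (tr g.1) h
  one_smul h := by
    change pb (tr (1 : Pt A)) h = h
    rw [tr_one, pb_id]
  mul_smul g g' h := (pb_tr_tr g.1 g'.1 h).symm
  smul_zero g := pb_zero _
  smul_add g := map_add (pbF (dom_tr g.1))
  smul_one g := pb_one _
  smul_mul g := map_mul (pbF (dom_tr g.1))

theorem Gal_faithful {g g' : Pt A} (h : ∀ a, pb (tr g) a = pb (tr g') a) : g = g' := by
  have e := congrArg (fun f => (1 : Pt A) ≫ f) ((dom_tr g).ext (dom_tr g') h)
  simpa only [pt_comp_tr, _root_.one_mul] using e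

variable [IsAlgClosed k] [IsFinite (mulBy A n).left]

instance tors_finite : Finite (tors A n) :=
  ((finite_fibre (mulBy A n) (1 : Pt A)).subset fun y (hy : y ∈ tors A n) =>
    (comp_mulBy y n).trans (mem_tors.1 hy)).to_subtype

theorem fixed (hμ : Dom (mulBy A n)) (hn : (n : k) ≠ 0) {v : Fn A}
    (hv : ∀ g : tors A n, pb (tr g.1) v = v) : ∃ h, pb (mulBy A n) h = v := by
  let _ := Gal_action (A := A) n
  let _ := Fintype.ofFinite (tors A n)
  have : FaithfulSMul (tors A n) (Fn A) := ⟨fun h => Subtype.ext (Gal_faithful h)⟩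
  have key : ∀ z, (mulBy A n).left z = pt (1 : Pt A) → ∃ g : tors A n, pt g.1 = z := fun z hz => by
    obtain ⟨y, h1, h2⟩ := exists_pt_of_finite (mulBy A n) 1 hz
    exact ⟨⟨y, mem_tors.2 ((comp_mulBy y n).symm.trans h2)⟩, h1⟩
  obtain ⟨b, hb⟩ := span_of_unram hμ (1 : Pt A)
    (fun i => ((Fintype.equivFin (tors A n)).symm i).1)
    (fun z hz => by
      obtain ⟨g, hg⟩ := key z hz
      exact ⟨Fintype.equivFin _ g, by rw [Equiv.symm_apply_apply, hg]⟩)
    fun z hz h hh => by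
      obtain ⟨g, rfl⟩ := key z hz
      exact unram hn (mem_tors.1 g.2) hh
  have mem : ∀ c, pb (mulBy A n) c ∈ FixedPoints.subfield (tors A n) (Fn A) := fun c g =>
    act_pb hμ g c
  have li : LinearIndependent (FixedPoints.subfield (tors A n) (Fn A)) b := by
    refine linearIndependent_of_top_le_span_of_card_eq_finrank (fun w _ => ?_) ?_
    · obtain ⟨c, rfl⟩ := hb w
      exact Submodule.sum_mem _ fun i _ =>
        Submodule.smul_mem _ (⟨_, mem (c i)⟩ : FixedPoints.subfield (tors A n) (Fn A))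
          (Submodule.subset_span ⟨i, rfl⟩)
    · rw [FixedPoints.finrank_eq_card, Fintype.card_fin]
  obtain ⟨c, hc⟩ := hb 1
  obtain ⟨d, hd⟩ := hb v
  have e := Fintype.linearIndependent_iffₛ.1 li (fun i => ⟨_, mem (d i)⟩)
    (fun i => ⟨v, hv⟩ * ⟨_, mem (c i)⟩) (by
      change ∑ i, pb (mulBy A n) (d i) * b i = ∑ i, v * pb (mulBy A n) (c i) * b i
      simp only [_root_.mul_assoc]
      rw [← Finset.mul_sum, hc, hd, _root_.mul_one])
  obtain ⟨i, hi⟩ : ∃ i, pb (mulBy A n) (c i) ≠ 0 := by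
    by_contra hn'
    push Not at hn'
    simp only [hn', zero_mul, Finset.sum_const_zero] at hc
    exact zero_ne_one hc
  have e' : pb (mulBy A n) (d i) = v * pb (mulBy A n) (c i) := congrArg Subtype.val (e i)
  refine ⟨d i / c i, ?_⟩
  rw [← pbF_apply hμ, map_div₀, pbF_apply, pbF_apply, e', mul_div_cancel_right₀ _ hi]

theorem desc_pt (hμ : Dom (mulBy A n)) (x : Pt A) {h : Fn A}
    (hh : pb (mulBy A n) h ∈ semi (mulBy A n) (pt x)) : h ∈ O A (pt x) := by
  obtain ⟨U₀, h0, hU⟩ := desc_generic hμ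
  obtain ⟨z₀, hz₀, -, hc⟩ := exists_closed_spec_mem h0
  obtain ⟨x₀, rfl⟩ := exists_pt hc
  obtain ⟨y, hy⟩ := exists_pt_comp hμ (x₀⁻¹ * x)
  rw [comp_mulBy] at hy
  have e : (tr (y ^ n)).left (pt x₀) = pt x := by
    rw [← pt_comp, pt_comp_tr, hy, mul_inv_cancel_left]
  rw [← e, ← pb_tr_mem_O]
  refine hU _ hz₀ _ (mem_semi.2 fun z hz => ?_)
  rw [← pb_comp _ ((hμ.comp (dom_tr _)).mem h), ← tr_mulBy,
    pb_comp _ (((dom_tr y).comp hμ).mem h), pb_tr_mem_O]
  refine mem_semi.1 hh _ ?_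
  rw [← comp_apply', tr_mulBy, comp_apply', hz, e]

theorem desc_Gm (hμ : Dom (mulBy A n)) {D : Dv A} {U : A.left.Opens} {h : Fn A} :
    pb (mulBy A n) h ∈ Gm (pld hμ D) ((mulBy A n).left ⁻¹ᵁ U) ↔ h ∈ Gm D U := by
  refine ⟨fun hh => mem_Gm.2 fun x hx => ?_, pb_mem_Gm_pld hμ le_rfl⟩
  obtain ⟨x', hx', hs, hc⟩ := exists_closed_spec_mem hx
  obtain ⟨p, rfl⟩ := exists_pt hc
  have h1 : h * D.f (pt p) ∈ O A (pt p) := desc_pt hμ p (mem_semi.2 fun z hz => by
    have h2 := mem_Gm.1 hh z (by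
      change (mulBy A n).left z ∈ U
      rw [hz]
      exact hx')
    rw [pld_f, hz] at h2
    rw [← pbF_apply hμ, map_mul]
    exact h2)
  rw [Dv_move D h (pt p) x]
  exact mul_mem (D.isU_of_spec hs).1 (O_le_of_spec hs h1)

theorem desc_isU (hμ : Dom (mulBy A n)) {U : A.left.Opens} {h : Fn A}
    (hh : ∀ z ∈ (mulBy A n).left ⁻¹ᵁ U, IsU A z (pb (mulBy A n) h)) : ∀ x ∈ U, IsU A x h := by
  have h1 : h ∈ B A U := mem_Gm_zero.1 ((desc_Gm hμ).1 (mem_Gm.2 fun z hz => by
    rw [pld_f, f_zero, pb_one, _root_.mul_one]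
    exact (hh z hz).1))
  intro x hx
  obtain ⟨z, rfl⟩ := surjective_of_dom hμ x
  exact (pb_isU (mem_B.1 h1 _ hx)).1 (hh z hx)

/-- the average over the torsion points -/
noncomputable def Gal_avg (n : ℕ) [Fintype (tors A n)] : Module.End k (Fn A) :=
  (Fintype.card (tors A n) : k)⁻¹ • ∑ g : tors A n, act A n g

omit [IsAlgClosed k] [IsFinite (mulBy A n).left] in
theorem Gal_avg_apply [Fintype (tors A n)] (v : Fn A) :
    Gal_avg n v = (Fintype.card (tors A n) : k)⁻¹ • ∑ g : tors A n, act A n g v := by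
  rw [Gal_avg, LinearMap.smul_apply, LinearMap.sum_apply]

omit [IsAlgClosed k] [IsFinite (mulBy A n).left] in
theorem Gal_avg_fixed [Fintype (tors A n)] (g : tors A n) (v : Fn A) :
    pb (tr g.1) (Gal_avg n v) = Gal_avg n v := by
  rw [← act_apply, Gal_avg_apply, map_smul, map_sum]
  congr 1
  exact Fintype.sum_equiv (Equiv.mulLeft g) _ _ fun g' => by
    rw [Equiv.coe_mulLeft, map_mul, Module.End.mul_apply]

theorem van_of_van_pl (hμ : Dom (mulBy A n)) (hn : (n : k) ≠ 0) {M : Dv A}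
    (h : Van (pl (mulBy A n) M)) : Van M := by
  let _ := Fintype.ofFinite (tors A n)
  have hc : (Fintype.card (tors A n) : k) ≠ 0 := by
    rw [← Nat.card_eq_fintype_card]
    exact card_ne_zero_of_pow hn fun g => Subtype.ext (mem_tors.1 g.2)
  obtain ⟨L, hL⟩ := (pbF hμ).toLinearMap.exists_leftInverse_of_injective
    (LinearMap.ker_eq_bot.2 (pbF hμ).toRingHom.injective)
  have hL' : ∀ v, L (pb (mulBy A n) v) = v := fun v => LinearMap.congr_fun hL v
  intro κ _ _ V hV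
  have e : ∀ S : Finset κ, ⊤ ⊓ S.inf (fun i => (mulBy A n).left ⁻¹ᵁ V i) =
      (mulBy A n).left ⁻¹ᵁ (⊤ ⊓ S.inf V) := fun S => by
    ext x
    rw [top_inf_eq, top_inf_eq]
    exact (van_mem_inf S).trans (van_mem_inf (x := (mulBy A n).left x) S).symm
  have e' : ∀ S : Finset κ, sys (st (pld hμ M)) ⊤ (fun i => (mulBy A n).left ⁻¹ᵁ V i) S =
      Gm (pld hμ M) ((mulBy A n).left ⁻¹ᵁ (⊤ ⊓ S.inf V)) := fun S => by
    rw [← e]
    rfl
  refine (h.congr (cl_pld hμ M).symm κ (fun i => (mulBy A n).left ⁻¹ᵁ V i)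
    ⟨fun i => (hV.aff i).preimage _, fun i => hμ.gp_mem (hV.gp i), fun x => hV.cov _⟩).retract
    (pbF hμ).toLinearMap.toAddMonoidHom (L ∘ₗ Gal_avg n).toAddMonoidHom (fun S v hv => ?_)
    (fun S w hw => ?_) fun v => ?_
  · rw [e']
    exact (desc_Gm hμ).2 hv
  · rw [e'] at hw
    obtain ⟨u, hu⟩ := fixed hμ hn fun g => Gal_avg_fixed g w
    change L (Gal_avg n w) ∈ Gm M (⊤ ⊓ S.inf V)
    rw [← hu, hL', ← desc_Gm hμ, hu, Gal_avg_apply]
    exact Submodule.smul_mem _ _ (Submodule.sum_mem _ fun g _ => act_mem_Gm hμ g hw)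
  · change L (Gal_avg n (pb (mulBy A n) v)) = v
    rw [Gal_avg_apply]
    simp only [act_apply, act_pb hμ]
    rw [Finset.sum_const, Finset.card_univ, ← Nat.cast_smul_eq_nsmul k, inv_smul_smul₀ hc, hL']

end Pool.Agent.Work.MP_e57da2_ag
end

-- merged part: Pool.Agent.Work.MP_e57da2_ag.Char
section
/-!
# Decomposition of sections of a pull-back by characters

Plans.  `exists_unit_eigen`: let `z₀ ≫ μ = x` (`exists_pt_comp`); the points over `pt x` are the `pt (z₀ * g)` (`exists_pt_of_finite`), distinct by `pt_injective`.  In the affine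
`μ ⁻¹ᵁ U` take `b` invertible at `pt z₀` and vanishing at the `pt (z₀ * g)`, `g ≠ 1` (product of `aff_separate`); `h = ∑ g, (χ g)⁻¹ • pb (tr g) b` (`pb_tr_mem_mp`, `IsU.add_mp`).
`V` is the complement of the image of the complement of `ul h` (`closed_image`).
`exists_char_dv`: for each point `x` choose a closed specialisation `x'` and `(V x, e x)` as above for `x'` (so `x ∈ V x`); let `e₀ = e (gp A)`; `e₀ / e x` is invariant, `= pb μ (f x)` (`fixed`);
`P.f = f`; the local condition, and `n • cl P = 0` (`e₀ ^ n` is invariant), by `desc_isU`.  The map `a ↦ e₀ * pb μ a` is a bijection from `Gm (M + P) ⊤` onto the eigenspace (`desc_Gm` on each `V x`).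
`decomp`: `finrank_eq_sum_eig`; `tors A n →* kˣ` is finite.
-/

open CategoryTheory Limits AlgebraicGeometry TopologicalSpace MonoidalCategory
  CartesianMonoidalCategory MonObj

namespace Pool.Agent.Work.MP_e57da2_ag

variable {k : Type} [Field k] [IsAlgClosed k] {A : Sch k} [GrpObj A] [IsProper A.hom]
  [GeometricallyIntegral A.hom] {n : ℕ} [IsFinite (mulBy A n).left]

omit [IsAlgClosed k] [IsFinite (mulBy A n).left] in
theorem Char_isU_tr (y : Pt A) (z : A.left) (h : Fn A) :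
    IsU A z (pb (tr y) h) ↔ IsU A ((tr y).left z) h := by
  rw [IsU, IsU, pb_tr_mem_O, pb_tr_mem_mp]

omit [IsAlgClosed k] [IsFinite (mulBy A n).left] in
theorem Char_eig {χ : tors A n →* kˣ} {h : Fn A} (hh : h ∈ eig (act A n) χ) (g : tors A n) :
    pb (tr g.1) h = algebraMap k (Fn A) (χ g) * h := by
  rw [← Algebra.smul_def]
  exact mem_eig.1 hh g

theorem Char_sep (x z₀ : Pt A) (hz : z₀ ≫ mulBy A n = x) :
    ∃ b : Fn A, IsU A (pt z₀) b ∧ ∀ g : tors A n, g ≠ 1 → b ∈ mp A (pt (z₀ * g.1)) 1 := by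
  classical
  have := Fintype.ofFinite (tors A n)
  obtain ⟨U, hU, hx, -⟩ := exists_aff (W := ⊤) (x := pt x) trivial
  have hW : IsAffineOpen ((mulBy A n).left ⁻¹ᵁ U) := hU.preimage _
  have hm : ∀ g : tors A n, pt (z₀ * g.1) ∈ (mulBy A n).left ⁻¹ᵁ U := fun g => by
    change (mulBy A n).left (pt (z₀ * g.1)) ∈ U
    rw [← pt_comp, comp_mulBy, mul_pow, mem_tors.1 g.2, _root_.mul_one, ← comp_mulBy, hz]
    exact hx
  have hm1 : pt z₀ ∈ (mulBy A n).left ⁻¹ᵁ U := by simpa using hm 1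
  have key : ∀ g : tors A n, ∃ b ∈ B A ((mulBy A n).left ⁻¹ᵁ U),
      (g ≠ 1 → b ∈ mp A (pt (z₀ * g.1)) 1) ∧ IsU A (pt z₀) b := fun g => by
    by_cases hg : g = 1
    · exact ⟨1, one_mem _, fun h => (h hg).elim, isU_one⟩
    · obtain ⟨b, h1, h2, h3⟩ := aff_separate hW (hm g) hm1 (pt_closed _) fun e =>
        hg (Subtype.ext (by simpa using pt_injective e))
      exact ⟨b, h1, fun _ => h2, h3⟩
  choose b hb hb1 hb2 using key
  refine ⟨∏ g, b g, ?_, fun g hg => ?_⟩
  · exact Finset.prod_induction _ (IsU A (pt z₀)) (fun _ _ => IsU.mul) isU_one fun g _ => hb2 g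
  · rw [← Finset.prod_erase_mul _ _ (Finset.mem_univ g)]
    exact O_mul_mem_mp (prod_mem fun a _ => B_le_O (hm g) (hb a)) (hb1 g hg)

theorem exists_unit_eigen (hμ : Dom (mulBy A n)) (χ : tors A n →* kˣ) (x : Pt A) :
    ∃ (V : A.left.Opens) (h : Fn A), pt x ∈ V ∧ h ∈ eig (act A n) χ ∧
      ∀ z ∈ (mulBy A n).left ⁻¹ᵁ V, IsU A z h := by
  classical
  have := Fintype.ofFinite (tors A n)
  obtain ⟨z₀, hz⟩ := exists_pt_comp hμ x
  obtain ⟨b, hb, hb'⟩ := Char_sep x z₀ hz
  set h : Fn A := ∑ g : tors A n, ((χ g⁻¹ : kˣ) : k) • act A n g b with hdef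
  have he : h ∈ eig (act A n) χ := mem_eig.2 fun a => by
    rw [hdef, map_sum, Finset.smul_sum]
    refine Fintype.sum_equiv (Equiv.mulLeft a) _ _ fun g => ?_
    rw [map_smul, Equiv.coe_mulLeft, map_mul (act A n), Module.End.mul_apply, smul_smul,
      ← Units.val_mul, ← map_mul, mul_inv_rev, mul_comm g⁻¹, mul_inv_cancel_left]
  have h1 : IsU A (pt z₀) h := by
    rw [hdef, ← Finset.add_sum_erase _ _ (Finset.mem_univ (1 : tors A n))]
    refine IsU.add_mp ?_ (Submodule.sum_mem _ fun g hg => Submodule.smul_mem _ _ ?_)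
    · simpa using hb
    · rw [act_apply, pb_tr_mem_mp, ← pt_comp, pt_comp_tr]
      exact hb' g (Finset.ne_of_mem_erase hg)
  have h2 : ∀ g : tors A n, IsU A (pt (z₀ * g.1)) h := fun g => by
    rw [← pt_comp_tr, pt_comp, ← Char_isU_tr, Char_eig he]
    exact (isU_algebraMap (χ g).ne_zero).mul h1
  refine ⟨⟨((mulBy A n).left '' (ul h : Set A.left)ᶜ)ᶜ,
    (closed_image _ _ (ul h).isOpen.isClosed_compl).isOpen_compl⟩, h, ?_, he, fun z hz' => ?_⟩
  · rintro ⟨y, hy, e⟩
    obtain ⟨y', rfl, e'⟩ := exists_pt_of_finite (mulBy A n) x e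
    have ht : z₀⁻¹ * y' ∈ tors A n := by
      rw [mem_tors, mul_pow, inv_pow, ← comp_mulBy, ← comp_mulBy, hz, e', inv_mul_cancel]
    have := h2 ⟨_, ht⟩
    rw [mul_inv_cancel_left] at this
    exact hy this
  · by_contra hn
    exact hz' ⟨z, hn, rfl⟩

theorem exists_char_dv (hμ : Dom (mulBy A n)) (hn : (n : k) ≠ 0) (χ : tors A n →* kˣ) :
    ∃ P : Dv A, cl (pl (mulBy A n) P) = 0 ∧ n • cl P = 0 ∧ ∀ M : Dv A,
      Module.finrank k (Gm (pld hμ M) ⊤ ⊓ eig (act A n) χ : Submodule k (Fn A)) = h0 (M + P) := by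
  have key : ∀ x : A.left, ∃ (V : A.left.Opens) (h : Fn A), x ∈ V ∧ h ∈ eig (act A n) χ ∧
      ∀ z ∈ (mulBy A n).left ⁻¹ᵁ V, IsU A z h := fun x => by
    obtain ⟨y, hxy, hy⟩ := exists_closed_spec x
    obtain ⟨y', rfl⟩ := exists_pt hy
    obtain ⟨V, h, h1, h2, h3⟩ := exists_unit_eigen hμ χ y'
    exact ⟨V, h, hxy.mem_open V.isOpen h1, h2, h3⟩
  choose V e hV he hu using key
  have e0 : ∀ x, e x ≠ 0 := fun x => (hu x _ (hμ.gp_mem (gp_mem (hV x)))).ne_zero
  have c0 : ∀ g, algebraMap k (Fn A) (χ g) ≠ 0 := fun g => (_root_.map_ne_zero _).2 (χ g).ne_zero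
  have inv : ∀ {v w : Fn A}, v ∈ eig (act A n) χ → w ∈ eig (act A n) χ →
      ∃ a, pbF hμ a = v / w := fun {v w} hv hw => fixed hμ hn fun g => by
    rw [← pbF_apply (dom_tr g.1), map_div₀, pbF_apply, pbF_apply, Char_eig hv, Char_eig hw,
      mul_div_mul_left _ _ (c0 g)]
  choose f hf using fun x => inv (he (gp A)) (he x)
  have f0 : ∀ x, f x ≠ 0 := fun x h0 => by
    have := hf x
    rw [h0, map_zero] at this
    exact div_ne_zero (e0 _) (e0 _) this.symm
  let P : Dv A := ⟨f, f0, fun x => ⟨V x, hV x, fun y hy => by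
    refine desc_isU hμ (U := V x ⊓ V y) (fun z hz => ?_) y ⟨hy, hV y⟩
    rw [← pbF_apply hμ, map_div₀, hf, hf, div_div_div_cancel_left' _ _ (e0 _)]
    exact (hu x z hz.1).div (hu y z hz.2)⟩⟩
  have hP : ∀ z, (pld hμ P).f z = e (gp A) / e ((mulBy A n).left z) := fun z => hf _
  have hz : ∀ z, IsU A z (e ((mulBy A n).left z)) := fun z => hu _ z (hV _)
  refine ⟨P, ?_, ?_, fun M => ?_⟩
  · rw [← cl_pld hμ]
    refine cl_eq_zero.2 ⟨(e (gp A))⁻¹, fun z => ?_⟩
    rw [hP, div_eq_mul_inv, inv_mul_cancel_left₀ (e0 _)]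
    exact (hz z).inv
  · obtain ⟨w, hw⟩ : ∃ w, pbF hμ w = e (gp A) ^ n := fixed hμ hn fun g => by
      have hg : g ^ n = 1 := Subtype.ext (mem_tors.1 g.2)
      rw [← pbF_apply (dom_tr g.1), map_pow, pbF_apply, Char_eig (he _), mul_pow, ← map_pow,
        ← Units.val_pow_eq_pow_val, ← map_pow, hg, map_one, Units.val_one, map_one, _root_.one_mul]
    rw [← map_nsmul]
    refine cl_eq_zero.2 ⟨w⁻¹, fun x => desc_isU hμ (U := V x) (fun z hz => ?_) x (hV x)⟩
    change IsU A z (pbF hμ (w⁻¹ * f x ^ n))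
    rw [map_mul, map_inv₀, map_pow, hw, hf, div_pow, div_eq_mul_inv,
      inv_mul_cancel_left₀ (pow_ne_zero _ (e0 _))]
    exact ((hu x z hz).pow n).inv
  · let T : Fn A →ₗ[k] Fn A := LinearMap.mulLeft k (e (gp A)) ∘ₗ (pbF hμ).toLinearMap
    have hT : ∀ a, T a = e (gp A) * pbF hμ a := fun _ => rfl
    have hi : Function.Injective T := fun a b hab =>
      (pbF hμ).toRingHom.injective (mul_left_cancel₀ (e0 _) hab)
    have hG : ∀ a, T a ∈ Gm (pld hμ M) ⊤ ↔ a ∈ Gm (M + P) ⊤ := fun a => by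
      rw [← desc_Gm hμ (U := ⊤) (h := a)]
      change _ ↔ pbF hμ a ∈ Gm (pld hμ (M + P)) ⊤
      rw [mem_Gm, mem_Gm]
      refine forall₂_congr fun z _ => ?_
      have e1 : (pld hμ (M + P)).f z = (pld hμ M).f z * (pld hμ P).f z := map_mul (pbF hμ) _ _
      rw [e1, hP, hT, ← (hz z).inv.mul_mem_O_iff]
      congr! 1
      rw [div_eq_mul_inv]
      ring
    have hE : Gm (pld hμ M) ⊤ ⊓ eig (act A n) χ = (Gm (M + P) ⊤).map T := by
      ext v
      constructor
      · rintro ⟨h1, h2⟩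
        obtain ⟨a, ha⟩ := inv h2 (he (gp A))
        have : T a = v := by rw [hT, ha, mul_div_cancel₀ _ (e0 _)]
        exact ⟨a, (hG a).1 (this ▸ h1), this⟩
      · rintro ⟨a, ha, rfl⟩
        refine ⟨(hG a).2 ha, mem_eig.2 fun g => ?_⟩
        rw [act_apply, hT, ← pbF_apply (dom_tr g.1), map_mul, pbF_apply, pbF_apply, pbF_apply,
          act_pb hμ, Char_eig (he _), Algebra.smul_def, _root_.mul_assoc]
    rw [hE]
    exact (Submodule.equivMapOfInjective T hi _).finrank_eq.symm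

theorem decomp (hμ : Dom (mulBy A n)) (hn : (n : k) ≠ 0) {L : Dv A} (hL : Amp L) :
    ∃ (N : ℕ) (P : Fin N → Dv A), (∀ i, cl (pl (mulBy A n) (P i)) = 0 ∧ n • cl (P i) = 0) ∧
      ∀ M : Dv A, h0 (pl (mulBy A n) M) = ∑ i, h0 (M + P i) := by
  have hg : ∀ g : tors A n, g ^ n = 1 := fun g => Subtype.ext (mem_tors.1 g.2)
  have : Finite (tors A n →* kˣ) := inferInstance
  have := Fintype.ofFinite (tors A n →* kˣ)
  choose P h1 h2 h3 using exists_char_dv hμ hn
  let σ := (Fintype.equivFin (tors A n →* kˣ)).symm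
  refine ⟨_, fun i => P (σ i), fun i => ⟨h1 _, h2 _⟩, fun M => ?_⟩
  have := hL.fin (pld hμ M)
  rw [← h0_congr (cl_pld hμ M), h0, finrank_eq_sum_eig hn hg (act A n) (Gm (pld hμ M) ⊤)
    fun g v hv => act_mem_Gm hμ g (U := ⊤) hv, Equiv.sum_comp σ fun χ => h0 (M + P χ)]
  exact Finset.sum_congr rfl fun χ _ => h3 χ M

end Pool.Agent.Work.MP_e57da2_ag
end
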