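import Pool.Agent.Work.MP_e57da2_ag.Ser
import Pool.Agent.Work.MP_e57da2_ag.SValg

-- merged part: Pool.Agent.Work.MP_e57da2_ag.Prod
section
/-!
# Products

`box U V` is the product of two opens.  `(X ⊗ Y).left` is `pullback X.hom Y.hom` (`Over.tensorObj_left`, `Over.fst_left`, `Over.snd_left`).
Plans.  `box_aff`, `box_gen`: `Scheme.Hom.isPullback_resLE`, `isIso_pushoutSection_of_isAffineOpen` (with `US = ⊤`): a pushout of commutative rings is generated by the two images;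
`pb_germ`, `mem_B_iff_germ`.  `flat_box`: `snd` is flat (base change of `X.hom`; everything is flat over a field), `HasRingHomProperty.appLE @Flat`; transport along `secEquiv`.
`flat_Gm`: `Gm M W'` is a retract of a power of `B W'` (`aff_dual` with `T = Gm M W'`, `Module.Flat.of_retract`).
`exists_fib`: `fib t` is the base change of `t` along `snd` (`Scheme.Pullback.range_fst` or `Scheme.Pullback.exists_preimage_pullback`).
`fib_sub`: `fst^* a * snd^* b - fst^* a * b(t)`.  `fib_ker`, `fib_surj`: write `1 = ∑ β l * α l` (`aff_dual`) and use `fib_sub`.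
`eq_snd_sec`: let `h' = h - snd^* sec^* h`, so `sec^* h' = 0`; at a closed point `w` over the `k`-point `t`, `w = fib t z`, `pb (fib t) h' ∈ B ⊤` is a constant (`B_top`),
which vanishes at `x₀` since `x₀ ≫ fib t = t ≫ sec x₀`; `eq_zero_of_closed`.  `sdata_box`: `box_gen` and `finite_chart` on `X`.
-/

open CategoryTheory Limits AlgebraicGeometry TopologicalSpace MonoidalCategory
  CartesianMonoidalCategory

namespace Pool.Agent.Work.MP_e57da2_ag

variable {k : Type} [Field k] {X Y : Sch k}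

instance tensor_proper [IsProper X.hom] [IsProper Y.hom] : IsProper (X ⊗ Y).hom :=
  inferInstanceAs (IsProper (pullback.fst X.hom Y.hom ≫ X.hom))

variable (X Y) in
theorem Prod_pullback : IsPullback (fst X Y).left (snd X Y).left X.hom Y.hom :=
  IsPullback.of_hasPullback X.hom Y.hom

theorem Prod_exists (x : X.left) (y : Y.left) :
    ∃ w : (X ⊗ Y).left, (fst X Y).left w = x ∧ (snd X Y).left w = y :=
  haveI : Subsingleton (Spec (CommRingCat.of k)) := Pb_subsingleton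
  Scheme.exists_preimage_of_isPullback (Prod_pullback X Y) x y (Subsingleton.elim _ _)

/-- the product of two opens -/
noncomputable def box (U : X.left.Opens) (V : Y.left.Opens) : (X ⊗ Y).left.Opens :=
  (fst X Y).left ⁻¹ᵁ U ⊓ (snd X Y).left ⁻¹ᵁ V

theorem mem_box {U : X.left.Opens} {V : Y.left.Opens} {w : (X ⊗ Y).left} :
    w ∈ box U V ↔ (fst X Y).left w ∈ U ∧ (snd X Y).left w ∈ V := Iff.rfl

theorem box_inf (U U' : X.left.Opens) (V V' : Y.left.Opens) :
    box U V ⊓ box U' V' = box (U ⊓ U') (V ⊓ V') :=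
  Dv_ext fun _ => ⟨fun h => ⟨⟨h.1.1, h.2.1⟩, h.1.2, h.2.2⟩, fun h => ⟨⟨h.1.1, h.2.1⟩, h.1.2, h.2.2⟩⟩

theorem box_aff {U : X.left.Opens} {V : Y.left.Opens} (hU : IsAffineOpen U) (hV : IsAffineOpen V) :
    IsAffineOpen (box U V) := by
  have : IsAffine _ := hU
  have : IsAffine _ := hV
  have : IsAffine _ := isAffineOpen_top (Spec (CommRingCat.of k))
  exact .of_isIso (Scheme.Hom.isPullback_resLE (Prod_pullback X Y) (US := ⊤) (UT := V) (UX := U)
    le_top le_top (UY := box U V) rfl).isoPullback.hom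

variable (X) in
/-- the fibre of the second projection over `t` -/
noncomputable def fib (t : Pt Y) : X ⟶ X ⊗ Y := lift (𝟙 X) (toUnit X ≫ t)

variable (Y) in
/-- the section of the second projection through `x` -/
noncomputable def sec (x : Pt X) : Y ⟶ X ⊗ Y := lift (toUnit Y ≫ x) (𝟙 Y)

@[reassoc (attr := simp)] theorem fib_fst (t : Pt Y) : fib X t ≫ fst X Y = 𝟙 X := lift_fst _ _
@[reassoc (attr := simp)] theorem fib_snd (t : Pt Y) : fib X t ≫ snd X Y = toUnit X ≫ t :=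
  lift_snd _ _
@[reassoc (attr := simp)] theorem sec_fst (x : Pt X) : sec Y x ≫ fst X Y = toUnit Y ≫ x :=
  lift_fst _ _
@[reassoc (attr := simp)] theorem sec_snd (x : Pt X) : sec Y x ≫ snd X Y = 𝟙 Y := lift_snd _ _

theorem pt_fib (x : Pt X) (t : Pt Y) : x ≫ fib X t = t ≫ sec Y x := by
  refine CartesianMonoidalCategory.hom_ext _ _ ?_ ?_
  · rw [Category.assoc, Category.assoc, fib_fst, sec_fst, Category.comp_id, ← Category.assoc,
      toUnit_unique (t ≫ toUnit Y) (𝟙 _), Category.id_comp]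
  · rw [Category.assoc, Category.assoc, fib_snd, sec_snd, Category.comp_id, ← Category.assoc,
      toUnit_unique (x ≫ toUnit X) (𝟙 _), Category.id_comp]

theorem fib_mem_box {t : Pt Y} {U : X.left.Opens} {V : Y.left.Opens} (ht : pt t ∈ V) {x : X.left} :
    (fib X t).left x ∈ box U V ↔ x ∈ U := by
  rw [mem_box, ← comp_apply', ← comp_apply', fib_fst, fib_snd, id_apply', const_apply]
  exact and_iff_left ht

theorem sec_mem_box {x : Pt X} {U : X.left.Opens} {V : Y.left.Opens} (hx : pt x ∈ U) {y : Y.left} :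
    (sec Y x).left y ∈ box U V ↔ y ∈ V := by
  rw [mem_box, ← comp_apply', ← comp_apply', sec_fst, sec_snd, id_apply', const_apply]
  exact and_iff_right hx

theorem exists_fib (t : Pt Y) {w : (X ⊗ Y).left} (hw : (snd X Y).left w = pt t) :
    ∃ x, (fib X t).left x = w := by
  have h1 : (fib X t).left ≫ (fst X Y).left = 𝟙 _ := congrArg (·.left) (fib_fst (X := X) t)
  have h2 : (fib X t).left ≫ (snd X Y).left = X.hom ≫ t.left := congrArg (·.left) (fib_snd (X := X) t)
  have h3 : t.left ≫ Y.hom = 𝟙 _ := Over.w t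
  have H : IsPullback (fib X t).left X.hom (snd X Y).left t.left := by
    refine IsPullback.of_right ?_ h2 (Prod_pullback X Y)
    rw [h1]
    exact (congrArg (IsPullback (𝟙 _) X.hom X.hom) h3).mpr (IsPullback.id_horiz X.hom)
  obtain ⟨x, hx, -⟩ := Scheme.exists_preimage_of_isPullback H w _ hw
  exact ⟨x, hx⟩

variable [IsAlgClosed k] [IsIntegral X.left] [IsIntegral Y.left] [IsIntegral (X ⊗ Y).left]
  [IsProper X.hom] [IsProper Y.hom]

variable (X Y) in
theorem dom_fst : Dom (fst X Y) :=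
  Dom.of_surjective fun x => (Prod_exists x (gp Y)).imp fun _ h => h.1

variable (X Y) in
theorem dom_snd : Dom (snd X Y) :=
  Dom.of_surjective fun y => (Prod_exists (gp X) y).imp fun _ h => h.2

theorem gp_mem_box {U : X.left.Opens} {V : Y.left.Opens} (hU : gp X ∈ U) (hV : gp Y ∈ V) :
    gp (X ⊗ Y) ∈ box U V :=
  ⟨(dom_fst X Y).gp_mem hU, (dom_snd X Y).gp_mem hV⟩

variable {U : X.left.Opens} {V : Y.left.Opens}

theorem box_gen (hU : IsAffineOpen U) (hV : IsAffineOpen V) (gU : gp X ∈ U) (gV : gp Y ∈ V)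
    {v : Fn (X ⊗ Y)} (hv : v ∈ B (X ⊗ Y) (box U V)) :
    ∃ (n : ℕ) (a : Fin n → Fn X) (b : Fin n → Fn Y), (∀ l, a l ∈ B X U) ∧ (∀ l, b l ∈ B Y V) ∧
      ∑ l, pb (fst X Y) (a l) * pb (snd X Y) (b l) = v := by
  have gW := gp_mem_box gU gV
  obtain ⟨s, rfl⟩ := (mem_B_iff_germ gW).1 hv
  have H := (isIso_pushoutSection_iff (Prod_pullback X Y) (US := ⊤) (UT := V) (UX := U)
    le_top le_top (UY := box U V) rfl).1
    (isIso_pushoutSection_of_isAffineOpen _ _ _ _ (isAffineOpen_top _) hV hU)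
  have hs := (CommRingCat.closure_range_union_range_eq_top_of_isPushout H).ge (Subring.mem_top s)
  let T : Set (Fn (X ⊗ Y)) :=
    {z | ∃ a ∈ B X U, ∃ b ∈ B Y V, pb (fst X Y) a * pb (snd X Y) b = z}
  have h1 : ∀ s ∈ Submonoid.closure (Set.range ((fst X Y).left.appLE U (box U V) inf_le_left) ∪
      Set.range ((snd X Y).left.appLE V (box U V) inf_le_right)), germ _ _ gW s ∈ T := by
    intro s hs
    induction hs using Submonoid.closure_induction with
    | mem s hs =>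
      rcases hs with ⟨a, rfl⟩ | ⟨b, rfl⟩
      · refine ⟨_, germ_mem_B gU a, 1, one_mem _, ?_⟩
        rw [pb_one, mul_one]
        exact pb_germ gW inf_le_left a
      · refine ⟨1, one_mem _, _, germ_mem_B gV b, ?_⟩
        rw [pb_one, one_mul]
        exact pb_germ gW inf_le_right b
    | one => exact ⟨1, one_mem _, 1, one_mem _, by rw [pb_one, pb_one, map_one, one_mul]⟩
    | mul s s' _ _ ih ih' =>
      obtain ⟨a, ha, b, hb, e⟩ := ih
      obtain ⟨a', ha', b', hb', e'⟩ := ih'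
      refine ⟨_, mul_mem ha ha', _, mul_mem hb hb', ?_⟩
      rw [map_mul, ← e, ← e', pb_mul ((dom_fst X Y).mem _) ((dom_fst X Y).mem _),
        pb_mul ((dom_snd X Y).mem _) ((dom_snd X Y).mem _), mul_mul_mul_comm]
  have h2 : germ _ _ gW s ∈ Submodule.span k T := by
    rw [Subring.mem_closure_iff] at hs
    clear hv
    induction hs using AddSubgroup.closure_induction with
    | mem s hs => exact Submodule.subset_span (h1 s hs)
    | zero => rw [map_zero]; exact zero_mem _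
    | add s s' _ _ ih ih' => rw [map_add]; exact add_mem ih ih'
    | neg s _ ih => rw [map_neg]; exact neg_mem ih
  obtain ⟨n, c, g, e⟩ := Submodule.mem_span_set'.1 h2
  choose a ha b hb e' using fun l => (g l).2
  refine ⟨n, fun l => c l • a l, b, fun l => Subalgebra.smul_mem _ (ha l) _, hb, ?_⟩
  rw [← e]
  refine Finset.sum_congr rfl fun l _ => ?_
  rw [pb_smul ((dom_fst X Y).mem _), smul_mul_assoc, e']

variable (X V) in
/-- functions on `V` act on the function field of the product -/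
@[reducible] noncomputable def baseAlg : Algebra (B Y V) (Fn (X ⊗ Y)) :=
  ((pbF (dom_snd X Y)).toRingHom.comp (B Y V).val.toRingHom).toAlgebra

attribute [local instance] baseAlg
attribute [local instance 2000] IsScalarTower.left Submodule.module

theorem baseAlg_apply (r : B Y V) : algebraMap (B Y V) (Fn (X ⊗ Y)) r = pb (snd X Y) r := rfl

theorem baseAlg_mem (r : B Y V) (U : X.left.Opens) :
    algebraMap (B Y V) (Fn (X ⊗ Y)) r ∈ B (X ⊗ Y) (box U V) :=
  pb_mem_B inf_le_right r.2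

instance : FaithfulSMul (B Y V) (Fn (X ⊗ Y)) :=
  (faithfulSMul_iff_algebraMap_injective _ _).2
    ((pbF (dom_snd X Y)).toRingHom.injective.comp Subtype.val_injective)

instance : IsScalarTower k (B Y V) (Fn (X ⊗ Y)) :=
  IsScalarTower.of_algebraMap_eq fun c => (pb_algebraMap (snd X Y) c).symm

theorem Prod_mem_GmR {M : Dv (X ⊗ Y)} {v : Fn (X ⊗ Y)} :
    v ∈ GmR (B Y V) M (box U V) ↔ v ∈ Gm M (box U V) :=
  mem_GmR (R := B Y V) fun r => baseAlg_mem (X := X) (Y := Y) (V := V) r U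

theorem Prod_dual (hU : IsAffineOpen U) (hV : IsAffineOpen V) (gU : gp X ∈ U) (gV : gp Y ∈ V)
    (M : Dv (X ⊗ Y)) : ∃ (n : ℕ) (w β : Fin n → Fn (X ⊗ Y)), (∀ l, w l ∈ Gm M (box U V)) ∧
      (∀ l, β l ∈ Gm (-M) (box U V)) ∧ ∑ l, β l * w l = 1 :=
  aff_dual (box_aff hU hV) (gp_mem_box gU gV) (Gm M (box U V)) (fun _ h => h)
    fun _ hx => aff_gen (box_aff hU hV) hx M

theorem Prod_mul_mem_B {Z : Sch k} [IsIntegral Z.left] {M : Dv Z} {W : Z.left.Opens} {β v : Fn Z}
    (hβ : β ∈ Gm (-M) W) (hv : v ∈ Gm M W) : β * v ∈ B Z W := by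
  have := mul_mem_Gm hβ hv
  rwa [neg_add_cancel, mem_Gm_zero] at this

variable (U V) in
/-- the structure map of the functions on a box -/
noncomputable def ProdHom : B Y V →+* B (X ⊗ Y) (box U V) :=
  (algebraMap (B Y V) (Fn (X ⊗ Y))).codRestrict _ fun r => baseAlg_mem r U

theorem Prod_flat (hU : IsAffineOpen U) (hV : IsAffineOpen V) (gU : gp X ∈ U) (gV : gp Y ∈ V) :
    (ProdHom U V).Flat := by
  have gW := gp_mem_box gU gV
  have : Subsingleton (Spec (CommRingCat.of k)) := Pb_subsingleton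
  have : Flat (snd X Y).left := inferInstanceAs (Flat (pullback.snd X.hom Y.hom))
  have h1 := (snd X Y).left.flat_appLE hV (box_aff hU hV) inf_le_right
  have h2 := ((RingHom.Flat.of_bijective (f := (secEquiv gV).symm.toRingHom)
    (secEquiv gV).symm.bijective).comp h1).comp
    (RingHom.Flat.of_bijective (f := (secEquiv gW).toRingHom) (secEquiv gW).bijective)
  convert h2 using 1
  refine RingHom.ext fun r => Subtype.ext ?_
  obtain ⟨s, rfl⟩ := (secEquiv gV).surjective r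
  refine (pb_germ gW inf_le_right s).trans ?_
  simp only [RingEquiv.toRingHom_eq_coe, RingHom.coe_comp, RingHom.coe_coe, Function.comp_apply,
    RingEquiv.symm_apply_apply]
  rfl

theorem flat_Gm (hU : IsAffineOpen U) (hV : IsAffineOpen V) (gU : gp X ∈ U) (gV : gp Y ∈ V)
    (M : Dv (X ⊗ Y)) :
    Module.Flat (B Y V) (GmR (B Y V) M (box U V)) := by
  obtain ⟨n, w, β, hw, hβ, e⟩ := Prod_dual hU hV gU gV M
  let := (ProdHom U V).toAlgebra
  have : Module.Flat (B Y V) (B (X ⊗ Y) (box U V)) := Prod_flat hU hV gU gV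
  have : Module.Flat (B Y V) (Fin n → B (X ⊗ Y) (box U V)) :=
    Module.Flat.trans (B Y V) (B (X ⊗ Y) (box U V)) _
  let i : GmR (B Y V) M (box U V) →ₗ[B Y V] (Fin n → B (X ⊗ Y) (box U V)) :=
    { toFun := fun v l => ⟨β l * v, Prod_mul_mem_B (hβ l) (Prod_mem_GmR.1 v.2)⟩
      map_add' := fun a b => funext fun l => Subtype.ext (mul_add _ _ _)
      map_smul' := fun r a => funext fun l => Subtype.ext (mul_left_comm _ _ _) }
  let q : (Fin n → B (X ⊗ Y) (box U V)) →ₗ[B Y V] GmR (B Y V) M (box U V) :=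
    { toFun := fun c => ⟨∑ l, c l * w l,
        Prod_mem_GmR.2 (sum_mem fun l _ => B_mul_mem_Gm (c l).2 (hw l))⟩
      map_add' := fun a b => Subtype.ext (by simp [add_mul, Finset.sum_add_distrib])
      map_smul' := fun r a => Subtype.ext (by
        change ∑ l, (algebraMap (B Y V) (Fn (X ⊗ Y)) r * a l) * w l =
          algebraMap (B Y V) (Fn (X ⊗ Y)) r * ∑ l, a l * w l
        simp only [Finset.mul_sum, mul_assoc]) }
  refine Module.Flat.of_retract i q (LinearMap.ext fun v => Subtype.ext ?_)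
  change ∑ l, β l * v * w l = v
  simp only [mul_right_comm _ (v : Fn (X ⊗ Y))]
  rw [← Finset.sum_mul, e, one_mul]

theorem Prod_fib_fst (t : Pt Y) (a : Fn X) : pb (fib X t) (pb (fst X Y) a) = a := by
  rw [← pb_comp, fib_fst, pb_id]
  rw [fib_fst, id_apply', O_gp]
  trivial

theorem Prod_fib_snd {t : Pt Y} {b : Fn Y} {c : k}
    (hc : b - algebraMap k (Fn Y) c ∈ mp Y (pt t) 1) :
    pb (fib X t) (pb (snd X Y) b) = algebraMap k (Fn X) c := by
  rw [← pb_comp, fib_snd, pb_const t hc]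
  rw [fib_snd, const_apply]
  simpa using add_mem (mem_O_of_mp hc) ((O Y (pt t)).algebraMap_mem c)

theorem fib_sub (hU : IsAffineOpen U) (hV : IsAffineOpen V) (gU : gp X ∈ U) {t : Pt Y}
    (ht : pt t ∈ V) {v : Fn (X ⊗ Y)} (hv : v ∈ B (X ⊗ Y) (box U V)) :
    v - pb (fst X Y) (pb (fib X t) v) ∈
      pr ht • GmR (B Y V) 0 (box U V) := by
  obtain ⟨n, a, b, ha, hb, rfl⟩ := box_gen hU hV gU (gp_mem ht) hv
  have hp := (fib_mem_box ht).2 gU
  have h1 : ∀ l, pb (fst X Y) (a l) ∈ B (X ⊗ Y) (box U V) := fun l => pb_mem_B inf_le_left (ha l)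
  have h2 : ∀ l, pb (snd X Y) (b l) ∈ B (X ⊗ Y) (box U V) := fun l => pb_mem_B inf_le_right (hb l)
  rw [pb_sum _ fun l _ => B_le_O hp (mul_mem (h1 l) (h2 l)),
    pb_sum _ fun l _ => (dom_fst X Y).mem _, ← Finset.sum_sub_distrib]
  refine sum_mem fun l _ => ?_
  obtain ⟨c, hc⟩ := exists_value t (B_le_O ht (hb l))
  have h3 := Submodule.smul_mem_smul
    ((mem_pr ht ⟨_, sub_mem (hb l) ((B Y V).algebraMap_mem c)⟩).2 hc)
    (Prod_mem_GmR.2 (mem_Gm_zero.2 (h1 l)))
  convert h3 using 1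
  rw [pb_mul (B_le_O hp (h1 l)) (B_le_O hp (h2 l)), Prod_fib_fst, Prod_fib_snd hc,
    pb_mul ((dom_fst X Y).mem _) ((dom_fst X Y).mem _), pb_algebraMap, Algebra.smul_def,
    baseAlg_apply, pb_sub ((dom_snd X Y).mem _) ((dom_snd X Y).mem _), pb_algebraMap]
  ring

theorem Prod_pbs_dual {Z Z' : Sch k} [IsIntegral Z.left] [IsIntegral Z'.left] {φ : Z' ⟶ Z}
    {M : Dv Z} {W : Z.left.Opens} (hp : φ.left (gp Z') ∈ W) {β v : Fn Z}
    (hβ : β ∈ Gm (-M) W) (hv : v ∈ Gm M W) : pb φ (β * v) = pbs φ (-M) β * pbs φ M v := by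
  rw [← pbs_mul (mem_Gm.1 hβ _ hp) (mem_Gm.1 hv _ hp), neg_add_cancel, pbs_zero_dv]

theorem fib_ker (hU : IsAffineOpen U) (hV : IsAffineOpen V) (gU : gp X ∈ U) {t : Pt Y}
    (ht : pt t ∈ V) (M : Dv (X ⊗ Y)) {v : Fn (X ⊗ Y)} (hv : v ∈ Gm M (box U V)) :
    pbs (fib X t) M v = 0 ↔
      v ∈ pr ht • GmR (B Y V) M (box U V) := by
  have hp := (fib_mem_box ht).2 gU
  constructor
  · intro h0
    obtain ⟨n, w, β, hw, hβ, e⟩ := Prod_dual hU hV gU (gp_mem ht) M
    have e' : v = ∑ l, β l * v * w l := by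
      simp only [mul_right_comm _ v]
      rw [← Finset.sum_mul, e, one_mul]
    rw [e']
    refine sum_mem fun l _ => ?_
    have h1 := fib_sub hU hV gU ht (Prod_mul_mem_B (hβ l) hv)
    rw [Prod_pbs_dual hp (hβ l) hv, h0, mul_zero, pb_zero, sub_zero] at h1
    refine Submodule.smul_induction_on (p := fun z => z * w l ∈ pr ht • GmR (B Y V) M (box U V))
      h1 (fun r hr c hc => ?_) fun a b ha hb => ?_
    · rw [smul_mul_assoc]
      exact Submodule.smul_mem_smul hr (Prod_mem_GmR.2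
        (B_mul_mem_Gm (mem_Gm_zero.1 (Prod_mem_GmR.1 hc)) (hw l)))
    · rw [add_mul]
      exact add_mem ha hb
  · intro h
    refine (Submodule.smul_induction_on
      (p := fun z => z ∈ Gm M (box U V) ∧ pbs (fib X t) M z = 0) h (fun r hr c hc => ?_)
      fun a b ha hb => ⟨add_mem ha.1 hb.1, ?_⟩).2
    · have hc' := Prod_mem_GmR.1 hc
      rw [Algebra.smul_def]
      refine ⟨B_mul_mem_Gm (baseAlg_mem r U) hc', ?_⟩
      rw [pbs_O_mul (B_le_O hp (baseAlg_mem r U)) (mem_Gm.1 hc' _ hp), baseAlg_apply,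
        Prod_fib_snd (c := 0) (by simpa using (mem_pr ht r).1 hr), map_zero, zero_mul]
    · rw [pbs_add (mem_Gm.1 ha.1 _ hp) (mem_Gm.1 hb.1 _ hp), ha.2, hb.2, add_zero]

theorem fib_surj (hU : IsAffineOpen U) (hV : IsAffineOpen V) (gU : gp X ∈ U) {t : Pt Y}
    (ht : pt t ∈ V) (M : Dv (X ⊗ Y)) {u : Fn X} (hu : u ∈ Gm (pl (fib X t) M) U) :
    ∃ v ∈ Gm M (box U V), pbs (fib X t) M v = u := by
  have hp := (fib_mem_box ht).2 gU
  obtain ⟨n, w, β, hw, hβ, e⟩ := Prod_dual hU hV gU (gp_mem ht) M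
  have h1 : ∀ l, pb (fst X Y) (pbs (fib X t) (-M) (β l) * u) ∈ B (X ⊗ Y) (box U V) := fun l => by
    refine pb_mem_B inf_le_left (Prod_mul_mem_B ?_ hu)
    rw [← map_neg]
    exact pbs_mem_Gm (U := box U V) (fun _ hx => (fib_mem_box ht).2 hx) (hβ l)
  have h2 : ∀ l, pb (fst X Y) (pbs (fib X t) (-M) (β l) * u) * w l ∈ Gm M (box U V) := fun l =>
    B_mul_mem_Gm (h1 l) (hw l)
  refine ⟨_, sum_mem fun l (_ : l ∈ Finset.univ) => h2 l, ?_⟩
  rw [pbs_sum _ fun l _ => mem_Gm.1 (h2 l) _ hp]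
  have h3 := congrArg (pb (fib X t)) e
  rw [pb_sum _ fun l _ => B_le_O hp (Prod_mul_mem_B (hβ l) (hw l)), pb_one] at h3
  conv_rhs => rw [← one_mul u, ← h3, Finset.sum_mul]
  refine Finset.sum_congr rfl fun l _ => ?_
  rw [pbs_O_mul (B_le_O hp (h1 l)) (mem_Gm.1 (hw l) _ hp), Prod_fib_fst,
    Prod_pbs_dual hp (hβ l) (hw l), mul_right_comm]

theorem eq_snd_sec (x₀ : Pt X) (gV : gp Y ∈ V) {h : Fn (X ⊗ Y)} (hh : h ∈ B (X ⊗ Y) (box ⊤ V)) :
    pb (snd X Y) (pb (sec Y x₀) h) = h := by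
  have hs : ∀ y ∈ V, (sec Y x₀).left y ∈ box ⊤ V := fun y hy =>
    (sec_mem_box (U := ⊤) trivial).2 hy
  have h1 : pb (snd X Y) (pb (sec Y x₀) h) ∈ B (X ⊗ Y) (box ⊤ V) :=
    pb_mem_B inf_le_right (pb_mem_B (U := box ⊤ V) hs hh)
  have h2 := sub_mem h1 hh
  have h3 : pb (sec Y x₀) (pb (snd X Y) (pb (sec Y x₀) h) - h) = 0 := by
    rw [pb_sub (B_le_O (hs _ gV) h1) (B_le_O (hs _ gV) hh), ← pb_comp, sec_snd, pb_id, sub_self]
    rw [sec_snd, id_apply', O_gp]
    trivial
  refine sub_eq_zero.1 (eq_zero_of_closed (gp_mem_box (U := ⊤) trivial gV) fun w hw hc => ?_)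
  generalize pb (snd X Y) (pb (sec Y x₀) h) - h = g at h2 h3
  have hc' := closed_image (snd X Y) _ hc
  rw [Set.image_singleton] at hc'
  obtain ⟨t, ht⟩ := exists_pt hc'
  obtain ⟨z, rfl⟩ := exists_fib t ht.symm
  have htV : pt t ∈ V := ht ▸ hw.2
  have hf : ∀ x, (fib X t).left x ∈ box ⊤ V := fun x => (fib_mem_box htV).2 trivial
  obtain ⟨c, hc₀⟩ := B_top (pb_mem_B (φ := fib X t) (U := box ⊤ V) (fun x _ => hf x) h2)
  have h4 : g ∈ mp (X ⊗ Y) ((fib X t).left (pt x₀)) 1 := by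
    rw [← pt_comp, pt_fib, pt_comp, ← pb_mem_mp_one (B_le_O (hs _ htV) h2), h3]
    exact zero_mem _
  have h5 := pb_mem_mp h4
  rw [← hc₀] at h5
  rw [← pb_mem_mp_one (B_le_O (hf z) h2), ← hc₀, value_unique h5, map_zero]
  exact zero_mem _

theorem Free.box {ι κ : Type} {H : Dv X} {H' : Dv Y} {s : ι → Fn X} {s' : κ → Fn Y}
    (hs : Free (fun _ => H) s) (hs' : Free (fun _ => H') s') :
    Free (fun _ : ι × κ => pld (dom_fst X Y) H + pld (dom_snd X Y) H')
      (fun α => pb (fst X Y) (s α.1) * pb (snd X Y) (s' α.2)) ∧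
    ∀ α : ι × κ, loc (pld (dom_fst X Y) H + pld (dom_snd X Y) H')
      (pb (fst X Y) (s α.1) * pb (snd X Y) (s' α.2)) = box (loc H (s α.1)) (loc H' (s' α.2)) := by
  have h1 := fun i => pb_mem_Gm_pld (V := ⊤) (dom_fst X Y) le_top (hs.mem i)
  have h2 := fun j => pb_mem_Gm_pld (V := ⊤) (dom_snd X Y) le_top (hs'.mem j)
  have h3 : ∀ α : ι × κ, loc (pld (dom_fst X Y) H + pld (dom_snd X Y) H')
      (pb (fst X Y) (s α.1) * pb (snd X Y) (s' α.2)) =
        MP_e57da2_ag.box (loc H (s α.1)) (loc H' (s' α.2)) := fun α => by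
    rw [loc_mul_top (h1 _) (h2 _), loc_pld _ (hs.mem _), loc_pld _ (hs'.mem _)]
    rfl
  refine ⟨⟨fun α => mul_mem_Gm (h1 _) (h2 _), fun α => mul_ne_zero
    ((map_ne_zero (pbF (dom_fst X Y))).2 (hs.ne _))
    ((map_ne_zero (pbF (dom_snd X Y))).2 (hs'.ne _)), fun w => ?_⟩, h3⟩
  obtain ⟨i, hi⟩ := hs.cov ((fst X Y).left w)
  obtain ⟨j, hj⟩ := hs'.cov ((snd X Y).left w)
  exact ⟨(i, j), (h3 (i, j)).ge ⟨hi, hj⟩⟩

theorem sdata_box {ι : Type} {H : Dv X} {s : ι → Fn X} (hs : Free (fun _ => H) s)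
    (aff : ∀ i, IsAffineOpen (loc H (s i))) (hV : IsAffineOpen V) (gV : gp Y ∈ V) :
    SData (B Y V) (box ⊤ V) (pld (dom_fst X Y) H) (fun i => pb (fst X Y) (s i)) ∧
      ∀ i, loc (pld (dom_fst X Y) H) (pb (fst X Y) (s i)) = box (loc H (s i)) ⊤ := by
  classical
  have h1 : ∀ i, loc (pld (dom_fst X Y) H) (pb (fst X Y) (s i)) = box (loc H (s i)) ⊤ := fun i => by
    rw [loc_pld _ (hs.mem i)]
    exact (inf_top_eq _).symm
  have h2 : ∀ i, box ⊤ V ⊓ loc (pld (dom_fst X Y) H) (pb (fst X Y) (s i)) = box (loc H (s i)) V :=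
    fun i => by rw [h1, box_inf, top_inf_eq, inf_top_eq]
  refine ⟨⟨gp_mem_box trivial gV, fun r => baseAlg_mem r ⊤,
    fun i => pb_mem_Gm_pld _ le_top (hs.mem i),
    fun i => (map_ne_zero (pbF (dom_fst X Y))).2 (hs.ne i), fun w _ => ?_,
    fun i => h2 i ▸ box_aff (aff i) hV, fun i => ?_⟩, h1⟩
  · obtain ⟨i, hi⟩ := hs.cov ((fst X Y).left w)
    exact ⟨i, (h1 i).ge ⟨hi, trivial⟩⟩
  rw [h2]
  obtain ⟨T, hT, hT'⟩ := finite_chart hs i (aff i)
  refine ⟨T.image (pb (fst X Y)), fun v hv => ?_, fun v hv => ?_⟩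
  · obtain ⟨a, ha, rfl⟩ := Finset.mem_image.1 hv
    exact pb_mem_B inf_le_left (hT a ha)
  set A := Algebra.adjoin (B Y V)
    (Set.range fun j => pb (fst X Y) (s j) / pb (fst X Y) (s i)) with hA
  have h3 : Algebra.adjoin k (Set.range fun j => s j / s i) ≤
      (A.restrictScalars k).comap (pbF (dom_fst X Y)) := Algebra.adjoin_le (by
    rintro _ ⟨j, rfl⟩
    change pbF (dom_fst X Y) (s j / s i) ∈ A
    rw [map_div₀]
    exact Algebra.subset_adjoin ⟨j, rfl⟩)
  have h4 : v ∈ Submodule.span A (T.image (pb (fst X Y)) : Set (Fn (X ⊗ Y))) := by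
    obtain ⟨n, a, b, ha, hb, rfl⟩ :=
      box_gen (aff i) hV (gp_mem_loc.2 (hs.ne i)) gV hv
    refine sum_mem fun l _ => ?_
    obtain ⟨c, hc, e⟩ := hT' _ (ha l)
    rw [← e, pb_sum _ fun _ _ => (dom_fst X Y).mem _, Finset.sum_mul]
    refine sum_mem fun w hw => ?_
    rw [pb_mul ((dom_fst X Y).mem _) ((dom_fst X Y).mem _), mul_right_comm]
    exact Submodule.smul_mem _ (⟨_, mul_mem (h3 (hc w)) (A.algebraMap_mem ⟨_, hb l⟩)⟩ : A)
      (Submodule.subset_span (Finset.mem_coe.2 (Finset.mem_image_of_mem _ hw)))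
  obtain ⟨c, -, e⟩ := Submodule.mem_span_finset.1 h4
  exact ⟨fun w => c w, fun w => (c w).2, e⟩

end Pool.Agent.Work.MP_e57da2_ag
end

-- merged part: Pool.Agent.Work.MP_e57da2_ag.CxFlat
section
/-!
# Flat base change for the complex, and lifting of sections

Plan.  `Ex.smul_of_flat`: let `C q` be the submodule of cochains of `F` supported in degree `q` (a finite
product of the `F S`, flat for `q ≥ 1`), `Z q ≤ C q` the cocycles.  `0 → Z q → C q → Z (q+1) → 0` is exact
(`Ex.graded`), `Z q = 0` for `q > card ι`.  Descending induction: `Z (q+1)` flat gives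
`Z q ⊓ I • C q = I • Z q` (`LinearMap.lTensor_injective_of_exact_of_flat` with `R ⧸ I`), and with `C q` flat also `Z q`
flat (ideal criterion `Module.Flat.iff_rTensor_injective'` or similar).  In degree `0`, `dd` is injective as soon as
`ι` is nonempty, `C 0 ≃ Z 1`; if `ι` is empty `F ∅ = ⊥`.  A cocycle in `I • C (q+1)` lies in `I • Z (q+1) = dd (I • C q)`.
`colon_of_flat`: `R ⧸ 𝔪 → R ⧸ J`, `x ↦ a x` is injective, tensor with the flat module.
`generic_retraction`: `V` is a vector space over the fraction field `L` of `R`; take an `L`-linear projection `ρ` onto the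
`L`-span of `E`, and `a ≠ 0` with `a • ρ p ∈ E` for the finitely many generators `p` of `P`.
`lift_core`: for each `l`, `Ex.exists_sub_mem` for `I • F₁` and `i ↦ σ l * e i` gives `u l` with `σ l * e i - u l ∈ I • F₁ {i}`;
`u l ∈ F₁ ∅` by `Ex.mem_empty`.  `ψ u (l, l') = σ l' * u l - σ l * u l'` lies in `I • F₂ {i}` for all `i`, so in `I • F₂ ∅`.
By the hypothesis `a • ψ u = ψ u'` with `u' ∈ I' • (F₁ ∅) ^ ι`; `w = a • u - u'` has `w l = σ l * e'` for one `e'`.
Artin-Rees is `Ideal.exists_pow_inf_eq_pow_smul` (in the finite module `ι × ι → F₂ ∅`).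
-/

open Finset

namespace Pool.Agent.Work.MP_e57da2_ag

variable {ι : Type} [LinearOrder ι] [Fintype ι] {R : Type} [CommRing R]

open TensorProduct in
theorem cxFlat_flat_ker {M N : Type} [AddCommGroup M] [AddCommGroup N] [Module R M] [Module R N]
    [Module.Flat R M] [Module.Flat R N] (f : M →ₗ[R] N) (hf : Function.Surjective f) :
    Module.Flat R (LinearMap.ker f) := by
  rw [Module.Flat.iff_rTensor_injective']
  intro I
  have h1 : Function.Injective ((LinearMap.ker f).subtype.lTensor I) :=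
    LinearMap.lTensor_injective_of_exact_of_flat f hf _ (LinearMap.ker f).subtype_injective
      (LinearMap.exact_subtype_ker_map f) I
  have h2 : Function.Injective (I.subtype.rTensor M) :=
    Module.Flat.iff_rTensor_injective'.mp inferInstance I
  have h3 : ((LinearMap.ker f).subtype.lTensor R) ∘ₗ (I.subtype.rTensor (LinearMap.ker f)) =
      (I.subtype.rTensor M) ∘ₗ ((LinearMap.ker f).subtype.lTensor I) := by
    rw [LinearMap.lTensor_comp_rTensor, LinearMap.rTensor_comp_lTensor]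
  have h4 : Function.Injective
      (((LinearMap.ker f).subtype.lTensor R) ∘ₗ (I.subtype.rTensor (LinearMap.ker f))) := by
    rw [h3, LinearMap.coe_comp]
    exact h2.comp h1
  rw [LinearMap.coe_comp] at h4
  exact h4.of_comp

/-- a product of submodules as a product of modules -/
def cxFlat_piEquiv {κ V : Type} [AddCommGroup V] [Module R V] (G : κ → Submodule R V) :
    (Submodule.pi Set.univ G) ≃ₗ[R] ((k : κ) → G k) where
  toFun c k := ⟨c.1 k, c.2 k trivial⟩
  map_add' _ _ := rfl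
  map_smul' _ _ := rfl
  invFun c := ⟨fun k => (c k).1, fun k _ => (c k).2⟩
  left_inv _ := rfl
  right_inv _ := rfl

theorem cxFlat_flat_pi {κ V : Type} [Fintype κ] [AddCommGroup V] [Module R V]
    (G : κ → Submodule R V) (h : ∀ k, Module.Flat R (G k)) :
    Module.Flat R (Submodule.pi Set.univ G) := by
  classical
  have : Module.Flat R (Π₀ k, G k) := Module.Flat.dfinsupp_iff.mpr h
  exact Module.Flat.of_linearEquiv
    ((cxFlat_piEquiv G).trans (DFinsupp.linearEquivFunOnFintype (R := R)).symm)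

theorem cxFlat_mem_smul_pi {κ V : Type} [Fintype κ] [AddCommGroup V] [Module R V]
    (G : κ → Submodule R V) (I : Ideal R) (c : κ → V) :
    c ∈ I • Submodule.pi Set.univ G ↔ ∀ k, c k ∈ I • G k := by
  classical
  constructor
  · intro hc k
    induction hc using Submodule.smul_induction_on' with
    | smul r hr m hm => exact Submodule.smul_mem_smul hr (hm k trivial)
    | add x _ y _ hx hy => exact add_mem hx hy
  · intro hc
    rw [← Finset.univ_sum_single c]
    refine Submodule.sum_mem _ fun k _ => ?_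
    have : ∀ v ∈ I • G k, (Pi.single k v : κ → V) ∈ I • Submodule.pi Set.univ G := by
      intro v hv
      induction hv using Submodule.smul_induction_on' with
      | smul r hr m hm =>
        rw [Pi.single_smul']
        refine Submodule.smul_mem_smul hr fun j _ => ?_
        by_cases hj : j = k
        · subst hj
          simpa using hm
        · simp [hj]
      | add x _ y _ hx hy =>
        rw [Pi.single_add]
        exact add_mem hx hy
    exact this _ (hc k)

/-- the differential as a linear map -/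
def cxFlat_D (ι : Type) [LinearOrder ι] (R : Type) [CommRing R] (V : Type) [AddCommGroup V]
    [Module R V] : (Finset ι → V) →ₗ[R] (Finset ι → V) where
  toFun := dd
  map_add' := map_add dd
  map_smul' a c := dd_smul a c

/-- cochains of degree `q` -/
def cxFlat_C {V : Type} [AddCommGroup V] [Module R V] (F : Finset ι → Submodule R V) (q : ℕ) :
    Submodule R (Finset ι → V) :=
  Submodule.pi Set.univ fun S => if S.card = q then F S else ⊥

/-- cocycles of degree `q` -/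
def cxFlat_Z {V : Type} [AddCommGroup V] [Module R V] (F : Finset ι → Submodule R V) (q : ℕ) :
    Submodule R (Finset ι → V) :=
  cxFlat_C F q ⊓ LinearMap.ker (cxFlat_D ι R V)

omit [LinearOrder ι] [Fintype ι] in
theorem cxFlat_mem_C {V : Type} [AddCommGroup V] [Module R V] {F : Finset ι → Submodule R V}
    {q : ℕ} {c : Finset ι → V} :
    c ∈ cxFlat_C F q ↔ Mem F c ∧ ∀ S, S.card ≠ q → c S = 0 := by
  constructor
  · intro h
    refine ⟨fun S => ?_, fun S hS => ?_⟩
    · have := h S trivial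
      by_cases hS : S.card = q
      · simpa [hS] using this
      · have h0 : c S = 0 := by simpa [hS] using this
        rw [h0]
        exact zero_mem _
    · simpa [hS] using h S trivial
  · rintro ⟨h1, h2⟩ S -
    by_cases hS : S.card = q
    · simpa [hS] using h1 S
    · simpa [hS] using h2 S hS

omit [Fintype ι] in
theorem cxFlat_map_C {V : Type} [AddCommGroup V] [Module R V] {F : Finset ι → Submodule R V}
    (hF : Monotone F) (h : Ex F) (q : ℕ) :
    (cxFlat_C F q).map (cxFlat_D ι R V) = cxFlat_Z F (q + 1) := by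
  apply le_antisymm
  · rintro _ ⟨c, hc, rfl⟩
    obtain ⟨h1, h2⟩ := cxFlat_mem_C.mp hc
    refine ⟨cxFlat_mem_C.mpr ⟨h1.dd hF, fun S hS => ?_⟩, dd_dd c⟩
    change dd c S = 0
    rw [dd_apply]
    refine Finset.sum_eq_zero fun i hi => ?_
    rw [h2 _ (by
      rw [Finset.card_erase_of_mem hi]
      have := Finset.card_pos.mpr ⟨i, hi⟩
      omega), smul_zero]
  · rintro c ⟨hc, hd⟩
    obtain ⟨h1, h2⟩ := cxFlat_mem_C.mp hc
    obtain ⟨b, hb, hb', hbc⟩ := h.graded h1 h2 hd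
    exact ⟨b, cxFlat_mem_C.mpr ⟨hb, hb'⟩, hbc⟩

/-- the surjection from cochains onto cocycles -/
def cxFlat_φ {V : Type} [AddCommGroup V] [Module R V] {F : Finset ι → Submodule R V}
    (hF : Monotone F) (h : Ex F) (q : ℕ) : cxFlat_C F q →ₗ[R] cxFlat_Z F (q + 1) :=
  (cxFlat_D ι R V).restrict fun _ hc => cxFlat_map_C hF h q ▸ Submodule.mem_map_of_mem hc

omit [Fintype ι] in
theorem cxFlat_φ_surj {V : Type} [AddCommGroup V] [Module R V] {F : Finset ι → Submodule R V}
    (hF : Monotone F) (h : Ex F) (q : ℕ) : Function.Surjective (cxFlat_φ hF h q) := by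
  rintro ⟨z, hz⟩
  rw [← cxFlat_map_C hF h q] at hz
  obtain ⟨c, hc, rfl⟩ := hz
  exact ⟨⟨c, hc⟩, rfl⟩

omit [Fintype ι] in
theorem cxFlat_φ_ker {V : Type} [AddCommGroup V] [Module R V] {F : Finset ι → Submodule R V}
    (hF : Monotone F) (h : Ex F) (q : ℕ) :
    (LinearMap.ker (cxFlat_φ hF h q)).map (cxFlat_C F q).subtype = cxFlat_Z F q := by
  ext c
  constructor
  · rintro ⟨⟨c, hc⟩, hk, rfl⟩
    exact ⟨hc, congrArg Subtype.val hk⟩
  · rintro ⟨hc, hk⟩
    exact ⟨⟨c, hc⟩, Subtype.ext hk, rfl⟩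

theorem cxFlat_flat_Z {V : Type} [AddCommGroup V] [Module R V] {F : Finset ι → Submodule R V}
    (hF : Monotone F) (h : Ex F) (fl : ∀ S, S.Nonempty → Module.Flat R (F S)) (q : ℕ) :
    Module.Flat R (cxFlat_Z F (q + 1)) := by
  have key : ∀ d q : ℕ, Fintype.card ι ≤ q + d → Module.Flat R (cxFlat_Z F (q + 1)) := by
    intro d
    induction d with
    | zero =>
      intro q hq
      have : cxFlat_Z F (q + 1) = ⊥ := by
        rw [eq_bot_iff]
        rintro c ⟨hc, -⟩
        rw [Submodule.mem_bot]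
        funext S
        refine (cxFlat_mem_C.mp hc).2 S ?_
        have := Finset.card_le_univ S
        omega
      rw [this]
      infer_instance
    | succ d ih =>
      intro q hq
      have h1 := ih (q + 1) (by omega)
      have h2 : Module.Flat R (cxFlat_C F (q + 1)) := by
        refine cxFlat_flat_pi _ fun S => ?_
        by_cases hS : S.card = q + 1
        · rw [if_pos hS]
          exact fl S (Finset.card_pos.mp (by omega))
        · rw [if_neg hS]
          infer_instance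
      have h3 := cxFlat_flat_ker _ (cxFlat_φ_surj hF h (q + 1))
      rw [← cxFlat_φ_ker hF h (q + 1)]
      exact Module.Flat.of_linearEquiv
        (Submodule.equivMapOfInjective _ (cxFlat_C F (q + 1)).subtype_injective _).symm
  exact key (Fintype.card ι) q (by omega)

theorem Ex.smul_of_flat {V : Type} [AddCommGroup V] [Module R V] {F : Finset ι → Submodule R V}
    (hF : Monotone F) (h : Ex F) (fl : ∀ S, S.Nonempty → Module.Flat R (F S)) (I : Ideal R) :
    Ex fun S => I • F S := by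
  refine Ex.of_graded fun q c hc hq hd => ?_
  have hc' : Mem F c := fun S => Submodule.smul_le_right (hc S)
  cases q with
  | zero =>
    refine ⟨0, fun S => zero_mem _, ?_⟩
    rw [map_zero]
    funext S
    by_cases hS : S = ∅
    · subst hS
      obtain ⟨b, -, hb⟩ := h c hc' hd
      rw [← hb, dd_empty]
      rfl
    · exact (hq S (by simpa using hS)).symm
  | succ q =>
    have h1 : c ∈ I • cxFlat_C F (q + 1) := by
      refine (cxFlat_mem_smul_pi _ I c).mpr fun S => ?_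
      by_cases hS : S.card = q + 1
      · rw [if_pos hS]
        exact hc S
      · rw [hq S hS]
        exact zero_mem _
    have hcC : c ∈ cxFlat_C F (q + 1) := Submodule.smul_le_right h1
    have := cxFlat_flat_Z hF h fl (q + 1)
    have h2 := LinearMap.ker_inf_smul_top_eq_smul_of_flat I _ (cxFlat_φ_surj hF h (q + 1))
    have h3 : (⟨c, hcC⟩ : cxFlat_C F (q + 1)) ∈ I • LinearMap.ker (cxFlat_φ hF h (q + 1)) := by
      rw [← h2]
      exact ⟨Subtype.ext hd, (Submodule.mem_smul_top_iff I _ _).mpr h1⟩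
    have h4 := Submodule.mem_map_of_mem (f := (cxFlat_C F (q + 1)).subtype) h3
    rw [Submodule.map_smul'', cxFlat_φ_ker, ← cxFlat_map_C hF h q, ← Submodule.map_smul''] at h4
    obtain ⟨b, hb, hbc⟩ := h4
    refine ⟨b, fun S => ?_, hbc⟩
    have h5 := (cxFlat_mem_smul_pi _ I b).mp hb S
    by_cases hS : S.card = q
    · rwa [if_pos hS] at h5
    · rw [if_neg hS, Submodule.smul_bot, Submodule.mem_bot] at h5
      rw [h5]
      exact zero_mem _

open TensorProduct in
theorem colon_of_flat {V : Type} [AddCommGroup V] [Module R V] {P : Submodule R V}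
    [Module.Flat R P] {𝔪 J : Ideal R} {a : R} (h : ∀ r, r * a ∈ J → r ∈ 𝔪)
    (h' : ∀ r ∈ 𝔪, r * a ∈ J) {v : V} (hv : v ∈ P) (ha : a • v ∈ J • P) : v ∈ 𝔪 • P := by
  let g : R →ₗ[R] R ⧸ J := J.mkQ ∘ₗ LinearMap.mulRight R a
  have hg : ∀ r, g r = Ideal.Quotient.mk J (r * a) := fun r => rfl
  have ex : Function.Exact 𝔪.subtype g := by
    intro r
    rw [hg, Ideal.Quotient.eq_zero_iff_mem]
    exact ⟨fun hr => ⟨⟨r, h r hr⟩, rfl⟩, fun ⟨x, hx⟩ => h' r (hx ▸ x.2)⟩
  have ex' := Module.Flat.rTensor_exact P ex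
  have hz : ∀ w ∈ J • (⊤ : Submodule R P), ((1 : R ⧸ J) ⊗ₜ[R] w : (R ⧸ J) ⊗[R] P) = 0 := by
    intro w hw
    induction hw using Submodule.smul_induction_on' with
    | smul r hr m _ =>
      have : r • (1 : R ⧸ J) = 0 := by
        rw [← Algebra.algebraMap_eq_smul_one]
        exact Ideal.Quotient.eq_zero_iff_mem.mpr hr
      rw [← TensorProduct.smul_tmul, this, TensorProduct.zero_tmul]
    | add x _ y _ hx hy => rw [TensorProduct.tmul_add, hx, hy, add_zero]
  have h1 : g.rTensor P ((1 : R) ⊗ₜ[R] (⟨v, hv⟩ : P)) = 0 := by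
    rw [LinearMap.rTensor_tmul, hg, one_mul]
    have : Ideal.Quotient.mk J a = a • (1 : R ⧸ J) := by
      rw [← Algebra.algebraMap_eq_smul_one]
      rfl
    rw [this, TensorProduct.smul_tmul]
    exact hz _ ((Submodule.mem_smul_top_iff J P _).mpr ha)
  obtain ⟨y, hy⟩ := (ex' _).mp h1
  apply (Submodule.mem_smul_top_iff 𝔪 P ⟨v, hv⟩).mp
  rw [← Ideal.subtype_rTensor_range]
  refine ⟨y, ?_⟩
  rw [LinearMap.comp_apply, hy]
  simp

theorem generic_retraction [IsDomain R] (L : Type) [Field L] [Algebra R L] [IsFractionRing R L]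
    {V : Type} [AddCommGroup V] [Module R V] [Module L V] [IsScalarTower R L V]
    {E P : Submodule R V} (hP : P.FG) :
    ∃ a : R, a ≠ 0 ∧ ∀ (I : Ideal R) (v : V), v ∈ E → v ∈ I • P → a • v ∈ I • E := by
  classical
  let E' : Submodule L V := Submodule.span L (E : Set V)
  obtain ⟨g, hg⟩ := E'.subtype.exists_leftInverse_of_injective (Submodule.ker_subtype E')
  let ρ : V →ₗ[R] V := (E'.subtype ∘ₗ g).restrictScalars R
  have hρ : ∀ v ∈ E, ρ v = v := by
    intro v hv
    have := LinearMap.congr_fun hg ⟨v, Submodule.subset_span hv⟩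
    exact congrArg Subtype.val this
  have h1 : ∀ w ∈ E', ∃ a : R, a ≠ 0 ∧ a • w ∈ E := by
    intro w hw
    induction hw using Submodule.span_induction with
    | mem x hx => exact ⟨1, one_ne_zero, by simpa using hx⟩
    | zero => exact ⟨1, one_ne_zero, by simp⟩
    | add x y _ _ hx hy =>
      obtain ⟨a, ha, hax⟩ := hx
      obtain ⟨b, hb, hby⟩ := hy
      refine ⟨a * b, mul_ne_zero ha hb, ?_⟩
      rw [smul_add]
      refine add_mem ?_ ?_
      · rw [mul_comm, mul_smul]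
        exact E.smul_mem _ hax
      · rw [mul_smul]
        exact E.smul_mem _ hby
    | smul l x _ hx =>
      obtain ⟨a, ha, hax⟩ := hx
      obtain ⟨⟨p, s⟩, hps⟩ := IsLocalization.surj (nonZeroDivisors R) l
      refine ⟨s * a, mul_ne_zero (nonZeroDivisors.ne_zero s.2) ha, ?_⟩
      have : ((s : R) * a) • l • x = p • a • x := by
        rw [mul_comm, mul_smul, ← algebraMap_smul L (s : R), smul_smul (algebraMap R L s),
          mul_comm (algebraMap R L s), hps, algebraMap_smul, smul_comm]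
      rw [this]
      exact E.smul_mem _ hax
  have h2 : ∃ a : R, a ≠ 0 ∧ ∀ p ∈ P, a • ρ p ∈ E := by
    obtain ⟨s, rfl⟩ := hP
    choose f hf using fun p : V => h1 (ρ p) (g p).2
    refine ⟨∏ p ∈ s, f p, Finset.prod_ne_zero_iff.mpr fun p _ => (hf p).1, fun p hp => ?_⟩
    induction hp using Submodule.span_induction with
    | mem x hx =>
      rw [← Finset.prod_erase_mul s f hx, mul_smul]
      exact E.smul_mem _ (hf x).2
    | zero => simp
    | add x y _ _ hx hy =>
      rw [map_add, smul_add]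
      exact add_mem hx hy
    | smul r x _ hx =>
      rw [map_smul, smul_comm]
      exact E.smul_mem _ hx
  obtain ⟨a, ha, h2⟩ := h2
  refine ⟨a, ha, fun I v hv hvI => ?_⟩
  rw [← hρ v hv]
  clear hv
  induction hvI using Submodule.smul_induction_on' with
  | smul r hr m hm =>
    rw [map_smul, smul_comm]
    exact Submodule.smul_mem_smul hr (h2 m hm)
  | add x _ y _ hx hy =>
    rw [map_add, smul_add]
    exact add_mem hx hy

/-- three twists `F₀, F₁ = F₀ (m), F₂ = F₀ (2 m)` of a family, with `σ l = s_l ^ m` -/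
structure LiftData (R : Type) [CommRing R] (K : Type) [Field K] [Algebra R K] (ι : Type)
    [LinearOrder ι] where
  σ : ι → K
  F₀ : Finset ι → Submodule R K
  F₁ : Finset ι → Submodule R K
  F₂ : Finset ι → Submodule R K
  ne : ∀ i, σ i ≠ 0
  mono₁ : Monotone F₁
  mono₂ : Monotone F₂
  mul₀ : ∀ l S v, v ∈ F₀ S → σ l * v ∈ F₁ S
  mul₁ : ∀ l S v, v ∈ F₁ S → σ l * v ∈ F₂ S
  div₀ : ∀ i v, σ i * v ∈ F₁ {i} → v ∈ F₀ {i}
  glue : ∀ v, (∀ i, v ∈ F₀ {i}) → v ∈ F₀ ∅
  ex₁ : Ex F₁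
  ex₂ : Ex F₂
  flat₁ : ∀ S, S.Nonempty → Module.Flat R (F₁ S)
  flat₂ : ∀ S, S.Nonempty → Module.Flat R (F₂ S)
  fg₁ : (F₁ ∅).FG
  fg₂ : (F₂ ∅).FG

variable {K : Type} [Field K] [Algebra R K] [Nonempty ι] (D : LiftData R K ι)

theorem cxFlat_mul_smul {A B : Submodule R K} {s : K} (h : ∀ v ∈ A, s * v ∈ B) (I : Ideal R)
    {v : K} (hv : v ∈ I • A) : s * v ∈ I • B := by
  induction hv using Submodule.smul_induction_on' with
  | smul r hr m hm =>
    rw [mul_smul_comm]
    exact Submodule.smul_mem_smul hr (h m hm)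
  | add x _ y _ hx hy =>
    rw [mul_add]
    exact add_mem hx hy

/-- the compatibility map -/
def cxFlat_ψ (R : Type) [CommRing R] [Algebra R K] (σ : ι → K) : (ι → K) →ₗ[R] (ι × ι → K) where
  toFun u p := σ p.2 * u p.1 - σ p.1 * u p.2
  map_add' u v := by
    funext p
    simp only [Pi.add_apply]
    ring
  map_smul' r u := by
    funext p
    simp only [Pi.smul_apply, RingHom.id_apply, mul_smul_comm, smul_sub]

theorem cxFlat_lift_core (I I' : Ideal R) (hI : I ≤ I') (a : R)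
    (H : ∀ v ∈ (Submodule.pi Set.univ fun _ : ι => D.F₁ ∅).map (cxFlat_ψ R D.σ),
      v ∈ I • (Submodule.pi Set.univ fun _ : ι × ι => D.F₂ ∅) →
        a • v ∈ I' • (Submodule.pi Set.univ fun _ : ι => D.F₁ ∅).map (cxFlat_ψ R D.σ))
    (e : ι → K) (he : ∀ i, e i ∈ D.F₀ {i}) (hee : ∀ i j, e i - e j ∈ I • D.F₀ {i, j}) :
    ∃ e' ∈ D.F₀ ∅, ∀ i, e' - a • e i ∈ I' • D.F₀ {i} := by
  have x1 := D.ex₁.smul_of_flat D.mono₁ D.flat₁ I
  have x2 := D.ex₂.smul_of_flat D.mono₂ D.flat₂ I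
  have h1 : ∀ l, ∃ u : K, ∀ i, D.σ l * e i - u ∈ I • D.F₁ {i} := fun l =>
    x1.exists_sub_mem (e := fun i => D.σ l * e i) fun i j => by
      rw [← mul_sub]
      exact cxFlat_mul_smul (D.mul₀ l _) I (hee i j)
  choose u hu using h1
  have h2 : ∀ l, u l ∈ D.F₁ ∅ := fun l => D.ex₁.mem_empty fun i => by
    have := sub_mem (D.mul₀ l _ _ (he i)) (Submodule.smul_le_right (hu l i))
    simpa using this
  have h3 : cxFlat_ψ R D.σ u ∈ I • (Submodule.pi Set.univ fun _ : ι × ι => D.F₂ ∅) := by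
    refine (cxFlat_mem_smul_pi _ I _).mpr fun p => x2.mem_empty fun i => ?_
    have : cxFlat_ψ R D.σ u p =
        D.σ p.1 * (D.σ p.2 * e i - u p.2) - D.σ p.2 * (D.σ p.1 * e i - u p.1) := by
      change D.σ p.2 * u p.1 - D.σ p.1 * u p.2 = _
      ring
    rw [this]
    exact sub_mem (cxFlat_mul_smul (D.mul₁ _ _) I (hu _ i)) (cxFlat_mul_smul (D.mul₁ _ _) I (hu _ i))
  have h4 := H _ (Submodule.mem_map_of_mem fun l _ => h2 l) h3
  rw [← Submodule.map_smul''] at h4
  obtain ⟨u', hu', hψ⟩ := h4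
  have h5 := (cxFlat_mem_smul_pi _ I' u').mp hu'
  obtain ⟨l₀⟩ := ‹Nonempty ι›
  have h6 : ∀ l, D.σ l * ((a • u l₀ - u' l₀) / D.σ l₀) = a • u l - u' l := by
    intro l
    have h7 := congrFun hψ (l, l₀)
    change D.σ l₀ * u' l - D.σ l * u' l₀ = a • (D.σ l₀ * u l - D.σ l * u l₀) at h7
    have := D.ne l₀
    simp only [Algebra.smul_def] at h7 ⊢
    field_simp
    linear_combination h7
  refine ⟨(a • u l₀ - u' l₀) / D.σ l₀, D.glue _ fun i => D.div₀ i _ ?_, fun i => ?_⟩
  · rw [h6]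
    exact D.mono₁ (Finset.empty_subset _)
      (sub_mem (Submodule.smul_mem _ _ (h2 i)) (Submodule.smul_le_right (h5 i)))
  · have h8 : D.σ i * ((a • u l₀ - u' l₀) / D.σ l₀ - a • e i) ∈ I' • D.F₁ {i} := by
      have : D.σ i * ((a • u l₀ - u' l₀) / D.σ l₀ - a • e i) =
          -(a • (D.σ i * e i - u i)) - u' i := by
        rw [mul_sub, h6]
        simp only [Algebra.smul_def]
        ring
      rw [this]
      exact sub_mem (neg_mem (Submodule.smul_mem _ _ (Submodule.smul_mono_left hI (hu i i))))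
        (Submodule.smul_mono le_rfl (D.mono₁ (Finset.empty_subset _)) (h5 i))
    have h9 := cxFlat_mul_smul (A := D.F₁ {i}) (B := D.F₀ {i}) (s := (D.σ i)⁻¹)
      (fun v hv => D.div₀ i _ (by rwa [mul_inv_cancel_left₀ (D.ne i)])) I' h8
    rwa [inv_mul_cancel_left₀ (D.ne i)] at h9

/-- formal sections of high order lift modulo `𝔪` -/
theorem LiftData.lift_adic [IsNoetherianRing R] (𝔪 : Ideal R) : ∃ n : ℕ, ∀ e : ι → K,
    (∀ i, e i ∈ D.F₀ {i}) → (∀ i j, e i - e j ∈ 𝔪 ^ n • D.F₀ {i, j}) →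
      ∃ e' ∈ D.F₀ ∅, ∀ i, e' - e i ∈ 𝔪 • D.F₀ {i} := by
  set P := (Submodule.pi Set.univ fun _ : ι × ι => D.F₂ ∅) with hP
  set E := (Submodule.pi Set.univ fun _ : ι => D.F₁ ∅).map (cxFlat_ψ R D.σ) with hE
  have hfg : P.FG := Submodule.fg_pi fun _ => D.fg₂
  have : Module.Finite R P := Module.Finite.iff_fg.mpr hfg
  obtain ⟨k, hk⟩ := 𝔪.exists_pow_inf_eq_pow_smul (E.comap P.subtype)
  refine ⟨k + 1, fun e he hee => ?_⟩
  have := cxFlat_lift_core D (𝔪 ^ (k + 1)) 𝔪 (Ideal.pow_le_self (Nat.succ_ne_zero k)) 1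
    (fun v hv hvI => by
      have hvP : v ∈ P := Submodule.smul_le_right hvI
      have h1 : (⟨v, hvP⟩ : P) ∈ 𝔪 ^ (k + 1) • ⊤ ⊓ E.comap P.subtype :=
        ⟨(Submodule.mem_smul_top_iff _ P _).mpr hvI, hv⟩
      rw [hk (k + 1) (by omega), Nat.add_sub_cancel_left, pow_one] at h1
      have h2 := Submodule.mem_map_of_mem (f := P.subtype) h1
      rw [Submodule.map_smul''] at h2
      rw [one_smul]
      refine Submodule.smul_mono le_rfl ?_ h2
      rintro _ ⟨x, hx, rfl⟩
      exact hx.2) e he hee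
  simpa only [one_smul] using this

/-- generically, sections on a fibre lift -/
theorem LiftData.lift_generic [IsDomain R] [FaithfulSMul R K] : ∃ a : R, a ≠ 0 ∧
    ∀ (I : Ideal R) (e : ι → K), (∀ i, e i ∈ D.F₀ {i}) → (∀ i j, e i - e j ∈ I • D.F₀ {i, j}) →
      ∃ e' ∈ D.F₀ ∅, ∀ i, e' - a • e i ∈ I • D.F₀ {i} := by
  let _ : Algebra (FractionRing R) K := FractionRing.liftAlgebra R K
  have : IsScalarTower R (FractionRing R) K := FractionRing.isScalarTower_liftAlgebra R K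
  obtain ⟨a, ha, H⟩ := generic_retraction (FractionRing R) (V := ι × ι → K)
    (E := (Submodule.pi Set.univ fun _ : ι => D.F₁ ∅).map (cxFlat_ψ R D.σ))
    (P := Submodule.pi Set.univ fun _ : ι × ι => D.F₂ ∅) (Submodule.fg_pi fun _ => D.fg₂)
  exact ⟨a, ha, fun I e he hee => cxFlat_lift_core D I I le_rfl a (H I) e he hee⟩

/-- induction over small extensions -/
theorem small_induction [IsNoetherianRing R] (𝔪 I₀ : Ideal R) (Φ : Ideal R → Prop) (base : Φ I₀)
    (step : ∀ (J : Ideal R) (a : R), J ≤ I₀ → a ∈ I₀ → a ∉ J → (∀ r ∈ 𝔪, r * a ∈ J) →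
      Φ (J ⊔ Ideal.span {a}) → Φ J) (n : ℕ) (J : Ideal R) (h₁ : 𝔪 ^ n ≤ J) (h₂ : J ≤ I₀) :
    Φ J := by
  classical
  induction J using IsNoetherian.induction with
  | hgt J ih =>
    by_cases hJ : I₀ ≤ J
    · rwa [le_antisymm h₂ hJ]
    have hex : ∃ k, 𝔪 ^ k * I₀ ≤ J := ⟨n, Ideal.mul_le_left.trans h₁⟩
    have hk := Nat.find_spec hex
    obtain ⟨k, hk'⟩ : ∃ k, Nat.find hex = k + 1 := Nat.exists_eq_succ_of_ne_zero fun h0 => by
      rw [h0, pow_zero, one_mul] at hk
      exact hJ hk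
    have hk2 : ¬ 𝔪 ^ k * I₀ ≤ J := Nat.find_min hex (by omega)
    obtain ⟨a, ha, haJ⟩ := SetLike.not_le_iff_exists.mp hk2
    have haI : a ∈ I₀ := Ideal.mul_le_right ha
    refine step J a h₂ haI haJ (fun r hr => hk ?_) (ih _ ?_ (h₁.trans le_sup_left) ?_)
    · rw [hk', pow_succ', mul_assoc]
      exact Ideal.mul_mem_mul hr ha
    · refine lt_of_le_of_ne le_sup_left fun h => haJ ?_
      rw [h]
      exact Ideal.mem_sup_right (Ideal.mem_span_singleton_self a)
    · exact sup_le h₂ ((Ideal.span_singleton_le_iff_mem _).mpr haI)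

end Pool.Agent.Work.MP_e57da2_ag
end

-- merged part: Pool.Agent.Work.MP_e57da2_ag.LocT
section
/-!
# Line bundles on `Z ⊗ T` which are locally trivial over `T`

Plans.  `exists_liftData`: `sdata_box`, `serre_rel` for `M` (choose `m ≥ a`, `m ≥ 1`; then `2 m ≥ a`), `σ i = (fst^* s i) ^ m`,
`F_j S = GmR R (M + (j m) • H') (box (S.inf U) V)`; flatness by `flat_Gm`, exactness by `Ex.congr` and `mem_GmR`; `mul_mem_Gm_iff`, `loc_pow`-like facts.
`locTriv_of_gen`: the complement of `loc M e` in `Z ⊗ T` is closed, so is its image under `snd` (`closed_image`); it misses `pt t` (`exists_fib`, `pbs_mem_loc`).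
`locTriv_of_formal`: `LiftData.lift_adic`, `fib_ker`.  `exists_locTriv`: take an affine `V`, `LiftData.lift_generic` gives `a ≠ 0`; choose a closed point `pt t ∈ V ⊓ ul a`;
lift a generator `ε` of the restriction to the fibre chart by chart (`fib_surj`, `fib_ker`); the lift `e'` restricts to `a(t) ε`.
`cl_eq_zero_of_locTriv`: let `ε` generate `pl (sec z₀) M`.  A generator `e` over `box ⊤ V'` can be normalised (multiply by `snd^* (ε / pbs (sec z₀) M e)`) so that
`pbs (sec z₀) M e = ε`; two normalised generators have a quotient `h ∈ B (box ⊤ (V' ⊓ V''))` with `sec^* h = 1`, so `h = 1` by `eq_snd_sec`.  Every point of `T` specialises to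
a closed point (`exists_closed_spec`, `exists_pt`).
-/

open CategoryTheory Limits AlgebraicGeometry TopologicalSpace MonoidalCategory
  CartesianMonoidalCategory

namespace Pool.Agent.Work.MP_e57da2_ag

variable {k : Type} [Field k] [IsAlgClosed k] {Z T : Sch k} [IsIntegral Z.left] [IsIntegral T.left]
  [IsIntegral (Z ⊗ T).left] [IsProper Z.hom] [IsProper T.hom] {ι : Type}

attribute [local instance] baseAlg
attribute [local instance 2000] IsScalarTower.left Submodule.module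

/-- `M` is trivial over a neighbourhood of `t` -/
def LocTriv (M : Dv (Z ⊗ T)) (t : T.left) : Prop :=
  ∃ V : T.left.Opens, t ∈ V ∧ TrivOn M (box ⊤ V)

variable {M : Dv (Z ⊗ T)} {V : T.left.Opens} {H : Dv Z} {s : ι → Fn Z}

omit [IsAlgClosed k] [IsIntegral Z.left] [IsIntegral T.left] [IsIntegral (Z ⊗ T).left]
  [IsProper Z.hom] [IsProper T.hom] in
theorem LocT_box_mono {U U' : Z.left.Opens} {V V' : T.left.Opens} (h : U ≤ U') (h' : V ≤ V') :
    box U V ≤ box U' V' := fun _ hw => ⟨h hw.1, h' hw.2⟩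

theorem LocT_pbs_eq {U : Z.left.Opens} (hU : IsAffineOpen U) (hV : IsAffineOpen V) (gU : gp Z ∈ U)
    {t : Pt T} (ht : pt t ∈ V) {a b : Fn (Z ⊗ T)} (ha : a ∈ Gm M (box U V))
    (hb : b ∈ Gm M (box U V)) (h : a - b ∈ pr ht • GmR (B T V) M (box U V)) :
    pbs (fib Z t) M a = pbs (fib Z t) M b := by
  have hg : (fib Z t).left (gp Z) ∈ box U V := (fib_mem_box ht).2 gU
  have h1 := (fib_ker hU hV gU ht M (sub_mem ha hb)).2 h
  rwa [pbs_sub (mem_secs.1 ha _ hg) (mem_secs.1 hb _ hg), sub_eq_zero] at h1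

theorem exists_liftData [Fintype ι] [LinearOrder ι] (hs : Free (fun _ => H) s)
    (aff : ∀ i, IsAffineOpen (loc H (s i))) (hV : IsAffineOpen V) (gV : gp T ∈ V)
    (M : Dv (Z ⊗ T)) : ∃ D : LiftData (B T V) (Fn (Z ⊗ T)) ι,
      ∀ S, D.F₀ S = GmR (B T V) M (box (S.inf fun i => loc H (s i)) V) := by
  have := aff_noeth hV gV
  obtain ⟨d, hl⟩ := sdata_box (Y := T) hs aff hV gV
  obtain ⟨a, ha⟩ := serre_rel d M
  have hR : ∀ (S : Finset ι) (D : Dv (Z ⊗ T)) (v : Fn (Z ⊗ T)),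
      v ∈ GmR (B T V) D (box (S.inf fun i => loc H (s i)) V) ↔
        v ∈ Gm D (box (S.inf fun i => loc H (s i)) V) := fun S D v =>
    Prod_mem_GmR (X := Z) (Y := T) (V := V)
  have hW : ∀ S : Finset ι,
      box ⊤ V ⊓ S.inf (fun i => loc (pld (dom_fst Z T) H) (pb (fst Z T) (s i))) =
        box (S.inf fun i => loc H (s i)) V := fun S => Dv_ext fun w => by
    rw [Opens.mem_inf, van_mem_inf, mem_box, mem_box, van_mem_inf]
    simp only [hl, mem_box]
    exact ⟨fun h => ⟨fun i hi => (h.2 i hi).1, h.1.2⟩,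
      fun h => ⟨⟨trivial, h.2⟩, fun i hi => ⟨h.1 i hi, trivial⟩⟩⟩
  have mono : ∀ D : Dv (Z ⊗ T),
      Monotone fun S : Finset ι => GmR (B T V) D (box (S.inf fun i => loc H (s i)) V) :=
    fun D S S' h => Submodule.span_mono (Gm_anti (LocT_box_mono (Finset.inf_mono h) le_rfl))
  have mul : ∀ (D : Dv (Z ⊗ T)) (l : ι) (S : Finset ι) (v : Fn (Z ⊗ T)),
      v ∈ GmR (B T V) D (box (S.inf fun i => loc H (s i)) V) →
      pb (fst Z T) (s l) ^ a * v ∈ GmR (B T V) (D + a • pld (dom_fst Z T) H)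
        (box (S.inf fun i => loc H (s i)) V) := fun D l S v hv => by
    rw [hR] at hv ⊢
    rw [add_comm]
    exact mul_mem_Gm (pow_mem_Gm (Gm_anti (LocT_box_mono le_top le_rfl) (d.mem l)) a) hv
  have ex : ∀ m, a ≤ m → Ex fun S : Finset ι => GmR (B T V) (M + m • pld (dom_fst Z T) H)
      (box (S.inf fun i => loc H (s i)) V) := fun m hm => (ha m hm).1.congr fun S v => by
    rw [hR, sys, hW]
    rfl
  have flat : ∀ (D : Dv (Z ⊗ T)) (S : Finset ι), S.Nonempty →
      Module.Flat (B T V) (GmR (B T V) D (box (S.inf fun i => loc H (s i)) V)) := fun D S hS =>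
    flat_Gm (aff_finset_inf aff hS) hV (gp_mem_inf (fun i => gp_mem_loc.2 (hs.ne i)) S) gV D
  have fg : ∀ m, a ≤ m → (GmR (B T V) (M + m • pld (dom_fst Z T) H)
      (box ((∅ : Finset ι).inf fun i => loc H (s i)) V)).FG := fun m hm => by
    rw [Finset.inf_empty]
    exact (ha m hm).2.1
  refine ⟨⟨fun i => pb (fst Z T) (s i) ^ a,
    fun S => GmR (B T V) M (box (S.inf fun i => loc H (s i)) V),
    fun S => GmR (B T V) (M + a • pld (dom_fst Z T) H) (box (S.inf fun i => loc H (s i)) V),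
    fun S => GmR (B T V) (M + (a + a) • pld (dom_fst Z T) H) (box (S.inf fun i => loc H (s i)) V),
    fun i => pow_ne_zero _ (d.ne i), mono _, mono _, mul M, fun l S v hv => ?_, fun i v hv => ?_,
    fun v hv => ?_, ex a le_rfl, ex _ (Nat.le_add_right a a), flat _, flat _, fg a le_rfl,
    fg _ (Nat.le_add_right a a)⟩, fun S => rfl⟩
  · rw [add_nsmul, ← add_assoc]
    exact mul _ l S v hv
  · rw [hR] at hv ⊢
    refine (mul_mem_Gm_iff fun w hw => ?_).1 hv
    rw [Finset.inf_singleton] at hw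
    have h1 : w ∈ loc (pld (dom_fst Z T) H) (pb (fst Z T) (s i)) := by
      rw [hl]
      exact ⟨hw.1, trivial⟩
    rw [mem_loc, f_nsmul, ← mul_pow]
    exact (mem_loc.1 h1).pow a
  · rw [hR]
    refine mem_Gm.2 fun w hw => ?_
    obtain ⟨i, hi⟩ := hs.cov ((fst Z T).left w)
    refine mem_Gm.1 ((hR _ _ _).1 (hv i)) w ?_
    rw [Finset.inf_singleton]
    exact ⟨hi, hw.2⟩

theorem trivOn_fib (h : TrivOn M (box ⊤ V)) {t : Pt T} (ht : pt t ∈ V) :
    cl (pl (fib Z t) M) = 0 :=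
  trivOn_top.1 (h.pl fun _ _ => (fib_mem_box ht).2 trivial)

theorem locTriv_of_gen {t : Pt T} (ht : pt t ∈ V) {e : Fn (Z ⊗ T)} (he : e ∈ Gm M (box ⊤ V))
    (h : ∀ z, z ∈ loc (pl (fib Z t) M) (pbs (fib Z t) M e)) : LocTriv M (pt t) := by
  have hc : IsClosed ((snd Z T).left '' (loc M e : Set (Z ⊗ T).left)ᶜ) :=
    closed_image (snd Z T) _ (loc M e).isOpen.isClosed_compl
  refine ⟨⟨_, hc.isOpen_compl⟩, ?_, e, fun w hw => ?_⟩
  · rintro ⟨w, hw, hwt⟩
    obtain ⟨z, rfl⟩ := exists_fib t hwt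
    exact hw ((pbs_mem_loc (mem_secs.1 he _ ((fib_mem_box ht).2 trivial))).1 (h z))
  · by_contra hn
    exact hw.2 ⟨w, hn, rfl⟩

theorem locTriv_of_formal [Finite ι] (hs : Free (fun _ => H) s)
    (aff : ∀ i, IsAffineOpen (loc H (s i))) (hV : IsAffineOpen V) {t : Pt T} (ht : pt t ∈ V)
    {ε : Fn Z} (hε : ∀ z, z ∈ loc (pl (fib Z t) M) ε)
    (h : ∀ n : ℕ, ∃ e : ι → Fn (Z ⊗ T), (∀ i, e i ∈ Gm M (box (loc H (s i)) V)) ∧
      (∀ i, pbs (fib Z t) M (e i) = ε) ∧
      ∀ i j, e i - e j ∈ pr ht ^ n • GmR (B T V) M (box (loc H (s i) ⊓ loc H (s j)) V)) :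
    LocTriv M (pt t) := by
  have := Fintype.ofFinite ι
  let _ : LinearOrder ι := LinearOrder.lift' (Fintype.equivFin ι) (Fintype.equivFin ι).injective
  have : Nonempty ι := ⟨(hs.cov (gp Z)).choose⟩
  have := aff_noeth hV (gp_mem ht)
  obtain ⟨D, hD⟩ := exists_liftData hs aff hV (gp_mem ht) M
  obtain ⟨n, hn⟩ := D.lift_adic (pr ht)
  obtain ⟨e, he, hε', hee⟩ := h n
  obtain ⟨e', he', h'⟩ := hn e
    (fun i => by
      rw [hD, Finset.inf_singleton]
      exact Submodule.subset_span (he i))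
    (fun i j => by
      rw [hD, Finset.inf_insert, Finset.inf_singleton]
      exact hee i j)
  rw [hD, Finset.inf_empty, Prod_mem_GmR (X := Z) (Y := T) (V := V)] at he'
  refine locTriv_of_gen ht he' fun z => ?_
  obtain ⟨i, hi⟩ := hs.cov z
  have h1 := h' i
  rw [hD, Finset.inf_singleton] at h1
  rw [LocT_pbs_eq (aff i) hV (gp_mem hi) ht (Gm_anti (LocT_box_mono le_top le_rfl) he') (he i) h1,
    hε']
  exact hε z

omit [IsAlgClosed k] [IsProper Z.hom] [IsProper T.hom] in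
theorem LocT_unit {t : Pt T} {a : Fn T} (ha : IsU T (pt t) a) (z : Z.left) :
    IsU (Z ⊗ T) ((fib Z t).left z) (pb (snd Z T) a) := by
  have h2 : IsU T ((snd Z T).left ((fib Z t).left z)) a := by
    rw [← comp_apply', fib_snd, const_apply]
    exact ha
  exact (pb_isU h2.1).2 h2

theorem LocT_sub_mem {U U' : Z.left.Opens} (hU : IsAffineOpen U) (hU' : IsAffineOpen U')
    (hV : IsAffineOpen V) (gU : gp Z ∈ U) (gU' : gp Z ∈ U') {t : Pt T} (ht : pt t ∈ V)
    {a b : Fn (Z ⊗ T)} (ha : a ∈ Gm M (box U V)) (hb : b ∈ Gm M (box U' V))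
    (h : pbs (fib Z t) M a = pbs (fib Z t) M b) :
    a - b ∈ pr ht • GmR (B T V) M (box (U ⊓ U') V) := by
  have hi : a ∈ Gm M (box (U ⊓ U') V) := Gm_anti (LocT_box_mono inf_le_left le_rfl) ha
  have hj : b ∈ Gm M (box (U ⊓ U') V) := Gm_anti (LocT_box_mono inf_le_right le_rfl) hb
  have g : gp Z ∈ U ⊓ U' := ⟨gU, gU'⟩
  have hg : (fib Z t).left (gp Z) ∈ box (U ⊓ U') V := (fib_mem_box ht).2 g
  refine (fib_ker (aff_inf hU hU') hV g ht M (sub_mem hi hj)).1 ?_
  rw [pbs_sub (mem_secs.1 hi _ hg) (mem_secs.1 hj _ hg), h, sub_self]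

theorem LocT_exists [Fintype ι] [LinearOrder ι] (hs : Free (fun _ => H) s)
    (aff : ∀ i, IsAffineOpen (loc H (s i))) (h : ∀ t : Pt T, cl (pl (fib Z t) M) = 0) :
    ∃ t : Pt T, LocTriv M (pt t) := by
  obtain ⟨V, hV, gV, -⟩ := exists_aff (W := ⊤) (x := gp T) trivial
  have : Nonempty ι := ⟨(hs.cov (gp Z)).choose⟩
  have gU : ∀ i, gp Z ∈ loc H (s i) := fun i => gp_mem_loc.2 (hs.ne i)
  obtain ⟨D, hD⟩ := exists_liftData hs aff hV gV M
  obtain ⟨a, ha, hl⟩ := D.lift_generic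
  have ga : gp T ∈ V ⊓ ul (a : Fn T) := ⟨gV, isU_gp.2 fun h0 => ha (Subtype.ext h0)⟩
  obtain ⟨y, hy, -, hc⟩ := exists_closed_spec_mem ga
  obtain ⟨t, rfl⟩ := exists_pt hc
  have ht : pt t ∈ V := hy.1
  obtain ⟨ε, hε⟩ := cl_eq_zero.1 (h t)
  have h3 : ∀ i, ∃ v ∈ Gm M (box (loc H (s i)) V), pbs (fib Z t) M v = ε := fun i =>
    fib_surj (aff i) hV (gU i) ht M (mem_Gm.2 fun z _ => (hε z).1)
  choose e he hε' using h3
  obtain ⟨e', he', h'⟩ := hl (pr ht) e
    (fun i => by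
      rw [hD, Finset.inf_singleton]
      exact Submodule.subset_span (he i))
    (fun i j => by
      rw [hD, Finset.inf_insert, Finset.inf_singleton]
      exact LocT_sub_mem (aff i) (aff j) hV (gU i) (gU j) ht (he i) (he j)
        ((hε' i).trans (hε' j).symm))
  rw [hD, Finset.inf_empty, Prod_mem_GmR (X := Z) (Y := T) (V := V)] at he'
  refine ⟨t, locTriv_of_gen ht he' fun z => ?_⟩
  obtain ⟨i, hi⟩ := hs.cov z
  have h1 := h' i
  rw [hD, Finset.inf_singleton, Algebra.smul_def a, baseAlg_apply] at h1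
  have hz : (fib Z t).left z ∈ box (loc H (s i)) V := (fib_mem_box ht).2 hi
  have hu : IsU (Z ⊗ T) ((fib Z t).left z) (pb (snd Z T) a) := LocT_unit hy.2 z
  have h4 : pb (snd Z T) a * e i ∈ Gm M (box (loc H (s i)) V) :=
    B_mul_mem_Gm (baseAlg_mem a _) (he i)
  rw [LocT_pbs_eq (aff i) hV (gU i) ht (Gm_anti (LocT_box_mono le_top le_rfl) he') h4 h1,
    pbs_O_mul hu.1 (mem_secs.1 (he i) _ hz), hε', mem_loc, mul_assoc]
  exact ((pb_isU hu.1).2 hu).mul (hε z)

theorem exists_locTriv (hH : Amp H) (h : ∀ t : Pt T, cl (pl (fib Z t) M) = 0) :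
    ∃ t : Pt T, LocTriv M (pt t) := by
  obtain ⟨m, n, s, -, hs, aff⟩ := hH.exists_free
  exact LocT_exists hs aff h

omit [IsAlgClosed k] [IsProper Z.hom] [IsProper T.hom] in
theorem LocT_norm (z₀ : Pt Z) (gV : gp T ∈ V) (h : TrivOn M (box ⊤ V)) {ε : Fn T}
    (hε : ∀ y, IsU T y (ε * (pl (sec T z₀) M).f y)) :
    ∃ e, box ⊤ V ≤ loc M e ∧ pbs (sec T z₀) M e = ε := by
  obtain ⟨e, he⟩ := h
  have hb : ∀ y ∈ V, (sec T z₀).left y ∈ box ⊤ V := fun y hy =>
    (sec_mem_box (x := z₀) (U := ⊤) trivial).2 hy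
  have hp : ∀ y ∈ V, IsU T y (pbs (sec T z₀) M e * (pl (sec T z₀) M).f y) := fun y hy =>
    (pbs_mem_loc (mem_loc.1 (he (hb y hy))).1).2 (he (hb y hy))
  have hu : ∀ y ∈ V, IsU T y (ε / pbs (sec T z₀) M e) := fun y hy => by
    have h1 := (hε y).div (hp y hy)
    rwa [mul_div_mul_right _ _ ((pl (sec T z₀) M).ne y)] at h1
  have hw : ∀ w ∈ box ⊤ V, IsU (Z ⊗ T) w (pb (snd Z T) (ε / pbs (sec T z₀) M e)) := fun w hw =>
    (pb_isU (hu _ hw.2).1).2 (hu _ hw.2)
  refine ⟨pb (snd Z T) (ε / pbs (sec T z₀) M e) * e, fun w hw' => ?_, ?_⟩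
  · rw [mem_loc, mul_assoc]
    exact (hw w hw').mul (he hw')
  · have h1 : ε / pbs (sec T z₀) M e ∈ O T ((sec T z₀ ≫ snd Z T).left (gp T)) := by
      rw [sec_snd, id_apply', O_gp]
      trivial
    rw [pbs_O_mul (hw _ (hb _ gV)).1 (mem_loc.1 (he (hb _ gV))).1, ← pb_comp _ h1, sec_snd, pb_id,
      div_mul_cancel₀ _ (left_ne_zero_of_mul (hp _ gV).ne_zero)]

theorem LocT_uniq (z₀ : Pt Z) (gV : gp T ∈ V) {e e' : Fn (Z ⊗ T)} (he : box ⊤ V ≤ loc M e)
    (he' : box ⊤ V ≤ loc M e') (h : pbs (sec T z₀) M e = pbs (sec T z₀) M e') : e = e' := by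
  have hb : (sec T z₀).left (gp T) ∈ box ⊤ V := (sec_mem_box (x := z₀) (U := ⊤) trivial).2 gV
  have h0 : e' ≠ 0 := left_ne_zero_of_mul (mem_loc.1 (he' hb)).ne_zero
  have hq : e / e' ∈ B (Z ⊗ T) (box ⊤ V) := (ul_div (Gm_anti he (mem_Gm_loc M e)) he').1
  have hp : pbs (sec T z₀) M e' ≠ 0 :=
    left_ne_zero_of_mul (mem_loc.1 ((pbs_mem_loc (mem_loc.1 (he' hb)).1).2 (he' hb))).ne_zero
  have h1 := pbs_O_mul (D := M) (mem_B.1 hq _ hb) (mem_loc.1 (he' hb)).1
  rw [div_mul_cancel₀ _ h0, h, eq_comm, mul_eq_right₀ hp] at h1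
  have h2 := eq_snd_sec z₀ gV hq
  rw [h1, pb_one, eq_comm, div_eq_one_iff_eq h0] at h2
  exact h2

theorem cl_eq_zero_of_locTriv (h : ∀ t : Pt T, LocTriv M (pt t)) (z₀ : Pt Z)
    (h₀ : cl (pl (sec T z₀) M) = 0) : cl M = 0 := by
  obtain ⟨ε, hε⟩ := cl_eq_zero.1 h₀
  choose W hW hWt using h
  choose e he hε' using fun t => LocT_norm z₀ (gp_mem (hW t)) (hWt t) hε
  have hp : ∀ y : T.left, ∃ t, y ∈ W t := fun y => by
    obtain ⟨y', hy, hc⟩ := exists_closed_spec y
    obtain ⟨t, rfl⟩ := exists_pt hc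
    exact ⟨t, hy.mem_open (W t).isOpen (hW t)⟩
  obtain ⟨t₀, -⟩ := hp (gp T)
  refine cl_eq_zero.2 ⟨e t₀, fun w => ?_⟩
  obtain ⟨t, ht⟩ := hp ((snd Z T).left w)
  have h1 : e t₀ = e t := LocT_uniq z₀ (V := W t₀ ⊓ W t) ⟨gp_mem (hW t₀), gp_mem (hW t)⟩
    ((LocT_box_mono le_rfl inf_le_left).trans (he t₀))
    ((LocT_box_mono le_rfl inf_le_right).trans (he t)) ((hε' t₀).trans (hε' t).symm)
  rw [h1]
  exact he t ⟨trivial, ht⟩

end Pool.Agent.Work.MP_e57da2_ag
end
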