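import Pool.Agent.Work.MP_e57da2_ag.LocT
import Pool.Agent.Work.MP_e57da2_ag.Char
import Pool.Agent.Work.MP_e57da2_ag.Stmt
import Pool.Agent.Work.MP_910138_ag.GPush
import Pool.Agent.Work.MP_e57da2_ag.Cech
import Pool.Agent.Work.MP_e57da2_ag.Rk3

-- merged part: Pool.Agent.Work.MP_e57da2_ag.Form
section
/-!
# Functions on infinitesimal neighbourhoods of a fibre

Plans.  `formal_const`: `small_induction` with `I₀ = ⊤` (`ρ = 0`).  Step: `u i - ρ' = a • v i` mod `J`, `a • (v i - v i') ∈ J • _`, so (`colon_of_flat`, `flat_Gm`; `(J : a) = 𝔪` because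
`𝔪 = pr ht` is maximal and `a ∉ J`) `v i - v i' ∈ 𝔪 • _`, the restrictions `pb (fib t) (v i)` agree (`fib_ker` with `M = 0`, `pbs_zero_dv`), give an element of `B X ⊤`, a constant `γ`;
take `ρ = ρ' + γ a`.
`obstruction_restrict`: let `κ = φ ▷ T`, `ε₁` a generator of `pl κ M`, `u i = pbs κ M (e i) / ε₁`, `c' i i' = pbs κ M (c i i') / ε₁`; `pbs κ M` is linear over `B T V`
(`κ ≫ snd = snd`, `pbs_O_mul`, `pb_comp`).  `formal_const` with `I = J ⊔ span {a}`, then `colon_of_flat` give `v i` with `v i - v i' - c' i i' ∈ 𝔪 • _`.  Finally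
`fib X t ≫ κ = φ ≫ fib Z t`, `pbs_comp`, `pl_comp`: `pbs (fib X t) _ ε₁` and `pbs φ _ ε` generate the same divisor, so their quotient is a constant.
-/

open CategoryTheory Limits AlgebraicGeometry TopologicalSpace MonoidalCategory
  CartesianMonoidalCategory

namespace Pool.Agent.Work.MP_e57da2_ag

section alg

variable {R N : Type} [CommRing R] [AddCommGroup N] [Module R N] {P : Submodule R N}
  {𝔪 J : Ideal R} {a : R}

theorem Form_split {x : N} (hx : x ∈ (J ⊔ Ideal.span {a}) • P) :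
    ∃ v ∈ P, x - a • v ∈ J • P := by
  rw [Submodule.sup_smul, Submodule.ideal_span_singleton_smul] at hx
  obtain ⟨y, hy, z, hz, rfl⟩ := Submodule.mem_sup.1 hx
  obtain ⟨v, hv, rfl⟩ := (Submodule.mem_smul_pointwise_iff_exists _ _ _).1 hz
  exact ⟨v, hv, by simpa using hy⟩

theorem Form_colon (h𝔪 : 𝔪.IsMaximal) (ha : a ∉ J) (ha' : ∀ r ∈ 𝔪, r * a ∈ J) (r : R)
    (hr : r * a ∈ J) : r ∈ 𝔪 := by
  by_contra h
  obtain ⟨y, m, hm, e⟩ := h𝔪.exists_inv h
  refine ha ?_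
  have : a = y * (r * a) + m * a := by rw [← mul_assoc, ← add_mul, e, one_mul]
  rw [this]
  exact add_mem (J.mul_mem_left y hr) (ha' m hm)

theorem Form_smul (ha' : ∀ r ∈ 𝔪, r * a ∈ J) {v : N} (hv : v ∈ 𝔪 • P) : a • v ∈ J • P := by
  refine Submodule.smul_induction_on hv (fun r hr x hx => ?_) fun x y hx hy => ?_
  · rw [smul_smul, mul_comm]
    exact Submodule.smul_mem_smul (ha' r hr) hx
  · rw [smul_add]
    exact add_mem hx hy

private theorem Form_mr {P' : Submodule R N} (h : P ≤ P') {v : N} (hv : v ∈ J • P) : v ∈ J • P' :=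
  Submodule.smul_mono le_rfl h hv

private theorem Form_ml (h : J ≤ 𝔪) {v : N} (hv : v ∈ J • P) : v ∈ 𝔪 • P :=
  Submodule.smul_mono_left h hv

end alg

theorem Form_pb_div {k : Type} [Field k] {X Y : Sch k} [IsIntegral X.left] [IsIntegral Y.left]
    (f : Y ⟶ X) {D : Dv X} {s ε : Fn X} (hs : s ∈ st D (f.left (gp Y)))
    (hε : f.left (gp Y) ∈ loc D ε) : pb f (s / ε) = pbs f D s / pbs f D ε := by
  rw [pbs, pbs, ← pb_div (y := gp Y) (mem_st.1 hs) (mem_loc.1 hε), mul_div_mul_right _ _ (D.ne _)]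

variable {k : Type} [Field k] [IsAlgClosed k] {X Z T : Sch k} [IsIntegral X.left]
  [IsIntegral T.left] [IsIntegral (X ⊗ T).left] [IsProper X.hom] [IsProper T.hom] {ι : Type}
  {U : ι → X.left.Opens} {V : T.left.Opens}

attribute [local instance] baseAlg
attribute [local instance 2000] IsScalarTower.left Submodule.module

theorem Form_mem {U : X.left.Opens} {M : Dv (X ⊗ T)} {v : Fn (X ⊗ T)} :
    v ∈ GmR (B T V) M (box U V) ↔ v ∈ Gm M (box U V) :=
  Prod_mem_GmR (X := X) (Y := T) (V := V)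

theorem Form_mem0 {U : X.left.Opens} {v : Fn (X ⊗ T)} :
    v ∈ GmR (B T V) 0 (box U V) ↔ v ∈ B (X ⊗ T) (box U V) := Form_mem.trans mem_Gm_zero

theorem Form_anti {U U' : X.left.Opens} (h : U ≤ U') (M : Dv (X ⊗ T)) :
    GmR (B T V) M (box U' V) ≤ GmR (B T V) M (box U V) :=
  Submodule.span_mono (Gm_anti fun _ hw => ⟨h hw.1, hw.2⟩)

theorem Form_ker {U : X.left.Opens} (hU : IsAffineOpen U) (gU : gp X ∈ U) (hV : IsAffineOpen V)
    {t : Pt T} (ht : pt t ∈ V) {J : Ideal (B T V)} {a : B T V} (ha : a ∉ J)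
    (ha' : ∀ r ∈ pr ht, r * a ∈ J) {w : Fn (X ⊗ T)} (hw : w ∈ GmR (B T V) 0 (box U V))
    (h : a • w ∈ J • GmR (B T V) 0 (box U V)) : pb (fib X t) w = 0 := by
  have := flat_Gm hU hV gU (gp_mem ht) (0 : Dv (X ⊗ T))
  rw [← pbs_zero_dv, fib_ker hU hV gU ht 0 (Form_mem.1 hw)]
  exact colon_of_flat (Form_colon (pr_maximal hV ht (pt_closed t)) ha ha') ha' hw h

theorem Form_O {U : X.left.Opens} {t : Pt T} (ht : pt t ∈ V) {x : X.left} (hx : x ∈ U)
    {w : Fn (X ⊗ T)} (hw : w ∈ GmR (B T V) 0 (box U V)) : w ∈ O (X ⊗ T) ((fib X t).left x) :=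
  mem_B.1 (Form_mem0.1 hw) _ ((fib_mem_box ht).2 hx)

theorem formal_const (hU : Cover U) (hV : IsAffineOpen V) {t : Pt T} (ht : pt t ∈ V) {n : ℕ}
    {I : Ideal (B T V)} (hI : pr ht ^ n ≤ I) {u : ι → Fn (X ⊗ T)}
    (hu : ∀ i, u i ∈ B (X ⊗ T) (box (U i) V))
    (h : ∀ i j, u i - u j ∈ I • GmR (B T V) 0 (box (U i ⊓ U j) V)) :
    ∃ ρ : B T V, ∀ i, u i - algebraMap (B T V) (Fn (X ⊗ T)) ρ ∈
      I • GmR (B T V) 0 (box (U i) V) := by
  have := aff_noeth hV (gp_mem ht)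
  refine small_induction (pr ht) ⊤
    (fun I => (∀ i j, u i - u j ∈ I • GmR (B T V) 0 (box (U i ⊓ U j) V)) →
      ∃ ρ : B T V, ∀ i, u i - algebraMap (B T V) (Fn (X ⊗ T)) ρ ∈
        I • GmR (B T V) 0 (box (U i) V)) (fun _ => ⟨0, fun i => ?_⟩)
    (fun J a _ _ ha ha' ih h => ?_) n I hI le_top h
  · rw [map_zero, sub_zero, Submodule.top_smul]
    exact Form_mem0.2 (hu i)
  obtain ⟨ρ, hρ⟩ := ih fun i j => Form_ml le_sup_left (h i j)
  choose v hv hv' using fun i => Form_split (hρ i)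
  have key : ∀ i j, pb (fib X t) (v i) = pb (fib X t) (v j) := fun i j => by
    rw [← sub_eq_zero, ← pb_sub (Form_O ht (hU.gp i) (hv i)) (Form_O ht (hU.gp j) (hv j))]
    refine Form_ker (aff_inf (hU.aff i) (hU.aff j)) ⟨hU.gp i, hU.gp j⟩ hV ht ha ha'
      (sub_mem (Form_anti inf_le_left 0 (hv i)) (Form_anti inf_le_right 0 (hv j))) ?_
    convert add_mem (sub_mem (h i j)
      (Form_mr (Form_anti inf_le_left 0) (hv' i)))
      (Form_mr (Form_anti inf_le_right 0) (hv' j)) using 1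
    rw [smul_sub]
    abel
  obtain ⟨i₀, -⟩ := hU.cov (gp X)
  obtain ⟨γ, hγ⟩ := B_top (h := pb (fib X t) (v i₀)) (mem_B.2 fun x _ => by
    obtain ⟨i, hi⟩ := hU.cov x
    rw [key i₀ i]
    exact pb_mem_O (Form_O ht hi (hv i)))
  refine ⟨ρ + a * algebraMap k _ γ, fun i => ?_⟩
  have h1 : algebraMap k (Fn (X ⊗ T)) γ ∈ GmR (B T V) 0 (box (U i) V) :=
    Form_mem0.2 (Subalgebra.algebraMap_mem _ γ)
  have h2 : v i - algebraMap k (Fn (X ⊗ T)) γ ∈ pr ht • GmR (B T V) 0 (box (U i) V) := by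
    rw [← fib_ker (hU.aff i) hV (hU.gp i) ht 0 (Form_mem.1 (sub_mem (hv i) h1)), pbs_zero_dv,
      pb_sub (Form_O ht (hU.gp i) (hv i)) (Form_O ht (hU.gp i) h1), pb_algebraMap, hγ, key i i₀,
      sub_self]
  convert add_mem (hv' i) (Form_smul ha' h2) using 1
  rw [map_add, map_mul, ← IsScalarTower.algebraMap_apply, smul_sub, Algebra.smul_def,
    Algebra.smul_def]
  abel

section restrict

variable [IsIntegral Z.left] [IsIntegral (Z ⊗ T).left] [IsProper Z.hom] {φ : X ⟶ Z}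
  {M : Dv (Z ⊗ T)} {U' : X.left.Opens} {W' : Z.left.Opens}

omit [IsAlgClosed k] [IsIntegral X.left] [IsIntegral T.left] [IsIntegral (X ⊗ T).left]
  [IsProper X.hom] [IsProper T.hom] [IsIntegral Z.left] [IsIntegral (Z ⊗ T).left]
  [IsProper Z.hom] in
theorem Form_box_le (hW : U' ≤ φ.left ⁻¹ᵁ W') :
    box U' V ≤ (φ ▷ T).left ⁻¹ᵁ box W' V := fun w hw => by
  refine mem_box.2 ⟨?_, ?_⟩
  · rw [← comp_apply', whiskerRight_fst, comp_apply']
    exact hW hw.1
  · rw [← comp_apply', whiskerRight_snd]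
    exact hw.2

theorem Form_lin (hW : U' ≤ φ.left ⁻¹ᵁ W') (gU : gp X ∈ U') (gV : gp T ∈ V) (r : B T V)
    {v : Fn (Z ⊗ T)} (hv : v ∈ Gm M (box W' V)) :
    pbs (φ ▷ T) M (r • v) = r • pbs (φ ▷ T) M v := by
  have hg := Form_box_le hW (gp_mem_box gU gV)
  rw [Algebra.smul_def, Algebra.smul_def,
    pbs_O_mul (mem_B.1 (baseAlg_mem r W') _ hg) (mem_secs.1 hv _ hg), baseAlg_apply,
    baseAlg_apply, ← pb_comp, whiskerRight_snd]
  rw [whiskerRight_snd]
  exact (dom_snd X T).mem _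

omit [IsIntegral Z.left] [IsProper Z.hom] in
theorem Form_div_mem (hW : U' ≤ φ.left ⁻¹ᵁ W') {ε₁ : Fn (X ⊗ T)}
    (h₁ : ∀ w, w ∈ loc (pl (φ ▷ T) M) ε₁) {v : Fn (Z ⊗ T)} (hv : v ∈ Gm M (box W' V)) :
    pbs (φ ▷ T) M v / ε₁ ∈ GmR (B T V) 0 (box U' V) :=
  Form_mem0.2 (ul_div (pbs_mem_Gm (Form_box_le hW) hv) fun w _ => h₁ w).1

theorem Form_div_smul (hW : U' ≤ φ.left ⁻¹ᵁ W') (gU : gp X ∈ U') (gV : gp T ∈ V)
    {ε₁ : Fn (X ⊗ T)} (h₁ : ∀ w, w ∈ loc (pl (φ ▷ T) M) ε₁) {J : Ideal (B T V)} {v : Fn (Z ⊗ T)}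
    (hv : v ∈ J • GmR (B T V) M (box W' V)) :
    pbs (φ ▷ T) M v / ε₁ ∈ J • GmR (B T V) 0 (box U' V) := by
  have hg := Form_box_le hW (gp_mem_box gU gV)
  refine (Submodule.smul_induction_on (p := fun v => v ∈ GmR (B T V) M (box W' V) ∧
    pbs (φ ▷ T) M v / ε₁ ∈ J • GmR (B T V) 0 (box U' V)) hv (fun r hr x hx => ⟨?_, ?_⟩)
    fun x y hx hy => ⟨add_mem hx.1 hy.1, ?_⟩).2
  · exact Submodule.smul_mem _ r hx
  · rw [Form_lin hW gU gV r (Form_mem.1 hx), smul_div_assoc]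
    exact Submodule.smul_mem_smul hr (Form_div_mem hW h₁ (Form_mem.1 hx))
  · rw [pbs_add (mem_secs.1 (Form_mem.1 hx.1) _ hg) (mem_secs.1 (Form_mem.1 hy.1) _ hg), add_div]
    exact add_mem hx.2 hy.2

end restrict

theorem obstruction_restrict [IsIntegral Z.left] [IsIntegral (Z ⊗ T).left] [IsProper Z.hom]
    (φ : X ⟶ Z) (hU : Cover U) (hV : IsAffineOpen V) {t : Pt T} (ht : pt t ∈ V)
    {M : Dv (Z ⊗ T)} (hM : cl (pl (φ ▷ T) M) = 0) {ε : Fn Z}
    (hε : ∀ z, z ∈ loc (pl (fib Z t) M) ε) {W : ι → Z.left.Opens}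
    (hW : ∀ i, U i ≤ φ.left ⁻¹ᵁ W i) {n : ℕ} {J : Ideal (B T V)} (hJ : pr ht ^ n ≤ J) {a : B T V}
    (ha : a ∉ J) (ha' : ∀ r ∈ pr ht, r * a ∈ J) {e : ι → Fn (Z ⊗ T)} {c : ι → ι → Fn (Z ⊗ T)}
    (he : ∀ i, e i ∈ Gm M (box (W i) V)) (hc : ∀ i j, c i j ∈ Gm M (box (W i ⊓ W j) V))
    (h : ∀ i j, e i - e j - a • c i j ∈ J • GmR (B T V) M (box (W i ⊓ W j) V)) :
    ∃ b : ι → Fn X, (∀ i, b i ∈ B X (U i)) ∧
      ∀ i j, pb φ (pbs (fib Z t) M (c i j) / ε) = b i - b j := by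
  obtain ⟨ε₁, h₁⟩ := cl_eq_zero.1 hM
  have gV : gp T ∈ V := gp_mem ht
  have hW' : ∀ i j, U i ⊓ U j ≤ φ.left ⁻¹ᵁ (W i ⊓ W j) := fun i j x hx => ⟨hW i hx.1, hW j hx.2⟩
  have gU : ∀ i j, gp X ∈ U i ⊓ U j := fun i j => ⟨hU.gp i, hU.gp j⟩
  have hc' := fun i j => Form_div_mem (V := V) (hW' i j) h₁ (hc i j)
  have h2 : ∀ i j, pbs (φ ▷ T) M (e i) / ε₁ - pbs (φ ▷ T) M (e j) / ε₁
      - a • (pbs (φ ▷ T) M (c i j) / ε₁) ∈ J • GmR (B T V) 0 (box (U i ⊓ U j) V) := fun i j => by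
    have hg := Form_box_le (hW' i j) (gp_mem_box (gU i j) gV)
    have k1 := mem_secs.1 (he i) _ ⟨hg.1.1, hg.2⟩
    have k2 := mem_secs.1 (he j) _ ⟨hg.1.2, hg.2⟩
    have k3 := mem_secs.1 (Form_mem.1 (Submodule.smul_mem _ a (Form_mem.2 (hc i j)))) _ hg
    have k4 := Form_div_smul (hW' i j) (gU i j) gV h₁ (h i j)
    rwa [pbs_sub (sub_mem k1 k2) k3, pbs_sub k1 k2, Form_lin (hW' i j) (gU i j) gV a (hc i j),
      sub_div, sub_div, smul_div_assoc] at k4
  obtain ⟨ρ, hρ⟩ := formal_const hU hV ht (hJ.trans (le_sup_left (b := Ideal.span {a})))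
    (u := fun i => pbs (φ ▷ T) M (e i) / ε₁)
    (fun i => Form_mem0.1 (Form_div_mem (hW i) h₁ (he i))) fun i j => by
      rw [← sub_add_cancel (_ - _) (a • (pbs (φ ▷ T) M (c i j) / ε₁))]
      exact add_mem (Form_ml le_sup_left (h2 i j)) (Submodule.smul_mem_smul
        (Ideal.mem_sup_right (Ideal.mem_span_singleton_self a)) (hc' i j))
  choose v hv hv' using fun i => Form_split (hρ i)
  have key : ∀ i j, pb (fib X t) (pbs (φ ▷ T) M (c i j) / ε₁) =
      pb (fib X t) (v i) - pb (fib X t) (v j) := fun i j => by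
    have k1 := Form_O ht (hU.gp i) (hv i)
    have k2 := Form_O ht (hU.gp j) (hv j)
    rw [eq_comm, ← sub_eq_zero, ← pb_sub k1 k2,
      ← pb_sub (sub_mem k1 k2) (Form_O ht (gU i j) (hc' i j))]
    refine Form_ker (aff_inf (hU.aff i) (hU.aff j)) (gU i j) hV ht ha ha' (sub_mem
      (sub_mem (Form_anti inf_le_left 0 (hv i)) (Form_anti inf_le_right 0 (hv j))) (hc' i j)) ?_
    convert add_mem (sub_mem (h2 i j)
      (Form_mr (Form_anti inf_le_left 0) (hv' i)))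
      (Form_mr (Form_anti inf_le_right 0) (hv' j)) using 1
    rw [smul_sub, smul_sub]
    abel
  have hψ : fib X t ≫ φ ▷ T = φ ≫ fib Z t := by
    ext <;> simp
  have g₁ : ∀ x, x ∈ loc (pl (φ ≫ fib Z t) M) (pbs (fib X t) (pl (φ ▷ T) M) ε₁) := fun x => by
    rw [← hψ, pl_comp]
    exact (pbs_mem_loc (h₁ _).1).2 (h₁ _)
  have g₂ : ∀ x, x ∈ loc (pl (φ ≫ fib Z t) M) (pbs φ (pl (fib Z t) M) ε) := fun x => by
    rw [pl_comp]
    exact (pbs_mem_loc (hε _).1).2 (hε _)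
  refine ⟨fun i => pbs (fib X t) (pl (φ ▷ T) M) ε₁ / pbs φ (pl (fib Z t) M) ε * pb (fib X t) (v i),
    fun i => mul_mem (ul_div (mem_Gm.2 fun x _ => (g₁ x).1) fun x _ => g₂ x).1
      (mem_B.2 fun x hx => pb_mem_O (Form_O ht hx (hv i))), fun i j => ?_⟩
  have k1 : c i j ∈ st M ((φ ≫ fib Z t).left (gp X)) :=
    mem_secs.1 (hc i j) _ ((fib_mem_box ht).2 (hW' i j (gU i j)))
  have k2 : c i j ∈ st M ((fib X t ≫ φ ▷ T).left (gp X)) := hψ ▸ k1
  rw [← mul_sub, ← key, Form_pb_div φ (pbs_mem_st k1) (hε _),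
    Form_pb_div (fib X t) (pbs_mem_st k2) (h₁ _), ← pbs_comp φ k1, ← pbs_comp (fib X t) k2, hψ,
    div_mul_div_comm, mul_comm (pbs φ _ _), mul_div_mul_left _ _ (gp_mem_loc.1 (g₁ _))]

end Pool.Agent.Work.MP_e57da2_ag
end

-- merged part: Pool.Agent.Work.MP_e57da2_ag.KI
section
/-!
# Künneth injectivity for `H¹` of the structure sheaf

Plan.  Let `E = ι × ι → Fn X`, `D ≤ E` the subspace of the `(i, i') ↦ b i - b i'`, `b i ∈ B X (U i)`.  By `box_gen` there are finitely many vectors `a l ∈ E`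
(`a l (i, i') ∈ B X (U i ⊓ U i')`) with `c (i, j) (i', j) = ∑ l, fst^* (a l (i, i')) * snd^* (β j l)`, `β j l ∈ B Y (V j)`, for all `j`.  Change the family to a basis of its span
made of vectors in `D` and of vectors independent modulo `D` (`Submodule.exists_isCompl` for `D ⊓ span` in the span; equivalently apply linear functionals `λ` killing `D`
and put `β_λ j = ∑ l, λ (a l) • β j l`).  For a closed point `y ∈ V j ⊓ V j'`, restricting the cocycle identity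
`c (i,j) (i',j) - c (i,j') (i',j') = c (i,j) (i,j') - c (i',j) (i',j')` along `fib y` shows `β_λ j (y) = β_λ j' (y)`; so (`eq_zero_of_closed`) `β_λ j` does not depend on `j`, lies in
`B Y ⊤`, is a constant (`B_top`), which is `0` by `h₁`.  Hence `c (i, j) (i', j) = b' (i, j) - b' (i', j)` with `b' α ∈ B (box ..)`.  For `c' α β = c α β - b' α + b' β`,
`c' (i, j) (i', j')` does not depend on `i, i'`, lies in `B (box ⊤ (V j ⊓ V j'))`, so it is `snd^*` of its restriction along `sec x₀` (`eq_snd_sec`); use `h₂`.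
-/

open CategoryTheory Limits AlgebraicGeometry TopologicalSpace MonoidalCategory
  CartesianMonoidalCategory

namespace Pool.Agent.Work.MP_e57da2_ag

variable {k : Type} [Field k] [IsAlgClosed k] {X Y : Sch k} [IsIntegral X.left] [IsIntegral Y.left]
  [IsIntegral (X ⊗ Y).left] [IsProper X.hom] [IsProper Y.hom] {ι κ : Type} [Finite ι] [Finite κ]

omit [IsAlgClosed k] in
theorem KI_lin {E F G L : Type} [AddCommGroup E] [Module k E] [AddCommGroup F] [Module k F]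
    [AddCommGroup G] [Module k G] [Fintype L] (D : Submodule k E) (a : L → E) :
    ∃ d : L → E, (∀ l, d l ∈ D) ∧ ∀ β : L → F,
      (∀ f : E →ₗ[k] k, (∀ x ∈ D, f x = 0) → ∑ l, f (a l) • β l = 0) →
      ∀ Φ : E →ₗ[k] F →ₗ[k] G, ∑ l, Φ (a l) (β l) = ∑ l, Φ (d l) (β l) := by
  classical
  obtain ⟨σ, hσ⟩ := D.mkQ.exists_rightInverse_of_surjective D.range_mkQ
  refine ⟨fun l => a l - σ (D.mkQ (a l)), fun l => ?_, fun β h Φ => ?_⟩
  · rw [← Submodule.Quotient.mk_eq_zero, ← Submodule.mkQ_apply, map_sub, sub_eq_zero]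
    exact (LinearMap.congr_fun hσ _).symm
  · let b := Module.Basis.ofVectorSpace k (E ⧸ D)
    have h1 : ∑ l, D.mkQ (a l) ⊗ₜ[k] β l = 0 := by
      refine (TensorProduct.equivFinsuppOfBasisLeft b).map_eq_zero_iff.1 (Finsupp.ext fun m => ?_)
      rw [map_sum, Finsupp.finsetSum_apply]
      simp only [TensorProduct.equivFinsuppOfBasisLeft_apply_tmul_apply]
      exact h (b.coord m ∘ₗ D.mkQ) fun x hx => by
        simp [(Submodule.Quotient.mk_eq_zero D).2 hx]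
    have h2 := congrArg (TensorProduct.lift (Φ ∘ₗ σ)) h1
    simp only [map_sum, TensorProduct.lift.tmul, map_zero, LinearMap.comp_apply] at h2
    simp only [map_sub, LinearMap.sub_apply, Finset.sum_sub_distrib, h2, sub_zero]

omit [IsAlgClosed k] [IsIntegral Y.left] [IsProper X.hom] [IsProper Y.hom] in
theorem KI_fst (y : Pt Y) (a : Fn X) : pb (fst X Y) a ∈ O (X ⊗ Y) ((fib X y).left (gp X)) ∧
    pb (fib X y) (pb (fst X Y) a) = a := by
  have h : a ∈ O X ((fib X y ≫ fst X Y).left (gp X)) := by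
    rw [fib_fst, id_apply', O_gp]
    trivial
  exact ⟨pb_mem_O h, by rw [← pb_comp _ h, fib_fst, pb_id]⟩

omit [IsAlgClosed k] [IsProper X.hom] [IsProper Y.hom] in
theorem KI_snd (y : Pt Y) {β : Fn Y} {v : k} (hv : β - algebraMap k (Fn Y) v ∈ mp Y (pt y) 1) :
    pb (snd X Y) β ∈ O (X ⊗ Y) ((fib X y).left (gp X)) ∧
      pb (fib X y) (pb (snd X Y) β) = algebraMap k (Fn X) v := by
  have h : β ∈ O Y ((fib X y ≫ snd X Y).left (gp X)) := by
    rw [fib_snd, const_apply]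
    simpa using add_mem (mem_O_of_mp hv) ((O Y (pt y)).algebraMap_mem v)
  exact ⟨pb_mem_O h, by rw [← pb_comp _ h, fib_snd, pb_const y hv]⟩

theorem KI_gen {P : Type} [Finite P] {W : P → X.left.Opens} {V : κ → Y.left.Opens}
    (hW : ∀ p, IsAffineOpen (W p)) (gW : ∀ p, gp X ∈ W p) (hV : Cover V) (c : κ → P → Fn (X ⊗ Y))
    (hc : ∀ j p, c j p ∈ B (X ⊗ Y) (box (W p) (V j))) :
    ∃ (L : Type) (_ : Fintype L) (a : L → P → Fn X) (β : κ → L → Fn Y),
      (∀ j l, β j l ∈ B Y (V j)) ∧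
        ∀ j p, ∑ l, pb (fst X Y) (a l p) * pb (snd X Y) (β j l) = c j p := by
  classical
  have := Fintype.ofFinite κ
  have := Fintype.ofFinite P
  choose n a b _ hb h using fun j p => box_gen (hW p) (hV.aff j) (gW p) (hV.gp j) (hc j p)
  refine ⟨Σ x : κ × P, Fin (n x.1 x.2), inferInstance,
    fun l p => if l.1.2 = p then a _ _ l.2 else 0, fun j l => if l.1.1 = j then b _ _ l.2 else 0,
    fun j l => ?_, fun j p => ?_⟩
  · beta_reduce
    split_ifs with e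
    exacts [e ▸ hb _ _ _, zero_mem _]
  · rw [Fintype.sum_sigma, Finset.sum_eq_single (j, p) (fun x _ hx => ?_) (by simp), ← h]
    · simp
    · refine Finset.sum_eq_zero fun l _ => ?_
      by_cases e : x.1 = j
      · have e' : ¬x.2 = p := fun e' => hx (Prod.ext e e')
        simp only [if_neg e', pb_zero, zero_mul]
      · simp only [if_neg e, pb_zero, mul_zero]

theorem KI_row {U : ι → X.left.Opens} {V : κ → Y.left.Opens} (hU : Cover U) (hV : Cover V)
    (c : ι × κ → ι × κ → Fn (X ⊗ Y))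
    (hc : ∀ α β, c α β ∈ B (X ⊗ Y) (box (U α.1 ⊓ U β.1) (V α.2 ⊓ V β.2)))
    (coc : ∀ α β γ, c α β + c β γ = c α γ) (y₀ : Pt Y) {j₀ : κ} (hj : pt y₀ ∈ V j₀)
    (h₁ : ∃ b : ι → Fn X, (∀ i, b i ∈ B X (U i)) ∧
      ∀ i i', pb (fib X y₀) (c (i, j₀) (i', j₀)) = b i - b i') :
    ∃ b : ι × κ → Fn (X ⊗ Y), (∀ α, b α ∈ B (X ⊗ Y) (box (U α.1) (V α.2))) ∧
      ∀ i i' j, c (i, j) (i', j) = b (i, j) - b (i', j) := by
  obtain ⟨L, _, a, β, hβ, h⟩ := KI_gen (W := fun p : ι × ι => U p.1 ⊓ U p.2)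
    (fun p => aff_inf (hU.aff _) (hU.aff _)) (fun p => ⟨hU.gp _, hU.gp _⟩) hV
    (fun j p => c (p.1, j) (p.2, j)) fun j p => by simpa using hc (p.1, j) (p.2, j)
  let δ : (ι → Fn X) →ₗ[k] ι × ι → Fn X :=
    LinearMap.funLeft k _ Prod.fst - LinearMap.funLeft k _ Prod.snd
  let D := (Submodule.pi Set.univ fun i => (B X (U i)).toSubmodule).map δ
  have hO : ∀ (y : Pt Y) α β, pt y ∈ V α.2 → pt y ∈ V β.2 →
      c α β ∈ O (X ⊗ Y) ((fib X y).left (gp X)) := fun y α β h h' =>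
    mem_B.1 (hc α β) _
      ((fib_mem_box (U := U α.1 ⊓ U β.1) (V := V α.2 ⊓ V β.2) ⟨h, h'⟩).2 ⟨hU.gp _, hU.gp _⟩)
  have h2 : ∀ (f : (ι × ι → Fn X) →ₗ[k] k) (y : Pt Y) j, pt y ∈ V j → ∑ l, f (a l) • β j l -
      algebraMap k (Fn Y) (f fun p => pb (fib X y) (c (p.1, j) (p.2, j))) ∈ mp Y (pt y) 1 := by
    intro f y j hy
    choose v hv using fun l => exists_value y (B_le_O hy (hβ j l))
    have e : (fun p : ι × ι => pb (fib X y) (c (p.1, j) (p.2, j))) = ∑ l, v l • a l := by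
      funext p
      rw [← h, pb_sum _ fun l _ => mul_mem (KI_fst y _).1 (KI_snd y (hv l)).1, Finset.sum_apply]
      refine Finset.sum_congr rfl fun l _ => ?_
      rw [pb_mul (KI_fst y _).1 (KI_snd y (hv l)).1, (KI_fst y _).2, (KI_snd y (hv l)).2,
        Pi.smul_apply, Algebra.smul_def, mul_comm]
    rw [e, map_sum, map_sum, ← Finset.sum_sub_distrib]
    refine Submodule.sum_mem _ fun l _ => ?_
    rw [map_smul, smul_eq_mul, mul_comm, map_mul, ← Algebra.smul_def, ← smul_sub]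
    exact Submodule.smul_mem _ _ (hv l)
  have h3 : ∀ j (f : (ι × ι → Fn X) →ₗ[k] k), (∀ x ∈ D, f x = 0) → ∑ l, f (a l) • β j l = 0 := by
    intro j f hf
    have h4 : ∀ j j', ∑ l, f (a l) • β j l = ∑ l, f (a l) • β j' l := by
      intro j j'
      refine sub_eq_zero.1 (eq_zero_of_closed (U := V j ⊓ V j') ⟨hV.gp _, hV.gp _⟩
        fun x hx hx' => ?_)
      obtain ⟨y, rfl⟩ := exists_pt hx'
      have h5 : f (fun p => pb (fib X y) (c (p.1, j) (p.2, j))) =
          f fun p => pb (fib X y) (c (p.1, j') (p.2, j')) := by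
        rw [← sub_eq_zero, ← map_sub]
        refine hf _ ⟨fun i => pb (fib X y) (c (i, j) (i, j')), fun i _ => pb_mem_B
          (U := box (U i ⊓ U i) (V j ⊓ V j')) (fun z hz => (fib_mem_box (U := U i ⊓ U i) hx).2
            ⟨hz, hz⟩) (hc (i, j) (i, j')), funext fun p => ?_⟩
        change pb _ _ - pb _ _ = pb _ _ - pb _ _
        rw [← pb_sub (hO y _ _ hx.1 hx.2) (hO y _ _ hx.1 hx.2),
          ← pb_sub (hO y _ _ hx.1 hx.1) (hO y _ _ hx.2 hx.2)]
        congr 1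
        linear_combination coc (p.1, j) (p.1, j') (p.2, j') - coc (p.1, j) (p.2, j) (p.2, j')
      simpa [h5] using sub_mem (h2 f y j hx.1) (h2 f y j' hx.2)
    obtain ⟨r, hr⟩ := B_top (h := ∑ l, f (a l) • β j l) (mem_B.2 fun x _ => by
      obtain ⟨j', hx⟩ := hV.cov x
      rw [h4 j j']
      exact B_le_O hx (sum_mem fun l _ => Subalgebra.smul_mem _ (hβ j' l) _))
    obtain ⟨b, hb, hb'⟩ := h₁
    have h5 := h2 f y₀ j₀ hj
    rw [hf _ ⟨b, fun i _ => hb i, funext fun p => (hb' p.1 p.2).symm⟩, map_zero, sub_zero,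
      h4 j₀ j, ← hr] at h5
    rw [← hr, value_unique h5, map_zero]
  obtain ⟨d, hd, h4⟩ := KI_lin (F := Fn Y) (G := Fn (X ⊗ Y)) D a
  choose b hb hb' using hd
  refine ⟨fun α => ∑ l, pb (fst X Y) (b l α.1) * pb (snd X Y) (β α.2 l), fun α => sum_mem fun l _ =>
    mul_mem (pb_mem_B inf_le_left (hb l _ trivial)) (pb_mem_B inf_le_right (hβ _ l)),
    fun i i' j => ?_⟩
  have h5 := h4 (β j) (h3 j) ((LinearMap.mul k _).compl₁₂
    ((pbF (dom_fst X Y)).toLinearMap ∘ₗ LinearMap.proj (i, i')) (pbF (dom_snd X Y)).toLinearMap)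
  rw [← h j (i, i'), ← Finset.sum_sub_distrib]
  refine h5.trans (Finset.sum_congr rfl fun l _ => ?_)
  rw [← hb', ← sub_mul]
  exact congrArg (· * _) (map_sub (pbF (dom_fst X Y)) _ _)

theorem kunneth {U : ι → X.left.Opens} {V : κ → Y.left.Opens} (hU : Cover U) (hV : Cover V)
    (c : ι × κ → ι × κ → Fn (X ⊗ Y))
    (hc : ∀ α β, c α β ∈ B (X ⊗ Y) (box (U α.1 ⊓ U β.1) (V α.2 ⊓ V β.2)))
    (coc : ∀ α β γ, c α β + c β γ = c α γ) (x₀ : Pt X) (y₀ : Pt Y) {i₀ : ι} {j₀ : κ}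
    (hi : pt x₀ ∈ U i₀) (hj : pt y₀ ∈ V j₀)
    (h₁ : ∃ b : ι → Fn X, (∀ i, b i ∈ B X (U i)) ∧
      ∀ i i', pb (fib X y₀) (c (i, j₀) (i', j₀)) = b i - b i')
    (h₂ : ∃ b : κ → Fn Y, (∀ j, b j ∈ B Y (V j)) ∧
      ∀ j j', pb (sec Y x₀) (c (i₀, j) (i₀, j')) = b j - b j') :
    ∃ b : ι × κ → Fn (X ⊗ Y), (∀ α, b α ∈ B (X ⊗ Y) (box (U α.1) (V α.2))) ∧
      ∀ α β, c α β = b α - b β := by
  obtain ⟨b, hb, h⟩ := KI_row hU hV c hc coc y₀ hj h₁
  obtain ⟨g, hg, h'⟩ := h₂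
  have h1 : ∀ i i' i₁ j j', c (i, j) (i', j') - b (i, j) + b (i', j') =
      c (i₁, j) (i₁, j') - b (i₁, j) + b (i₁, j') := fun i i' i₁ j j' => by
    linear_combination h i i₁ j + h i₁ i' j' - coc (i, j) (i₁, j) (i', j') -
      coc (i₁, j) (i₁, j') (i', j')
  have hO : ∀ j, b (i₀, j) ∈ O (X ⊗ Y) ((sec Y x₀).left (gp Y)) := fun j =>
    B_le_O ((sec_mem_box hi).2 (hV.gp j)) (hb (i₀, j))
  refine ⟨fun α => b α + pb (snd X Y) (g α.2 - pb (sec Y x₀) (b (i₀, α.2))), fun α =>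
    add_mem (hb α) (pb_mem_B inf_le_right (sub_mem (hg _)
      (pb_mem_B (U := box (U i₀) (V α.2)) (fun z hz => (sec_mem_box hi).2 hz)
        (hb (i₀, α.2))))), ?_⟩
  rintro ⟨i, j⟩ ⟨i', j'⟩
  have h2 := eq_snd_sec (V := V j ⊓ V j') x₀ ⟨hV.gp _, hV.gp _⟩
    (h := c (i₀, j) (i₀, j') - b (i₀, j) + b (i₀, j')) (mem_B.2 fun w hw => by
      obtain ⟨i₁, h3⟩ := hU.cov ((fst X Y).left w)
      rw [h1 i₀ i₀ i₁]
      exact add_mem (sub_mem (mem_B.1 (hc (i₁, j) (i₁, j')) _ ⟨⟨h3, h3⟩, hw.2⟩)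
        (mem_B.1 (hb (i₁, j)) _ ⟨h3, hw.2.1⟩)) (mem_B.1 (hb (i₁, j')) _ ⟨h3, hw.2.2⟩))
  have h3 : c (i₀, j) (i₀, j') ∈ O (X ⊗ Y) ((sec Y x₀).left (gp Y)) :=
    mem_B.1 (hc (i₀, j) (i₀, j')) _
      ((sec_mem_box (U := U i₀ ⊓ U i₀) (V := V j ⊓ V j') ⟨hi, hi⟩).2 ⟨hV.gp j, hV.gp j'⟩)
  rw [pb_add (sub_mem h3 (hO j)) (hO j'), pb_sub h3 (hO j), h', ← h1 i i' i₀] at h2
  simp only [← pbF_apply (dom_snd X Y), map_sub, map_add] at h2 ⊢
  linear_combination -h2

end Pool.Agent.Work.MP_e57da2_ag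
end

-- merged part: Pool.Agent.Work.MP_e57da2_ag.Form2
section
/-!
# The local form of the theorem of the cube

Plan.  Take `Amp.exists_free` on `X` and `Y`, the product system `Free.box` on `Z = X ⊗ Y` (charts `Z α = box (U α.1) (U' α.2)`), an affine `V ∋ pt t`, a generator `ε` of
`pl (fib t) M`, and apply `locTriv_of_formal`.  The formal sections come from `small_induction` with `I₀ = 𝔪 = pr ht` and
`Φ J := ∃ e, e α ∈ Gm M (box (Z α) V) ∧ pbs (fib t) M (e α) = ε ∧ e α - e β ∈ J • _` (for `n = 0` use `n = 1`).  Base: `fib_surj`, `fib_ker`.  Step: write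
`e α - e β = a • c α β` mod `J`; `a • (c α β + c β γ - c α γ) ∈ J • _`, so by `colon_of_flat` and `fib_ker` the functions `c̄ α β = pbs (fib t) M (c α β) / ε` form a cocycle;
`obstruction_restrict` for `fib X y₀` (with `W i = Z (i, j₀)`) and `sec Y x₀`, then `kunneth` give `c̄ α β = b α - b β`; lift `b α * ε` to `v α` (`fib_surj`) and put `e' α = e α - a • v α`.
-/

open CategoryTheory Limits AlgebraicGeometry TopologicalSpace MonoidalCategory
  CartesianMonoidalCategory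

namespace Pool.Agent.Work.MP_e57da2_ag

variable {k : Type} [Field k] [IsAlgClosed k] {X Y T : Sch k} [IsIntegral X.left]
  [IsIntegral Y.left] [IsIntegral T.left] [IsIntegral (X ⊗ Y).left] [IsIntegral (X ⊗ T).left]
  [IsIntegral (Y ⊗ T).left] [IsIntegral ((X ⊗ Y) ⊗ T).left] [IsProper X.hom] [IsProper Y.hom]
  [IsProper T.hom]

attribute [local instance] baseAlg
attribute [local instance 2000] IsScalarTower.left Submodule.module

section aux

variable {Z : Sch k} [IsIntegral Z.left] [IsIntegral (Z ⊗ T).left] [IsProper Z.hom]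
  {V : T.left.Opens} {M : Dv (Z ⊗ T)} {S S' : Z.left.Opens} {v : Fn (Z ⊗ T)}

theorem Form2_mem : v ∈ GmR (B T V) M (box S V) ↔ v ∈ Gm M (box S V) :=
  Prod_mem_GmR (X := Z) (Y := T) (V := V)

omit [IsAlgClosed k] [IsIntegral Z.left] [IsIntegral T.left] [IsProper Z.hom] [IsProper T.hom] in
theorem Form2_anti (h : S ≤ S') (hv : v ∈ Gm M (box S' V)) : v ∈ Gm M (box S V) :=
  Gm_anti (show box S V ≤ box S' V from fun _ hw => ⟨h hw.1, hw.2⟩) hv

theorem Form2_smul_anti (h : S ≤ S') {J : Ideal (B T V)}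
    (hv : v ∈ J • GmR (B T V) M (box S' V)) : v ∈ J • GmR (B T V) M (box S V) :=
  Form_mr (fun _ hw => Form2_mem.2 (Form2_anti h (Form2_mem.1 hw))) hv

omit [IsAlgClosed k] [IsIntegral T.left] [IsProper Z.hom] [IsProper T.hom] in
theorem Form2_st {t : Pt T} (ht : pt t ∈ V) (hS : gp Z ∈ S) (hv : v ∈ Gm M (box S V)) :
    v ∈ st M ((fib Z t).left (gp Z)) :=
  mem_secs.1 hv _ ((fib_mem_box ht).2 hS)

omit [IsAlgClosed k] [IsIntegral T.left] [IsProper Z.hom] [IsProper T.hom] in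
theorem Form2_pbs {t : Pt T} (ht : pt t ∈ V) (hv : v ∈ Gm M (box S V)) :
    pbs (fib Z t) M v ∈ Gm (pl (fib Z t) M) S :=
  pbs_mem_Gm (U := box S V) (fun _ hz => (fib_mem_box ht).2 hz) hv

end aux

theorem Form2_colon {R : Type} [CommRing R] {𝔪 J : Ideal R} (h : 𝔪.IsMaximal) {a : R} (ha : a ∉ J)
    (ha' : ∀ r ∈ 𝔪, r * a ∈ J) (r : R) (hr : r * a ∈ J) : r ∈ 𝔪 := by
  by_contra hcon
  obtain ⟨y, i, hi, e⟩ := h.exists_inv hcon
  apply ha
  have : a = y * (r * a) + i * a := by rw [← mul_assoc, ← add_mul, e, one_mul]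
  rw [this]
  exact J.add_mem (J.mul_mem_left _ hr) (ha' i hi)

theorem Form2_mul {R W : Type} [CommRing R] [AddCommGroup W] [Module R W] {𝔪 J : Ideal R} {a : R}
    (ha' : ∀ r ∈ 𝔪, r * a ∈ J) {P : Submodule R W} {v : W} (hv : v ∈ 𝔪 • P) : a • v ∈ J • P := by
  refine Submodule.smul_induction_on hv (fun r hr p hp => ?_) fun x y hx hy => ?_
  · rw [smul_smul, mul_comm]
    exact Submodule.smul_mem_smul (ha' r hr) hp
  · rw [smul_add]
    exact add_mem hx hy

theorem Form2_split {R W : Type} [CommRing R] [AddCommGroup W] [Module R W] {J : Ideal R} {a : R}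
    {P : Submodule R W} {v : W} (hv : v ∈ (J ⊔ Ideal.span {a}) • P) :
    ∃ c ∈ P, v - a • c ∈ J • P := by
  rw [Submodule.sup_smul, Submodule.ideal_span_singleton_smul] at hv
  obtain ⟨y, hy, z, hz, rfl⟩ := Submodule.mem_sup.1 hv
  obtain ⟨c, hc, rfl⟩ := (Submodule.mem_smul_pointwise_iff_exists _ _ _).1 hz
  exact ⟨c, hc, by rwa [add_sub_cancel_right]⟩

theorem Form2_formal {ι κ : Type} [Finite ι] [Finite κ] {U : ι → X.left.Opens}
    {U' : κ → Y.left.Opens} (hU : Cover U) (hU' : Cover U') {V : T.left.Opens}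
    (hV : IsAffineOpen V) {t : Pt T} (ht : pt t ∈ V) {M : Dv ((X ⊗ Y) ⊗ T)} (x₀ : Pt X)
    (y₀ : Pt Y) (h₁ : cl (pl (fib X y₀ ▷ T) M) = 0) (h₂ : cl (pl (sec Y x₀ ▷ T) M) = 0)
    {ε : Fn (X ⊗ Y)} (hε : ∀ z, z ∈ loc (pl (fib (X ⊗ Y) t) M) ε) (n : ℕ) (J : Ideal (B T V))
    (hJ : pr ht ^ n ≤ J) (hJ' : J ≤ pr ht) :
    ∃ e : ι × κ → Fn ((X ⊗ Y) ⊗ T), (∀ α, e α ∈ Gm M (box (box (U α.1) (U' α.2)) V)) ∧
      (∀ α, pbs (fib (X ⊗ Y) t) M (e α) = ε) ∧ ∀ α β, e α - e β ∈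
        J • GmR (B T V) M (box (box (U α.1) (U' α.2) ⊓ box (U β.1) (U' β.2)) V) := by
  have := aff_noeth hV (gp_mem ht)
  set Z : ι × κ → (X ⊗ Y).left.Opens := fun α => box (U α.1) (U' α.2) with hZ
  have aZ : ∀ α, IsAffineOpen (Z α) := fun α => box_aff (hU.aff _) (hU'.aff _)
  have gZ : ∀ α, gp (X ⊗ Y) ∈ Z α := fun α => gp_mem_box (hU.gp _) (hU'.gp _)
  have aZ₂ : ∀ α β, IsAffineOpen (Z α ⊓ Z β) := fun α β => aff_inf (aZ α) (aZ β)
  have gZ₂ : ∀ α β, gp (X ⊗ Y) ∈ Z α ⊓ Z β := fun α β => ⟨gZ α, gZ β⟩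
  have hεG : ∀ S, ε ∈ Gm (pl (fib (X ⊗ Y) t) M) S := fun S => mem_Gm.2 fun z _ => (hε z).1
  have hε0 : ε ≠ 0 := gp_mem_loc.1 (hε _)
  refine small_induction (pr ht) (pr ht) (fun J => pr ht ^ n ≤ J →
    ∃ e : ι × κ → Fn ((X ⊗ Y) ⊗ T), (∀ α, e α ∈ Gm M (box (Z α) V)) ∧
      (∀ α, pbs (fib (X ⊗ Y) t) M (e α) = ε) ∧
      ∀ α β, e α - e β ∈ J • GmR (B T V) M (box (Z α ⊓ Z β) V)) (fun _ => ?_) ?_ n J hJ hJ' hJ
  · choose e he he' using fun α => fib_surj (aZ α) hV (gZ α) ht M (hεG (Z α))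
    refine ⟨e, he, he', fun α β => (fib_ker (aZ₂ α β) hV (gZ₂ α β) ht M
      (sub_mem (Form2_anti inf_le_left (he α)) (Form2_anti inf_le_right (he β)))).1 ?_⟩
    rw [pbs_sub (Form2_st ht (gZ α) (he α)) (Form2_st ht (gZ β) (he β)), he', he', sub_self]
  intro J a _ ham ha ha' ih hJ
  obtain ⟨e, he, he', hee⟩ := ih (hJ.trans le_sup_left)
  choose c hc hc' using fun α β => Form2_split (hee α β)
  replace hc := fun α β => Form2_mem.1 (hc α β)
  have stc := fun α β => Form2_st ht (gZ₂ α β) (hc α β)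
  have coc : ∀ α β γ, pbs (fib (X ⊗ Y) t) M (c α β) + pbs (fib (X ⊗ Y) t) M (c β γ) =
      pbs (fib (X ⊗ Y) t) M (c α γ) := by
    intro α β γ
    have a₃ : IsAffineOpen (Z α ⊓ Z β ⊓ Z γ) := aff_inf (aZ₂ α β) (aZ γ)
    have g₃ : gp (X ⊗ Y) ∈ Z α ⊓ Z β ⊓ Z γ := ⟨gZ₂ α β, gZ γ⟩
    have l₁ : Z α ⊓ Z β ⊓ Z γ ≤ Z α ⊓ Z β := inf_le_left
    have l₂ : Z α ⊓ Z β ⊓ Z γ ≤ Z β ⊓ Z γ := inf_le_inf_right _ inf_le_right
    have l₃ : Z α ⊓ Z β ⊓ Z γ ≤ Z α ⊓ Z γ := inf_le_inf_right _ inf_le_left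
    have hm : c α β + c β γ - c α γ ∈ Gm M (box (Z α ⊓ Z β ⊓ Z γ) V) :=
      sub_mem (add_mem (Form2_anti l₁ (hc α β)) (Form2_anti l₂ (hc β γ))) (Form2_anti l₃ (hc α γ))
    have := flat_Gm a₃ hV g₃ (gp_mem ht) M
    have h3 : a • (c α β + c β γ - c α γ) ∈ J • GmR (B T V) M (box (Z α ⊓ Z β ⊓ Z γ) V) := by
      have h4 := sub_mem (Form2_smul_anti l₃ (hc' α γ))
        (add_mem (Form2_smul_anti l₁ (hc' α β)) (Form2_smul_anti l₂ (hc' β γ)))
      convert h4 using 1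
      rw [smul_sub, smul_add]
      ring
    have h5 := (fib_ker a₃ hV g₃ ht M hm).2 (colon_of_flat
      (Form2_colon (pr_maximal hV ht (pt_closed t)) ha ha') ha' (Form2_mem.2 hm) h3)
    rw [pbs_sub (add_mem (stc α β) (stc β γ)) (stc α γ), pbs_add (stc α β) (stc β γ)] at h5
    exact sub_eq_zero.1 h5
  obtain ⟨i₀, hi⟩ := hU.cov (pt x₀)
  obtain ⟨j₀, hj⟩ := hU'.cov (pt y₀)
  obtain ⟨b, hb, hb'⟩ := kunneth hU hU' (fun α β => pbs (fib (X ⊗ Y) t) M (c α β) / ε)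
    (fun α β => by
      rw [← box_inf]
      exact (ul_div (Form2_pbs ht (hc α β)) fun z _ => hε z).1)
    (fun α β γ => by rw [← add_div, coc]) x₀ y₀ hi hj
    (obstruction_restrict (fib X y₀) hU hV ht h₁ hε (W := fun i => Z (i, j₀))
      (fun i x hx => (fib_mem_box hj).2 hx) hJ ha ha' (e := fun i => e (i, j₀))
      (c := fun i i' => c (i, j₀) (i', j₀)) (fun i => he _) (fun i i' => hc _ _)
      fun i i' => hc' _ _)
    (obstruction_restrict (sec Y x₀) hU' hV ht h₂ hε (W := fun j => Z (i₀, j))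
      (fun j y hy => (sec_mem_box hi).2 hy) hJ ha ha' (e := fun j => e (i₀, j))
      (c := fun j j' => c (i₀, j) (i₀, j')) (fun j => he _) (fun j j' => hc _ _)
      fun j j' => hc' _ _)
  choose v hv hv' using fun α =>
    fib_surj (aZ α) hV (gZ α) ht M (B_mul_mem_Gm (hb α) (hεG (Z α)))
  have hav : ∀ α, a • v α ∈ Gm M (box (Z α) V) := fun α =>
    Form2_mem.1 (Submodule.smul_mem _ a (Form2_mem.2 (hv α)))
  have stv := fun α => Form2_st ht (gZ α) (hv α)
  refine ⟨fun α => e α - a • v α, fun α => sub_mem (he α) (hav α), fun α => ?_, fun α β => ?_⟩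
  · rw [pbs_sub (Form2_st ht (gZ α) (he α)) (Form2_st ht (gZ α) (hav α)), he',
      (fib_ker (aZ α) hV (gZ α) ht M (hav α)).2
        (Submodule.smul_mem_smul ham (Form2_mem.2 (hv α))), sub_zero]
  · have hm : c α β - (v α - v β) ∈ Gm M (box (Z α ⊓ Z β) V) := sub_mem (hc α β)
      (sub_mem (Form2_anti inf_le_left (hv α)) (Form2_anti inf_le_right (hv β)))
    have h3 := (fib_ker (aZ₂ α β) hV (gZ₂ α β) ht M hm).1 (by
      rw [pbs_sub (stc α β) (sub_mem (stv α) (stv β)), pbs_sub (stv α) (stv β), hv', hv',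
        ← sub_mul, ← hb', div_mul_cancel₀ _ hε0, sub_self])
    convert add_mem (hc' α β) (Form2_mul ha' h3) using 1
    rw [smul_sub, smul_sub]
    ring

theorem locTriv_cube {H : Dv X} {H' : Dv Y} (hH : Amp H) (hH' : Amp H') {M : Dv ((X ⊗ Y) ⊗ T)}
    (x₀ : Pt X) (y₀ : Pt Y) (t : Pt T) (h₀ : cl (pl (fib (X ⊗ Y) t) M) = 0)
    (h₁ : cl (pl (fib X y₀ ▷ T) M) = 0) (h₂ : cl (pl (sec Y x₀ ▷ T) M) = 0) :
    LocTriv M (pt t) := by
  obtain ⟨e₁, n₁, s, -, hs, aff⟩ := hH.exists_free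
  obtain ⟨e₂, n₂, s', -, hs', aff'⟩ := hH'.exists_free
  obtain ⟨hf, hloc⟩ := hs.box hs'
  obtain ⟨V, hV, ht, -⟩ := exists_aff (W := ⊤) (x := pt t) trivial
  obtain ⟨ε, hε⟩ := cl_eq_zero.1 h₀
  refine locTriv_of_formal hf (fun α => ?_) hV ht hε fun n => ?_
  · rw [hloc]
    exact box_aff (aff _) (aff' _)
  · obtain ⟨e, he, he', hee⟩ := Form2_formal (hs.cover aff) (hs'.cover aff') hV ht x₀ y₀ h₁ h₂ hε
      (n + 1) _ le_rfl (Ideal.pow_le_self n.succ_ne_zero)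
    simp only [hloc]
    exact ⟨e, he, he', fun α β =>
      Form_ml (Ideal.pow_le_pow_right n.le_succ) (hee α β)⟩

end Pool.Agent.Work.MP_e57da2_ag
end

-- merged part: Pool.Agent.Work.MP_e57da2_ag.Cube
section
/-!
# The theorem of the cube and the seesaw principle on an abelian variety

Plans.  `cube`: by `pull_cub` it is enough to treat the three projections `p₁ p₂ p₃` of `(A ⊗ A) ⊗ A`; let `M` represent `Θ = cub p₁ p₂ p₃ c`.
`pull (fib t) Θ = lam (fst) (snd) (pull (tr t) c - c)` (`pull_const`).  The hypotheses `h₁`, `h₂` of `locTriv_cube` (with `x₀ = y₀ = 1`) hold by `cub_one`.  At `t = 1` we get an open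
`V ∋ pt 1` with `pull (fib t) Θ = 0` for `pt t ∈ V` (`trivOn_fib`).  The set of such `t` is closed under products: if `lam fst snd q = 0` then `q ∈ pic0` (pull back along
`lift (𝟙 A) (toUnit A ≫ y)`), and `pull (tr (t * t')) c - c = pull (tr t) (pull (tr t') c - c) + (pull (tr t) c - c)`.  By `exists_pt_mul` it is everything.  Then `locTriv_cube` at every `t` and
`cl_eq_zero_of_locTriv`.
`seesaw`: `M` represents `lam fst snd q` on `A ⊗ A`; `exists_locTriv`; the automorphisms `A ◁ tr y` fix the class of `M` and move the point (`TrivOn.pl`, `TrivOn.congr`);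
`cl_eq_zero_of_locTriv`.
-/

open CategoryTheory Limits AlgebraicGeometry TopologicalSpace MonoidalCategory
  CartesianMonoidalCategory MonObj

namespace Pool.Agent.Work.MP_e57da2_ag

variable {k : Type} [Field k] {A : Sch k} [GrpObj A] [IsProper A.hom]
  [GeometricallyIntegral A.hom] {T T' : Sch k} [IsIntegral T.left] [IsIntegral T'.left]

/-- the Mumford class -/
noncomputable def lam (f g : T ⟶ A) (c : Pic A) : Pic T := pull (f * g) c - pull f c - pull g c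

/-- the class of the cube -/
noncomputable def cub (f g h : T ⟶ A) (c : Pic A) : Pic T :=
  pull (f * g * h) c - pull (f * g) c - pull (f * h) c - pull (g * h) c + pull f c + pull g c +
    pull h c

variable (A) in
/-- translation invariant classes -/
def pic0 : AddSubgroup (Pic A) where
  carrier := {c | ∀ y : Pt A, pull (tr y) c = c}
  zero_mem' _ := map_zero _
  add_mem' ha hb y := by rw [map_add, ha y, hb y]
  neg_mem' ha y := by rw [map_neg, ha y]

theorem mem_pic0 {c : Pic A} : c ∈ pic0 A ↔ ∀ y : Pt A, pull (tr y) c = c := Iff.rfl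

theorem pull_one (c : Pic A) : pull (1 : T ⟶ A) c = 0 := by
  rw [← toUnit_one T, pull_const]

theorem pull_lam (φ : T' ⟶ T) (f g : T ⟶ A) (c : Pic A) :
    pull φ (lam f g c) = lam (φ ≫ f) (φ ≫ g) c := by
  simp only [lam, map_sub, ← pull_comp, MonObj.comp_mul]

theorem pull_cub (φ : T' ⟶ T) (f g h : T ⟶ A) (c : Pic A) :
    pull φ (cub f g h c) = cub (φ ≫ f) (φ ≫ g) (φ ≫ h) c := by
  simp only [cub, map_sub, map_add, ← pull_comp, MonObj.comp_mul]

theorem cub_one (f g : T ⟶ A) (c : Pic A) :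
    cub 1 f g c = 0 ∧ cub f 1 g c = 0 ∧ cub f g 1 c = 0 := by
  simp only [cub, _root_.one_mul, _root_.mul_one, pull_one]
  refine ⟨?_, ?_, ?_⟩ <;> abel

theorem Cube_const (f g : T ⟶ A) (t : Pt A) (c : Pic A) :
    cub f g (toUnit T ≫ t) c = lam f g (pull (tr t) c - c) := by
  simp only [cub, lam, map_sub, ← pull_comp, comp_tr, pull_const]
  abel

theorem Cube_lam_add (f g : T ⟶ A) (c c' : Pic A) : lam f g (c + c') = lam f g c + lam f g c' := by
  simp only [lam, map_add]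
  abel

theorem Cube_fib (y : Pt A) (q : Pic A) :
    pull (fib A y) (lam (fst A A) (snd A A) q) = pull (tr y) q - q := by
  rw [pull_lam, fib_fst, fib_snd, lam, pull_const, pull_id, sub_zero, tr]

theorem Cube_pic0 {q : Pic A} (h : lam (fst A A) (snd A A) q = 0) : q ∈ pic0 A := fun y => by
  rw [← sub_eq_zero, ← Cube_fib, h, map_zero]

theorem Cube_lam_tr {q : Pic A} (hq : q ∈ pic0 A) (f g : T ⟶ A) (y : Pt A) :
    lam f (g ≫ tr y) q = lam f g q := by
  have e : f * (g ≫ tr y) = (f * g) ≫ tr y := by rw [comp_tr, comp_tr, _root_.mul_assoc]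
  rw [lam, lam, e, pull_comp, pull_comp, hq y]

variable [IsAlgClosed k] {L : Dv A}

theorem cube (hL : Amp L) (f g h : T ⟶ A) (c : Pic A) : cub f g h c = 0 := by
  obtain ⟨M, hM⟩ := cl_surjective (cub (fst (A ⊗ A) A ≫ fst A A) (fst (A ⊗ A) A ≫ snd A A)
    (snd (A ⊗ A) A) c)
  have hfib : ∀ t : Pt A,
      cl (pl (fib (A ⊗ A) t) M) = lam (fst A A) (snd A A) (pull (tr t) c - c) := fun t => by
    rw [← pull_cl, hM, pull_cub, fib_fst_assoc, fib_fst_assoc, fib_snd, Cube_const]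
  have h₁ : cl (pl (fib A (1 : Pt A) ▷ A) M) = 0 := by
    rw [← pull_cl, hM, pull_cub, whiskerRight_fst_assoc, whiskerRight_fst_assoc, fib_snd,
      toUnit_one, MonObj.comp_one]
    exact (cub_one _ _ c).2.1
  have h₂ : cl (pl (sec A (1 : Pt A) ▷ A) M) = 0 := by
    rw [← pull_cl, hM, pull_cub, whiskerRight_fst_assoc, sec_fst, toUnit_one, MonObj.comp_one]
    exact (cub_one _ _ c).1
  have hmul : ∀ t t' : Pt A, cl (pl (fib (A ⊗ A) t) M) = 0 → cl (pl (fib (A ⊗ A) t') M) = 0 →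
      cl (pl (fib (A ⊗ A) (t * t')) M) = 0 := fun t t' k1 k2 => by
    rw [hfib] at k1 k2 ⊢
    have e : pull (tr (t * t')) c - c
        = pull (tr t) (pull (tr t') c - c) + (pull (tr t) c - c) := by
      rw [tr_mul, pull_comp, map_sub]
      abel
    rw [e, Cube_pic0 k2 t, Cube_lam_add, k1, k2, add_zero]
  obtain ⟨V, hV, hT⟩ := locTriv_cube hL hL (1 : Pt A) (1 : Pt A) (1 : Pt A) (M := M)
    (by rw [hfib, tr_one, pull_id, sub_self, lam, map_zero, map_zero, map_zero, sub_zero,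
      sub_zero]) h₁ h₂
  have hall : ∀ t : Pt A, cl (pl (fib (A ⊗ A) t) M) = 0 := fun t => by
    obtain ⟨x, y, hx, hy, rfl⟩ := exists_pt_mul (gp_mem hV) (gp_mem hV) t
    exact hmul x y (trivOn_fib hT hx) (trivOn_fib hT hy)
  have h0 : cl M = 0 := by
    refine cl_eq_zero_of_locTriv (fun t => locTriv_cube hL hL 1 1 t (hall t) h₁ h₂)
      (lift (1 : Pt A) (1 : Pt A)) ?_
    rw [← pull_cl, hM, pull_cub, sec_fst_assoc, lift_fst, toUnit_one]
    exact (cub_one _ _ c).1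
  have := pull_cub (lift (lift f g) h) (fst (A ⊗ A) A ≫ fst A A) (fst (A ⊗ A) A ≫ snd A A)
    (snd (A ⊗ A) A) c
  rw [← hM, h0, map_zero, lift_fst_assoc, lift_fst_assoc, lift_fst, lift_snd, lift_snd] at this
  exact this.symm

theorem seesaw (hL : Amp L) {q : Pic A} (hq : q ∈ pic0 A) (f g : T ⟶ A) : lam f g q = 0 := by
  obtain ⟨M, hM⟩ := cl_surjective (lam (fst A A) (snd A A) q)
  obtain ⟨t₀, V, hV, hT⟩ := exists_locTriv (M := M) hL fun t => by
    rw [← pull_cl, hM, Cube_fib, hq t, sub_self]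
  have h0 : cl M = 0 := by
    refine cl_eq_zero_of_locTriv (fun t => ?_) (1 : Pt A) ?_
    · refine ⟨(tr (t⁻¹ * t₀)).left ⁻¹ᵁ V, ?_, (hT.pl (φ := A ◁ tr (t⁻¹ * t₀)) ?_).congr ?_⟩
      · change (tr (t⁻¹ * t₀)).left (pt t) ∈ V
        rwa [← pt_comp, pt_comp_tr, mul_inv_cancel_left]
      · intro w hw
        refine mem_box.2 ⟨trivial, ?_⟩
        rw [← comp_apply', whiskerLeft_snd, comp_apply']
        exact (mem_box.1 hw).2
      · rw [← pull_cl, hM, pull_lam, whiskerLeft_fst, whiskerLeft_snd, Cube_lam_tr hq]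
    · rw [← pull_cl, hM, pull_lam, sec_fst, sec_snd, toUnit_one, lam, _root_.one_mul, pull_one,
        sub_zero, sub_self]
  have := pull_lam (lift f g) (fst A A) (snd A A) q
  rw [← hM, h0, map_zero, lift_fst, lift_snd] at this
  exact this.symm

end Pool.Agent.Work.MP_e57da2_ag
end

-- merged part: Pool.Agent.Work.MP_e57da2_ag.PullU
section
/-!
# The universal property of the inverse image; inverse images of generators

`pbSec φ s` is the image of `s` under the unit of `Scheme.Modules.pullbackPushforwardAdjunction φ`; `Γ((pushforward φ).obj N, U)` is `Γ(N, φ ⁻¹ᵁ U)` by definition.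
Plans.  `pull_hom_ext`, `exists_pull_hom`: `homEquiv`, `homEquiv_unit`, `mkHom`.
`isGen_pull`: let `Q = φ^* P`, `W₀ = φ ⁻¹ᵁ V`, `g' = pbSec φ g`.  `α : Q ⟶ push (OX Y) W₀` is given by `ψ U s = φ.appLE (U ⊓ V) _ _ r` where `res s = r • res g` on `U ⊓ V`,
and `γ : push (OX Y) W₀ ⟶ push Q W₀` by `r ↦ r • res g'`.  Then `α g' = 1` gives injectivity and `α ≫ γ = toPush Q W₀` (`pull_hom_ext`) gives surjectivity.
`isPicZero_OX`: `isGen_pull` for `isGen_one ⊤` and `nonempty_iso_of_isGen` (`IsGen.nonempty_iso`, `isIso_suppι_top`).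
-/

open CategoryTheory Limits AlgebraicGeometry TopologicalSpace Opposite

namespace Pool.Agent.Work.MP_e57da2_ag

open Pool.Agent.Work.MP_910138_ag

variable {X Y : Scheme.{0}} (φ : Y ⟶ X) {M P : X.Modules} {N : Y.Modules} {U V : X.Opens}

/-- the inverse image of a section -/
noncomputable def pbSec (s : Γ(M, U)) : Γ((Scheme.Modules.pullback φ).obj M, φ ⁻¹ᵁ U) :=
  ((Scheme.Modules.pullbackPushforwardAdjunction φ).unit.app M).app U s

theorem pbSec_add (s t : Γ(M, U)) : pbSec φ (s + t) = pbSec φ s + pbSec φ t :=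
  gexact_app_add ((Scheme.Modules.pullbackPushforwardAdjunction φ).unit.app M) s t

theorem pbSec_smul (r : Γ(X, U)) (s : Γ(M, U)) : pbSec φ (r • s) = φ.app U r • pbSec φ s :=
  gexact_app_smul ((Scheme.Modules.pullbackPushforwardAdjunction φ).unit.app M) r s

theorem pbSec_res (h : U ≤ V) (s : Γ(M, V)) :
    pbSec φ (res M h s) = res _ (φ.preimage_mono h) (pbSec φ s) :=
  app_res ((Scheme.Modules.pullbackPushforwardAdjunction φ).unit.app M) h s

theorem PullU_homEquiv (f : (Scheme.Modules.pullback φ).obj M ⟶ N) (s : Γ(M, U)) :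
    ((Scheme.Modules.pullbackPushforwardAdjunction φ).homEquiv M N f).app U s =
      f.app _ (pbSec φ s) := by
  rw [Adjunction.homEquiv_unit]
  rfl

theorem pull_hom_ext {f g : (Scheme.Modules.pullback φ).obj M ⟶ N}
    (h : ∀ (U : X.Opens) (s : Γ(M, U)), f.app _ (pbSec φ s) = g.app _ (pbSec φ s)) : f = g :=
  ((Scheme.Modules.pullbackPushforwardAdjunction φ).homEquiv M N).injective
    (hom_ext' fun U s => by rw [PullU_homEquiv, PullU_homEquiv, h])

theorem exists_pull_hom (ψ : ∀ U : X.Opens, Γ(M, U) →+ Γ(N, φ ⁻¹ᵁ U))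
    (nat : ∀ (U V : X.Opens) (h : U ≤ V) (s : Γ(M, V)),
      ψ U (res M h s) = res N (φ.preimage_mono h) (ψ V s))
    (smul : ∀ (U : X.Opens) (r : Γ(X, U)) (s : Γ(M, U)), ψ U (r • s) = φ.app U r • ψ U s) :
    ∃ f : (Scheme.Modules.pullback φ).obj M ⟶ N,
      ∀ (U : X.Opens) (s : Γ(M, U)), f.app _ (pbSec φ s) = ψ U s := by
  refine ⟨((Scheme.Modules.pullbackPushforwardAdjunction φ).homEquiv M N).symm
    (mkHom (N := (Scheme.Modules.pushforward φ).obj N)
      (fun U => { toFun := ψ U, map_add' := map_add _, map_smul' := smul U }) nat), fun U s => ?_⟩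
  rw [← PullU_homEquiv, Equiv.apply_symm_apply]
  rfl

theorem PullU_app_resO (h : U ≤ V) (r : Γ(X, V)) :
    φ.app U (resO X h r) = resO Y (φ.preimage_mono h) (φ.app V r) :=
  ConcreteCategory.congr_hom (φ.naturality (homOfLE h).op) r

theorem isGen_pull {g : Γ(P, V)} (hg : IsGen P V g) :
    IsGen ((Scheme.Modules.pullback φ).obj P) (φ ⁻¹ᵁ V) (pbSec φ g) := by
  choose c hc using fun (U : X.Opens) (s : Γ(P, U)) =>
    (hg (U ⊓ V) inf_le_right).2 (res P inf_le_left s)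
  beta_reduce at hc
  have hu : ∀ (U : X.Opens) (s : Γ(P, U)) (r : Γ(X, U ⊓ V)),
      r • res P inf_le_right g = res P inf_le_left s → c U s = r := fun U s r h =>
    (hg _ _).1 ((hc U s).trans h.symm)
  obtain ⟨α, hα⟩ := exists_pull_hom φ (M := P) (N := push (OX Y) (φ ⁻¹ᵁ V))
    (fun U => AddMonoidHom.mk' (fun s => (φ.app (U ⊓ V) (c U s) :)) fun a b => by
      rw [hu U (a + b) (c U a + c U b) (by rw [add_smul, hc, hc, map_add]), map_add]
      rfl)
    (fun U U' h s => by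
      refine (congrArg _ (hu U _ (resO X (inf_le_inf_right V h) (c U' s)) ?_)).trans
        (PullU_app_resO φ _ _)
      rw [← res_res (inf_le_inf_right V h) inf_le_right, ← res_smul, hc, res_res, res_res])
    fun U r s => by
      refine (congrArg _ (hu U _ (resO X inf_le_left r * c U s) ?_)).trans ?_
      · rw [mul_smul, hc, res_smul]
      · exact (map_mul (φ.app (U ⊓ V)).hom _ _).trans (congrArg (· * _) (PullU_app_resO φ _ r))
  let a : ∀ W : Y.Opens, Γ((Scheme.Modules.pullback φ).obj P, W) → Γ(Y, W ⊓ φ ⁻¹ᵁ V) :=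
    fun W t => α.app W t
  let g' : ∀ W : Y.Opens, Γ((Scheme.Modules.pullback φ).obj P, W ⊓ φ ⁻¹ᵁ V) :=
    fun W => res _ inf_le_right (pbSec φ g)
  have key : ∀ W t, a W t • g' W = res _ inf_le_left t := by
    let γ : push (OX Y) (φ ⁻¹ᵁ V) ⟶ push ((Scheme.Modules.pullback φ).obj P) (φ ⁻¹ᵁ V) :=
      mkHom (fun W =>
        { toFun := fun r => (pushSec _ _ W).symm ((show Γ(Y, W ⊓ φ ⁻¹ᵁ V) from r) • g' W)
          map_add' := fun a b => add_smul (show Γ(Y, W ⊓ φ ⁻¹ᵁ V) from a) b (g' W)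
          map_smul' := fun a b => mul_smul (resO Y inf_le_left a) b (g' W) })
        fun W W' h r => ((res_smul (inf_le_inf_right _ h) (show Γ(Y, W' ⊓ φ ⁻¹ᵁ V) from r)
          (g' W')).trans (congrArg _ (res_res _ _ _))).symm
    have e : α ≫ γ = toPush _ _ := pull_hom_ext φ fun U s => by
      rw [comp_app_apply, hα]
      exact (congrArg _ (pbSec_res φ inf_le_right g).symm).trans ((pbSec_smul φ _ _).symm.trans
        ((congrArg _ (hc U s)).trans (pbSec_res φ _ s)))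
    exact fun W t => congrArg (fun f => f.app W t) e
  have h1 : a (φ ⁻¹ᵁ V) (pbSec φ g) = 1 :=
    (hα V g).trans ((congrArg _ (hu V g 1 (one_smul _ _))).trans (map_one (φ.app (V ⊓ V)).hom))
  intro W h
  have h2 : ∀ r : Γ(Y, W), resO Y (le_inf le_rfl h) (a W (r • res _ h (pbSec φ g))) = r := by
    intro r
    have h3 : a W (r • res _ h (pbSec φ g)) = resO Y inf_le_left r *
        resO Y (inf_le_inf_right _ h) (a (φ ⁻¹ᵁ V) (pbSec φ g)) :=
      (gexact_app_smul α r _).trans (congrArg _ (app_res α h _))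
    rw [h3, h1, map_one, mul_one, resO_resO, resO_self]
  refine ⟨fun r r' e => by rw [← h2 r, ← h2 r', show r • _ = r' • _ from e],
    fun t => ⟨resO Y (le_inf le_rfl h) (a W t), ?_⟩⟩
  have h3 := congrArg (res _ (le_inf le_rfl h)) (key W t)
  rwa [res_smul, res_res, res_res, res_self] at h3

theorem nonempty_iso_of_isGen {g : Γ(P, ⊤)} (hg : IsGen P ⊤ g) : Nonempty (P ≅ OX X) :=
  hg.nonempty_iso.map fun e => (asIso (suppι P ⊤)).symm ≪≫ e ≪≫ asIso (suppι (OX X) ⊤)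

theorem isPicZero_OX {k : Type} [Field k] (A : Sch k) [GrpObj A] : IsPicZero (OX A.left) :=
  ⟨fun _ => ⟨⊤, _, trivial, isGen_one ⊤⟩,
    fun y => nonempty_iso_of_isGen (isGen_pull (tr y).left (isGen_one ⊤))⟩

end Pool.Agent.Work.MP_e57da2_ag
end

-- merged part: Pool.Agent.Work.MP_e57da2_ag.Rep2
section
/-!
# Inverse images in the function field model

Plans.  `Rep.pull`: `exists_pull_hom` into `KK Y` with `ψ U s = kmk fun h => pbs φ D (ev e _ s)` (`pbs_add`, `pbs_O_mul`, `Pb_germ_app`); `EmbOn.of_gen`, `EmbOn.exists_gen`, `isGen_pull`, `pbs_mem_loc`.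
`Rep.pic0`: `Rep.pull`, `RepOn.of_iso`, `Rep.cl_eq`, `pull_cl`.
`repOn_pull_idealPow`: let `J` be the `SubData` of `KK Y` of the sections whose value lies in `secs (fibI φ x q) U` (for the condition `loc` use `kval_res`).  The map
`s ↦ kmk fun h => pb φ (ev e _ s)` (with `e` from `rep_idealPow`) takes values in `J` (`pb_mem_jpow`, `pb_mem_O`), so `exists_pull_hom` gives a morphism to `J.mod`; compose with `J.ι`.
Over `V₀ = {x}ᶜ` the section `g` of `idealPow x q` with value `1` is a generator; `isGen_pull`; its inverse image has the value `pb φ 1 = 1`; `germ_injective`, `mem_B_iff_germ`.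
-/

open CategoryTheory Limits AlgebraicGeometry TopologicalSpace Opposite

namespace Pool.Agent.Work.MP_e57da2_ag

open Pool.Agent.Work.MP_910138_ag

variable {k : Type} [Field k] {X Y : Sch k} [IsIntegral X.left] [IsIntegral Y.left]
  {P : X.left.Modules} {D : Dv X}

omit [IsIntegral X.left] in
theorem Rep2_gp (φ : Y ⟶ X) {U : X.left.Opens} (h : gp Y ∈ φ.left ⁻¹ᵁ U) :
    φ.left (gp Y) ∈ U := h

theorem Rep.pull (h : Rep P (st D)) (φ : Y ⟶ X) :
    Rep ((Scheme.Modules.pullback φ.left).obj P) (st (pl φ D)) := by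
  obtain ⟨e, he⟩ := h
  have mem : ∀ (U : X.left.Opens) (y : Y.left) (hy : φ.left y ∈ U) (s : Γ(P, U)),
      ev e (gp_mem hy) s ∈ st D (φ.left y) := fun U y hy s => mem_secs.1 (he.into U _ s) _ hy
  obtain ⟨f, hf⟩ := exists_pull_hom φ.left (M := P) (N := KK Y)
    (fun U => AddMonoidHom.mk'
      (fun s => kmk fun h => pbs φ D (ev e (gp_mem (Rep2_gp φ h)) s))
      fun a b => kval_ext fun h => by
        change pbs φ D (ev e (gp_mem (Rep2_gp φ h)) (a + b)) =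
          pbs φ D (ev e (gp_mem (Rep2_gp φ h)) a) + pbs φ D (ev e (gp_mem (Rep2_gp φ h)) b)
        rw [map_add]
        exact pbs_add (mem U _ (Rep2_gp φ h) a) (mem U _ (Rep2_gp φ h) b))
    (fun U V hUV s => kval_ext fun h => congrArg (pbs φ D) (ev_res e hUV (gp_mem (Rep2_gp φ h)) s))
    (fun U r s => kval_ext fun h => by
      change pbs φ D (ev e (gp_mem (Rep2_gp φ h)) (r • s)) =
        germ Y _ h ((φ.left.app U).hom r) * pbs φ D (ev e (gp_mem (Rep2_gp φ h)) s)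
      rw [ev_smul, pbs_O_mul (Fn_germ_mem_O (Rep2_gp φ h) r) (mem U _ (Rep2_gp φ h) s)]
      exact congrArg (· * _) (Pb_germ_app h r))
  refine ⟨f, EmbOn.of_gen fun y => ?_⟩
  obtain ⟨W, hx, g, hg, hl⟩ := he.exists_gen (φ.left y)
  refine ⟨φ.left ⁻¹ᵁ W, hx, pbSec φ.left g, isGen_pull φ.left hg, fun z hz => ?_⟩
  rw [ev_def, hf]
  exact (pbs_mem_loc (mem W z hz g)).2 (hl hz)

theorem Rep.pic0 {A : Sch k} [GrpObj A] [IsProper A.hom] [GeometricallyIntegral A.hom]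
    {P : A.left.Modules} {Q : Dv A} (h : Rep P (st Q)) (hP : IsPicZero P) : cl Q ∈ pic0 A := fun y => by
  obtain ⟨i⟩ := hP.2 y
  exact (h.pull (tr y)).cl_eq (h.of_iso i)

open Classical in
/-- the stalks of the ideal generated by the inverse image of `I_x ^ q` -/
noncomputable def fibI (φ : Y ⟶ X) (x : X.left) (q : ℕ) (z : Y.left) : Submodule k (Fn Y) :=
  if φ.left z = x then jpow φ z q else Subalgebra.toSubmodule (O Y z)

theorem fibI_le (φ : Y ⟶ X) (x : X.left) (q : ℕ) (z : Y.left) {v : Fn Y} (hv : v ∈ fibI φ x q z) :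
    v ∈ O Y z := by
  unfold fibI at hv
  split_ifs at hv
  · obtain ⟨a, -, rfl⟩ := mem_jpow.1 hv
    exact a.2
  · exact hv

theorem Rep2_mul (φ : Y ⟶ X) (x : X.left) (q : ℕ) (z : Y.left) (a v : Fn Y) (ha : a ∈ O Y z)
    (hv : v ∈ fibI φ x q z) : a * v ∈ fibI φ x q z := by
  unfold fibI at hv ⊢
  split_ifs at hv ⊢
  · exact O_mul_mem_jpow ha hv
  · exact (O Y z).mul_mem ha hv

theorem Rep2_jet_le {x y : X.left} {q : ℕ} {v : Fn X} (hv : v ∈ jet x q y) : v ∈ O X y := by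
  unfold jet at hv
  split_ifs at hv with h
  · rw [h]
    exact mem_O_of_mp hv
  · exact hv

theorem Rep2_pb_mem (φ : Y ⟶ X) {x : X.left} {q : ℕ} {z : Y.left} {v : Fn X}
    (hv : v ∈ jet x q (φ.left z)) : pb φ v ∈ fibI φ x q z := by
  unfold jet at hv
  unfold fibI
  split_ifs at hv ⊢ with h
  · subst h
    exact pb_mem_jpow hv
  · exact pb_mem_O hv

/-- the subsheaf of `KK Y` given by a family of stalks -/
noncomputable def Rep2_sub (F : Y.left → Submodule k (Fn Y))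
    (hF : ∀ z a v, a ∈ O Y z → v ∈ F z → a * v ∈ F z) : SubData (KK Y) where
  sub U :=
    { carrier := {s | ∀ h : gp Y ∈ U, kval h s ∈ secs F U}
      zero_mem' := fun h => by
        rw [map_zero]
        exact zero_mem _
      add_mem' := fun ha hb h => by
        rw [map_add]
        exact add_mem (ha h) (hb h)
      smul_mem' := fun r s hs h => by
        rw [kval_smul]
        exact mem_secs.2 fun z hz => hF z _ _ (Fn_germ_mem_O hz r) (mem_secs.1 (hs h) z hz) }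
  res_mem hUV s hs h := secs_anti hUV (hs (hUV h))
  loc hs h := mem_secs.2 fun z hz => by
    obtain ⟨V, hV, hzV, h1⟩ := hs z hz
    exact mem_secs.1 (h1 (gp_mem hzV)) z hzV

/-- a section with value `1` is a generator if all values are regular -/
theorem Rep2_isGen {M : X.left.Modules} {e : M ⟶ KK X} {F : X.left → Submodule k (Fn X)}
    (he : EmbOn ⊤ e F) (hF : ∀ y v, v ∈ F y → v ∈ O X y) {V : X.left.Opens} (h : gp X ∈ V)
    {g : Γ(M, V)} (hg : ev e h g = 1) : IsGen M V g := by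
  intro W hW
  by_cases hp : gp X ∈ W
  · have key : ∀ r : Γ(X.left, W), ev e hp (r • res M hW g) = germ X W hp r := fun r => by
      rw [ev_smul, ev_res, hg, mul_one]
    refine ⟨fun r r' hr => germ_injective hp ?_, fun s => ?_⟩
    · rw [← key, ← key]
      exact congrArg (ev e hp) hr
    · obtain ⟨r, hr⟩ := (mem_B_iff_germ hp).1
        (mem_B.2 fun y hy => hF y _ (mem_secs.1 (he.into W hp s) y hy))
      exact ⟨r, he.inj W le_top hp ((key r).trans hr)⟩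
  · exact ⟨fun r r' _ => sec_eq_of_gp (M := OX X.left) hp r r',
      fun s => ⟨0, sec_eq_of_gp hp _ _⟩⟩

theorem repOn_pull_idealPow (φ : Y ⟶ X) {x : X.left} (hx : IsClosed ({x} : Set X.left)) (q : ℕ) :
    RepOn (φ.left ⁻¹ᵁ ⟨{x}ᶜ, hx.isOpen_compl⟩)
      ((Scheme.Modules.pullback φ.left).obj (idealPow x q)) (fibI φ x q) := by
  obtain ⟨e, he⟩ := rep_idealPow x q
  have mem : ∀ (U : X.left.Opens) (y : Y.left) (hy : φ.left y ∈ U) (s : Γ(idealPow x q, U)),
      ev e (gp_mem hy) s ∈ jet x q (φ.left y) := fun U y hy s => mem_secs.1 (he.into U _ s) _ hy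
  let J := Rep2_sub (fibI φ x q) (Rep2_mul φ x q)
  obtain ⟨f, hf⟩ := exists_pull_hom φ.left (M := idealPow x q) (N := J.mod)
    (fun U => AddMonoidHom.mk'
      (fun s => J.mkSec (kmk fun h => pb φ (ev e (gp_mem (Rep2_gp φ h)) s))
        fun _ => mem_secs.2 fun z hz => Rep2_pb_mem φ (mem U z hz s))
      fun a b => J.ι_injective _ (kval_ext fun h => by
        change pb φ (ev e (gp_mem (Rep2_gp φ h)) (a + b)) =
          pb φ (ev e (gp_mem (Rep2_gp φ h)) a) + pb φ (ev e (gp_mem (Rep2_gp φ h)) b)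
        rw [map_add]
        exact pb_add (Rep2_jet_le (mem U _ (Rep2_gp φ h) a))
          (Rep2_jet_le (mem U _ (Rep2_gp φ h) b))))
    (fun U V hUV s => J.ι_injective _ (kval_ext fun h =>
      congrArg (pb φ) (ev_res e hUV (gp_mem (Rep2_gp φ h)) s)))
    (fun U r s => J.ι_injective _ (kval_ext fun h => by
      change pb φ (ev e (gp_mem (Rep2_gp φ h)) (r • s)) =
        germ Y _ h ((φ.left.app U).hom r) * pb φ (ev e (gp_mem (Rep2_gp φ h)) s)
      rw [ev_smul, pb_mul (Fn_germ_mem_O (Rep2_gp φ h) r) (Rep2_jet_le (mem U _ (Rep2_gp φ h) s))]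
      exact congrArg (· * _) (Pb_germ_app h r)))
  have key : ∀ U : Y.left.Opens, U ≤ φ.left ⁻¹ᵁ ⟨{x}ᶜ, hx.isOpen_compl⟩ → ∀ h : gp Y ∈ U,
      ∃ g : Γ((Scheme.Modules.pullback φ.left).obj (idealPow x q), U),
        Function.Surjective (fun r : Γ(Y.left, U) => r • g) ∧
          ∀ r : Γ(Y.left, U), ev (f ≫ J.ι) h (r • g) = germ Y U h r := by
    intro U hU h
    have h1 : φ.left (gp Y) ∈ (⟨{x}ᶜ, hx.isOpen_compl⟩ : X.left.Opens) := hU h
    obtain ⟨g, hg⟩ := he.onto ⟨{x}ᶜ, hx.isOpen_compl⟩ le_top (gp_mem h1) 1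
      (mem_secs.2 fun y hy => by
        unfold jet
        rw [if_neg (show ¬ y = x from hy)]
        exact one_mem (O X y))
    have hgen := isGen_pull φ.left (Rep2_isGen he (fun _ _ => Rep2_jet_le) _ hg)
    refine ⟨res _ hU (pbSec φ.left g), (hgen U hU).2, fun r => ?_⟩
    rw [ev_smul, ev_res, ev_comp, hf]
    change _ * pb φ (ev e _ g) = _
    rw [hg, pb_one, mul_one]
  refine ⟨f ≫ J.ι, Rep2_mul φ x q, fun U h s => J.ι_mem (f.app U s) h, fun U hU h s t hst => ?_,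
    fun U hU h v hv => ?_⟩
  · obtain ⟨g, h1, h2⟩ := key U hU h
    obtain ⟨r, rfl⟩ := h1 s
    obtain ⟨r', rfl⟩ := h1 t
    rw [h2, h2] at hst
    rw [germ_injective h hst]
  · obtain ⟨g, -, h2⟩ := key U hU h
    obtain ⟨r, hr⟩ := (mem_B_iff_germ h).1
      (mem_B.2 fun z hz => fibI_le φ x q z (mem_secs.1 hv z hz))
    exact ⟨r • g, (h2 r).trans hr⟩

end Pool.Agent.Work.MP_e57da2_ag
end
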