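import Pool.Agent.Work.MP_e57da2_ag.Rk3
import Pool.Agent.Work.MP_e57da2_ag.Char
import Pool.Agent.Work.MP_e57da2_ag.Rep2
import Pool.Agent.Work.MP_e57da2_ag.Cech

-- merged part: Pool.Agent.Work.MP_e57da2_ag.Curve2
section
-- merged part: Pool.Agent.Work.MP_e57da2_ag.Jet2
section
/-!
# Hilbert-Samuel functions along a specialisation, affine charts

Plans.  `le_ell`: if `ell` is not strictly increasing Nakayama gives `𝔪 ^ j ≤ prm`, so `prm = 𝔪` as `prm` is prime (`mem_prm`).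
`ell_eq_cd`: both sides are the dimension of `B ⧸ (pr hη ⊔ pr hx ^ j) ≃ O x ⧸ (prm η x ⊔ 𝔪 ^ j)`: onto by `aff_jet`; injective because `O X x` is the localisation (`aff_isLocalization`) and the ideal is primary to the maximal `pr hx`.
`chart_filt`: `Amp.fin`, `ext_sec`, `mul_mem_Gm_iff`.  `hf_eq_rk`: `finrank_map_le_of_ker` in both directions.
-/

open CategoryTheory Limits AlgebraicGeometry TopologicalSpace IsLocalRing Module

namespace Pool.Agent.Work.MP_e57da2_ag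

variable {k : Type} [Field k] {X : Sch k} [IsIntegral X.left] [IsProper X.hom]
  {D E G : Dv X} {x η : X.left} {p q : ℕ} {t₀ : Fn X}

omit [IsProper X.hom] in
theorem Jet2_res (x : Pt X) : FiniteDimensional k (O X (pt x) ⧸ maximalIdeal (O X (pt x))) := by
  refine Module.Finite.of_surjective (Algebra.linearMap k _) fun a => ?_
  obtain ⟨a, rfl⟩ := Ideal.Quotient.mk_surjective a
  obtain ⟨c, hc⟩ := exists_value x a.2
  refine ⟨c, (Ideal.Quotient.eq.2 ?_ : Ideal.Quotient.mk _ a = Ideal.Quotient.mk _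
    (algebraMap k (O X (pt x)) c)).symm⟩
  rw [← pow_one (maximalIdeal _), ← coe_mem_mp]
  exact hc

theorem ell_finite (x : Pt X) (I : Ideal (O X (pt x))) (j : ℕ)
    (h : maximalIdeal (O X (pt x)) ^ j ≤ I) : FiniteDimensional k (O X (pt x) ⧸ I) :=
  haveI := Jet2_res x
  hs_finite _ I j h

theorem ell_mono (x : Pt X) (η : X.left) : Monotone (ell η (pt x)) :=
  haveI := Jet2_res x
  cd_mono (k := k) (J := prm η (pt x)) (𝔪 := maximalIdeal (O X (pt x)))

/-- `j ≤ ell j` when the closure of `η` is not the point `x` -/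
theorem le_ell (x : Pt X) (hη : η ⤳ pt x) (hne : η ≠ pt x) (j : ℕ) : j ≤ ell η (pt x) j := by
  obtain ⟨U, hU, hx, -⟩ := exists_aff (W := ⊤) (x := pt x) trivial
  obtain ⟨b, hb, h1, h2⟩ := aff_separate hU hx (hη.mem_open U.isOpen hx) (pt_closed x) hne
  have hb' : (⟨b, B_le_O hx hb⟩ : O X (pt x)) ∈ maximalIdeal (O X (pt x)) := by
    rw [← pow_one (maximalIdeal _), ← coe_mem_mp]
    exact h1
  induction j with
  | zero => exact Nat.zero_le _
  | succ j ih =>
    refine ih.trans_lt (lt_of_le_of_ne (ell_mono x η (Nat.le_succ j)) fun he => ?_)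
    have := ell_finite x (prm η (pt x) ⊔ maximalIdeal _ ^ j) j le_sup_right
    have := ell_finite x (prm η (pt x) ⊔ maximalIdeal _ ^ (j + 1)) (j + 1) le_sup_right
    have h3 := Dem_eq (k := k) (sup_le_sup_left (Ideal.pow_le_pow_right
      (I := maximalIdeal (O X (pt x))) (Nat.le_succ j)) (prm η (pt x))) he.symm
    have h4 : maximalIdeal (O X (pt x)) ^ j ≤ prm η (pt x) := by
      refine Submodule.le_of_le_smul_of_le_jacobson_bot (I := maximalIdeal (O X (pt x)))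
        (IsNoetherian.noetherian _) (maximalIdeal_le_jacobson _) ?_
      rw [smul_eq_mul, ← pow_succ', h3]
      exact le_sup_right
    exact (h2.pow j).2 ((mem_prm hη _).1 (h4 (Ideal.pow_mem_pow hb' j)))

theorem ell_eq_cd {U : X.left.Opens} (hU : IsAffineOpen U) (hx : x ∈ U) (hη : η ∈ U)
    (hc : IsClosed ({x} : Set X.left)) (hs : η ⤳ x) (j : ℕ) :
    ell η x j = cd k (pr hη) (pr hx) j := by
  let φ : B X U →ₐ[k] O X x ⧸ (prm η x ⊔ maximalIdeal (O X x) ^ j) :=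
    (Ideal.Quotient.mkₐ k _).comp (Subalgebra.inclusion (B_le_O hx))
  have h1 : Function.Surjective φ := fun a => by
    obtain ⟨a, rfl⟩ := Ideal.Quotient.mk_surjective a
    obtain ⟨b, hb, h⟩ := aff_jet hU hx hc a.2 j
    refine ⟨⟨b, hb⟩, (Ideal.Quotient.eq.2 (Ideal.mem_sup_right ?_) :
      Ideal.Quotient.mk _ a = Ideal.Quotient.mk _ ⟨b, B_le_O hx hb⟩).symm⟩
    exact (coe_mem_mp _).1 h
  have h2 : pr hη ⊔ pr hx ^ j = RingHom.ker φ := by
    refine le_antisymm (sup_le (fun b hb => ?_) fun b hb => ?_) fun b hb => ?_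
    · exact Ideal.Quotient.eq_zero_iff_mem.2
        (Ideal.mem_sup_left ((mem_prm hs _).2 ((mem_pr hη b).1 hb)))
    · exact Ideal.Quotient.eq_zero_iff_mem.2
        (Ideal.mem_sup_right ((coe_mem_mp _).1 (coe_mem_mp_of_pr hx hb)))
    obtain ⟨a, ha, c, hc', e⟩ := Submodule.mem_sup.1 (Ideal.Quotient.eq_zero_iff_mem.1 hb)
    have e' : (a : Fn X) + c = b := congrArg Subtype.val e
    obtain ⟨u, hu, hu', hua⟩ := aff_frac hU hx a.2
    have h3 : (⟨_, hua⟩ : B X U) ∈ pr hη :=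
      (mem_pr hη _).2 (O_mul_mem_mp (B_le_O hη hu) ((mem_prm hs a).1 ha))
    have h4 : (⟨u, hu⟩ * b - ⟨_, hua⟩ : B X U) ∈ pr hx ^ j := by
      refine (mem_pr_pow hU hx hc _).2 ?_
      change u * b - u * a ∈ _
      rw [← e', mul_add, add_sub_cancel_left]
      exact O_mul_mem_mp hu'.1 ((coe_mem_mp c).2 hc')
    have h5 : (⟨u, hu⟩ * b : B X U) ∈ pr hη ⊔ pr hx ^ j := by
      simpa using add_mem (Ideal.mem_sup_right h4) (Ideal.mem_sup_left h3)
    have := pr_maximal hU hx hc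
    obtain ⟨y, i, hi, e₁⟩ := Ideal.IsMaximal.exists_inv_pow (pr hx) (x := ⟨u, hu⟩)
      (fun h => hu'.2 ((mem_pr hx _).1 h)) j
    rw [← one_mul b, ← e₁, add_mul, mul_assoc]
    exact add_mem (Ideal.mul_mem_left _ _ h5) (Ideal.mul_mem_right _ _ (Ideal.mem_sup_right hi))
  exact ((Ideal.quotientEquivAlgOfEq k h2).trans
    (Ideal.quotientKerAlgEquivOfSurjective h1)).toLinearEquiv.finrank_eq.symm

omit [IsProper X.hom] in
theorem Jet2_unit (hx : x ∈ loc G t₀) (m : ℕ) : IsU X x (t₀ ^ m * (m • G).f x) := by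
  rw [f_nsmul, ← mul_pow]
  exact (mem_loc.1 hx).pow m

omit [IsProper X.hom] in
theorem Jet2_map (hne : t₀ ≠ 0) (m : ℕ) : (chartF G t₀ m).map
    ((LinearMap.mulLeft k (t₀ ^ m)).comp (B X (loc G t₀)).val.toLinearMap) = Gm (m • G) ⊤ := by
  refine Submodule.map_comap_eq_self fun v hv => ?_
  have e : t₀ ^ m * (v / t₀ ^ m) = v := mul_div_cancel₀ _ (pow_ne_zero _ hne)
  refine ⟨⟨v / t₀ ^ m, mem_Gm_zero.1 ((mul_mem_Gm_iff (D := m • G) (s := t₀ ^ m)
    fun _ hx => Jet2_unit hx m).1 ?_)⟩, e⟩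
  rw [e, zero_add]
  exact Gm_anti le_top hv

omit [IsProper X.hom] in
theorem Jet2_equiv (hne : t₀ ≠ 0) (m : ℕ) : Nonempty (chartF G t₀ m ≃ₗ[k] Gm (m • G) ⊤) :=
  ⟨(Submodule.equivMapOfInjective _ ((mul_right_injective₀ (pow_ne_zero m hne)).comp
    Subtype.val_injective) _).trans (LinearEquiv.ofEq _ _ (Jet2_map hne m))⟩

theorem chart_filt (hG : Amp G) (ht : t₀ ∈ Gm G ⊤) (hne : t₀ ≠ 0) : Filt (chartF G t₀) where
  fin m := by
    have := hG.fin (m • G)
    exact (Jet2_equiv hne m).elim fun e => e.symm.finiteDimensional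
  mono := monotone_nat_of_le_succ fun m b hb => by
    rw [mem_chartF, pow_succ', succ_nsmul', mul_assoc]
    exact mul_mem_Gm ht hb
  one := by
    rw [mem_chartF, zero_nsmul, pow_zero, one_mul, mem_Gm_zero]
    exact one_mem _
  mul a b := Submodule.mul_le.2 fun u hu v hv => by
    rw [mem_chartF, pow_add, add_nsmul, Subalgebra.coe_mul, mul_mul_mul_comm]
    exact mul_mem_Gm hu hv
  exh b := by
    obtain ⟨a, ha⟩ := ext_sec (M := 0) (c := b) ht hne (by
      rw [top_inf_eq, mem_Gm_zero]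
      exact b.2)
    exact ⟨a, mem_chartF.2 (by simpa only [zero_add] using ha a le_rfl)⟩

theorem finrank_chartF (ht : t₀ ∈ Gm G ⊤) (hne : t₀ ≠ 0) (m : ℕ) :
    finrank k (chartF G t₀ m) = h0 (m • G) :=
  (Jet2_equiv hne m).elim fun e => e.finrank_eq

theorem hf_eq_rk (hG : Amp G) (ht : t₀ ∈ Gm G ⊤) (hη : η ∈ loc G t₀) (m : ℕ) :
    hf (chartF G t₀) (pr hη) m = rk (m • G) η := by
  have hne : t₀ ≠ 0 := gp_mem_loc.1 (gp_mem hη)
  have := (chart_filt hG ht hne).fin m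
  have key : ∀ b : B X (loc G t₀), (Ideal.Quotient.mkₐ k (pr hη)).toLinearMap b = 0 ↔
      ((mp X η 1).mkQ.comp ((LinearMap.mulRight k ((m • G).f η)).comp
        ((LinearMap.mulLeft k (t₀ ^ m)).comp (B X (loc G t₀)).val.toLinearMap))) b = 0 := by
    intro b
    refine Ideal.Quotient.eq_zero_iff_mem.trans ((mem_pr hη b).trans
      (Iff.trans ?_ (Submodule.Quotient.mk_eq_zero _).symm))
    change _ ↔ t₀ ^ m * b * (m • G).f η ∈ _
    rw [mul_right_comm, (Jet2_unit hη m).mul_mem_mp_iff]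
  rw [hf, rk, ← Jet2_map hne m, ← Submodule.map_comp, ← Submodule.map_comp]
  exact le_antisymm (finrank_map_le_of_ker _ _ _ fun b _ => (key b).2)
    (finrank_map_le_of_ker _ _ _ fun b _ => (key b).1)

theorem js_of_chart (hG : Amp G) (ht : t₀ ∈ Gm G ⊤) (hx : x ∈ loc G t₀)
    (hc : IsClosed ({x} : Set X.left)) {m : ℕ}
    (h : chartF G t₀ m ⊔ (pr hx ^ p).restrictScalars k = ⊤) : JS (m • G) x p := by
  intro a ha
  have hu := Jet2_unit hx m
  obtain ⟨b, hb, h1⟩ := aff_jet (hG.aff ht) hx hc (mul_mem hu.inv.1 ha) p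
  obtain ⟨y, hy, h2⟩ := Dem_top.1 h ⟨b, hb⟩
  have h3 : b - y ∈ mp X x p := coe_mem_mp_of_pr hx h2
  refine ⟨_, mem_chartF.1 hy, ?_⟩
  have h4 := neg_mem (O_mul_mem_mp hu.1 (add_mem h1 h3))
  rwa [sub_add_sub_cancel, mul_sub, mul_inv_cancel_left₀ hu.ne_zero, neg_sub, mul_right_comm] at h4

end Pool.Agent.Work.MP_e57da2_ag
end

-- merged part: Pool.Agent.Work.MP_e57da2_ag.Rk2
section
/-!
# Upper bound for the rank along a finite morphism

Let `η = φ η'`, `κ`, `κ'` the residue fields of `O X η` and `O Y η'` (`resAlg`).  For `τ` generating `D` at `η'`, `rk D η'` is the dimension of the image in `κ'` of `{s / τ | s ∈ Gm D ⊤}` (`finrank_map_le_of_ker`).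
Plan.  `up_rk`: take `t` free for `G` with finitely many nonzero sections, `t i₀` invertible at `η`; `pl φ G` is ample (`Amp.pl`), `Free.pl`, `Amp.gen_eq` for `M = 0`:
`Gm ((a + m) • pl φ G) = span (pbs t) ^ m * Gm (a • pl φ G)`.  `up_bound` with `D n` the image in `κ` of `chartF G (t i₀) n` (`chart_filt`, `hf_eq_rk`, `aff_frac`) and `E` the image of `Gm (a • pl φ G) / (pbs t i₀) ^ a`;
for `n < a` use `rk_le_add`.
The finiteness of `κ'` over `κ` follows from `resDeg_pos`.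
-/

open CategoryTheory Limits AlgebraicGeometry TopologicalSpace IsLocalRing Module

namespace Pool.Agent.Work.MP_e57da2_ag

variable {k : Type} [Field k] {X Y : Sch k} [IsIntegral X.left] [IsIntegral Y.left]

/-- the value in the residue field at `η` of a function on `U` -/
noncomputable def Rk2_ev {U : X.left.Opens} {η : X.left} (hη : η ∈ U) :
    B X U →ₐ[k] ResidueField (O X η) :=
  (IsScalarTower.toAlgHom k (O X η) (ResidueField (O X η))).comp
    (Subalgebra.inclusion (B_le_O hη))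

theorem Rk2_ev_apply {U : X.left.Opens} {η : X.left} (hη : η ∈ U) (b : B X U) :
    Rk2_ev hη b = residue (O X η) ⟨b, B_le_O hη b.2⟩ := rfl

theorem Rk2_ev_zero {U : X.left.Opens} {η : X.left} (hη : η ∈ U) (b : B X U) :
    Rk2_ev hη b = 0 ↔ b ∈ pr hη := by
  rw [Rk2_ev_apply, residue_eq_zero_iff]
  rfl

/-- the values at `η` of the sections of `n • G`, normalised by `t₀` -/
noncomputable def Rk2_D (G : Dv X) {t₀ : Fn X} {η : X.left} (hη : η ∈ loc G t₀) (n : ℕ) :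
    Submodule k (ResidueField (O X η)) :=
  (chartF G t₀ n).map (Rk2_ev hη).toLinearMap

theorem Rk2_S_pow {φ : Y ⟶ X} (hφ : Dom φ) {G : Dv X} {ι : Type} {t : ι → Fn X}
    (ht : ∀ i, t i ∈ Gm G ⊤) (m : ℕ) :
    ∀ u ∈ Submodule.span k (Set.range fun i => pbs φ G (t i)) ^ m, ∃ s ∈ Gm (m • G) ⊤,
      pbF hφ (s * G.f (φ.left (gp Y)) ^ m) = u := by
  let S : ℕ → Submodule k (Fn Y) := fun m => (Gm (m • G) ⊤).map
    ((pbF hφ).toLinearMap ∘ₗ LinearMap.mulRight k (G.f (φ.left (gp Y)) ^ m))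
  change _ ≤ S m
  induction m with
  | zero =>
    rw [pow_zero, Submodule.one_le]
    refine ⟨1, ?_, ?_⟩
    · rw [zero_nsmul]
      exact mem_Gm_zero.2 (one_mem _)
    · change pbF hφ (1 * _ ^ 0) = 1
      rw [pow_zero, mul_one, map_one]
  | succ m ih =>
    have h1 : Submodule.span k (Set.range fun i => pbs φ G (t i)) ≤ S 1 := by
      rw [Submodule.span_le]
      rintro _ ⟨i, rfl⟩
      refine ⟨t i, ?_, ?_⟩
      · rw [one_nsmul]
        exact ht i
      · change pbF hφ (t i * _ ^ 1) = _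
        rw [pow_one]
        rfl
    rw [pow_succ]
    refine (mul_le_mul' ih h1).trans (Submodule.mul_le.2 ?_)
    rintro _ ⟨s, hs, rfl⟩ _ ⟨s', hs', rfl⟩
    refine ⟨s * s', ?_, ?_⟩
    · rw [add_nsmul]
      exact mul_mem_Gm hs hs'
    · change pbF hφ (s * s' * _ ^ (m + 1)) = pbF hφ (s * _ ^ m) * pbF hφ (s' * _ ^ 1)
      rw [← map_mul]
      congr 1
      ring

theorem Rk2_div {G : Dv X} {t₀ s : Fn X} (h0 : t₀ ≠ 0) {m : ℕ} (hs : s ∈ Gm (m • G) ⊤) :
    ∃ b ∈ chartF G t₀ m, (b : Fn X) = s / t₀ ^ m := by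
  have hle : loc G t₀ ≤ loc (m • G) (t₀ ^ m) := fun x hx => by
    rw [mem_loc, f_nsmul, ← mul_pow]
    exact (mem_loc.1 hx).pow m
  refine ⟨⟨s / t₀ ^ m, (ul_div (Gm_anti le_top hs) hle).1⟩, ?_, rfl⟩
  rw [mem_chartF]
  change t₀ ^ m * (s / t₀ ^ m) ∈ _
  rwa [mul_div_cancel₀ _ (pow_ne_zero m h0)]

variable [IsProper X.hom]

theorem Rk2_finrank {G : Dv X} (hG : Amp G) {t₀ : Fn X} (ht : t₀ ∈ Gm G ⊤) {η : X.left}
    (hη : η ∈ loc G t₀) (n : ℕ) : finrank k (Rk2_D G hη n) = rk (n • G) η := by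
  have hF := chart_filt hG ht (gp_mem_loc.1 (gp_mem hη))
  have := hF.fin n
  rw [← hf_eq_rk hG ht hη, hf, Rk2_D]
  refine le_antisymm (finrank_map_le_of_ker _ _ _ fun v _ hv => ?_)
    (finrank_map_le_of_ker _ _ _ fun v _ hv => ?_)
  · exact (Rk2_ev_zero hη v).2 (Ideal.Quotient.eq_zero_iff_mem.1 hv)
  · exact Ideal.Quotient.eq_zero_iff_mem.2 ((Rk2_ev_zero hη v).1 hv)

theorem Rk2_frac {G : Dv X} (hG : Amp G) {t₀ : Fn X} (ht : t₀ ∈ Gm G ⊤) {η : X.left}
    (hη : η ∈ loc G t₀) (z : ResidueField (O X η)) : ∃ (n : ℕ) (a b : ResidueField (O X η)),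
      a ∈ Rk2_D G hη n ∧ b ∈ Rk2_D G hη n ∧ b ≠ 0 ∧ z * b = a := by
  have hF := chart_filt hG ht (gp_mem_loc.1 (gp_mem hη))
  obtain ⟨h, rfl⟩ := residue_surjective z
  obtain ⟨b, h1, h2, h3⟩ := aff_frac (hG.aff ht) hη h.2
  obtain ⟨m, hm⟩ := hF.exh ⟨b, h1⟩
  obtain ⟨m', hm'⟩ := hF.exh ⟨b * h, h3⟩
  refine ⟨max m m', _, _, ⟨_, hF.mono (le_max_right m m') hm', rfl⟩,
    ⟨_, hF.mono (le_max_left m m') hm, rfl⟩, fun h0 => ?_, ?_⟩
  · exact h2.2 ((mem_pr hη _).1 ((Rk2_ev_zero hη _).1 h0))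
  · change residue (O X η) h * residue (O X η) _ = residue (O X η) _
    rw [← map_mul]
    congr 1
    exact Subtype.ext (mul_comm _ _)

variable [IsProper Y.hom] {φ : Y ⟶ X} [IsFinite φ.left]

theorem up_rk (hφ : Dom φ) {G : Dv X} (hG : Amp G) (hg : GG G) (η' : Y.left) : ∃ c : ℕ, ∀ n : ℕ,
    rk (pl φ (n • G)) η' ≤ resDeg φ η' * rk ((n + c) • G) (φ.left η') := by
  obtain ⟨r, w, hw, hcov⟩ := hg.exists_finite
  let t : {l : Fin r // w l ≠ 0} → Fn X := fun l => w l.1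
  have ht : Free (fun _ => G) t := ⟨fun l => hw l.1, fun l => l.2, fun x => by
    obtain ⟨l, hl⟩ := hcov x
    exact ⟨⟨l, gp_mem_loc.1 (gp_mem hl)⟩, hl⟩⟩
  have hH : Amp (pl φ G) := hG.pl φ
  have ht' := ht.pl φ fun i => by
    rw [hφ]
    exact gp_mem_loc.2 (ht.ne i)
  obtain ⟨a, ha⟩ := hH.gen_eq ht' 0
  obtain ⟨i₀, hη⟩ := ht.cov (φ.left η')
  have hη' : η' ∈ loc (pl φ G) (pbs φ G (t i₀)) :=
    (pbs_mem_loc (mem_secs.1 (ht.mem i₀) _ trivial)).2 hη
  have hF := chart_filt hG (ht.mem i₀) (ht.ne i₀)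
  have hF' := chart_filt hH (ht'.mem i₀) (ht'.ne i₀)
  let := resAlg φ η'
  have : IsScalarTower k (ResidueField (O X (φ.left η'))) (ResidueField (O Y η')) :=
    IsScalarTower.of_algebraMap_eq fun c => by
      change residue _ (algebraMap k _ c) =
        ResidueField.map (pbA φ η').toRingHom (residue _ (algebraMap k _ c))
      rw [ResidueField.map_residue]
      exact congrArg _ ((pbA φ η').commutes c).symm
  have : FiniteDimensional (ResidueField (O X (φ.left η'))) (ResidueField (O Y η')) :=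
    Module.finite_of_finrank_pos (resDeg_pos hφ η')
  have := hF'.fin a
  have : FiniteDimensional k (Rk2_D (pl φ G) hη' a) := by
    unfold Rk2_D
    infer_instance
  obtain ⟨c, hc⟩ := up_bound (Rk2_D G hη)
    (fun n => by
      have := hF.fin n
      unfold Rk2_D
      infer_instance)
    (fun _ _ h => Submodule.map_mono (hF.mono h))
    (fun m m' => by
      unfold Rk2_D
      rw [← Submodule.map_mul]
      exact Submodule.map_mono (hF.mul m m'))
    ⟨1, hF.one, map_one (Rk2_ev hη)⟩ (Rk2_frac hG (ht.mem i₀) hη) (Rk2_D (pl φ G) hη' a)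
  refine ⟨c, fun n => ?_⟩
  obtain ⟨hfin, hle⟩ := hc n
  rw [map_nsmul, ← Rk2_finrank hH (ht'.mem i₀) hη', ← Rk2_finrank hG (ht.mem i₀) hη]
  refine le_trans (Submodule.finrank_mono ?_) hle
  refine le_trans (Submodule.map_mono (hF'.mono (Nat.le_add_left n a))) ?_
  rintro _ ⟨b, hb, rfl⟩
  have hb' := mem_chartF.1 hb
  have e := ha n
  rw [zero_add, zero_add] at e
  rw [e] at hb'
  let T : Submodule k (Fn Y) := Submodule.map
    ((LinearMap.mulLeft k (pbs φ G (t i₀) ^ (a + n))).comp (B Y _).val.toLinearMap)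
    (Submodule.comap (Rk2_ev hη').toLinearMap ((Rk2_D G hη n).map (IsScalarTower.toAlgHom k
      (ResidueField (O X (φ.left η'))) (ResidueField (O Y η'))).toLinearMap *
        Rk2_D (pl φ G) hη' a))
  have hT : Submodule.span k (Set.range fun i => pbs φ G (t i)) ^ n * Gm (a • pl φ G) ⊤ ≤ T := by
    refine Submodule.mul_le.2 fun u hu v hv => ?_
    obtain ⟨s, hs, rfl⟩ := Rk2_S_pow hφ ht.mem n u hu
    obtain ⟨b₀, h₀, e₀⟩ := Rk2_div (ht.ne i₀) hs
    obtain ⟨b₂, h₂, e₂⟩ := Rk2_div (ht'.ne i₀) hv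
    have h₁ : pb φ b₀ ∈ B Y (loc (pl φ G) (pbs φ G (t i₀))) :=
      pb_mem_B (loc_pbs (ht.mem i₀)).le b₀.2
    refine ⟨⟨_, h₁⟩ * b₂, ?_, ?_⟩
    · rw [SetLike.mem_coe, Submodule.mem_comap, AlgHom.toLinearMap_apply, map_mul]
      refine Submodule.mul_mem_mul ⟨_, ⟨b₀, h₀, rfl⟩, ?_⟩ ⟨b₂, h₂, rfl⟩
      change ResidueField.map (pbA φ η').toRingHom (residue _ _) = residue _ _
      rw [ResidueField.map_residue]
      rfl
    · change pbF hφ (t i₀ * _) ^ (a + n) * (pbF hφ b₀ * b₂) = _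
      rw [e₀, e₂]
      have n₀ : pbF hφ (t i₀) ≠ 0 := (map_ne_zero _).2 (ht.ne i₀)
      have n₁ : pbF hφ (G.f (φ.left (gp Y))) ≠ 0 := (map_ne_zero _).2 (G.ne _)
      have e₃ : pbs φ G (t i₀) = pbF hφ (t i₀) * pbF hφ (G.f (φ.left (gp Y))) :=
        map_mul (pbF hφ) _ _
      rw [e₃]
      simp only [map_mul, map_div₀, map_pow]
      field_simp
      ring
  obtain ⟨b', h', e'⟩ := hT hb'
  have : b' = b := Subtype.ext (mul_left_cancel₀ (pow_ne_zero _ (ht'.ne i₀)) e')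
  rw [← this]
  exact h'

end Pool.Agent.Work.MP_e57da2_ag
end

-- merged part: Pool.Agent.Work.MP_e57da2_ag.Curve
section
/-!
# Curves through a point

Plans.  `exists_closure`: `Scheme.IdealSheafData.vanishingIdeal` (or `ofClosedSet`-like) of `closure {η}`, its `subscheme` and `subschemeι` (reduced, with range `closure {η}`), as an object `Over.mk (ι ≫ X.hom)`;
alternatively the scheme theoretic image of `X.left.fromSpecResidueField η`.  A closed embedding with irreducible range has an irreducible source and maps the generic point to `η`.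
`dim_eq_one`, `ne_gp_of_dim`: `topologicalKrullDim` is the Krull dimension of the poset of irreducible closed sets, that is of points (`irreducibleSetEquivPoints`).
`length_eq_ell`: `pbA φ c` is onto (`pbA_surjective`) and local with kernel `prm`; `length_eq_finrank`, `exists_value`, `ell_finite`, `stalkEquiv`.
`closed_of_linear`: let `F n` be the image of `chartF G t₀ n` under `pb φ` (dimension `rk (n • G) (φ (gp C))`: `hf_eq_rk`, `finrank_map_le_of_ker`), `alg_dep_of_linear`; every element of `Fn C` is a quotient of two elements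
of `⋃ F n` (`aff_frac_field`, `pb_B_surjective`, `Amp.aff`); `maximal_of_alg_dep` for `B C U`, `U` an affine neighbourhood of `z`; `closed_of_pr_maximal`.
-/

open CategoryTheory Limits AlgebraicGeometry TopologicalSpace IsLocalRing Module Filter
open scoped ENNReal

namespace Pool.Agent.Work.MP_e57da2_ag

variable {k : Type} [Field k] {X : Sch k}

theorem curve_dim (Y : Scheme.{0}) : topologicalKrullDim Y = Order.krullDim Y :=
  Order.krullDim_eq_of_orderIso (irreducibleSetEquivPoints (α := Y))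

theorem curve_length {R S : Type} [CommRing R] [CommRing S] [IsLocalRing R] [IsLocalRing S]
    (g : R →+* S) (hg : Function.Surjective g) (j : ℕ) :
    Module.length S (S ⧸ maximalIdeal S ^ j) =
      Module.length R (R ⧸ (RingHom.ker g ⊔ maximalIdeal R ^ j)) := by
  let := g.toAlgebra
  have h1 : Function.Surjective (Algebra.ofId R (S ⧸ maximalIdeal S ^ j)) :=
    Ideal.Quotient.mk_surjective.comp hg
  have h2 : RingHom.ker (Algebra.ofId R (S ⧸ maximalIdeal S ^ j)) =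
      RingHom.ker g ⊔ maximalIdeal R ^ j := by
    have h3 := Ideal.comap_map_of_surjective g hg (maximalIdeal R ^ j)
    rw [Ideal.map_pow, map_maximalIdeal_of_surjective g hg, sup_comm] at h3
    rw [RingHom.ker_eq_comap_bot g, ← h3]
    ext a
    exact Ideal.Quotient.eq_zero_iff_mem
  rw [← Module.length_eq_of_surjective (S := R) (R := S) hg, ← h2]
  exact (Ideal.quotientKerAlgEquivOfSurjective h1).toLinearEquiv.length_eq.symm

theorem proper_of_closed [IsProper X.hom] {C : Sch k} (φ : C ⟶ X) [IsClosedImmersion φ.left] :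
    IsProper C.hom := by
  rw [← Over.w φ]
  infer_instance

theorem exists_closure (η : X.left) : ∃ (C : Sch k) (φ : C ⟶ X) (_ : IsClosedImmersion φ.left)
    (_ : IsIntegral C.left), φ.left (gp C) = η ∧ ∀ x, η ⤳ x → ∃ c, φ.left c = x := by
  let I := Scheme.IdealSheafData.vanishingIdeal (X := X.left) ⟨closure {η}, isClosed_closure⟩
  have hr : Set.range I.subschemeι = closure {η} := I.range_subschemeι
  obtain ⟨c₀, hc₀⟩ : η ∈ Set.range I.subschemeι := hr ▸ subset_closure rfl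
  have hgen : IsGenericPoint c₀ Set.univ := by
    rw [isGenericPoint_def, I.subschemeι.isEmbedding.closure_eq_preimage_closure_image,
      Set.image_singleton, hc₀, ← hr, Set.preimage_range]
  have hirr : IrreducibleSpace I.subscheme := (irreducibleSpace_def _).2 hgen.isIrreducible
  have hred : IsReduced I.subscheme := by
    have : ∀ i, IsReduced (I.subschemeCover.openCover.X i) := fun i => by
      have : _root_.IsReduced (Γ(X.left, i.1) ⧸ I.ideal i) :=
        (Ideal.isRadical_iff_quotient_reduced _).1 (PrimeSpectrum.isRadical_vanishingIdeal _)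
      exact inferInstanceAs (IsReduced (Spec (CommRingCat.of (Γ(X.left, i.1) ⧸ I.ideal i))))
    exact IsReduced.of_openCover _ I.subschemeCover.openCover
  have hint : IsIntegral I.subscheme := isIntegral_of_irreducibleSpace_of_isReduced _
  refine ⟨Over.mk (I.subschemeι ≫ X.hom), Over.homMk I.subschemeι rfl,
    inferInstanceAs (IsClosedImmersion I.subschemeι), hint, ?_, fun x hx => ?_⟩
  · exact (congrArg I.subschemeι ((genericPoint_spec I.subscheme).eq hgen)).trans hc₀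
  · exact hr.ge (specializes_iff_mem_closure.1 hx)

theorem dim_eq_one {C : Sch k} [IsIntegral C.left] {c : C.left} (hc : c ≠ gp C)
    (h : ∀ z : C.left, z ≠ gp C → IsClosed ({z} : Set C.left)) : topologicalKrullDim C.left = 1 := by
  rw [curve_dim]
  refine le_antisymm (Order.krullDim_le_one_iff.2 fun z => ?_) (Order.one_le_krullDim_iff.2
    ⟨c, gp C, gp_spec C c, fun h1 => hc (Specializes.antisymm h1 (gp_spec C c)).eq⟩)
  by_cases hz : z = gp C
  · exact Or.inr fun y _ => hz ▸ gp_spec C y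
  · refine Or.inl fun y hy => ?_
    have h1 : z ⤳ y := hy
    have h2 : y = z := h1.mem_closed (h z hz) rfl
    exact h2.ge

theorem ne_gp_of_dim {C : Sch k} [IsIntegral C.left] (h : topologicalKrullDim C.left = 1)
    {c : C.left} (hc : IsClosed ({c} : Set C.left)) : c ≠ gp C := by
  rintro rfl
  rw [curve_dim] at h
  obtain ⟨x, y, hxy⟩ := Order.one_le_krullDim_iff.1 h.ge
  have h1 : x = gp C := (gp_spec C x).mem_closed hc rfl
  have h2 : y = gp C := (gp_spec C y).mem_closed hc rfl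
  rw [h1, h2] at hxy
  exact lt_irrefl _ hxy

variable [IsIntegral X.left] [IsProper X.hom] {C : Sch k} [IsIntegral C.left] (φ : C ⟶ X)
  [IsClosedImmersion φ.left]

theorem curve_length_eq (c : C.left) (j : ℕ) :
    Module.length (C.left.presheaf.stalk c)
      (C.left.presheaf.stalk c ⧸ maximalIdeal (C.left.presheaf.stalk c) ^ j) =
      Module.length (O X (φ.left c)) (O X (φ.left c) ⧸
        (prm (φ.left (gp C)) (φ.left c) ⊔ maximalIdeal (O X (φ.left c)) ^ j)) := by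
  have e : RingHom.ker ((stalkEquiv C c).symm.toRingHom.comp (pbA φ c).toRingHom) =
      prm (φ.left (gp C)) (φ.left c) := by
    ext a
    rw [mem_prm (spec_gp φ c), ← pb_eq_zero (O_le_gp φ c a.2), RingHom.mem_ker]
    exact (map_eq_zero_iff _ (stalkEquiv C c).symm.injective).trans Subtype.ext_iff
  rw [← e]
  exact curve_length _ ((stalkEquiv C c).symm.surjective.comp (pbA_surjective c)) j

theorem length_eq_ell (x : Pt X) {c : C.left} (hc : φ.left c = pt x) (j : ℕ) :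
    Module.length (C.left.presheaf.stalk c)
      (C.left.presheaf.stalk c ⧸ maximalIdeal (C.left.presheaf.stalk c) ^ j) =
      ell (φ.left (gp C)) (pt x) j := by
  rw [curve_length_eq φ c j, hc]
  have := ell_finite x (prm (φ.left (gp C)) (pt x) ⊔ maximalIdeal (O X (pt x)) ^ j) j le_sup_right
  refine length_eq_finrank (fun a => ?_) _
  obtain ⟨b, hb⟩ := exists_value x a.2
  refine ⟨b, ?_⟩
  rw [← pow_one (maximalIdeal _), ← coe_mem_mp]
  exact hb

theorem closed_of_linear {G : Dv X} (hG : Amp G) {t₀ : Fn X} (ht : t₀ ∈ Gm G ⊤)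
    (hη : φ.left (gp C) ∈ loc G t₀) {K : ℕ} (lin : ∀ m, rk (m • G) (φ.left (gp C)) ≤ K * (m + 1))
    {z : C.left} (hz : z ≠ gp C) : IsClosed ({z} : Set C.left) := by
  have := proper_of_closed φ
  have hU := hG.aff ht
  have hF := chart_filt hG ht (gp_mem_loc.1 (gp_mem hη))
  let ψ : B X (loc G t₀) →ₐ[k] Fn C := (O C (gp C)).val.comp
    ((pbA φ (gp C)).comp (Subalgebra.inclusion (B_le_O hη)))
  have hψ : ∀ b, ψ b = pb φ b := fun _ => rfl
  have dep : ∀ a ∈ Set.range ψ, ∀ b ∈ Set.range ψ, ¬ AlgebraicIndependent k ![a, b] := by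
    rintro _ ⟨a, rfl⟩ _ ⟨b, rfl⟩
    obtain ⟨m, hm⟩ := hF.exh a
    obtain ⟨m', hm'⟩ := hF.exh b
    refine alg_dep_of_linear (fun n => (chartF G t₀ n).map ψ.toLinearMap) (fun n => ?_)
      (fun n n' h => Submodule.map_mono (hF.mono h)) (fun n n' => ?_) ⟨1, hF.one, map_one ψ⟩
      (C := K) (fun n => ?_) (n := max m m') ⟨a, hF.mono (le_max_left _ _) hm, rfl⟩
      ⟨b, hF.mono (le_max_right _ _) hm', rfl⟩
    · have := hF.fin n
      infer_instance
    · rw [← Submodule.map_mul]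
      exact Submodule.map_mono (hF.mul n n')
    · have := hF.fin n
      refine le_trans ?_ (lin n)
      rw [← hf_eq_rk hG ht hη]
      refine finrank_map_le_of_ker _ _ _ fun v _ hv => ?_
      exact (pb_eq_zero (B_le_O hη v.2)).2
        ((mem_pr hη v).1 (Ideal.Quotient.eq_zero_iff_mem.1 hv))
  have frac : ∀ w : Fn C, ∃ a ∈ Set.range ψ, ∃ b ∈ Set.range ψ, b ≠ 0 ∧ w * b = a := by
    intro w
    have hη' : gp C ∈ φ.left ⁻¹ᵁ loc G t₀ := hη
    obtain ⟨b, h1, h2, h3⟩ := aff_frac_field (hU.preimage φ.left) hη' w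
    obtain ⟨b', hb', e1⟩ := pb_B_surjective hU hη' h1
    obtain ⟨a', ha', e2⟩ := pb_B_surjective hU hη' h3
    exact ⟨b * w, ⟨⟨a', ha'⟩, (hψ _).trans e2⟩, b, ⟨⟨b', hb'⟩, (hψ _).trans e1⟩, h2,
      mul_comm w b⟩
  obtain ⟨W, hW, hzW, -⟩ := exists_aff (W := ⊤) (x := z) trivial
  have := aff_finiteType hW (gp_mem hzW)
  refine closed_of_pr_maximal hW hzW (maximal_of_alg_dep (B C W).val Subtype.val_injective _
    frac dep _ (pr_prime hzW) fun h0 => hz ?_)
  exact (((aff_spec hW hzW (gp_mem hzW)).2 (h0 ▸ bot_le)).antisymm (gp_spec C z)).eq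

/-- the growth rate of the sections of the multiples of `L` on `C` -/
noncomputable def degI (L : Dv X) : ℝ≥0∞ :=
  limsup (fun m : ℕ => (h0 (pl φ (m • L)) : ℝ≥0∞) / m) atTop

/-- the growth rate of the Hilbert-Samuel function -/
noncomputable def multI (η x : X.left) : ℝ≥0∞ :=
  limsup (fun j : ℕ => (ell η x j : ℝ≥0∞) / j) atTop

end Pool.Agent.Work.MP_e57da2_ag
end

-- merged part: Pool.Agent.Work.MP_e57da2_ag.Curve2
section
/-!
# Degree and multiplicity estimates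

Plans.  `curve_bound`: by contradiction; `η ≠ pt x` since `ell (pt x) (pt x)` is bounded by `1`; the curve is the closure of `η`; for `m` large `h0 (pl φ (m • 2 • L)) = rk` (`restr_surj`); and `h0 (pl φ (n • L)) ≤ h0 (pl φ (m • 2 • L))` for
`m = n / 2 + c` with `c` large (`Amp.gg`, `GG.pl`, `h0_le_add`); `div_le_of_linear`.
`le_degI_div`: `rk (n • L) η ≤ h0 (pl φ (n • L))` (`rk_le_h0`), `Amp.growth` on `C` (`Amp.pl`, `proper_of_closed`), `ne_gp_of_dim`, `le_ell`, `ell_mono`, `le_div_of_jets`.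
-/

open CategoryTheory Limits AlgebraicGeometry TopologicalSpace IsLocalRing Module Filter
open scoped ENNReal

namespace Pool.Agent.Work.MP_e57da2_ag

variable {k : Type} [Field k] {X : Sch k} [IsIntegral X.left] [IsProper X.hom]

omit [IsProper X.hom] in
theorem Curve2_ell_self (x : X.left) (j : ℕ) :
    ell x x (j + 1) = finrank k (O X x ⧸ prm x x) := by
  have h : prm x x ⊔ maximalIdeal (O X x) ^ (j + 1) = prm x x := by
    refine sup_eq_left.2 fun a ha => Ideal.subset_span ?_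
    exact mp_anti (Nat.le_add_left 1 j) ((coe_mem_mp a).2 ha)
  exact congrArg (fun I : Ideal (O X x) => finrank k (O X x ⧸ I)) h

theorem curve_bound {L : Dv X} (hL : Amp L) (h2 : GG (2 • L)) (x : Pt X) {w : ℝ} (hw : 0 ≤ w)
    (h : ∀ (C : Sch k) (φ : C ⟶ X) [IsClosedImmersion φ.left] [IsIntegral C.left],
      topologicalKrullDim C.left = 1 → (∃ c, φ.left c = pt x) →
      ENNReal.ofReal w < degI φ L / multI (φ.left (gp C)) (pt x))
    {η : X.left} (hη : η ⤳ pt x) {a₀ j₀ : ℕ} (ha : 1 ≤ a₀)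
    (hℓ : ∀ j, j₀ ≤ j → ell η (pt x) (j + 1) = ell η (pt x) j + a₀) (K : ℝ) :
    ∃ m : ℕ, 2 * w * a₀ * m + K < rk (m • (2 • L)) η := by
  by_contra hcon
  push Not at hcon
  have hne : η ≠ pt x := by
    rintro rfl
    have h1 := hℓ (j₀ + 1) (Nat.le_succ _)
    rw [Curve2_ell_self, Curve2_ell_self] at h1
    omega
  obtain ⟨C, φ, i1, i2, rfl, hC⟩ := exists_closure η
  obtain ⟨c, hc⟩ := hC _ hη
  have := proper_of_closed φ
  have hL2 : Amp (2 • L) := hL.nsmul two_pos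
  obtain ⟨t₀, ht₀, hloc⟩ := h2 (φ.left (gp C))
  have hwa : 0 ≤ w * a₀ := mul_nonneg hw (Nat.cast_nonneg _)
  have lin : ∀ m, rk (m • (2 • L)) (φ.left (gp C)) ≤ (⌈2 * w * a₀⌉₊ + ⌈K⌉₊) * (m + 1) := by
    intro m
    have h1 := hcon m
    have h3 := Nat.le_ceil (2 * w * a₀)
    have h4 := Nat.le_ceil K
    have h5 : (0 : ℝ) ≤ m := Nat.cast_nonneg _
    have h6 : (0 : ℝ) ≤ ⌈K⌉₊ := Nat.cast_nonneg _
    have h7 : (0 : ℝ) ≤ ⌈2 * w * a₀⌉₊ := Nat.cast_nonneg _
    have h8 : (rk (m • (2 • L)) (φ.left (gp C)) : ℝ) ≤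
        ((⌈2 * w * a₀⌉₊ : ℝ) + ⌈K⌉₊) * (m + 1) := by nlinarith
    exact_mod_cast h8
  have hcg : c ≠ gp C := by
    rintro rfl
    exact hne hc
  have hd : topologicalKrullDim C.left = 1 :=
    dim_eq_one hcg fun z hz => closed_of_linear φ hL2 ht₀ hloc lin hz
  refine absurd (h C φ hd ⟨c, hc⟩) (not_lt.2 ?_)
  obtain ⟨m₀, hm₀⟩ := restr_surj hL2 h2 φ
  obtain ⟨r₀, hr₀⟩ := hL.gg 0
  refine div_le_of_linear (ℓ := ell (φ.left (gp C)) (pt x)) (h := fun n => h0 (pl φ (n • L)))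
    ha hℓ hw (C := 2 * w * a₀ * (m₀ + r₀ + 1 : ℕ) + K) fun n => ?_
  obtain ⟨r, hr, e⟩ : ∃ r, r₀ ≤ r ∧ n + r = (n / 2 + (m₀ + r₀ + 1)) * 2 :=
    ⟨(n / 2 + (m₀ + r₀ + 1)) * 2 - n, by omega, by omega⟩
  obtain ⟨s, hs, hs0⟩ := ((hr₀ r hr).pl φ).exists_ne_zero
  rw [zero_add] at hs
  have := (hL.pl φ).fin (pl φ (n • L) + pl φ (r • L))
  have h1 : h0 (pl φ (n • L)) ≤ h0 (pl φ (n • L) + pl φ (r • L)) := h0_le_add hs hs0
  rw [← map_add, ← add_nsmul, e, mul_nsmul', hm₀ _ (by omega)] at h1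
  have h3 := hcon (n / 2 + (m₀ + r₀ + 1))
  have h4 : ((n / 2 : ℕ) : ℝ) * 2 ≤ n := by exact_mod_cast Nat.div_mul_le_self n 2
  have h5 : (h0 (pl φ (n • L)) : ℝ) ≤ rk ((n / 2 + (m₀ + r₀ + 1)) • (2 • L)) (φ.left (gp C)) := by
    exact_mod_cast h1
  rw [Nat.cast_add] at h3
  nlinarith

theorem le_degI_div [Infinite k] {C : Sch k} [IsIntegral C.left] (φ : C ⟶ X)
    [IsClosedImmersion φ.left] {L : Dv X} (hL : Amp L) (x : Pt X)
    (hd : topologicalKrullDim C.left = 1) {c : C.left} (hc : φ.left c = pt x) {a b p c₁ c₂ : ℕ}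
    (hb : 0 < b) (hp : 0 < p) (key : ∀ m, ∃ n, b * n ≤ a * m + c₂ ∧
      ell (φ.left (gp C)) (pt x) (m * p - c₁) ≤ rk (n • L) (φ.left (gp C))) :
    ((p * b : ℕ) : ℝ≥0∞) / a ≤ degI φ L / multI (φ.left (gp C)) (pt x) := by
  have := proper_of_closed φ
  have inj : Function.Injective φ.left := φ.left.isClosedEmbedding.injective
  have hcl : IsClosed ({c} : Set C.left) := by
    have h1 := (pt_closed x).preimage φ.left.continuous
    rwa [← hc, ← Set.image_singleton, Set.preimage_image_eq _ inj] at h1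
  have hne : φ.left (gp C) ≠ pt x := fun e =>
    ne_gp_of_dim hd hcl (inj (hc.trans e.symm))
  have hη : φ.left (gp C) ⤳ pt x := hc ▸ (genericPoint_specializes c).map φ.left.continuous
  obtain ⟨K, hK⟩ := (hL.pl φ).growth (g := 1) (by rw [hd]; exact le_rfl) 0
  refine le_div_of_jets (ℓ := ell (φ.left (gp C)) (pt x)) (h := fun n => h0 (pl φ (n • L)))
    (ell_mono x _) (le_ell x hη hne) (C := K) (fun n => ?_) hb hp (c₁ := c₁) (c₂ := c₂)
    fun m => ?_
  · have h1 := hK n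
    rwa [zero_add, pow_one, ← map_nsmul] at h1
  · obtain ⟨n, h1, h2⟩ := key m
    have := hL.fin (n • L)
    have := (hL.pl φ).fin (pl φ (n • L))
    exact ⟨n, h1, h2.trans (rk_le_h0 φ)⟩

end Pool.Agent.Work.MP_e57da2_ag
end
end

-- merged part: Pool.Agent.Work.MP_e57da2_ag.Main
section
-- merged part: Pool.Agent.Work.MP_e57da2_ag.PicA
section
/-!
# Consequences of the theorem of the cube

Plans.  `square`: `cube` for `𝟙 A`, `toUnit A ≫ x`, `toUnit A ≫ y`.  `pull_inv_of_pic0`: `seesaw` for `𝟙 A`, `(𝟙 A)⁻¹`.  `pull_mulBy`: two step induction, `cube` for `𝟙 A ^ (n+1)`, `𝟙 A`, `(𝟙 A)⁻¹`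
gives `m (n+2) = 2 m (n+1) - m n + c + c'` (after simplification); `Nat.choose_succ_succ`.  `inv_sub_mem`: `tr y ≫ (𝟙 A)⁻¹ = (𝟙 A)⁻¹ ≫ tr y⁻¹`, and
`pull (tr y⁻¹) c - c ∈ pic0`.  `gg_two`: for a closed point `pt x` choose `a, b` with `pt a, pt b ∈ loc L θ` and `a * b = x ^ 2` (`exists_pt_mul`), `y = a * x⁻¹`;
then `pbs (tr y) L θ * pbs (tr y⁻¹) L θ` generates `pl (tr y) L + pl (tr y⁻¹) L` at `pt x`, and this divisor has class `2 • cl L`; `GG.of_closed`, `exists_of_cl_eq`.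
`mulBy_finite`: `H = L + pl (𝟙 A)⁻¹ L` is ample (`Amp.pl`, `Amp.add`), symmetric, so `pull (mulBy A b) (cl H) = b ^ 2 • cl H`; `finite_of_amp`.
`van_mulBy`: let `M = s • L + Q`, `G = M + c • H` globally generated (`Amp.gg`); `cl (pl (mulBy A n) M) = cl ((n.choose 2 * s - n * c) • H + n • G)` when `n c ≤ n.choose 2 * s`; `Amp.van` with `M = 0`.
-/

open CategoryTheory Limits AlgebraicGeometry TopologicalSpace MonoidalCategory
  CartesianMonoidalCategory MonObj

namespace Pool.Agent.Work.MP_e57da2_ag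

variable {k : Type} [Field k] [IsAlgClosed k] {A : Sch k} [GrpObj A] [IsProper A.hom]
  [GeometricallyIntegral A.hom] {L : Dv A}

theorem square (hL : Amp L) (x y : Pt A) (c : Pic A) :
    pull (tr (x * y)) c + c = pull (tr x) c + pull (tr y) c := by
  have h := cube hL (𝟙 A) (toUnit A ≫ x) (toUnit A ≫ y) c
  rw [cub, _root_.mul_assoc, ← MonObj.comp_mul, pull_const, pull_const, pull_const, pull_id] at h
  change pull (tr (x * y)) c - pull (tr x) c - pull (tr y) c - 0 + c + 0 + 0 = 0 at h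
  rw [← sub_eq_zero, ← h]
  abel

theorem tr_sub_mem (hL : Amp L) (x : Pt A) (c : Pic A) : pull (tr x) c - c ∈ pic0 A := fun y => by
  rw [map_sub, ← pull_comp, ← tr_mul, sub_eq_sub_iff_add_eq_add, square hL, add_comm]

theorem pull_inv_of_pic0 (hL : Amp L) {q : Pic A} (hq : q ∈ pic0 A) : pull (𝟙 A)⁻¹ q = -q := by
  have h := seesaw hL hq (𝟙 A) (𝟙 A)⁻¹
  rw [lam, mul_inv_cancel, pull_one, pull_id, sub_eq_zero, zero_sub] at h
  exact h.symm

theorem PicA_square_inv (hL : Amp L) (y : Pt A) (c : Pic A) :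
    pull (tr y) c + pull (tr y⁻¹) c = c + c := by
  rw [← square hL, mul_inv_cancel, tr_one, pull_id]

omit [IsAlgClosed k] in
theorem PicA_tr_inv (y : Pt A) : tr y ≫ (𝟙 A)⁻¹ = (𝟙 A)⁻¹ ≫ tr y⁻¹ := by
  rw [comp_tr, GrpObj.comp_inv, GrpObj.comp_inv, Category.comp_id, tr, mul_inv]

theorem inv_sub_mem (hL : Amp L) (c : Pic A) : pull (𝟙 A)⁻¹ c - c ∈ pic0 A := fun y => by
  have h1 := pull_inv_of_pic0 hL (tr_sub_mem hL y⁻¹ c)
  rw [map_sub, sub_eq_iff_eq_add] at h1
  rw [map_sub, ← pull_comp, PicA_tr_inv, pull_comp, h1,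
    eq_sub_of_add_eq (PicA_square_inv hL y c)]
  abel

theorem PicA_step (hL : Amp L) (n : ℕ) (c : Pic A) : pull (mulBy A (n + 2)) c =
    2 • pull (mulBy A (n + 1)) c - pull (mulBy A n) c + c + pull (𝟙 A)⁻¹ c := by
  have h := cube hL (𝟙 A ^ (n + 1)) (𝟙 A) (𝟙 A)⁻¹ c
  have e : (𝟙 A : A ⟶ A) ^ (n + 1) * (𝟙 A)⁻¹ = 𝟙 A ^ n := by rw [pow_succ, mul_inv_cancel_right]
  rw [cub, mul_inv_cancel_right, e, mul_inv_cancel, pull_one, pull_id, ← pow_succ] at h
  change pull (mulBy A (n + 1)) c - pull (mulBy A (n + 2)) c - pull (mulBy A n) c - 0 +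
    pull (mulBy A (n + 1)) c + c + pull (𝟙 A)⁻¹ c = 0 at h
  rw [eq_comm, ← sub_eq_zero, ← h]
  abel

theorem PicA_choose (n : ℕ) : (n + 1).choose 2 = n.choose 2 + n := by
  rw [Nat.choose_succ_succ, Nat.choose_one_right, add_comm]

theorem PicA_sq (n : ℕ) : (n + 1).choose 2 + n.choose 2 = n ^ 2 := by
  induction n with
  | zero => rfl
  | succ n ih =>
    rw [PicA_choose] at ih
    rw [PicA_choose, PicA_choose]
    nlinarith

theorem pull_mulBy (hL : Amp L) (n : ℕ) (c : Pic A) :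
    pull (mulBy A n) c = (n + 1).choose 2 • c + n.choose 2 • pull (𝟙 A)⁻¹ c := by
  induction n using Nat.twoStepInduction with
  | zero =>
    rw [mulBy, pow_zero, pull_one]
    simp
  | one =>
    rw [mulBy_one, pull_id]
    simp
  | more n h0 h1 =>
    rw [PicA_step hL, h0, h1]
    simp only [PicA_choose, add_nsmul, one_nsmul]
    abel

theorem pull_mulBy_sub (hL : Amp L) (n : ℕ) (c : Pic A) :
    pull (mulBy A n) c - n ^ 2 • c ∈ pic0 A := by
  have h := nsmul_mem (inv_sub_mem hL c) (n.choose 2)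
  rw [pull_mulBy hL, ← PicA_sq, add_nsmul, add_sub_add_left_eq_sub, ← nsmul_sub]
  exact h

theorem gg_two (hL : Amp L) {θ : Fn A} (hθ : θ ∈ Gm L ⊤) (h0 : θ ≠ 0) : GG (2 • L) := by
  refine GG.of_closed fun z hz => ?_
  obtain ⟨x, rfl⟩ := exists_pt hz
  obtain ⟨a, b, ha, hb, hab⟩ := exists_pt_mul (gp_mem_loc.2 h0 : gp A ∈ loc L θ)
    (gp_mem_loc.2 h0 : gp A ∈ loc L θ) (x * x)
  have m : ∀ y : Pt A, pbs (tr y) L θ ∈ Gm (pl (tr y) L) ⊤ := fun y =>
    pbs_mem_Gm (U := ⊤) (fun _ _ => trivial) hθ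
  have l : ∀ y : Pt A, pt (x * y) ∈ loc L θ → pt x ∈ loc (pl (tr y) L) (pbs (tr y) L θ) :=
    fun y hy => by
      refine (pbs_mem_loc (mem_secs.1 hθ _ trivial)).2 ?_
      rwa [← pt_comp, pt_comp_tr]
  have e : cl (pl (tr (x⁻¹ * a)) L + pl (tr (x⁻¹ * a)⁻¹) L) = cl (2 • L) := by
    rw [map_add, ← pull_cl, ← pull_cl, PicA_square_inv hL, map_nsmul, two_nsmul]
  obtain ⟨u, -, -, -, h1, h2⟩ := exists_of_cl_eq e
  refine ⟨_, (h1 ⊤ _).1 (mul_mem_Gm (m _) (m _)), ?_⟩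
  rw [h2, loc_mul_top (m _) (m _)]
  refine ⟨l _ ?_, l _ ?_⟩
  · rwa [mul_inv_cancel_left]
  · rwa [mul_inv_rev, inv_inv, mul_left_comm, ← hab, inv_mul_cancel_left]

omit [IsAlgClosed k] in
theorem PicA_amp (hL : Amp L) : Amp (L + pl (𝟙 A)⁻¹ L) :=
  have : IsIso ((𝟙 A)⁻¹ : A ⟶ A).left := inferInstanceAs (IsIso ((Over.forget _).map _))
  hL.add (hL.pl _)

omit [IsAlgClosed k] in
theorem PicA_inv_inv (c : Pic A) : pull (𝟙 A)⁻¹ (pull (𝟙 A)⁻¹ c) = c := by
  rw [← pull_comp, GrpObj.comp_inv, Category.comp_id, inv_inv, pull_id]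

theorem mulBy_finite (hL : Amp L) {b : ℕ} (hb : 0 < b) : IsFinite (mulBy A b).left := by
  refine finite_of_amp _ (PicA_amp hL) (((PicA_amp hL).nsmul (pow_pos hb 2)).congr ?_)
  have e : pull (𝟙 A)⁻¹ (cl (L + pl (𝟙 A)⁻¹ L)) = cl (L + pl (𝟙 A)⁻¹ L) := by
    rw [map_add, map_add, ← pull_cl, PicA_inv_inv, add_comm]
  rw [← pull_cl, pull_mulBy hL, e, ← add_nsmul, PicA_sq, map_nsmul]

theorem van_mulBy (hL : Amp L) {s : ℕ} (hs : 1 ≤ s) {Q : Dv A} (hQ : cl Q ∈ pic0 A) :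
    ∃ n₀, ∀ n, n₀ ≤ n → Van (pl (mulBy A n) (s • L + Q)) := by
  obtain ⟨c, hc⟩ := (PicA_amp hL).gg (s • L + Q)
  obtain ⟨m₀, hm⟩ := (PicA_amp hL).van (hc c le_rfl) 0
  refine ⟨2 * (c + m₀) + 1, fun n hn => ?_⟩
  have h1 : n * c + m₀ ≤ n.choose 2 * s := by
    have h2 := PicA_sq n
    rw [PicA_choose] at h2
    have h3 : n.choose 2 ≤ n.choose 2 * s := Nat.le_mul_of_pos_right _ hs
    have h4 : n * (2 * (c + m₀) + 1) ≤ n * n := Nat.mul_le_mul_left n hn
    have h5 : m₀ ≤ n * m₀ := Nat.le_mul_of_pos_left _ (by omega)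
    nlinarith
  obtain ⟨d, hd⟩ := Nat.exists_eq_add_of_le h1
  refine (hm (m₀ + d) (Nat.le_add_right _ _) n).congr ?_
  have e : (n.choose 2 * s) • cl (L + pl (𝟙 A)⁻¹ L) =
      (n * c + m₀ + d) • cl (L + pl (𝟙 A)⁻¹ L) := by rw [hd]
  rw [← pull_cl, pull_mulBy hL, PicA_choose]
  simp only [map_add, map_nsmul, map_zero, ← pull_cl, pull_inv_of_pic0 hL hQ] at e ⊢
  generalize pull (𝟙 A)⁻¹ (cl L) = l' at e ⊢
  generalize cl L = l at e ⊢
  generalize cl Q = q
  generalize n.choose 2 = N at e ⊢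
  linear_combination (norm := module) -e

end Pool.Agent.Work.MP_e57da2_ag
end

-- merged part: Pool.Agent.Work.MP_e57da2_ag.Vanish
section
/-!
# The vanishing theorem, global generation and the bound on sections

Plans.  `vanish`: `van_mulBy`, an `n ≥ n₀` invertible in `k` (`exists_cast_ne_zero`), `van_of_van_pl`.
`gg_of_van_two`: `exists_free` for `2 • L`, `gg_of_van` with `M = (s - 2 g) • L + Q`.
`h0_add_tors`: `Van (s • L + j • P)` for `s ≥ 1` by `van_of_van_pl` (its pull-back has the class of `pl μ (s • L)`, which is `n ^ 2 s • cl L` plus an element of `pic0`, `pull_mulBy_sub`).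
With `c = 2 g + 2`, `c • L` and `c • L + P` are globally generated; `exists_free`, `koszul_euler` with `G i = if i ∈ S₀ then c • L + P else c • L`; `torsion_invariance`.
`h0_bound`: choose `n ≥ 2` invertible in `k` with `n ^ 2 ≥ a + 2 g + 2`, `N = n ^ (2 g)`.  By `decomp` and `h0_add_tors`, `h0 (pl μ (s • L)) = N' * h0 (s • L)`;
`h0 (pl μ (s • L)) ≤ h0 ((n ^ 2 s + c) • L)` and `h0 (a • L) ≤ h0 (pl μ L)` by `h0_le_add`, `gg_pic0`; `card_le_of_growth`, `Amp.growth`.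
-/

open CategoryTheory Limits AlgebraicGeometry TopologicalSpace MonoidalCategory
  CartesianMonoidalCategory MonObj

namespace Pool.Agent.Work.MP_e57da2_ag

theorem exists_cast_ne_zero (k : Type) [Field k] (n₀ : ℕ) : ∃ n, n₀ ≤ n ∧ (n : k) ≠ 0 := by
  by_cases h : (n₀ : k) = 0
  · refine ⟨n₀ + 1, Nat.le_succ _, ?_⟩
    rw [Nat.cast_add, h, zero_add, Nat.cast_one]
    exact one_ne_zero
  · exact ⟨n₀, le_rfl, h⟩

theorem vanish_pos {k : Type} [Field k] {n : ℕ} (hn : (n : k) ≠ 0) : 0 < n :=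
  Nat.pos_of_ne_zero fun e => hn (by rw [e, Nat.cast_zero])

variable {k : Type} [Field k] [IsAlgClosed k] {A : Sch k} [GrpObj A] [IsProper A.hom]
  [GeometricallyIntegral A.hom] {L : Dv A} {g : ℕ}

/-- a principal polarisation on an abelian variety of dimension `g` -/
structure PP (g : ℕ) (L : Dv A) : Prop where
  dim : topologicalKrullDim A.left = g
  amp : Amp L
  one : h0 L = 1

theorem PP.dom (h : PP g L) {b : ℕ} (hb : 0 < b) : Dom (mulBy A b) :=
  haveI := mulBy_finite h.amp hb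
  dom_of_finite h.dim _

theorem PP.gg_two (h : PP g L) : GG (2 • L) := by
  have : Nontrivial (Gm L ⊤) := Module.nontrivial_of_finrank_eq_succ (R := k) (n := 0) h.one
  obtain ⟨θ, hθ⟩ := exists_ne (0 : Gm L ⊤)
  exact Pool.Agent.Work.MP_e57da2_ag.gg_two h.amp θ.2 fun e => hθ (Subtype.ext e)

theorem PP.vanish (h : PP g L) {s : ℕ} (hs : 1 ≤ s) {Q : Dv A} (hQ : cl Q ∈ pic0 A) :
    Van (s • L + Q) := by
  obtain ⟨n₀, hv⟩ := van_mulBy h.amp hs hQ
  obtain ⟨n, hle, hn⟩ := exists_cast_ne_zero k n₀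
  have := mulBy_finite h.amp (vanish_pos hn)
  exact van_of_van_pl (h.dom (vanish_pos hn)) hn (hv n hle)

theorem PP.gg_of_van_two (h : PP g L) {Q : Dv A} (hQ : ∀ s : ℕ, 1 ≤ s → Van (s • L + Q)) {s : ℕ}
    (hs : 2 * g + 1 ≤ s) : GG (s • L + Q) := by
  obtain ⟨t, ht⟩ := exists_free h.dim.le (fun _ => 2 • L) fun _ => h.gg_two
  obtain ⟨r, rfl⟩ := Nat.exists_eq_add_of_le hs
  have e : ∀ j : ℕ, (r + 1) • L + Q + j • 2 • L = (2 * j + 1 + r) • L + Q := fun j => by
    rw [smul_smul, add_right_comm, ← add_nsmul]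
    congr 2
    ring
  rw [← e]
  refine gg_of_van (h.amp.nsmul two_pos) ht fun j => ?_
  rw [e]
  exact hQ _ (by omega)

theorem PP.gg_pic0 (h : PP g L) {Q : Dv A} (hQ : cl Q ∈ pic0 A) {s : ℕ} (hs : 2 * g + 1 ≤ s) :
    GG (s • L + Q) := h.gg_of_van_two (fun _ hs => h.vanish hs hQ) hs

theorem vanish_pl (hL : Amp L) (n s : ℕ) : ∃ Q : Dv A, cl Q ∈ pic0 A ∧
    cl ((n ^ 2 * s) • L + Q) = cl (pl (mulBy A n) (s • L)) := by
  obtain ⟨Q, hQ⟩ := cl_surjective (pull (mulBy A n) (cl (s • L)) - n ^ 2 • cl (s • L))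
  refine ⟨Q, hQ ▸ pull_mulBy_sub hL n _, ?_⟩
  rw [map_add, hQ, pull_cl, mul_smul, map_nsmul, add_sub_cancel]

theorem vanish_sum (L P : Dv A) (c s j : ℕ) (S T : Finset (Fin (g + 1))) :
    s • L + j • P + ∑ i ∈ S, (c • L + (if i ∈ T then 1 else 0 : ℕ) • P) =
      (s + c * S.card) • L + (j + (S ∩ T).card) • P := by
  rw [Finset.sum_add_distrib, Finset.sum_const, ← Finset.sum_smul, Finset.sum_ite_mem,
    Finset.sum_const, smul_eq_mul, Nat.mul_one, smul_smul, add_nsmul, add_nsmul, mul_comm c]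
  abel

theorem PP.h0_add_tors (h : PP g L) {n : ℕ} (hn : (n : k) ≠ 0) {P : Dv A}
    (h₁ : cl (pl (mulBy A n) P) = 0) (h₂ : n • cl P = 0) {s : ℕ} (hs : 1 ≤ s) :
    h0 (s • L + P) = h0 (s • L) := by
  have hn' := vanish_pos hn
  have := mulBy_finite h.amp hn'
  have hv : ∀ j s : ℕ, 1 ≤ s → Van (s • L + j • P) := fun j s hs => by
    obtain ⟨Q, hQ, e⟩ := vanish_pl h.amp n s
    refine van_of_van_pl (h.dom hn') hn ((h.vanish (Nat.mul_pos (pow_pos hn' 2) hs) hQ).congr ?_)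
    rw [e, map_add, map_add, map_nsmul (pl (mulBy A n)) j, map_nsmul cl j, h₁, smul_zero, add_zero]
  have key := torsion_invariance (g := g) (c := 2 * g + 1) (Nat.succ_pos _) hn'
    (fun s j => (h0 (s • L + j • P) : ℤ)) (fun T s j hs => ?_) (fun s j => ?_) s 1 hs
  · simp only [one_nsmul, zero_nsmul, add_zero, Nat.cast_inj] at key
    exact key
  · obtain ⟨t, ht⟩ := exists_free h.dim.le
      (fun i => (2 * g + 1) • L + (if i ∈ T then 1 else 0 : ℕ) • P)
      fun i => h.gg_of_van_two (hv _) le_rfl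
    have := koszul_euler (M := s • L + j • P) ht
      (fun S => by
        rw [vanish_sum]
        exact hv _ _ (le_add_right hs)) fun S => h.amp.fin _
    simpa only [vanish_sum] using this
  · refine congrArg _ (h0_congr ?_)
    rw [add_nsmul, ← add_assoc, map_add cl _ (n • P), map_nsmul cl n, h₂, add_zero]

theorem h0_bound (k : Type) [Field k] [IsAlgClosed k] (g a : ℕ) : ∃ N : ℕ,
    ∀ (A : Sch k) [GrpObj A] [IsProper A.hom] [GeometricallyIntegral A.hom] (L : Dv A),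
      PP g L → h0 (a • L) ≤ N := by
  obtain ⟨n, hle, hn⟩ := exists_cast_ne_zero k (a + 2 * g + 2)
  refine ⟨n ^ (2 * g), fun A _ _ _ L h => ?_⟩
  have hn' := vanish_pos hn
  have := mulBy_finite h.amp hn'
  obtain ⟨N, P, hP, hd⟩ := decomp (h.dom hn') hn h.amp
  have e : ∀ s : ℕ, 1 ≤ s → h0 (pl (mulBy A n) (s • L)) = N * h0 (s • L) := fun s hs => by
    rw [hd, Finset.sum_congr rfl fun i _ => h.h0_add_tors hn (hP i).1 (hP i).2 hs,
      Finset.sum_const, Finset.card_univ, Fintype.card_fin, smul_eq_mul]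
  have le : ∀ D E : Dv A, GG E → h0 D ≤ h0 (D + E) := fun D E hE => by
    obtain ⟨u, hu, hu'⟩ := hE.exists_ne_zero
    have := h.amp.fin (D + E)
    exact h0_le_add hu hu'
  obtain ⟨C, hC⟩ := h.amp.growth h.dim.le 0
  have h1 : h0 (1 • L) = 1 := by rw [one_nsmul, h.one]
  have hN : N ≤ n ^ (2 * g) := by
    refine card_le_of_growth (c := 2 * g + 1) (C := C) (by omega) (fun s => h0 (s • L)) h1
      (fun s => by simpa only [zero_add] using hC s) fun s hs => ?_
    obtain ⟨Q, hQ, eQ⟩ := vanish_pl h.amp n s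
    have h2 := le ((n ^ 2 * s) • L + Q) ((2 * g + 1) • L + -Q)
      (h.gg_pic0 (by rw [map_neg]; exact neg_mem hQ) le_rfl)
    rw [h0_congr eQ, e s hs, add_add_add_comm, add_neg_cancel, add_zero, ← add_nsmul] at h2
    exact h2
  obtain ⟨Q, hQ, eQ⟩ := vanish_pl h.amp n 1
  have h3 : a + (2 * g + 1) ≤ n ^ 2 * 1 := by nlinarith
  obtain ⟨r, hr⟩ := Nat.exists_eq_add_of_le h3
  have h2 := le (a • L) ((2 * g + 1 + r) • L + Q) (h.gg_pic0 hQ (Nat.le_add_right _ _))
  rw [← add_assoc, ← add_nsmul, ← add_assoc, ← hr, h0_congr eQ, e 1 le_rfl, h1, Nat.mul_one] at h2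
  exact h2.trans hN

end Pool.Agent.Work.MP_e57da2_ag
end

-- merged part: Pool.Agent.Work.MP_e57da2_ag.Core1
section
/-!
# Uniform vanishing for the twisted ideal of jets

Plans.  `chart_model`: `chart_filt`; `gen` is `koszul_gen` with `M = (d - g) • G` (`d - g ≥ 1`), `syz` is `koszul_syz` (write `g = g' + 1`) with `M = (d + 1 - g) • G`; divide by powers of `t 0`.
`core1`: `N` from `h0_bound k g (2 (g+1))`, `Λ₁` from `uniform_jets k g (g+1) N _ (2 u)`, `P` from `exists_common Λ₁ (2 u) (g + 1)`.  Given `A, L, x`: `G = 2 • L`, `t` from `exists_free_at`, `B` the ring of the chart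
(`Amp.aff`, `aff_noeth`, `pr_maximal`, `exists_value`); a prime `𝔭 ≤ pr hx` is `pr hξ` (`aff_point`, `aff_spec`), translate with `ell_eq_cd`, `hf_eq_rk`.  Then `js_of_chart`, `JS.nsmul`, `JS.add_gg` with
`(2 g + 2) • L + Q` (`PP.gg_pic0`), `M = 2 ((n + 1) m + g + 1)`, `PP.vanish`, `van_jet`.
-/

open CategoryTheory Limits AlgebraicGeometry TopologicalSpace MonoidalCategory
  CartesianMonoidalCategory MonObj

namespace Pool.Agent.Work.MP_e57da2_ag

theorem Core1_div {k : Type} [Field k] {X : Sch k} [IsIntegral X.left] {G : Dv X} {t₀ h : Fn X}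
    (hne : t₀ ≠ 0) {d : ℕ} (hh : h ∈ Gm (d • G) ⊤) :
    ∃ b : B X (loc G t₀), b ∈ chartF G t₀ d ∧ t₀ ^ d * b = h := by
  have e : t₀ ^ d * (h / t₀ ^ d) = h := mul_div_cancel₀ _ (pow_ne_zero _ hne)
  have hb : h / t₀ ^ d ∈ B X (loc G t₀) := by
    rw [mem_B]
    intro x hx
    have h2 := mem_Gm.1 hh x trivial
    rw [← ((mem_loc.1 hx).pow d).mul_mem_O_iff, mul_pow, mul_right_comm, e]
    exact h2
  exact ⟨⟨_, hb⟩, mem_chartF.2 (e.symm ▸ hh), e⟩

theorem chart_model {k : Type} [Field k] {X : Sch k} [IsIntegral X.left] [IsProper X.hom]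
    {G : Dv X} (hG : Amp G) {g : ℕ} (hg : 1 ≤ g) {t : Fin (g + 1) → Fn X}
    (ht : Free (fun _ => G) t) (van : ∀ d : ℕ, 1 ≤ d → Van (d • G)) :
    ∃ t' : Fin (g + 1) → B X (loc G (t 0)), Model (chartF G (t 0)) g (g + 1) t' := by
  obtain ⟨g, rfl⟩ := Nat.exists_eq_add_of_le' hg
  have hne := ht.ne 0
  choose t' m1 e1 using fun i => Core1_div (G := G) hne (d := 1) (h := t i)
    ((one_nsmul G).symm ▸ ht.mem i)
  simp only [pow_one] at e1
  have vn : ∀ d j : ℕ, Van ((d + 1) • G + j • G) := fun d j => by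
    rw [← add_nsmul]
    exact van _ (by omega)
  refine ⟨t', chart_filt hG (ht.mem 0) hne, ?_, m1, fun d hd v hv => ?_, fun d hd h hh h0 => ?_⟩
  · exact Subtype.ext (mul_left_cancel₀ hne ((e1 0).trans (_root_.mul_one _).symm))
  · obtain ⟨d, rfl⟩ := Nat.exists_eq_add_of_le' hd
    have hv' := mem_chartF.1 hv
    rw [show d + (g + 1 + 1) + 1 = (d + 1) + (g + 1 + 1) by ring, add_nsmul] at hv'
    obtain ⟨h, hh, hs⟩ := koszul_gen ht (vn d) hv'
    simp only [← add_nsmul, show d + 1 + (g + 1) = d + (g + 1 + 1) by ring] at hh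
    choose b mb eb using fun i => Core1_div hne (hh i)
    refine ⟨b, mb, Subtype.ext (mul_left_cancel₀ (pow_ne_zero (d + 1 + (g + 1 + 1)) hne) ?_)⟩
    rw [← hs]
    push_cast
    rw [Finset.mul_sum]
    refine Finset.sum_congr rfl fun i _ => ?_
    rw [← eb i, ← e1 i]
    ring
  · obtain ⟨d, rfl⟩ := Nat.exists_eq_add_of_le' hd
    have hh' : ∀ i, t 0 ^ (d + (g + 1 + 1) + 1) * h i ∈ Gm ((d + 1 + 1) • G + (g + 1) • G) ⊤ :=
      fun i => by
        rw [← add_nsmul, show d + 1 + 1 + (g + 1) = d + (g + 1 + 1) + 1 by ring]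
        exact mem_chartF.1 (hh i)
    have h0' : ∑ i, t i * (t 0 ^ (d + (g + 1 + 1) + 1) * h i) = 0 := by
      have h1 := congrArg (fun b : B X (loc G (t 0)) => t 0 ^ (d + (g + 1 + 1) + 2) * (b : Fn X)) h0
      push_cast at h1
      rw [mul_zero, Finset.mul_sum] at h1
      rw [← h1]
      refine Finset.sum_congr rfl fun i _ => ?_
      rw [← e1 i]
      ring
    obtain ⟨m, hm, m0, ma, me⟩ := koszul_syz ht (vn (d + 1)) hh' h0'
    simp only [← add_nsmul, show d + 1 + 1 + g = d + (g + 1 + 1) by ring] at hm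
    choose b mb eb using fun i j => Core1_div hne (hm i j)
    have hp := pow_ne_zero (d + (g + 1 + 1)) hne
    refine ⟨b, mb, fun i => Subtype.ext (mul_left_cancel₀ hp ?_),
      fun i j => Subtype.ext (mul_left_cancel₀ hp ?_),
      fun i => Subtype.ext (mul_left_cancel₀ (pow_ne_zero (d + (g + 1 + 1) + 1) hne) ?_)⟩
    · rw [eb, m0]
      exact (mul_zero _).symm
    · push_cast
      rw [mul_neg, eb, eb, ma]
    · rw [me]
      push_cast
      rw [Finset.mul_sum]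
      refine Finset.sum_congr rfl fun j _ => ?_
      rw [← eb i j, ← e1 j]
      ring

theorem core1 (k : Type) [Field k] [IsAlgClosed k] {g : ℕ} (hg : 1 ≤ g) {u : ℝ} (hu : 0 < u) :
    ∃ P : ℕ, 1 ≤ P ∧ ∀ (A : Sch k) [GrpObj A] [IsProper A.hom] [GeometricallyIntegral A.hom]
      (L : Dv A), PP g L → ∀ (x : Pt A) (w : ℝ), u < w →
      (∀ ξ : A.left, ξ ⤳ pt x → ∀ a₀ j₀ : ℕ, 1 ≤ a₀ →
        (∀ j, j₀ ≤ j → ell ξ (pt x) (j + 1) = ell ξ (pt x) j + a₀) →
        ∀ K : ℝ, ∃ m : ℕ, 2 * w * a₀ * m + K < rk (m • (2 • L)) ξ) →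
      ∃ M : ℕ, u * M < P ∧ ∀ Q : Dv A, cl Q ∈ pic0 A →
        VanF (tw (jet (pt x) (P + 1)) (M • L + Q)) := by
  obtain ⟨N, hN⟩ := h0_bound k g ((g + 1) * 2)
  have hu2 : 0 < 2 * u := by positivity
  obtain ⟨Λ, hΛ, H⟩ := uniform_jets k g (g + 1) N (Nat.le_add_left 1 g) (2 * u) hu2
  obtain ⟨P, hP, hc⟩ := exists_common Λ hu2 hΛ (g + 1)
  refine ⟨P, hP, fun A _ _ _ L h x w hw hyp => ?_⟩
  have hG : Amp (2 • L) := h.amp.nsmul two_pos
  obtain ⟨t, ht, hx⟩ := exists_free_at h.dim.le h.gg_two (pt x)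
  have van : ∀ d : ℕ, 1 ≤ d → Van (d • 2 • L) := fun d hd => by
    have := h.vanish (s := d * 2) (by omega) (Q := 0) (by rw [map_zero]; exact zero_mem _)
    rwa [add_zero, ← smul_smul] at this
  obtain ⟨t', hm⟩ := chart_model hG hg ht van
  have hU := hG.aff (ht.mem 0)
  have hgp := gp_mem hx
  have := aff_noeth hU hgp
  have hcl := pt_closed x
  obtain ⟨l, hl, hs⟩ := H _ _ t' (pr hx) (2 * w) hm
    (by rw [finrank_chartF (ht.mem 0) (ht.ne 0), smul_smul]; exact hN A L h)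
    (pr_maximal hU hx hcl)
    (fun b => (exists_value x (B_le_O hx b.2)).imp fun c hc => (mem_pr hx _).2 hc)
    (by linarith)
    (fun 𝔭 hp hle a₀ j₀ ha hj C => by
      obtain ⟨ξ, hξ, rfl⟩ := aff_point hU hgp 𝔭
      have hsp : ξ ⤳ pt x := (aff_spec hU hξ hx).2 hle
      obtain ⟨m, hm⟩ := hyp ξ hsp a₀ j₀ ha (fun j h => by
        rw [ell_eq_cd hU hx hξ hcl hsp, ell_eq_cd hU hx hξ hcl hsp]
        exact hj j h) C
      exact ⟨m, by rwa [hf_eq_rk hG (ht.mem 0) hξ]⟩)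
  obtain ⟨n, hn, hlt⟩ := hc l hl
  refine ⟨2 * ((n + 1) * l.1 + (g + 1)), ?_, fun Q hQ => ?_⟩
  · push_cast at hlt ⊢
    linarith
  · have h1 := ((js_of_chart hG (ht.mem 0) hx hcl hs).nsmul n).add_gg
      (h.gg_pic0 hQ (s := 2 * g + 2) (by omega))
    rw [hn, smul_smul, smul_smul, ← add_assoc, ← add_nsmul,
      show (n + 1) * l.1 * 2 + (2 * g + 2) = 2 * ((n + 1) * l.1 + (g + 1)) by ring] at h1
    exact van_jet (h.vanish (by omega) hQ) h1

end Pool.Agent.Work.MP_e57da2_ag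
end

-- merged part: Pool.Agent.Work.MP_e57da2_ag.Core2
section
/-!
# From jets along the fibre of multiplication by `b` to a lower bound on curves

Plan.  `μ = mulBy A b` is finite and dominant (`mulBy_finite`, `PP.dom`); the fibre is finite (`finite_fibre`, `exists_pt_of_finite`).  `semi_jets` gives `τ` and `W`; `sup_pow_pow` gives
`W ^ (m+1) ⊔ 𝔍 ^ ((m+1) p + 1) = ⊤`, and `W ^ (m+1)` lies in the corresponding space for `(m+1) • M`, `τ ^ (m+1)`.  Choose `ξ'` over `ξ` (`surjective_of_dom`).  It lies in `loc M τ`: the closed set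
`μ '' (loc M τ)ᶜ` may contain `ξ`, so choose `ξ'` with care: `exists_over_spec` gives `ξ' ⤳ z` with `μ z = pt x`, and `loc M τ` is open.  `low_rk` for `D = (m+1) • M`; `rk D ξ' ≤ rk (pl μ (n' • 2 • L)) ξ'` as soon as
`2 n' b ^ 2 ≥ (m+1) a b + 2 g + 1` (`pull_mulBy_sub`, `PP.gg_pic0`, `rk_le_add`, `rk_congr`); `up_rk` for `G = 2 • L`; cancel `resDeg` (`resDeg_pos`); `n = 2 (n' + c)` with `n'` minimal.
For `m = 0` take `n = 0` (`ell _ _ 0 = 0`).
`exists_over_spec`: in `B' = B Y (φ ⁻¹ᵁ U)`, integral over `B X U` with injective structure map: a prime over `pr ξ` (lying over), then a prime above it over `pr x` (going up,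
`Ideal.exists_ideal_over_prime_of_isIntegral`); `aff_point`, `aff_spec`.
-/

open CategoryTheory Limits AlgebraicGeometry TopologicalSpace MonoidalCategory
  CartesianMonoidalCategory MonObj

namespace Pool.Agent.Work.MP_e57da2_ag

variable {k : Type} [Field k]

theorem exists_over_spec {X Y : Sch k} [IsIntegral X.left] [IsIntegral Y.left] [IsProper X.hom]
    [IsProper Y.hom] {φ : Y ⟶ X} [IsFinite φ.left] (hφ : Dom φ) {ξ x : X.left} (h : ξ ⤳ x) :
    ∃ ξ' z : Y.left, ξ' ⤳ z ∧ φ.left ξ' = ξ ∧ φ.left z = x := by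
  obtain ⟨ξ', rfl⟩ := surjective_of_dom hφ ξ
  obtain ⟨z, h1, h2⟩ := (closed_image φ).specializingMap h
  exact ⟨ξ', z, h1, rfl, h2⟩

theorem Core2_pow {X : Sch k} [IsIntegral X.left] (S : Subalgebra k (Fn X)) (M : Dv X) (τ : Fn X)
    (n : ℕ) : (Gm M ⊤).comap ((LinearMap.mulLeft k τ).comp S.val.toLinearMap) ^ n ≤
      (Gm (n • M) ⊤).comap ((LinearMap.mulLeft k (τ ^ n)).comp S.val.toLinearMap) := by
  induction n with
  | zero =>
    rw [pow_zero, Submodule.one_le, zero_nsmul]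
    exact mem_Gm_zero.2 (by simp)
  | succ n ih =>
    rw [pow_succ, succ_nsmul]
    refine Submodule.mul_le.2 fun v hv w hw => ?_
    have h1 : τ ^ n * v * (τ * w) ∈ Gm (n • M + M) ⊤ := mul_mem_Gm (ih hv) hw
    rw [_root_.mul_mul_mul_comm, ← pow_succ] at h1
    exact h1

theorem Core2_ell {X : Sch k} [IsIntegral X.left] (y x : X.left) : ell y x 0 = 0 := by
  rw [ell, pow_zero, Ideal.one_eq_top, sup_top_eq]
  exact Module.finrank_zero_of_subsingleton

variable [IsAlgClosed k] {A : Sch k} [GrpObj A] [IsProper A.hom] [GeometricallyIntegral A.hom]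
  {L : Dv A} {g : ℕ}

theorem core2 (h : PP g L) {a b p : ℕ} (hb : 0 < b) (x : Pt A) {U : A.left.Opens}
    (hU : IsAffineOpen U) (hx : pt x ∈ U)
    (hj : ∀ σ ∈ Gm ((a * b) • L) ((mulBy A b).left ⁻¹ᵁ U), ∃ s ∈ Gm ((a * b) • L) ⊤,
      ∀ z, (mulBy A b).left z = pt x →
        (s - σ) * ((a * b) • L).f z ∈ jpow (mulBy A b) z (p + 1))
    {ξ : A.left} (hξ : ξ ⤳ pt x) : ∃ c₁ c₂ : ℕ, ∀ m, ∃ n, b * n ≤ a * m + c₂ ∧
      ell ξ (pt x) (m * p - c₁) ≤ rk (n • L) ξ := by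
  have := mulBy_finite h.amp hb
  have hμ := h.dom hb
  obtain ⟨τ, hτ, hloc, hW⟩ := semi_jets hμ x
    (((finite_fibre (mulBy A b) x).image pt).subset fun z hz => by
      obtain ⟨y, h1, h2⟩ := exists_pt_of_finite (mulBy A b) x hz
      exact ⟨y, h2, h1⟩) hU hx hj
  obtain ⟨ξ', z, hs, rfl, hz⟩ := exists_over_spec hμ hξ
  have h1 : ξ' ∈ loc ((a * b) • L) τ := hs.mem_open (loc _ _).isOpen (hloc z hz)
  obtain ⟨c₁, hc₁⟩ := low_rk hμ x hξ
  obtain ⟨c, hc⟩ := up_rk hμ (h.amp.nsmul two_pos) h.gg_two ξ'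
  refine ⟨c₁, 2 * g + 1 + 2 * b + 2 * b * c, fun m => ?_⟩
  obtain _ | m := m
  · exact ⟨0, Nat.zero_le _, by rw [zero_mul, Nat.zero_sub, Core2_ell]; exact Nat.zero_le _⟩
  have h2 := hc₁ ((m + 1) • (a * b) • L) (τ ^ (m + 1)) ((m + 1) * p) (h.amp.fin _)
    (by rwa [loc_pow hτ m.succ_pos]) (top_le_iff.1 ((sup_pow_pow _ hW m).ge.trans
      (sup_le_sup (Core2_pow _ _ _ _) (Ideal.pow_le_pow_right (Nat.le_succ _)))))
  obtain ⟨n, h3, h4⟩ : ∃ n, a * (m + 1) + (2 * g + 1) ≤ 2 * b * n ∧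
      2 * b * n ≤ a * (m + 1) + (2 * g + 1) + 2 * b :=
    ⟨(a * (m + 1) + (2 * g + 1)) / (2 * b) + 1, (Nat.lt_mul_div_succ _ (by omega)).le, by
      rw [mul_add, _root_.mul_one]
      exact Nat.add_le_add_right (Nat.mul_div_le _ _) _⟩
  obtain ⟨e, h5, h6⟩ : ∃ e, 2 * g + 1 ≤ e ∧ b ^ 2 * (n * 2) = (m + 1) * (a * b) + e := by
    have h7 := Nat.mul_le_mul_left b h3
    have h8 : 2 * g + 1 ≤ b * (2 * g + 1) := Nat.le_mul_of_pos_left _ hb
    obtain ⟨d, hd⟩ := Nat.exists_eq_add_of_le h7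
    exact ⟨b * (2 * g + 1) + d, by omega, by linarith⟩
  obtain ⟨Q, hQ, hQ'⟩ := vanish_pl h.amp b (n * 2)
  obtain ⟨s, h7, h8⟩ := h.gg_pic0 hQ h5 ξ'
  have := h.amp.fin ((m + 1) • (a * b) • L + (e • L + Q))
  have h9 := rk_le_add (D := (m + 1) • (a * b) • L) h7 h8
  rw [← add_assoc, ← mul_smul, ← add_smul, ← h6, rk_congr hQ', mul_smul n] at h9
  rw [← mul_smul] at h2
  refine ⟨(n + c) * 2, by linarith, ?_⟩
  rw [mul_smul]
  exact Nat.le_of_mul_le_mul_left (h2.trans (h9.trans (hc n))) (resDeg_pos hμ ξ')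

end Pool.Agent.Work.MP_e57da2_ag
end

-- merged part: Pool.Agent.Work.MP_e57da2_ag.Cech2
section
/-!
# Cohomology of represented sheaves

Plans.  `Rep.qcOn`: `basicOpen_eq`, `QC.ext`, `EmbOn.onto`, `EmbOn.inj`; if `f = 0` the basic open set is empty (`sec_eq_of_gp`; take `n = 1` for `tor`).
`Rep.ext_zero`: `exists_cover`, `ext_zero_of_cech` with the algebra structure `(cst X).toAlgebra`, `van_aff_inf` (or `IsAffineOpen.inf`-like), `gp_mem_inf`; apply `ev e` to the cochains, `ev_res`.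
`RepOn.mv`: `mv_surj`.
-/

open CategoryTheory Limits AlgebraicGeometry TopologicalSpace Opposite Abelian

namespace Pool.Agent.Work.MP_e57da2_ag

open Pool.Agent.Work.MP_910138_ag

variable {k : Type} [Field k] {X : Sch k} [IsIntegral X.left] {M : X.left.Modules}
  {U V : X.left.Opens} {F : X.left → Submodule k (Fn X)}

theorem Rep.qcOn (h : Rep M F) (hF : QC F) (hU : IsAffineOpen U) (hg : gp X ∈ U) :
    QCOn U M := by
  obtain ⟨e, he⟩ := h
  have key : ∀ f : Γ(X.left, U), gp X ∈ X.left.basicOpen f ↔ germ X U hg f ≠ 0 := fun f => by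
    rw [basicOpen_eq hg, Opens.mem_inf, mem_ul, isU_gp, and_iff_right hg]
  refine ⟨fun f s => ?_, fun f t ht => ?_⟩
  · by_cases hb : gp X ∈ X.left.basicOpen f
    · obtain ⟨n, hn⟩ := hF.ext U hU hg _ (germ_mem_B hg f) ((key f).1 hb) (ev e hb s)
        (by rw [← basicOpen_eq hg]; exact he.into _ hb s)
      obtain ⟨t, ht⟩ := he.onto U le_top hg _ hn
      refine ⟨n, t, he.inj _ le_top hb ?_⟩
      rw [ev_res, ev_smul, map_pow, germ_res, ht]
    · exact ⟨0, 0, sec_eq_of_gp hb _ _⟩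
  · refine ⟨1, he.inj U le_top hg ?_⟩
    rw [ev_smul, map_zero, pow_one, mul_eq_zero]
    by_cases hb : gp X ∈ X.left.basicOpen f
    · right
      rw [← ev_res e (X.left.basicOpen_le f) hb, ht, map_zero]
    · exact Or.inl (not_not.1 (mt (key f).2 hb))

theorem Rep.ext_zero [IsProper X.hom] (h : Rep M F) (hF : QC F) (hv : VanF F) (i : ℕ)
    (α : Ext (OX X.left) M (i + 1)) : α = 0 := by
  obtain ⟨n, U, hU⟩ := exists_cover (X := X)
  let := (cst X).toAlgebra
  refine ext_zero_of_cech k U hU.cov (fun S hS => aff_finset_inf hU.aff hS)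
    (fun S hS => h.qcOn hF (aff_finset_inf hU.aff hS) (gp_mem_inf hU.gp S)) ?_ i α
  obtain ⟨e, he⟩ := h
  have key : ∀ (c : ∀ S : Finset (Fin n), Γ(M, S.inf U)) (S : Finset (Fin n)),
      ev e (gp_mem_inf hU.gp S) (cechD U c S) =
        dd (fun T => ev e (gp_mem_inf hU.gp T) (c T)) S := fun c S => by
    rw [cechD, map_sum, dd_apply]
    refine Finset.sum_congr rfl fun j _ => ?_
    rw [map_zsmul, ev_res]
  intro q c _ hc
  have h1 : Mem (sys F ⊤ U) fun T => ev e (gp_mem_inf hU.gp T) (c T) := fun T => by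
    rw [sys, top_inf_eq]
    exact he.into _ _ _
  have h2 : dd (fun T => ev e (gp_mem_inf hU.gp T) (c T)) = 0 := by
    funext S
    rw [← key, hc, map_zero, Pi.zero_apply]
  obtain ⟨b, hb, hd⟩ := hv (Fin n) U hU _ h1 h2
  have h3 : ∀ T : Finset (Fin n), ∃ s : Γ(M, T.inf U), ev e (gp_mem_inf hU.gp T) s = b T := by
    intro T
    have h4 := hb T
    rw [sys, top_inf_eq] at h4
    exact he.onto (T.inf U) le_top (gp_mem_inf hU.gp T) (b T) h4
  choose b' hb' using h3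
  refine ⟨b', fun S => he.inj _ le_top (gp_mem_inf hU.gp S) ?_⟩
  rw [key, funext hb', hd]

theorem RepOn.mv (h : RepOn V M F) (hUV : U ⊔ V = ⊤) (hU : gp X ∈ U) (hV : gp X ∈ V)
    (h1 : ∀ α : Ext (OX X.left) M 1, α = 0) {σ : Fn X} (hσ : σ ∈ secs F (U ⊓ V)) :
    ∃ a ∈ secs F U, ∃ b ∈ secs F V, σ = a - b := by
  obtain ⟨e, he⟩ := h
  have hg : gp X ∈ U ⊓ V := ⟨hU, hV⟩
  obtain ⟨s, rfl⟩ := he.onto (U ⊓ V) inf_le_right hg σ hσ
  obtain ⟨a, b, rfl⟩ := mv_surj hUV h1 s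
  exact ⟨_, he.into U hU a, _, he.into V hV b, by rw [map_sub, ev_res, ev_res]⟩

end Pool.Agent.Work.MP_e57da2_ag
end

-- merged part: Pool.Agent.Work.MP_e57da2_ag.Main
section
/-! # The main theorem -/

open CategoryTheory Limits AlgebraicGeometry TopologicalSpace MonoidalCategory
  CartesianMonoidalCategory Abelian Filter
open scoped ENNReal

namespace Pool.Agent.Work.MP_e57da2_ag

open Pool.Agent.Work.MP_910138_ag

variable {k : Type} [Field k]

theorem degree_eq {C X : Sch k} [IsIntegral X.left] [IsIntegral C.left] (φ : C ⟶ X)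
    {L : X.left.Modules} {D : Dv X} (h : Rep L (st D)) : degree φ L = degI φ D :=
  congrArg (limsup · atTop) (funext fun m => by rw [((h.tpow m).pull φ).hzero_eq])

theorem mult_eq {C X : Sch k} [IsIntegral X.left] [IsProper X.hom] [IsIntegral C.left]
    (φ : C ⟶ X) [IsClosedImmersion φ.left] (x : Pt X) {c : C.left} (hc : φ.left c = pt x) :
    mult c = multI (φ.left (gp C)) (pt x) :=
  congrArg (limsup · atTop) (funext fun j => by
    rw [length_eq_ell φ x hc j, ENat.toENNReal_coe])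

theorem gp_ne_of_dim {X : Sch k} [IsIntegral X.left] {g : ℕ} (hg : 1 ≤ g)
    (h : topologicalKrullDim X.left = g) {x : X.left} (hx : IsClosed ({x} : Set X.left)) :
    gp X ≠ x := fun e => by
  have : Subsingleton X.left := ⟨fun a b => by
    have ha := (gp_spec X a).mem_closure
    have hb := (gp_spec X b).mem_closure
    rw [e, hx.closure_eq] at ha hb
    exact ha.trans hb.symm⟩
  have h0 := topologicalKrullDim_zero_of_discreteTopology X.left
  rw [h] at h0
  have : g ≤ 0 := by exact_mod_cast h0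
  omega

variable [IsAlgClosed k] {A : Sch k} [GrpObj A] [IsProper A.hom] [GeometricallyIntegral A.hom]
  {L : A.left.Modules} {D : Dv A} {g : ℕ}

omit [IsAlgClosed k] in
theorem beta_le (hL : Rep L (st D)) {x : A.left} (hx : IsClosed ({x} : Set A.left)) {M p : ℕ}
    (h : ∀ Q : Dv A, cl Q ∈ pic0 A → VanF (tw (jet x (p + 1)) (M • D + Q))) : beta L x p ≤ M := by
  have i : (Scheme.Modules.pullback (mulBy A 1).left).obj (idealPow x (p + 1)) ≅
      idealPow x (p + 1) :=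
    (Scheme.Modules.pullbackCongr (congrArg Over.Hom.left mulBy_one) ≪≫
      Scheme.Modules.pullbackId A.left).app _
  refine iInf_le_of_le M (iInf_le_of_le 1 (iInf_le_of_le one_pos (iInf_le_of_le ?_ (by simp))))
  intro P hP j α
  obtain ⟨Q, hQ⟩ := exists_rep hP.1
  have h1 := (((rep_idealPow x (p + 1)).of_iso i).tens (hL.tpow (M * 1))).tens hQ
  rw [tw_tw, mul_one] at h1
  exact Rep.ext_zero (by rwa [mul_one]) (qc_jet x (p + 1) _ hx) (h Q (hQ.pic0 hP)) j α

theorem jets_of_it0 (hg : 1 ≤ g) (h : PP g D) (hL : Rep L (st D)) (x : Pt A) {a b p : ℕ}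
    (hb : 0 < b) (hI : IsIT0 (tens ((Scheme.Modules.pullback (mulBy A b).left).obj
      (idealPow (pt x) (p + 1))) (tpow L (a * b)))) {U : A.left.Opens} (hx : pt x ∈ U) :
    ∀ σ ∈ Gm ((a * b) • D) ((mulBy A b).left ⁻¹ᵁ U), ∃ s ∈ Gm ((a * b) • D) ⊤,
      ∀ z, (mulBy A b).left z = pt x →
        (s - σ) * ((a * b) • D).f z ∈ jpow (mulBy A b) z (p + 1) := by
  intro σ hσ
  have h1 := ((repOn_pull_idealPow (mulBy A b) (pt_closed x) (p + 1)).tens (hL.tpow (a * b))).tens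
    rep_OX
  rw [tw_zero] at h1
  have hle : ∀ {v : Fn A} {W : A.left.Opens},
      v ∈ secs (tw (fibI (mulBy A b) (pt x) (p + 1)) ((a * b) • D)) W → v ∈ Gm ((a * b) • D) W :=
    fun hv => mem_Gm.2 fun z hz => fibI_le _ _ _ _ (mem_secs.1 hv z hz)
  obtain ⟨s, hs, t, ht, e⟩ := h1.mv (U := (mulBy A b).left ⁻¹ᵁ U) (σ := σ)
    (eq_top_iff.2 fun z _ => by
      by_cases hz : (mulBy A b).left z = pt x
      · exact Opens.mem_sup.2 (Or.inl (show (mulBy A b).left z ∈ U from hz ▸ hx))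
      · exact Opens.mem_sup.2 (Or.inr hz))
    ((h.dom hb).gp_mem (gp_mem hx))
    ((h.dom hb).gp_mem (gp_ne_of_dim hg h.dim (pt_closed x)))
    (hI _ (isPicZero_OX A) 0)
    (mem_secs.2 fun z hz => by
      rw [mem_tw, fibI, if_neg (show ¬ (mulBy A b).left z = pt x from hz.2)]
      exact mem_Gm.1 hσ z hz.1)
  refine ⟨-t, mem_secs.2 fun z _ => ?_, fun z hz => ?_⟩
  · by_cases hz : (mulBy A b).left z = pt x
    · have hzU : z ∈ (mulBy A b).left ⁻¹ᵁ U := show (mulBy A b).left z ∈ U from hz ▸ hx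
      rw [show -t = σ - s by rw [e]; ring]
      exact sub_mem (mem_secs.1 hσ z hzU) (mem_secs.1 (hle hs) z hzU)
    · exact neg_mem (mem_secs.1 (hle ht) z hz)
  · have hzU : z ∈ (mulBy A b).left ⁻¹ᵁ U := show (mulBy A b).left z ∈ U from hz ▸ hx
    have h2 := mem_secs.1 hs z hzU
    rw [mem_tw, fibI, if_pos hz] at h2
    rw [show -t - σ = -s by rw [e]; ring, neg_mul]
    exact neg_mem h2

theorem le_seshadri (hg : 1 ≤ g) (h : PP g D) (hL : Rep L (st D)) (x : Pt A) {a b p : ℕ}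
    (hb : 0 < b) (hp : 0 < p) (hI : IsIT0 (tens ((Scheme.Modules.pullback (mulBy A b).left).obj
      (idealPow (pt x) (p + 1))) (tpow L (a * b)))) :
    ((p * b : ℕ) : ℝ≥0∞) / a ≤ seshadri L (pt x) := by
  refine le_iInf fun C => le_iInf fun φ => le_iInf fun _ => le_iInf fun _ => le_iInf fun hd =>
    le_iInf fun c => le_iInf fun hc => ?_
  obtain ⟨_, ⟨U, hU, rfl⟩, hx, -⟩ :=
    A.left.isBasis_affineOpens.exists_subset_of_mem_open (Set.mem_univ (pt x)) isOpen_univ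
  obtain ⟨c₁, c₂, key⟩ := core2 h hb x hU hx (jets_of_it0 hg h hL x hb hI hx)
    (hc ▸ spec_gp φ c : φ.left (gp C) ⤳ pt x)
  rw [degree_eq φ hL, mult_eq φ x hc]
  exact le_degI_div φ h.amp x hd hc hb hp key

theorem main_arith {u : ℝ} (hu : 0 < u) {a b p : ℕ} (hb : 0 < b) (hp : 0 < p)
    (h : (a : ℝ≥0∞) / b < ENNReal.ofReal (p / u)) : ENNReal.ofReal u < ((p * b : ℕ) : ℝ≥0∞) / a := by
  rcases Nat.eq_zero_or_pos a with rfl | ha
  · rw [Nat.cast_zero, ENNReal.div_zero (Nat.cast_ne_zero.2 (Nat.mul_pos hp hb).ne')]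
    exact ENNReal.ofReal_lt_top
  · have ha' : (0 : ℝ) < a := Nat.cast_pos.2 ha
    have hb' : (0 : ℝ) < b := Nat.cast_pos.2 hb
    have hp' : (0 : ℝ) < p := Nat.cast_pos.2 hp
    rw [diff_cast_div _ _ hb, ENNReal.ofReal_lt_ofReal_iff (div_pos hp' hu),
      div_lt_div_iff₀ hb' hu] at h
    rw [diff_cast_div _ _ ha, ENNReal.ofReal_lt_ofReal_iff_of_nonneg hu.le, lt_div_iff₀ ha',
      Nat.cast_mul, mul_comm]
    exact h

theorem main (k : Type) [Field k] [IsAlgClosed k] (g : ℕ) (hg : 1 ≤ g) (u : ℝ) (hu : 0 < u) :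
    ∃ p : ℕ, 1 ≤ p ∧ ∀ (A : Sch k) [GrpObj A] [IsProper A.hom] [GeometricallyIntegral A.hom],
      topologicalKrullDim A.left = g → ∀ L : A.left.Modules, IsLine L → IsAmple L →
        hzero A L = 1 → ∀ x : A.left, IsClosed ({x} : Set A.left) →
          (ENNReal.ofReal u < seshadri L x ↔ beta L x p < ENNReal.ofReal (p / u)) := by
  obtain ⟨p, hp, H⟩ := core1 k hg hu
  refine ⟨p, hp, fun A _ _ _ hd L hl ha h1 x hx => ?_⟩
  obtain ⟨D, hD⟩ := exists_rep (X := A) hl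
  obtain ⟨x, rfl⟩ := exists_pt hx
  have hP : PP g D := ⟨hd, hD.amp ha, hD.hzero_eq ▸ h1⟩
  refine ⟨fun h => ?_, fun h => ?_⟩
  · obtain ⟨w, hw, huw, hws⟩ := ENNReal.lt_iff_exists_real_btwn.1 h
    obtain ⟨M, hM, hv⟩ := H A D hP x w ((ENNReal.ofReal_lt_ofReal_iff_of_nonneg hu.le).1 huw)
      fun ξ hξ a₀ j₀ ha₀ hj K => curve_bound hP.amp hP.gg_two x hw
        (fun C φ i₁ i₂ hC ⟨c, hc⟩ => hws.trans_le (by
          rw [← degree_eq φ hD, ← mult_eq φ x hc]
          exact iInf_le_of_le C (iInf_le_of_le φ (iInf_le_of_le i₁ (iInf_le_of_le i₂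
            (iInf_le_of_le hC (iInf_le_of_le c (iInf_le_of_le hc le_rfl)))))))) hξ ha₀ hj K
    refine (beta_le hD hx hv).trans_lt ?_
    rw [← ENNReal.ofReal_natCast, ENNReal.ofReal_lt_ofReal_iff_of_nonneg (Nat.cast_nonneg M),
      lt_div_iff₀ hu, mul_comm]
    exact hM
  · simp only [beta, iInf_lt_iff] at h
    obtain ⟨a, b, hb, hI, h⟩ := h
    exact (main_arith hu hb hp h).trans_le (le_seshadri hg hP hD x hb hp hI)

end Pool.Agent.Work.MP_e57da2_ag
end
end
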